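import Pool.Agent.Lib.MP_fc51f7_nt.Local

-- part Pool.Agent.Lib.MP_fc51f7_nt.TypeI
section

/-! Type I sums: sieve weights in an arithmetic progression. -/

set_option autoImplicit false
set_option linter.unusedSectionVars false

namespace Pool.Agent.Lib.MP_fc51f7_nt

open Finset

theorem crt_two {a b : ℕ} (h : Nat.Coprime a b) (ha : a ≠ 0) (hb : b ≠ 0) (f g : ℕ → ℝ)
    (hf : ∀ n, f (n % a) = f n) (hg : ∀ n, g (n % b) = g n) :
    ∑ n ∈ range (a * b), f n * g n = (∑ n ∈ range a, f n) * ∑ n ∈ range b, g n := by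
  rw [sum_mul_sum, ← sum_product']
  refine sum_nbij' (fun n => (n % a, n % b)) (fun x => (Nat.chineseRemainder h x.1 x.2 : ℕ))
    ?_ ?_ ?_ ?_ ?_
  · intro n _
    simp [Nat.mod_lt _ (Nat.pos_of_ne_zero ha), Nat.mod_lt _ (Nat.pos_of_ne_zero hb)]
  · intro x _
    simpa using Nat.chineseRemainder_lt_mul h x.1 x.2 ha hb
  · intro n hn
    have h1 := Nat.chineseRemainder_modEq_unique h (a := n % a) (b := n % b) (z := n)
      (Nat.mod_modEq n a).symm (Nat.mod_modEq n b).symm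
    have h2 := Nat.chineseRemainder_lt_mul h (n % a) (n % b) ha hb
    exact (Nat.ModEq.eq_of_lt_of_lt h1 (mem_range.mp hn) h2).symm
  · rintro ⟨x, y⟩ hx
    simp only [mem_product, mem_range] at hx
    have h1 := (Nat.chineseRemainder h x y).2
    ext
    · simpa [Nat.ModEq, Nat.mod_eq_of_lt hx.1] using h1.1
    · simpa [Nat.ModEq, Nat.mod_eq_of_lt hx.2] using h1.2
  · intro n _
    simp [hf, hg]

theorem crt_prod {ι : Type} [DecidableEq ι] (q : ι → ℕ) (hq : ∀ i, (q i).Prime)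
    (hinj : Function.Injective q) {W : ℕ} (hW : W ≠ 0) (hWq : ∀ i, Nat.Coprime W (q i))
    (ψ : ℕ → ℝ) (hψ : ∀ n, ψ (n % W) = ψ n) (θ : ι → ℕ → ℝ) (hθ : ∀ i n, θ i (n % q i) = θ i n)
    (E : Finset ι) :
    (∀ n, ψ (n % (W * ∏ i ∈ E, q i)) * ∏ i ∈ E, θ i (n % (W * ∏ i ∈ E, q i)) =
      ψ n * ∏ i ∈ E, θ i n) ∧
    ∑ n ∈ range (W * ∏ i ∈ E, q i), ψ n * ∏ i ∈ E, θ i n =
      (∑ n ∈ range W, ψ n) * ∏ i ∈ E, ∑ n ∈ range (q i), θ i n := by
  have per : ∀ E : Finset ι, ∀ n, ψ (n % (W * ∏ i ∈ E, q i)) *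
      ∏ i ∈ E, θ i (n % (W * ∏ i ∈ E, q i)) = ψ n * ∏ i ∈ E, θ i n := by
    intro E n
    rw [← hψ, Nat.mod_mod_of_dvd _ (dvd_mul_right _ _), hψ]
    congr 1
    refine prod_congr rfl fun i hi => ?_
    rw [← hθ, Nat.mod_mod_of_dvd _ ((dvd_prod_of_mem q hi).mul_left _), hθ]
  refine ⟨per E, ?_⟩
  induction E using Finset.induction_on with
  | empty => simp
  | insert j E hj ih =>
    have hc : Nat.Coprime (W * ∏ i ∈ E, q i) (q j) :=
      Nat.Coprime.mul_left (hWq j) (Nat.Coprime.prod_left fun i hi =>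
        (Nat.coprime_primes (hq i) (hq j)).2 fun h => hj (hinj h ▸ hi))
    have := crt_two hc (mul_ne_zero hW (prod_ne_zero_iff.2 fun i _ => (hq i).ne_zero))
      (hq j).ne_zero (fun n => ψ n * ∏ i ∈ E, θ i n) (θ j) (per E) (hθ j)
    simp only [prod_insert hj]
    rw [show W * (q j * ∏ i ∈ E, q i) = W * (∏ i ∈ E, q i) * q j by ring]
    rw [ih] at this
    refine (sum_congr rfl fun n _ => by ring).trans (this.trans (by ring))

theorem periodic_range {Q : ℕ} (hQ : Q ≠ 0) (f : ℕ → ℝ) (hf : ∀ n, f (n % Q) = f n) (t : ℕ) :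
    |∑ n ∈ range t, f n - t / Q * ∑ n ∈ range Q, f n| ≤ 2 * ∑ n ∈ range Q, |f n| := by
  have hQ' : (0 : ℝ) < Q := by positivity
  have key : ∀ t, ∑ n ∈ range (t + Q), f n = ∑ n ∈ range t, f n + ∑ n ∈ range Q, f n := by
    intro t
    induction t with
    | zero => simp
    | succ t ih =>
      rw [show t + 1 + Q = (t + Q) + 1 by ring, sum_range_succ, sum_range_succ, ih, ← hf (t + Q),
        Nat.add_mod_right, hf]; ring
  induction t using Nat.strong_induction_on with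
  | _ t ih =>
    by_cases ht : t < Q
    · have h1 : |∑ n ∈ range t, f n| ≤ ∑ n ∈ range Q, |f n| :=
        (abs_sum_le_sum_abs _ _).trans (sum_le_sum_of_subset_of_nonneg
          (range_subset_range.2 ht.le) fun _ _ _ => abs_nonneg _)
      have h2 : |(t : ℝ) / Q * ∑ n ∈ range Q, f n| ≤ ∑ n ∈ range Q, |f n| := by
        rw [abs_mul]
        refine (mul_le_of_le_one_left (abs_nonneg _) ?_).trans (abs_sum_le_sum_abs _ _)
        rw [abs_of_nonneg (by positivity), div_le_one hQ']; exact_mod_cast ht.le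
      exact (abs_sub _ _).trans (by linarith)
    · obtain ⟨s, rfl⟩ : ∃ s, t = s + Q := ⟨t - Q, by omega⟩
      have := ih s (by omega)
      rw [key]
      convert this using 2
      push_cast; field_simp; ring

theorem periodic_Ioc {Q : ℕ} (hQ : Q ≠ 0) (f : ℕ → ℝ) (hf : ∀ n, f (n % Q) = f n) {N1 N2 : ℕ}
    (hN : N1 ≤ N2) :
    |∑ n ∈ Ioc N1 N2, f n - ((N2 : ℝ) - N1) / Q * ∑ n ∈ range Q, f n| ≤
      4 * ∑ n ∈ range Q, |f n| := by
  have h1 := periodic_range hQ f hf (N1 + 1)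
  have h2 := periodic_range hQ f hf (N2 + 1)
  have e : ∑ n ∈ Ioc N1 N2, f n = ∑ n ∈ range (N2 + 1), f n - ∑ n ∈ range (N1 + 1), f n := by
    rw [← sum_Ico_eq_sub f (by omega)]
    refine sum_congr ?_ fun _ _ => rfl
    ext n; simp only [mem_Ioc, mem_Ico]; omega
  rw [e]
  push_cast at h1 h2
  rw [abs_le] at *
  have e2 : ((N2 : ℝ) - N1) / Q * ∑ n ∈ range Q, f n =
      ((N2 : ℝ) + 1) / Q * ∑ n ∈ range Q, f n - ((N1 : ℝ) + 1) / Q * ∑ n ∈ range Q, f n := by ring
  rw [e2]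
  constructor <;> linarith [h1.1, h1.2, h2.1, h2.2]

theorem xi_mod (p n : ℕ) (c : ℤ) : xi p ((n % p : ℕ) + c) = xi p (n + c) := by
  unfold xi
  have : ((p : ℤ) ∣ (n % p : ℕ) + c) ↔ (p : ℤ) ∣ n + c := by
    rw [show (n : ℤ) + c = ((n % p : ℕ) + c) + p * (n / p : ℕ) by
      have := Nat.mod_add_div n p; push_cast; have := Int.emod_add_mul_ediv (n : ℤ) p; linarith]
    exact (dvd_add_left (dvd_mul_right _ _)).symm
  simp only [this]

theorem abs_xi_le {p : ℕ} (hp : 2 ≤ p) (m : ℤ) : |xi p m| ≤ 1 := by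
  have h2 : (2 : ℝ) ≤ p := by exact_mod_cast hp
  unfold xi
  split_ifs
  · simp
  · rw [abs_of_nonneg (inv_nonneg.2 (by linarith))]; exact inv_le_one_of_one_le₀ (by linarith)

section
variable {ι κ : Type} [Fintype ι] [DecidableEq ι] [Fintype κ] [DecidableEq κ]

theorem abs_loc_le {p : ℕ} (hp : 2 ≤ p) (g : κ → ℤ) (A : Finset κ) (m : ℤ) :
    |loc p g A m| ≤ 1 := by
  rw [loc, abs_prod]; exact prod_le_one (fun _ _ => abs_nonneg _) fun _ _ => abs_xi_le hp _

theorem sum_abs_loc {p : ℕ} (hp : 2 ≤ p) (g : κ → ℤ) {A : Finset κ} (hA : A ≠ ∅) :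
    ∑ r ∈ range p, |loc p g A r| ≤ 3 := by
  obtain ⟨j, hj⟩ := nonempty_iff_ne_empty.2 hA
  have h2 : (2 : ℝ) ≤ p := by exact_mod_cast hp
  have h0 : 0 ≤ ((p : ℝ) - 1)⁻¹ := inv_nonneg.2 (by linarith)
  calc _ ≤ ∑ r ∈ range p, (((p : ℝ) - 1)⁻¹ + if (p : ℤ) ∣ (r : ℤ) + g j then 1 else 0) := by
        refine sum_le_sum fun r _ => ?_
        rw [loc, ← mul_prod_erase _ _ hj, abs_mul]
        refine (mul_le_of_le_one_right (abs_nonneg _) (abs_loc_le hp g _ _)).trans ?_
        unfold xi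
        split_ifs
        · simpa using h0
        · rw [abs_of_nonneg h0, add_zero]
    _ ≤ 3 := by
        rw [sum_add_distrib, sum_dvd_one (by omega), sum_const, card_range, nsmul_eq_mul]
        have : (p : ℝ) * ((p : ℝ) - 1)⁻¹ ≤ 2 := by
          rw [← div_eq_mul_inv, div_le_iff₀ (by linarith)]; linarith
        linarith

theorem cond_approx {p : ℕ} (h16 : 16 < p) {g : κ → ℤ} (hg : Function.Injective g)
    (hg8 : ∀ j, |g j| ≤ 8) {j0 : κ} (hj0 : g j0 = 0) {A A' : Finset κ} (hA : j0 ∉ A)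
    (hA' : j0 ∉ A') : |loc p g A 0 * loc p g A' 0 - ind p A A'| ≤ 2 / p := by
  have hp : (16 : ℝ) < p := by exact_mod_cast h16
  have h0 : 0 ≤ ((p : ℝ) - 1)⁻¹ := inv_nonneg.2 (by linarith)
  have h1 : ((p : ℝ) - 1)⁻¹ ≤ 1 := inv_le_one_of_one_le₀ (by linarith)
  have h2 : ((p : ℝ) - 1)⁻¹ ≤ 2 / p := by
    rw [inv_eq_one_div, div_le_div_iff₀ (by linarith) (by linarith)]; linarith
  have hl : ∀ B : Finset κ, j0 ∉ B → loc p g B 0 = ((p : ℝ) - 1)⁻¹ ^ B.card := by
    intro B hB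
    rw [loc, ← prod_const]
    refine prod_congr rfl fun j hj => if_neg fun h => ?_
    have hne : g j ≠ 0 := fun h' => hB (hg (h'.trans hj0.symm) ▸ hj)
    have := Int.le_of_dvd (abs_pos.2 hne) ((dvd_abs _ _).2 (by simpa using h))
    have := hg8 j
    omega
  have hb : ∀ n, n ≠ 0 → ((p : ℝ) - 1)⁻¹ ^ n ≤ 2 / p := fun n hn =>
    (pow_le_of_le_one h0 h1 hn).trans h2
  rw [hl A hA, hl A' hA', ← pow_add, ind]
  by_cases he : A.card + A'.card = 0
  · have h3 : A = ∅ := card_eq_zero.1 (by omega)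
    have h4 : A' = ∅ := card_eq_zero.1 (by omega)
    subst h3 h4; simp; positivity
  · have h3 := hb _ he
    have h4 := pow_nonneg h0 (A.card + A'.card)
    split_ifs with h
    · subst h
      have h5 := hb A.card (by omega)
      have h6 := pow_nonneg h0 A.card
      rw [abs_le]; constructor <;> linarith
    · rwa [sub_zero, abs_of_nonneg h4]

theorem typeI_error (q : ι → ℕ) (hq : ∀ i, 2 ≤ q i) (hinj : Function.Injective q)
    (hκ : Fintype.card κ ≤ 4) {σ : ℝ} (hσ : 1 < σ) :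
    ∏ i, ∑ A : Finset κ, ∑ A' : Finset κ, (if A = ∅ ∧ A' = ∅ then 1 else 3) *
        Real.exp (-(σ * ((A.card : ℝ) + A'.card) * Real.log (q i))) ≤
      Real.exp (768 * ∑' n : ℕ, (n : ℝ) ^ (-σ)) := by
  have hs : Summable fun n : ℕ => (n : ℝ) ^ (-σ) := Real.summable_nat_rpow.2 (by linarith)
  calc _ ≤ ∏ i, Real.exp (768 * (q i : ℝ) ^ (-σ)) := by
        refine prod_le_prod (fun i _ => sum_nonneg fun A _ => sum_nonneg fun A' _ => by
          split_ifs <;> positivity) fun i _ => ?_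
        have h2 : (2 : ℝ) ≤ q i := by exact_mod_cast hq i
        have hl : 0 ≤ Real.log (q i) := Real.log_nonneg (by linarith)
        refine le_trans ?_ (Real.add_one_le_exp _)
        calc _ ≤ ∑ A : Finset κ, ∑ A' : Finset κ,
              ((if ∅ = A' then (if ∅ = A then 1 else 0) else 0) + 3 * (q i : ℝ) ^ (-σ)) := by
              refine sum_le_sum fun A _ => sum_le_sum fun A' _ => ?_
              by_cases h : A = ∅ ∧ A' = ∅
              · obtain ⟨rfl, rfl⟩ := h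
                simp; positivity
              · rw [if_neg h, Real.rpow_def_of_pos (by linarith)]
                refine le_add_of_nonneg_of_le (by split_ifs <;> norm_num) ?_
                have h1 : 1 ≤ A.card + A'.card := by
                  by_contra h'
                  exact h ⟨card_eq_zero.1 (by omega), card_eq_zero.1 (by omega)⟩
                have h3 : (1 : ℝ) ≤ A.card + A'.card := by exact_mod_cast h1
                gcongr
                nlinarith [mul_nonneg (mul_nonneg (show 0 ≤ σ by linarith) (sub_nonneg.2 h3)) hl]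
          _ ≤ _ := by
              simp only [sum_add_distrib, sum_ite_eq, mem_univ, if_true, sum_const, card_univ,
                Fintype.card_finset, nsmul_eq_mul]
              have h4 : ((2 ^ Fintype.card κ : ℕ) : ℝ) ≤ 16 := by
                exact_mod_cast (Nat.pow_le_pow_right two_pos hκ)
              have h5 : 0 ≤ (q i : ℝ) ^ (-σ) := by positivity
              have h6 : (0 : ℝ) ≤ ((2 ^ Fintype.card κ : ℕ) : ℝ) := by positivity
              nlinarith [mul_le_mul h4 h4 h6 (by norm_num)]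
    _ ≤ _ := by
        rw [← Real.exp_sum, ← mul_sum]
        gcongr
        rw [← sum_image (s := univ) (g := q) (f := fun n : ℕ => (n : ℝ) ^ (-σ)) hinj.injOn]
        exact hs.sum_le_tsum _ fun _ _ => by positivity

theorem typeI_term (q : ι → ℕ) (hq : ∀ i, (q i).Prime) (hinj : Function.Injective q)
    {W : ℕ} (hW : W ≠ 0) (hWq : ∀ i, Nat.Coprime W (q i)) (g : κ → ℤ) (E0 : Finset ι)
    (a : ℕ) {N1 N2 : ℕ} (hN : N1 ≤ N2) (A A' : ι → Finset κ) :
    |∑ m ∈ Ioc N1 N2 with m ≡ a [MOD W] ∧ ∀ i ∈ E0, q i ∣ m,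
        ∏ i, (loc (q i) g (A i) m * loc (q i) g (A' i) m) -
      ((N2 : ℝ) - N1) / (W * ∏ i ∈ E0, (q i : ℝ)) *
        ∏ i, (if i ∈ E0 then loc (q i) g (A i) 0 * loc (q i) g (A' i) 0 else
          (q i : ℝ)⁻¹ * ∑ r ∈ range (q i), loc (q i) g (A i) r * loc (q i) g (A' i) r)| ≤
      4 * ∏ i, (if A i = ∅ ∧ A' i = ∅ then 1 else 3) := by
  set E : Finset ι := univ.filter fun i => i ∈ E0 ∨ ¬ (A i = ∅ ∧ A' i = ∅) with hE
  set θ : ι → ℕ → ℝ := fun i n => (if i ∈ E0 then (if q i ∣ n then 1 else 0) else 1) *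
    (loc (q i) g (A i) n * loc (q i) g (A' i) n) with hθ
  set ψ : ℕ → ℝ := fun n => if n ≡ a [MOD W] then 1 else 0 with hψ
  have hq0 : ∀ i, (q i : ℝ) ≠ 0 := fun i => by exact_mod_cast (hq i).ne_zero
  have hψp : ∀ n, ψ (n % W) = ψ n := fun n => by
    have : n % W ≡ a [MOD W] ↔ n ≡ a [MOD W] := by simp [Nat.ModEq]
    simp only [hψ, this]
  have hθp : ∀ i n, θ i (n % q i) = θ i n := fun i n => by
    simp only [hθ, loc, xi_mod, Nat.dvd_mod_iff dvd_rfl]
  have hψs : ∑ n ∈ range W, ψ n = 1 := by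
    rw [sum_eq_single (a % W)]
    · simp [hψ, Nat.ModEq]
    · intro n hn hne
      exact if_neg fun h => hne (by rw [← h, Nat.mod_eq_of_lt (mem_range.1 hn)])
    · intro h; exact absurd (mem_range.2 (Nat.mod_lt _ (Nat.pos_of_ne_zero hW))) h
  have hdv : ∀ i (F : ℕ → ℝ), ∑ r ∈ range (q i), (if q i ∣ r then 1 else 0) * F r = F 0 := by
    intro i F
    rw [sum_eq_single 0]
    · simp
    · intro n hn hne
      rw [if_neg (Nat.not_dvd_of_pos_of_lt (Nat.pos_of_ne_zero hne) (mem_range.1 hn)), zero_mul]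
    · intro h; exact absurd (mem_range.2 (hq i).pos) h
  obtain ⟨c1, c2⟩ := crt_prod q hq hinj hW hWq ψ hψp θ hθp E
  obtain ⟨-, c3⟩ := crt_prod q hq hinj hW hWq ψ hψp (fun i n => |θ i n|)
    (fun i n => by rw [hθp]) E
  have h := periodic_Ioc (mul_ne_zero hW (prod_ne_zero_iff.2 fun i (_ : i ∈ E) => (hq i).ne_zero))
    (fun n => ψ n * ∏ i ∈ E, θ i n) c1 hN
  have e1 : ∑ m ∈ Ioc N1 N2 with m ≡ a [MOD W] ∧ ∀ i ∈ E0, q i ∣ m,
      ∏ i, (loc (q i) g (A i) m * loc (q i) g (A' i) m) =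
      ∑ n ∈ Ioc N1 N2, ψ n * ∏ i ∈ E, θ i n := by
    rw [sum_filter]
    refine sum_congr rfl fun n _ => ?_
    rw [prod_subset (subset_univ E) (fun i _ hi => by
      simp only [hE, mem_filter, mem_univ, true_and, not_or, not_not] at hi
      simp [hθ, hi.1, hi.2.1, hi.2.2, loc])]
    simp only [hψ, hθ]
    rw [prod_mul_distrib (f := fun i => if i ∈ E0 then (if q i ∣ n then (1 : ℝ) else 0) else 1),
      prod_ite_mem, univ_inter, prod_boole]
    by_cases h1 : n ≡ a [MOD W] <;> by_cases h2 : ∀ i ∈ E0, q i ∣ n <;> simp [h1, h2]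
  have e2 : ((N2 : ℝ) - N1) / (W * ∏ i ∈ E0, (q i : ℝ)) *
      ∏ i, (if i ∈ E0 then loc (q i) g (A i) 0 * loc (q i) g (A' i) 0 else
        (q i : ℝ)⁻¹ * ∑ r ∈ range (q i), loc (q i) g (A i) r * loc (q i) g (A' i) r) =
      ((N2 : ℝ) - N1) / (W * ∏ i ∈ E, q i : ℕ) * ∏ i ∈ E, ∑ n ∈ range (q i), θ i n := by
    have e3 : ∏ i ∈ E, ((q i : ℝ)⁻¹ * ∑ n ∈ range (q i), θ i n) =
        ∏ i, ((if i ∈ E0 then (q i : ℝ)⁻¹ else 1) *
          (if i ∈ E0 then loc (q i) g (A i) 0 * loc (q i) g (A' i) 0 else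
          (q i : ℝ)⁻¹ * ∑ r ∈ range (q i), loc (q i) g (A i) r * loc (q i) g (A' i) r)) := by
      rw [prod_subset (subset_univ E) (fun i _ hi => by
        simp only [hE, mem_filter, mem_univ, true_and, not_or, not_not] at hi
        simp [hθ, hi.1, hi.2.1, hi.2.2, loc, hq0 i])]
      refine prod_congr rfl fun i _ => ?_
      simp only [hθ]
      split_ifs
      · rw [hdv i (fun r => loc (q i) g (A i) r * loc (q i) g (A' i) r)]; simp
      · simp
    rw [prod_mul_distrib, prod_mul_distrib, prod_ite_mem, univ_inter, prod_inv_distrib,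
      prod_inv_distrib] at e3
    push_cast
    rw [div_mul_eq_div_div, div_mul_eq_div_div, div_eq_mul_inv _ (∏ i ∈ E0, (q i : ℝ)),
      div_eq_mul_inv _ (∏ i ∈ E, (q i : ℝ)), mul_assoc, mul_assoc, e3]
  rw [c2, hψs, one_mul] at h
  rw [e1, e2]
  refine h.trans ?_
  have e4 : ∑ n ∈ range (W * ∏ i ∈ E, q i), |ψ n * ∏ i ∈ E, θ i n| =
      ∏ i ∈ E, ∑ n ∈ range (q i), |θ i n| := by
    rw [hψs, one_mul] at c3
    rw [← c3]
    refine sum_congr rfl fun n _ => ?_
    rw [abs_mul, abs_prod, abs_of_nonneg (by simp only [hψ]; split_ifs <;> norm_num)]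
  rw [e4]
  gcongr
  refine le_trans (prod_le_prod (fun i _ => sum_nonneg fun _ _ => abs_nonneg _)
    (g := fun i => if A i = ∅ ∧ A' i = ∅ then 1 else 3) fun i hi => ?_)
    (prod_le_prod_of_subset_of_one_le (subset_univ E) (fun i _ => by split_ifs <;> norm_num)
      fun i _ _ => by split_ifs <;> norm_num)
  have h2 := (hq i).two_le
  have hb : ∀ n, |θ i n| ≤ |loc (q i) g (A i) n| * |loc (q i) g (A' i) n| := fun n => by
    simp only [hθ, abs_mul]
    exact mul_le_of_le_one_left (by positivity) (by split_ifs <;> simp)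
  split_ifs with h0
  · have : i ∈ E0 := by simpa [hE, h0] using hi
    have := hdv i (fun _ => 1)
    simp only [hθ, h0.1, h0.2, loc, prod_empty, mul_one, if_pos ‹i ∈ E0›] at this ⊢
    refine le_of_eq (Eq.trans (sum_congr rfl fun n _ => ?_) this)
    split_ifs <;> simp
  · by_cases hA : A i = ∅
    · exact (sum_le_sum fun n _ => (hb n).trans (mul_le_of_le_one_left (abs_nonneg _)
        (abs_loc_le h2 _ _ _))).trans (sum_abs_loc h2 g fun h => h0 ⟨hA, h⟩)
    · exact (sum_le_sum fun n _ => (hb n).trans (mul_le_of_le_one_right (abs_nonneg _)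
        (abs_loc_le h2 _ _ _))).trans (sum_abs_loc h2 g hA)

theorem typeI (q : ι → ℕ) (hq : ∀ i, (q i).Prime) (hinj : Function.Injective q) {D : ℕ}
    (hD : 16 ≤ D) (hDq : ∀ i, D < q i) {W : ℕ} (hW : W ≠ 0) (hWq : ∀ i, Nat.Coprime W (q i))
    (hκ : Fintype.card κ ≤ 4) {g : κ → ℤ} (hg : Function.Injective g) (hg8 : ∀ j, |g j| ≤ 8)
    {j0 : κ} (hj0 : g j0 = 0) (E0 : Finset ι) (a : ℕ) {N1 N2 : ℕ} (hN : N1 ≤ N2)
    (y y' : (κ → Finset ι) → ℝ) (hy : ∀ T, |y T| ≤ 1) (hy' : ∀ T, |y' T| ≤ 1)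
    (hd : ∀ T, y T ≠ 0 → ∀ i ∈ E0, i ∉ T j0) (hd' : ∀ T, y' T ≠ 0 → ∀ i ∈ E0, i ∉ T j0)
    {s σ Λ : ℝ} (hs : 0 ≤ s) (hσ : 1 < σ)
    (hsupp : ∀ T U, y T ≠ 0 → y' U ≠ 0 → lgs q T + lgs q U ≤ Λ) :
    |∑ m ∈ Ioc N1 N2 with m ≡ a [MOD W] ∧ ∀ i ∈ E0, q i ∣ m, SS q g y m * SS q g y' m -
      ((N2 : ℝ) - N1) / (W * ∏ i ∈ E0, (q i : ℝ)) * ∑ T, y T * y' T * wts q T| ≤
      ((N2 : ℝ) - N1) / (W * ∏ i ∈ E0, (q i : ℝ)) * (Real.exp (s * Λ) *
        (Zf q (2 * s) ^ Fintype.card κ * (Real.exp (256 * ((2000 + 2 * E0.card) / D)) - 1))) +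
      4 * Real.exp (σ * Λ) * Real.exp (768 * ∑' n : ℕ, (n : ℝ) ^ (-σ)) := by
  have h2 : ∀ i, 2 ≤ q i := fun i => (hq i).two_le
  have hD' : (0 : ℝ) < D := by have : 0 < D := by omega
                               positivity
  set X : ℝ := ((N2 : ℝ) - N1) / (W * ∏ i ∈ E0, (q i : ℝ)) with hX
  have hX0 : 0 ≤ X := div_nonneg (sub_nonneg.2 (by exact_mod_cast hN)) (by positivity)
  set E : ι → Finset κ → Finset κ → ℝ := fun i A A' => if i ∈ E0 then
    (if j0 ∈ A ∨ j0 ∈ A' then ind (q i) A A' else loc (q i) g A 0 * loc (q i) g A' 0) else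
    (q i : ℝ)⁻¹ * ∑ r ∈ range (q i), loc (q i) g A r * loc (q i) g A' r with hE
  have hp := perturb q h2 E (fun i => 2000 / (q i : ℝ) ^ 2 + if i ∈ E0 then 2 / (D : ℝ) else 0)
    (fun i A A' => by
      have h16 : 16 < q i := lt_of_le_of_lt hD (hDq i)
      simp only [hE]
      split_ifs with h1 h3
      · simp; positivity
      · push Not at h3
        refine (cond_approx h16 hg hg8 hj0 h3.1 h3.2).trans (le_add_of_nonneg_of_le
          (by positivity) ?_)
        gcongr; exact (hDq i).le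
      · simpa using avg_approx h16 hκ hg hg8 A A') hs y y' hy hy' hsupp
  have he : (4 : ℝ) ^ Fintype.card κ * ∑ i, (2000 / (q i : ℝ) ^ 2 + if i ∈ E0 then 2 / (D : ℝ) else 0) ≤
      256 * ((2000 + 2 * (E0.card : ℝ)) / D) := by
    have h3 := sum_inv_sq_le q hinj (show 0 < D by omega) hDq
    refine mul_le_mul ((pow_le_pow_right₀ (by norm_num) hκ).trans (by norm_num)) ?_
      (sum_nonneg fun i _ => by split_ifs <;> positivity) (by norm_num)
    rw [sum_add_distrib, sum_ite_mem, univ_inter, sum_const, nsmul_eq_mul, add_div]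
    refine add_le_add ?_ (le_of_eq (by ring))
    calc ∑ i, 2000 / (q i : ℝ) ^ 2 = 2000 * ∑ i, 1 / (q i : ℝ) ^ 2 := by
          rw [mul_sum]; exact sum_congr rfl fun i _ => by ring
      _ ≤ 2000 * (1 / (D : ℝ)) := by gcongr
      _ = _ := by ring
  have h1 : |∑ m ∈ Ioc N1 N2 with m ≡ a [MOD W] ∧ ∀ i ∈ E0, q i ∣ m, SS q g y m * SS q g y' m -
      X * ∑ T : κ → Finset ι, ∑ U : κ → Finset ι, y T * y' U * ∏ i, E i (tr T i) (tr U i)| ≤
      4 * Real.exp (σ * Λ) * Real.exp (768 * ∑' n : ℕ, (n : ℝ) ^ (-σ)) := by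
    refine le_trans ?_ (mul_le_mul_of_nonneg_left (typeI_error q h2 hinj hκ hσ) (by positivity))
    rw [← transpose (fun i A A' => (if A = ∅ ∧ A' = ∅ then 1 else 3) *
        Real.exp (-(σ * ((A.card : ℝ) + A'.card) * Real.log (q i))))]
    simp only [SS_mul, mul_sum]
    rw [sum_comm, ← sum_sub_distrib]
    refine (abs_sum_le_sum_abs _ _).trans (sum_le_sum fun T _ => ?_)
    rw [sum_comm, ← sum_sub_distrib]
    refine (abs_sum_le_sum_abs _ _).trans (sum_le_sum fun U _ => ?_)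
    by_cases h0 : y T ≠ 0 ∧ y' U ≠ 0
    · have h3 := typeI_term q hq hinj hW hWq g E0 a hN (tr T) (tr U)
      have h4 := rankin q (show 0 ≤ σ by linarith) T U (hsupp T U h0.1 h0.2)
      have h5 : |y T * y' U| ≤ 1 := by
        rw [abs_mul]; exact mul_le_one₀ (hy T) (abs_nonneg _) (hy' U)
      have h6 : ∏ i, E i (tr T i) (tr U i) = ∏ i, (if i ∈ E0 then
          loc (q i) g (tr T i) 0 * loc (q i) g (tr U i) 0 else (q i : ℝ)⁻¹ *
            ∑ r ∈ range (q i), loc (q i) g (tr T i) r * loc (q i) g (tr U i) r) := by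
        refine prod_congr rfl fun i _ => ?_
        simp only [hE]
        split_ifs with h7 h8
        · simp only [mem_tr] at h8
          exact absurd h8 (not_or.2 ⟨hd T h0.1 i h7, hd' U h0.2 i h7⟩)
        · rfl
        · rfl
      rw [← mul_sum, mul_left_comm X, ← mul_sub, abs_mul, h6, prod_mul_distrib]
      refine (mul_le_of_le_one_left (abs_nonneg _) h5).trans (h3.trans ?_)
      refine (le_mul_of_one_le_right ((abs_nonneg _).trans h3) h4).trans (le_of_eq (by ring))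
    · have : y T * y' U = 0 := by
        by_contra h; exact h0 (mul_ne_zero_iff.1 h)
      simp only [this, zero_mul, sum_const_zero, mul_zero, sub_zero, abs_zero]
      exact mul_nonneg (by positivity) (prod_nonneg fun i _ => by split_ifs <;> positivity)
  refine (abs_sub_le _ (X * ∑ T : κ → Finset ι, ∑ U : κ → Finset ι,
    y T * y' U * ∏ i, E i (tr T i) (tr U i)) _).trans ?_
  rw [add_comm, ← mul_sub, abs_mul, abs_of_nonneg hX0]
  refine add_le_add (mul_le_mul_of_nonneg_left (hp.trans ?_) hX0) h1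
  have := one_le_Zf q h2 (2 * s)
  gcongr

end

end Pool.Agent.Lib.MP_fc51f7_nt
end

-- part Pool.Agent.Lib.MP_fc51f7_nt.Tens
section

/-! Tensor products of weights, pointwise bounds, conditioning on a prime. -/

set_option autoImplicit false
set_option linter.unusedSectionVars false

namespace Pool.Agent.Lib.MP_fc51f7_nt

open Finset

section
variable {ι κ : Type} [Fintype ι] [DecidableEq ι] [Fintype κ] [DecidableEq κ]

noncomputable def S0 (q : ι → ℕ) (y0 : Finset ι → ℝ) (m : ℤ) : ℝ :=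
  ∑ T : Finset ι, y0 T * Xi q T m

def tens (y0 : Finset ι → ℝ) (a : (κ → Finset ι) → ℝ) (T : Option κ → Finset ι) : ℝ :=
  y0 (T none) * a fun j => T (some j)

def og (g : κ → ℤ) : Option κ → ℤ := fun o => o.elim 0 g

theorem sum_option (F : (Option κ → Finset ι) → ℝ) :
    ∑ T, F T = ∑ T0 : Finset ι, ∑ T' : κ → Finset ι, F fun o => o.elim T0 T' := by
  rw [← Fintype.sum_prod_type']
  refine (Fintype.sum_equiv (Equiv.piOptionEquivProd (β := fun _ => Finset ι)).symm _ _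
    fun T => ?_).symm
  congr 1; funext o; cases o <;> rfl

theorem SS_tens (q : ι → ℕ) (g : κ → ℤ) (y0 : Finset ι → ℝ) (a : (κ → Finset ι) → ℝ) (m : ℤ) :
    SS q (og g) (tens y0 a) m = S0 q y0 m * SS q g a m := by
  rw [SS, sum_option, S0, SS, sum_mul_sum]
  refine sum_congr rfl fun T0 _ => sum_congr rfl fun T' _ => ?_
  simp [tens, og, Fintype.prod_option]; ring

theorem sum_tens (q : ι → ℕ) (y0 y0' : Finset ι → ℝ) (a a' : (κ → Finset ι) → ℝ) :
    ∑ T, tens y0 a T * tens y0' a' T * wts q T =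
      (∑ T, y0 T * y0' T * wt q T) * ∑ T, a T * a' T * wts q T := by
  rw [sum_option, sum_mul_sum]
  refine sum_congr rfl fun T0 _ => sum_congr rfl fun T' _ => ?_
  simp [tens, wts, Fintype.prod_option]; ring

theorem lgs_option (q : ι → ℕ) (T : Option κ → Finset ι) :
    lgs q T = lg q (T none) + lgs q fun j => T (some j) := by
  simp [lgs, Fintype.sum_option]

theorem SS_smul (q : ι → ℕ) (g : κ → ℤ) (c : ℝ) (y : (κ → Finset ι) → ℝ) (m : ℤ) :
    SS q g (fun T => c * y T) m = c * SS q g y m := by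
  simp [SS, mul_sum, mul_assoc]

theorem lg_nonneg (q : ι → ℕ) (T : Finset ι) : 0 ≤ lg q T :=
  sum_nonneg fun _ _ => Real.log_natCast_nonneg _

theorem lgs_nonneg (q : ι → ℕ) (T : κ → Finset ι) : 0 ≤ lgs q T :=
  sum_nonneg fun _ _ => lg_nonneg _ _

theorem wt_nonneg (q : ι → ℕ) (hq : ∀ i, 2 ≤ q i) (T : Finset ι) : 0 ≤ wt q T :=
  prod_nonneg fun i _ => inv_nonneg.2 (by
    have : (2 : ℝ) ≤ q i := by exact_mod_cast hq i
    linarith)

theorem wts_nonneg (q : ι → ℕ) (hq : ∀ i, 2 ≤ q i) (T : κ → Finset ι) : 0 ≤ wts q T :=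
  prod_nonneg fun _ _ => wt_nonneg q hq _

theorem sum_wt_exp (q : ι → ℕ) (s : ℝ) :
    ∑ T : Finset ι, wt q T * Real.exp (-(s * lg q T)) = Zf q s := by
  rw [Zf, prod_one_add, powerset_univ]
  refine sum_congr rfl fun T _ => ?_
  rw [prod_mul_distrib, ← Real.exp_sum, wt, lg, mul_sum, sum_neg_distrib, mul_comm]

theorem sum_wts_exp (q : ι → ℕ) (s : ℝ) :
    ∑ T : κ → Finset ι, wts q T * Real.exp (-(s * lgs q T)) = Zf q s ^ Fintype.card κ := by
  rw [← sum_wt_exp, ← card_univ, ← prod_const, Fintype.prod_sum]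
  refine sum_congr rfl fun T _ => ?_
  rw [prod_mul_distrib, ← Real.exp_sum, wts, lgs, mul_sum, sum_neg_distrib]

theorem one_le_exp_mul {s Λ t : ℝ} (hs : 0 ≤ s) (h : t ≤ Λ) :
    1 ≤ Real.exp (s * Λ) * Real.exp (-(s * t)) := by
  rw [← Real.exp_add, Real.one_le_exp_iff]; nlinarith

theorem sum_wts_le (q : ι → ℕ) (hq : ∀ i, 2 ≤ q i) (y : (κ → Finset ι) → ℝ) (hy : ∀ T, |y T| ≤ 1)
    {s Λ : ℝ} (hs : 0 ≤ s) (h : ∀ T, y T ≠ 0 → lgs q T ≤ Λ) :
    ∑ T, y T * y T * wts q T ≤ Real.exp (s * Λ) * Zf q s ^ Fintype.card κ := by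
  rw [← sum_wts_exp, mul_sum]
  refine sum_le_sum fun T _ => ?_
  have h0 := wts_nonneg q hq T
  by_cases h1 : y T = 0
  · rw [h1]; simp only [zero_mul]; positivity
  · have h2 := one_le_exp_mul hs (h T h1)
    have h3 : y T * y T ≤ 1 := by have := abs_le.1 (hy T); nlinarith
    nlinarith [mul_le_mul_of_nonneg_right h3 h0, mul_le_mul_of_nonneg_right h2 h0]

theorem sum_wt_mem (q : ι → ℕ) (hq : ∀ i, 2 ≤ q i) (i : ι) (F : Finset ι → ℝ)
    (hF : ∀ T, |F T| ≤ 1) {s Λ : ℝ} (hs : 0 ≤ s) (h : ∀ T, F T ≠ 0 → lg q T ≤ Λ) :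
    |∑ T : Finset ι with i ∈ T, F T * wt q T| ≤
      ((q i : ℝ) - 1)⁻¹ * (Real.exp (s * Λ) * Zf q s) := by
  have h2 : (2 : ℝ) ≤ q i := by exact_mod_cast hq i
  have h0 : 0 ≤ ((q i : ℝ) - 1)⁻¹ := inv_nonneg.2 (by linarith)
  rw [← sum_wt_exp, mul_sum, mul_sum]
  refine (abs_sum_le_sum_abs _ _).trans ?_
  calc _ ≤ ∑ T : Finset ι with i ∈ T, ((q i : ℝ) - 1)⁻¹ * (Real.exp (s * Λ) *
          (wt q (T.erase i) * Real.exp (-(s * lg q (T.erase i))))) := by
        refine sum_le_sum fun T hT => ?_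
        have hi : i ∈ T := (mem_filter.1 hT).2
        have h3 := wt_nonneg q hq (T.erase i)
        by_cases h1 : F T = 0
        · rw [h1]; simp only [zero_mul, abs_zero]; positivity
        · have h4 : lg q (T.erase i) ≤ Λ := le_trans (sum_le_sum_of_subset_of_nonneg
            (erase_subset _ _) fun _ _ _ => Real.log_natCast_nonneg _) (h T h1)
          have h5 := one_le_exp_mul hs h4
          rw [abs_mul, abs_of_nonneg (wt_nonneg q hq T), wt, ← mul_prod_erase _ _ hi]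
          refine (mul_le_of_le_one_left (mul_nonneg h0 h3) (hF T)).trans ?_
          gcongr
          rw [mul_left_comm]
          exact le_mul_of_one_le_right h3 h5
    _ ≤ _ := by
        refine (sum_image (s := univ.filter (i ∈ ·)) (g := fun T : Finset ι => T.erase i)
          (f := fun T => ((q i : ℝ) - 1)⁻¹ * (Real.exp (s * Λ) *
          (wt q T * Real.exp (-(s * lg q T))))) fun T hT U hU h => by
            rw [← insert_erase (mem_filter.1 hT).2, ← insert_erase (mem_filter.1 hU).2]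
            exact congrArg _ h).symm.trans_le ?_
        exact sum_le_sum_of_subset_of_nonneg (subset_univ _) fun T _ _ => by
          have := wt_nonneg q hq T; positivity

theorem sum_abs_Xi (q : ι → ℕ) (hq : ∀ i, 2 ≤ q i) {s : ℝ} (hs : 0 ≤ s) (m : ℤ) :
    ∑ T : Finset ι, |Xi q T m| * Real.exp (-(s * lg q T)) ≤
      2 ^ (univ.filter fun i => (q i : ℤ) ∣ m).card * Zf q s := by
  have e : ∑ T : Finset ι, |Xi q T m| * Real.exp (-(s * lg q T)) =
      ∏ i, (1 + |xi (q i) m| * Real.exp (-(s * Real.log (q i)))) := by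
    rw [prod_one_add, powerset_univ]
    refine sum_congr rfl fun T _ => ?_
    rw [prod_mul_distrib, ← Real.exp_sum, Xi, abs_prod, lg, mul_sum, sum_neg_distrib]
  rw [e, Zf, ← prod_const, prod_filter, ← prod_mul_distrib]
  refine prod_le_prod (fun i _ => by positivity) fun i _ => ?_
  have h2 : (2 : ℝ) ≤ q i := by exact_mod_cast hq i
  have h0 : 0 ≤ ((q i : ℝ) - 1)⁻¹ := inv_nonneg.2 (by linarith)
  have h1 : Real.exp (-(s * Real.log (q i))) ≤ 1 :=
    Real.exp_le_one_iff.2 (neg_nonpos.2 (mul_nonneg hs (Real.log_natCast_nonneg _)))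
  have h3 := Real.exp_pos (-(s * Real.log (q i)))
  unfold xi
  split_ifs
  · simp only [abs_neg, abs_one]; nlinarith [mul_nonneg h3.le h0]
  · rw [abs_of_nonneg h0]; linarith

theorem abs_S0_le (q : ι → ℕ) (hq : ∀ i, 2 ≤ q i) (y : Finset ι → ℝ) (hy : ∀ T, |y T| ≤ 1)
    {s Λ : ℝ} (hs : 0 ≤ s) (h : ∀ T, y T ≠ 0 → lg q T ≤ Λ) (m : ℤ) :
    |S0 q y m| ≤ Real.exp (s * Λ) *
      (2 ^ (univ.filter fun i => (q i : ℤ) ∣ m).card * Zf q s) := by
  refine le_trans ?_ (mul_le_mul_of_nonneg_left (sum_abs_Xi q hq hs m) (Real.exp_pos _).le)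
  rw [mul_sum]
  refine (abs_sum_le_sum_abs _ _).trans (sum_le_sum fun T _ => ?_)
  by_cases h1 : y T = 0
  · rw [h1]; simp only [zero_mul, abs_zero]; positivity
  · rw [abs_mul, mul_left_comm]
    exact (mul_le_of_le_one_left (abs_nonneg _) (hy T)).trans
      (le_mul_of_one_le_right (abs_nonneg _) (one_le_exp_mul hs (h T h1)))

theorem abs_SS_le (q : ι → ℕ) (hq : ∀ i, 2 ≤ q i) (g : κ → ℤ) (y : (κ → Finset ι) → ℝ)
    (hy : ∀ T, |y T| ≤ 1) {s Λ : ℝ} (hs : 0 ≤ s) (h : ∀ T, y T ≠ 0 → lgs q T ≤ Λ) (m : ℤ) :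
    |SS q g y m| ≤ Real.exp (s * Λ) *
      ∏ j, (2 ^ (univ.filter fun i => (q i : ℤ) ∣ m + g j).card * Zf q s) := by
  refine le_trans ?_ (mul_le_mul_of_nonneg_left (prod_le_prod (fun j _ => sum_nonneg
    fun _ _ => by positivity) fun j _ => sum_abs_Xi q hq hs (m + g j)) (Real.exp_pos _).le)
  rw [Fintype.prod_sum, mul_sum]
  refine (abs_sum_le_sum_abs _ _).trans (sum_le_sum fun T _ => ?_)
  by_cases h1 : y T = 0
  · rw [h1]; simp only [zero_mul, abs_zero]; positivity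
  · rw [abs_mul, prod_mul_distrib, ← Real.exp_sum, abs_prod, mul_left_comm]
    refine (mul_le_of_le_one_left (by positivity) (hy T)).trans
      (le_mul_of_one_le_right (by positivity) ?_)
    have := one_le_exp_mul hs (h T h1)
    rwa [lgs, mul_sum, ← sum_neg_distrib] at this

theorem card_dvd_le (q : ι → ℕ) (hq : ∀ i, (q i).Prime) (hinj : Function.Injective q) {n : ℕ}
    (hn : n ≠ 0) : (univ.filter fun i => (q i : ℤ) ∣ (n : ℤ)).card ≤ n.primeFactors.card :=
  card_le_card_of_injOn q (fun i hi => by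
    have : (q i : ℤ) ∣ n := by simpa using hi
    exact mem_coe.2 (Nat.mem_primeFactors.2 ⟨hq i, by exact_mod_cast this, hn⟩)) hinj.injOn

/-- Difference of the weight in the direction of one prime. -/
noncomputable def dif (y0 : Finset ι → ℝ) (i : ι) (T : Finset ι) : ℝ :=
  if i ∈ T then 0 else y0 T - y0 (insert i T)

theorem S0_dif (q : ι → ℕ) (y0 : Finset ι → ℝ) (i : ι) {m : ℤ} (h : (q i : ℤ) ∣ m) :
    S0 q y0 m = S0 q (dif y0 i) m := by
  have e : (univ : Finset (Finset ι)) = (insert i (univ.erase i)).powerset := by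
    rw [insert_erase (mem_univ i), powerset_univ]
  rw [S0, S0, e, sum_powerset_insert (notMem_erase i _), sum_powerset_insert (notMem_erase i _),
    ← sum_add_distrib, ← sum_add_distrib]
  refine sum_congr rfl fun T hT => ?_
  have hi : i ∉ T := fun h' => notMem_erase i _ (mem_powerset.1 hT h')
  simp only [dif, if_neg hi, mem_insert_self, if_true, Xi, prod_insert hi, xi, if_pos h]
  ring

theorem S0_mul_prime (q : ι → ℕ) (hq : ∀ i, (q i).Prime) (y0 : Finset ι → ℝ) {p : ℕ}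
    (hp : p.Prime) (h : ∀ T, y0 T ≠ 0 → lg q T < Real.log p) (m : ℕ) :
    S0 q y0 (p * m : ℕ) = S0 q y0 m := by
  refine sum_congr rfl fun T _ => ?_
  by_cases h1 : y0 T = 0
  · simp [h1]
  congr 1
  refine prod_congr rfl fun i hi => ?_
  have h2 : q i ≠ p := fun h' => by
    have := single_le_sum (f := fun i => Real.log (q i))
      (fun _ _ => Real.log_natCast_nonneg _) hi
    have h3 := h T h1
    simp only [h'] at this
    exact absurd h3 (not_lt.2 this)
  have : ((q i : ℤ) ∣ (p * m : ℕ)) ↔ (q i : ℤ) ∣ m := by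
    rw [Int.natCast_dvd_natCast, Int.natCast_dvd_natCast]
    exact ((Nat.coprime_primes (hq i) hp).2 h2).dvd_mul_left
  simp only [xi, this]

end

theorem Pz_nonneg (z : ℝ) : 0 ≤ Pz z := by unfold Pz; positivity

theorem Pz_le_one (z : ℝ) : Pz z ≤ 1 := by
  have h0 : 0 ≤ max (min z (1 / 3)) 0 := le_max_right _ _
  have h1 : max (min z (1 / 3)) 0 ≤ 1 / 3 := max_le (min_le_right _ _) (by norm_num)
  unfold Pz; nlinarith

theorem Pz_eq_zero {z : ℝ} (h : z ≤ 0) : Pz z = 0 := by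
  rw [Pz, max_eq_right ((min_le_left z (1 / 3)).trans h)]; simp

theorem Pz_lip (a b : ℝ) : |Pz a - Pz b| ≤ 5 * |a - b| := by
  have h0 : ∀ z : ℝ, 0 ≤ max (min z (1 / 3)) 0 := fun z => le_max_right _ _
  have h1 : ∀ z : ℝ, max (min z (1 / 3)) 0 ≤ 1 / 3 :=
    fun z => max_le (min_le_right _ _) (by norm_num)
  have h2 : |max (min a (1 / 3)) 0 - max (min b (1 / 3)) 0| ≤ |a - b| :=
    (abs_max_sub_max_le_abs _ _ _).trans (by
      simpa using abs_min_sub_min_le_max a (1 / 3) b (1 / 3))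
  unfold Pz
  set u := max (min a (1 / 3)) 0
  set v := max (min b (1 / 3)) 0
  rw [show u + 6 * u ^ 2 - (v + 6 * v ^ 2) = (1 + 6 * (u + v)) * (u - v) by ring, abs_mul,
    abs_of_nonneg (by linarith [h0 a, h0 b])]
  exact mul_le_mul (by linarith [h1 a, h1 b]) h2 (abs_nonneg _) (by norm_num)

theorem Pz_cont : Continuous Pz := by unfold Pz; fun_prop

theorem abs_Pz_sub (a b : ℝ) : |Pz a - Pz b| ≤ 1 := by
  rw [abs_le]; constructor <;> linarith [Pz_nonneg a, Pz_nonneg b, Pz_le_one a, Pz_le_one b]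

end Pool.Agent.Lib.MP_fc51f7_nt
end
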