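import Pool.Agent.Lib.MP_fc51f7_nt.Pair

-- part Pool.Agent.Lib.MP_fc51f7_nt.Ptw
section

/-! The pointwise majorant of the truncated number of prime factors. -/

set_option autoImplicit false

namespace Pool.Agent.Lib.MP_fc51f7_nt

open Finset Filter Topology

open Classical in
/-- Weight of the exceptional integers. -/
noncomputable def err (η : ℝ) (x m : ℕ) : ℝ :=
  (∑ p ∈ m.primeFactors with Real.log (p : ℕ) / Real.log x ≤ η, (1 : ℝ)) +
    (if ∃ p : ℕ, p.Prime ∧ η < Real.log p / Real.log x ∧ p ^ 2 ∣ m then 1 else 0) +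
    (if m ≤ ⌊x * Real.exp η⌋₊ then 1 else 0) +
    (if ⌊2 * x * Real.exp (-η)⌋₊ < m then 1 else 0) + 2 * η

section
variable {η : ℝ} (hη : 0 < η) (hη' : η ≤ 1 / 1000) {x m : ℕ} (hx : 1 < x)
  (h2 : Real.log 2 ≤ η * Real.log x) (hm : m ∈ Ioc x (2 * x))
include hη hη' hx h2 hm

omit hη hη' in
theorem log_mem : 1 ≤ Real.log m / Real.log x ∧ Real.log m / Real.log x ≤ 1 + η := by
  have hl : 0 < Real.log x := Real.log_pos (by exact_mod_cast hx)
  obtain ⟨a1, a2⟩ := mem_Ioc.1 hm
  have hx0 : (0 : ℝ) < x := by positivity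
  rw [le_div_iff₀ hl, div_le_iff₀ hl, one_mul]
  refine ⟨Real.log_le_log hx0 (by exact_mod_cast a1.le), ?_⟩
  have : Real.log m ≤ Real.log (2 * x) :=
    Real.log_le_log (by have : 0 < m := by omega
                        positivity) (by exact_mod_cast a2)
  rw [Real.log_mul two_ne_zero hx0.ne'] at this
  linarith

omit hη hη' in
theorem sum_u_le : ∑ p ∈ m.primeFactors, Real.log (p : ℕ) / Real.log x ≤ 1 + η := by
  have hl : 0 < Real.log x := Real.log_pos (by exact_mod_cast hx)
  have hm0 : 0 < m := by have := (mem_Ioc.1 hm).1; omega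
  refine le_trans ?_ (log_mem hx h2 hm).2
  rw [← sum_div, ← Real.log_prod fun p hp => by
    exact_mod_cast (Nat.prime_of_mem_primeFactors hp).ne_zero, ← Nat.cast_prod]
  gcongr
  · exact_mod_cast prod_pos fun p hp => (Nat.prime_of_mem_primeFactors hp).pos
  · exact Nat.le_of_dvd hm0 (Nat.prod_primeFactors_dvd m)

theorem aw_close {ω : ℝ → ℝ} (hω : Good ω) :
    |∑ p ∈ m.primeFactors with 339 / 1000 < Real.log (p : ℕ) / Real.log x,
      Real.log (p : ℕ) / Real.log x * ω (1 - Real.log (p : ℕ) / Real.log x) - aw η x ω m| ≤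
      40 * err η x m := by
  classical
  have hl : 0 < Real.log x := Real.log_pos (by exact_mod_cast hx)
  have hx0 : 0 < x := by omega
  have hx' : (0 : ℝ) < x := by positivity
  have hm0 : 0 < m := by have := (mem_Ioc.1 hm).1; omega
  obtain ⟨c1, c2⟩ := log_mem hx h2 hm
  set u : ℕ → ℝ := fun p => Real.log p / Real.log x with hu
  have hu0 : ∀ p, 0 ≤ u p := fun p => div_nonneg (Real.log_natCast_nonneg _) hl.le
  have e1 : aw η x ω m = ∑ p ∈ m.primeFactors with 339 / 1000 < u p, if rough η x (m / p) ∧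
      p ∈ Ioc (lo η x (box η (m / p))) (hi η x (box η (m / p))) then u p * ω (u (m / p)) else 0 := by
    rw [← sum_filter, filter_filter, aw]
    refine sum_congr (filter_congr fun p hp => ⟨fun h => ⟨?_, h⟩, fun h => h.2⟩) fun _ _ => rfl
    have a1 := Nat.div_pos (Nat.le_of_dvd hm0 (Nat.dvd_of_mem_primeFactors hp))
      (Nat.prime_of_mem_primeFactors hp).pos
    rw [lt_div_iff₀ hl, ← Real.log_rpow hx']
    exact Real.log_lt_log (by positivity) (box_mem hη a1 h.2).1
  have n1 : 0 ≤ ∑ p ∈ m.primeFactors with u p ≤ η, (1 : ℝ) := by positivity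
  have n2 : 0 ≤ if ∃ p : ℕ, p.Prime ∧ η < u p ∧ p ^ 2 ∣ m then (1 : ℝ) else 0 := by positivity
  have n3 : 0 ≤ if m ≤ ⌊x * Real.exp η⌋₊ then (1 : ℝ) else 0 := by positivity
  have n4 : 0 ≤ if ⌊2 * x * Real.exp (-η)⌋₊ < m then (1 : ℝ) else 0 := by positivity
  have n5 : η ≤ err η x m := by unfold err; linarith
  rw [e1, ← sum_sub_distrib]
  refine (abs_sum_le_sum_abs _ _).trans ((sum_le_sum (g := fun p => u p * (20 * err η x m))
    fun p hp => ?_).trans ?_)
  · obtain ⟨a1, a2⟩ := mem_filter.1 hp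
    have hp := Nat.prime_of_mem_primeFactors a1
    have hd := Nat.dvd_of_mem_primeFactors a1
    have a0 := Nat.div_pos (Nat.le_of_dvd hm0 hd) hp.pos
    have hp' : (0 : ℝ) < p := by exact_mod_cast hp.pos
    have a0' : (0 : ℝ) < (m / p : ℕ) := by positivity
    have em : (m : ℝ) = p * (m / p : ℕ) := by exact_mod_cast (Nat.mul_div_cancel' hd).symm
    have a3 : Real.log m / Real.log x = u p + u (m / p) := by
      rw [em, Real.log_mul hp'.ne' a0'.ne', add_div]
    have a4 := hu0 (m / p)
    split_ifs with h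
    · rw [← mul_sub, abs_mul, abs_of_nonneg (hu0 p)]
      refine mul_le_mul_of_nonneg_left ((hω.lip _ _ (by linarith) (by linarith) (by linarith)
        (by linarith)).trans ?_) (hu0 p)
      gcongr
      rw [abs_le]; constructor <;> linarith
    · rw [sub_zero, abs_mul, abs_of_nonneg (hu0 p)]
      refine mul_le_mul_of_nonneg_left ((hω.abs_le (by linarith) (by linarith)).trans ?_) (hu0 p)
      gcongr
      by_cases h3 : 1 ≤ err η x m
      · rw [abs_le]; constructor <;> linarith
      have h4 : u (m / p) < η := by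
        by_contra h4
        refine h ⟨⟨?_, fun r hr => ?_⟩, mem_Ioc.2 ⟨?_, ?_⟩⟩
        · rw [rpow_eq_exp hx0, ← Real.le_log_iff_exp_le a0']
          exact (le_div_iff₀ hl).1 (not_lt.1 h4)
        · by_contra h5
          have hr' : (0 : ℝ) < r := by exact_mod_cast (Nat.prime_of_mem_primeFactors hr).pos
          rw [rpow_eq_exp hx0, ← Real.lt_log_iff_exp_lt hr', ← lt_div_iff₀ hl] at h5
          have := single_le_sum (f := fun _ => (1 : ℝ)) (fun _ _ => zero_le_one) (mem_filter.2
            ⟨Nat.primeFactors_mono (Nat.div_dvd_of_dvd hd) hm0.ne' hr, not_lt.1 h5⟩ :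
              r ∈ m.primeFactors.filter fun p => u p ≤ η)
          exact h3 (by unfold err; linarith)
        · refine (Nat.floor_lt (by positivity)).2 (max_lt ?_ ?_)
          · rw [rpow_eq_exp hx0, ← Real.lt_log_iff_exp_lt hp']
            exact (lt_div_iff₀ hl).1 a2
          · by_contra h5
            have b1 := (box_spec hη a0).2
            have b2 : m ≤ ⌊x * Real.exp η⌋₊ := by
              refine Nat.le_floor ?_
              rw [add_mul, one_mul, neg_add, Real.exp_add, Real.exp_neg η, ← div_eq_mul_inv,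
                div_lt_iff₀ (Real.exp_pos _), inv_mul_eq_div, lt_div_iff₀ a0'] at b1
              rw [em]
              nlinarith [not_lt.1 h5]
            exact h3 (by unfold err; rw [if_pos b2]; linarith)
        · refine Nat.le_floor ?_
          by_contra h5
          have b1 := (box_spec hη a0).1
          have b2 : ⌊2 * x * Real.exp (-η)⌋₊ < m := by
            refine (Nat.floor_lt (by positivity)).2 ?_
            rw [add_mul, one_mul, neg_add, Real.exp_add] at h5
            rw [inv_le_iff_one_le_mul₀ a0'] at b1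
            rw [em]
            have := mul_lt_mul_of_pos_right (not_le.1 h5) a0'
            have := mul_le_mul_of_nonneg_left b1 (show 0 ≤ 2 * x * Real.exp (-η) by positivity)
            nlinarith
          exact h3 (by unfold err; rw [if_pos b2]; linarith)
      rw [abs_le]; constructor <;> linarith
  · rw [← sum_mul]
    have := (sum_le_sum_of_subset_of_nonneg (filter_subset (fun p => 339 / 1000 < u p) _)
      fun p _ _ => hu0 p).trans (sum_u_le hx h2 hm)
    nlinarith

theorem ptw (Z : Fin 3 → ℝ) :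
    min (ArithmeticFunction.cardFactors m : ℝ) 8 * (∑ X, Z X) ^ 2 ≤
      ∑ X, ∑ Y, TT η x (Lam X Y) (om X Y) m * (Z X * Z Y) + 160 * err η x m * ∑ X, Z X ^ 2 := by
  classical
  have hl : 0 < Real.log x := Real.log_pos (by exact_mod_cast hx)
  have hm0 : 0 < m := by have := (mem_Ioc.1 hm).1; omega
  obtain ⟨c1, c2⟩ := log_mem hx h2 hm
  have c3 := sum_u_le hx h2 hm
  set u : ℕ → ℝ := fun p => Real.log p / Real.log x with hu
  have hu0 : ∀ p, 0 ≤ u p := fun p => div_nonneg (Real.log_natCast_nonneg _) hl.le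
  set s := m.primeFactors.filter fun p => η < u p ∧ u p ≤ 339 / 1000 with hs
  set l := m.primeFactors.filter fun p => 339 / 1000 < u p with hl'
  have hd : Disjoint s l := disjoint_left.2 fun p h h' =>
    absurd (mem_filter.1 h').2 (not_lt.2 (mem_filter.1 h).2.2)
  have hsub : s ∪ l ⊆ m.primeFactors := union_subset (filter_subset _ _) (filter_subset _ _)
  set b1 := ∑ p ∈ m.primeFactors with u p ≤ η, (1 : ℝ) with hb1
  set b2 := if ∃ p : ℕ, p.Prime ∧ η < u p ∧ p ^ 2 ∣ m then (1 : ℝ) else 0 with hb2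
  have n1 : 0 ≤ b1 := by positivity
  have n2 : 0 ≤ b2 := by positivity
  have n3 : 0 ≤ if m ≤ ⌊x * Real.exp η⌋₊ then (1 : ℝ) else 0 := by positivity
  have n4 : 0 ≤ if ⌊2 * x * Real.exp (-η)⌋₊ < m then (1 : ℝ) else 0 := by positivity
  have n5 : b1 + b2 + η ≤ err η x m := by unfold err; linarith
  have h1 := point_core s l u (fun p _ => hu0 p) (fun p hp => ⟨(mem_filter.1 hp).2.le,
      ((single_le_sum (fun p _ => hu0 p) (mem_filter.1 hp).1).trans c3).trans (by linarith)⟩)
    hη.le (by linarith) (by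
      rw [← sum_union hd]
      exact (sum_le_sum_of_subset_of_nonneg hsub fun p _ _ => hu0 p).trans c3)
    (min_le_right (ArithmeticFunction.cardFactors m : ℝ) 8) (add_nonneg n1 n2) (by
      refine or_iff_not_imp_left.2 fun h => ?_
      have a1 : ∀ p ∈ m.primeFactors, η < u p := fun p hp => by
        by_contra h5
        have := single_le_sum (f := fun _ => (1 : ℝ)) (fun _ _ => zero_le_one) (mem_filter.2
          ⟨hp, not_lt.1 h5⟩ : p ∈ m.primeFactors.filter fun p => u p ≤ η)
        exact h (by linarith)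
      have a2 : Squarefree m := Nat.squarefree_iff_prime_squarefree.2 fun p hp hd => by
        have : b2 = 1 := if_pos ⟨p, hp, a1 p (Nat.mem_primeFactors.2
          ⟨hp, (dvd_mul_right p p).trans hd, hm0.ne'⟩), by rwa [sq]⟩
        exact h (by linarith)
      have a3 : s ∪ l = m.primeFactors := hsub.antisymm fun p hp => mem_union.2 <|
        (le_or_gt (u p) (339 / 1000)).imp (fun h => mem_filter.2 ⟨hp, a1 p hp, h⟩)
          fun h => mem_filter.2 ⟨hp, h⟩
      rw [← sum_union hd, ← Nat.cast_add, ← card_union_of_disjoint hd, a3]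
      refine ⟨(min_le_left _ _).trans (le_of_eq ?_), c1.trans (le_of_eq ?_)⟩
      · rw [← (ArithmeticFunction.cardDistinctFactors_eq_cardFactors_iff_squarefree hm0.ne').2 a2,
          ArithmeticFunction.cardDistinctFactors_apply, ← List.card_toFinset, Nat.toFinset_factors]
      · rw [← sum_div, ← Real.log_prod fun p hp => by
          exact_mod_cast (Nat.prime_of_mem_primeFactors hp).ne_zero, ← Nat.cast_prod,
          Nat.prod_primeFactors_of_squarefree a2]) Z
  have h3 : ∑ X, ∑ Y, ((1 + Lam X Y) + ∑ p ∈ s, (1 - (1 + Lam X Y) * u p) +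
      ∑ p ∈ l, u p * om X Y (1 - u p)) * (Z X * Z Y) ≤
      ∑ X, ∑ Y, (TT η x (Lam X Y) (om X Y) m * (Z X * Z Y) +
        20 * err η x m * (Z X ^ 2 + Z Y ^ 2)) := by
    refine sum_le_sum fun X _ => sum_le_sum fun Y _ => ?_
    have a1 := aw_close hη hη' hx h2 hm (good_om X Y)
    have a2 : |Z X * Z Y| ≤ (Z X ^ 2 + Z Y ^ 2) / 2 := abs_le.2
      ⟨by nlinarith [sq_nonneg (Z X + Z Y)], by nlinarith [sq_nonneg (Z X - Z Y)]⟩
    have a3 := (le_abs_self _).trans ((abs_mul _ _).le.trans
      (mul_le_mul a1 a2 (abs_nonneg _) ((abs_nonneg _).trans a1)))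
    unfold TT
    linarith
  have hN : 0 ≤ ∑ X, Z X ^ 2 := by positivity
  have h4 := mul_le_mul_of_nonneg_right n5 hN
  have h5 : ∑ X, ∑ Y, (TT η x (Lam X Y) (om X Y) m * (Z X * Z Y) +
      20 * err η x m * (Z X ^ 2 + Z Y ^ 2)) = ∑ X, ∑ Y, TT η x (Lam X Y) (om X Y) m * (Z X * Z Y) +
      120 * err η x m * ∑ X, Z X ^ 2 := by
    simp only [Fin.sum_univ_three]; ring
  linarith

end

end Pool.Agent.Lib.MP_fc51f7_nt
end

-- part Pool.Agent.Lib.MP_fc51f7_nt.Bad
section

/-! The exceptional integers carry little weight. -/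

set_option autoImplicit false

namespace Pool.Agent.Lib.MP_fc51f7_nt

open Finset Filter Topology

theorem crude (D : ℕ) {g : Option (Fin 3) → ℤ} (hg8 : ∀ j, |g j| ≤ 8) {b : ℝ} (hb : 0 < b) :
    ∀ᶠ x : ℕ in atTop, ∀ m ∈ Ioc x (2 * x), ∀ y : (Option (Fin 3) → Finset (PP D x)) → ℝ,
      (∀ T, |y T| ≤ 1) → (∀ T, y T ≠ 0 → lgs (qq D x) T ≤ 33 / 100 * Real.log x) →
      |SS (qq D x) g y m| ≤ (x : ℝ) ^ (16 * b) := by
  obtain ⟨C, hC, h⟩ := pow_card_le 2 b one_le_two hb
  filter_upwards [Zf_le D, Meas.L_pos, eventually_gt_atTop 8, const_le_rpow (C * 3 ^ b / b) hb,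
    const_le_rpow 3 (show 0 < 4 * b by positivity)] with x hZ hl hx h1 h2 m hm y hy hs
  have hx' : (0 : ℝ) < x := by positivity
  refine (abs_SS_le (qq D x) (qq_two D x) g y hy (s := 2 * (Real.log x)⁻¹) (by positivity)
    hs m).trans ?_
  have h3 : Real.exp (2 * (Real.log x)⁻¹ * (33 / 100 * Real.log x)) ≤ 3 :=
    exp_le_three (by field_simp; norm_num)
  have h4 := one_le_Zf (qq D x) (qq_two D x) (2 * (Real.log x)⁻¹)
  have h5 : Zf (qq D x) (2 * (Real.log x)⁻¹) ≤ (x : ℝ) ^ b / b :=
    hZ.trans ((BB_le D x).trans (Real.log_le_rpow_div hx'.le hb))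
  refine (mul_le_mul (h3.trans h2) (prod_le_prod (g := fun _ => (x : ℝ) ^ (3 * b))
    (fun _ _ => by positivity) fun j _ => ?_) (by positivity) (by positivity)).trans (le_of_eq ?_)
  · obtain ⟨a1, a2⟩ := mem_Ioc.1 hm
    obtain ⟨a3, a4⟩ := abs_le.1 (hg8 j)
    obtain ⟨n, hn⟩ := Int.eq_ofNat_of_zero_le (show 0 ≤ (m : ℤ) + g j by omega)
    have hn0 : n ≠ 0 := by omega
    have a5 : ((∏ p ∈ n.primeFactors, p : ℕ) : ℝ) ≤ 3 * x := by
      have := Nat.le_of_dvd (Nat.pos_of_ne_zero hn0) (Nat.prod_primeFactors_dvd n)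
      exact_mod_cast (by omega : ∏ p ∈ n.primeFactors, p ≤ 3 * x)
    have a6 := h n.primeFactors fun p hp => (Nat.prime_of_mem_primeFactors hp).two_le
    rw [← Nat.cast_prod] at a6
    have a7 := card_dvd_le (qq D x) (gr_prime D x) (qq_inj D x) hn0
    rw [hn]
    calc _ ≤ C * (3 * x : ℝ) ^ b * ((x : ℝ) ^ b / b) := by
          gcongr
          exact (pow_le_pow_right₀ one_le_two a7).trans (a6.trans (by gcongr))
      _ = C * 3 ^ b / b * ((x : ℝ) ^ b * (x : ℝ) ^ b) := by
          rw [Real.mul_rpow (by norm_num) hx'.le]; ring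
      _ ≤ (x : ℝ) ^ b * ((x : ℝ) ^ b * (x : ℝ) ^ b) := by gcongr
      _ = _ := by rw [← Real.rpow_add hx', ← Real.rpow_add hx']; ring_nf
  · rw [prod_const, ← Real.rpow_mul_natCast hx'.le, ← Real.rpow_add hx']
    simp only [card_univ, Fintype.card_option, Fintype.card_fin]
    push_cast; ring_nf

open Classical in
theorem count_sq {η : ℝ} (hη : 0 < η) : ∀ᶠ x : ℕ in atTop, ∑ m ∈ Ioc x (2 * x),
    (if ∃ p : ℕ, p.Prime ∧ η < Real.log p / Real.log x ∧ p ^ 2 ∣ m then (1 : ℝ) else 0) ≤
      4 * (x : ℝ) ^ (1 - η) := by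
  filter_upwards [Meas.L_pos, eventually_gt_atTop 0, const_le_rpow 2 hη] with x hl hx h2
  have hx' : (0 : ℝ) < x := by positivity
  set N := ⌊(x : ℝ) ^ η⌋₊
  have hN : (x : ℝ) ^ η < N + 1 := Nat.lt_floor_add_one _
  have hN1 : (1 : ℝ) < N := by linarith
  have hN0 : N ≠ 0 := by rintro h; rw [h] at hN1; norm_num at hN1
  calc _ ≤ ∑ m ∈ Ioc x (2 * x), ∑ p ∈ Ioc N (max N (2 * x)), if p ^ 2 ∣ m then (1 : ℝ) else 0 := by
        refine sum_le_sum fun m hm => ?_
        split_ifs with h
        · obtain ⟨p, hp, a1, a2⟩ := h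
          obtain ⟨a3, a4⟩ := mem_Ioc.1 hm
          refine le_trans (le_of_eq (if_pos a2).symm) (single_le_sum
            (f := fun p => if p ^ 2 ∣ m then (1 : ℝ) else 0) (fun _ _ => by positivity)
            (mem_Ioc.2 ⟨(Nat.floor_lt (by positivity)).2 ?_, le_max_of_le_right ?_⟩))
          · rw [rpow_eq_exp hx, ← Real.lt_log_iff_exp_lt (by exact_mod_cast hp.pos)]
            exact (lt_div_iff₀ hl).1 a1
          · exact (Nat.le_of_dvd (by omega) ((dvd_pow_self p two_ne_zero).trans a2)).trans a4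
        · positivity
    _ ≤ ∑ p ∈ Ioc N (max N (2 * x)), 2 * x * ((p : ℝ) ^ 2)⁻¹ := by
        rw [sum_comm]
        refine sum_le_sum fun p _ => ?_
        rw [sum_boole, ← div_eq_mul_inv]
        have := card_le_card (filter_subset_filter (p ^ 2 ∣ ·)
          (Ioc_subset_Ioc_left (Nat.zero_le x) : Ioc x (2 * x) ⊆ _))
        rw [Nat.Ioc_filter_dvd_card_eq_div] at this
        refine (Nat.cast_le.2 this).trans (Nat.cast_div_le.trans (le_of_eq ?_))
        push_cast; rfl
    _ ≤ _ := by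
        rw [← mul_sum]
        refine (mul_le_mul_of_nonneg_left ((sum_Ioc_inv_sq_le_sub hN0 (le_max_left _ _)).trans
          (sub_le_self _ (by positivity))) (by positivity)).trans ?_
        rw [Real.rpow_sub hx', Real.rpow_one, ← div_eq_mul_inv, ← mul_div_assoc,
          div_le_div_iff₀ (by positivity) (by positivity)]
        nlinarith

theorem bad {D : ℕ} (hD : 16 ≤ D) {g : Fin 3 → ℤ} (hg : Function.Injective g)
    (hg8 : ∀ j, g j ≠ 0 ∧ |g j| ≤ 8) {a : ℕ} (ha : Nat.Coprime a (primorial D)) (δ : ℝ) (k : ℕ)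
    {η ε : ℝ} (hη : 0 < η) (hη' : η ≤ 1 / 1000) (hε : 0 < ε) : ∀ᶠ x : ℕ in atTop,
    ∑ m ∈ Ioc x (2 * x) with m ≡ a [MOD primorial D], err η x m * ZZ D x g δ k m ^ 2 ≤
      x / primorial D * BB D x ^ 4 * (57 * η * (3 + eD D) + 32 * ε) := by
  classical
  filter_upwards [TU hD (κ := Option (Fin 3)) (by simp) (og_inj hg hg8).1 (og_inj hg hg8).2
    (j0 := none) rfl a, Meas.L_pos, small_pow D (show (6605 / 10000 : ℝ) < 1 by norm_num) hε,
    small_pow D (show (6615 / 10000 : ℝ) < 1 by norm_num) hε,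
    small_pow D (show 1 - η / 2 < 1 by linarith) hε, count_sq hη, sum_primeFactors D, pi_bdd D,
    crude D (og_inj hg hg8).2 (show 0 < η / 64 by positivity), eventually_gt_atTop 0,
    tendsto_natCast_atTop_atTop.eventually_ge_atTop (1 / η)]
    with x h hl s1 s2 s3 h1 h2 h3 h4 hx h5
  have hx' : (0 : ℝ) < x := by positivity
  have hW : (0 : ℝ) < primorial D := by exact_mod_cast primorial_pos D
  have hB := Meas.BB_nonneg D x
  have he := eD_nonneg D
  set M := (3 + eD D) * BB D x ^ 4 with hM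
  have hM0 : 0 ≤ M := by positivity
  have hI : ∀ N1 N2 : ℕ, N1 ≤ N2 → ∀ c : ℝ, (N2 : ℝ) - N1 ≤ c * x →
      ∑ m ∈ Ioc N1 N2 with m ≡ a [MOD primorial D], ZZ D x g δ k m ^ 2 ≤
        c * (x / primorial D * M) + x / primorial D * BB D x ^ 4 * ε := by
    intro N1 N2 hN c hc
    have := h ∅ N1 N2 (tens (yk D x δ k) (cell D x δ k)) 1 (by simp) hN one_pos
      (abs_tens fun T => abs_fL _ _) fun T hT => ⟨by simp, tens_supp hl (fun _ => yk_lt hl) hT⟩
    simp only [SS_tens, notMem_empty, IsEmpty.forall_iff, implies_true, and_true,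
      prod_empty, mul_one, Fintype.card_option, Fintype.card_fin, one_pow, one_mul] at this
    refine this.trans (add_le_add ?_ s1)
    rw [← mul_assoc c, ← mul_div_assoc]
    exact mul_le_mul_of_nonneg_right (div_le_div_of_nonneg_right hc hW.le) hM0
  set u : ℕ → ℝ := fun p => Real.log p / Real.log x with hu
  set s : Finset (PP D x) := univ.filter fun i => u (qq D x i) ≤ η
  have b1 : ∑ m ∈ Ioc x (2 * x) with m ≡ a [MOD primorial D],
      (∑ p ∈ m.primeFactors with u p ≤ η, (1 : ℝ)) * ZZ D x g δ k m ^ 2 ≤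
      50 * η * (x / primorial D * M) + 25 * (x / primorial D * BB D x ^ 4 * ε) := by
    have e1 : ∑ m ∈ Ioc x (2 * x) with m ≡ a [MOD primorial D],
        (∑ p ∈ m.primeFactors with u p ≤ η, (1 : ℝ)) * ZZ D x g δ k m ^ 2 = ∑ i ∈ s,
        ∑ m ∈ Ioc x (2 * x) with m ≡ a [MOD primorial D] ∧ qq D x i ∣ m, ZZ D x g δ k m ^ 2 := by
      simp only [← filter_filter, sum_filter (fun m => qq D x _ ∣ m)]
      rw [sum_comm]
      refine sum_congr rfl fun m hm => ?_
      have hm0 : x < m := (mem_Ioc.1 (mem_filter.1 hm).1).1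
      rw [h2 m (fun p => u p ≤ η) _ (by omega) fun p hp h => ?_, sum_mul]
      · exact sum_congr rfl fun i _ => by split_ifs <;> simp
      · have hp' := Nat.prime_of_mem_primeFactors hp
        have hp0 : (0 : ℝ) < p := by exact_mod_cast hp'.pos
        have b2 : (p : ℝ) ≤ x := by
          rw [← Real.log_le_log_iff hp0 hx']
          have := (div_le_iff₀ hl).1 h; nlinarith
        refine ⟨not_le.1 fun h' => ?_, by exact_mod_cast b2⟩
        have b3 := hp'.dvd_primorial_iff.2 h'
        exact hp'.one_lt.ne' (Nat.eq_one_of_dvd_coprimes ha ((((mem_filter.1 hm).2.of_dvd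
          b3).dvd_iff dvd_rfl).1 (Nat.dvd_of_mem_primeFactors hp)) b3)
    have h7 := card_small D x hl (b := 1 / 1000) (fun i => u (qq D x i) ≤ η) fun i h => h.trans hη'
    have h8 : (x : ℝ) ^ (1 / 1000 : ℝ) * (x : ℝ) ^ (6605 / 10000 : ℝ) =
        (x : ℝ) ^ (6615 / 10000 : ℝ) := by rw [← Real.rpow_add hx']; norm_num
    rw [e1]
    refine (sum_le_sum (g := fun i => 25 * η * (x / primorial D * M) *
      (Real.log (qq D x i) / (qq D x i * Real.log x)) + 25 * (x : ℝ) ^ (6605 / 10000 : ℝ))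
      fun i hi => ?_).trans ?_
    · have a1 : u (qq D x i) ≤ η := (mem_filter.1 hi).2
      have a2 : (1 : ℝ) < qq D x i := by have := Meas.two_le D x i; linarith
      have a3 : 0 < u (qq D x i) := div_pos (Real.log_pos a2) hl
      have := h {i} x (2 * x) (tens (dif (yk D x δ k) i) (cell D x δ k)) (5 * u (qq D x i))
        (by simp) (by omega) (by positivity) (abs_tens fun T => by
          unfold dif; split_ifs with h
          · simp only [abs_zero]; positivity
          · refine (fL_lip _ _ _).trans (le_of_eq ?_)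
            rw [abs_sub_comm, ← sub_div, lg, lg, sum_insert h, add_sub_cancel_right,
              abs_of_pos a3])
        fun T hT => ⟨by simpa using (dif_lt hl (left_ne_zero_of_mul hT)).1,
          tens_supp hl (fun _ h => (dif_lt hl h).2) hT⟩
      simp only [SS_tens, mem_singleton, forall_eq, prod_singleton, Nat.cast_mul,
        Nat.cast_ofNat, Fintype.card_option, Fintype.card_fin, ← div_div,
        show (2 : ℝ) * x - x = x by ring] at this
      refine (le_of_eq (sum_congr rfl fun m hm => ?_)).trans (this.trans ?_)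
      · rw [ZZ, S0_dif _ _ i (by exact_mod_cast (mem_filter.1 hm).2.2)]
      · rw [mul_add, show Real.log (qq D x i) / (qq D x i * Real.log x) = u (qq D x i) / qq D x i by
          simp only [hu]; field_simp]
        refine add_le_add (le_trans (le_of_eq (show _ = 25 * u (qq D x i) * (x / primorial D * M) *
          (u (qq D x i) / qq D x i) by rw [hM]; ring)) (by gcongr)) ?_
        gcongr; nlinarith
    · rw [sum_add_distrib, ← mul_sum, sum_const, nsmul_eq_mul]
      have a1 := (sum_le_sum_of_subset_of_nonneg (s := s) (fun i hi => mem_filter.2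
        ⟨mem_univ _, (mem_filter.1 hi).2.trans (by linarith)⟩)
        fun i _ _ => ((conv_pi D).1 x i (mem_univ _)).1).trans h3
      have a2 := mul_le_mul_of_nonneg_left a1
        (show 0 ≤ 25 * η * (x / primorial D * M) by positivity)
      have a3 := mul_le_mul_of_nonneg_right h7
        (show 0 ≤ (x : ℝ) ^ (6605 / 10000 : ℝ) by positivity)
      exact add_le_add (a2.trans (le_of_eq (by ring))) (by linarith)
  have b2 : ∑ m ∈ Ioc x (2 * x) with m ≡ a [MOD primorial D],
      (if ∃ p : ℕ, p.Prime ∧ η < u p ∧ p ^ 2 ∣ m then (1 : ℝ) else 0) * ZZ D x g δ k m ^ 2 ≤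
      4 * (x / primorial D * BB D x ^ 4 * ε) := by
    refine (sum_le_sum_of_subset_of_nonneg (filter_subset _ _) fun _ _ _ => by positivity).trans
      ((sum_le_sum (g := fun m => (if ∃ p : ℕ, p.Prime ∧ η < u p ∧ p ^ 2 ∣ m then (1 : ℝ) else 0) *
        (x : ℝ) ^ (η / 2)) fun m hm => ?_).trans ?_)
    · have := h4 m hm _ (abs_tens (δ := δ) (k := k) (y0 := yk D x δ k) fun T => abs_fL _ _)
        fun T hT => tens_supp hl (fun _ => yk_lt hl) hT
      rw [SS_tens] at this
      refine mul_le_mul_of_nonneg_left ?_ (by positivity)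
      rw [← sq_abs]
      refine (pow_le_pow_left₀ (abs_nonneg _) this 2).trans (le_of_eq ?_)
      rw [← Real.rpow_mul_natCast hx'.le]; push_cast; ring_nf
    · rw [← sum_mul]
      refine (mul_le_mul_of_nonneg_right h1 (by positivity)).trans ?_
      rw [mul_assoc, ← Real.rpow_add hx', show 1 - η + η / 2 = 1 - η / 2 by ring]
      linarith
  have b3 : ∑ m ∈ Ioc x (2 * x) with m ≡ a [MOD primorial D],
      (if m ≤ ⌊x * Real.exp η⌋₊ then (1 : ℝ) else 0) * ZZ D x g δ k m ^ 2 ≤
      2 * η * (x / primorial D * M) + x / primorial D * BB D x ^ 4 * ε := by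
    have a1 := Real.add_one_le_exp η
    have a2 : Real.exp η ≤ 1 + 2 * η := by
      have := Real.add_one_le_exp (-η)
      rw [Real.exp_neg, le_inv_comm₀ (by linarith) (Real.exp_pos _)] at this
      refine this.trans ?_
      rw [inv_le_iff_one_le_mul₀ (by linarith)]; nlinarith
    refine le_trans ?_ (hI x ⌊x * Real.exp η⌋₊ (Nat.le_floor (by nlinarith)) _ (by
      have := Nat.floor_le (show 0 ≤ x * Real.exp η by positivity); nlinarith))
    simp only [ite_mul, one_mul, zero_mul]
    rw [← sum_filter]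
    refine sum_le_sum_of_subset_of_nonneg (fun m hm => ?_) fun _ _ _ => by positivity
    simp only [mem_filter, mem_Ioc] at hm ⊢
    exact ⟨⟨hm.1.1.1, hm.2⟩, hm.1.2⟩
  have b4 : ∑ m ∈ Ioc x (2 * x) with m ≡ a [MOD primorial D],
      (if ⌊2 * x * Real.exp (-η)⌋₊ < m then (1 : ℝ) else 0) * ZZ D x g δ k m ^ 2 ≤
      3 * η * (x / primorial D * M) + x / primorial D * BB D x ^ 4 * ε := by
    have a1 := Real.add_one_le_exp (-η)
    have a2 : Real.exp (-η) ≤ 1 := Real.exp_le_one_iff.2 (by linarith)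
    rw [div_le_iff₀ hη] at h5
    refine le_trans ?_ (hI ⌊2 * x * Real.exp (-η)⌋₊ (2 * x) (Nat.floor_le_of_le (by
      push_cast; nlinarith)) _ (by
      have := Nat.lt_floor_add_one (2 * x * Real.exp (-η)); push_cast; nlinarith))
    simp only [ite_mul, one_mul, zero_mul]
    rw [← sum_filter]
    refine sum_le_sum_of_subset_of_nonneg (fun m hm => ?_) fun _ _ _ => by positivity
    simp only [mem_filter, mem_Ioc] at hm ⊢
    exact ⟨⟨hm.2, hm.1.1.2⟩, hm.1.2⟩
  have b5 := mul_le_mul_of_nonneg_left (hI x (2 * x) (by omega) 1 (by push_cast; linarith))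
    (show 0 ≤ 2 * η by positivity)
  have b6 : 2 * η * (x / primorial D * BB D x ^ 4 * ε) ≤ 1 * (x / primorial D * BB D x ^ 4 * ε) := by
    gcongr; linarith
  simp only [err, add_mul, sum_add_distrib]
  rw [← mul_sum]
  refine (add_le_add (add_le_add (add_le_add (add_le_add b1 b2) b3) b4) b5).trans ?_
  rw [hM] at *
  linarith

end Pool.Agent.Lib.MP_fc51f7_nt
end
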