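import Pool.Agent.Lib.MP_fc51f7_nt.LS

-- part Pool.Agent.Lib.MP_fc51f7_nt.GrahamA
section

/-! The Dirichlet series of the square of the one-form sieve sum, in diagonal form. -/

set_option autoImplicit false

namespace Pool.Agent.Lib.MP_fc51f7_nt

open Finset Filter Topology

theorem gr_hs_congr {f g : ℕ → ℝ} {a b : ℝ} (h : HasSum f a) (h1 : ∀ m, g m = f m) (h2 : b = a) :
    HasSum g b := by
  rw [h2, show g = f from funext h1]
  exact h

theorem hasSum_mul_local {F : ℕ → ℝ} {Z s : ℝ} {p : ℕ} (hp : p ≠ 0)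
    (hF : HasSum (fun m : ℕ => (m : ℝ) ^ (-s) * F m) Z) (hinv : ∀ m, F (p * m) = F m) (a b : ℝ) :
    HasSum (fun m : ℕ => (m : ℝ) ^ (-s) * (F m * if p ∣ m then b else a))
      (Z * (a + (b - a) * (p : ℝ) ^ (-s))) := by
  have h1 : HasSum (fun m : ℕ => if p ∣ m then (m : ℝ) ^ (-s) * F m else 0)
      ((p : ℝ) ^ (-s) * Z) := by
    have hi : Function.Injective fun m : ℕ => p * m := mul_right_injective₀ hp
    rw [← hi.hasSum_iff]
    · refine gr_hs_congr (hF.mul_left ((p : ℝ) ^ (-s))) (fun m => ?_) rfl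
      simp only [Function.comp, dvd_mul_right, if_true, hinv, Nat.cast_mul]
      rw [Real.mul_rpow (Nat.cast_nonneg _) (Nat.cast_nonneg _), mul_assoc]
    · intro m hm
      rw [if_neg]
      rintro ⟨k, rfl⟩
      exact hm ⟨k, rfl⟩
  refine gr_hs_congr ((hF.mul_left a).add (h1.mul_left (b - a))) (fun m => ?_) (by ring)
  split_ifs <;> ring

theorem hasSum_euler {ι : Type} [DecidableEq ι] (q : ι → ℕ) (hq : ∀ i, (q i).Prime)
    (hinj : Function.Injective q) {F : ℕ → ℝ} {Z s : ℝ}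
    (hF : HasSum (fun m : ℕ => (m : ℝ) ^ (-s) * F m) Z) (hinv : ∀ i m, F (q i * m) = F m)
    (a b : ι → ℝ) (P : Finset ι) :
    HasSum (fun m : ℕ => (m : ℝ) ^ (-s) * (F m * ∏ i ∈ P, if q i ∣ m then b i else a i))
      (Z * ∏ i ∈ P, (a i + (b i - a i) * (q i : ℝ) ^ (-s))) := by
  induction P using Finset.induction_on with
  | empty => simpa using hF
  | insert j P hj ih =>
    refine gr_hs_congr (hasSum_mul_local (hq j).ne_zero ih (fun m => ?_) (a j) (b j)) (fun m => ?_) ?_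
    · rw [hinv]
      congr 1
      refine prod_congr rfl fun i hi => ?_
      have hne : q i ≠ q j := fun h => hj (hinj h ▸ hi)
      have : q i ∣ q j * m ↔ q i ∣ m :=
        ((Nat.coprime_primes (hq i) (hq j)).2 hne).dvd_mul_left
      simp only [this]
    · rw [prod_insert hj]; ring
    · rw [prod_insert hj]; ring

theorem hasSum_coprime (D : ℕ) {s : ℝ} (hs : 1 < s) :
    HasSum (fun m : ℕ => (m : ℝ) ^ (-s) * (if Nat.Coprime m (primorial D) then 1 else 0))
      ((∑' n : ℕ, (n : ℝ) ^ (-s)) * ∏ p ∈ Nat.primesLE D, (1 - (p : ℝ) ^ (-s))) := by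
  have h0 : HasSum (fun m : ℕ => (m : ℝ) ^ (-s) * (fun _ => (1 : ℝ)) m) (∑' n : ℕ, (n : ℝ) ^ (-s)) := by
    simpa using (Real.summable_nat_rpow.2 (by linarith : -s < -1)).hasSum
  have h := hasSum_euler (ι := Nat.primesLE D) Subtype.val
    (fun i => Nat.prime_of_mem_primesLE i.2) Subtype.val_injective h0 (fun _ _ => rfl)
    (fun _ => 1) (fun _ => 0) univ
  refine gr_hs_congr h (fun m => ?_) ?_
  · congr 1
    rw [one_mul]
    split_ifs with hm
    · refine (prod_eq_one fun i _ => if_neg fun hi => ?_).symm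
      have hp := Nat.prime_of_mem_primesLE i.2
      exact hp.one_lt.ne' (Nat.eq_one_of_dvd_coprimes hm hi
        (hp.dvd_primorial_iff.2 (Nat.le_of_mem_primesLE i.2)))
    · obtain ⟨p, hp, h1, h2⟩ := Nat.Prime.not_coprime_iff_dvd.1 hm
      have hmem : p ∈ Nat.primesLE D := Nat.mem_primesLE.2 ⟨hp.dvd_primorial_iff.1 h2, hp⟩
      symm
      refine prod_eq_zero (mem_univ (⟨p, hmem⟩ : Nat.primesLE D)) ?_
      exact if_pos h1
  · congr 1
    rw [← prod_coe_sort (Nat.primesLE D)]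
    exact prod_congr rfl fun i _ => by ring

noncomputable section

variable {ι : Type} [Fintype ι] [DecidableEq ι]

/-- Mean of the local function. -/
def aa (q : ι → ℕ) (e : ℝ) (i : ι) : ℝ :=
  (1 - Real.exp (-(e * Real.log (q i)))) * ((q i : ℝ) - 1)⁻¹

/-- Variance of the local function. -/
def vv (q : ι → ℕ) (e : ℝ) (i : ι) : ℝ :=
  Real.exp (-(e * Real.log (q i))) * ((q i : ℝ) - 1)⁻¹ * (1 + aa q e i)

def JJ (q : ι → ℕ) (L e : ℝ) (f : ℝ → ℝ) (R : Finset ι) : ℝ :=
  ∑ U : Finset ι with Disjoint U R, (∏ i ∈ U, aa q e i) * f (lg q R / L + lg q U / L)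

theorem S1_eq (q : ι → ℕ) (L e : ℝ) (f : ℝ → ℝ) (m : ℤ) :
    S1 q L f m = ∑ R : Finset ι, JJ q L e f R * ∏ i ∈ R, (xi (q i) m - aa q e i) := by
  have h1 : ∀ T : Finset ι, Xi q T m =
      ∑ R ∈ T.powerset, (∏ i ∈ R, (xi (q i) m - aa q e i)) * ∏ i ∈ T \ R, aa q e i := by
    intro T
    rw [← prod_add]
    exact prod_congr rfl fun i _ => by ring
  simp only [S1, JJ, h1, mul_sum, sum_mul]
  rw [sum_sigma', sum_sigma']
  refine sum_bij' (fun z _ => ⟨z.2, z.1 \ z.2⟩) (fun z _ => ⟨z.1 ∪ z.2, z.1⟩) ?_ ?_ ?_ ?_ ?_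
  · intro z _
    simp [sdiff_disjoint]
  · intro z _
    exact mem_sigma.2 ⟨mem_univ _, mem_powerset.2 subset_union_left⟩
  · rintro ⟨T, R⟩ hz
    simp only [mem_sigma, mem_univ, mem_powerset, true_and] at hz
    simp [union_eq_right.2 hz]
  · rintro ⟨R, U⟩ hz
    simp only [mem_sigma, mem_univ, mem_filter, true_and] at hz
    simp [union_sdiff_cancel_left hz.symm]
  · rintro ⟨T, R⟩ hz
    simp only [mem_sigma, mem_univ, mem_powerset, true_and] at hz
    have : lg q T = lg q R + lg q (T \ R) := by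
      simp only [lg]
      rw [← sum_sdiff hz, add_comm]
    simp only [this, add_div]
    ring

theorem hasSum_S1 (q : ι → ℕ) (hq : ∀ i, (q i).Prime) (hinj : Function.Injective q)
    {F : ℕ → ℝ} {Z e : ℝ} (hF : HasSum (fun m : ℕ => (m : ℝ) ^ (-(1 + e)) * F m) Z)
    (hinv : ∀ i m, F (q i * m) = F m) (L : ℝ) (f : ℝ → ℝ) :
    HasSum (fun m : ℕ => (m : ℝ) ^ (-(1 + e)) * (F m * S1 q L f m ^ 2))
      (Z * ∑ R : Finset ι, (∏ i ∈ R, vv q e i) * JJ q L e f R ^ 2) := by
  have hp : ∀ i, (1 : ℝ) < q i := fun i => by exact_mod_cast (hq i).one_lt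
  have hs : ∀ i, (q i : ℝ) ^ (-(1 + e)) = (q i : ℝ)⁻¹ * Real.exp (-(e * Real.log (q i))) := by
    intro i
    have := hp i
    rw [neg_add, Real.rpow_add (by linarith), Real.rpow_neg_one, Real.rpow_def_of_pos (by linarith)]
    congr 2
    ring
  have key : ∀ R R' : Finset ι, HasSum (fun m : ℕ => (m : ℝ) ^ (-(1 + e)) * (F m *
      ((∏ i ∈ R, (xi (q i) m - aa q e i)) * ∏ i ∈ R', (xi (q i) m - aa q e i))))
      (Z * if R = R' then ∏ i ∈ R, vv q e i else 0) := by
    intro R R'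
    have h := hasSum_euler q hq hinj hF hinv
      (fun i => (if i ∈ R then ((q i : ℝ) - 1)⁻¹ - aa q e i else 1) *
        (if i ∈ R' then ((q i : ℝ) - 1)⁻¹ - aa q e i else 1))
      (fun i => (if i ∈ R then -1 - aa q e i else 1) * (if i ∈ R' then -1 - aa q e i else 1)) univ
    refine gr_hs_congr h (fun m => ?_) ?_
    · congr 2
      rw [← prod_ite_mem_eq R, ← prod_ite_mem_eq R', ← prod_mul_distrib]
      refine prod_congr rfl fun i _ => ?_
      simp only [xi, Int.natCast_dvd_natCast]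
      split_ifs <;> rfl
    · congr 1
      have hz : ∀ i, ((q i : ℝ) - 1)⁻¹ - aa q e i +
          (-1 - aa q e i - (((q i : ℝ) - 1)⁻¹ - aa q e i)) * (q i : ℝ) ^ (-(1 + e)) = 0 := by
        intro i
        have h1 : (q i : ℝ) - 1 ≠ 0 := by linarith [hp i]
        have h2 : (q i : ℝ) ≠ 0 := by linarith [hp i]
        rw [hs, aa]
        field_simp
        ring
      split_ifs with hR
      · subst hR
        rw [← prod_ite_mem_eq R]
        refine prod_congr rfl fun i _ => ?_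
        split_ifs with hi
        · have h1 : (q i : ℝ) - 1 ≠ 0 := by linarith [hp i]
          have h2 : (q i : ℝ) ≠ 0 := by linarith [hp i]
          rw [hs, vv, aa]
          field_simp
          ring
        · ring
      · symm
        obtain ⟨i, hi⟩ : ∃ i, ¬ (i ∈ R ↔ i ∈ R') := by
          by_contra hc
          push Not at hc
          exact hR (Finset.ext hc)
        refine prod_eq_zero (mem_univ i) ?_
        by_cases h1 : i ∈ R
        · have h2 : i ∉ R' := fun h => hi ⟨fun _ => h, fun _ => h1⟩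
          simp only [h1, h2, if_true, if_false, mul_one]
          exact hz i
        · have h2 : i ∈ R' := by
            by_contra h
            exact hi ⟨fun h' => absurd h' h1, fun h' => absurd h' h⟩
          simp only [h1, h2, if_true, if_false, one_mul]
          exact hz i
  have h := hasSum_sum (s := univ) fun (R : Finset ι) _ => hasSum_sum (s := univ)
    fun (R' : Finset ι) _ => (key R R').mul_left (JJ q L e f R * JJ q L e f R')
  refine gr_hs_congr h (fun m => ?_) ?_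
  · rw [S1_eq q L e, sq, sum_mul_sum]
    simp only [mul_sum]
    exact sum_congr rfl fun R _ => sum_congr rfl fun R' _ => by ring
  · rw [mul_sum]
    refine sum_congr rfl fun R _ => ?_
    rw [sum_eq_single R (fun R' _ h => by rw [if_neg h.symm]; ring) (by simp), if_pos rfl]
    ring

end

end Pool.Agent.Lib.MP_fc51f7_nt
end

-- part Pool.Agent.Lib.MP_fc51f7_nt.GrahamB
section

/-! Calculus and elementary estimates for the Barban-Vehov-Graham asymptotic. -/

set_option autoImplicit false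

namespace Pool.Agent.Lib.MP_fc51f7_nt

open Finset Filter Topology MeasureTheory

theorem grLip_nonneg {f : ℝ → ℝ} {K : ℝ} (hf : ∀ a b, |f a - f b| ≤ K * |a - b|) : 0 ≤ K := by
  simpa using (abs_nonneg _).trans (hf 1 0)

theorem grLip_cont {f : ℝ → ℝ} {K : ℝ} (hf : ∀ a b, |f a - f b| ≤ K * |a - b|) : Continuous f :=
  (LipschitzWith.of_dist_le_mul (K := ⟨K, grLip_nonneg hf⟩) fun a b => hf a b).continuous

theorem grLip_bdd {f : ℝ → ℝ} {K : ℝ} (hf : ∀ a b, |f a - f b| ≤ K * |a - b|)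
    (h0 : ∀ u, 1 ≤ u → f u = 0) {u : ℝ} (hu : 0 ≤ u) : |f u| ≤ K := by
  have hK := grLip_nonneg hf
  rcases le_total 1 u with h | h
  · simpa [h0 u h] using hK
  · have := hf u 1
    rw [h0 1 le_rfl, sub_zero, abs_sub_comm, abs_of_nonneg (by linarith : 0 ≤ 1 - u)] at this
    nlinarith

theorem hasDerivAt_tail {f : ℝ → ℝ} (hf : Continuous f) (t : ℝ) :
    HasDerivAt (fun a => ∫ u in a..1, f u) (-f t) t := by
  have := (hf.integral_hasStrictDerivAt 1 t).hasDerivAt.neg
  refine this.congr_of_eventuallyEq (Eventually.of_forall fun a => ?_)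
  simp only [Pi.neg_apply]
  rw [intervalIntegral.integral_symm]

theorem ftc_square {f : ℝ → ℝ} (hf : Continuous f) (w : ℝ) :
    ∫ t in (0 : ℝ)..1, Real.exp (-(w * t)) * (f t + w * ∫ u in t..1, f u) ^ 2 =
      (∫ t in (0 : ℝ)..1, Real.exp (-(w * t)) * f t ^ 2) + w * (∫ u in (0 : ℝ)..1, f u) ^ 2 := by
  have hG : Continuous fun a => ∫ u in a..1, f u :=
    continuous_iff_continuousAt.2 fun t => (hasDerivAt_tail hf t).continuousAt
  have hd : ∀ t ∈ Set.uIcc (0 : ℝ) 1, HasDerivAt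
      (fun t => -w * (Real.exp (-(w * t)) * (∫ u in t..1, f u) ^ 2))
      (Real.exp (-(w * t)) * (f t + w * ∫ u in t..1, f u) ^ 2 -
        Real.exp (-(w * t)) * f t ^ 2) t := by
    intro t _
    have h1 : HasDerivAt (fun t => Real.exp (-(w * t))) (Real.exp (-(w * t)) * -w) t := by
      simpa using ((hasDerivAt_id t).const_mul w).neg.exp
    refine ((h1.mul ((hasDerivAt_tail hf t).pow 2)).const_mul (-w)).congr_deriv ?_
    simp only [Pi.pow_apply, Nat.cast_ofNat]
    ring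
  have h := intervalIntegral.integral_eq_sub_of_hasDerivAt hd
    (Continuous.intervalIntegrable (by fun_prop) _ _)
  rw [intervalIntegral.integral_sub (Continuous.intervalIntegrable (by fun_prop) _ _)
    (Continuous.intervalIntegrable (by fun_prop) _ _)] at h
  simp only [intervalIntegral.integral_same, mul_zero, neg_zero, Real.exp_zero] at h
  linarith

theorem laplace_cum {f : ℝ → ℝ} (hf : Continuous f) (h0 : ∀ u, 1 ≤ u → f u = 0) {w : ℝ}
    (hw : 0 < w) :
    IntegrableOn (fun v => Real.exp (-(w * v)) * ∫ u in (0 : ℝ)..v, f u ^ 2) (Set.Ioi 0) ∧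
    ∫ v in Set.Ioi (0 : ℝ), Real.exp (-(w * v)) * ∫ u in (0 : ℝ)..v, f u ^ 2 =
      w⁻¹ * ∫ t in (0 : ℝ)..1, Real.exp (-(w * t)) * f t ^ 2 := by
  have c1 : Continuous fun u => f u ^ 2 := by fun_prop
  have c2 : Continuous fun t => Real.exp (-(w * t)) * f t ^ 2 := by fun_prop
  have hd : ∀ v ∈ Set.Ici (0 : ℝ), HasDerivAt
      (fun v => w⁻¹ * ((∫ t in (0 : ℝ)..v, Real.exp (-(w * t)) * f t ^ 2) -
        Real.exp (-(w * v)) * ∫ u in (0 : ℝ)..v, f u ^ 2))
      (Real.exp (-(w * v)) * ∫ u in (0 : ℝ)..v, f u ^ 2) v := by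
    intro t _
    have h1 : HasDerivAt (fun t => Real.exp (-(w * t))) (Real.exp (-(w * t)) * -w) t := by
      simpa using ((hasDerivAt_id t).const_mul w).neg.exp
    refine (((c2.integral_hasStrictDerivAt 0 t).hasDerivAt.sub
      (h1.mul (c1.integral_hasStrictDerivAt 0 t).hasDerivAt)).const_mul w⁻¹).congr_deriv ?_
    field_simp
    ring
  have hst : ∀ g : ℝ → ℝ, Continuous g → (∀ u, 1 ≤ u → g u = 0) → ∀ v, 1 ≤ v →
      ∫ u in (0 : ℝ)..v, g u = ∫ u in (0 : ℝ)..1, g u := by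
    intro g hg hg0 v hv
    rw [← intervalIntegral.integral_add_adjacent_intervals (hg.intervalIntegrable 0 1)
      (hg.intervalIntegrable 1 v), intervalIntegral.integral_congr (a := 1) (b := v)
      (g := fun _ => 0) (fun u hu => hg0 u (by rw [Set.uIcc_of_le hv] at hu; exact hu.1))]
    simp
  have hl : Tendsto (fun v => w⁻¹ * ((∫ t in (0 : ℝ)..v, Real.exp (-(w * t)) * f t ^ 2) -
      Real.exp (-(w * v)) * ∫ u in (0 : ℝ)..v, f u ^ 2)) atTop
      (𝓝 (w⁻¹ * ((∫ t in (0 : ℝ)..1, Real.exp (-(w * t)) * f t ^ 2) -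
        0 * ∫ u in (0 : ℝ)..1, f u ^ 2))) := by
    have he : Tendsto (fun v => Real.exp (-(w * v))) atTop (𝓝 0) :=
      Real.tendsto_exp_neg_atTop_nhds_zero.comp (tendsto_id.const_mul_atTop hw)
    refine ((tendsto_const_nhds.sub (he.mul_const _)).const_mul _).congr' ?_
    filter_upwards [eventually_ge_atTop 1] with v hv
    rw [hst _ c1 (fun u hu => by simp [h0 u hu]) v hv, hst _ c2 (fun u hu => by simp [h0 u hu]) v hv]
  have hpos : ∀ v ∈ Set.Ioi (0 : ℝ), 0 ≤ Real.exp (-(w * v)) * ∫ u in (0 : ℝ)..v, f u ^ 2 :=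
    fun v hv => mul_nonneg (Real.exp_pos _).le
      (intervalIntegral.integral_nonneg (le_of_lt hv) fun _ _ => sq_nonneg _)
  refine ⟨integrableOn_Ioi_deriv_of_nonneg' hd hpos hl, ?_⟩
  rw [integral_Ioi_of_hasDerivAt_of_nonneg' hd hpos hl]
  simp

theorem gr_tendsto_of_close {u v : ℕ → ℝ} {l C : ℝ} (hv : Tendsto v atTop (𝓝 l))
    (h : ∀ δ, 0 < δ → δ ≤ 1 → ∀ᶠ x in atTop, |u x - v x| ≤ C * δ) : Tendsto u atTop (𝓝 l) := by
  have : Tendsto (fun x => u x - v x) atTop (𝓝 0) := by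
    rw [Metric.tendsto_nhds]
    intro ε hε
    have hC : 0 < |C| + 1 := by positivity
    filter_upwards [h (min 1 (ε / (|C| + 1))) (by positivity) (min_le_left _ _)] with x hx
    rw [Real.dist_eq, sub_zero]
    have h1 : min 1 (ε / (|C| + 1)) ≤ ε / (|C| + 1) := min_le_right _ _
    have h2 : 0 < min 1 (ε / (|C| + 1)) := by positivity
    rw [le_div_iff₀ hC] at h1
    nlinarith [le_abs_self C]
  simpa using this.add hv

theorem gr_tail_le {a b : ℕ → ℝ} {A B c : ℝ} (ha : HasSum a A) (hb : HasSum b B)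
    (ha0 : ∀ m, 0 ≤ a m) (hb0 : ∀ m, 0 ≤ b m) (hc : 0 ≤ c) (s : Finset ℕ)
    (h : ∀ m, m ∉ s → a m ≤ c * b m) : |∑ m ∈ s, a m - A| ≤ c * B := by
  have h1 : ∑ m ∈ s, a m ≤ A := sum_le_hasSum s (fun m _ => ha0 m) ha
  have h2 : HasSum (fun m => if m ∈ s then a m else 0) (∑ m ∈ s, a m) := by
    refine gr_hs_congr (hasSum_sum_of_ne_finset_zero (s := s) (f := fun m => if m ∈ s then a m else 0)
      fun m hm => if_neg hm) (fun _ => rfl) (sum_congr rfl fun m hm => (if_pos hm).symm)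
  have h3 := hasSum_le (fun m => ?_) ha (h2.add (hb.mul_left c))
  · rw [abs_sub_comm, abs_of_nonneg (by linarith)]
    linarith
  · split_ifs with hm
    · linarith [mul_nonneg hc (hb0 m)]
    · linarith [h m hm]

/-- A bump function. -/
noncomputable def grBump (u : ℝ) : ℝ := max 0 (min 1 (2 - u))

theorem grBump_cont : Continuous grBump := by unfold grBump; fun_prop

theorem grBump_nonneg (u : ℝ) : 0 ≤ grBump u := le_max_left _ _

theorem grBump_zero (u : ℝ) (h : 2 ≤ u) : grBump u = 0 :=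
  max_eq_left (min_le_of_right_le (by linarith))

theorem grBump_one {u : ℝ} (h : u ≤ 1) : grBump u = 1 := by
  rw [grBump, min_eq_left (by linarith), max_eq_right zero_le_one]

theorem Conv.grBdd {α : ℕ → Type} {s : ∀ x, Finset (α x)} {c t : ∀ x, α x → ℝ} {c0 : ℝ} {ρ : ℝ → ℝ}
    (h : Conv s c t c0 ρ) : ∃ A : ℝ, 0 ≤ A ∧ ∀ᶠ x in atTop, ∑ i ∈ s x, c x i * grBump (t x i) ≤ A := by
  have := h.2.2.2.2 grBump grBump_cont 2 zero_le_two grBump_zero
  exact ⟨max 0 (_ + 1), le_max_left _ _, (this.eventually (gt_mem_nhds (lt_add_one _))).mono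
    fun x hx => hx.le.trans (le_max_right _ _)⟩

section

variable {ι : Type} [Fintype ι] [DecidableEq ι]

theorem drop_disjoint (a : ι → ℝ) (ha : ∀ i, 0 ≤ a i) (φ h : Finset ι → ℝ) (hh : ∀ U, 0 ≤ h U)
    (hφ : ∀ U i, i ∈ U → |φ U| ≤ h (U.erase i)) (R : Finset ι) :
    |∑ U : Finset ι with Disjoint U R, (∏ i ∈ U, a i) * φ U - ∑ U : Finset ι, (∏ i ∈ U, a i) * φ U| ≤
      (∑ i ∈ R, a i) * ∑ U : Finset ι, (∏ i ∈ U, a i) * h U := by
  have hp : ∀ U : Finset ι, 0 ≤ ∏ i ∈ U, a i := fun U => prod_nonneg fun i _ => ha i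
  rw [← sum_filter_add_sum_filter_not univ (fun U => Disjoint U R) (fun U => (∏ i ∈ U, a i) * φ U),
    sub_add_cancel_left, abs_neg]
  calc _ ≤ ∑ U : Finset ι with ¬ Disjoint U R, (∏ i ∈ U, a i) * |φ U| := by
        refine (abs_sum_le_sum_abs _ _).trans (le_of_eq (sum_congr rfl fun U _ => ?_))
        rw [abs_mul, abs_of_nonneg (hp U)]
    _ ≤ ∑ U : Finset ι, ∑ i ∈ R, if i ∈ U then (∏ i ∈ U, a i) * h (U.erase i) else 0 := by
        have hn : ∀ (U : Finset ι) i, 0 ≤ if i ∈ U then (∏ i ∈ U, a i) * h (U.erase i) else 0 := by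
          intro U i
          split_ifs
          · exact mul_nonneg (hp U) (hh _)
          · exact le_rfl
        refine le_trans (sum_le_sum fun U hU => ?_) (sum_le_sum_of_subset_of_nonneg
          (filter_subset (fun U => ¬ Disjoint U R) _) fun U _ _ => sum_nonneg fun i _ => hn U i)
        obtain ⟨i, h1, h2⟩ := not_disjoint_iff.1 (mem_filter.1 hU).2
        refine le_trans ?_ (single_le_sum (fun i _ => hn U i) h2)
        rw [if_pos h1]
        exact mul_le_mul_of_nonneg_left (hφ U i h1) (hp U)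
    _ ≤ _ := by
        rw [sum_comm, sum_mul]
        refine sum_le_sum fun i _ => ?_
        rw [← sum_filter]
        have : ∑ U : Finset ι with i ∈ U, (∏ i ∈ U, a i) * h (U.erase i) =
            a i * ∑ V ∈ (univ.filter fun U : Finset ι => i ∈ U).image (fun U => U.erase i),
              (∏ i ∈ V, a i) * h V := by
          rw [sum_image, mul_sum]
          · refine sum_congr rfl fun U hU => ?_
            rw [← mul_prod_erase U a (mem_filter.1 hU).2, mul_assoc]
          · intro U hU V hV hUV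
            rw [← insert_erase (mem_filter.1 (mem_coe.1 hU)).2,
              ← insert_erase (mem_filter.1 (mem_coe.1 hV)).2]
            exact congrArg (insert i) hUV
        rw [this]
        exact mul_le_mul_of_nonneg_left (sum_le_sum_of_subset_of_nonneg (subset_univ _)
          fun U _ _ => mul_nonneg (hp U) (hh U)) (ha i)

omit [Fintype ι] [DecidableEq ι] in
theorem aa_nonneg (q : ι → ℕ) (hq : ∀ i, (q i).Prime) {e : ℝ} (he : 0 ≤ e) (i : ι) :
    0 ≤ aa q e i := by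
  have h1 : (1 : ℝ) < q i := by exact_mod_cast (hq i).one_lt
  refine mul_nonneg (sub_nonneg.2 (Real.exp_le_one_iff.2 ?_)) (inv_nonneg.2 (by linarith))
  exact neg_nonpos.2 (mul_nonneg he (Real.log_nonneg h1.le))

omit [Fintype ι] [DecidableEq ι] in
theorem sum_aa_le (q : ι → ℕ) (hq : ∀ i, (q i).Prime) (hinj : Function.Injective q) {e : ℝ}
    (he : 0 ≤ e) {K : ℕ} (hK : 0 < K) (R : Finset ι) :
    ∑ i ∈ R, aa q e i ≤ (K + 1) * e + e * lg q R / K := by
  have hK' : (0 : ℝ) < K := by exact_mod_cast hK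
  have h1 : ∀ i, aa q e i ≤ (if q i ≤ K then e else 0) + e * Real.log (q i) / K := by
    intro i
    have hp : (1 : ℝ) < q i := by exact_mod_cast (hq i).one_lt
    have hl := Real.log_nonneg hp.le
    have h2 : aa q e i ≤ e * Real.log (q i) / ((q i : ℝ) - 1) :=
      mul_le_mul_of_nonneg_right (by linarith [Real.add_one_le_exp (-(e * Real.log (q i)))])
        (inv_nonneg.2 (by linarith))
    refine h2.trans ?_
    split_ifs with h
    · have : e * Real.log (q i) / ((q i : ℝ) - 1) ≤ e := by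
        rw [div_le_iff₀ (by linarith)]
        exact mul_le_mul_of_nonneg_left (Real.log_le_sub_one_of_pos (by linarith)) he
      have : 0 ≤ e * Real.log (q i) / K := by positivity
      linarith
    · rw [zero_add]
      have : (K : ℝ) + 1 ≤ q i := by exact_mod_cast not_le.1 h
      exact div_le_div_of_nonneg_left (by positivity) hK' (by linarith)
  refine (sum_le_sum fun i _ => h1 i).trans ?_
  rw [sum_add_distrib, ← sum_div, ← mul_sum, ← sum_filter, sum_const, nsmul_eq_mul]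
  refine add_le_add (mul_le_mul_of_nonneg_right ?_ he) le_rfl
  have : (R.filter fun i => q i ≤ K).card ≤ (range (K + 1)).card :=
    card_le_card_of_injOn q (fun i hi => by
      simpa [Nat.lt_succ_iff] using (mem_filter.1 (mem_coe.1 hi)).2) hinj.injOn
  rw [card_range] at this
  exact_mod_cast this

end

end Pool.Agent.Lib.MP_fc51f7_nt
end

-- part Pool.Agent.Lib.MP_fc51f7_nt.Point
section

/-! The pointwise inequality: a positive semidefinite slack for every large prime. -/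

set_option autoImplicit false

namespace Pool.Agent.Lib.MP_fc51f7_nt

open Finset

noncomputable def o1 (v : ℝ) : ℝ := v / (1 - v)

noncomputable def o2 (v : ℝ) : ℝ := 189 / 100 * v ^ 2 / (1 - v)

noncomputable def Lam : Fin 3 → Fin 3 → ℝ := ![![0, 0, 0], ![0, 23 / 100, 3 / 4], ![0, 3 / 4, 4]]

noncomputable def om : Fin 3 → Fin 3 → ℝ → ℝ :=
  ![![o1, o1, o1], ![o1, o2, fun _ => 0], ![o1, fun _ => 0, fun _ => 0]]

theorem slack {u : ℝ} (h1 : 339 / 1000 ≤ u) (h2 : u ≤ 1001 / 1000) (Z : Fin 3 → ℝ) :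
    (1 - u) * (∑ X, Z X) ^ 2 ≤ ∑ X, ∑ Y, (u * om X Y (1 - u) + u * Lam X Y) * (Z X * Z Y) := by
  have hu : u ≠ 0 := by linarith
  have e1 : u * o1 (1 - u) = 1 - u := by unfold o1; rw [sub_sub_cancel]; field_simp
  have e2 : u * o2 (1 - u) = 189 / 100 * (1 - u) ^ 2 := by
    unfold o2; rw [sub_sub_cancel]; field_simp
  simp only [Fin.sum_univ_three, om, Lam, Matrix.cons_val_zero, Matrix.cons_val_one,
    Matrix.cons_val, e1, e2]
  have hγ : 0 < 5 * u - 1 := by linarith
  have hd : 0 ≤ (189 / 100 * (1 - u) ^ 2 + 23 / 100 * u - (1 - u)) * (5 * u - 1) -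
      (7 / 4 * u - 1) ^ 2 := by
    nlinarith [mul_nonneg (sub_nonneg.2 h1) (sq_nonneg (u - 767 / 1000)),
      mul_nonneg (sub_nonneg.2 h1) (sub_nonneg.2 h2)]
  have : 0 ≤ (189 / 100 * (1 - u) ^ 2 + 23 / 100 * u - (1 - u)) * Z 1 ^ 2 +
      2 * (7 / 4 * u - 1) * (Z 1 * Z 2) + (5 * u - 1) * Z 2 ^ 2 := by
    refine nonneg_of_mul_nonneg_right ?_ hγ
    nlinarith [mul_nonneg hd (sq_nonneg (Z 1)),
      sq_nonneg ((7 / 4 * u - 1) * Z 1 + (5 * u - 1) * Z 2)]
  nlinarith

theorem point_core (s l : Finset ℕ) (u : ℕ → ℝ) (hs : ∀ p ∈ s, 0 ≤ u p)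
    (hl : ∀ p ∈ l, 339 / 1000 ≤ u p ∧ u p ≤ 1001 / 1000) {e c b : ℝ} (he0 : 0 ≤ e)
    (he : e ≤ 1) (hsum : ∑ p ∈ s, u p + ∑ p ∈ l, u p ≤ 1 + e) (hc : c ≤ 8) (hb0 : 0 ≤ b)
    (hb : 1 ≤ b ∨ (c ≤ s.card + l.card ∧ 1 ≤ ∑ p ∈ s, u p + ∑ p ∈ l, u p)) (Z : Fin 3 → ℝ) :
    c * (∑ X, Z X) ^ 2 ≤ ∑ X, ∑ Y, ((1 + Lam X Y) + ∑ p ∈ s, (1 - (1 + Lam X Y) * u p) +
      ∑ p ∈ l, u p * om X Y (1 - u p)) * (Z X * Z Y) + 40 * (b + e) * ∑ X, Z X ^ 2 := by
  set S := (∑ X, Z X) ^ 2 with hS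
  set F := ∑ X, ∑ Y, Lam X Y * (Z X * Z Y) with hF
  set N := ∑ X, Z X ^ 2 with hN
  set a := ∑ p ∈ s, u p
  set a' := ∑ p ∈ l, u p with ha'
  have hSS : ∑ X, ∑ Y, Z X * Z Y = S := by rw [hS, sq, sum_mul_sum]
  have h1 : (l.card - a') * S ≤ ∑ X, ∑ Y, (∑ p ∈ l, u p * om X Y (1 - u p)) * (Z X * Z Y) +
      a' * F := by
    have := sum_le_sum fun p hp => slack (hl p hp).1 (hl p hp).2 Z
    rw [← sum_mul, sum_sub_distrib, sum_const, nsmul_eq_mul, mul_one, sum_comm] at this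
    refine this.trans (le_of_eq ?_)
    rw [hF, mul_sum, ← sum_add_distrib]
    refine sum_congr rfl fun X _ => ?_
    rw [sum_comm, mul_sum, ← sum_add_distrib]
    refine sum_congr rfl fun Y _ => ?_
    rw [← sum_mul, sum_add_distrib, ← sum_mul l u]; ring
  have h2 : ∑ X, ∑ Y, ((1 + Lam X Y) + ∑ p ∈ s, (1 - (1 + Lam X Y) * u p) +
      ∑ p ∈ l, u p * om X Y (1 - u p)) * (Z X * Z Y) = (1 + s.card - a) * S + (1 - a) * F +
      ∑ X, ∑ Y, (∑ p ∈ l, u p * om X Y (1 - u p)) * (Z X * Z Y) := by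
    rw [← hSS, hF, mul_sum, mul_sum, ← sum_add_distrib, ← sum_add_distrib]
    refine sum_congr rfl fun X _ => ?_
    rw [mul_sum, mul_sum, ← sum_add_distrib, ← sum_add_distrib]
    refine sum_congr rfl fun Y _ => ?_
    rw [sum_sub_distrib, sum_const, nsmul_eq_mul, ← mul_sum]; ring
  have h3 : 0 ≤ S := sq_nonneg _
  have h4 : S ≤ 3 * N := by
    simp only [hS, hN, Fin.sum_univ_three]
    nlinarith [sq_nonneg (Z 0 - Z 1), sq_nonneg (Z 0 - Z 2), sq_nonneg (Z 1 - Z 2)]
  have h5 : -(5 * N) ≤ F ∧ F ≤ 5 * N := by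
    simp only [hF, hN, Fin.sum_univ_three, Lam, Matrix.cons_val_zero, Matrix.cons_val_one,
      Matrix.cons_val]
    constructor <;> nlinarith [sq_nonneg (Z 0), sq_nonneg (Z 1 - Z 2), sq_nonneg (Z 1 + Z 2),
      sq_nonneg (Z 1), sq_nonneg (Z 2)]
  have h6 : 0 ≤ a := sum_nonneg hs
  have h7 : 0 ≤ a' := sum_nonneg fun p hp => by linarith [(hl p hp).1]
  have hN0 : 0 ≤ N := by linarith
  have h8 : (0 : ℝ) ≤ s.card + l.card := by positivity
  rw [h2]
  rcases hb with hb | ⟨hb, hb'⟩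
  · have h9 : -(5 * N) ≤ (1 - a - a') * F := by
      have := abs_le.1 (show |(1 - a - a') * F| ≤ 1 * (5 * N) by
        rw [abs_mul]
        exact mul_le_mul (abs_le.2 ⟨by linarith, by linarith⟩) (abs_le.2 h5) (abs_nonneg _)
          zero_le_one)
      linarith [this.1]
    nlinarith [mul_nonneg h8 h3, mul_le_mul_of_nonneg_right hc h3,
      mul_le_mul_of_nonneg_right (show -e ≤ 1 - a - a' by linarith) h3,
      mul_le_mul_of_nonneg_left h4 he0, mul_le_mul_of_nonneg_right hb hN0, mul_nonneg he0 hN0]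
  · have h9 : -(e * (5 * N)) ≤ (1 - a - a') * F := by
      have := abs_le.1 (show |(1 - a - a') * F| ≤ e * (5 * N) by
        rw [abs_mul]
        exact mul_le_mul (abs_le.2 ⟨by linarith, by linarith⟩) (abs_le.2 h5) (abs_nonneg _) he0)
      linarith [this.1]
    nlinarith [mul_le_mul_of_nonneg_right hb h3,
      mul_le_mul_of_nonneg_right (show -e ≤ 1 - a - a' by linarith) h3,
      mul_le_mul_of_nonneg_left h4 he0, mul_nonneg hb0 hN0, mul_nonneg he0 hN0]

/-- The properties of the large-prime weights that are used. -/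
structure Good (ω : ℝ → ℝ) : Prop where
  zero : ω 0 = 0
  lip : ∀ a b, -1 ≤ a → a ≤ 662 / 1000 → -1 ≤ b → b ≤ 662 / 1000 → |ω a - ω b| ≤ 20 * |a - b|
  nonneg : ∀ a, 0 ≤ a → a ≤ 662 / 1000 → 0 ≤ ω a

theorem good_o1 : Good o1 := by
  refine ⟨by simp [o1], fun a b _ ha _ hb => ?_, fun a h0 ha => div_nonneg h0 (by linarith)⟩
  have h1 : 0 < 1 - a := by linarith
  have h2 : 0 < 1 - b := by linarith
  rw [show o1 a - o1 b = ((1 - a) * (1 - b))⁻¹ * (a - b) by unfold o1; field_simp; ring, abs_mul,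
    abs_of_pos (by positivity)]
  gcongr
  rw [inv_le_comm₀ (by positivity) (by norm_num)]
  nlinarith

theorem good_o2 : Good o2 := by
  refine ⟨by simp [o2], fun a b ha' ha hb' hb => ?_,
    fun a h0 ha => div_nonneg (by positivity) (by linarith)⟩
  have h1 : 0 < 1 - a := by linarith
  have h2 : 0 < 1 - b := by linarith
  rw [show o2 a - o2 b = 189 / 100 * (((1 - a) * (1 - b))⁻¹ - 1) * (a - b) by
    unfold o2; field_simp; ring, abs_mul]
  gcongr
  have h3 : ((1 - a) * (1 - b))⁻¹ ≤ 9 := by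
    rw [inv_le_comm₀ (by positivity) (by norm_num)]; nlinarith
  have h4 : 0 < ((1 - a) * (1 - b))⁻¹ := by positivity
  rw [abs_le]; constructor <;> linarith

theorem good_om (X Y : Fin 3) : Good (om X Y) := by
  have h0 : Good fun _ => 0 := ⟨rfl, fun a b _ _ _ _ => by simp, fun _ _ _ => le_rfl⟩
  fin_cases X <;> fin_cases Y <;> first | exact good_o1 | exact good_o2 | exact h0

theorem Good.abs_le {ω : ℝ → ℝ} (h : Good ω) {a : ℝ} (h1 : -1 ≤ a) (h2 : a ≤ 662 / 1000) :
    |ω a| ≤ 20 * |a| := by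
  simpa [h.zero] using h.lip a 0 h1 h2 (by norm_num) (by norm_num)

theorem Good.cont {ω : ℝ → ℝ} (h : Good ω) : ContinuousOn ω (Set.Icc 0 (662 / 1000)) := by
  refine LipschitzOnWith.continuousOn (K := 20) (LipschitzOnWith.of_dist_le_mul fun a ha b hb => ?_)
  simpa [Real.dist_eq] using h.lip a b (by linarith [ha.1]) ha.2 (by linarith [hb.1]) hb.2

theorem Lam_bd (X Y : Fin 3) : 0 ≤ Lam X Y ∧ Lam X Y ≤ 4 := by
  fin_cases X <;> fin_cases Y <;> simp [Lam] <;> norm_num

/-- From layers to cells. -/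
theorem sum_layers (K : Finset ℕ) (lay : ℕ → Fin 3) (z : ℕ → ℝ) (M : Fin 3 → Fin 3 → ℝ) :
    ∑ X, ∑ Y, M X Y * ((∑ k ∈ K with lay k = X, z k) * ∑ k ∈ K with lay k = Y, z k) =
      ∑ k ∈ K, ∑ k' ∈ K, M (lay k) (lay k') * (z k * z k') := by
  rw [← sum_fiberwise K lay (fun k => ∑ k' ∈ K, M (lay k) (lay k') * (z k * z k'))]
  refine sum_congr rfl fun X _ => ?_
  simp only [sum_mul_sum]
  simp only [mul_sum]
  rw [sum_comm]
  refine sum_congr rfl fun k hk => ?_
  rw [← sum_fiberwise K lay (fun k' => M (lay k) (lay k') * (z k * z k'))]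
  refine sum_congr rfl fun Y _ => sum_congr rfl fun k' hk' => ?_
  rw [(mem_filter.1 hk).2, (mem_filter.1 hk').2]

theorem sum_layers_sq (K : Finset ℕ) (lay : ℕ → Fin 3) (z : ℕ → ℝ) :
    ∑ X, (∑ k ∈ K with lay k = X, z k) ^ 2 ≤ K.card * ∑ k ∈ K, z k ^ 2 := by
  rw [← sum_fiberwise K lay (fun k => z k ^ 2), mul_sum]
  refine sum_le_sum fun X _ => sq_sum_le_card_mul_sum_sq.trans ?_
  gcongr
  exact filter_subset _ _

end Pool.Agent.Lib.MP_fc51f7_nt
end

-- part Pool.Agent.Lib.MP_fc51f7_nt.Num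
section

/-! The numerical inequality for the four-form sieve: polynomial majorants of the costs. -/

set_option autoImplicit false

namespace Pool.Agent.Lib.MP_fc51f7_nt

open Finset Filter Topology MeasureTheory intervalIntegral

namespace Nm4

/-- Horner evaluation of a list of coefficients. -/
def pv : List ℝ → ℝ → ℝ
  | [], _ => 0
  | c :: l, x => c + x * pv l x

noncomputable def anti : ℕ → List ℝ → List ℝ
  | _, [] => []
  | k, c :: l => c / (k + 1) :: anti (k + 1) l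

theorem continuous_pv (l : List ℝ) : Continuous (pv l) := by
  induction l with
  | nil => exact continuous_const
  | cons c l ih => exact continuous_const.add (continuous_id.mul ih)

theorem hasDerivAt_anti (l : List ℝ) (k : ℕ) (x : ℝ) :
    HasDerivAt (fun x => x ^ (k + 1) * pv (anti k l) x) (x ^ k * pv l x) x := by
  induction l generalizing k with
  | nil => simpa [pv, anti] using hasDerivAt_const x (0 : ℝ)
  | cons c l ih =>
    have h1 : (fun x : ℝ => x ^ (k + 1) * pv (anti k (c :: l)) x) =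
        fun x => c / (k + 1) * x ^ (k + 1) + x ^ (k + 1 + 1) * pv (anti (k + 1) l) x := by
      funext x; simp only [pv, anti]; ring
    rw [h1]
    refine (((hasDerivAt_pow (k + 1) x).const_mul (c / (k + 1))).add (ih (k + 1))).congr_deriv ?_
    simp only [pv, Nat.add_sub_cancel]
    push_cast
    field_simp
    ring

theorem int_pv (l : List ℝ) {f : ℝ → ℝ} {a b : ℝ} (h : ∀ x ∈ Set.uIcc a b, f x = pv l x) :
    ∫ x in a..b, f x = b * pv (anti 0 l) b - a * pv (anti 0 l) a := by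
  rw [integral_congr h]
  simpa using integral_eq_sub_of_hasDerivAt (fun x _ => hasDerivAt_anti l 0 x)
    (by simpa using (continuous_pv l).intervalIntegrable a b)

noncomputable def Nn (z : ℝ) : ℝ := z ^ 3 / 3 + 3 * z ^ 4 + 36 / 5 * z ^ 5

theorem Nn_nonneg {z : ℝ} (h : 0 ≤ z) : 0 ≤ Nn z := by unfold Nn; positivity

theorem Pz_neg {z : ℝ} (h : z ≤ 0) : Pz z = 0 := by
  rw [Pz, max_eq_right ((min_le_left _ _).trans h)]; ring

theorem Pz_pos {z : ℝ} (h : 0 ≤ z) (h' : z ≤ 1 / 3) : Pz z = z + 6 * z ^ 2 := by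
  rw [Pz, min_eq_left h', max_eq_left h]

@[fun_prop] theorem continuous_Pz : Continuous Pz := by unfold Pz; fun_prop

variable {L u v η a : ℝ}

theorem HH_low (hL : L ≤ 1 / 3) (h : 0 ≤ v) (h' : v ≤ L) : HH L v = Nn L - Nn (L - v) := by
  rw [HH, int_pv [L ^ 2 + 12 * L ^ 3 + 36 * L ^ 4, -2 * L - 36 * L ^ 2 - 144 * L ^ 3,
    1 + 36 * L + 216 * L ^ 2, -12 - 144 * L, 36] fun x hx => ?_]
  · simp only [pv, anti, Nn]; push_cast; ring
  · rw [Set.uIcc_of_le h] at hx
    rw [fL, Pz_pos (by linarith [hx.2]) (by linarith [hx.1])]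
    simp only [pv]; ring

theorem HH_sub (L a b : ℝ) : ∫ t in a..b, fL L t ^ 2 = HH L b - HH L a :=
  (integral_interval_sub_left (Continuous.intervalIntegrable (by unfold fL; fun_prop) _ _)
    (Continuous.intervalIntegrable (by unfold fL; fun_prop) _ _)).symm

theorem HH_high (h0 : 0 ≤ L) (hL : L ≤ 1 / 3) (h : L ≤ v) : HH L v = Nn L := by
  have h1 : ∫ t in L..v, fL L t ^ 2 = 0 := by
    rw [integral_congr (g := fun _ => 0) fun x hx => ?_]
    · simp
    · rw [Set.uIcc_of_le h] at hx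
      simp [fL, Pz_neg (sub_nonpos.2 hx.1)]
  rw [HH_sub, HH_low hL h0 le_rfl] at h1
  simp only [sub_self, Nn] at h1 ⊢
  linarith

theorem nn_eq (h0 : 0 ≤ L) (hL : L ≤ 1 / 3) : nn L = Nn L := HH_high h0 hL (by linarith)

theorem continuous_HH (L : ℝ) : Continuous (HH L) :=
  continuous_primitive (fun _ _ => Continuous.intervalIntegrable (by unfold fL; fun_prop) _ _) 0

theorem continuous_DD (L : ℝ) : Continuous (DD L) :=
  continuous_parametric_intervalIntegral_of_continuous' (by unfold fL; fun_prop) 0 1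

noncomputable def D1 (L u : ℝ) : ℝ :=
  u * ((1 + 6 * u) ^ 2 * (L - u) + 12 * (1 + 6 * u) * (L - u) ^ 2 + 48 * (L - u) ^ 3) +
    (u ^ 2 / 3 + 3 * u ^ 3 + 36 / 5 * u ^ 4)

theorem DD_high (h0 : 0 ≤ L) (hL : L ≤ 1 / 3) (h : L ≤ u) : DD L u = Nn L := by
  rw [← nn_eq h0 hL]
  refine integral_congr fun x hx => ?_
  rw [Set.uIcc_of_le zero_le_one] at hx
  simp [fL, Pz_neg (show L - (x + u) ≤ 0 by linarith [hx.1])]

theorem DD_low (hL : L ≤ 1 / 3) (h : 0 ≤ u) (h' : u ≤ L) : DD L u = u * D1 L u := by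
  have h1 : ∫ t in (L - u)..1, (fL L t - fL L (t + u)) ^ 2 = Nn u := by
    rw [integral_congr (g := fun t => fL L t ^ 2) fun x hx => ?_, HH_sub,
      HH_high (h.trans h') hL (by linarith), HH_low hL (by linarith) (by linarith)]
    · simp
    · rw [Set.uIcc_of_le (by linarith)] at hx
      simp [fL, Pz_neg (show L - (x + u) ≤ 0 by linarith [hx.1])]
  rw [DD, ← integral_add_adjacent_intervals (b := L - u)
    (Continuous.intervalIntegrable (by unfold fL; fun_prop) _ _)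
    (Continuous.intervalIntegrable (by unfold fL; fun_prop) _ _), h1,
    int_pv [u ^ 2 * (1 + 12 * L - 6 * u) ^ 2, -24 * u ^ 2 * (1 + 12 * L - 6 * u), 144 * u ^ 2]
      fun x hx => ?_]
  · simp only [pv, anti, Nn, D1]; push_cast; ring
  · rw [Set.uIcc_of_le (by linarith)] at hx
    rw [fL, fL, Pz_pos (by linarith [hx.2]) (by linarith [hx.1]),
      Pz_pos (by linarith [hx.2]) (by linarith [hx.1])]
    simp only [pv]; ring

noncomputable def G2 (a L u : ℝ) : ℝ :=
  (L ^ 2 / 3 + 3 * L ^ 3 + 36 / 5 * L ^ 4) * (L / (339 / 1000) *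
    (1 + (1 - u / (339 / 1000)) + (1 - u / (339 / 1000)) ^ 2) + (1 - u / (339 / 1000)) ^ 3) -
    a * Nn L

noncomputable def I1 (L : ℝ) : ℝ := (5 / 18) * L ^ 3 + (11 / 4) * L ^ 4 + (201 / 25) * L ^ 5

noncomputable def I2 (L : ℝ) : ℝ := (1 / 6) * L ^ 4 + (8 / 5) * L ^ 5 + (22 / 5) * L ^ 6

noncomputable def I3 (L : ℝ) : ℝ := (113 / 4000) * L ^ 2 + (19153 / 36000) * L ^ 3 + (2771789 / 1695000) * L ^ 4 + (-2007922
      / 344763) * L ^ 5 + (-6843821200 / 350623971) * L ^ 6 + (970400000 / 38958219) * L ^ 7 +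
      (-200000000 / 12986073) * L ^ 8

theorem int_G1 (a L : ℝ) : ∫ u in (0 : ℝ)..L, (1 - a * u) * D1 L u = I1 L - a * I2 L := by
  rw [int_pv [0, (1 * L + 12 * L ^ 2 + 48 * L ^ 3) - a * (0), ((-2 / 3) + (-12) * L + (-72) * L ^ 2)
      - a * (1 * L + 12 * L ^ 2 + 48 * L ^ 3), (3 + 36 * L) - a * ((-2 / 3) + (-12) * L +
      (-72) * L ^ 2), ((-24 / 5)) - a * (3 + 36 * L), - a * ((-24 / 5))]
    fun x _ => by simp only [pv, D1]; ring]
  simp only [pv, anti, I1, I2]; push_cast; ring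

theorem int_G2 (a L : ℝ) :
    ∫ u in L..(339 / 1000), G2 a L u = I3 L - a * (339 / 1000 - L) * Nn L := by
  rw [int_pv [(1 / 3) * L ^ 2 + (2017 / 339) * L ^ 3 + (19068 / 565) * L ^ 4 + (7200 / 113) * L ^ 5 -
      a * Nn L, (-1000 / 339) * L ^ 2 + (-4051000 / 114921) * L ^ 3 + (-1813600 / 12769) * L ^
      4 + (-2400000 / 12769) * L ^ 5, (1000000 / 114921) * L ^ 2 + (10153000000 / 116874657) *
      L ^ 3 + (3440800000 / 12986073) * L ^ 4 + (800000000 / 4328691) * L ^ 5, (-1000000000 /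
      116874657) * L ^ 2 + (-1000000000 / 12986073) * L ^ 3 + (-800000000 / 4328691) * L ^ 4]
    fun x _ => by simp only [pv, G2]; ring]
  simp only [pv, anti, I3]; push_cast; ring

theorem le_G2 (h0 : 0 ≤ L) (h : L ≤ u) (hu : 0 < u) (hu' : u ≤ 339 / 1000) :
    (1 - a * u) * Nn L / u ≤ G2 a L u := by
  have hy : 0 ≤ 1 - u / (339 / 1000) := by rw [sub_nonneg, div_le_one (by norm_num)]; exact hu'
  have h1 : G2 a L u - (1 - a * u) * Nn L / u = (L ^ 2 / 3 + 3 * L ^ 3 + 36 / 5 * L ^ 4) *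
      (1 - u / (339 / 1000)) ^ 3 * ((u - L) / u) := by
    simp only [G2, Nn]; field_simp; ring
  have h2 : 0 ≤ u - L := sub_nonneg.2 h
  rw [← sub_nonneg, h1]
  positivity

theorem mid_le (h0 : 0 ≤ L) (hL : L ≤ 33 / 100) (hη : 0 < η) (hη' : η ≤ 1 / 10) (ha : a ≤ 10) :
    ∫ u in η..(339 / 1000), (1 - a * u) * DD L u / u ≤
      I1 L - a * I2 L + (I3 L - a * (339 / 1000 - L) * Nn L) := by
  have hL' : L ≤ 1 / 3 := by linarith
  have hD := continuous_DD L
  have hg : ∀ s t : ℝ, 0 < s → s ≤ t →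
      IntervalIntegrable (fun u => (1 - a * u) * DD L u / u) volume s t := fun s t hs hst =>
    ContinuousOn.intervalIntegrable_of_Icc hst (ContinuousOn.div (by fun_prop) continuousOn_id
      fun x hx => (hs.trans_le hx.1).ne')
  have h1 : ∀ s t : ℝ, IntervalIntegrable (fun u => (1 - a * u) * D1 L u) volume s t :=
    fun s t => Continuous.intervalIntegrable (by unfold D1; fun_prop) _ _
  have h2 : ∀ s t : ℝ, IntervalIntegrable (G2 a L) volume s t :=
    fun s t => Continuous.intervalIntegrable (by unfold G2; fun_prop) _ _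
  have h3 : ∀ s, 0 ≤ s → s ≤ L → s ≤ η → 0 ≤ ∫ u in (0 : ℝ)..s, (1 - a * u) * D1 L u :=
    fun s h3 h4 h5 => integral_nonneg h3 fun x hx => by
      have h6 : 0 ≤ L - x := by linarith [hx.2]
      have h7 := hx.1
      have h8 : 0 ≤ 1 - a * x := by nlinarith [hx.2]
      unfold D1; positivity
  have h4 : ∀ s, 0 < s → L ≤ s → s ≤ 339 / 1000 →
      ∫ u in s..(339 / 1000), (1 - a * u) * DD L u / u ≤ ∫ u in s..(339 / 1000), G2 a L u :=
    fun s h4 h5 h6 => integral_mono_on h6 (hg _ _ h4 h6) (h2 _ _) fun x hx => by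
      rw [DD_high h0 hL' (h5.trans hx.1)]
      exact le_G2 h0 (h5.trans hx.1) (h4.trans_le hx.1) hx.2
  rw [← int_G1, ← int_G2]
  rcases le_total η L with h | h
  · rw [← integral_add_adjacent_intervals (hg _ _ hη h) (hg _ _ (hη.trans_le h) (by linarith)),
      ← integral_add_adjacent_intervals (h1 0 η) (h1 η L),
      integral_congr (g := fun u => (1 - a * u) * D1 L u) fun x hx => ?_]
    · linarith [h3 η hη.le h le_rfl, h4 L (hη.trans_le h) le_rfl (by linarith)]
    · rw [Set.uIcc_of_le h] at hx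
      have h5 := hη.trans_le hx.1
      simp only
      rw [DD_low hL' h5.le hx.2]
      field_simp
  · rw [← integral_add_adjacent_intervals (h2 L η) (h2 η _)]
    have h5 : 0 ≤ ∫ u in L..η, G2 a L u := integral_nonneg h fun x hx => by
      rcases (h0.trans hx.1).eq_or_lt with h5 | h5
      · obtain rfl : L = 0 := by linarith [hx.1]
        simp [G2, Nn]
      · refine le_trans ?_ (le_G2 h0 hx.1 h5 (by linarith [hx.2]))
        have h8 : 0 ≤ 1 - a * x := by nlinarith [hx.2]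
        have := Nn_nonneg h0
        positivity
    linarith [h3 L h0 le_rfl h, h4 η hη h (by linarith)]

theorem last_le (h0 : 0 ≤ L) (hL : L ≤ 33 / 100) {ω ω₁ ω₂ : ℝ → ℝ}
    (hω : ContinuousOn ω (Set.Icc 0 (662 / 1000))) (h1 : Continuous ω₁) (h2 : Continuous ω₂)
    (h3 : ∀ v ∈ Set.Icc (0 : ℝ) (662 / 1000), ω₁ v ≤ ω v ∧ ω v ≤ ω₂ v) {W : ℝ}
    (hW : ∫ v in (0 : ℝ)..(662 / 1000), ω₂ v ≤ W) :
    ∫ v in (0 : ℝ)..(662 / 1000), ω v * HH L v ≤
      W * Nn L - ∫ v in (0 : ℝ)..L, ω₁ v * Nn (L - v) := by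
  have hL' : L ≤ 1 / 3 := by linarith
  have hH := continuous_HH L
  have hN := Nn_nonneg h0
  have hg : ∀ s t : ℝ, 0 ≤ s → s ≤ t → t ≤ 662 / 1000 →
      IntervalIntegrable (fun v => ω v * HH L v) volume s t := fun s t h4 h5 h6 =>
    ContinuousOn.intervalIntegrable_of_Icc h5
      ((hω.mono (Set.Icc_subset_Icc h4 h6)).mul hH.continuousOn)
  have h4 : ∀ s t : ℝ, IntervalIntegrable (fun v => ω₂ v * Nn L) volume s t :=
    fun s t => Continuous.intervalIntegrable (by fun_prop) _ _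
  have h5 : IntervalIntegrable (fun v => ω₁ v * Nn (L - v)) volume 0 L :=
    Continuous.intervalIntegrable (by unfold Nn; fun_prop) _ _
  have h6 : ∫ v in (0 : ℝ)..L, ω v * HH L v ≤ ∫ v in (0 : ℝ)..L, ω₂ v * Nn L - ω₁ v * Nn (L - v) :=
    integral_mono_on h0 (hg _ _ le_rfl h0 (by linarith)) ((h4 _ _).sub h5) fun x hx => by
      have h7 := h3 x ⟨hx.1, by linarith [hx.2]⟩
      rw [HH_low hL' hx.1 hx.2, mul_sub]
      exact sub_le_sub (mul_le_mul_of_nonneg_right h7.2 hN)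
        (mul_le_mul_of_nonneg_right h7.1 (Nn_nonneg (sub_nonneg.2 hx.2)))
  have h7 : ∫ v in L..(662 / 1000), ω v * HH L v ≤ ∫ v in L..(662 / 1000), ω₂ v * Nn L :=
    integral_mono_on (by linarith) (hg _ _ h0 (by linarith) le_rfl) (h4 _ _) fun x hx => by
      rw [HH_high h0 hL' hx.1]
      exact mul_le_mul_of_nonneg_right (h3 x ⟨h0.trans hx.1, hx.2⟩).2 hN
  have h8 := integral_add_adjacent_intervals (h4 0 L) (h4 L (662 / 1000))
  rw [integral_sub (h4 _ _) h5] at h6
  rw [integral_mul_const (f := ω₂) (a := 0) (b := 662 / 1000)] at h8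
  rw [← integral_add_adjacent_intervals (hg _ _ le_rfl h0 (by linarith))
    (hg _ _ h0 (by linarith) le_rfl)]
  linarith [mul_le_mul_of_nonneg_right hW hN]

theorem inv_bounds (h : v ∈ Set.Icc (0 : ℝ) (662 / 1000)) :
    1 + v + v ^ 2 ≤ (1 - v)⁻¹ ∧ (1 - v)⁻¹ ≤
      1 + v + v ^ 2 + v ^ 3 + v ^ 4 + v ^ 5 + v ^ 6 + v ^ 7 + 500 / 169 * v ^ 8 := by
  have h0 := h.1
  have h1 : 0 < 1 - v := by linarith [h.2]
  have h2 : (1 - v)⁻¹ = 1 + v + v ^ 2 + v ^ 3 * (1 - v)⁻¹ := by field_simp; ring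
  have h3 : (1 - v)⁻¹ =
      1 + v + v ^ 2 + v ^ 3 + v ^ 4 + v ^ 5 + v ^ 6 + v ^ 7 + (1 - v)⁻¹ * v ^ 8 := by
    field_simp; ring
  have h4 : (1 - v)⁻¹ ≤ 500 / 169 := by
    rw [inv_le_comm₀ h1 (by norm_num)]; linarith [h.2]
  refine ⟨?_, h3.trans_le (by gcongr)⟩
  rw [h2]
  exact le_add_of_nonneg_right (by positivity)

noncomputable def JA (L : ℝ) : ℝ := (1 / 60) * L ^ 5 + (19 / 180) * L ^ 6 + (17 / 84) * L ^ 7 + (3 / 56) * L ^ 8 + (1 / 70)
      * L ^ 9

noncomputable def JB (L : ℝ) : ℝ := (21 / 2000) * L ^ 6 + (117 / 2000) * L ^ 7 + (81 / 800) * L ^ 8 + (27 / 1000) * L ^ 9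

noncomputable def qq (a W : ℝ) (J : ℝ → ℝ) (L : ℝ) : ℝ :=
  a * Nn L + (I1 L - a * I2 L + (I3 L - a * (339 / 1000 - L) * Nn L)) + (W * Nn L - J L)

theorem lastA (h0 : 0 ≤ L) (hL : L ≤ 33 / 100) :
    ∫ v in (0 : ℝ)..(662 / 1000), v / (1 - v) * HH L v ≤ 424 / 1000 * Nn L - JA L := by
  refine (last_le h0 hL (ω := fun v => v / (1 - v)) (ω₁ := fun v => v + v ^ 2 + v ^ 3)
    (ω₂ := pv [0, 1, 1, 1, 1, 1, 1, 1, 1, 500 / 169]) (W := 424 / 1000)
    (ContinuousOn.div (by fun_prop) (by fun_prop) fun x hx => by linarith [hx.2]) (by fun_prop)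
    (continuous_pv _) (fun v hv => ?_) ?_).trans_eq ?_
  · obtain ⟨h1, h2⟩ := inv_bounds hv
    have h3 := mul_le_mul_of_nonneg_left h1 hv.1
    have h4 := mul_le_mul_of_nonneg_left h2 hv.1
    simp only [pv, div_eq_mul_inv v]
    exact ⟨by linarith, by linarith⟩
  · rw [int_pv _ fun _ _ => rfl]
    simp only [pv, anti]; norm_num
  · rw [int_pv [0, (1 / 3) * L ^ 3 + 3 * L ^ 4 + (36 / 5) * L ^ 5, (-1) * L ^ 2 + (-35 / 3) * L ^ 3 +
      (-33) * L ^ 4 + (36 / 5) * L ^ 5, 1 * L + 17 * L ^ 2 + (181 / 3) * L ^ 3 + (-33) * L ^ 4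
      + (36 / 5) * L ^ 5, (-1 / 3) + (-11) * L + (-55) * L ^ 2 + 60 * L ^ 3 + (-36) * L ^ 4,
      (8 / 3) + 25 * L + (-54) * L ^ 2 + 72 * L ^ 3, (-68 / 15) + 24 * L + (-72) * L ^ 2, (-21
      / 5) + 36 * L, (-36 / 5)]
      fun x _ => by simp only [pv, Nn]; ring]
    simp only [pv, anti, JA]; push_cast; ring

theorem lastB (h0 : 0 ≤ L) (hL : L ≤ 33 / 100) :
    ∫ v in (0 : ℝ)..(662 / 1000), 189 / 100 * v ^ 2 / (1 - v) * HH L v ≤
      386 / 1000 * Nn L - JB L := by
  refine (last_le h0 hL (ω := fun v => 189 / 100 * v ^ 2 / (1 - v))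
    (ω₁ := fun v => 189 / 100 * (v ^ 2 + v ^ 3))
    (ω₂ := pv [0, 0, 189 / 100, 189 / 100, 189 / 100, 189 / 100, 189 / 100, 189 / 100, 189 / 100, 189 / 100, 189 / 100 * (500 / 169)])
    (W := 386 / 1000)
    (ContinuousOn.div (by fun_prop) (by fun_prop) fun x hx => by linarith [hx.2]) (by fun_prop)
    (continuous_pv _) (fun v hv => ?_) ?_).trans_eq ?_
  · obtain ⟨h1, h2⟩ := inv_bounds hv
    have h5 : 0 ≤ 189 / 100 * v ^ 2 := by positivity
    have h3 := mul_le_mul_of_nonneg_left h1 h5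
    have h4 := mul_le_mul_of_nonneg_left h2 h5
    have h6 : 0 ≤ v ^ 4 := by positivity
    simp only [pv, div_eq_mul_inv (189 / 100 * v ^ 2)]
    exact ⟨by linarith, by linarith⟩
  · rw [int_pv _ fun _ _ => rfl]
    simp only [pv, anti]; norm_num
  · rw [int_pv [0, 0, (63 / 100) * L ^ 3 + (567 / 100) * L ^ 4 + (1701 / 125) * L ^ 5, (-189 / 100) * L
      ^ 2 + (-441 / 20) * L ^ 3 + (-6237 / 100) * L ^ 4 + (1701 / 125) * L ^ 5, (189 / 100) *
      L + (3213 / 100) * L ^ 2 + (567 / 5) * L ^ 3 + (-1701 / 25) * L ^ 4, (-63 / 100) +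
      (-2079 / 100) * L + (-5103 / 50) * L ^ 2 + (3402 / 25) * L ^ 3, (126 / 25) + (1134 / 25)
      * L + (-3402 / 25) * L ^ 2, (-3969 / 500) + (1701 / 25) * L, (-1701 / 125)]
      fun x _ => by simp only [pv, Nn]; ring]
    simp only [pv, anti, JB]; push_cast; ring

end Nm4

open Nm4

theorem numerics : ∃ qA qB qC : ℝ → ℝ, Continuous qA ∧ Continuous qB ∧ Continuous qC ∧
    (∀ L ∈ Set.Icc (0 : ℝ) (33 / 100), ∀ η ∈ Set.Ioc (0 : ℝ) (1 / 10),
      cost η 0 (fun v => v / (1 - v)) L ≤ qA L ∧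
      cost η (23 / 100) (fun v => 189 / 100 * v ^ 2 / (1 - v)) L ≤ qB L ∧
      cost η 4 (fun _ => 0) L ≤ qC L) ∧
    4 * ((∫ σ in (0 : ℝ)..(169 / 1000), qA (33 / 100 - σ) * (σ ^ 2 / 2)) +
      (∫ σ in (169 / 1000 : ℝ)..(249 / 1000), qB (33 / 100 - σ) * (σ ^ 2 / 2)) +
      ∫ σ in (249 / 1000 : ℝ)..(33 / 100), qC (33 / 100 - σ) * (σ ^ 2 / 2)) <
    11 * ∫ s in (0 : ℝ)..1, Pz (33 / 100 - s) ^ 2 * (s ^ 3 / 6) := by
  refine ⟨Nm4.qq (1 + 0) (424 / 1000) JA, Nm4.qq (1 + 23 / 100) (386 / 1000) JB,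
    Nm4.qq (1 + 4) 0 fun _ => 0, by unfold Nm4.qq Nn I1 I2 I3 JA; fun_prop,
    by unfold Nm4.qq Nn I1 I2 I3 JB; fun_prop, by unfold Nm4.qq Nn I1 I2 I3; fun_prop,
    fun L hL η hη => ?_, ?_⟩
  · have h1 := nn_eq hL.1 (by linarith [hL.2])
    simp only [cost, Nm4.qq, h1]
    exact ⟨add_le_add (add_le_add le_rfl (mid_le hL.1 hL.2 hη.1 hη.2 (by norm_num)))
      (lastA hL.1 hL.2),
      add_le_add (add_le_add le_rfl (mid_le hL.1 hL.2 hη.1 hη.2 (by norm_num)))
      (lastB hL.1 hL.2),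
      add_le_add (add_le_add le_rfl (mid_le hL.1 hL.2 hη.1 hη.2 (by norm_num)))
      (by simp)⟩
  · have h1 : ∫ s in (33 / 100 : ℝ)..1, Pz (33 / 100 - s) ^ 2 * (s ^ 3 / 6) = 0 := by
      rw [integral_congr (g := fun _ => 0) fun x hx => ?_]
      · simp
      · rw [Set.uIcc_of_le (by norm_num)] at hx
        simp [Pz_neg (sub_nonpos.2 hx.1)]
    rw [← integral_add_adjacent_intervals (a := 0) (b := 33 / 100) (c := 1)
      (Continuous.intervalIntegrable (by fun_prop) _ _)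
      (Continuous.intervalIntegrable (by fun_prop) _ _), h1,
      int_pv [0, 0, (1067126748383383960805049 / 12625348750000000000000000),
      (-285090648122028551487201 / 288579400000000000000000), (2799179483371107495663 /
      631267437500000000000), (-202121675338420450763 / 21643455000000000000),
      (1411547166486555053 / 162325912500000000), (-22571018664181903 / 12986073000000000),
      (-189567185135183 / 54784995468750), (110105815680919 / 13635376650000), (-12577916438 /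
      1623259125), (1 / 140)]
        fun x _ => by simp only [pv, Nm4.qq, Nn, I1, I2, I3, JA]; ring,
      int_pv [0, 0, (16274935973080838548246323 / 180362125000000000000000000),
      (-30736083563734232840320989 / 28857940000000000000000000), (43795400260050589502901 /
      9018106250000000000000), (-22790059486288428044207 / 2164345500000000000000),
      (170667759935218305017 / 16232591250000000000), (-4099243701166719667 /
      1298607300000000000), (-16525200608000837 / 5478499546875000), (1576040865994813 /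
      194791095000000), (-632363103391 / 81162956250), (27 / 2000)]
        fun x _ => by simp only [pv, Nm4.qq, Nn, I1, I2, I3, JB]; ring,
      int_pv [0, 0, (1377090942982022829 / 7214485000000000000), (-17383683320445123 /
      7214485000000000), (174452245129641 / 14428970000000), (-131667458029549 /
      4328691000000), (2569066692557 / 64930365000), (-156007661147 / 6493036500), (886925197
      / 350623971), (306800000 / 38958219), (-100000000 / 12986073)]
        fun x _ => by simp only [pv, Nm4.qq, Nn, I1, I2, I3]; ring,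
      int_pv [0, 0, 0, (8058963 / 50000000), (-50809 / 31250), (45503 / 7500), (-248 / 25), 6]
        fun x hx => ?_]
    · simp only [pv, anti]; norm_num
    · rw [Set.uIcc_of_le (by norm_num)] at hx
      rw [Pz_pos (by linarith [hx.2]) (by linarith [hx.1])]
      simp only [pv]; ring

end Pool.Agent.Lib.MP_fc51f7_nt
end
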