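import Pool.Agent.Lib.MP_fc51f7_nt.Bad
import Pool.Agent.Lib.MP_fc51f7_nt.Num

-- part Pool.Agent.Lib.MP_fc51f7_nt.Net
section

/-! The upper bound for one form. -/

set_option autoImplicit false

namespace Pool.Agent.Lib.MP_fc51f7_nt

open Finset Filter Topology

/-- The sieve weight. -/
noncomputable def YY (D x : ℕ) (κ : Type) [Fintype κ] (T : κ → Finset (PP D x)) : ℝ :=
  fL (33 / 100) (lgs (qq D x) T / Real.log x)

def lay (J k : ℕ) : Fin 3 := if k < 169 * J then 0 else if k < 249 * J then 1 else 2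

noncomputable def dl (J : ℕ) : ℝ := 1 / (1000 * J)

theorem dl_pos {J : ℕ} (hJ : 0 < J) : 0 < dl J := by unfold dl; positivity

theorem dl_le {J n k : ℕ} (h : k < n * J) : (k + 1) * dl J ≤ n / 1000 := by
  have hJ : 0 < J := Nat.pos_of_ne_zero fun h' => by simp [h'] at h
  have : (k : ℝ) + 1 ≤ n * J := by exact_mod_cast h
  unfold dl
  rw [mul_one_div, div_le_div_iff₀ (by positivity) (by norm_num)]; nlinarith

theorem dl_mul {J : ℕ} (hJ : 0 < J) (n : ℕ) : ((n * J : ℕ) : ℝ) * dl J = n / 1000 := by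
  unfold dl; push_cast; field_simp

theorem dl_tendsto : Tendsto dl atTop (𝓝 0) :=
  tendsto_const_nhds.div_atTop (tendsto_natCast_atTop_atTop.const_mul_atTop (by norm_num))

theorem YY_supp {D x : ℕ} {κ : Type} [Fintype κ] (hl : 0 < Real.log x) {T : κ → Finset (PP D x)}
    (h : YY D x κ T ≠ 0) : lgs (qq D x) T ≤ 33 / 100 * Real.log x :=
  ((div_lt_iff₀ hl).1 (not_le.1 fun h' => h (fL_zero h'))).le

theorem cells_sum {D x J : ℕ} (hJ : 0 < J) (hl : 0 < Real.log x)
    (T : Option (Fin 3) → Finset (PP D x)) :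
    |YY D x _ T - ∑ k ∈ range (330 * J), tens (yk D x (dl J) k) (cell D x (dl J) k) T| ≤
      5 * dl J := by
  have hδ := dl_pos hJ
  set s := lgs (qq D x) (fun j => T (some j)) / Real.log x with hs
  have hs0 : 0 ≤ s / dl J := div_nonneg (div_nonneg (lgs_nonneg _ _) hl.le) hδ.le
  have h0 : 0 ≤ lg (qq D x) (T none) / Real.log x := div_nonneg (lg_nonneg _ _) hl.le
  have hc : ∀ k, cell D x (dl J) k (fun j => T (some j)) = if k = ⌊s / dl J⌋₊ then 1 else 0 :=
    fun k => if_congr (by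
      rw [eq_comm, Nat.floor_eq_iff hs0, le_div_iff₀ hδ, div_lt_iff₀ hδ]) rfl rfl
  have h1 := (le_div_iff₀ hδ).1 (Nat.floor_le hs0)
  have h2 := (div_lt_iff₀ hδ).1 (Nat.lt_floor_add_one (s / dl J))
  simp only [tens, hc, mul_ite, mul_one, mul_zero, sum_ite_eq', mem_range]
  rw [YY, lgs_option, add_div, ← hs]
  split_ifs with h
  · refine (Pz_lip _ _).trans ?_
    unfold Lk
    gcongr
    rw [abs_le]; constructor <;> linarith
  · have h3 : ((330 * J : ℕ) : ℝ) * dl J ≤ ⌊s / dl J⌋₊ * dl J := by gcongr; omega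
    rw [dl_mul hJ] at h3
    rw [fL_zero (by push_cast at h3; linarith)]
    simp only [sub_zero, abs_zero]; positivity

theorem nuu_tendsto (D : ℕ) {δ : ℝ} (hδ : 0 < δ) (k : ℕ) :
    Tendsto (fun x => nuu D x δ k k / BB D x ^ 3) atTop
      (𝓝 (∫ u in (k * δ)..((k + 1) * δ), u ^ 2 / 2)) := by
  have := (conv_nu_pow D (Fin 3) 2 (by simp)).Ico (a := k * δ) (b := (k + 1) * δ) (by positivity)
    (by nlinarith)
  simp only [Nat.factorial_two, Nat.cast_ofNat] at this
  refine this.congr fun x => ?_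
  rw [nuu, sum_div, sum_filter]
  refine sum_congr rfl fun T _ => ?_
  unfold cell
  split_ifs <;> simp

theorem riemann {q : ℝ → ℝ} (hq : Continuous q) {t : ℝ} (ht : 0 < t) : ∀ᶠ J : ℕ in atTop,
    ∀ k < 330 * J, ∀ c, 0 ≤ c →
      (q (Lk (dl J) k) + c) * ∫ u in (k * dl J)..((k + 1) * dl J), u ^ 2 / 2 ≤
      (∫ σ in (k * dl J)..((k + 1) * dl J), q (33 / 100 - σ) * (σ ^ 2 / 2)) + (t + c) * dl J := by
  obtain ⟨r, hr, h⟩ := Metric.uniformContinuousOn_iff_le.1
    ((isCompact_Icc (a := (0 : ℝ)) (b := 1)).uniformContinuousOn_of_continuous hq.continuousOn) t ht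
  filter_upwards [dl_tendsto.eventually_le_const hr, eventually_gt_atTop 0] with J h1 hJ k hk c hc
  have hδ := dl_pos hJ
  have h2 := dl_le hk
  have h3 : 0 ≤ k * dl J := by positivity
  push_cast at h2
  have e : (t + c) * dl J = ∫ _ in (k * dl J)..((k + 1) * dl J), (t + c) := by
    rw [intervalIntegral.integral_const, smul_eq_mul]; ring
  rw [e, ← intervalIntegral.integral_add (Continuous.intervalIntegrable (by fun_prop) _ _)
    (Continuous.intervalIntegrable (by fun_prop) _ _), ← intervalIntegral.integral_const_mul]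
  refine intervalIntegral.integral_mono_on (by nlinarith)
    (Continuous.intervalIntegrable (by fun_prop) _ _)
    (Continuous.intervalIntegrable (by fun_prop) _ _) fun σ hσ => ?_
  obtain ⟨a1, a2⟩ := hσ
  have a3 := h (Lk (dl J) k) (by unfold Lk; constructor <;> linarith) (33 / 100 - σ)
    (by constructor <;> linarith) (by
      rw [Real.dist_eq, abs_le]; unfold Lk; constructor <;> linarith)
  rw [Real.dist_eq, abs_le] at a3
  have a4 : σ ^ 2 / 2 ≤ 1 := by nlinarith
  nlinarith [mul_le_mul_of_nonneg_left a4 (show 0 ≤ t + c by linarith),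
    mul_le_mul_of_nonneg_right a3.2 (show 0 ≤ σ ^ 2 / 2 by positivity)]

/-- The limiting cost of one form. -/
noncomputable def QQ (q : Fin 3 → ℝ → ℝ) : ℝ :=
  (∫ σ in (0 : ℝ)..(169 / 1000), q 0 (33 / 100 - σ) * (σ ^ 2 / 2)) +
    (∫ σ in (169 / 1000 : ℝ)..(249 / 1000), q 1 (33 / 100 - σ) * (σ ^ 2 / 2)) +
    ∫ σ in (249 / 1000 : ℝ)..(33 / 100), q 2 (33 / 100 - σ) * (σ ^ 2 / 2)

theorem riemann_sum {q : Fin 3 → ℝ → ℝ} (hq : ∀ X, Continuous (q X)) {t : ℝ} (ht : 0 < t) :
    ∀ᶠ J : ℕ in atTop, ∀ c, 0 ≤ c → ∑ k ∈ range (330 * J), (q (lay J k) (Lk (dl J) k) + c) *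
      ∫ u in (k * dl J)..((k + 1) * dl J), u ^ 2 / 2 ≤ QQ q + (t + c) := by
  filter_upwards [eventually_all.2 fun X => riemann (hq X) ht, eventually_gt_atTop 0]
    with J h hJ c hc
  refine (sum_le_sum fun k hk => h (lay J k) k (mem_range.1 hk) c hc).trans ?_
  rw [sum_add_distrib, sum_const, card_range, nsmul_eq_mul, mul_left_comm, dl_mul hJ]
  refine add_le_add (le_of_eq ?_) (by push_cast; nlinarith)
  have key : ∀ (X : Fin 3) (a b : ℕ), a ≤ b → (∀ k ∈ Ico (a * J) (b * J), lay J k = X) →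
      ∑ k ∈ Ico (a * J) (b * J), (∫ σ in (k * dl J)..((k + 1) * dl J),
        q (lay J k) (33 / 100 - σ) * (σ ^ 2 / 2)) =
      ∫ σ in ((a : ℝ) / 1000)..((b : ℝ) / 1000), q X (33 / 100 - σ) * (σ ^ 2 / 2) := by
    intro X a b hab h
    rw [← dl_mul hJ, ← dl_mul hJ, ← intervalIntegral.sum_integral_adjacent_intervals_Ico
      (a := fun k : ℕ => (k : ℝ) * dl J) (Nat.mul_le_mul_right J hab) fun k _ =>
        Continuous.intervalIntegrable (by have := hq X; fun_prop) _ _]
    exact sum_congr rfl fun k hk => by rw [h k hk]; push_cast; rfl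
  rw [range_eq_Ico, ← sum_Ico_consecutive _ (Nat.zero_le (249 * J)) (by omega),
    ← sum_Ico_consecutive _ (Nat.zero_le (169 * J)) (by omega),
    show Ico 0 (169 * J) = Ico (0 * J) (169 * J) by rw [zero_mul],
    key 0 0 169 (by omega) fun k hk => if_pos (mem_Ico.1 hk).2,
    key 1 169 249 (by omega) fun k hk => by
      rw [lay, if_neg (not_lt.2 (mem_Ico.1 hk).1), if_pos (mem_Ico.1 hk).2],
    key 2 249 330 (by omega) fun k hk => by
      have := (mem_Ico.1 hk).1
      rw [lay, if_neg (by omega), if_neg (by omega)]]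
  unfold QQ
  norm_num

theorem lev {J k k' : ℕ} (hk : k < 330 * J) (hk' : k' < 330 * J) :
    om (lay J k) (lay J k') = (fun _ => 0) ∨ (k + 1) * dl J + (k' + 1) * dl J ≤ 499 / 1000 := by
  have h1 := dl_le hk
  have h2 := dl_le hk'
  push_cast at h1 h2
  by_cases a1 : k < 169 * J
  · have := dl_le a1; push_cast at this; right; linarith
  by_cases a2 : k' < 169 * J
  · have := dl_le a2; push_cast at this; right; linarith
  unfold lay
  rw [if_neg a1, if_neg a2]
  split_ifs with a3 a4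
  · have := dl_le a3; have := dl_le a4; push_cast at *; right; linarith
  all_goals left; rfl

theorem err_nonneg {η : ℝ} (hη : 0 ≤ η) (x m : ℕ) : 0 ≤ err η x m := by unfold err; positivity

section
variable {D : ℕ} (hD : 16 ≤ D) {g : Fin 3 → ℤ} (hg : Function.Injective g)
  (hg8 : ∀ j, g j ≠ 0 ∧ |g j| ≤ 8) {a : ℕ} {J : ℕ} (hJ : 0 < J)
include hD hg hg8 hJ

theorem net_err : ∀ᶠ x : ℕ in atTop, ∑ m ∈ Ioc x (2 * x) with m ≡ a [MOD primorial D],
    (SS (qq D x) (og g) (YY D x _) m - ∑ k ∈ range (330 * J), ZZ D x g (dl J) k m) ^ 2 ≤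
      x / primorial D * BB D x ^ 4 * (25 * dl J ^ 2 * (4 + eD D)) := by
  filter_upwards [TU hD (κ := Option (Fin 3)) (by simp) (og_inj hg hg8).1 (og_inj hg hg8).2
    (j0 := none) rfl a, Meas.L_pos, small_pow D (show (6605 / 10000 : ℝ) < 1 by norm_num) one_pos]
    with x h hl h1
  have hδ := dl_pos hJ
  have := h ∅ x (2 * x) _ (5 * dl J) (by simp) (by omega) (by positivity) (cells_sum hJ hl)
    fun T hT => ⟨by simp, by
      by_cases h2 : YY D x _ T = 0
      · obtain ⟨k, -, hk⟩ := exists_ne_zero_of_sum_ne_zero (fun h3 => hT (by rw [h2, h3, sub_zero]))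
        exact tens_supp hl (fun _ => yk_lt hl) hk
      · exact YY_supp hl h2⟩
  simp only [notMem_empty, IsEmpty.forall_iff, implies_true, and_true, prod_empty, mul_one,
    Nat.cast_mul, Nat.cast_ofNat, Fintype.card_option, Fintype.card_fin,
    show (2 : ℝ) * x - x = x by ring] at this
  refine (le_of_eq (sum_congr rfl fun m _ => ?_)).trans (this.trans ?_)
  · simp only [ZZ, ← SS_tens]
    simp only [SS, sub_mul, sum_sub_distrib, sum_mul]
    rw [sum_comm]
  · refine (mul_le_mul_of_nonneg_left (add_le_add le_rfl h1) (by positivity)).trans (le_of_eq ?_)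
    ring

theorem upper (ha : Nat.Coprime a (primorial D)) {q : Fin 3 → ℝ → ℝ} {η ε : ℝ} (hη : 0 < η)
    (hη' : η ≤ 1 / 1000) (hε : 0 < ε)
    (hq : ∀ X, ∀ L ∈ Set.Icc (0 : ℝ) (33 / 100), cost η (Lam X X) (om X X) L ≤ q X L) :
    ∀ᶠ x : ℕ in atTop, ∑ m ∈ Ioc x (2 * x) with m ≡ a [MOD primorial D],
      min (ArithmeticFunction.cardFactors m : ℝ) 8 *
        (∑ k ∈ range (330 * J), ZZ D x g (dl J) k m) ^ 2 ≤
      x / primorial D * BB D x ^ 4 * (∑ k ∈ range (330 * J), (q (lay J k) (Lk (dl J) k) + 7 * ε) *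
        (∫ u in (k * dl J)..((k + 1) * dl J), u ^ 2 / 2) + ε + (330 * J) ^ 2 *
        ((26 + 2 / η) * eD D + 7 * ε + 160 * (57 * η * (3 + eD D) + 32 * ε))) := by
  have hδ := dl_pos hJ
  have h1 := tendsto_finsetSum (range (330 * J)) fun k _ =>
    (nuu_tendsto D hδ k).const_mul (q (lay J k) (Lk (dl J) k) + 7 * ε)
  filter_upwards [h1.eventually_le_const (lt_add_of_pos_right _ hε),
    (eventually_all_finset (range (330 * J))).2 fun k hk =>
      (eventually_all_finset (range (330 * J))).2 fun k' hk' =>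
      pair hD hg hg8 a (dl J) k k' ha (good_om (lay J k) (lay J k')) hε hη hη' hδ
        (Lam_bd (lay J k) (lay J k')).1 (Lam_bd _ _).2 (lev (mem_range.1 hk) (mem_range.1 hk')),
    (eventually_all_finset (range (330 * J))).2 fun k _ => bad hD hg hg8 ha (dl J) k hη hη' hε,
    eventually_gt_atTop 1, gr_logx.eventually_ge_atTop (Real.log 2 / η), Meas.BB_pos D]
    with x h1 h2 h3 hx h4 hB
  rw [div_le_iff₀' hη] at h4
  set K := range (330 * J) with hK
  set X := (x : ℝ) / primorial D with hX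
  have hX0 : 0 ≤ X := by positivity
  calc _ ≤ ∑ m ∈ Ioc x (2 * x) with m ≡ a [MOD primorial D], (∑ k ∈ K, ∑ k' ∈ K,
        TT η x (Lam (lay J k) (lay J k')) (om (lay J k) (lay J k')) m *
          (ZZ D x g (dl J) k m * ZZ D x g (dl J) k' m) +
        160 * K.card * ∑ k ∈ K, err η x m * ZZ D x g (dl J) k m ^ 2) := by
        refine sum_le_sum fun m hm => ?_
        have a1 := ptw hη hη' hx h4 (mem_filter.1 hm).1
          fun Y => ∑ k ∈ K with lay J k = Y, ZZ D x g (dl J) k m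
        rw [sum_fiberwise, sum_layers K (lay J) _ fun Y Y' => TT η x (Lam Y Y') (om Y Y') m] at a1
        refine a1.trans (add_le_add le_rfl ((mul_le_mul_of_nonneg_left (sum_layers_sq _ _ _)
          (mul_nonneg (by norm_num) (err_nonneg hη.le _ _))).trans (le_of_eq ?_)))
        rw [← mul_sum]; ring
    _ ≤ ∑ k ∈ K, (X * BB D x ^ 4 * ((q (lay J k) (Lk (dl J) k) + 7 * ε) *
          (nuu D x (dl J) k k / BB D x ^ 3)) +
          K.card * (X * BB D x ^ 4 * ((26 + 2 / η) * eD D + 7 * ε))) +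
        160 * K.card * (K.card * (X * BB D x ^ 4 * (57 * η * (3 + eD D) + 32 * ε))) := by
        rw [sum_add_distrib, ← mul_sum, sum_comm, sum_comm (t := K) (f := fun m k => err η x m * _)]
        refine add_le_add (sum_le_sum fun k hk => ?_) (mul_le_mul_of_nonneg_left
          ((sum_le_card_nsmul _ _ _ h3).trans_eq (nsmul_eq_mul _ _)) (by positivity))
        rw [sum_comm]
        refine (sum_le_sum (h2 k hk)).trans ?_
        rw [sum_add_distrib, sum_const, nsmul_eq_mul, sum_eq_single_of_mem k hk fun k' _ h => by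
          rw [nuu_ne D x hδ h.symm, mul_zero]]
        refine add_le_add ?_ le_rfl
        have a1 := dl_le (mem_range.1 hk)
        have a2 := hq (lay J k) (Lk (dl J) k) ⟨by unfold Lk; push_cast at a1; linarith,
          sub_le_self _ (by positivity)⟩
        have a3 := nuu_nonneg D x (dl J) k
        refine le_trans (mul_le_mul_of_nonneg_right (mul_le_mul_of_nonneg_left
          (add_le_add a2 le_rfl) (by positivity)) a3) (le_of_eq ?_)
        field_simp
    _ ≤ _ := by
        rw [sum_add_distrib, ← mul_sum, sum_const, nsmul_eq_mul, card_range]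
        have := mul_le_mul_of_nonneg_left h1 (show 0 ≤ X * BB D x ^ 4 by positivity)
        push_cast
        linarith

end

theorem coord {q : Fin 3 → ℝ → ℝ} (hq : ∀ X, Continuous (q X))
    (hc : ∀ η ∈ Set.Ioc (0 : ℝ) (1 / 10), ∀ X, ∀ L ∈ Set.Icc (0 : ℝ) (33 / 100),
      cost η (Lam X X) (om X X) L ≤ q X L) {ε : ℝ} (hε : 0 < ε) :
    ∀ᶠ D : ℕ in atTop, ∀ (g : Fin 3 → ℤ) (a : ℕ), Function.Injective g →
      (∀ j, g j ≠ 0 ∧ |g j| ≤ 8) → Nat.Coprime a (primorial D) → ∀ᶠ x : ℕ in atTop,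
      ∑ m ∈ Ioc x (2 * x) with m ≡ a [MOD primorial D],
        min (ArithmeticFunction.cardFactors m : ℝ) 8 * SS (qq D x) (og g) (YY D x _) m ^ 2 ≤
        x / primorial D * BB D x ^ 4 * (QQ q + ε) := by
  have hlim : Tendsto (fun t : ℝ => (1 + t) * (QQ q + 4 * t) + t) (𝓝[>] 0)
      (𝓝 ((1 + 0) * (QQ q + 4 * 0) + 0)) :=
    tendsto_nhdsWithin_of_tendsto_nhds (Continuous.tendsto (by fun_prop) _)
  obtain ⟨t, h1, ht⟩ := ((hlim.eventually_le_const (show _ < QQ q + ε by linarith)).and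
    self_mem_nhdsWithin).exists
  have ht : 0 < t := ht
  have h2 : Tendsto (fun J => 8 * (1 + 1 / t) * (25 * dl J ^ 2 * 5)) atTop
      (𝓝 (8 * (1 + 1 / t) * (25 * 0 ^ 2 * 5))) :=
    (((dl_tendsto.pow 2).const_mul _).mul_const _).const_mul _
  obtain ⟨J, h2, h3, hJ⟩ := ((h2.eventually_le_const (show _ < t by simpa using ht)).and
    ((riemann_sum hq ht).and (eventually_gt_atTop 0))).exists
  set K : ℝ := (330 * J) ^ 2 with hK
  have hK0 : 0 < K := by positivity
  obtain ⟨η, hη, hη1, hη2⟩ : ∃ η : ℝ, 0 < η ∧ η ≤ 1 / 1000 ∧ K * (160 * (57 * η * 4)) ≤ t :=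
    ⟨min (1 / 1000) (t / (K * 36480)), by positivity, min_le_left _ _, by
      have := (le_div_iff₀ (by positivity)).1 (min_le_right (1 / 1000) (t / (K * 36480)))
      linarith⟩
  have h4 := (eD_tendsto.const_mul (26 + 2 / η)).const_mul K
  filter_upwards [h4.eventually_le_const (show _ < t by simpa using ht),
    eD_tendsto.eventually_le_const one_pos, eventually_ge_atTop 16] with D h4 h5 hD g a hg hg8 ha
  have hr : 0 < t / (8 + 5127 * K) := by positivity
  have h6 : t / (8 + 5127 * K) * (8 + 5127 * K) = t := by field_simp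
  set r := t / (8 + 5127 * K)
  filter_upwards [net_err hD hg hg8 hJ (a := a), upper hD hg hg8 hJ ha hη hη1 hr
    (hc η ⟨hη, by linarith⟩)] with x a1 a2
  have hX : 0 ≤ x / primorial D * BB D x ^ 4 := by have := Meas.BB_nonneg D x; positivity
  have a3 := h3 (7 * r) (by positivity)
  have a4 : K * (160 * (57 * η * (3 + eD D))) ≤ K * (160 * (57 * η * 4)) := by gcongr; linarith
  have a5 := a2.trans (mul_le_mul_of_nonneg_left (c := QQ q + 4 * t) (by rw [← hK]; linarith) hX)
  have a6 := a1.trans (mul_le_mul_of_nonneg_left (c := 25 * dl J ^ 2 * 5)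
    (by gcongr; linarith) hX)
  have a7 := add_le_add (mul_le_mul_of_nonneg_left a5 (show 0 ≤ 1 + t by positivity))
    (mul_le_mul_of_nonneg_left a6 (show 0 ≤ 8 * (1 + 1 / t) by positivity))
  refine le_trans ?_ (a7.trans ?_)
  · rw [mul_sum, mul_sum, ← sum_add_distrib]
    refine sum_le_sum fun m _ => ?_
    set S := SS (qq D x) (og g) (YY D x _) m
    set Z := ∑ k ∈ range (330 * J), ZZ D x g (dl J) k m
    have b1 : S ^ 2 ≤ (1 + t) * Z ^ 2 + (1 + 1 / t) * (S - Z) ^ 2 := by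
      have : (1 + t) * Z ^ 2 + (1 + 1 / t) * (S - Z) ^ 2 - S ^ 2 = (t * Z - (S - Z)) ^ 2 / t := by
        field_simp; ring
      have h : 0 ≤ (t * Z - (S - Z)) ^ 2 / t := by positivity
      linarith
    have b2 : 0 ≤ min (ArithmeticFunction.cardFactors m : ℝ) 8 := by positivity
    have b3 := mul_le_mul_of_nonneg_right (min_le_right (ArithmeticFunction.cardFactors m : ℝ) 8)
      (show 0 ≤ (1 + 1 / t) * (S - Z) ^ 2 by positivity)
    nlinarith [mul_le_mul_of_nonneg_left b1 b2]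
  · rw [mul_left_comm, mul_left_comm (8 * (1 + 1 / t)), ← mul_add]
    exact mul_le_mul_of_nonneg_left (by linarith) hX

end Pool.Agent.Lib.MP_fc51f7_nt
end

-- part Pool.Agent.Lib.MP_fc51f7_nt.Main
section

/-! Assembly of the four forms. -/

set_option autoImplicit false

namespace Pool.Agent.Lib.MP_fc51f7_nt

open Finset Filter Topology

theorem SS_equiv {D x : ℕ} {κ κ' : Type} [Fintype κ] [DecidableEq κ] [Fintype κ'] [DecidableEq κ']
    (e : κ ≃ κ') (g : κ → ℤ) (g' : κ' → ℤ) (m m' : ℤ) (h : ∀ j, m + g j = m' + g' (e j)) :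
    SS (qq D x) g (YY D x κ) m = SS (qq D x) g' (YY D x κ') m' := by
  refine Fintype.sum_equiv (e.arrowCongr (Equiv.refl _)) _ _ fun T => ?_
  congr 1
  · unfold YY lgs
    congr 2
    exact Fintype.sum_equiv e _ _ fun j => by simp
  · exact Fintype.prod_equiv e _ _ fun j => by simp [h]

def hh : Fin 4 → ℕ := ![0, 2, 6, 8]

def gg (i : Fin 4) (j : Fin 3) : ℤ := (hh (i.succAbove j) : ℤ) - hh i

theorem gg_ok (i : Fin 4) : Function.Injective (gg i) ∧ ∀ j, gg i j ≠ 0 ∧ |gg i j| ≤ 8 := by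
  revert i; decide

theorem hh_le (i : Fin 4) : hh i ≤ 8 := by revert i; decide

theorem SS_coord (D x n : ℕ) (i : Fin 4) : SS (qq D x) (fun j => (hh j : ℤ)) (YY D x _) n =
    SS (qq D x) (og (gg i)) (YY D x _) (n + hh i : ℕ) :=
  (SS_equiv (finSuccEquiv' i).symm _ _ _ _ fun j => by cases j <;> simp [og, gg]).symm

theorem exists_class (D : ℕ) : ∃ b : ℕ, ∀ i, Nat.Coprime (b + hh i) (primorial D) := by
  obtain ⟨b, hb⟩ := Nat.chineseRemainderOfFinset (fun p => if p < 11 then 11 else 1) id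
    (Nat.primesLE D) (fun p hp => (Nat.prime_of_mem_primesLE hp).ne_zero) fun p hp r hr h =>
      (Nat.coprime_primes (Nat.prime_of_mem_primesLE hp) (Nat.prime_of_mem_primesLE hr)).2 h
  refine ⟨b, fun i => Nat.coprime_of_dvd fun p hp h1 h2 => ?_⟩
  have h3 := (((hb p (Nat.mem_primesLE.2 ⟨hp.dvd_primorial_iff.1 h2, hp⟩)).add_right
    (hh i)).dvd_iff dvd_rfl).1 h1
  have h4 := hp.two_le
  clear h1
  split_ifs at h3 with h
  · revert i; interval_cases p <;> decide
  · have : p ≤ _ := Nat.le_of_dvd (by omega) h3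
    have := hh_le i
    omega

theorem lower {ε : ℝ} (hε : 0 < ε) : ∀ᶠ D : ℕ in atTop, ∀ b : ℕ, ∀ᶠ x : ℕ in atTop,
    x / primorial D * BB D x ^ 4 *
      ((∫ s in (0 : ℝ)..1, Pz (33 / 100 - s) ^ 2 * (s ^ 3 / 6)) - 4 * ε) ≤
    ∑ n ∈ Ioc x (2 * x - 8) with n ≡ b [MOD primorial D],
      SS (qq D x) (fun j => (hh j : ℤ)) (YY D x _) n ^ 2 := by
  filter_upwards [eD_tendsto.eventually_le_const hε, eventually_ge_atTop 16] with D h1 hD b
  have h2 := (conv_nu_pow D (Fin 4) 3 (by simp)).2.2.2.2 (fun t => fL (33 / 100) t ^ 2)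
    ((fL_cont _).pow 2) 1 zero_le_one fun u hu => by rw [fL_zero (by linarith)]; simp
  simp only [zero_mul, zero_add, show ((Nat.factorial 3 : ℕ) : ℝ) = 6 by norm_num [Nat.factorial]]
    at h2
  unfold fL at h2
  set I := ∫ s in (0 : ℝ)..1, Pz (33 / 100 - s) ^ 2 * (s ^ 3 / 6)
  filter_upwards [TI hD (κ := Fin 4) (by simp) (g := fun j => (hh j : ℤ)) (by decide) (by decide)
    (j0 := 0) rfl b, Meas.L_pos, small_pow D (show (6605 / 10000 : ℝ) < 1 by norm_num) hε,
    h2.eventually_le_const (lt_add_of_pos_right _ hε),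
    h2.eventually_const_le (sub_lt_self _ hε), eventually_ge_atTop 8, Meas.BB_pos D,
    tendsto_natCast_atTop_atTop.eventually_ge_atTop (8 * (I + ε) / ε)]
    with x h hl h3 h4 h5 hx hB h6
  have hW : (0 : ℝ) < primorial D := by exact_mod_cast primorial_pos D
  have := (abs_le.1 (h ∅ x (2 * x - 8) (YY D x _) (YY D x _) (by simp) (by omega)
    (fun T => abs_fL _ _) (fun T => abs_fL _ _) (fun T hT => ⟨by simp, YY_supp hl hT⟩)
    fun T hT => ⟨by simp, YY_supp hl hT⟩)).1
  simp only [notMem_empty, IsEmpty.forall_iff, implies_true, and_true, prod_empty, mul_one,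
    Fintype.card_fin, Nat.cast_sub (show 8 ≤ 2 * x by omega), Nat.cast_mul, Nat.cast_ofNat,
    show (2 : ℝ) * x - 8 - x = x - 8 by ring, ← sq] at this
  have e : ∑ T, YY D x (Fin 4) T ^ 2 * wts (qq D x) T = BB D x ^ 4 * ∑ T : Fin 4 → Finset (PP D x),
      wts (qq D x) T / BB D x ^ (3 + 1) * Pz (33 / 100 - lgs (qq D x) T / Real.log x) ^ 2 := by
    rw [mul_sum]
    exact sum_congr rfl fun T _ => by unfold YY fL; field_simp
  rw [e] at this
  set s := ∑ T : Fin 4 → Finset (PP D x),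
    wts (qq D x) T / BB D x ^ (3 + 1) * Pz (33 / 100 - lgs (qq D x) T / Real.log x) ^ 2
  rw [div_le_iff₀ hε] at h6
  have h7 : (x : ℝ) * (I - 2 * ε) ≤ (x - 8) * s := by
    nlinarith [mul_le_mul_of_nonneg_left h5 (show (0 : ℝ) ≤ x by positivity)]
  have h8 := mul_le_mul_of_nonneg_right h7 (show 0 ≤ BB D x ^ 4 / primorial D by positivity)
  have h9 : ((x : ℝ) - 8) / primorial D * (eD D * BB D x ^ 4) ≤
      x / primorial D * (ε * BB D x ^ 4) := by
    have := eD_nonneg D
    gcongr; linarith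
  have e1 : (x - 8) * s * (BB D x ^ 4 / primorial D) = (x - 8) / primorial D * (BB D x ^ 4 * s) := by
    ring
  have e2 : x * (I - 2 * ε) * (BB D x ^ 4 / primorial D) =
      x / primorial D * BB D x ^ 4 * (I - 2 * ε) := by ring
  linarith

theorem main : ∀ᶠ x : ℕ in atTop, ∃ n > x, ∑ i, ArithmeticFunction.cardFactors (n + hh i) ≤ 10 := by
  obtain ⟨qA, qB, qC, hA, hB, hC, h1, h2⟩ := numerics
  change 4 * QQ ![qA, qB, qC] < _ at h2
  set I := ∫ s in (0 : ℝ)..1, Pz (33 / 100 - s) ^ 2 * (s ^ 3 / 6)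
  have hε : 0 < (11 * I - 4 * QQ ![qA, qB, qC]) / 50 := by linarith
  obtain ⟨D, h3, h4⟩ := ((lower hε).and (coord (q := ![qA, qB, qC])
    (fun X => by fin_cases X <;> assumption) (fun η hη X L hL => by
      fin_cases X
      exacts [(h1 L hL η hη).1, (h1 L hL η hη).2.1, (h1 L hL η hη).2.2]) hε)).exists
  obtain ⟨b, hb⟩ := exists_class D
  filter_upwards [h3 b, eventually_all.2 fun i => h4 (gg i) (b + hh i) (gg_ok i).1 (gg_ok i).2
    (hb i), Meas.BB_pos D, eventually_gt_atTop 0] with x h5 h6 hB hx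
  by_contra hcon
  have hW : (0 : ℝ) < primorial D := by exact_mod_cast primorial_pos D
  have hX : 0 < x / primorial D * BB D x ^ 4 := by positivity
  have h7 : 11 * ∑ n ∈ Ioc x (2 * x - 8) with n ≡ b [MOD primorial D],
      SS (qq D x) (fun j => (hh j : ℤ)) (YY D x _) n ^ 2 ≤ ∑ i, ∑ n ∈ Ioc x (2 * x - 8) with
        n ≡ b [MOD primorial D], min (ArithmeticFunction.cardFactors (n + hh i) : ℝ) 8 *
          SS (qq D x) (fun j => (hh j : ℤ)) (YY D x _) n ^ 2 := by
    rw [sum_comm, mul_sum]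
    refine sum_le_sum fun n hn => ?_
    rw [← sum_mul]
    refine mul_le_mul_of_nonneg_right ?_ (sq_nonneg _)
    have a1 := (mem_Ioc.1 (mem_filter.1 hn).1).1
    have a2 := not_le.1 fun h => hcon ⟨n, a1, h⟩
    have a3 : ∀ i, 0 < ArithmeticFunction.cardFactors (n + hh i) := fun i =>
      ArithmeticFunction.cardFactors_pos_iff_one_lt.2 (by omega)
    have a4 : 11 ≤ ∑ i, min (ArithmeticFunction.cardFactors (n + hh i)) 8 := by
      have := a3 0; have := a3 1; have := a3 2; have := a3 3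
      rw [Fin.sum_univ_four] at a2 ⊢
      omega
    exact_mod_cast a4
  have h8 := h7.trans (sum_le_sum fun i _ => le_trans (by
    simp only [SS_coord D x _ i]
    refine (sum_image (g := (· + hh i)) (f := fun m : ℕ =>
      min (ArithmeticFunction.cardFactors m : ℝ) 8 * SS (qq D x) (og (gg i)) (YY D x _) m ^ 2)
      (add_left_injective _).injOn).ge.trans
      (sum_le_sum_of_subset_of_nonneg (fun m hm => ?_) fun _ _ _ => by positivity)
    obtain ⟨n, hn, rfl⟩ := mem_image.1 hm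
    have := hh_le i
    have := mem_Ioc.1 (mem_filter.1 hn).1
    exact mem_filter.2 ⟨mem_Ioc.2 ⟨by omega, by omega⟩, (mem_filter.1 hn).2.add_right _⟩) (h6 i))
  rw [sum_const, card_univ, Fintype.card_fin, nsmul_eq_mul] at h8
  have h9 := (mul_le_mul_of_nonneg_left h5 (by norm_num : (0 : ℝ) ≤ 11)).trans h8
  rw [mul_left_comm, mul_left_comm _ (_ * BB D x ^ 4), mul_le_mul_iff_right₀ hX] at h9
  push_cast at h9
  linarith

end Pool.Agent.Lib.MP_fc51f7_nt
end
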