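import Pool.Agent.Lib.MP_fc51f7_nt.LS

/-! Definitions for the detection of numbers with at most three prime factors. -/

set_option autoImplicit false

namespace Pool.Agent.Lib.MP_fc51f7_nt

noncomputable section

def GG (z : ℝ) : ℝ := ∫ t in (0 : ℝ)..1, fL z t

/-- Mass of the products of two primes. -/
def E2 (η L : ℝ) : ℝ := ∫ a in η..(1 / 2), (GG L - GG (L - a)) ^ 2 / (a * (1 - a))

/-- Mass of the products of three primes. -/
def E3 (η L : ℝ) : ℝ := ∫ a in η..(322 / 1000), ∫ b in a..((1 - a) / 2),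
  (GG L - GG (L - a) - GG (L - b) + GG (L - a - b)) ^ 2 / (a * b * (1 - a - b))

def cost2 (η L : ℝ) : ℝ := (∫ u in η..(339 / 1000), DD L u) +
  (∫ v in (0 : ℝ)..(662 / 1000), HH L v) - (1 - 5 * η) * (E2 η L + E3 η L)

open Classical in
/-- Weight of a cofactor with at most two prime factors, all smaller than the removed prime. -/
def psi (x m : ℕ) : ℝ :=
  if ArithmeticFunction.cardFactors m ≤ 2 ∧ ∀ r ∈ m.primeFactors, r * m ≤ x then
    (1 - Real.log m / Real.log x)⁻¹ else 0

end

end Pool.Agent.Lib.MP_fc51f7_nt
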