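import Pool.Agent.Lib.MP_fc51f7_nt.Num2A
import Pool.Agent.Lib.MP_fc51f7_nt.Defs2

/-! The numerical inequality for the detection of numbers with at most three prime factors. -/

set_option autoImplicit false

namespace Pool.Agent.Lib.MP_fc51f7_nt

open Finset Filter Topology MeasureTheory intervalIntegral

namespace Nm5

open Nm4

noncomputable def Gt (z : ℝ) : ℝ := z * z * (1 / 2 + 2 * z)

@[fun_prop] theorem continuous_GG : Continuous GG :=
  continuous_parametric_intervalIntegral_of_continuous' (by unfold fL; fun_prop) 0 1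

theorem GG_neg {z : ℝ} (h : z ≤ 0) : GG z = 0 := by
  rw [GG, integral_congr (g := fun _ => 0) fun x hx => ?_]
  · simp
  · rw [Set.uIcc_of_le zero_le_one] at hx
    simp [fL, Pz_neg (show z - x ≤ 0 by linarith [hx.1])]

theorem GG_pos {z : ℝ} (h : 0 ≤ z) (h' : z ≤ 1 / 3) : GG z = Gt z := by
  have hc : ∀ a b : ℝ, IntervalIntegrable (fL z) volume a b := fun a b =>
    Continuous.intervalIntegrable (by unfold fL; fun_prop) _ _
  have h1 : ∫ t in z..1, fL z t = 0 := by
    rw [integral_congr (g := fun _ => 0) fun x hx => ?_]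
    · simp
    · rw [Set.uIcc_of_le (by linarith)] at hx
      simp [fL, Pz_neg (sub_nonpos.2 hx.1)]
  rw [GG, ← integral_add_adjacent_intervals (hc 0 z) (hc z 1), h1,
    int_pv [z + 6 * z ^ 2, -1 - 12 * z, 6] fun x hx => ?_]
  · simp only [pv, anti, Gt]; push_cast; ring
  · rw [Set.uIcc_of_le h] at hx
    rw [fL, Pz_pos (by linarith [hx.2]) (by linarith [hx.1])]
    simp only [pv]; ring

variable {L η a b : ℝ}

theorem partA (h0 : 0 ≤ L) (hL : L ≤ 31 / 100) (hη : 0 ≤ η) :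
    (∫ u in η..(339 / 1000), DD L u) + ∫ v in (0 : ℝ)..(662 / 1000), HH L v ≤ eA.ev L 0 0 := by
  have hL' : L ≤ 1 / 3 := by linarith
  have hD : ∀ a b : ℝ, IntervalIntegrable (DD L) volume a b := fun a b =>
    (continuous_DD L).intervalIntegrable _ _
  have hH : ∀ a b : ℝ, IntervalIntegrable (HH L) volume a b := fun a b =>
    (continuous_HH L).intervalIntegrable _ _
  have h1 : 0 ≤ ∫ u in (0 : ℝ)..η, DD L u :=
    integral_nonneg hη fun x _ => integral_nonneg zero_le_one fun t _ => sq_nonneg _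
  have h2 := integral_add_adjacent_intervals (hD 0 η) (hD η (339 / 1000))
  have h3 := integral_add_adjacent_intervals (hD 0 L) (hD L (339 / 1000))
  have h4 := integral_add_adjacent_intervals (hH 0 L) (hH L (662 / 1000))
  have h5 : ∫ u in L..(339 / 1000), DD L u = (339 / 1000 - L) * Nn L := by
    rw [integral_congr (g := fun _ => Nn L) fun x hx => ?_]
    · simp
    · rw [Set.uIcc_of_le (by linarith)] at hx
      exact DD_high h0 hL' hx.1
  have h6 : ∫ u in L..(662 / 1000), HH L u = (662 / 1000 - L) * Nn L := by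
    rw [integral_congr (g := fun _ => Nn L) fun x hx => ?_]
    · simp
    · rw [Set.uIcc_of_le (by linarith)] at hx
      exact HH_high h0 hL' hx.1
  have h7 : ∫ u in (0 : ℝ)..L, DD L u = Nm4.I2 L := by
    rw [int_pv [0, 0, L + 12 * L ^ 2 + 48 * L ^ 3, -2 / 3 - 12 * L - 72 * L ^ 2, 3 + 36 * L,
      -24 / 5] fun x hx => ?_]
    · simp only [pv, anti, Nm4.I2]; push_cast; ring
    · rw [Set.uIcc_of_le h0] at hx
      rw [DD_low hL' hx.1 hx.2]
      simp only [pv, D1]; ring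
  have h8 : ∫ u in (0 : ℝ)..L, HH L u =
      L * Nn L - (L ^ 4 / 12 + 3 / 5 * L ^ 5 + 6 / 5 * L ^ 6) := by
    rw [int_pv [0, L ^ 2 + 12 * L ^ 3 + 36 * L ^ 4, -L - 18 * L ^ 2 - 72 * L ^ 3,
      1 / 3 + 12 * L + 72 * L ^ 2, -3 - 36 * L, 36 / 5] fun x hx => ?_]
    · simp only [pv, anti, Nn]; push_cast; ring
    · rw [Set.uIcc_of_le h0] at hx
      rw [HH_low hL' hx.1 hx.2]
      simp only [pv, Nn]; ring
  have h9 : eA.ev L 0 0 = Nm4.I2 L + (339 / 1000 - L) * Nn L +
      (L * Nn L - (L ^ 4 / 12 + 3 / 5 * L ^ 5 + 6 / 5 * L ^ 6) + (662 / 1000 - L) * Nn L) := by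
    simp only [eA, eN, eG, ev_sub, ev_mul, ev_add, ev_c, ev_x, Nm4.I2, Nn]
    push_cast; ring
  linarith

noncomputable def Rr (t : ℝ) : ℝ :=
  3 * (2 - 3 * t) * (1 + (1 - 3 * t) * (1 - 3 * t) * (1 + (1 - 3 * t) * (1 - 3 * t)))

noncomputable def Ss (t : ℝ) : ℝ :=
  3 / 4 * (1 + 3 * t) * (1 + (3 / 2 * t - 1 / 2) * (3 / 2 * t - 1 / 2))

noncomputable def Dd (L a : ℝ) : ℝ := L - 1 / 2 * a + 2 * (3 * L * (L - a) + a * a)

noncomputable def Qpol (L a b : ℝ) : ℝ := 1 + 6 * (2 * L - a - b)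

theorem ev_eG (u v w : ℝ) (t : Ex) : (eG t).ev u v w = Gt (t.ev u v w) := by
  simp only [eG, ev_mul, ev_add, ev_c, Gt]; push_cast; ring

theorem ev_eR (u v w : ℝ) (t : Ex) : (eR t).ev u v w = Rr (t.ev u v w) := by
  simp only [eR, ev_mul, ev_add, ev_sub, ev_c, Rr]; push_cast; ring

theorem ev_eS (u v w : ℝ) (t : Ex) : (eS t).ev u v w = Ss (t.ev u v w) := by
  simp only [eS, ev_mul, ev_add, ev_sub, ev_c, Ss]; push_cast; ring

theorem ev_eD (u v w : ℝ) : eD.ev u v w = Dd u v := by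
  simp only [eD, ev_mul, ev_add, ev_sub, ev_c, ev_x, ev_y, Dd]; push_cast; ring

theorem ev_eQ (u v w : ℝ) : eQ.ev u v w = Qpol u v w := by
  simp only [eQ, ev_mul, ev_add, ev_sub, ev_c, ev_x, ev_y, ev_z, Qpol]; push_cast; ring

theorem ev_eH (u v w : ℝ) : eH.ev u v w = (1 - v) / 2 := by
  simp only [eH, ev_mul, ev_sub, ev_c, ev_y]; push_cast; ring

theorem Rr_le (h : 0 < a) : Rr a ≤ a⁻¹ := by
  rw [← one_div, le_div_iff₀ h]
  have h1 : Rr a * a = 1 - ((1 - 3 * a) ^ 3) ^ 2 := by unfold Rr; ring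
  nlinarith [sq_nonneg ((1 - 3 * a) ^ 3)]

theorem Rr_nonneg (h : a ≤ 1 / 2) : 0 ≤ Rr a := by
  have h1 : 0 ≤ 2 - 3 * a := by linarith
  have h2 := mul_self_nonneg (1 - 3 * a)
  unfold Rr; positivity

theorem Ss_le (h : a < 1) : Ss a ≤ (1 - a)⁻¹ := by
  rw [← one_div, le_div_iff₀ (by linarith)]
  have h1 : Ss a * (1 - a) = 1 - ((3 / 2 * a - 1 / 2) ^ 2) ^ 2 := by unfold Ss; ring
  nlinarith [sq_nonneg ((3 / 2 * a - 1 / 2) ^ 2)]

theorem Ss_nonneg (h : 0 ≤ a) : 0 ≤ Ss a := by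
  have h2 := mul_self_nonneg (3 / 2 * a - 1 / 2)
  unfold Ss; positivity

noncomputable def ff (L a b : ℝ) : ℝ :=
  (GG L - GG (L - a) - GG (L - b) + GG (L - a - b)) ^ 2 / (a * b * (1 - a - b))

theorem base {X : ℝ} (ha : 0 < a) (hb : 0 < b) (hab : a + b < 1)
    (h : X ≤ (GG L - GG (L - a) - GG (L - b) + GG (L - a - b)) ^ 2 / (a * b)) :
    X * Ss (a + b) ≤ ff L a b := by
  have h1 := Ss_le hab
  have h2 := Ss_nonneg (show 0 ≤ a + b by linarith)
  rw [ff, ← div_div, div_eq_mul_inv _ (1 - a - b), sub_sub 1]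
  exact mul_le_mul h h1 h2 (by positivity)

theorem fA (hL : L ≤ 31 / 100) (ha : 0 < a) (hb : 0 < b) (h : a + b ≤ L) :
    mA.ev L a b ≤ ff L a b := by
  simp only [mA, ev_mul, ev_add, ev_y, ev_z, ev_eQ, ev_eS]
  refine base ha hb (by linarith) (le_of_eq ?_)
  rw [GG_pos (by linarith) (by linarith), GG_pos (by linarith) (by linarith),
    GG_pos (by linarith) (by linarith), GG_pos (by linarith) (by linarith), eq_div_iff (by positivity)]
  unfold Gt Qpol; ring

theorem fB (hL : L ≤ 31 / 100) (ha : 0 < a) (hb : 0 < b) (h1 : a ≤ L) (h2 : b ≤ L)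
    (h : L ≤ a + b) : mB.ev L a b ≤ ff L a b := by
  simp only [mB, ev_mul, ev_add, ev_sub, ev_c, ev_x, ev_y, ev_z, ev_eQ, ev_eS, ev_eG]
  refine base ha hb (by linarith) ?_
  rw [GG_pos (by linarith) (by linarith), GG_pos (by linarith) (by linarith),
    GG_pos (by linarith) (by linarith), GG_neg (by linarith), le_div_iff₀ (by positivity)]
  have h3 : Gt L - Gt (L - a) - Gt (L - b) + 0 = a * b * Qpol L a b - Gt (L - a - b) := by
    unfold Gt Qpol; ring
  rw [h3]
  push_cast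
  nlinarith [sq_nonneg (Gt (L - a - b))]

theorem dif (hL : L ≤ 31 / 100) (ha : 0 < a) (h1 : a ≤ L) : GG L - GG (L - a) = a * Dd L a := by
  rw [GG_pos (by linarith) (by linarith), GG_pos (by linarith) (by linarith)]
  unfold Gt Dd; ring

theorem fC (hL : L ≤ 31 / 100) (ha : 0 < a) (h1 : a ≤ L) (h2 : L ≤ b) (h : a + b < 1) :
    mC.ev L a b ≤ ff L a b := by
  have hb : 0 < b := by linarith
  simp only [mC, ev_mul, ev_add, ev_y, ev_z, ev_eD, ev_eS, ev_eR]
  rw [← mul_assoc]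
  refine base ha hb h ?_
  rw [dif hL ha h1, GG_neg (by linarith), GG_neg (by linarith)]
  have h3 : (a * Dd L a - 0 + 0) ^ 2 / (a * b) = a * (Dd L a * Dd L a) * b⁻¹ := by
    field_simp; ring
  rw [h3]
  exact mul_le_mul_of_nonneg_left (Rr_le hb) (mul_nonneg ha.le (mul_self_nonneg _))

theorem fD (h0 : 0 < L) (hL : L ≤ 31 / 100) (h1 : L ≤ a) (h2 : a ≤ b) (h : b ≤ (1 - a) / 2) :
    mD.ev L a b ≤ ff L a b := by
  have ha : 0 < a := by linarith
  have hb : 0 < b := by linarith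
  simp only [mD, ev_mul, ev_add, ev_x, ev_y, ev_z, ev_eG, ev_eS, ev_eR]
  rw [← mul_assoc]
  refine base ha hb (by linarith) ?_
  rw [GG_pos h0.le (by linarith), GG_neg (by linarith), GG_neg (by linarith),
    GG_neg (by linarith)]
  have h3 : (Gt L - 0 - 0 + 0) ^ 2 / (a * b) = Gt L * Gt L * (a⁻¹ * b⁻¹) := by
    field_simp; ring
  rw [h3, mul_assoc]
  exact mul_le_mul_of_nonneg_left (mul_le_mul (Rr_le ha) (Rr_le hb) (Rr_nonneg (by linarith))
    (by positivity)) (mul_self_nonneg _)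

theorem ff_int {u v : ℝ} (ha : 0 < a) (h1 : a ≤ u) (h2 : u ≤ v) (h3 : v ≤ (1 - a) / 2) :
    IntervalIntegrable (ff L a) volume u v := by
  refine ContinuousOn.intervalIntegrable_of_Icc h2 (ContinuousOn.div (by fun_prop) (by fun_prop)
    fun x hx => ?_)
  have h4 : 0 < x := by linarith [hx.1]
  have h5 : 0 < 1 - a - x := by linarith [hx.1, hx.2]
  positivity

theorem piece {u v : ℝ} (t : Ex) (ha : 0 < a) (h1 : a ≤ u) (h2 : u ≤ v) (h3 : v ≤ (1 - a) / 2)
    (h : ∀ b ∈ Set.Icc u v, t.ev L a b ≤ ff L a b) :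
    ∫ b in u..v, t.ev L a b ≤ ∫ b in u..v, ff L a b :=
  integral_mono_on h2 ((cont_ev continuous_const continuous_const continuous_id
    t).intervalIntegrable _ _) (ff_int ha h1 h2 h3) h

noncomputable def inn (L a : ℝ) : ℝ := ∫ b in a..((1 - a) / 2), ff L a b

theorem inC (hL : L ≤ 31 / 100) (ha : 0 < a) (h1 : a ≤ L) :
    ev2 L a iC ≤ ∫ b in L..((1 - a) / 2), ff L a b := by
  rw [iC, ev_I3, ev_eH, ev_x]
  exact piece _ ha h1 (by linarith) le_rfl fun b hb => fC hL ha h1 hb.1 (by linarith [hb.2])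

theorem in1 (hL : L ≤ 31 / 100) (ha : 0 < a) (h1 : a ≤ L / 2) : ev2 L a i1 ≤ inn L a := by
  rw [i1, (hom2 L a).add, (hom2 L a).add, ev_I3, ev_I3, inn,
    ← integral_add_adjacent_intervals (b := L) (ff_int ha le_rfl (by linarith) (by linarith))
      (ff_int ha (by linarith) (by linarith) le_rfl),
    ← integral_add_adjacent_intervals (a := a) (b := L - a) (c := L)
      (ff_int ha le_rfl (by linarith) (by linarith))
      (ff_int ha (by linarith) (by linarith) (by linarith))]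
  simp only [ev_sub, ev_x, ev_y]
  exact add_le_add (add_le_add
    (piece _ ha le_rfl (by linarith) (by linarith) fun b hb =>
      fA hL ha (by linarith [hb.1]) (by linarith [hb.2]))
    (piece _ ha (by linarith) (by linarith) (by linarith) fun b hb =>
      fB hL ha (by linarith [hb.1]) (by linarith) hb.2 (by linarith [hb.1])))
    (inC hL ha (by linarith))

theorem in2 (hL : L ≤ 31 / 100) (ha : 0 < a) (h1 : L / 2 ≤ a) (h2 : a ≤ L) :
    ev2 L a i2 ≤ inn L a := by
  rw [i2, (hom2 L a).add, ev_I3, inn,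
    ← integral_add_adjacent_intervals (b := L) (ff_int ha le_rfl (by linarith) (by linarith))
      (ff_int ha (by linarith) (by linarith) le_rfl)]
  simp only [ev_x, ev_y]
  exact add_le_add
    (piece _ ha le_rfl h2 (by linarith) fun b hb =>
      fB hL ha (by linarith [hb.1]) h2 hb.2 (by linarith [hb.1]))
    (inC hL ha h2)

theorem in3 (h0 : 0 < L) (hL : L ≤ 31 / 100) (h1 : L ≤ a) (h2 : a ≤ 322 / 1000) :
    ev2 L a i3 ≤ inn L a := by
  rw [i3, ev_I3, ev_eH, ev_y]
  exact piece _ (by linarith) le_rfl (by linarith) le_rfl fun b hb => fD h0 hL h1 hb.1 hb.2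

theorem inn_cont (hη : 0 < η) : ContinuousOn (inn L) (Set.Icc η (322 / 1000)) := by
  let g : ℝ → ℝ → ℝ := fun a b => (GG L - GG (L - a) - GG (L - b) + GG (L - a - b)) ^ 2 /
    (max a η * max b η * max (1 - a - b) (1 / 4))
  have hg : Continuous (Function.uncurry g) := by
    refine Continuous.div (by fun_prop) (by fun_prop) fun x => ?_
    have h1 : 0 < max x.1 η := lt_max_of_lt_right hη
    have h2 : 0 < max x.2 η := lt_max_of_lt_right hη
    have h3 : 0 < max (1 - x.1 - x.2) (1 / 4) := lt_max_of_lt_right (by norm_num)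
    positivity
  have h1 : Continuous fun a => (∫ b in (0 : ℝ)..((1 - a) / 2), g a b) - ∫ b in (0 : ℝ)..a, g a b :=
    (continuous_parametric_intervalIntegral_of_continuous hg (by fun_prop)).sub
      (continuous_parametric_intervalIntegral_of_continuous hg continuous_id)
  refine h1.continuousOn.congr fun a ha => ?_
  have h2 : Continuous (g a) := hg.uncurry_left a
  simp only
  rw [integral_interval_sub_left (h2.intervalIntegrable _ _) (h2.intervalIntegrable _ _)]
  refine integral_congr fun b hb => ?_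
  rw [Set.uIcc_of_le (by linarith [ha.2])] at hb
  simp only [g, ff]
  rw [max_eq_left ha.1, max_eq_left (ha.1.trans hb.1), max_eq_left (by linarith [ha.2, hb.2])]

theorem ev2_int (p : List (List ℚ)) (u v : ℝ) :
    IntervalIntegrable (fun a => ev2 L a p) volume u v :=
  (cont_ev2 continuous_const continuous_id p).intervalIntegrable _ _

theorem E3_ge (hL : L ≤ 31 / 100) (hη : 0 < η) (h : η ≤ L / 2) :
    ev1 L M3 - ∫ a in (0 : ℝ)..η, ev2 L a i1 ≤ E3 η L := by
  have hi : ∀ u v : ℝ, η ≤ u → u ≤ v → v ≤ 322 / 1000 → IntervalIntegrable (inn L) volume u v :=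
    fun u v h1 h2 h3 => ContinuousOn.intervalIntegrable_of_Icc h2
      ((inn_cont hη).mono (Set.Icc_subset_Icc h1 h3))
  have h1 : E3 η L = ∫ a in η..(322 / 1000), inn L a := rfl
  have h2 := integral_mono_on h (ev2_int i1 _ _) (hi _ _ le_rfl h (by linarith))
    fun a ha => in1 hL (hη.trans_le ha.1) ha.2
  have h3 := integral_mono_on (show L / 2 ≤ L by linarith) (ev2_int i2 _ _)
    (hi _ _ h (by linarith) (by linarith)) fun a ha => in2 hL (by linarith [ha.1]) ha.1 ha.2
  have h4 := integral_mono_on (show L ≤ 322 / 1000 by linarith) (ev2_int i3 _ _)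
    (hi _ _ (by linarith) (by linarith) le_rfl) fun a ha => in3 (by linarith) hL ha.1 ha.2
  have h5 := integral_add_adjacent_intervals (ev2_int (L := L) i1 0 η) (ev2_int i1 η (L / 2))
  rw [h1, ← integral_add_adjacent_intervals (hi η L le_rfl (by linarith) (by linarith))
    (hi L _ (by linarith) (by linarith) le_rfl),
    ← integral_add_adjacent_intervals (hi η (L / 2) le_rfl h (by linarith))
    (hi _ L h (by linarith) (by linarith)), M3, (hom1 L).add, (hom1 L).add, ev_I2, ev_I2, ev_I2]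
  simp only [ev_mul, ev_c, ev_x]
  push_cast
  rw [show 1 / 2 * L = L / 2 by ring]
  linarith

theorem E2_ge (hL : L ≤ 31 / 100) (hη : 0 < η) (h : η ≤ L) :
    ev1 L M2 - ∫ a in (0 : ℝ)..η, ev2 L a (p2 m1) ≤ E2 η L := by
  have hi : ∀ u v : ℝ, η ≤ u → u ≤ v → v ≤ 1 / 2 →
      IntervalIntegrable (fun a => (GG L - GG (L - a)) ^ 2 / (a * (1 - a))) volume u v :=
    fun u v h1 h2 h3 => ContinuousOn.intervalIntegrable_of_Icc h2
      (ContinuousOn.div (by fun_prop) (by fun_prop) fun x hx => by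
        have h4 : 0 < x := by linarith [hx.1]
        have h5 : 0 < 1 - x := by linarith [hx.2]
        positivity)
  have h2 := integral_mono_on h (ev2_int (L := L) (p2 m1) _ _) (hi _ _ le_rfl h (by linarith))
    fun a ha => by
      have h0 : 0 < a := hη.trans_le ha.1
      have h4 : 0 < 1 - a := by linarith [ha.2]
      have h3 : (a * Dd L a) ^ 2 / (a * (1 - a)) = a * (Dd L a * Dd L a) * (1 - a)⁻¹ := by
        field_simp
      simp only [ev_p2, m1, ev_mul, ev_y, ev_eD, ev_eS]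
      rw [dif hL h0 ha.2, h3]
      exact mul_le_mul_of_nonneg_left (Ss_le (by linarith))
        (mul_nonneg h0.le (mul_self_nonneg _))
  have h4 := integral_mono_on (show L ≤ 1 / 2 by linarith) (ev2_int (L := L) (p2 m2) _ _)
    (hi _ _ h (by linarith) le_rfl) fun a ha => by
      have h0 : 0 < a := by linarith [ha.1]
      have h4 : 0 < 1 - a := by linarith [ha.2]
      have h3 : (Gt L - 0) ^ 2 / (a * (1 - a)) = Gt L * Gt L * (a⁻¹ * (1 - a)⁻¹) := by
        field_simp; ring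
      simp only [ev_p2, m2, ev_mul, ev_x, ev_y, ev_eG, ev_eS, ev_eR]
      rw [GG_pos (by linarith) (by linarith), GG_neg (by linarith [ha.1]), h3]
      exact mul_le_mul_of_nonneg_left (mul_le_mul (Rr_le h0) (Ss_le (by linarith))
        (Ss_nonneg h0.le) (by positivity)) (mul_self_nonneg _)
  have h5 := integral_add_adjacent_intervals (ev2_int (L := L) (p2 m1) 0 η)
    (ev2_int (p2 m1) η L)
  rw [E2, ← integral_add_adjacent_intervals (hi η L le_rfl h (by linarith))
    (hi L _ h (by linarith) le_rfl), M2, (hom1 L).add, ev_I2, ev_I2]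
  simp only [ev_c, ev_x]
  push_cast
  linarith

noncomputable def Phi (η L : ℝ) : ℝ := eA.ev L 0 0 - (1 - 5 * η) *
  (ev1 L M2 - (∫ a in (0 : ℝ)..η, ev2 L a (p2 m1)) + (ev1 L M3 - ∫ a in (0 : ℝ)..η, ev2 L a i1))

theorem cost_le (hL : L ∈ Set.Icc (61 / 1000 : ℝ) (31 / 100)) (hη : 0 < η) (h : η ≤ 1 / 100) :
    cost2 η L ≤ Phi η L :=
  sub_le_sub (partA (by linarith [hL.1]) hL.2 hη.le) (mul_le_mul_of_nonneg_left
    (add_le_add (E2_ge hL.2 hη (by linarith [hL.1])) (E3_ge hL.2 hη (by linarith [hL.1])))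
    (by linarith))

theorem Phi_zero (L : ℝ) : Phi 0 L = ev1 L qP := by
  simp only [Phi, qP, (hom1 L).add, (hom1 L).mul, (hom1 L).cst, ev_p1, integral_same]
  push_cast; ring

theorem Phi_cont : Continuous fun z : ℝ × ℝ => Phi z.1 z.2 := by
  have h1 : ∀ p, Continuous fun z : ℝ × ℝ => ∫ a in (0 : ℝ)..z.1, ev2 z.2 a p := fun p =>
    continuous_parametric_intervalIntegral_of_continuous (f := fun (z : ℝ × ℝ) a => ev2 z.2 a p)
      (cont_ev2 (u := fun s : (ℝ × ℝ) × ℝ => s.1.2) (v := fun s => s.2) (by fun_prop)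
        (by fun_prop) p) continuous_fst
  exact (cont_ev continuous_snd continuous_const continuous_const eA).sub
    (Continuous.mul (by fun_prop) (((cont_ev1 continuous_snd _).sub (h1 _)).add
      ((cont_ev1 continuous_snd _).sub (h1 _))))

theorem lay_eq (s t a b : ℚ) {s' t' : ℝ} {g : ℝ → ℝ} (hs : s' = s) (ht : t' = t) (h1 : 0 ≤ s')
    (h2 : s' ≤ t') (h3 : t' ≤ 31 / 100)
    (hg : ∀ σ, g σ = (a * nn (31 / 100 - σ) + b * ev1 (31 / 100 - σ) qP) * (σ ^ 2 / 2)) :
    ∫ σ in s'..t', g σ = lay (comp qP [31 / 100, -1]) s t a b := by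
  rw [lay, hom0.lint, ← hs, ← ht]
  refine integral_congr fun σ hσ => ?_
  rw [Set.uIcc_of_le h2] at hσ
  have h4 : ev1 σ [31 / 100, -1] = 31 / 100 - σ := by simp [ev1]; ring
  have h5 : ev1 σ [0, 0, 1 / 2] = σ ^ 2 / 2 := by simp [ev1]; ring
  have h6 : ∀ L, eN.ev L 0 0 = Nn L := fun L => by
    simp only [eN, ev_mul, ev_add, ev_c, ev_x, Nn]; push_cast; ring
  change g σ = ev1 σ _
  rw [hg, nn_eq (by linarith [hσ.2]) (by linarith [hσ.1])]
  simp only [(hom1 σ).add, (hom1 σ).mul, (hom1 σ).cst, ev_comp, h4, h5, ev_p1, h6]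

theorem rhs_eq : ∫ s in (0 : ℝ)..1, Pz (31 / 100 - s) ^ 2 * (s ^ 3 / 6) = (rhs : ℝ) := by
  have h1 : ∫ s in (31 / 100 : ℝ)..1, Pz (31 / 100 - s) ^ 2 * (s ^ 3 / 6) = 0 := by
    rw [integral_congr (g := fun _ => 0) fun x hx => ?_]
    · simp
    · rw [Set.uIcc_of_le (by norm_num)] at hx
      simp [Pz_neg (sub_nonpos.2 hx.1)]
  rw [← integral_add_adjacent_intervals (a := 0) (b := 31 / 100) (c := 1)
    (Continuous.intervalIntegrable (by fun_prop) _ _)
    (Continuous.intervalIntegrable (by fun_prop) _ _), h1, rhs, hom0.lint, add_zero]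
  push_cast
  refine integral_congr fun s hs => ?_
  rw [Set.uIcc_of_le (by norm_num)] at hs
  change _ = ev1 s _
  rw [ev_p1, Pz_pos (by linarith [hs.2]) (by linarith [hs.1])]
  simp only [ev_mul, ev_add, ev_sub, ev_c, ev_x]
  push_cast; ring

end Nm5

open Nm5

theorem numerics2 : ∃ qc : ℝ → ℝ, Continuous qc ∧
    (∀ t : ℝ, 0 < t → ∀ᶠ η in 𝓝[>] (0 : ℝ), ∀ L ∈ Set.Icc (61 / 1000 : ℝ) (31 / 100),
      cost2 η L ≤ qc L + t) ∧
    4 * ((∫ σ in (0 : ℝ)..(189 / 1000), qc (31 / 100 - σ) * (σ ^ 2 / 2)) +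
      (∫ σ in (189 / 1000 : ℝ)..(210 / 1000),
        (11 / 625 * nn (31 / 100 - σ) + 3168 / 3125 * qc (31 / 100 - σ)) * (σ ^ 2 / 2)) +
      (∫ σ in (210 / 1000 : ℝ)..(231 / 1000),
        (11 / 100 * nn (31 / 100 - σ) + 176 / 175 * qc (31 / 100 - σ)) * (σ ^ 2 / 2)) +
      (∫ σ in (231 / 1000 : ℝ)..(249 / 1000),
        (5 / 9 * nn (31 / 100 - σ) + 5 / 9 * qc (31 / 100 - σ)) * (σ ^ 2 / 2)) +
      (∫ σ in (249 / 1000 : ℝ)..(268 / 1000), 5 / 4 * nn (31 / 100 - σ) * (σ ^ 2 / 2)) +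
      (∫ σ in (268 / 1000 : ℝ)..(289 / 1000), 11 / 4 * nn (31 / 100 - σ) * (σ ^ 2 / 2)) +
      ∫ σ in (289 / 1000 : ℝ)..(310 / 1000), 11 * nn (31 / 100 - σ) * (σ ^ 2 / 2)) <
    ∫ s in (0 : ℝ)..1, Pz (31 / 100 - s) ^ 2 * (s ^ 3 / 6) := by
  refine ⟨fun L => ev1 L qP, cont_ev1 continuous_id _, fun t ht => ?_, ?_⟩
  · have h1 : ∀ᶠ η in 𝓝 (0 : ℝ), ∀ L ∈ Set.Icc (61 / 1000 : ℝ) (31 / 100),
        Phi η L < Phi 0 L + t :=
      isCompact_Icc.eventually_forall_of_forall_eventually fun L _ =>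
        Phi_cont.continuousAt.eventually_lt
          ((Phi_cont.comp (f := fun z : ℝ × ℝ => (0, z.2)) (by fun_prop)).add
            continuous_const).continuousAt (by simpa using ht)
    filter_upwards [nhdsWithin_le_nhds h1, Ioc_mem_nhdsGT (show (0 : ℝ) < 1 / 100 by norm_num)]
      with η h2 h3 L hL
    rw [← Phi_zero]
    exact (cost_le hL h3.1 h3.2).trans (h2 L hL).le
  · rw [rhs_eq,
      lay_eq 0 (189 / 1000) 0 1 (by norm_num) (by norm_num) (by norm_num) (by norm_num)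
        (by norm_num) fun σ => by push_cast; ring,
      lay_eq (189 / 1000) (210 / 1000) (11 / 625) (3168 / 3125) (by norm_num) (by norm_num)
        (by norm_num) (by norm_num) (by norm_num) fun σ => by push_cast; ring,
      lay_eq (210 / 1000) (231 / 1000) (11 / 100) (176 / 175) (by norm_num) (by norm_num)
        (by norm_num) (by norm_num) (by norm_num) fun σ => by push_cast; ring,
      lay_eq (231 / 1000) (249 / 1000) (5 / 9) (5 / 9) (by norm_num) (by norm_num)
        (by norm_num) (by norm_num) (by norm_num) fun σ => by push_cast; ring,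
      lay_eq (249 / 1000) (268 / 1000) (5 / 4) 0 (by norm_num) (by norm_num)
        (by norm_num) (by norm_num) (by norm_num) fun σ => by push_cast; ring,
      lay_eq (268 / 1000) (289 / 1000) (11 / 4) 0 (by norm_num) (by norm_num)
        (by norm_num) (by norm_num) (by norm_num) fun σ => by push_cast; ring,
      lay_eq (289 / 1000) (310 / 1000) 11 0 (by norm_num) (by norm_num)
        (by norm_num) (by norm_num) (by norm_num) fun σ => by push_cast; ring]
    have h := (Rat.cast_lt (K := ℝ)).2 key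
    rw [tot] at h
    push_cast at h
    exact h

end Pool.Agent.Lib.MP_fc51f7_nt
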