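import Pool.Agent.Lib.MP_fc51f7_nt.Q1
import Pool.Agent.Lib.MP_fc51f7_nt.Bad
import Pool.Agent.Lib.MP_fc51f7_nt.Main
import Pool.Agent.Lib.MP_fc51f7_nt.Num2

-- part Pool.Agent.Lib.MP_fc51f7_nt.Q2
section

/-! The pointwise majorant of the indicator of at least four prime factors. -/

set_option autoImplicit false

namespace Pool.Agent.Lib.MP_fc51f7_nt.P3

open Finset Filter Topology

theorem psi_mem' {x m : ℕ} (h1 : Real.log m / Real.log x ≤ 662 / 1000) :
    0 ≤ psi x m ∧ psi x m ≤ 3 := by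
  unfold psi
  split_ifs
  · exact ⟨inv_nonneg.2 (by linarith), by rw [inv_le_comm₀ (by linarith) (by norm_num)]; linarith⟩
  · norm_num

theorem phi_close {η : ℝ} (hη : 0 < η) (hη' : η ≤ 1 / 1000) {x m : ℕ} (hx : 1 < x)
    (h2 : Real.log 2 ≤ η * Real.log x) (hm : m ∈ Ioc x (2 * x)) : ∃ φ : ℝ, 0 ≤ φ ∧ φ ≤ 1 ∧
    (4 ≤ ArithmeticFunction.cardFactors m → φ = 1) ∧ |phi η x m - φ| ≤ 4 * err η x m := by
  classical
  have hl : 0 < Real.log x := Real.log_pos (by exact_mod_cast hx)
  have hx0 : 0 < x := by omega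
  have hx' : (0 : ℝ) < x := by positivity
  have hm0 : 0 < m := by have := (mem_Ioc.1 hm).1; omega
  obtain ⟨c1, c2⟩ := log_mem hx h2 hm
  have c3 := sum_u_le hx h2 hm
  set u : ℕ → ℝ := fun p => Real.log p / Real.log x with hu
  have hu0 : ∀ p, 0 ≤ u p := fun p => div_nonneg (Real.log_natCast_nonneg _) hl.le
  set s := m.primeFactors.filter fun p => η < u p ∧ u p ≤ 339 / 1000 with hs
  set l := m.primeFactors.filter fun p => 339 / 1000 < u p with hl'
  set A := m.primeFactors.filter fun p => rough η x (m / p) ∧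
    p ∈ Ioc (lo η x (box η (m / p))) (hi η x (box η (m / p))) with hA
  have e0 : phi η x m = ∑ p ∈ s, u p + ∑ p ∈ A, u p * (1 - psi x (m / p)) := rfl
  have hd : Disjoint s l := disjoint_left.2 fun p h h' =>
    absurd (mem_filter.1 h').2 (not_lt.2 (mem_filter.1 h).2.2)
  have hsub : s ∪ l ⊆ m.primeFactors := union_subset (filter_subset _ _) (filter_subset _ _)
  have hq : ∀ p ∈ m.primeFactors, 0 < m / p ∧ (m : ℝ) = p * (m / p : ℕ) ∧
      Real.log m / Real.log x = u p + u (m / p) := fun p a1 => by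
    have hp := Nat.prime_of_mem_primeFactors a1
    have hd := Nat.dvd_of_mem_primeFactors a1
    have a0 := Nat.div_pos (Nat.le_of_dvd hm0 hd) hp.pos
    have hp' : (0 : ℝ) < p := by exact_mod_cast hp.pos
    have em : (m : ℝ) = p * (m / p : ℕ) := by exact_mod_cast (Nat.mul_div_cancel' hd).symm
    exact ⟨a0, em, by rw [em, Real.log_mul hp'.ne' (by positivity), add_div]⟩
  have hψ : ∀ p ∈ l, 0 ≤ psi x (m / p) ∧ psi x (m / p) ≤ 3 := fun p hp => psi_mem' (by
    have := (hq p (mem_filter.1 hp).1).2.2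
    have := (mem_filter.1 hp).2
    change u (m / p) ≤ _; linarith)
  have hAl : A ⊆ l := fun p hp => mem_filter.2 ⟨(mem_filter.1 hp).1, by
    rw [lt_div_iff₀ hl, ← Real.log_rpow hx']
    exact Real.log_lt_log (by positivity)
      (box_mem hη (hq p (mem_filter.1 hp).1).1 (mem_filter.1 hp).2.2).1⟩
  have n1 : 0 ≤ ∑ p ∈ m.primeFactors with u p ≤ η, (1 : ℝ) := by positivity
  have n2 : 0 ≤ if ∃ p : ℕ, p.Prime ∧ η < u p ∧ p ^ 2 ∣ m then (1 : ℝ) else 0 := by positivity
  have n3 : 0 ≤ if m ≤ ⌊x * Real.exp η⌋₊ then (1 : ℝ) else 0 := by positivity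
  have n4 : 0 ≤ if ⌊2 * x * Real.exp (-η)⌋₊ < m then (1 : ℝ) else 0 := by positivity
  have n5 : 2 * η ≤ err η x m := by unfold err; linarith
  have s0 : 0 ≤ ∑ p ∈ s, u p := sum_nonneg fun p _ => hu0 p
  have s1 : ∑ p ∈ s, u p + ∑ p ∈ l, u p ≤ 1 + η := by
    rw [← sum_union hd]
    exact (sum_le_sum_of_subset_of_nonneg hsub fun p _ _ => hu0 p).trans c3
  by_cases h3 : 1 ≤ err η x m
  · refine ⟨1, zero_le_one, le_rfl, fun _ => rfl, ?_⟩
    have a1 : |∑ p ∈ A, u p * (1 - psi x (m / p))| ≤ 2 * ∑ p ∈ l, u p := by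
      rw [mul_sum]
      refine (abs_sum_le_sum_abs _ _).trans ((sum_le_sum fun p hp => ?_).trans
        (sum_le_sum_of_subset_of_nonneg hAl fun p _ _ => by linarith [hu0 p]))
      obtain ⟨b1, b2⟩ := hψ p (hAl hp)
      rw [abs_mul, abs_of_nonneg (hu0 p), mul_comm]
      exact mul_le_mul_of_nonneg_right (abs_le.2 ⟨by linarith, by linarith⟩) (hu0 p)
    rw [e0, abs_le] at *
    constructor <;> linarith [a1.1, a1.2]
  suffices h : -(3 * η) ≤ phi η x m ∧ phi η x m ≤ 1 + η ∧
      (4 ≤ ArithmeticFunction.cardFactors m → 1 ≤ phi η x m) by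
    refine ⟨max 0 (min (phi η x m) 1), le_max_left _ _, max_le zero_le_one (min_le_right _ _),
      fun h4 => by rw [min_eq_right (h.2.2 h4), max_eq_right zero_le_one], ?_⟩
    rw [abs_le, max_def, min_def]
    split_ifs <;> constructor <;> linarith [h.1, h.2.1]
  have a1 : ∀ p ∈ m.primeFactors, η < u p := fun p hp => by
    by_contra h5
    have := single_le_sum (f := fun _ => (1 : ℝ)) (fun _ _ => zero_le_one) (mem_filter.2
      ⟨hp, not_lt.1 h5⟩ : p ∈ m.primeFactors.filter fun p => u p ≤ η)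
    exact h3 (by unfold err; linarith)
  have a1' : ∀ p ∈ m.primeFactors, (x : ℝ) ^ η < p := fun p hp => by
    rw [rpow_eq_exp hx0, ← Real.lt_log_iff_exp_lt
      (by exact_mod_cast (Nat.prime_of_mem_primeFactors hp).pos)]
    exact (lt_div_iff₀ hl).1 (a1 p hp)
  by_cases hpr : m.Prime
  · have b1 : s = ∅ := filter_eq_empty_iff.2 fun p hp h => by
      rw [hpr.primeFactors, mem_singleton] at hp
      subst hp; linarith [h.2]
    have b2 : A = ∅ := filter_eq_empty_iff.2 fun p hp h => by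
      rw [hpr.primeFactors, mem_singleton] at hp
      subst hp
      have := h.1.1
      rw [Nat.div_self hm0, Nat.cast_one] at this
      exact absurd this (not_le.2 (Real.one_lt_rpow (by exact_mod_cast hx) hη))
    rw [e0, b1, b2, ArithmeticFunction.cardFactors_apply_prime hpr]
    simp only [sum_empty, add_zero]
    exact ⟨by linarith, by linarith, by omega⟩
  have a2 : Squarefree m := Nat.squarefree_iff_prime_squarefree.2 fun p hp hd => by
    have : (if ∃ p : ℕ, p.Prime ∧ η < u p ∧ p ^ 2 ∣ m then (1 : ℝ) else 0) = 1 :=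
      if_pos ⟨p, hp, a1 p (Nat.mem_primeFactors.2
        ⟨hp, (dvd_mul_right p p).trans hd, hm0.ne'⟩), by rwa [sq]⟩
    exact h3 (by unfold err; linarith)
  have a3 : s ∪ l = m.primeFactors := hsub.antisymm fun p hp => mem_union.2 <|
    (le_or_gt (u p) (339 / 1000)).imp (fun h => mem_filter.2 ⟨hp, a1 p hp, h⟩)
      fun h => mem_filter.2 ⟨hp, h⟩
  have a4 : ∑ p ∈ s, u p + ∑ p ∈ l, u p = Real.log m / Real.log x := by
    rw [← sum_union hd, a3, ← sum_div, ← Real.log_prod fun p hp => by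
      exact_mod_cast (Nat.prime_of_mem_primeFactors hp).ne_zero, ← Nat.cast_prod,
      Nat.prod_primeFactors_of_squarefree a2]
  have a5 : A = l := hAl.antisymm fun p hp => by
    obtain ⟨b1, b2⟩ := mem_filter.1 hp
    obtain ⟨a0, em, -⟩ := hq p b1
    have hp := Nat.prime_of_mem_primeFactors b1
    have hd := Nat.dvd_of_mem_primeFactors b1
    have hp' : (0 : ℝ) < p := by exact_mod_cast hp.pos
    have a0' : (0 : ℝ) < (m / p : ℕ) := by positivity
    have hsub' := Nat.primeFactors_mono (Nat.div_dvd_of_dvd hd) hm0.ne'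
    refine mem_filter.2 ⟨b1, ⟨?_, fun r hr => a1' r (hsub' hr)⟩, mem_Ioc.2 ⟨?_, ?_⟩⟩
    · obtain ⟨r, hr, h⟩ := Nat.exists_prime_and_dvd (n := m / p) fun h =>
        hpr (by rw [← Nat.mul_div_cancel' hd, h, mul_one]; exact hp)
      exact (a1' r (hsub' (Nat.mem_primeFactors.2 ⟨hr, h, a0.ne'⟩))).le.trans
        (by exact_mod_cast Nat.le_of_dvd a0 h)
    · refine (Nat.floor_lt (by positivity)).2 (max_lt ?_ ?_)
      · rw [rpow_eq_exp hx0, ← Real.lt_log_iff_exp_lt hp']
        exact (lt_div_iff₀ hl).1 b2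
      · by_contra h5
        have b1 := (box_spec hη a0).2
        have b2 : m ≤ ⌊x * Real.exp η⌋₊ := by
          refine Nat.le_floor ?_
          rw [add_mul, one_mul, neg_add, Real.exp_add, Real.exp_neg η, ← div_eq_mul_inv,
            div_lt_iff₀ (Real.exp_pos _), inv_mul_eq_div, lt_div_iff₀ a0'] at b1
          rw [em]
          nlinarith [not_lt.1 h5]
        exact h3 (by unfold err; rw [if_pos b2]; linarith)
    · refine Nat.le_floor ?_
      by_contra h5
      have b1 := (box_spec hη a0).1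
      have b2 : ⌊2 * x * Real.exp (-η)⌋₊ < m := by
        refine (Nat.floor_lt (by positivity)).2 ?_
        rw [add_mul, one_mul, neg_add, Real.exp_add] at h5
        rw [inv_le_iff_one_le_mul₀ a0'] at b1
        rw [em]
        have := mul_lt_mul_of_pos_right (not_le.1 h5) a0'
        have := mul_le_mul_of_nonneg_left b1 (show 0 ≤ 2 * x * Real.exp (-η) by positivity)
        nlinarith
      exact h3 (by unfold err; rw [if_pos b2]; linarith)
  have a6 : phi η x m = Real.log m / Real.log x - ∑ p ∈ l, u p * psi x (m / p) := by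
    rw [e0, a5, ← a4]; simp only [mul_sub, mul_one, sum_sub_distrib]; ring
  have a7 : 0 ≤ ∑ p ∈ l, u p * psi x (m / p) := sum_nonneg fun p hp => mul_nonneg (hu0 p) (hψ p hp).1
  have a8 : ∀ p ∈ l, ∀ r ∈ l, r ≠ p → psi x (m / p) ≠ 0 → r < p := fun p hp r hr h h' => by
    have b1 := (mem_filter.1 hp).1
    have b2 := (mem_filter.1 hr).1
    have b3 := Nat.mul_div_cancel' (Nat.dvd_of_mem_primeFactors b1)
    have b4 := (not_not.1 fun h => h' (if_neg h)).2 r (Nat.mem_primeFactors.2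
      ⟨Nat.prime_of_mem_primeFactors b2, ((Nat.coprime_primes (Nat.prime_of_mem_primeFactors b2)
        (Nat.prime_of_mem_primeFactors b1)).2 h).dvd_of_dvd_mul_left
          (b3.symm ▸ Nat.dvd_of_mem_primeFactors b2), (hq p b1).1.ne'⟩)
    exact lt_of_mul_lt_mul_right (b4.trans_lt (b3.symm ▸ (mem_Ioc.1 hm).1)) (Nat.zero_le _)
  refine ⟨?_, by linarith, fun h => ?_⟩
  · by_cases h : ∃ p ∈ l, psi x (m / p) ≠ 0
    · obtain ⟨p, hp, h⟩ := h
      rw [a6, sum_eq_single_of_mem p hp fun r hr h' => mul_eq_zero_of_right _ (not_not.1 fun h'' =>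
        lt_asymm (a8 p hp r hr h' h) (a8 r hr p hp h'.symm h''))]
      have b1 := (hq p (mem_filter.1 hp).1).2.2
      have b2 := (mem_filter.1 hp).2
      have b3 : psi x (m / p) = (1 - u (m / p))⁻¹ := if_pos (not_not.1 fun h' => h (if_neg h'))
      have b4 : u p * (1 - u (m / p))⁻¹ ≤ 1 + 3 * η := by
        rw [mul_inv_le_iff₀ (by linarith)]; nlinarith
      rw [b3]; linarith
    · push Not at h
      rw [a6, sum_eq_zero fun p hp => by rw [h p hp, mul_zero]]; linarith
  · have key : ∀ p ∈ l, u p * psi x (m / p) = 0 := ?_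
    · rw [a6, sum_eq_zero key, sub_zero]; exact c1
    refine fun p hp => mul_eq_zero_of_right _ (if_neg fun h' => ?_)
    have b1 := (mem_filter.1 hp).1
    rw [← Nat.mul_div_cancel' (Nat.dvd_of_mem_primeFactors b1), ArithmeticFunction.cardFactors_mul
      (Nat.prime_of_mem_primeFactors b1).ne_zero (hq p b1).1.ne',
      ArithmeticFunction.cardFactors_apply_prime (Nat.prime_of_mem_primeFactors b1)] at h
    omega

theorem psd_step (K : Finset ℕ) (N N' : ℕ → ℕ → ℝ) (z : ℕ → ℝ) {C E b φ φ' : ℝ}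
    (hN : 0 ≤ ∑ k ∈ K, ∑ k' ∈ K, N k k' * (z k * z k'))
    (hN' : 0 ≤ ∑ k ∈ K, ∑ k' ∈ K, N' k k' * (z k * z k'))
    (hC : ∀ k k', |1 + N' k k' - N k k'| ≤ C) (h0 : 0 ≤ φ) (h1 : φ ≤ 1) (hb : b ≤ φ)
    (hE : |φ' - φ| ≤ E) : b * (∑ k ∈ K, z k) ^ 2 ≤
      ∑ k ∈ K, ∑ k' ∈ K, (N k k' + (1 + N' k k' - N k k') * φ') * (z k * z k') +
        C * E * K.card * ∑ k ∈ K, z k ^ 2 := by
  have e1 : φ * (∑ k ∈ K, z k) ^ 2 + (1 - φ) * ∑ k ∈ K, ∑ k' ∈ K, N k k' * (z k * z k') +
      φ * ∑ k ∈ K, ∑ k' ∈ K, N' k k' * (z k * z k') =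
      ∑ k ∈ K, ∑ k' ∈ K, (N k k' + (1 + N' k k' - N k k') * φ) * (z k * z k') := by
    rw [sq, sum_mul_sum]
    simp only [mul_sum, ← sum_add_distrib]
    exact sum_congr rfl fun _ _ => sum_congr rfl fun _ _ => by ring
  have e2 : C * E * K.card * ∑ k ∈ K, z k ^ 2 =
      ∑ k ∈ K, ∑ k' ∈ K, C * E * ((z k ^ 2 + z k' ^ 2) / 2) := by
    simp only [← mul_sum, ← sum_div, sum_add_distrib, sum_const, nsmul_eq_mul]; ring
  have h2 := mul_le_mul_of_nonneg_right hb (sq_nonneg (∑ k ∈ K, z k))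
  refine le_trans (by nlinarith [mul_nonneg h0 hN', mul_nonneg (sub_nonneg.2 h1) hN]) (e1.le.trans ?_)
  rw [e2, ← sum_add_distrib]
  refine sum_le_sum fun k _ => ?_
  rw [← sum_add_distrib]
  refine sum_le_sum fun k' _ => ?_
  have a2 : |z k * z k'| ≤ (z k ^ 2 + z k' ^ 2) / 2 := abs_le.2
    ⟨by nlinarith [sq_nonneg (z k + z k')], by nlinarith [sq_nonneg (z k - z k')]⟩
  have a3 : |(1 + N' k k' - N k k') * (φ' - φ) * (z k * z k')| ≤
      C * E * ((z k ^ 2 + z k' ^ 2) / 2) := by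
    have := (abs_nonneg _).trans (hC k k')
    have := (abs_nonneg _).trans hE
    rw [abs_mul, abs_mul]; gcongr; exact hC k k'
  linarith [(abs_le.1 a3).1]

theorem bad {D : ℕ} (hD : 16 ≤ D) {g : Fin 3 → ℤ} (hg : Function.Injective g)
    (hg8 : ∀ j, g j ≠ 0 ∧ |g j| ≤ 8) {a : ℕ} (ha : Nat.Coprime a (primorial D)) (δ : ℝ) (k : ℕ)
    {η ε : ℝ} (hη : 0 < η) (hη' : η ≤ 1 / 1000) (hε : 0 < ε) : ∀ᶠ x : ℕ in atTop,
    ∑ m ∈ Ioc x (2 * x) with m ≡ a [MOD primorial D], err η x m * ZZ D x g δ k m ^ 2 ≤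
      x / primorial D * BB D x ^ 4 * (57 * η * (3 + eD D) + 32 * ε) := by
  classical
  filter_upwards [TU hD (κ := Option (Fin 3)) (by simp) (og_inj hg hg8).1 (og_inj hg hg8).2
    (j0 := none) rfl a, Meas.L_pos, small_pow D (show (6605 / 10000 : ℝ) < 1 by norm_num) hε,
    small_pow D (show (6615 / 10000 : ℝ) < 1 by norm_num) hε,
    small_pow D (show 1 - η / 2 < 1 by linarith) hε, count_sq hη, sum_primeFactors D, pi_bdd D,
    crude D (og_inj hg hg8).2 (show 0 < η / 64 by positivity), eventually_gt_atTop 0,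
    tendsto_natCast_atTop_atTop.eventually_ge_atTop (1 / η)]
    with x h hl s1 s2 s3 h1 h2 h3 h4 hx h5
  have hx' : (0 : ℝ) < x := by positivity
  have hW : (0 : ℝ) < primorial D := by exact_mod_cast primorial_pos D
  have hB := Meas.BB_nonneg D x
  have he := eD_nonneg D
  set M := (3 + eD D) * BB D x ^ 4 with hM
  have hM0 : 0 ≤ M := by positivity
  have hI : ∀ N1 N2 : ℕ, N1 ≤ N2 → ∀ c : ℝ, (N2 : ℝ) - N1 ≤ c * x →
      ∑ m ∈ Ioc N1 N2 with m ≡ a [MOD primorial D], ZZ D x g δ k m ^ 2 ≤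
        c * (x / primorial D * M) + x / primorial D * BB D x ^ 4 * ε := by
    intro N1 N2 hN c hc
    have := h ∅ N1 N2 (tens (yk D x δ k) (cell D x δ k)) 1 (by simp) hN one_pos
      (abs_tens fun T => abs_fL _ _) fun T hT => ⟨by simp, tens_supp hl (fun _ => yk_lt hl) hT⟩
    simp only [SS_tens, notMem_empty, IsEmpty.forall_iff, implies_true, and_true,
      prod_empty, mul_one, Fintype.card_option, Fintype.card_fin, one_pow, one_mul] at this
    refine this.trans (add_le_add ?_ s1)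
    rw [← mul_assoc c, ← mul_div_assoc]
    exact mul_le_mul_of_nonneg_right (div_le_div_of_nonneg_right hc hW.le) hM0
  set u : ℕ → ℝ := fun p => Real.log p / Real.log x with hu
  set s : Finset (PP D x) := univ.filter fun i => u (qq D x i) ≤ η
  have b1 : ∑ m ∈ Ioc x (2 * x) with m ≡ a [MOD primorial D],
      (∑ p ∈ m.primeFactors with u p ≤ η, (1 : ℝ)) * ZZ D x g δ k m ^ 2 ≤
      50 * η * (x / primorial D * M) + 25 * (x / primorial D * BB D x ^ 4 * ε) := by
    have e1 : ∑ m ∈ Ioc x (2 * x) with m ≡ a [MOD primorial D],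
        (∑ p ∈ m.primeFactors with u p ≤ η, (1 : ℝ)) * ZZ D x g δ k m ^ 2 = ∑ i ∈ s,
        ∑ m ∈ Ioc x (2 * x) with m ≡ a [MOD primorial D] ∧ qq D x i ∣ m, ZZ D x g δ k m ^ 2 := by
      simp only [← filter_filter, sum_filter (fun m => qq D x _ ∣ m)]
      rw [sum_comm]
      refine sum_congr rfl fun m hm => ?_
      have hm0 : x < m := (mem_Ioc.1 (mem_filter.1 hm).1).1
      rw [h2 m (fun p => u p ≤ η) _ (by omega) fun p hp h => ?_, sum_mul]
      · exact sum_congr rfl fun i _ => by split_ifs <;> simp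
      · have hp' := Nat.prime_of_mem_primeFactors hp
        have hp0 : (0 : ℝ) < p := by exact_mod_cast hp'.pos
        have b2 : (p : ℝ) ≤ x := by
          rw [← Real.log_le_log_iff hp0 hx']
          have := (div_le_iff₀ hl).1 h; nlinarith
        refine ⟨not_le.1 fun h' => ?_, by exact_mod_cast b2⟩
        have b3 := hp'.dvd_primorial_iff.2 h'
        exact hp'.one_lt.ne' (Nat.eq_one_of_dvd_coprimes ha ((((mem_filter.1 hm).2.of_dvd
          b3).dvd_iff dvd_rfl).1 (Nat.dvd_of_mem_primeFactors hp)) b3)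
    have h7 := card_small D x hl (b := 1 / 1000) (fun i => u (qq D x i) ≤ η) fun i h => h.trans hη'
    have h8 : (x : ℝ) ^ (1 / 1000 : ℝ) * (x : ℝ) ^ (6605 / 10000 : ℝ) =
        (x : ℝ) ^ (6615 / 10000 : ℝ) := by rw [← Real.rpow_add hx']; norm_num
    rw [e1]
    refine (sum_le_sum (g := fun i => 25 * η * (x / primorial D * M) *
      (Real.log (qq D x i) / (qq D x i * Real.log x)) + 25 * (x : ℝ) ^ (6605 / 10000 : ℝ))
      fun i hi => ?_).trans ?_
    · have a1 : u (qq D x i) ≤ η := (mem_filter.1 hi).2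
      have a2 : (1 : ℝ) < qq D x i := by have := Meas.two_le D x i; linarith
      have a3 : 0 < u (qq D x i) := div_pos (Real.log_pos a2) hl
      have := h {i} x (2 * x) (tens (dif (yk D x δ k) i) (cell D x δ k)) (5 * u (qq D x i))
        (by simp) (by omega) (by positivity) (abs_tens fun T => by
          unfold dif; split_ifs with h
          · simp only [abs_zero]; positivity
          · refine (fL_lip _ _ _).trans (le_of_eq ?_)
            rw [abs_sub_comm, ← sub_div, lg, lg, sum_insert h, add_sub_cancel_right,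
              abs_of_pos a3])
        fun T hT => ⟨by simpa using (dif_lt hl (left_ne_zero_of_mul hT)).1,
          tens_supp hl (fun _ h => (dif_lt hl h).2) hT⟩
      simp only [SS_tens, mem_singleton, forall_eq, prod_singleton, Nat.cast_mul,
        Nat.cast_ofNat, Fintype.card_option, Fintype.card_fin, ← div_div,
        show (2 : ℝ) * x - x = x by ring] at this
      refine (le_of_eq (sum_congr rfl fun m hm => ?_)).trans (this.trans ?_)
      · rw [ZZ, S0_dif _ _ i (by exact_mod_cast (mem_filter.1 hm).2.2)]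
      · rw [mul_add, show Real.log (qq D x i) / (qq D x i * Real.log x) = u (qq D x i) / qq D x i by
          simp only [hu]; field_simp]
        refine add_le_add (le_trans (le_of_eq (show _ = 25 * u (qq D x i) * (x / primorial D * M) *
          (u (qq D x i) / qq D x i) by rw [hM]; ring)) (by gcongr)) ?_
        gcongr; nlinarith
    · rw [sum_add_distrib, ← mul_sum, sum_const, nsmul_eq_mul]
      have a1 := (sum_le_sum_of_subset_of_nonneg (s := s) (fun i hi => mem_filter.2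
        ⟨mem_univ _, (mem_filter.1 hi).2.trans (by linarith)⟩)
        fun i _ _ => ((conv_pi D).1 x i (mem_univ _)).1).trans h3
      have a2 := mul_le_mul_of_nonneg_left a1
        (show 0 ≤ 25 * η * (x / primorial D * M) by positivity)
      have a3 := mul_le_mul_of_nonneg_right h7
        (show 0 ≤ (x : ℝ) ^ (6605 / 10000 : ℝ) by positivity)
      exact add_le_add (a2.trans (le_of_eq (by ring))) (by linarith)
  have b2 : ∑ m ∈ Ioc x (2 * x) with m ≡ a [MOD primorial D],
      (if ∃ p : ℕ, p.Prime ∧ η < u p ∧ p ^ 2 ∣ m then (1 : ℝ) else 0) * ZZ D x g δ k m ^ 2 ≤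
      4 * (x / primorial D * BB D x ^ 4 * ε) := by
    refine (sum_le_sum_of_subset_of_nonneg (filter_subset _ _) fun _ _ _ => by positivity).trans
      ((sum_le_sum (g := fun m => (if ∃ p : ℕ, p.Prime ∧ η < u p ∧ p ^ 2 ∣ m then (1 : ℝ) else 0) *
        (x : ℝ) ^ (η / 2)) fun m hm => ?_).trans ?_)
    · have := h4 m hm _ (abs_tens (δ := δ) (k := k) (y0 := yk D x δ k) fun T => abs_fL _ _)
        fun T hT => tens_supp hl (fun _ => yk_lt hl) hT
      rw [SS_tens] at this
      refine mul_le_mul_of_nonneg_left ?_ (by positivity)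
      rw [← sq_abs]
      refine (pow_le_pow_left₀ (abs_nonneg _) this 2).trans (le_of_eq ?_)
      rw [← Real.rpow_mul_natCast hx'.le]; push_cast; ring_nf
    · rw [← sum_mul]
      refine (mul_le_mul_of_nonneg_right h1 (by positivity)).trans ?_
      rw [mul_assoc, ← Real.rpow_add hx', show 1 - η + η / 2 = 1 - η / 2 by ring]
      linarith
  have b3 : ∑ m ∈ Ioc x (2 * x) with m ≡ a [MOD primorial D],
      (if m ≤ ⌊x * Real.exp η⌋₊ then (1 : ℝ) else 0) * ZZ D x g δ k m ^ 2 ≤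
      2 * η * (x / primorial D * M) + x / primorial D * BB D x ^ 4 * ε := by
    have a1 := Real.add_one_le_exp η
    have a2 : Real.exp η ≤ 1 + 2 * η := by
      have := Real.add_one_le_exp (-η)
      rw [Real.exp_neg, le_inv_comm₀ (by linarith) (Real.exp_pos _)] at this
      refine this.trans ?_
      rw [inv_le_iff_one_le_mul₀ (by linarith)]; nlinarith
    refine le_trans ?_ (hI x ⌊x * Real.exp η⌋₊ (Nat.le_floor (by nlinarith)) _ (by
      have := Nat.floor_le (show 0 ≤ x * Real.exp η by positivity); nlinarith))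
    simp only [ite_mul, one_mul, zero_mul]
    rw [← sum_filter]
    refine sum_le_sum_of_subset_of_nonneg (fun m hm => ?_) fun _ _ _ => by positivity
    simp only [mem_filter, mem_Ioc] at hm ⊢
    exact ⟨⟨hm.1.1.1, hm.2⟩, hm.1.2⟩
  have b4 : ∑ m ∈ Ioc x (2 * x) with m ≡ a [MOD primorial D],
      (if ⌊2 * x * Real.exp (-η)⌋₊ < m then (1 : ℝ) else 0) * ZZ D x g δ k m ^ 2 ≤
      3 * η * (x / primorial D * M) + x / primorial D * BB D x ^ 4 * ε := by
    have a1 := Real.add_one_le_exp (-η)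
    have a2 : Real.exp (-η) ≤ 1 := Real.exp_le_one_iff.2 (by linarith)
    rw [div_le_iff₀ hη] at h5
    refine le_trans ?_ (hI ⌊2 * x * Real.exp (-η)⌋₊ (2 * x) (Nat.floor_le_of_le (by
      push_cast; nlinarith)) _ (by
      have := Nat.lt_floor_add_one (2 * x * Real.exp (-η)); push_cast; nlinarith))
    simp only [ite_mul, one_mul, zero_mul]
    rw [← sum_filter]
    refine sum_le_sum_of_subset_of_nonneg (fun m hm => ?_) fun _ _ _ => by positivity
    simp only [mem_filter, mem_Ioc] at hm ⊢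
    exact ⟨⟨hm.2, hm.1.1.2⟩, hm.1.2⟩
  have b5 := mul_le_mul_of_nonneg_left (hI x (2 * x) (by omega) 1 (by push_cast; linarith))
    (show 0 ≤ 2 * η by positivity)
  have b6 : 2 * η * (x / primorial D * BB D x ^ 4 * ε) ≤ 1 * (x / primorial D * BB D x ^ 4 * ε) := by
    gcongr; linarith
  simp only [err, add_mul, sum_add_distrib]
  rw [← mul_sum]
  refine (add_le_add (add_le_add (add_le_add (add_le_add b1 b2) b3) b4) b5).trans ?_
  rw [hM] at *
  linarith

end Pool.Agent.Lib.MP_fc51f7_nt.P3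
end

-- part Pool.Agent.Lib.MP_fc51f7_nt.Q3
section

/-! Each of the four forms has at most three prime factors. -/

set_option autoImplicit false

namespace Pool.Agent.Lib.MP_fc51f7_nt.P3

open Finset Filter Topology

/-- The sieve weight. -/
noncomputable def YY (D x : ℕ) (κ : Type) [Fintype κ] (T : κ → Finset (PP D x)) : ℝ :=
  fL (31 / 100) (lgs (qq D x) T / Real.log x)

def lay (J k : ℕ) : Fin 7 :=
  if k < 189 * J then 0 else if k < 210 * J then 1 else if k < 231 * J then 2 else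
  if k < 249 * J then 3 else if k < 268 * J then 4 else if k < 289 * J then 5 else 6

def up : Fin 7 → ℕ := ![189, 210, 231, 249, 268, 289, 310]

def rk : Fin 7 → ℕ := ![0, 3, 2, 1, 1, 2, 3]

noncomputable def al : Fin 7 → ℝ := ![0, 1 / 25, 1 / 5, 2 / 3, 1, 1, 1]

noncomputable def be : Fin 7 → ℝ := ![0, -7 / 125, -9 / 35, -2 / 3, 1, 1, 1]

noncomputable def dd : Fin 3 → ℝ := ![1 / 4, 3 / 2, 33 / 4]

def ib (X : Fin 7) (l : Fin 3) : ℝ := if l < rk X then 1 else 0

noncomputable def mk (X Y : Fin 7) : ℝ := ∑ l, dd l * (ib X l * ib Y l)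

noncomputable def cM (X Y : Fin 7) : ℝ := al X * al Y * (1 + mk X Y)

noncomputable def nM (X Y : Fin 7) : ℝ := be X * be Y * mk X Y

theorem lay_lt {J k : ℕ} (h : k < 310 * J) : k < up (lay J k) * J := by
  unfold lay; split_ifs <;> assumption

theorem lev (X Y : Fin 7) : 1 + nM X Y - cM X Y = 0 ∨ up X + up Y ≤ 499 := by
  fin_cases X <;> fin_cases Y <;> simp [nM, cM, mk, al, be, dd, ib, rk, up, Fin.sum_univ_three] <;>
    norm_num

theorem diag (X : Fin 7) : cM X X = ![0, 11 / 625, 11 / 100, 5 / 9, 5 / 4, 11 / 4, 11] X ∧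
    1 + nM X X - cM X X = ![1, 3168 / 3125, 176 / 175, 5 / 9, 0, 0, 0] X := by
  fin_cases X <;> simp [nM, cM, mk, al, be, dd, ib, rk, Fin.sum_univ_three] <;> norm_num

theorem diag_nonneg (X : Fin 7) : 0 ≤ cM X X ∧ 0 ≤ 1 + nM X X - cM X X := by
  rw [(diag X).2, (diag X).1]; fin_cases X <;> simp <;> norm_num

theorem mk_psd (K : Finset ℕ) (Y : ℕ → Fin 7) (z : ℕ → ℝ) :
    0 ≤ ∑ k ∈ K, ∑ k' ∈ K, mk (Y k) (Y k') * (z k * z k') := by
  have : ∑ k ∈ K, ∑ k' ∈ K, mk (Y k) (Y k') * (z k * z k') =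
      ∑ l, dd l * (∑ k ∈ K, ib (Y k) l * z k) ^ 2 := by
    simp only [Fin.sum_univ_three, mk, sq, sum_mul_sum]
    simp only [mul_sum, ← sum_add_distrib]
    exact sum_congr rfl fun _ _ => sum_congr rfl fun _ _ => by ring
  rw [this]
  exact sum_nonneg fun l _ => mul_nonneg (by fin_cases l <;> simp [dd] <;> norm_num) (sq_nonneg _)

theorem nM_psd (K : Finset ℕ) (Y : ℕ → Fin 7) (z : ℕ → ℝ) :
    0 ≤ ∑ k ∈ K, ∑ k' ∈ K, nM (Y k) (Y k') * (z k * z k') :=
  (mk_psd K Y fun k => be (Y k) * z k).trans_eq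
    (sum_congr rfl fun _ _ => sum_congr rfl fun _ _ => by unfold nM; ring)

theorem cM_psd (K : Finset ℕ) (Y : ℕ → Fin 7) (z : ℕ → ℝ) :
    0 ≤ ∑ k ∈ K, ∑ k' ∈ K, cM (Y k) (Y k') * (z k * z k') := by
  refine (add_nonneg (mul_self_nonneg (∑ k ∈ K, al (Y k) * z k))
    (mk_psd K Y fun k => al (Y k) * z k)).trans_eq ?_
  simp only [sum_mul_sum, ← sum_add_distrib]
  exact sum_congr rfl fun _ _ => sum_congr rfl fun _ _ => by unfold cM; ring

theorem exists_C : ∃ C : ℝ, 0 < C ∧ ∀ X Y, |cM X Y| ≤ C ∧ |1 + nM X Y - cM X Y| ≤ C := by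
  obtain ⟨C, h⟩ := (Set.finite_range fun P : Fin 7 × Fin 7 =>
    |cM P.1 P.2| + |1 + nM P.1 P.2 - cM P.1 P.2|).bddAbove
  refine ⟨max C 1, by positivity, fun X Y => ?_⟩
  have := (h ⟨(X, Y), rfl⟩).trans (le_max_left C 1)
  constructor <;> linarith [abs_nonneg (cM X Y), abs_nonneg (1 + nM X Y - cM X Y)]

theorem nn_cont : Continuous nn :=
  intervalIntegral.continuous_parametric_intervalIntegral_of_continuous' (by
    have := Pz_cont
    unfold Function.uncurry fL
    fun_prop) _ _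

theorem YY_supp {D x : ℕ} {κ : Type} [Fintype κ] (hl : 0 < Real.log x) {T : κ → Finset (PP D x)}
    (h : YY D x κ T ≠ 0) : lgs (qq D x) T ≤ 33 / 100 * Real.log x :=
  ((div_lt_iff₀ hl).1 (not_le.1 fun h' => h (fL_zero h'))).le.trans (by linarith)

theorem cells_sum {D x J : ℕ} (hJ : 0 < J) (hl : 0 < Real.log x)
    (T : Option (Fin 3) → Finset (PP D x)) :
    |YY D x _ T - ∑ k ∈ range (310 * J), tens (yk D x (dl J) k) (cell D x (dl J) k) T| ≤
      5 * dl J := by
  have hδ := dl_pos hJ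
  set s := lgs (qq D x) (fun j => T (some j)) / Real.log x with hs
  have hs0 : 0 ≤ s / dl J := div_nonneg (div_nonneg (lgs_nonneg _ _) hl.le) hδ.le
  have h0 : 0 ≤ lg (qq D x) (T none) / Real.log x := div_nonneg (lg_nonneg _ _) hl.le
  have hc : ∀ k, cell D x (dl J) k (fun j => T (some j)) = if k = ⌊s / dl J⌋₊ then 1 else 0 :=
    fun k => if_congr (by
      rw [eq_comm, Nat.floor_eq_iff hs0, le_div_iff₀ hδ, div_lt_iff₀ hδ]) rfl rfl
  have h1 := (le_div_iff₀ hδ).1 (Nat.floor_le hs0)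
  have h2 := (div_lt_iff₀ hδ).1 (Nat.lt_floor_add_one (s / dl J))
  simp only [tens, hc, mul_ite, mul_one, mul_zero, sum_ite_eq', mem_range]
  rw [YY, lgs_option, add_div, ← hs]
  split_ifs with h
  · refine (Pz_lip _ _).trans ?_
    unfold Lk
    gcongr
    rw [abs_le]; constructor <;> linarith
  · have h3 : ((310 * J : ℕ) : ℝ) * dl J ≤ ⌊s / dl J⌋₊ * dl J := by gcongr; omega
    rw [dl_mul hJ] at h3
    rw [fL_zero (by push_cast at h3; linarith)]
    simp only [sub_zero, abs_zero]; positivity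

theorem riemann {q : ℝ → ℝ} (hq : Continuous q) {t : ℝ} (ht : 0 < t) : ∀ᶠ J : ℕ in atTop,
    ∀ k < 310 * J, ∀ c, 0 ≤ c →
      (q (Lk (dl J) k) + c) * ∫ u in (k * dl J)..((k + 1) * dl J), u ^ 2 / 2 ≤
      (∫ σ in (k * dl J)..((k + 1) * dl J), q (31 / 100 - σ) * (σ ^ 2 / 2)) + (t + c) * dl J := by
  obtain ⟨r, hr, h⟩ := Metric.uniformContinuousOn_iff_le.1
    ((isCompact_Icc (a := (0 : ℝ)) (b := 1)).uniformContinuousOn_of_continuous hq.continuousOn) t ht
  filter_upwards [dl_tendsto.eventually_le_const hr, eventually_gt_atTop 0] with J h1 hJ k hk c hc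
  have hδ := dl_pos hJ
  have h2 := dl_le hk
  have h3 : 0 ≤ k * dl J := by positivity
  push_cast at h2
  have e : (t + c) * dl J = ∫ _ in (k * dl J)..((k + 1) * dl J), (t + c) := by
    rw [intervalIntegral.integral_const, smul_eq_mul]; ring
  rw [e, ← intervalIntegral.integral_add (Continuous.intervalIntegrable (by fun_prop) _ _)
    (Continuous.intervalIntegrable (by fun_prop) _ _), ← intervalIntegral.integral_const_mul]
  refine intervalIntegral.integral_mono_on (by nlinarith)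
    (Continuous.intervalIntegrable (by fun_prop) _ _)
    (Continuous.intervalIntegrable (by fun_prop) _ _) fun σ hσ => ?_
  obtain ⟨a1, a2⟩ := hσ
  have a3 := h (Lk (dl J) k) (by unfold Lk; constructor <;> linarith) (31 / 100 - σ)
    (by constructor <;> linarith) (by
      rw [Real.dist_eq, abs_le]; unfold Lk; constructor <;> linarith)
  rw [Real.dist_eq, abs_le] at a3
  have a4 : σ ^ 2 / 2 ≤ 1 := by nlinarith
  nlinarith [mul_le_mul_of_nonneg_left a4 (show 0 ≤ t + c by linarith),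
    mul_le_mul_of_nonneg_right a3.2 (show 0 ≤ σ ^ 2 / 2 by positivity)]

noncomputable def QQ (q : Fin 7 → ℝ → ℝ) : ℝ :=
  (∫ σ in (0 : ℝ)..(189 / 1000), q 0 (31 / 100 - σ) * (σ ^ 2 / 2)) +
    (∫ σ in (189 / 1000 : ℝ)..(210 / 1000), q 1 (31 / 100 - σ) * (σ ^ 2 / 2)) +
    (∫ σ in (210 / 1000 : ℝ)..(231 / 1000), q 2 (31 / 100 - σ) * (σ ^ 2 / 2)) +
    (∫ σ in (231 / 1000 : ℝ)..(249 / 1000), q 3 (31 / 100 - σ) * (σ ^ 2 / 2)) +
    (∫ σ in (249 / 1000 : ℝ)..(268 / 1000), q 4 (31 / 100 - σ) * (σ ^ 2 / 2)) +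
    (∫ σ in (268 / 1000 : ℝ)..(289 / 1000), q 5 (31 / 100 - σ) * (σ ^ 2 / 2)) +
    ∫ σ in (289 / 1000 : ℝ)..(310 / 1000), q 6 (31 / 100 - σ) * (σ ^ 2 / 2)

theorem riemann_sum {q : Fin 7 → ℝ → ℝ} (hq : ∀ X, Continuous (q X)) {t : ℝ} (ht : 0 < t) :
    ∀ᶠ J : ℕ in atTop, ∀ c, 0 ≤ c → ∑ k ∈ range (310 * J), (q (lay J k) (Lk (dl J) k) + c) *
      ∫ u in (k * dl J)..((k + 1) * dl J), u ^ 2 / 2 ≤ QQ q + (t + c) := by
  filter_upwards [eventually_all.2 fun X => riemann (hq X) ht, eventually_gt_atTop 0]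
    with J h hJ c hc
  refine (sum_le_sum fun k hk => h (lay J k) k (mem_range.1 hk) c hc).trans ?_
  rw [sum_add_distrib, sum_const, card_range, nsmul_eq_mul, mul_left_comm, dl_mul hJ]
  refine add_le_add (le_of_eq ?_) (by push_cast; nlinarith)
  have key : ∀ (X : Fin 7) (a b : ℕ), a ≤ b → (∀ k ∈ Ico (a * J) (b * J), lay J k = X) →
      ∑ k ∈ Ico (a * J) (b * J), (∫ σ in (k * dl J)..((k + 1) * dl J),
        q (lay J k) (31 / 100 - σ) * (σ ^ 2 / 2)) =
      ∫ σ in ((a : ℝ) / 1000)..((b : ℝ) / 1000), q X (31 / 100 - σ) * (σ ^ 2 / 2) := by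
    intro X a b hab h
    rw [← dl_mul hJ, ← dl_mul hJ, ← intervalIntegral.sum_integral_adjacent_intervals_Ico
      (a := fun k : ℕ => (k : ℝ) * dl J) (Nat.mul_le_mul_right J hab) fun k _ =>
        Continuous.intervalIntegrable (by have := hq X; fun_prop) _ _]
    exact sum_congr rfl fun k hk => by rw [h k hk]; push_cast; rfl
  rw [range_eq_Ico, ← sum_Ico_consecutive _ (Nat.zero_le (289 * J)) (by omega),
    ← sum_Ico_consecutive _ (Nat.zero_le (268 * J)) (by omega),
    ← sum_Ico_consecutive _ (Nat.zero_le (249 * J)) (by omega),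
    ← sum_Ico_consecutive _ (Nat.zero_le (231 * J)) (by omega),
    ← sum_Ico_consecutive _ (Nat.zero_le (210 * J)) (by omega),
    ← sum_Ico_consecutive _ (Nat.zero_le (189 * J)) (by omega),
    show Ico 0 (189 * J) = Ico (0 * J) (189 * J) by rw [zero_mul],
    key 0 0 189 (by omega) ?_, key 1 189 210 (by omega) ?_, key 2 210 231 (by omega) ?_,
    key 3 231 249 (by omega) ?_, key 4 249 268 (by omega) ?_, key 5 268 289 (by omega) ?_,
    key 6 289 310 (by omega) ?_]
  · unfold QQ; norm_num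
  all_goals
    intro k hk
    have := mem_Ico.1 hk
    unfold lay
    split_ifs <;> first | rfl | omega

section
variable {D : ℕ} (hD : 16 ≤ D) {g : Fin 3 → ℤ} (hg : Function.Injective g)
  (hg8 : ∀ j, g j ≠ 0 ∧ |g j| ≤ 8) {a : ℕ} {J : ℕ} (hJ : 0 < J)
include hD hg hg8 hJ

theorem net_err : ∀ᶠ x : ℕ in atTop, ∑ m ∈ Ioc x (2 * x) with m ≡ a [MOD primorial D],
    (SS (qq D x) (og g) (YY D x _) m - ∑ k ∈ range (310 * J), ZZ D x g (dl J) k m) ^ 2 ≤
      x / primorial D * BB D x ^ 4 * (25 * dl J ^ 2 * (4 + eD D)) := by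
  filter_upwards [TU hD (κ := Option (Fin 3)) (by simp) (og_inj hg hg8).1 (og_inj hg hg8).2
    (j0 := none) rfl a, Meas.L_pos, small_pow D (show (6605 / 10000 : ℝ) < 1 by norm_num) one_pos]
    with x h hl h1
  have hδ := dl_pos hJ
  have := h ∅ x (2 * x) _ (5 * dl J) (by simp) (by omega) (by positivity) (cells_sum hJ hl)
    fun T hT => ⟨by simp, by
      by_cases h2 : YY D x _ T = 0
      · obtain ⟨k, -, hk⟩ := exists_ne_zero_of_sum_ne_zero (fun h3 => hT (by rw [h2, h3, sub_zero]))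
        exact tens_supp hl (fun _ => yk_lt hl) hk
      · exact YY_supp hl h2⟩
  simp only [notMem_empty, IsEmpty.forall_iff, implies_true, and_true, prod_empty, mul_one,
    Nat.cast_mul, Nat.cast_ofNat, Fintype.card_option, Fintype.card_fin,
    show (2 : ℝ) * x - x = x by ring] at this
  refine (le_of_eq (sum_congr rfl fun m _ => ?_)).trans (this.trans ?_)
  · simp only [ZZ, ← SS_tens]
    simp only [SS, sub_mul, sum_sub_distrib, sum_mul]
    rw [sum_comm]
  · refine (mul_le_mul_of_nonneg_left (add_le_add le_rfl h1) (by positivity)).trans (le_of_eq ?_)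
    ring

theorem upper (ha : Nat.Coprime a (primorial D)) {qc : ℝ → ℝ} {η ε t C : ℝ} (hη : 0 < η)
    (hη' : η ≤ 1 / 1000) (hε : 0 < ε) (ht : 0 < t) (hC : 0 < C)
    (hC' : ∀ X Y, |cM X Y| ≤ C ∧ |1 + nM X Y - cM X Y| ≤ C)
    (hq : ∀ L ∈ Set.Icc (61 / 1000 : ℝ) (31 / 100), cost2 η L ≤ qc L + t) :
    ∀ᶠ x : ℕ in atTop, ∑ m ∈ Ioc x (2 * x) with m ≡ a [MOD primorial D],
      (if 4 ≤ ArithmeticFunction.cardFactors m then (1 : ℝ) else 0) *
        (∑ k ∈ range (310 * J), ZZ D x g (dl J) k m) ^ 2 ≤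
      x / primorial D * BB D x ^ 4 * (∑ k ∈ range (310 * J),
        (cM (lay J k) (lay J k) * nn (Lk (dl J) k) + (1 + nM (lay J k) (lay J k) -
          cM (lay J k) (lay J k)) * qc (Lk (dl J) k) + C * (t + 4 * ε)) *
        (∫ u in (k * dl J)..((k + 1) * dl J), u ^ 2 / 2) + ε + (310 * J) ^ 2 * C *
        ((5 + 2 / η) * eD D + 4 * ε + 4 * (57 * η * (3 + eD D) + 32 * ε))) := by
  have hδ := dl_pos hJ
  have h1 := tendsto_finsetSum (range (310 * J)) fun k _ =>
    (nuu_tendsto D hδ k).const_mul (cM (lay J k) (lay J k) * nn (Lk (dl J) k) +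
      (1 + nM (lay J k) (lay J k) - cM (lay J k) (lay J k)) * qc (Lk (dl J) k) + C * (t + 4 * ε))
  filter_upwards [h1.eventually_le_const (lt_add_of_pos_right _ hε),
    (eventually_all_finset (range (310 * J))).2 fun k hk =>
      (eventually_all_finset (range (310 * J))).2 fun k' hk' =>
      pair hD hg hg8 a (dl J) k k' ha hε hη hη' hδ hC (hC' (lay J k) (lay J k')).1 (hC' _ _).2
        (fun h => h ▸ diag_nonneg _) ((lev (lay J k) (lay J k')).imp_right fun h => by
          have a1 := dl_le (lay_lt (mem_range.1 hk))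
          have a2 := dl_le (lay_lt (mem_range.1 hk'))
          have a3 : (up (lay J k) : ℝ) + up (lay J k') ≤ 499 := by exact_mod_cast h
          linarith),
    (eventually_all_finset (range (310 * J))).2 fun k _ => bad hD hg hg8 ha (dl J) k hη hη' hε,
    eventually_gt_atTop 1, gr_logx.eventually_ge_atTop (Real.log 2 / η), Meas.BB_pos D]
    with x h1 h2 h3 hx h4 hB
  rw [div_le_iff₀' hη] at h4
  set K := range (310 * J) with hK
  set X := (x : ℝ) / primorial D with hX
  have hX0 : 0 ≤ X := by positivity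
  calc _ ≤ ∑ m ∈ Ioc x (2 * x) with m ≡ a [MOD primorial D], (∑ k ∈ K, ∑ k' ∈ K,
        (cM (lay J k) (lay J k') + (1 + nM (lay J k) (lay J k') - cM (lay J k) (lay J k')) *
          phi η x m) * (ZZ D x g (dl J) k m * ZZ D x g (dl J) k' m) +
        4 * C * K.card * ∑ k ∈ K, err η x m * ZZ D x g (dl J) k m ^ 2) := by
        refine sum_le_sum fun m hm => ?_
        obtain ⟨φ, a1, a2, a3, a4⟩ := phi_close hη hη' hx h4 (mem_filter.1 hm).1
        refine (psd_step K _ _ _ (cM_psd K (lay J) _) (nM_psd K (lay J) _) (fun _ _ => (hC' _ _).2)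
          a1 a2 (by split_ifs with h; exacts [(a3 h).ge, a1]) a4).trans (le_of_eq ?_)
        rw [← mul_sum]; ring
    _ ≤ ∑ k ∈ K, (X * BB D x ^ 4 * ((cM (lay J k) (lay J k) * nn (Lk (dl J) k) +
          (1 + nM (lay J k) (lay J k) - cM (lay J k) (lay J k)) * qc (Lk (dl J) k) +
          C * (t + 4 * ε)) * (nuu D x (dl J) k k / BB D x ^ 3)) +
          K.card * (X * BB D x ^ 4 * (C * ((5 + 2 / η) * eD D + 4 * ε)))) +
        4 * C * K.card * (K.card * (X * BB D x ^ 4 * (57 * η * (3 + eD D) + 32 * ε))) := by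
        rw [sum_add_distrib, ← mul_sum, sum_comm, sum_comm (t := K) (f := fun m k => err η x m * _)]
        refine add_le_add (sum_le_sum fun k hk => ?_) (mul_le_mul_of_nonneg_left
          ((sum_le_card_nsmul _ _ _ h3).trans_eq (nsmul_eq_mul _ _)) (by positivity))
        rw [sum_comm]
        refine (sum_le_sum (h2 k hk)).trans ?_
        rw [sum_add_distrib, sum_const, nsmul_eq_mul, sum_eq_single_of_mem k hk fun k' _ h => by
          rw [nuu_ne D x hδ h.symm, mul_zero]]
        refine add_le_add ?_ le_rfl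
        have a2 : (1 + nM (lay J k) (lay J k) - cM (lay J k) (lay J k)) * cost2 η (Lk (dl J) k) ≤
            (1 + nM (lay J k) (lay J k) - cM (lay J k) (lay J k)) * qc (Lk (dl J) k) + C * t := by
          rcases lev (lay J k) (lay J k) with h | h
          · rw [h, zero_mul, zero_mul, zero_add]; positivity
          have a1 := dl_le (lay_lt (mem_range.1 hk))
          have a3 : (up (lay J k) : ℝ) ≤ 249 := by exact_mod_cast (by omega : up (lay J k) ≤ 249)
          have a4 := mul_le_mul_of_nonneg_left (hq (Lk (dl J) k) ⟨by unfold Lk; linarith,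
            sub_le_self _ (by positivity)⟩) (diag_nonneg (lay J k)).2
          have a5 := mul_le_mul_of_nonneg_right (le_of_abs_le (hC' (lay J k) (lay J k)).2) ht.le
          linarith
        have a3 := nuu_nonneg D x (dl J) k
        refine le_trans (mul_le_mul_of_nonneg_right (mul_le_mul_of_nonneg_left
          (add_le_add (add_le_add le_rfl a2) le_rfl) (by positivity)) a3) (le_of_eq ?_)
        field_simp
        ring
    _ ≤ _ := by
        rw [sum_add_distrib, ← mul_sum, sum_const, nsmul_eq_mul, card_range]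
        have := mul_le_mul_of_nonneg_left h1 (show 0 ≤ X * BB D x ^ 4 by positivity)
        push_cast
        linarith

end

theorem coord {qc : ℝ → ℝ} (hq : Continuous qc)
    (hc : ∀ t : ℝ, 0 < t → ∀ᶠ η in 𝓝[>] (0 : ℝ), ∀ L ∈ Set.Icc (61 / 1000 : ℝ) (31 / 100),
      cost2 η L ≤ qc L + t) {ε : ℝ} (hε : 0 < ε) :
    ∀ᶠ D : ℕ in atTop, ∀ (g : Fin 3 → ℤ) (a : ℕ), Function.Injective g →
      (∀ j, g j ≠ 0 ∧ |g j| ≤ 8) → Nat.Coprime a (primorial D) → ∀ᶠ x : ℕ in atTop,
      ∑ m ∈ Ioc x (2 * x) with m ≡ a [MOD primorial D],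
        (if 4 ≤ ArithmeticFunction.cardFactors m then (1 : ℝ) else 0) *
          SS (qq D x) (og g) (YY D x _) m ^ 2 ≤ x / primorial D * BB D x ^ 4 *
        (QQ (fun X L => cM X X * nn L + (1 + nM X X - cM X X) * qc L) + ε) := by
  obtain ⟨C, hC, hC'⟩ := exists_C
  set Q := QQ (fun X L => cM X X * nn L + (1 + nM X X - cM X X) * qc L) with hQ
  have hlim : Tendsto (fun t : ℝ => (1 + t) * (Q + (4 + C) * t) + t) (𝓝[>] 0)
      (𝓝 ((1 + 0) * (Q + (4 + C) * 0) + 0)) :=
    tendsto_nhdsWithin_of_tendsto_nhds (Continuous.tendsto (by fun_prop) _)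
  obtain ⟨t, h1, ht⟩ := ((hlim.eventually_le_const (show _ < Q + ε by linarith)).and
    self_mem_nhdsWithin).exists
  have ht : 0 < t := ht
  have h2 : Tendsto (fun J => (1 + 1 / t) * (25 * dl J ^ 2 * 5)) atTop
      (𝓝 ((1 + 1 / t) * (25 * 0 ^ 2 * 5))) :=
    (((dl_tendsto.pow 2).const_mul _).mul_const _).const_mul _
  obtain ⟨J, h2, h3, hJ⟩ := ((h2.eventually_le_const (show _ < t by simpa using ht)).and
    ((riemann_sum (q := fun X L => cM X X * nn L + (1 + nM X X - cM X X) * qc L)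
      (fun X => by have := nn_cont; fun_prop) ht).and (eventually_gt_atTop 0))).exists
  set K : ℝ := (310 * J) ^ 2 * C with hK
  have hK0 : 0 < K := by positivity
  obtain ⟨η, hη0, hη3, hη⟩ := ((hc t ht).and (((eventually_le_nhds
    (show 0 < min (1 / 1000) (t / (K * 912)) by positivity)).filter_mono nhdsWithin_le_nhds).and
    self_mem_nhdsWithin)).exists
  have hη : 0 < η := hη
  have hη1 := hη3.trans (min_le_left _ _)
  have hη2 := (le_div_iff₀ (by positivity)).1 (hη3.trans (min_le_right _ _))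
  have h4 := (eD_tendsto.const_mul (5 + 2 / η)).const_mul K
  filter_upwards [h4.eventually_le_const (show _ < t by simpa using ht),
    eD_tendsto.eventually_le_const one_pos, eventually_ge_atTop 16] with D h4 h5 hD g a hg hg8 ha
  have hr : 0 < t / (1 + 4 * C + 132 * K) := by positivity
  have h6 : t / (1 + 4 * C + 132 * K) * (1 + 4 * C + 132 * K) = t := by field_simp
  set r := t / (1 + 4 * C + 132 * K)
  filter_upwards [net_err hD hg hg8 hJ (a := a), upper hD hg hg8 hJ ha hη hη1 hr ht hC hC' hη0]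
    with x a1 a2
  have hX : 0 ≤ x / primorial D * BB D x ^ 4 := by have := Meas.BB_nonneg D x; positivity
  have a3 := h3 (C * (t + 4 * r)) (by positivity)
  have a4 : K * (4 * (57 * η * (3 + eD D))) ≤ K * (4 * (57 * η * 4)) := by gcongr; linarith
  have a5 := a2.trans (mul_le_mul_of_nonneg_left (c := Q + (4 + C) * t) (by rw [← hK]; linarith) hX)
  have a6 := a1.trans (mul_le_mul_of_nonneg_left (c := 25 * dl J ^ 2 * 5)
    (by gcongr; linarith) hX)
  have a7 := add_le_add (mul_le_mul_of_nonneg_left a5 (show 0 ≤ 1 + t by positivity))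
    (mul_le_mul_of_nonneg_left a6 (show 0 ≤ 1 + 1 / t by positivity))
  refine le_trans ?_ (a7.trans ?_)
  · rw [mul_sum, mul_sum, ← sum_add_distrib]
    refine sum_le_sum fun m _ => ?_
    set S := SS (qq D x) (og g) (YY D x _) m
    set Z := ∑ k ∈ range (310 * J), ZZ D x g (dl J) k m
    have b1 : (1 + t) * Z ^ 2 + (1 + 1 / t) * (S - Z) ^ 2 - S ^ 2 = (t * Z - (S - Z)) ^ 2 / t := by
      field_simp; ring
    have b2 : 0 ≤ (t * Z - (S - Z)) ^ 2 / t := by positivity
    split_ifs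
    · linarith
    · simp only [zero_mul, mul_zero, zero_add]; positivity
  · rw [mul_left_comm, mul_left_comm (1 + 1 / t), ← mul_add]
    exact mul_le_mul_of_nonneg_left (by linarith) hX

theorem SS_equiv {D x : ℕ} {κ κ' : Type} [Fintype κ] [DecidableEq κ] [Fintype κ'] [DecidableEq κ']
    (e : κ ≃ κ') (g : κ → ℤ) (g' : κ' → ℤ) (m m' : ℤ) (h : ∀ j, m + g j = m' + g' (e j)) :
    SS (qq D x) g (YY D x κ) m = SS (qq D x) g' (YY D x κ') m' := by
  refine Fintype.sum_equiv (e.arrowCongr (Equiv.refl _)) _ _ fun T => ?_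
  congr 1
  · unfold YY lgs
    congr 2
    exact Fintype.sum_equiv e _ _ fun j => by simp
  · exact Fintype.prod_equiv e _ _ fun j => by simp [h]

theorem SS_coord (D x n : ℕ) (i : Fin 4) : SS (qq D x) (fun j => (hh j : ℤ)) (YY D x _) n =
    SS (qq D x) (og (gg i)) (YY D x _) (n + hh i : ℕ) :=
  (SS_equiv (finSuccEquiv' i).symm _ _ _ _ fun j => by cases j <;> simp [og, gg]).symm

theorem lower {ε : ℝ} (hε : 0 < ε) : ∀ᶠ D : ℕ in atTop, ∀ b : ℕ, ∀ᶠ x : ℕ in atTop,
    x / primorial D * BB D x ^ 4 *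
      ((∫ s in (0 : ℝ)..1, Pz (31 / 100 - s) ^ 2 * (s ^ 3 / 6)) - 4 * ε) ≤
    ∑ n ∈ Ioc x (2 * x - 8) with n ≡ b [MOD primorial D],
      SS (qq D x) (fun j => (hh j : ℤ)) (YY D x _) n ^ 2 := by
  filter_upwards [eD_tendsto.eventually_le_const hε, eventually_ge_atTop 16] with D h1 hD b
  have h2 := (conv_nu_pow D (Fin 4) 3 (by simp)).2.2.2.2 (fun t => fL (31 / 100) t ^ 2)
    ((fL_cont _).pow 2) 1 zero_le_one fun u hu => by rw [fL_zero (by linarith)]; simp
  simp only [zero_mul, zero_add, show ((Nat.factorial 3 : ℕ) : ℝ) = 6 by norm_num [Nat.factorial]]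
    at h2
  unfold fL at h2
  set I := ∫ s in (0 : ℝ)..1, Pz (31 / 100 - s) ^ 2 * (s ^ 3 / 6)
  filter_upwards [TI hD (κ := Fin 4) (by simp) (g := fun j => (hh j : ℤ)) (by decide) (by decide)
    (j0 := 0) rfl b, Meas.L_pos, small_pow D (show (6605 / 10000 : ℝ) < 1 by norm_num) hε,
    h2.eventually_le_const (lt_add_of_pos_right _ hε),
    h2.eventually_const_le (sub_lt_self _ hε), eventually_ge_atTop 8, Meas.BB_pos D,
    tendsto_natCast_atTop_atTop.eventually_ge_atTop (8 * (I + ε) / ε)]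
    with x h hl h3 h4 h5 hx hB h6
  have hW : (0 : ℝ) < primorial D := by exact_mod_cast primorial_pos D
  have := (abs_le.1 (h ∅ x (2 * x - 8) (YY D x _) (YY D x _) (by simp) (by omega)
    (fun T => abs_fL _ _) (fun T => abs_fL _ _) (fun T hT => ⟨by simp, YY_supp hl hT⟩)
    fun T hT => ⟨by simp, YY_supp hl hT⟩)).1
  simp only [notMem_empty, IsEmpty.forall_iff, implies_true, and_true, prod_empty, mul_one,
    Fintype.card_fin, Nat.cast_sub (show 8 ≤ 2 * x by omega), Nat.cast_mul, Nat.cast_ofNat,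
    show (2 : ℝ) * x - 8 - x = x - 8 by ring, ← sq] at this
  have e : ∑ T, YY D x (Fin 4) T ^ 2 * wts (qq D x) T = BB D x ^ 4 * ∑ T : Fin 4 → Finset (PP D x),
      wts (qq D x) T / BB D x ^ (3 + 1) * Pz (31 / 100 - lgs (qq D x) T / Real.log x) ^ 2 := by
    rw [mul_sum]
    exact sum_congr rfl fun T _ => by unfold YY fL; field_simp
  rw [e] at this
  set s := ∑ T : Fin 4 → Finset (PP D x),
    wts (qq D x) T / BB D x ^ (3 + 1) * Pz (31 / 100 - lgs (qq D x) T / Real.log x) ^ 2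
  rw [div_le_iff₀ hε] at h6
  have h7 : (x : ℝ) * (I - 2 * ε) ≤ (x - 8) * s := by
    nlinarith [mul_le_mul_of_nonneg_left h5 (show (0 : ℝ) ≤ x by positivity)]
  have h8 := mul_le_mul_of_nonneg_right h7 (show 0 ≤ BB D x ^ 4 / primorial D by positivity)
  have h9 : ((x : ℝ) - 8) / primorial D * (eD D * BB D x ^ 4) ≤
      x / primorial D * (ε * BB D x ^ 4) := by
    have := eD_nonneg D
    gcongr; linarith
  have e1 : (x - 8) * s * (BB D x ^ 4 / primorial D) = (x - 8) / primorial D * (BB D x ^ 4 * s) := by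
    ring
  have e2 : x * (I - 2 * ε) * (BB D x ^ 4 / primorial D) =
      x / primorial D * BB D x ^ 4 * (I - 2 * ε) := by ring
  linarith

theorem main : ∀ᶠ x : ℕ in atTop, ∃ n > x, ∀ i, ArithmeticFunction.cardFactors (n + hh i) ≤ 3 := by
  obtain ⟨qc, hq, h1, h2⟩ := numerics2
  set I := ∫ s in (0 : ℝ)..1, Pz (31 / 100 - s) ^ 2 * (s ^ 3 / 6)
  set Q := QQ (fun X L => cM X X * nn L + (1 + nM X X - cM X X) * qc L) with hQ
  replace h2 : 4 * Q < I := by
    simp only [hQ, QQ, (diag _).2]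
    simp only [(diag _).1]
    simpa using h2
  have hε : 0 < (I - 4 * Q) / 10 := by linarith
  obtain ⟨D, h3, h4⟩ := ((lower hε).and (coord hq h1 hε)).exists
  obtain ⟨b, hb⟩ := exists_class D
  filter_upwards [h3 b, eventually_all.2 fun i => h4 (gg i) (b + hh i) (gg_ok i).1 (gg_ok i).2
    (hb i), Meas.BB_pos D, eventually_gt_atTop 0] with x h5 h6 hB hx
  by_contra hcon
  have hW : (0 : ℝ) < primorial D := by exact_mod_cast primorial_pos D
  have hX : 0 < x / primorial D * BB D x ^ 4 := by positivity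
  have h7 : ∑ n ∈ Ioc x (2 * x - 8) with n ≡ b [MOD primorial D],
      SS (qq D x) (fun j => (hh j : ℤ)) (YY D x _) n ^ 2 ≤ ∑ i, ∑ n ∈ Ioc x (2 * x - 8) with
        n ≡ b [MOD primorial D],
        (if 4 ≤ ArithmeticFunction.cardFactors (n + hh i) then (1 : ℝ) else 0) *
          SS (qq D x) (fun j => (hh j : ℤ)) (YY D x _) n ^ 2 := by
    rw [sum_comm]
    refine sum_le_sum fun n hn => ?_
    obtain ⟨i, hi⟩ := not_forall.1 fun h => hcon ⟨n, (mem_Ioc.1 (mem_filter.1 hn).1).1, h⟩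
    refine le_trans (le_of_eq ?_) (single_le_sum (fun _ _ => by positivity) (mem_univ i))
    rw [if_pos (by omega), one_mul]
  have h8 := h7.trans (sum_le_sum fun i _ => le_trans (by
    simp only [SS_coord D x _ i]
    refine (sum_image (g := (· + hh i)) (f := fun m : ℕ =>
      (if 4 ≤ ArithmeticFunction.cardFactors m then (1 : ℝ) else 0) *
        SS (qq D x) (og (gg i)) (YY D x _) m ^ 2) (add_left_injective _).injOn).ge.trans
      (sum_le_sum_of_subset_of_nonneg (fun m hm => ?_) fun _ _ _ => by positivity)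
    obtain ⟨n, hn, rfl⟩ := mem_image.1 hm
    have := hh_le i
    have := mem_Ioc.1 (mem_filter.1 hn).1
    exact mem_filter.2 ⟨mem_Ioc.2 ⟨by omega, by omega⟩, (mem_filter.1 hn).2.add_right _⟩) (h6 i))
  rw [sum_const, card_univ, Fintype.card_fin, nsmul_eq_mul] at h8
  have h9 := h5.trans h8
  rw [mul_left_comm _ (_ * BB D x ^ 4), mul_le_mul_iff_right₀ hX] at h9
  push_cast at h9
  linarith

end Pool.Agent.Lib.MP_fc51f7_nt.P3
end
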