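import Mathlib

-- part Pool.Agent.Lib.MP_fc51f7_nt.LSA
section

/-! The duality lemma of Bombieri and the additive large sieve. -/

set_option autoImplicit false

namespace Pool.Agent.Lib.MP_fc51f7_nt.LS

open Finset

theorem sum_le_sum_inj {α β : Type*} {s : Finset α} {t : Finset β} {f : α → ℝ} {g : β → ℝ}
    (e : α → β) (hi : Set.InjOn e s) (hm : ∀ a ∈ s, e a ∈ t) (hle : ∀ a ∈ s, f a ≤ g (e a))
    (h0 : ∀ b ∈ t, 0 ≤ g b) : ∑ a ∈ s, f a ≤ ∑ b ∈ t, g b := by
  classical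
  refine (sum_le_sum hle).trans ?_
  rw [← sum_image hi]
  exact sum_le_sum_of_subset_of_nonneg (image_subset_iff.2 hm) fun b hb _ => h0 b hb

theorem normSq_sum {ρ : Type*} (S : Finset ρ) (f : ρ → ℂ) :
    ((‖∑ r ∈ S, f r‖ ^ 2 : ℝ) : ℂ) = ∑ r ∈ S, ∑ s ∈ S, f r * star (f s) := by
  rw [← sum_mul_sum, ← star_sum, Complex.star_def, Complex.mul_conj, Complex.normSq_eq_norm_sq]

/-- Duality with a majorant. -/
theorem bombieri {ρ σ : Type*} (S : Finset ρ) (X : Finset σ) (ν : σ → ℝ) (φ : ρ → σ → ℂ)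
    (a : σ → ℂ) {Δ : ℝ} (hΔ : 0 ≤ Δ) (hν : ∀ n ∈ X, 0 ≤ ν n) (ha : ∀ n ∈ X, a n ≠ 0 → 1 ≤ ν n)
    (hG : ∀ r ∈ S, ∑ s ∈ S, ‖∑ n ∈ X, (ν n : ℂ) * (φ r n * star (φ s n))‖ ≤ Δ) :
    ∑ r ∈ S, ‖∑ n ∈ X, a n * φ r n‖ ^ 2 ≤ Δ * ∑ n ∈ X, ‖a n‖ ^ 2 := by
  classical
  set A : ρ → ℂ := fun r => ∑ n ∈ X, a n * φ r n with hA
  set W : ℝ := ∑ r ∈ S, ‖A r‖ ^ 2 with hW
  set G : ρ → ρ → ℂ := fun r s => ∑ n ∈ X, (ν n : ℂ) * (φ r n * star (φ s n)) with hGdef
  let b : σ → ℂ := fun n => ∑ r ∈ S, star (A r) * φ r n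
  have W0 : 0 ≤ W := sum_nonneg fun _ _ => sq_nonneg _
  have Gs : ∀ r s, ‖G s r‖ = ‖G r s‖ := fun r s => by
    rw [← norm_star]
    congr 1
    simp only [hGdef, star_sum, star_mul', star_star]
    exact sum_congr rfl fun n _ => by simp [mul_comm]
  have e1 : (W : ℂ) = ∑ n ∈ X, a n * b n := by
    simp only [hW, b, mul_sum]
    rw [sum_comm]
    push_cast
    refine sum_congr rfl fun r _ => ?_
    have : ((‖A r‖ : ℂ)) ^ 2 = star (A r) * A r := by
      rw [mul_comm, Complex.star_def, Complex.mul_conj, Complex.normSq_eq_norm_sq]; push_cast; rfl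
    rw [this]
    conv_lhs => rw [hA]
    simp only [mul_sum]
    exact sum_congr rfl fun n _ => by ring
  have e2 : ((∑ n ∈ X, ν n * ‖b n‖ ^ 2 : ℝ) : ℂ) =
      ∑ r ∈ S, ∑ s ∈ S, star (A r) * A s * G r s := by
    push_cast
    have : ∀ n, ((‖b n‖ : ℂ)) ^ 2 = ∑ r ∈ S, ∑ s ∈ S,
        star (A r) * φ r n * star (star (A s) * φ s n) := fun n => by
      rw [← normSq_sum]; push_cast; rfl
    simp only [this, hGdef, mul_sum]
    rw [sum_comm]
    refine sum_congr rfl fun r _ => ?_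
    rw [sum_comm]
    refine sum_congr rfl fun s _ => sum_congr rfl fun n _ => ?_
    rw [star_mul', star_star]; ring
  have h3 : ∑ n ∈ X, ν n * ‖b n‖ ^ 2 ≤ Δ * W := by
    have h1 : ∑ n ∈ X, ν n * ‖b n‖ ^ 2 ≤ ∑ r ∈ S, ∑ s ∈ S, ‖A r‖ * ‖A s‖ * ‖G r s‖ := by
      refine (le_abs_self _).trans ?_
      rw [← Real.norm_eq_abs, ← Complex.norm_real, e2]
      refine (norm_sum_le _ _).trans (sum_le_sum fun r _ => (norm_sum_le _ _).trans
        (sum_le_sum fun s _ => le_of_eq ?_))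
      rw [norm_mul, norm_mul, norm_star]
    have h2 : ∑ r ∈ S, ∑ s ∈ S, ‖A r‖ ^ 2 * ‖G r s‖ ≤ Δ * W := by
      rw [hW, mul_sum]
      refine sum_le_sum fun r hr => ?_
      rw [← mul_sum, mul_comm]
      exact mul_le_mul_of_nonneg_right (hG r hr) (sq_nonneg _)
    have h2' : ∑ r ∈ S, ∑ s ∈ S, ‖A s‖ ^ 2 * ‖G r s‖ ≤ Δ * W := by
      rw [sum_comm]
      simpa only [Gs] using h2
    have h4 : 2 * ∑ r ∈ S, ∑ s ∈ S, ‖A r‖ * ‖A s‖ * ‖G r s‖ ≤
        ∑ r ∈ S, ∑ s ∈ S, ‖A r‖ ^ 2 * ‖G r s‖ + ∑ r ∈ S, ∑ s ∈ S, ‖A s‖ ^ 2 * ‖G r s‖ := by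
      rw [← sum_add_distrib, mul_sum]
      refine sum_le_sum fun r _ => ?_
      rw [← sum_add_distrib, mul_sum]
      refine sum_le_sum fun s _ => ?_
      nlinarith [mul_nonneg (sq_nonneg (‖A r‖ - ‖A s‖)) (norm_nonneg (G r s))]
    linarith
  have h5 : W ≤ ∑ n ∈ X, ‖a n‖ * (√(ν n) * ‖b n‖) := by
    refine (le_abs_self _).trans ?_
    rw [← Real.norm_eq_abs, ← Complex.norm_real, e1]
    refine (norm_sum_le _ _).trans (sum_le_sum fun n hn => ?_)
    rw [norm_mul]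
    by_cases h : a n = 0
    · simp [h]
    · have : 1 ≤ √(ν n) := Real.one_le_sqrt.2 (ha n hn h)
      exact mul_le_mul_of_nonneg_left (le_mul_of_one_le_left (norm_nonneg _) this) (norm_nonneg _)
  have h6 := sum_mul_sq_le_sq_mul_sq X (fun n => ‖a n‖) fun n => √(ν n) * ‖b n‖
  have h7 : ∑ n ∈ X, (√(ν n) * ‖b n‖) ^ 2 = ∑ n ∈ X, ν n * ‖b n‖ ^ 2 :=
    sum_congr rfl fun n hn => by rw [mul_pow, Real.sq_sqrt (hν n hn)]
  rw [h7] at h6
  have a0 : 0 ≤ ∑ n ∈ X, ‖a n‖ ^ 2 := sum_nonneg fun _ _ => sq_nonneg _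
  have h8 : W ^ 2 ≤ (∑ n ∈ X, ‖a n‖ ^ 2) * (Δ * W) :=
    (pow_le_pow_left₀ W0 h5 2).trans (h6.trans (mul_le_mul_of_nonneg_left h3 a0))
  rcases W0.eq_or_lt with h | h
  · rw [← h]; positivity
  · exact le_of_mul_le_mul_right (by nlinarith) h

/-- `e(x)`. -/
noncomputable def ee (x : ℝ) : ℂ := Complex.exp (2 * Real.pi * Complex.I * x)

theorem ee_add (x y : ℝ) : ee (x + y) = ee x * ee y := by
  unfold ee; rw [← Complex.exp_add]; congr 1; push_cast; ring

theorem ee_zero : ee 0 = 1 := by simp [ee]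

theorem norm_ee (x : ℝ) : ‖ee x‖ = 1 := by
  have := Complex.norm_exp_ofReal_mul_I (2 * Real.pi * x)
  unfold ee; rw [← this]; congr 2; push_cast; ring

theorem star_ee (x : ℝ) : star (ee x) = ee (-x) := by
  unfold ee
  rw [Complex.star_def, ← Complex.exp_conj]
  congr 1
  simp [map_ofNat]

theorem ee_int (k : ℤ) : ee k = 1 := by
  unfold ee
  have := Complex.exp_int_mul_two_pi_mul_I k
  rw [← this]; congr 1; push_cast; ring

theorem ee_nat_mul (n : ℕ) (x : ℝ) : ee (n * x) = ee x ^ n := by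
  unfold ee; rw [← Complex.exp_nat_mul]; congr 1; push_cast; ring

theorem ee_sum {ι : Type*} (s : Finset ι) (f : ι → ℝ) : ee (∑ i ∈ s, f i) = ∏ i ∈ s, ee (f i) := by
  classical
  induction s using Finset.induction_on with
  | empty => simp [ee_zero]
  | insert i s h ih => rw [sum_insert h, prod_insert h, ee_add, ih]

theorem four_mul_le (θ : ℝ) : 4 * |θ - round θ| ≤ ‖ee θ - 1‖ := by
  set t := θ - round θ with ht
  have h1 : |t| ≤ 1 / 2 := abs_sub_round θ
  have h2 : ee θ = Complex.exp (Complex.I * (2 * Real.pi * t : ℝ)) := by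
    have : θ = t + (round θ : ℤ) := by rw [ht]; ring
    rw [this, ee_add, ee_int, mul_one]
    unfold ee; congr 1; push_cast; ring
  rw [h2, Complex.norm_exp_I_mul_ofReal_sub_one, Real.norm_eq_abs, abs_mul, abs_two]
  have pi0 := Real.pi_pos
  have h3 : 2 * Real.pi * t / 2 = Real.pi * t := by ring
  rw [h3]
  have h4 : |Real.pi * t| = Real.pi * |t| := by rw [abs_mul, abs_of_pos pi0]
  have h5 := Real.mul_abs_le_abs_sin (x := Real.pi * t) (by rw [h4]; nlinarith)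
  rw [h4] at h5
  have h6 : 2 / Real.pi * (Real.pi * |t|) = 2 * |t| := by field_simp
  linarith

theorem norm_dir_le (M : ℕ) (θ : ℝ) {η : ℝ} (hη : 0 < η) (hM : M * η ≤ 1) :
    ‖∑ x ∈ range M, ee (x * θ)‖ ≤ 3 / 2 / (|θ - round θ| + η) := by
  have h1 : ‖∑ x ∈ range M, ee (x * θ)‖ ≤ M := by
    refine (norm_sum_le _ _).trans (le_of_eq ?_)
    simp [norm_ee]
  have h2 : ‖∑ x ∈ range M, ee (x * θ)‖ * ‖ee θ - 1‖ ≤ 2 := by
    simp only [ee_nat_mul]
    rw [← norm_mul, geom_sum_mul]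
    refine (norm_sub_le _ _).trans (le_of_eq ?_)
    rw [norm_pow, norm_ee]; norm_num
  have h3 := four_mul_le θ
  have h4 := abs_nonneg (θ - round θ)
  have h5 := norm_nonneg (∑ x ∈ range M, ee (x * θ))
  rw [le_div_iff₀ (by positivity)]
  nlinarith

theorem sum_range_inv_sq {Q η : ℝ} (hQ : 0 < Q) (hη : 0 < η) (K : ℕ) :
    ∑ k ∈ range (K + 1), 1 / (k / Q + η) ^ 2 ≤ 1 / η ^ 2 + Q / η - Q / (K / Q + η) := by
  induction K with
  | zero => simp
  | succ K ih =>
    rw [sum_range_succ]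
    have h0 : (0 : ℝ) < K / Q + η := by positivity
    set u := (K : ℝ) / Q + η with hu
    have h1 : ((K + 1 : ℕ) : ℝ) / Q + η = u + 1 / Q := by rw [hu]; push_cast; ring
    rw [h1]
    have h2 : Q / u - Q / (u + 1 / Q) = 1 / (u * (u + 1 / Q)) := by field_simp; ring
    have h3 : 1 / (u + 1 / Q) ^ 2 ≤ 1 / (u * (u + 1 / Q)) := by
      refine one_div_le_one_div_of_le (by positivity) ?_
      have : 0 < 1 / Q := by positivity
      nlinarith
    linarith

theorem spaced_nonneg {ρ : Type*} (S : Finset ρ) (t : ρ → ℝ) {Q η : ℝ} (hQ : 0 < Q) (hη : 0 < η)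
    (h0 : ∀ s ∈ S, 0 ≤ t s) (hs : ∀ r ∈ S, ∀ s ∈ S, r ≠ s → 1 / Q ≤ |t r - t s|) :
    ∑ s ∈ S, 1 / (t s + η) ^ 2 ≤ 1 / η ^ 2 + Q / η := by
  set K := S.sup fun s => ⌊t s * Q⌋₊
  have h1 := sum_range_inv_sq hQ hη K
  have h2 : 0 ≤ Q / (K / Q + η) := by positivity
  refine le_trans ?_ (h1.trans (by linarith))
  refine sum_le_sum_inj (fun s => ⌊t s * Q⌋₊) ?_ ?_ ?_ ?_
  · intro r hr s hs' h
    by_contra hne
    have h3 := hs r hr s hs' hne
    have a1 := Nat.floor_le (mul_nonneg (h0 r hr) hQ.le)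
    have a2 := Nat.floor_le (mul_nonneg (h0 s hs') hQ.le)
    have b1 := Nat.lt_floor_add_one (t r * Q)
    have b2 := Nat.lt_floor_add_one (t s * Q)
    simp only at h
    rw [h] at a1 b1
    rw [div_le_iff₀ hQ, ← abs_of_pos hQ, ← abs_mul, sub_mul] at h3
    have : |t r * Q - t s * Q| < 1 := abs_lt.2 ⟨by linarith, by linarith⟩
    linarith
  · intro s hs'
    exact mem_range.2 (Nat.lt_succ_of_le (le_sup (f := fun s => ⌊t s * Q⌋₊) hs'))
  · intro s hs'
    have a1 := Nat.floor_le (mul_nonneg (h0 s hs') hQ.le)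
    rw [← div_le_iff₀ hQ] at a1
    exact one_div_le_one_div_of_le (by positivity) (pow_le_pow_left₀ (by positivity) (by linarith) 2)
  · intro _ _; positivity

theorem spaced {ρ : Type*} (S : Finset ρ) (t : ρ → ℝ) {Q η : ℝ} (hQ : 0 < Q) (hη : 0 < η)
    (hs : ∀ r ∈ S, ∀ s ∈ S, r ≠ s → 1 / Q ≤ |t r - t s|) :
    ∑ s ∈ S, 1 / (|t s| + η) ^ 2 ≤ 2 * (1 / η ^ 2 + Q / η) := by
  rw [← sum_filter_add_sum_filter_not S fun s => 0 ≤ t s]
  have h1 := spaced_nonneg (S.filter fun s => 0 ≤ t s) t hQ hη (fun s h => (mem_filter.1 h).2)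
    fun r hr s hs' => hs r (mem_filter.1 hr).1 s (mem_filter.1 hs').1
  have h2 := spaced_nonneg (S.filter fun s => ¬ 0 ≤ t s) (fun s => -t s) hQ hη
    (fun s h => by have := (mem_filter.1 h).2; linarith)
    fun r hr s hs' hne => by
      rw [neg_sub_neg, abs_sub_comm]
      exact hs r (mem_filter.1 hr).1 s (mem_filter.1 hs').1 hne
  rw [sum_congr rfl fun s h => by rw [abs_of_nonneg (mem_filter.1 h).2],
    sum_congr rfl (s₁ := S.filter fun s => ¬ 0 ≤ t s) fun s h => by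
      rw [abs_of_neg (not_le.1 (mem_filter.1 h).2)]]
  linarith

/-- The additive large sieve. -/
theorem add_ls {ρ : Type*} (S : Finset ρ) (α : ρ → ℝ) {Q : ℝ} (hQ : 0 < Q)
    (hs : ∀ r ∈ S, ∀ s ∈ S, r ≠ s → ∀ k : ℤ, 1 / Q ≤ |α r - α s - k|) (N : ℕ) (a : ℕ → ℂ) :
    ∑ r ∈ S, ‖∑ n ∈ Icc 1 N, a n * ee (n * α r)‖ ^ 2 ≤
      41 * (N + Q) * ∑ n ∈ Icc 1 N, ‖a n‖ ^ 2 := by
  rcases Nat.eq_zero_or_pos N with rfl | hN
  · simp
  have N1 : (1 : ℝ) ≤ N := by exact_mod_cast hN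
  set η : ℝ := 1 / (3 * N) with hη
  have η0 : 0 < η := by positivity
  let a' : ℕ × ℕ → ℂ := fun x => if x.1 < x.2 ∧ x.2 ≤ x.1 + N then a (x.2 - x.1) else 0
  have shift : ∀ {M : Type} [AddCommMonoid M] (g : ℕ → M), ∀ y < N, ∑ x ∈ range (2 * N + 1),
      (if y < x ∧ x ≤ y + N then g (x - y) else 0) = ∑ n ∈ Icc 1 N, g n := by
    intro M _ g y hy
    rw [← sum_filter]
    refine sum_nbij' (fun x => x - y) (fun n => n + y) ?_ ?_ ?_ ?_ ?_
    · intro x hx; simp only [mem_filter, mem_range, mem_Icc] at hx ⊢; omega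
    · intro x hx; simp only [mem_filter, mem_range, mem_Icc] at hx ⊢; omega
    · intro x hx; simp only [mem_filter, mem_range] at hx ⊢; omega
    · intro x hx; simp only [mem_Icc] at hx ⊢; omega
    · intro x _; rfl
  have key := bombieri S (range N ×ˢ range (2 * N + 1)) (fun _ => 1)
    (fun r x => ee (((x.2 : ℝ) - x.1) * α r)) a' (Δ := 9 / 4 * (2 * (1 / η ^ 2 + Q / η)))
    (by positivity) (fun _ _ => zero_le_one) (fun _ _ _ => le_rfl) fun r hr => by
      have h1 := spaced S (fun s => α r - α s - round (α r - α s)) hQ η0 fun s hs1 s' hs2 hne => by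
        have := hs s' hs2 s hs1 hne.symm (round (α r - α s) - round (α r - α s'))
        refine this.trans (le_of_eq ?_)
        congr 1; push_cast; ring
      refine le_trans ?_ (mul_le_mul_of_nonneg_left h1 (by norm_num))
      rw [mul_sum]
      refine sum_le_sum fun s _ => ?_
      have e : ∑ x ∈ range N ×ˢ range (2 * N + 1), ((1 : ℝ) : ℂ) *
          (ee (((x.2 : ℝ) - x.1) * α r) * star (ee (((x.2 : ℝ) - x.1) * α s))) =
          star (∑ y ∈ range N, ee (y * (α r - α s))) *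
            ∑ x ∈ range (2 * N + 1), ee (x * (α r - α s)) := by
        rw [sum_product, star_sum, sum_mul_sum]
        refine sum_congr rfl fun y _ => sum_congr rfl fun x _ => ?_
        rw [star_ee, star_ee, ← ee_add, ← ee_add, Complex.ofReal_one, one_mul]
        congr 1; ring
      rw [e, norm_mul, norm_star]
      have b1 := norm_dir_le N (α r - α s) η0 (by
        rw [hη, mul_one_div, div_le_one (by positivity)]; linarith)
      have b2 := norm_dir_le (2 * N + 1) (α r - α s) η0 (by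
        rw [hη, mul_one_div, div_le_one (by positivity)]; push_cast; linarith)
      refine (mul_le_mul b1 b2 (norm_nonneg _) (by positivity)).trans (le_of_eq ?_)
      have := abs_nonneg (α r - α s - round (α r - α s))
      field_simp; ring
  have e1 : ∀ r, ∑ x ∈ range N ×ˢ range (2 * N + 1), a' x * ee (((x.2 : ℝ) - x.1) * α r) =
      N * ∑ n ∈ Icc 1 N, a n * ee (n * α r) := fun r => by
    rw [sum_product, sum_congr rfl fun y hy => ?_, sum_const, card_range, nsmul_eq_mul]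
    rw [← shift (fun n => a n * ee (n * α r)) y (mem_range.1 hy)]
    refine sum_congr rfl fun x _ => ?_
    simp only [a']
    split_ifs with h
    · rw [Nat.cast_sub h.1.le]
    · simp
  have e2 : ∑ x ∈ range N ×ˢ range (2 * N + 1), ‖a' x‖ ^ 2 = N * ∑ n ∈ Icc 1 N, ‖a n‖ ^ 2 := by
    rw [sum_product, sum_congr rfl fun y hy => ?_, sum_const, card_range, nsmul_eq_mul]
    rw [← shift (fun n => ‖a n‖ ^ 2) y (mem_range.1 hy)]
    refine sum_congr rfl fun x _ => ?_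
    simp only [a']
    split_ifs with h <;> simp
  simp only [e1, e2, norm_mul, Complex.norm_natCast, mul_pow] at key
  rw [← mul_sum] at key
  have e3 : 9 / 4 * (2 * (1 / η ^ 2 + Q / η)) = N * (81 / 2 * N + 27 / 2 * Q) := by
    rw [hη]; field_simp; ring
  rw [e3] at key
  have a0 : 0 ≤ ∑ n ∈ Icc 1 N, ‖a n‖ ^ 2 := sum_nonneg fun _ _ => sq_nonneg _
  have h2 : ∑ r ∈ S, ‖∑ n ∈ Icc 1 N, a n * ee (n * α r)‖ ^ 2 ≤
      (81 / 2 * N + 27 / 2 * Q) * ∑ n ∈ Icc 1 N, ‖a n‖ ^ 2 :=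
    le_of_mul_le_mul_left (a := (N : ℝ) ^ 2) (key.trans (le_of_eq (by ring))) (by positivity)
  exact h2.trans (mul_le_mul_of_nonneg_right (by linarith) a0)

end Pool.Agent.Lib.MP_fc51f7_nt.LS
end

-- part Pool.Agent.Lib.MP_fc51f7_nt.LSW
section

/-! Selberg weights (copied from `Lib/MP_696deb_nt/DensityLS`) and the majorant they define. -/

set_option autoImplicit false

namespace Pool.Agent.Lib.MP_fc51f7_nt.LS

open Finset
open scoped ArithmeticFunction.Moebius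

theorem log_le_sum_inv (R : ℕ) : Real.log R ≤ ∑ n ∈ Icc 1 R, (1 : ℝ) / n := by
  have h := log_add_one_le_harmonic R
  rw [harmonic_eq_sum_Icc] at h
  push_cast at h
  simp only [one_div]
  refine le_trans ?_ h
  rcases Nat.eq_zero_or_pos R with rfl | hR
  · simp
  · exact Real.log_le_log (by exact_mod_cast hR) (by linarith)

theorem sum_inv_sq_le (R : ℕ) : ∑ n ∈ Icc 1 R, (1 : ℝ) / (n : ℝ) ^ 2 ≤ 2 := by
  have : ∀ R : ℕ, ∑ n ∈ Icc 1 (R + 1), (1 : ℝ) / (n : ℝ) ^ 2 ≤ 2 - 1 / (R + 1) := by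
    intro R
    induction R with
    | zero => norm_num
    | succ R ih =>
      rw [sum_Icc_succ_top (by omega)]
      push_cast
      have : (1 : ℝ) / (R + 1 + 1) ^ 2 ≤ 1 / (R + 1) - 1 / (R + 1 + 1) := by
        rw [div_sub_div _ _ (by positivity) (by positivity), div_le_div_iff₀ (by positivity)
          (by positivity)]
        nlinarith [Nat.cast_nonneg (α := ℝ) R]
      linarith
  rcases R with _ | R
  · simp
  · have h := this R
    have : (0 : ℝ) ≤ 1 / (R + 1) := by positivity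
    linarith

theorem log_le_sqfree_sum (R : ℕ) :
    Real.log R ≤ 2 * ∑ l ∈ Icc 1 R, ((μ l : ℝ)) ^ 2 / l := by
  refine (log_le_sum_inv R).trans ?_
  have h : ∑ n ∈ Icc 1 R, (1 : ℝ) / n ≤
      ∑ x ∈ Icc 1 R ×ˢ Icc 1 R, (1 : ℝ) / (x.1 : ℝ) ^ 2 * (((μ x.2 : ℝ)) ^ 2 / x.2) := by
    choose a b hab hsq using Nat.sq_mul_squarefree
    refine sum_le_sum_inj (fun n => (b n, a n)) ?_ ?_ ?_ ?_
    · intro n _ n' _ h
      simp only [Prod.mk.injEq] at h
      rw [← hab n, ← hab n', h.1, h.2]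
    · intro n hn
      rw [mem_Icc] at hn
      have h1 := hab n
      have ha : 0 < a n := Nat.pos_of_ne_zero (hsq n).ne_zero
      have hb : 0 < b n := Nat.pos_of_ne_zero fun h => by rw [h] at h1; simp at h1; omega
      simp only [mem_product, mem_Icc]
      refine ⟨⟨hb, ?_⟩, ha, ?_⟩ <;> nlinarith [pow_pos hb 2]
    · intro n _
      have : ((μ (a n) : ℝ)) ^ 2 = 1 := by
        exact_mod_cast ArithmeticFunction.moebius_sq_eq_one_of_squarefree (hsq n)
      simp only [this]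
      conv_lhs => rw [← hab n]
      push_cast
      rw [div_mul_div_comm, one_mul]
    · intro x _; positivity
  refine h.trans ?_
  rw [sum_product]
  simp only
  rw [← sum_mul_sum]
  exact mul_le_mul_of_nonneg_right (sum_inv_sq_le R) (sum_nonneg fun _ _ => by positivity)

theorem sum_moebius_between {l k R : ℕ} (hk : k ∈ Icc 1 R) :
    ∑ e ∈ Icc 1 R, (if l ∣ e ∧ e ∣ k then (μ (k / e) : ℝ) else 0) = if k = l then 1 else 0 := by
  rw [mem_Icc] at hk
  by_cases hl : l ∣ k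
  · obtain ⟨j, rfl⟩ := hl
    have hl0 : 0 < l := Nat.pos_of_ne_zero (by rintro rfl; simp at hk)
    have hj0 : 0 < j := Nat.pos_of_ne_zero (by rintro rfl; simp at hk)
    rw [← sum_filter]
    have : ∑ e ∈ (Icc 1 R).filter (fun e => l ∣ e ∧ e ∣ l * j), (μ (l * j / e) : ℝ) =
        ∑ f ∈ j.divisors, (μ (j / f) : ℝ) := by
      symm
      refine sum_bij (fun f _ => l * f) (fun f hf => ?_) (fun f _ g _ h => ?_) (fun e he => ?_)
        fun f hf => ?_
      · have h1 := Nat.dvd_of_mem_divisors hf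
        have h2 := Nat.pos_of_mem_divisors hf
        simp only [mem_filter, mem_Icc]
        exact ⟨⟨Nat.mul_pos hl0 h2, (Nat.mul_le_mul_left l (Nat.le_of_dvd hj0 h1)).trans hk.2⟩,
          dvd_mul_right _ _, Nat.mul_dvd_mul_left l h1⟩
      · exact Nat.eq_of_mul_eq_mul_left hl0 h
      · simp only [mem_filter] at he
        obtain ⟨-, ⟨f, rfl⟩, h2⟩ := he
        exact ⟨f, Nat.mem_divisors.2 ⟨Nat.dvd_of_mul_dvd_mul_left hl0 h2, hj0.ne'⟩, rfl⟩
      · rw [Nat.mul_div_mul_left _ _ hl0]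
    rw [this, Nat.sum_div_divisors j (fun f => (μ f : ℝ))]
    have h2 := congrArg (fun f : ArithmeticFunction ℤ => f j) ArithmeticFunction.moebius_mul_coe_zeta
    simp only [ArithmeticFunction.coe_mul_zeta_apply, ArithmeticFunction.one_apply] at h2
    have h3 : (l * j = l) ↔ j = 1 := by
      constructor
      · intro h; exact Nat.eq_of_mul_eq_mul_left hl0 (by rw [h, mul_one])
      · rintro rfl; simp
    simp only [h3]
    exact_mod_cast h2
  · rw [if_neg (fun h : k = l => hl (h ▸ dvd_rfl))]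
    exact sum_eq_zero fun e _ => if_neg fun h => hl (h.1.trans h.2)

theorem selberg_weights {R : ℕ} (hR : 2 ≤ R) : ∃ w : ℕ → ℝ, w 1 = 1 ∧
    ∑ e ∈ Icc 1 R, |w e| ≤ (R : ℝ) ^ 3 ∧
    ∑ e ∈ Icc 1 R, ∑ f ∈ Icc 1 R, w e * w f / (Nat.lcm e f : ℝ) ≤ 2 / Real.log R := by
  set H := ∑ l ∈ Icc 1 R, ((μ l : ℝ)) ^ 2 / l with hH
  have hlog : 0 < Real.log R := Real.log_pos (by exact_mod_cast hR)
  have hH1 : 1 ≤ H := by
    have := single_le_sum (f := fun l : ℕ => ((μ l : ℝ)) ^ 2 / l) (s := Icc 1 R)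
      (fun _ _ => by positivity) (show 1 ∈ Icc 1 R by simp; omega)
    simpa using this
  have hμ : ∀ n, |(μ n : ℝ)| ≤ 1 := fun n => by exact_mod_cast ArithmeticFunction.abs_moebius_le_one
  let y : ℕ → ℝ := fun k => μ k / (k * H)
  let w : ℕ → ℝ := fun e => e * ∑ k ∈ Icc 1 R, if e ∣ k then μ (k / e) * y k else 0
  have hy : ∀ l ∈ Icc 1 R, ∑ e ∈ Icc 1 R, (if l ∣ e then w e / e else 0) = y l := by
    intro l hl
    have : ∀ e ∈ Icc 1 R, (if l ∣ e then w e / e else 0) =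
        ∑ k ∈ Icc 1 R, (if l ∣ e ∧ e ∣ k then (μ (k / e) : ℝ) else 0) * y k := by
      intro e he
      have he0 : (e : ℝ) ≠ 0 := by rw [mem_Icc] at he; have : 0 < e := he.1; positivity
      by_cases h : l ∣ e
      · simp only [h, if_true, true_and, w, ite_mul, zero_mul]
        rw [mul_div_cancel_left₀ _ he0]
      · simp [h]
    rw [sum_congr rfl this, sum_comm]
    simp only [← sum_mul]
    rw [sum_congr rfl fun k hk => by rw [sum_moebius_between hk]]
    simp [hl]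
  refine ⟨w, ?_, ?_, ?_⟩
  · simp only [w, y, Nat.cast_one, one_mul, one_dvd, if_true, Nat.div_one]
    rw [← div_self (show H ≠ 0 by linarith)]
    conv_rhs => rw [hH, sum_div]
    refine sum_congr rfl fun k _ => ?_
    rw [← hH]; ring
  · calc ∑ e ∈ Icc 1 R, |w e| ≤ ∑ e ∈ Icc 1 R, (R : ℝ) ^ 2 := by
          refine sum_le_sum fun e he => ?_
          rw [mem_Icc] at he
          simp only [w, abs_mul, Nat.abs_cast, pow_two]
          refine mul_le_mul (by exact_mod_cast he.2) ((abs_sum_le_sum_abs _ _).trans ?_)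
            (abs_nonneg _) (by positivity)
          refine (sum_le_card_nsmul _ _ 1 fun k hk => ?_).trans (by simp)
          rw [mem_Icc] at hk
          split_ifs
          · have h1 : (1 : ℝ) ≤ k := by exact_mod_cast hk.1
            rw [abs_mul]
            refine mul_le_one₀ (hμ _) (abs_nonneg _) ?_
            simp only [y]
            rw [abs_div, abs_of_pos (show 0 < k * H by positivity), div_le_one (by positivity)]
            exact (hμ k).trans (by nlinarith)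
          · simp
      _ = (R : ℝ) ^ 3 := by simp; ring
  · have e1 : ∀ e ∈ Icc 1 R, ∀ f ∈ Icc 1 R, w e * w f / (Nat.lcm e f : ℝ) =
        ∑ l ∈ Icc 1 R, (l.totient : ℝ) * ((if l ∣ e then w e / e else 0) *
          (if l ∣ f then w f / f else 0)) := by
      intro e he f hf
      rw [mem_Icc] at he hf
      have g0 : 0 < Nat.gcd e f := Nat.gcd_pos_of_pos_left _ he.1
      have h1 : ∑ l ∈ Icc 1 R, (if l ∣ e ∧ l ∣ f then (l.totient : ℝ) else 0) = Nat.gcd e f := by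
        rw [← sum_filter, ← Nat.sum_totient (Nat.gcd e f)]
        push_cast
        refine sum_congr ?_ fun _ _ => rfl
        ext l
        simp only [mem_filter, mem_Icc, Nat.mem_divisors, Nat.dvd_gcd_iff]
        constructor
        · rintro ⟨-, h⟩; exact ⟨h, g0.ne'⟩
        · rintro ⟨h, -⟩
          exact ⟨⟨Nat.pos_of_dvd_of_pos h.1 he.1, (Nat.le_of_dvd he.1 h.1).trans he.2⟩, h⟩
      have h2 : (Nat.gcd e f : ℝ) * Nat.lcm e f = e * f := by exact_mod_cast Nat.gcd_mul_lcm e f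
      have e0 : (e : ℝ) ≠ 0 := by have := he.1; positivity
      have f0 : (f : ℝ) ≠ 0 := by have := hf.1; positivity
      have l0 : (Nat.lcm e f : ℝ) ≠ 0 := by
        have := Nat.lcm_pos he.1 hf.1; positivity
      calc w e * w f / (Nat.lcm e f : ℝ) = Nat.gcd e f * (w e / e * (w f / f)) := by
            field_simp; linear_combination (-(w e * w f)) * h2
        _ = _ := by
            rw [← h1, sum_mul]
            refine sum_congr rfl fun l _ => ?_
            by_cases a : l ∣ e <;> by_cases b : l ∣ f <;> simp [a, b]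
    rw [sum_congr rfl fun e he => sum_congr rfl fun f hf => e1 e he f hf]
    have e2 : ∑ e ∈ Icc 1 R, ∑ f ∈ Icc 1 R, ∑ l ∈ Icc 1 R, (l.totient : ℝ) *
        ((if l ∣ e then w e / e else 0) * (if l ∣ f then w f / f else 0)) =
        ∑ l ∈ Icc 1 R, (l.totient : ℝ) * (y l * y l) := by
      rw [sum_congr rfl fun e _ => sum_comm, sum_comm]
      refine sum_congr rfl fun l hl => ?_
      simp only [← mul_sum]
      rw [← sum_mul, hy l hl]
    rw [e2]
    calc ∑ l ∈ Icc 1 R, (l.totient : ℝ) * (y l * y l) ≤ ∑ l ∈ Icc 1 R, ((μ l : ℝ)) ^ 2 / l / H ^ 2 := by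
          refine sum_le_sum fun l hl => ?_
          rw [mem_Icc] at hl
          have h1 : (0 : ℝ) < l := by exact_mod_cast hl.1
          have h2 : (l.totient : ℝ) ≤ l := by exact_mod_cast Nat.totient_le l
          refine (mul_le_mul_of_nonneg_right h2 (mul_self_nonneg _)).trans (le_of_eq ?_)
          simp only [y]; field_simp
      _ = 1 / H := by rw [← sum_div, ← hH]; field_simp
      _ ≤ 2 / Real.log R := by
          rw [div_le_div_iff₀ (by linarith) hlog]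
          linarith [log_le_sqfree_sum R]

theorem sum_Icc_dvd (N : ℕ) {l : ℕ} (hl : 0 < l) (g : ℕ → ℂ) :
    ∑ n ∈ Icc 1 N, (if l ∣ n then g n else 0) = ∑ k ∈ Ico 1 (N / l + 1), g (l * k) := by
  rw [← sum_filter]
  symm
  refine sum_bij (fun k _ => l * k) (fun k hk => ?_) (fun f _ g _ h => ?_) (fun e he => ?_)
    fun f hf => rfl
  · simp only [mem_Ico, mem_filter, mem_Icc] at hk ⊢
    refine ⟨⟨Nat.mul_pos hl hk.1, ?_⟩, dvd_mul_right _ _⟩
    rw [mul_comm, ← Nat.le_div_iff_mul_le hl]; omega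
  · exact Nat.eq_of_mul_eq_mul_left hl h
  · simp only [mem_filter, mem_Icc] at he
    obtain ⟨⟨h1, h2⟩, k, rfl⟩ := he
    refine ⟨k, ?_, rfl⟩
    rw [mul_comm, ← Nat.le_div_iff_mul_le hl] at h2
    have : k ≠ 0 := by rintro rfl; simp at h1
    simp only [mem_Ico]; omega

/-- The Selberg majorant of the integers free of primes up to `R`. -/
theorem exists_majorant (N : ℕ) {R : ℕ} (hR : 2 ≤ R) : ∃ ν : ℕ → ℝ, (∀ n, 0 ≤ ν n) ∧
    (∀ n, (∀ p : ℕ, p.Prime → p ∣ n → R < p) → ν n = 1) ∧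
    ∑ n ∈ Icc 1 N, ν n ≤ 2 * N / Real.log R + (R : ℝ) ^ 6 ∧
    ∀ (g : ℕ → ℂ) (B : ℝ), 0 ≤ B → (∀ l K, ‖∑ k ∈ Ico 1 K, g (l * k)‖ ≤ B) →
      ‖∑ n ∈ Icc 1 N, (ν n : ℂ) * g n‖ ≤ (R : ℝ) ^ 6 * B := by
  obtain ⟨w, w1, w2, w3⟩ := selberg_weights hR
  let ν : ℕ → ℝ := fun n => (∑ e ∈ Icc 1 R, if e ∣ n then w e else 0) ^ 2
  have expand : ∀ g : ℕ → ℂ, ∑ n ∈ Icc 1 N, (ν n : ℂ) * g n = ∑ e ∈ Icc 1 R, ∑ f ∈ Icc 1 R,
      ((w e * w f : ℝ) : ℂ) * ∑ k ∈ Ico 1 (N / Nat.lcm e f + 1), g (Nat.lcm e f * k) := by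
    intro g
    have : ∀ n, (ν n : ℂ) * g n = ∑ e ∈ Icc 1 R, ∑ f ∈ Icc 1 R,
        ((w e * w f : ℝ) : ℂ) * if Nat.lcm e f ∣ n then g n else 0 := fun n => by
      simp only [ν, Nat.lcm_dvd_iff]
      rw [pow_two, sum_mul_sum, Complex.ofReal_sum, sum_mul]
      refine sum_congr rfl fun e _ => ?_
      rw [Complex.ofReal_sum, sum_mul]
      refine sum_congr rfl fun f _ => ?_
      by_cases a : e ∣ n <;> by_cases b : f ∣ n <;> simp [a, b]
    simp only [this]
    rw [sum_comm]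
    refine sum_congr rfl fun e he => ?_
    rw [sum_comm]
    refine sum_congr rfl fun f hf => ?_
    rw [mem_Icc] at he hf
    rw [← mul_sum, sum_Icc_dvd _ (Nat.lcm_pos he.1 hf.1)]
  have bnd : ∀ (c : ℕ → ℕ → ℂ) (B : ℝ), 0 ≤ B → (∀ e ∈ Icc 1 R, ∀ f ∈ Icc 1 R, ‖c e f‖ ≤ B) →
      ‖∑ e ∈ Icc 1 R, ∑ f ∈ Icc 1 R, ((w e * w f : ℝ) : ℂ) * c e f‖ ≤ (R : ℝ) ^ 6 * B := by
    intro c B hB hc
    calc _ ≤ ∑ e ∈ Icc 1 R, ∑ f ∈ Icc 1 R, |w e| * |w f| * B := by
          refine (norm_sum_le _ _).trans (sum_le_sum fun e he =>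
            (norm_sum_le _ _).trans (sum_le_sum fun f hf => ?_))
          rw [norm_mul, Complex.norm_real, Real.norm_eq_abs, abs_mul]
          exact mul_le_mul_of_nonneg_left (hc e he f hf) (by positivity)
      _ = (∑ e ∈ Icc 1 R, |w e|) * (∑ e ∈ Icc 1 R, |w e|) * B := by
          rw [sum_mul_sum, sum_mul]; simp only [sum_mul]
      _ ≤ (R : ℝ) ^ 3 * (R : ℝ) ^ 3 * B := by
          have : 0 ≤ ∑ e ∈ Icc 1 R, |w e| := sum_nonneg fun _ _ => abs_nonneg _
          gcongr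
      _ = _ := by ring
  refine ⟨ν, fun n => sq_nonneg _, fun n hn => ?_, ?_, fun g B hB hg => ?_⟩
  · simp only [ν]
    rw [sum_eq_single 1, if_pos (one_dvd _), w1, one_pow]
    · intro e he he1
      rw [mem_Icc] at he
      refine if_neg fun h => ?_
      have h1 := hn _ (Nat.minFac_prime he1) ((Nat.minFac_dvd e).trans h)
      have h2 := Nat.minFac_le he.1
      omega
    · intro h; exact absurd (show 1 ∈ Icc 1 R by simp; omega) h
  · have h1 := expand fun _ => 1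
    simp only [mul_one, sum_const, Nat.card_Ico, nsmul_eq_mul, Nat.add_sub_cancel] at h1
    have h2 := bnd (fun e f => ((((N / Nat.lcm e f : ℕ) : ℝ) - N / Nat.lcm e f : ℝ) : ℂ)) 1
      zero_le_one fun e he f hf => by
        rw [mem_Icc] at he hf
        have l0 := Nat.lcm_pos he.1 hf.1
        generalize Nat.lcm e f = l at l0
        have b2 : ((N / l : ℕ) : ℝ) ≤ N / l := Nat.cast_div_le
        have c : (N : ℝ) / l < (N / l : ℕ) + 1 := by
          rw [div_lt_iff₀ (by exact_mod_cast l0)]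
          exact_mod_cast Nat.lt_div_mul_add l0 |>.trans_eq (by ring)
        rw [Complex.norm_real, Real.norm_eq_abs, abs_le]; constructor <;> linarith
    have h1' : ∑ n ∈ Icc 1 N, ν n = ∑ e ∈ Icc 1 R, ∑ f ∈ Icc 1 R,
        w e * w f * ((N / Nat.lcm e f : ℕ) : ℝ) := by exact_mod_cast h1
    simp only [← Complex.ofReal_mul, ← Complex.ofReal_sum, Complex.norm_real,
      Real.norm_eq_abs] at h2
    have h3 := (abs_le.1 h2).2
    simp only [mul_sub, sum_sub_distrib] at h3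
    have h4 : ∑ e ∈ Icc 1 R, ∑ f ∈ Icc 1 R, w e * w f * ((N : ℝ) / Nat.lcm e f) =
        N * ∑ e ∈ Icc 1 R, ∑ f ∈ Icc 1 R, w e * w f / (Nat.lcm e f : ℝ) := by
      simp only [mul_sum]
      exact sum_congr rfl fun e _ => sum_congr rfl fun f _ => by ring
    have h5 := mul_le_mul_of_nonneg_left w3 (Nat.cast_nonneg (α := ℝ) N)
    have : (N : ℝ) * (2 / Real.log R) = 2 * N / Real.log R := by ring
    linarith
  · rw [expand]
    exact bnd _ _ hB fun e _ f _ => hg _ _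

theorem sum_range_zero {g : ℕ → ℂ} {P : ℕ} (hP : 0 < P) (hm : ∀ a b, g (a * b) = g a * g b)
    (hp : ∀ n, g (n + P) = g n) {m : ℕ} (hc : m.Coprime P) (h1 : g m ≠ 1) :
    ∑ n ∈ range P, g n = 0 := by
  have hmod : ∀ n, g (n % P) = g n := fun n => Function.Periodic.map_mod_nat hp n
  have hinj : Set.InjOn (fun n => m * n % P) (range P : Finset ℕ) := fun a ha b hb h =>
    Nat.ModEq.eq_of_lt_of_lt (Nat.ModEq.cancel_left_of_coprime hc.symm h)
      (mem_range.1 ha) (mem_range.1 hb)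
  have him : (range P).image (fun n => m * n % P) = range P :=
    eq_of_subset_of_card_le (image_subset_iff.2 fun n _ => mem_range.2 (Nat.mod_lt _ hP))
      (by rw [card_image_of_injOn hinj])
  have e : ∑ n ∈ range P, g n = g m * ∑ n ∈ range P, g n := by
    conv_lhs => rw [← him, sum_image hinj]
    rw [mul_sum]
    exact sum_congr rfl fun n _ => by rw [hmod, hm]
  have : (1 - g m) * ∑ n ∈ range P, g n = 0 := by linear_combination e
  exact (mul_eq_zero.1 this).resolve_left (sub_ne_zero.2 h1.symm)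

theorem norm_sum_Ico_le {g : ℕ → ℂ} {P : ℕ} (hP : 0 < P) (hp : ∀ n, g (n + P) = g n)
    (h1 : ∀ n, ‖g n‖ ≤ 1) (h0 : ∑ n ∈ range P, g n = 0) (A B : ℕ) :
    ‖∑ n ∈ Ico A B, g n‖ ≤ P := by
  have per : ∀ B, ∑ n ∈ range (B + P), g n = ∑ n ∈ range B, g n := by
    intro B
    induction B with
    | zero => simpa using h0
    | succ B ih => rw [Nat.add_right_comm, sum_range_succ, sum_range_succ, ih, hp]
  induction B using Nat.strong_induction_on with
  | _ B ih =>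
    by_cases h : B ≤ A + P
    · calc ‖∑ n ∈ Ico A B, g n‖ ≤ ∑ n ∈ Ico A B, ‖g n‖ := norm_sum_le _ _
        _ ≤ ∑ n ∈ Ico A B, (1 : ℝ) := sum_le_sum fun n _ => h1 n
        _ ≤ P := by
          rw [sum_const, Nat.card_Ico, nsmul_eq_mul, mul_one]
          exact_mod_cast (by omega : B - A ≤ P)
    · obtain ⟨B', rfl⟩ : ∃ B', B = B' + P := ⟨B - P, by omega⟩
      have := ih B' (by omega)
      rwa [sum_Ico_eq_sub _ (by omega), per, ← sum_Ico_eq_sub _ (by omega)]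

end Pool.Agent.Lib.MP_fc51f7_nt.LS
end

-- part Pool.Agent.Lib.MP_fc51f7_nt.Defs
section

/-! Definitions for the four-form Selberg sieve (almost prime quadruplets). -/

set_option autoImplicit false

namespace Pool.Agent.Lib.MP_fc51f7_nt

open Finset Filter Topology

noncomputable section

/-- Local mean-zero function at the prime `p`. -/
def xi (p : ℕ) (m : ℤ) : ℝ := if (p : ℤ) ∣ m then -1 else ((p : ℝ) - 1)⁻¹

section

variable {ι κ : Type}

def Xi (q : ι → ℕ) (T : Finset ι) (m : ℤ) : ℝ := ∏ i ∈ T, xi (q i) m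

def lg (q : ι → ℕ) (T : Finset ι) : ℝ := ∑ i ∈ T, Real.log (q i)

def wt (q : ι → ℕ) (T : Finset ι) : ℝ := ∏ i ∈ T, ((q i : ℝ) - 1)⁻¹

def loc (p : ℕ) (g : κ → ℤ) (A : Finset κ) (m : ℤ) : ℝ := ∏ j ∈ A, xi p (m + g j)

/-- Average over the units modulo `p`. -/
def ubar (p : ℕ) (g : κ → ℤ) (A A' : Finset κ) : ℝ :=
  ((p : ℝ) - 1)⁻¹ * ∑ r ∈ Ico 1 p, loc p g A r * loc p g A' r

/-- The value in the independent model. -/
def ind [DecidableEq κ] (p : ℕ) (A A' : Finset κ) : ℝ :=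
  if A = A' then ((p : ℝ) - 1)⁻¹ ^ A.card else 0

variable [Fintype ι] [DecidableEq ι] [Fintype κ] [DecidableEq κ]

def tr (T : κ → Finset ι) (i : ι) : Finset κ := univ.filter fun j => i ∈ T j

def lgs (q : ι → ℕ) (T : κ → Finset ι) : ℝ := ∑ j, lg q (T j)

def wts (q : ι → ℕ) (T : κ → Finset ι) : ℝ := ∏ j, wt q (T j)

/-- The sieve sum for the forms `m + g j`. -/
def SS (q : ι → ℕ) (g : κ → ℤ) (y : (κ → Finset ι) → ℝ) (m : ℤ) : ℝ :=
  ∑ T : κ → Finset ι, y T * ∏ j, Xi q (T j) (m + g j)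

/-- Mean of `SS y * SS y'` over the units. -/
def Tbar (q : ι → ℕ) (g : κ → ℤ) (y y' : (κ → Finset ι) → ℝ) : ℝ :=
  ∑ T : κ → Finset ι, ∑ U : κ → Finset ι, y T * y' U * ∏ i, ubar (q i) g (tr T i) (tr U i)

def Zf (q : ι → ℕ) (s : ℝ) : ℝ :=
  ∏ i, (1 + Real.exp (-(s * Real.log (q i))) * ((q i : ℝ) - 1)⁻¹)

/-- The one-form sieve sum with profile `f`. -/
def S1 (q : ι → ℕ) (L : ℝ) (f : ℝ → ℝ) (m : ℤ) : ℝ :=
  ∑ T : Finset ι, f (lg q T / L) * Xi q T m

end

section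

variable {ι : Type} [Fintype ι] [DecidableEq ι] (q : ι → ℕ)

/-- Families of local characters. -/
abbrev Ch : Type := ∀ i, MulChar (ZMod (q i)) ℂ

open Classical in
def supp (χ : Ch q) : Finset ι := univ.filter fun i => χ i ≠ 1

def cond (χ : Ch q) : ℕ := ∏ i ∈ supp q χ, q i

def ev (χ : Ch q) (n : ℕ) : ℂ := ∏ i ∈ supp q χ, χ i (n : ZMod (q i))

end

/-- The sieving primes. -/
def PP (D x : ℕ) : Finset ℕ := (Ioc D ⌊Real.exp (Real.log x ^ 2)⌋₊).filter Nat.Prime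

def qq (D x : ℕ) : PP D x → ℕ := Subtype.val

/-- `B = (φ(W)/W) log x`, `W` the primorial of `D`. -/
def BB (D x : ℕ) : ℝ := Real.log x * ∏ p ∈ Nat.primesLE D, (1 - (p : ℝ)⁻¹)

/-- Weighted point configurations `∑ c δ_t` converge vaguely to `c0 δ_0 + ρ(t) dt`. -/
def Conv {α : ℕ → Type} (s : ∀ x, Finset (α x)) (c t : ∀ x, α x → ℝ) (c0 : ℝ) (ρ : ℝ → ℝ) :
    Prop :=
  (∀ x, ∀ i ∈ s x, 0 ≤ c x i ∧ 0 ≤ t x i) ∧ Continuous ρ ∧ (∀ u, 0 ≤ u → 0 ≤ ρ u) ∧ 0 ≤ c0 ∧
  ∀ g : ℝ → ℝ, Continuous g → ∀ T : ℝ, 0 ≤ T → (∀ u, T ≤ u → g u = 0) →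
    Tendsto (fun x => ∑ i ∈ s x, c x i * g (t x i)) atTop
      (𝓝 (c0 * g 0 + ∫ u in (0 : ℝ)..T, g u * ρ u))

/-- Box index for the bilinear sums. -/
def box (δ : ℝ) (m : ℕ) : ℕ := ⌊Real.log m / δ⌋₊

/-- The radial profile. -/
def Pz (z : ℝ) : ℝ := max (min z (1 / 3)) 0 + 6 * max (min z (1 / 3)) 0 ^ 2

def fL (L t : ℝ) : ℝ := Pz (L - t)

def nn (L : ℝ) : ℝ := ∫ t in (0 : ℝ)..1, fL L t ^ 2

def DD (L u : ℝ) : ℝ := ∫ t in (0 : ℝ)..1, (fL L t - fL L (t + u)) ^ 2

def HH (L v : ℝ) : ℝ := ∫ t in (0 : ℝ)..v, fL L t ^ 2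

/-- The limiting cost of one layer. -/
def cost (η Λ : ℝ) (ω : ℝ → ℝ) (L : ℝ) : ℝ :=
  (1 + Λ) * nn L + (∫ u in η..(339 / 1000), (1 - (1 + Λ) * u) * DD L u / u) +
    ∫ v in (0 : ℝ)..(662 / 1000), ω v * HH L v

end

end Pool.Agent.Lib.MP_fc51f7_nt
end

-- part Pool.Agent.Lib.MP_fc51f7_nt.LS
section

/-! The multiplicative large sieve for families of local characters. -/

set_option autoImplicit false
set_option linter.unusedSectionVars false

namespace Pool.Agent.Lib.MP_fc51f7_nt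

open Finset Filter Topology MeasureTheory

namespace LS

section
variable {p : ℕ} [Fact p.Prime]

open Classical in
/-- The kernel expanding a local character in additive characters. -/
noncomputable def kk (χ : MulChar (ZMod p) ℂ) (c : ZMod p) : ℂ :=
  if χ = 1 then (if c = 0 then 1 else 0) else χ⁻¹ c / gaussSum χ⁻¹ ZMod.stdAddChar

theorem gauss_mul_star {χ : MulChar (ZMod p) ℂ} (h : χ ≠ 1) :
    gaussSum χ ZMod.stdAddChar * star (gaussSum χ ZMod.stdAddChar) = p := by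
  rw [star_gaussSum_eq, gaussSum_mul_gaussSum_eq_card h (ZMod.isPrimitive_stdAddChar p), ZMod.card]

theorem gauss_ne {χ : MulChar (ZMod p) ℂ} (h : χ ≠ 1) : gaussSum χ ZMod.stdAddChar ≠ 0 := by
  intro h0
  have := gauss_mul_star h
  rw [h0, zero_mul] at this
  exact (Fact.out : p.Prime).ne_zero (by exact_mod_cast this.symm)

open Classical in
theorem kk_expand (χ : MulChar (ZMod p) ℂ) (n : ZMod p) :
    ∑ c, kk χ c * ZMod.stdAddChar (c * n) = if χ ≠ 1 then χ n else 1 := by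
  unfold kk
  by_cases h : χ = 1
  · simp [h]
  · have h' : χ⁻¹ ≠ 1 := inv_ne_one.2 h
    simp only [h, if_false, ne_eq, not_false_eq_true, if_true, div_mul_eq_mul_div]
    rw [← sum_div, div_eq_iff (gauss_ne h')]
    by_cases hn : n = 0
    · simp [hn, MulChar.sum_eq_zero_of_ne_one h', MulChar.map_zero]
    · have := gaussSum_mulShift_eq χ⁻¹ ZMod.stdAddChar (Units.mk0 n hn)
      rw [inv_inv, Units.val_mk0] at this
      rw [← this, gaussSum]
      exact sum_congr rfl fun c _ => by rw [AddChar.mulShift_apply, mul_comm n]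

theorem kk_supp {χ : MulChar (ZMod p) ℂ} {c : ZMod p} (h : kk χ c ≠ 0) : c ≠ 0 ↔ χ ≠ 1 := by
  unfold kk at h
  by_cases h1 : χ = 1 <;> by_cases h2 : c = 0 <;> simp_all [MulChar.map_zero]

theorem kk_orth {χ χ' : MulChar (ZMod p) ℂ} (h : χ ≠ χ') : ∑ c, kk χ c * star (kk χ' c) = 0 := by
  by_cases h1 : χ = 1
  · refine sum_eq_zero fun c _ => ?_
    by_contra h0
    have a := kk_supp (left_ne_zero_of_mul h0)
    have b := kk_supp (star_ne_zero.1 (right_ne_zero_of_mul h0))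
    exact (a.1 (b.2 fun h2 => h (h1.trans h2.symm))) h1
  by_cases h2 : χ' = 1
  · refine sum_eq_zero fun c _ => ?_
    by_contra h0
    have a := kk_supp (left_ne_zero_of_mul h0)
    have b := kk_supp (star_ne_zero.1 (right_ne_zero_of_mul h0))
    exact (b.1 (a.2 h1)) h2
  · have h3 : χ⁻¹ * χ' ≠ 1 := fun h4 => h (inv_mul_eq_one.1 h4)
    simp only [kk, h1, h2, if_false, star_div₀, div_mul_div_comm, MulChar.star_apply', inv_inv]
    rw [← sum_div]
    simp only [← MulChar.mul_apply]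
    rw [MulChar.sum_eq_zero_of_ne_one h3, zero_div]

theorem kk_diag (χ : MulChar (ZMod p) ℂ) : ‖∑ c, kk χ c * star (kk χ c)‖ ≤ 1 := by
  by_cases h1 : χ = 1
  · simp [kk, h1]
  · have p0 : (0 : ℝ) < p := by exact_mod_cast (Fact.out : p.Prime).pos
    simp only [kk, h1, if_false, star_div₀, div_mul_div_comm]
    rw [← sum_div, gauss_mul_star (inv_ne_one.2 h1), norm_div, Complex.norm_natCast, div_le_one p0]
    refine (norm_sum_le _ _).trans ((sum_le_card_nsmul _ _ 1 fun c _ => ?_).trans (by simp))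
    rw [norm_mul, norm_star]
    have := DirichletCharacter.norm_le_one χ⁻¹ c
    exact mul_le_one₀ this (norm_nonneg _) this

theorem mul_star_self {χ : MulChar (ZMod p) ℂ} {u : ZMod p} (hu : IsUnit u) :
    star (χ u) * χ u = 1 := by
  rw [MulChar.star_apply', ← MulChar.mul_apply, inv_mul_cancel, MulChar.one_apply hu]

end

section
variable {ι : Type} [Fintype ι] [DecidableEq ι] (q : ι → ℕ) [∀ i, Fact (q i).Prime]

theorem qprime (i : ι) : (q i).Prime := Fact.out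

open Classical in
theorem ev_eq (χ : Ch q) (n : ℕ) :
    ev q χ n = ∏ i, if χ i ≠ 1 then χ i (n : ZMod (q i)) else 1 := by
  rw [ev, supp, prod_filter]
  exact prod_congr rfl fun i _ => by congr

theorem mem_supp {χ : Ch q} {i : ι} : i ∈ supp q χ ↔ χ i ≠ 1 := by simp [supp]

theorem cond_pos (χ : Ch q) : 0 < cond q χ := prod_pos fun i _ => (qprime q i).pos

theorem ev_mul (χ : Ch q) (a b : ℕ) : ev q χ (a * b) = ev q χ a * ev q χ b := by
  simp only [ev, Nat.cast_mul, map_mul, prod_mul_distrib]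

theorem ev_one (χ : Ch q) : ev q χ 1 = 1 := by simp [ev]

theorem norm_ev_le (χ : Ch q) (n : ℕ) : ‖ev q χ n‖ ≤ 1 := by
  rw [ev, norm_prod]
  exact prod_le_one (fun _ _ => norm_nonneg _) fun i _ => DirichletCharacter.norm_le_one (χ i) _

theorem ev_add (χ : Ch q) (n : ℕ) {P : ℕ} (hP : cond q χ ∣ P) : ev q χ (n + P) = ev q χ n := by
  refine prod_congr rfl fun i hi => ?_
  have : (P : ZMod (q i)) = 0 :=
    (ZMod.natCast_eq_zero_iff _ _).2 ((dvd_prod_of_mem q hi).trans hP)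
  rw [Nat.cast_add, this, add_zero]

/-- The point attached to a family of residues. -/
noncomputable def pt (c : ∀ i, ZMod (q i)) : ℝ := ∑ i, ((c i).val : ℝ) / q i

/-- Its denominator. -/
def den (c : ∀ i, ZMod (q i)) : ℕ := ∏ i ∈ univ.filter fun i => c i ≠ 0, q i

theorem den_pos (c : ∀ i, ZMod (q i)) : 0 < den q c := prod_pos fun i _ => (qprime q i).pos

theorem ee_pt (c : ∀ i, ZMod (q i)) (n : ℕ) :
    ee (n * pt q c) = ∏ i, ZMod.stdAddChar (c i * (n : ZMod (q i))) := by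
  rw [pt, mul_sum, ee_sum]
  refine prod_congr rfl fun i _ => ?_
  have := ZMod.stdAddChar_coe (N := q i) (((c i).val * n : ℕ) : ℤ)
  rw [Int.cast_natCast, Nat.cast_mul, ZMod.natCast_zmod_val] at this
  rw [this, ee]
  congr 1
  push_cast; ring

theorem den_mul_pt (c : ∀ i, ZMod (q i)) : ∃ A : ℤ, (den q c : ℝ) * pt q c = A := by
  have : ∀ i, ∃ A : ℤ, (den q c : ℝ) * (((c i).val : ℝ) / q i) = A := fun i => by
    by_cases h : c i = 0
    · exact ⟨0, by simp [h]⟩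
    · obtain ⟨t, ht⟩ : q i ∣ den q c := dvd_prod_of_mem q (mem_filter.2 ⟨mem_univ _, h⟩)
      have q0 : (q i : ℝ) ≠ 0 := by exact_mod_cast (qprime q i).ne_zero
      refine ⟨(t * (c i).val : ℕ), ?_⟩
      rw [ht]; push_cast; field_simp
  choose A hA using this
  exact ⟨∑ i, A i, by rw [pt, mul_sum]; push_cast; exact sum_congr rfl fun i _ => hA i⟩

theorem coprime_rest (hq : Function.Injective q) (i : ι) :
    (q i).Coprime (∏ j ∈ univ.erase i, q j) :=
  Nat.Coprime.prod_right fun j hj => (Nat.coprime_primes (qprime q i) (qprime q j)).2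
    fun h => ne_of_mem_erase hj (hq h).symm

theorem rest_eq_zero {i j : ι} (h : j ≠ i) : ((∏ j ∈ univ.erase i, q j : ℕ) : ZMod (q j)) = 0 :=
  (ZMod.natCast_eq_zero_iff _ _).2 (dvd_prod_of_mem q (mem_erase.2 ⟨h, mem_univ _⟩))

theorem pt_inj (hq : Function.Injective q) {c c' : ∀ i, ZMod (q i)} {k : ℤ}
    (h : pt q c - pt q c' - k = 0) : c = c' := by
  funext i
  set n := ∏ j ∈ univ.erase i, q j with hn
  have h1 : ee (n * pt q c) = ee (n * pt q c') := by
    have : (n : ℝ) * pt q c = n * pt q c' + ((n * k : ℤ) : ℝ) := by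
      push_cast; linear_combination (n : ℝ) * h
    rw [this, ee_add, ee_int, mul_one]
  have h2 : ∀ d : ∀ i, ZMod (q i), ee (n * pt q d) = ZMod.stdAddChar (d i * (n : ZMod (q i))) :=
    fun d => by
      rw [ee_pt, prod_eq_single i (fun j _ hj => ?_) (by simp)]
      rw [hn, rest_eq_zero q hj, mul_zero, AddChar.map_zero_eq_one]
  rw [h2, h2] at h1
  have h3 : (n : ZMod (q i)) ≠ 0 := fun h4 =>
    (qprime q i).coprime_iff_not_dvd.1 (coprime_rest q hq i) ((ZMod.natCast_eq_zero_iff _ _).1 h4)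
  exact mul_right_cancel₀ h3 (ZMod.injective_stdAddChar h1)

theorem pt_spaced (hq : Function.Injective q) {F : ℕ} {c c' : ∀ i, ZMod (q i)} (h : den q c ≤ F)
    (h' : den q c' ≤ F) (hne : c ≠ c') (k : ℤ) : 1 / (F : ℝ) ^ 2 ≤ |pt q c - pt q c' - k| := by
  obtain ⟨A, hA⟩ := den_mul_pt q c
  obtain ⟨A', hA'⟩ := den_mul_pt q c'
  have d0 : (0 : ℝ) < den q c := by exact_mod_cast den_pos q c
  have d0' : (0 : ℝ) < den q c' := by exact_mod_cast den_pos q c'
  have d1 : (den q c : ℝ) ≤ F := by exact_mod_cast h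
  have d1' : (den q c' : ℝ) ≤ F := by exact_mod_cast h'
  set t := pt q c - pt q c' - k with ht
  have e : ((A * den q c' - A' * den q c - k * den q c * den q c' : ℤ) : ℝ) =
      den q c * den q c' * t := by
    push_cast; rw [← hA, ← hA', ht]; ring
  have t0 : t ≠ 0 := fun h0 => hne (pt_inj q hq h0)
  have m0 : A * den q c' - A' * den q c - k * den q c * den q c' ≠ 0 := fun h0 => by
    rw [h0, Int.cast_zero] at e
    exact mul_ne_zero (mul_pos d0 d0').ne' t0 e.symm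
  have m1 : (1 : ℝ) ≤ |((A * den q c' - A' * den q c - k * den q c * den q c' : ℤ) : ℝ)| := by
    exact_mod_cast Int.one_le_abs m0
  rw [e, abs_mul, abs_of_pos (mul_pos d0 d0')] at m1
  rw [div_le_iff₀ (pow_pos (d0.trans_le d1) 2)]
  have : (den q c : ℝ) * den q c' ≤ (F : ℝ) ^ 2 := by
    rw [pow_two]; exact mul_le_mul d1 d1' d0'.le (d0.le.trans d1)
  nlinarith [abs_nonneg t]

/-- The global kernel. -/
noncomputable def KK (χ : Ch q) (c : ∀ i, ZMod (q i)) : ℂ := ∏ i, kk (χ i) (c i)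

theorem KK_expand (χ : Ch q) (n : ℕ) : ev q χ n = ∑ c, ee (n * pt q c) * KK q χ c := by
  rw [ev_eq]
  simp only [← kk_expand]
  rw [Fintype.prod_sum]
  exact sum_congr rfl fun c _ => by rw [ee_pt, KK, prod_mul_distrib, mul_comm]

theorem KK_den {χ : Ch q} {c : ∀ i, ZMod (q i)} (h : KK q χ c ≠ 0) : den q c = cond q χ := by
  rw [den, cond]
  refine prod_congr ?_ fun _ _ => rfl
  ext i
  rw [mem_supp, mem_filter, ← kk_supp (prod_ne_zero_iff.1 h i (mem_univ _))]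
  simp

theorem KK_gram (χ χ' : Ch q) : ∑ c, KK q χ c * star (KK q χ' c) =
    ∏ i, ∑ c, kk (χ i) c * star (kk (χ' i) c) := by
  rw [Fintype.prod_sum]
  exact sum_congr rfl fun c _ => by rw [KK, KK, star_prod, prod_mul_distrib]

theorem ls41 (hq : Function.Injective q) (N F : ℕ) (a : ℕ → ℂ) (S : Finset (Ch q))
    (hS : ∀ χ ∈ S, cond q χ ≤ F) :
    ∑ χ ∈ S, ‖∑ n ∈ Icc 1 N, a n * ev q χ n‖ ^ 2 ≤
      41 * ((N : ℝ) + (F : ℝ) ^ 2) * ∑ n ∈ Icc 1 N, ‖a n‖ ^ 2 := by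
  classical
  rcases Nat.eq_zero_or_pos F with rfl | hF
  · rw [sum_eq_zero fun χ h => absurd (hS χ h) (not_le.2 (cond_pos q χ))]
    positivity
  let T : (∀ i, ZMod (q i)) → ℂ := fun c => ∑ n ∈ Icc 1 N, a n * ee (n * pt q c)
  have h1 := add_ls (univ.filter fun c => den q c ≤ F) (pt q) (Q := (F : ℝ) ^ 2) (by positivity)
    (fun c hc c' hc' hne k => pt_spaced q hq (mem_filter.1 hc).2 (mem_filter.1 hc').2 hne k) N a
  have h2 := bombieri S univ (fun _ => 1) (KK q) (fun c => if den q c ≤ F then T c else 0)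
    zero_le_one (fun _ _ => zero_le_one) (fun _ _ _ => le_rfl) fun χ hχ => by
      simp only [Complex.ofReal_one, one_mul, KK_gram]
      rw [sum_eq_single_of_mem χ hχ fun χ' _ hne => ?_, norm_prod]
      · exact prod_le_one (fun _ _ => norm_nonneg _) fun i _ => kk_diag _
      · obtain ⟨i, hi⟩ := Function.ne_iff.1 hne
        rw [prod_eq_zero (mem_univ i) (kk_orth hi.symm), norm_zero]
  refine le_trans (le_of_eq (sum_congr rfl fun χ hχ => ?_)) (h2.trans (le_trans (le_of_eq ?_) h1))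
  · congr 2
    simp only [KK_expand, mul_sum]
    rw [sum_comm]
    refine sum_congr rfl fun c _ => ?_
    split_ifs with h
    · simp only [T, sum_mul, mul_assoc]
    · have : KK q χ c = 0 := by
        by_contra h0
        exact h ((KK_den q h0).trans_le (hS χ hχ))
      simp [this]
  · rw [one_mul, sum_filter]
    exact sum_congr rfl fun c _ => by split_ifs <;> simp [T]

theorem card_le (hq : Function.Injective q) (F : ℕ) (S : Finset (Ch q))
    (hS : ∀ χ ∈ S, cond q χ ≤ F) : (S.card : ℝ) ≤ 41 * (1 + (F : ℝ) ^ 2) := by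
  simpa [ev_one] using ls41 q hq 1 F (fun _ => 1) S hS

theorem exists_sep (hq : Function.Injective q) {χ χ' : Ch q} (h : χ ≠ χ') :
    ∃ m : ℕ, m.Coprime (cond q χ * cond q χ') ∧ ev q χ m * star (ev q χ' m) ≠ 1 := by
  obtain ⟨i, hi⟩ := Function.ne_iff.1 h
  obtain ⟨u, hu⟩ : ∃ u : (ZMod (q i))ˣ, χ i u ≠ χ' i u := by
    by_contra h0
    push Not at h0
    exact hi (MulChar.ext h0)
  obtain ⟨m, h1, h2⟩ := Nat.chineseRemainder (coprime_rest q hq i) (u : ZMod (q i)).val 1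
  have m1 : (m : ZMod (q i)) = u := by
    rw [(ZMod.natCast_eq_natCast_iff _ _ _).2 h1, ZMod.natCast_zmod_val]
  have m2 : ∀ j, j ≠ i → (m : ZMod (q j)) = 1 := fun j hj => by
    rw [(ZMod.natCast_eq_natCast_iff _ _ _).2
      (h2.of_dvd (dvd_prod_of_mem q (mem_erase.2 ⟨hj, mem_univ _⟩))), Nat.cast_one]
  have m3 : ∀ j, m.Coprime (q j) := fun j => by
    rw [← ZMod.isUnit_iff_coprime]
    by_cases hj : j = i
    · subst hj; rw [m1]; exact u.isUnit
    · rw [m2 j hj]; exact isUnit_one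
  have m4 : ∀ ψ : Ch q, ev q ψ m = ψ i u := fun ψ => by
    rw [ev_eq, prod_eq_single i (fun j _ hj => by simp [m2 j hj]) (by simp), m1]
    split_ifs with h0
    · rfl
    · rw [not_not.1 h0, MulChar.one_apply_coe]
  refine ⟨m, Nat.Coprime.mul_right (Nat.Coprime.prod_right fun j _ => m3 j)
    (Nat.Coprime.prod_right fun j _ => m3 j), fun h0 => hu ?_⟩
  rw [m4, m4] at h0
  have h3 := mul_star_self (χ := χ' i) u.isUnit
  calc χ i u = χ i u * (star (χ' i u) * χ' i u) := by rw [h3, mul_one]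
    _ = χ' i u := by rw [← mul_assoc, h0, one_mul]

theorem pair_bound (hq : Function.Injective q) {χ χ' : Ch q} (h : χ ≠ χ') (l K : ℕ) :
    ‖∑ k ∈ Ico 1 K, ev q χ (l * k) * star (ev q χ' (l * k))‖ ≤ (cond q χ * cond q χ' : ℕ) := by
  set g : ℕ → ℂ := fun n => ev q χ n * star (ev q χ' n) with hg
  have hm : ∀ a b, g (a * b) = g a * g b := fun a b => by
    simp only [hg, ev_mul, star_mul']; ring
  have hp : ∀ n, g (n + cond q χ * cond q χ') = g n := fun n => by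
    simp only [hg]
    rw [ev_add q χ n (dvd_mul_right _ _), ev_add q χ' n (dvd_mul_left _ _)]
  have h1 : ∀ n, ‖g n‖ ≤ 1 := fun n => by
    simp only [hg, norm_mul, norm_star]
    exact mul_le_one₀ (norm_ev_le q χ n) (norm_nonneg _) (norm_ev_le q χ' n)
  have P0 := Nat.mul_pos (cond_pos q χ) (cond_pos q χ')
  obtain ⟨m, m1, m2⟩ := exists_sep q hq h
  have h2 := norm_sum_Ico_le P0 hp h1 (sum_range_zero P0 hm hp m1 m2) 1 K
  change ‖∑ k ∈ Ico 1 K, g (l * k)‖ ≤ _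
  simp only [hm]
  rw [← mul_sum, norm_mul]
  exact (mul_le_of_le_one_left (norm_nonneg _) (h1 l)).trans h2

end

end LS

section
variable {ι : Type} [Fintype ι] [DecidableEq ι] (q : ι → ℕ) [∀ i, Fact (q i).Prime]

open Classical in
theorem large_sieve (hq : Function.Injective q) (N F : ℕ) (a : ℕ → ℂ) :
    ∑ χ ∈ (Set.toFinite {χ : Ch q | cond q χ ≤ F}).toFinset, ‖∑ n ∈ Icc 1 N, a n * ev q χ n‖ ^ 2 ≤
      100 * ((N : ℝ) + (F : ℝ) ^ 2) * ∑ n ∈ Icc 1 N, ‖a n‖ ^ 2 := by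
  refine (LS.ls41 q hq N F a _ fun χ h => by simpa using h).trans ?_
  gcongr
  norm_num

open Classical in
theorem large_sieve_rough (hq : Function.Injective q) (N F R : ℕ) (hR : 2 ≤ R) (a : ℕ → ℂ)
    (ha : ∀ n, a n ≠ 0 → ∀ p : ℕ, p.Prime → p ∣ n → R < p) :
    ∑ χ ∈ (Set.toFinite {χ : Ch q | cond q χ ≤ F}).toFinset, ‖∑ n ∈ Icc 1 N, a n * ev q χ n‖ ^ 2 ≤
      (2 * N / Real.log R + 10 * ((F : ℝ) + 1) ^ 5 * (R : ℝ) ^ 6) * ∑ n ∈ Icc 1 N, ‖a n‖ ^ 2 := by
  obtain ⟨ν, ν0, ν1, ν2, ν3⟩ := LS.exists_majorant N hR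
  have hlog : 0 < Real.log R := Real.log_pos (by exact_mod_cast hR)
  have hS : ∀ χ ∈ (Set.toFinite {χ : Ch q | cond q χ ≤ F}).toFinset, cond q χ ≤ F :=
    fun χ h => by simpa using h
  generalize (Set.toFinite {χ : Ch q | cond q χ ≤ F}).toFinset = S at hS
  refine LS.bombieri S (Icc 1 N) ν (ev q) a (by positivity) (fun n _ => ν0 n)
    (fun n _ h => (ν1 n (ha n h)).ge) fun χ hχ => ?_
  have h1 : ∀ χ' ∈ S, ‖∑ n ∈ Icc 1 N, (ν n : ℂ) * (ev q χ n * star (ev q χ' n))‖ ≤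
      (if χ = χ' then 2 * N / Real.log R + (R : ℝ) ^ 6 else 0) + (R : ℝ) ^ 6 * (F : ℝ) ^ 2 := by
    intro χ' hχ'
    split_ifs with h
    · refine le_trans ?_ (le_add_of_nonneg_right (by positivity))
      refine (norm_sum_le _ _).trans ((sum_le_sum fun n _ => ?_).trans ν2)
      rw [norm_mul, Complex.norm_real, Real.norm_of_nonneg (ν0 n), norm_mul, norm_star]
      exact mul_le_of_le_one_right (ν0 n)
        (mul_le_one₀ (LS.norm_ev_le q χ n) (norm_nonneg _) (LS.norm_ev_le q χ' n))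
    · rw [zero_add]
      refine ν3 (fun n => ev q χ n * star (ev q χ' n)) _ (by positivity) fun l K =>
        (LS.pair_bound q hq h l K).trans ?_
      rw [pow_two]
      exact_mod_cast Nat.mul_le_mul (hS χ hχ) (hS χ' hχ')
  refine (sum_le_sum h1).trans ?_
  rw [sum_add_distrib, sum_ite_eq, if_pos hχ, sum_const, nsmul_eq_mul]
  have h2 := LS.card_le q hq F S hS
  have F0 : (0 : ℝ) ≤ F := Nat.cast_nonneg F
  have h3 : 1 + 41 * (1 + (F : ℝ) ^ 2) * (F : ℝ) ^ 2 ≤ 10 * ((F : ℝ) + 1) ^ 5 := by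
    have : 10 * ((F : ℝ) + 1) ^ 5 = 1 + 41 * (1 + (F : ℝ) ^ 2) * (F : ℝ) ^ 2 +
      (10 * F ^ 5 + 9 * F ^ 4 + 100 * F ^ 3 + 59 * F ^ 2 + 50 * F + 9) := by ring
    rw [this]
    exact le_add_of_nonneg_right (by positivity)
  have h4 := mul_le_mul_of_nonneg_right h2 (show 0 ≤ (R : ℝ) ^ 6 * (F : ℝ) ^ 2 by positivity)
  have h5 := mul_le_mul_of_nonneg_right h3 (show 0 ≤ (R : ℝ) ^ 6 by positivity)
  linarith
end

theorem card_rough (N R : ℕ) (hR : 2 ≤ R) :
    (((Icc 1 N).filter fun n => ∀ p ∈ n.primeFactors, R < p).card : ℝ) ≤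
      2 * N / Real.log R + (R : ℝ) ^ 6 := by
  obtain ⟨ν, ν0, ν1, ν2, -⟩ := LS.exists_majorant N hR
  refine le_trans ?_ ν2
  rw [card_eq_sum_ones]
  push_cast
  rw [sum_congr rfl (g := ν) fun n hn => ?_]
  · exact sum_le_sum_of_subset_of_nonneg (filter_subset _ _) fun n _ _ => ν0 n
  · rw [mem_filter, mem_Icc] at hn
    exact (ν1 n fun p hp h => hn.2 p (Nat.mem_primeFactors.2 ⟨hp, h, by omega⟩)).symm

end Pool.Agent.Lib.MP_fc51f7_nt
end
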