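import Pool.Agent.Lib.MP_fc51f7_nt.Local
import Pool.Agent.Lib.MP_fc51f7_nt.LS
import Pool.Agent.Shared.PNT.Main

-- part Pool.Agent.Lib.MP_fc51f7_nt.BVLoc
section

/-! Character expansion of the product of two sieve sums. -/

set_option autoImplicit false
set_option linter.unusedSectionVars false

namespace Pool.Agent.Lib.MP_fc51f7_nt.BV

open Finset

noncomputable section

section Local

variable {κ : Type} [DecidableEq κ]

/-- the local function -/
def th (p : ℕ) (g : κ → ℤ) (A A' : Finset κ) (m : ℤ) : ℝ := loc p g A m * loc p g A' m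

/-- its value after forgetting the residue class zero -/
def th0 (p : ℕ) (g : κ → ℤ) (A A' : Finset κ) (n : ℕ) : ℝ :=
  if p ∣ n then ubar p g A A' else th p g A A' n

/-- Fourier coefficient on the units -/
def co (p : ℕ) (g : κ → ℤ) (A A' : Finset κ) (χ : MulChar (ZMod p) ℂ) : ℂ :=
  ((p : ℂ) - 1)⁻¹ * ∑ r ∈ Ico 1 p, (th p g A A' r : ℂ) * χ ((r : ZMod p)⁻¹)

open Classical in
/-- primitive value of a local character -/
def e1 (p : ℕ) (χ : MulChar (ZMod p) ℂ) (n : ℕ) : ℂ := if χ = 1 then 1 else χ n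

variable {p : ℕ} {g : κ → ℤ} {A A' : Finset κ}

lemma inv_pred_nonneg (hp : 2 ≤ p) : 0 ≤ ((p : ℝ) - 1)⁻¹ := by
  have : (2 : ℝ) ≤ p := by exact_mod_cast hp
  exact inv_nonneg.2 (by linarith)

lemma inv_pred_le_one (hp : 2 ≤ p) : ((p : ℝ) - 1)⁻¹ ≤ 1 := by
  have : (2 : ℝ) ≤ p := by exact_mod_cast hp
  exact inv_le_one_of_one_le₀ (by linarith)

lemma abs_xi_le (hp : 2 ≤ p) (m : ℤ) : |xi p m| ≤ 1 := by
  unfold xi
  split_ifs
  · simp
  · rw [abs_of_nonneg (inv_pred_nonneg hp)]; exact inv_pred_le_one hp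

lemma abs_loc_le (hp : 2 ≤ p) (m : ℤ) : |loc p g A m| ≤ 1 := by
  unfold loc
  rw [abs_prod]
  exact prod_le_one (fun _ _ => abs_nonneg _) fun _ _ => abs_xi_le hp _

lemma abs_loc_le' (hp : 2 ≤ p) (m : ℤ) {j : κ} (hj : j ∈ A) : |loc p g A m| ≤ |xi p (m + g j)| := by
  have h := abs_loc_le (g := g) (A := A.erase j) hp m
  unfold loc at h ⊢
  rw [← mul_prod_erase A _ hj, abs_mul]
  exact mul_le_of_le_one_right (abs_nonneg _) h

lemma abs_th_le (hp : 2 ≤ p) (m : ℤ) : |th p g A A' m| ≤ 1 := by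
  rw [th, abs_mul]
  exact mul_le_one₀ (abs_loc_le hp m) (abs_nonneg _) (abs_loc_le hp m)

lemma abs_th_le' (hp : 2 ≤ p) (h : ¬ (A = ∅ ∧ A' = ∅)) :
    ∃ j, ∀ m : ℤ, |th p g A A' m| ≤ |xi p (m + g j)| := by
  rcases not_and_or.1 h with h | h
  · obtain ⟨j, hj⟩ := nonempty_iff_ne_empty.2 h
    refine ⟨j, fun m => ?_⟩
    rw [th, abs_mul]
    exact (mul_le_of_le_one_right (abs_nonneg _) (abs_loc_le hp m)).trans (abs_loc_le' hp m hj)
  · obtain ⟨j, hj⟩ := nonempty_iff_ne_empty.2 h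
    refine ⟨j, fun m => ?_⟩
    rw [th, abs_mul]
    exact (mul_le_of_le_one_left (abs_nonneg _) (abs_loc_le hp m)).trans (abs_loc_le' hp m hj)

lemma th_empty (m : ℤ) : th p g ∅ ∅ m = 1 := by simp [th, loc]

lemma th_mod (n : ℕ) : th p g A A' (n % p : ℕ) = th p g A A' n := by
  have : ∀ c : ℤ, xi p ((n % p : ℕ) + c) = xi p (n + c) := fun c => by
    have h : (p : ℤ) ∣ ((n % p : ℕ) : ℤ) + c ↔ (p : ℤ) ∣ (n : ℤ) + c := by
      have e : (n : ℤ) + c = ((n % p : ℕ) : ℤ) + c + p * (n / p : ℕ) := by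
        have := Nat.mod_add_div n p
        zify at this
        push_cast
        linarith
      rw [e, dvd_add_left (dvd_mul_right _ _)]
    simp only [xi, h]
  simp only [th, loc, this]

lemma sum_abs_th (hp : 2 ≤ p) (h : ¬ (A = ∅ ∧ A' = ∅)) :
    ∑ r ∈ Ico 1 p, |th p g A A' (r : ℕ)| ≤ 2 := by
  obtain ⟨j, hj⟩ := abs_th_le' (g := g) hp h
  have h2 : (2 : ℝ) ≤ p := by exact_mod_cast hp
  have h1 : ∀ r ∈ Ico 1 p, |th p g A A' (r : ℕ)| ≤
      ((p : ℝ) - 1)⁻¹ + if (p : ℤ) ∣ (r : ℤ) + g j then 1 else 0 := fun r _ => by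
    refine (hj r).trans ?_
    unfold xi
    have := inv_pred_nonneg hp
    split_ifs
    · simpa using this
    · rw [abs_of_nonneg this, add_zero]
  refine (sum_le_sum h1).trans ?_
  rw [sum_add_distrib, sum_const, Nat.card_Ico, nsmul_eq_mul, Nat.cast_sub (by omega), Nat.cast_one,
    mul_inv_cancel₀ (by linarith), sum_boole]
  have : ((Ico 1 p).filter fun r : ℕ => (p : ℤ) ∣ (r : ℤ) + g j).card ≤ 1 := by
    rw [card_le_one]
    intro a ha b hb
    simp only [mem_filter, mem_Ico] at ha hb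
    have h3 : (p : ℤ) ∣ (a : ℤ) - b := by simpa using dvd_sub ha.2 hb.2
    have h4 := Int.eq_zero_of_abs_lt_dvd h3 (by rw [abs_lt]; omega)
    omega
  have h3 : (((Ico 1 p).filter fun r : ℕ => (p : ℤ) ∣ (r : ℤ) + g j).card : ℝ) ≤ 1 := by
    exact_mod_cast this
  linarith

lemma two_div_le (hp : 3 ≤ p) : ((p : ℝ) - 1)⁻¹ * 2 ≤ 3 / p := by
  have h : (3 : ℝ) ≤ p := by exact_mod_cast hp
  rw [inv_mul_eq_div, div_le_div_iff₀ (by linarith) (by linarith)]
  linarith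

lemma norm_co_le (hp : 3 ≤ p) (h : ¬ (A = ∅ ∧ A' = ∅)) (χ : MulChar (ZMod p) ℂ) :
    ‖co p g A A' χ‖ ≤ 3 / p := by
  have e : ((p : ℂ) - 1)⁻¹ = (((p : ℝ) - 1)⁻¹ : ℝ) := by push_cast; rfl
  rw [co, norm_mul, e, Complex.norm_real, Real.norm_of_nonneg (inv_pred_nonneg (by omega))]
  refine le_trans (mul_le_mul_of_nonneg_left ?_ (inv_pred_nonneg (by omega))) (two_div_le hp)
  refine (norm_sum_le _ _).trans (le_trans (sum_le_sum fun r _ => ?_)
    (sum_abs_th (g := g) (by omega) h))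
  rw [norm_mul, Complex.norm_real, Real.norm_eq_abs]
  exact mul_le_of_le_one_right (abs_nonneg _) (DirichletCharacter.norm_le_one χ _)

variable [hp : Fact p.Prime]

lemma isUnit_of_mem {r : ℕ} (hr : r ∈ Ico 1 p) : IsUnit (r : ZMod p) := by
  rw [isUnit_iff_ne_zero, Ne, ZMod.natCast_eq_zero_iff]
  exact Nat.not_dvd_of_pos_of_lt (mem_Ico.1 hr).1 (mem_Ico.1 hr).2

lemma co_one : co p g A A' 1 = ubar p g A A' := by
  rw [co, ubar]
  push_cast
  congr 1
  refine sum_congr rfl fun r hr => ?_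
  rw [MulChar.one_apply (isUnit_of_mem hr).inv, mul_one, th]
  push_cast
  rfl

lemma ubar_empty : ubar p g ∅ ∅ = 1 := by
  have h2 : (2 : ℝ) ≤ p := by exact_mod_cast hp.out.two_le
  simp only [ubar, loc, prod_empty, mul_one, sum_const, Nat.card_Ico, nsmul_eq_mul]
  rw [Nat.cast_sub hp.out.one_le, Nat.cast_one, inv_mul_cancel₀ (by linarith)]

lemma abs_ubar_le (h3 : 3 ≤ p) (h : ¬ (A = ∅ ∧ A' = ∅)) : |ubar p g A A'| ≤ 3 / p := by
  have := norm_co_le (g := g) h3 h 1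
  rwa [co_one, Complex.norm_real, Real.norm_eq_abs] at this

lemma co_empty {χ : MulChar (ZMod p) ℂ} (hχ : χ ≠ 1) : co p g ∅ ∅ χ = 0 := by
  have h1 : ∑ r ∈ Ico 1 p, χ ((r : ZMod p)⁻¹) = ∑ a ∈ univ.erase (0 : ZMod p), χ a⁻¹ := by
    refine sum_nbij (fun r : ℕ => (r : ZMod p)) (fun r hr => ?_) (fun a ha b hb e => ?_)
      (fun a ha => ?_) fun _ _ => rfl
    · simpa using (isUnit_of_mem hr).ne_zero
    · simp only [coe_Ico, Set.mem_Ico] at ha hb
      have := (ZMod.natCast_eq_natCast_iff' a b p).1 e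
      rwa [Nat.mod_eq_of_lt ha.2, Nat.mod_eq_of_lt hb.2] at this
    · refine ⟨a.val, ?_, by simp⟩
      simp only [coe_erase, coe_univ, Set.mem_sdiff, Set.mem_univ, Set.mem_singleton_iff,
        true_and] at ha
      simp only [coe_Ico, Set.mem_Ico]
      exact ⟨(ZMod.val_pos).2 ha, ZMod.val_lt a⟩
  have h2 : ∑ a : ZMod p, χ a⁻¹ = 0 := by
    rw [← MulChar.sum_eq_zero_of_ne_one hχ]
    exact Equiv.sum_comp (Equiv.inv (ZMod p)) χ
  rw [← add_sum_erase _ _ (mem_univ 0), inv_zero, MulChar.map_zero, zero_add] at h2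
  simp only [co, th_empty, Complex.ofReal_one, one_mul, h1, h2, mul_zero]

lemma expand (n : ℕ) :
    ∑ χ : DirichletCharacter ℂ p, co p g A A' χ * e1 p χ n = th0 p g A A' n := by
  classical
  unfold th0
  split_ifs with h
  · rw [sum_eq_single 1, co_one, e1, if_pos rfl, mul_one]
    · intro χ _ hχ
      rw [e1, if_neg hχ, (ZMod.natCast_eq_zero_iff n p).2 h, MulChar.map_zero, mul_zero]
    · simp
  · have hn : IsUnit (n : ZMod p) := by
      rwa [isUnit_iff_ne_zero, Ne, ZMod.natCast_eq_zero_iff]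
    have e : ∀ χ : DirichletCharacter ℂ p, e1 p χ n = χ n := fun χ => by
      unfold e1
      split_ifs with h1
      · rw [h1, MulChar.one_apply hn]
      · rfl
    have hm : n % p ∈ Ico 1 p := mem_Ico.2
      ⟨Nat.pos_of_ne_zero fun h0 => h (Nat.dvd_of_mod_eq_zero h0), Nat.mod_lt _ hp.out.pos⟩
    have h2 : ((p : ℂ) - 1) ≠ 0 := by
      rw [sub_ne_zero]; exact_mod_cast hp.out.ne_one
    simp only [e, co, mul_assoc, sum_mul, ← mul_sum]
    rw [sum_comm]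
    simp only [← mul_sum]
    rw [sum_congr rfl fun r hr => by
      rw [DirichletCharacter.sum_char_inv_mul_char_eq ℂ (isUnit_of_mem hr)], sum_eq_single (n % p)]
    · rw [if_pos (by simp), Nat.totient_prime hp.out, Nat.cast_sub hp.out.one_le, th_mod,
        Nat.cast_one]
      field_simp
    · intro r hr hne
      rw [if_neg, mul_zero]
      intro e
      have := (ZMod.natCast_eq_natCast_iff' r n p).1 e
      rw [Nat.mod_eq_of_lt (mem_Ico.1 hr).2] at this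
      exact hne this
    · exact fun h => absurd hm h

end Local

section Global

variable {ι : Type} [Fintype ι] [DecidableEq ι] (q : ι → ℕ) [hq : ∀ i, Fact (q i).Prime]
  (g : Fin 3 → ℤ) (y y' : (Fin 3 → Finset ι) → ℝ)

instance : Fintype (Ch q) := @Pi.instFintype _ _ _ _ fun _ => DirichletCharacter.fintype

/-- the coefficient of a family of characters -/
def CC (χ : Ch q) : ℂ :=
  ∑ T : Fin 3 → Finset ι, ∑ U : Fin 3 → Finset ι,
    (y T * y' U : ℝ) * ∏ i, co (q i) g (tr T i) (tr U i) (χ i)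

/-- the main term -/
def Th0 (n : ℕ) : ℝ :=
  ∑ T : Fin 3 → Finset ι, ∑ U : Fin 3 → Finset ι,
    y T * y' U * ∏ i, th0 (q i) g (tr T i) (tr U i) n

lemma ev_eq (χ : Ch q) (n : ℕ) : ev q χ n = ∏ i, e1 (q i) (χ i) n := by
  unfold ev supp e1
  rw [prod_filter]
  exact prod_congr rfl fun i _ => by by_cases h : χ i = 1 <;> simp [h]

lemma ev_mul (χ : Ch q) (m n : ℕ) : ev q χ (m * n) = ev q χ m * ev q χ n := by
  simp only [ev, Nat.cast_mul, map_mul, prod_mul_distrib]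

lemma norm_ev_le (χ : Ch q) (n : ℕ) : ‖ev q χ n‖ ≤ 1 := by
  rw [ev, norm_prod]
  exact prod_le_one (fun _ _ => norm_nonneg _) fun i _ => DirichletCharacter.norm_le_one (χ i) _

lemma Th0_eq (n : ℕ) : (Th0 q g y y' n : ℂ) = ∑ χ : Ch q, CC q g y y' χ * ev q χ n := by
  simp only [CC, sum_mul, Th0, ev_eq, mul_assoc, ← prod_mul_distrib]
  rw [Complex.ofReal_sum, sum_comm]
  refine sum_congr rfl fun T _ => ?_
  rw [Complex.ofReal_sum, sum_comm]
  refine sum_congr rfl fun U _ => ?_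
  rw [← mul_sum, ← mul_assoc, Complex.ofReal_mul, Complex.ofReal_prod]
  simp only [← expand]
  rw [Fintype.prod_sum]

lemma Th0_sub (n : ℕ) : ((Th0 q g y y' n - Tbar q g y y' : ℝ) : ℂ) =
    ∑ χ ∈ univ.erase (1 : Ch q), CC q g y y' χ * ev q χ n := by
  have h1 : CC q g y y' 1 = Tbar q g y y' := by
    simp only [CC, Tbar, Pi.one_apply, co_one]
    push_cast
    rfl
  have h2 : ev q 1 n = 1 := by simp [ev_eq, e1]
  rw [Complex.ofReal_sub, Th0_eq, ← add_sum_erase _ _ (mem_univ 1), h1, h2]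
  ring

variable {q g y y'}

lemma CC_support {Λ : ℝ} (hs : ∀ T U, y T ≠ 0 → y' U ≠ 0 → lgs q T + lgs q U ≤ Λ) {χ : Ch q}
    (h : CC q g y y' χ ≠ 0) : Real.log (cond q χ) ≤ Λ := by
  obtain ⟨T, -, h⟩ := exists_ne_zero_of_sum_ne_zero h
  obtain ⟨U, -, h⟩ := exists_ne_zero_of_sum_ne_zero h
  have h1 := left_ne_zero_of_mul h
  have h2 := prod_ne_zero_iff.1 (right_ne_zero_of_mul h)
  rw [Complex.ofReal_ne_zero] at h1
  refine le_trans ?_ (hs T U (left_ne_zero_of_mul h1) (right_ne_zero_of_mul h1))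
  rw [cond, Nat.cast_prod, Real.log_prod fun i _ => by exact_mod_cast (hq i).out.ne_zero, lgs_eq,
    lgs_eq, ← sum_add_distrib]
  have h0 : ∀ i, 0 ≤ Real.log (q i) := fun i => Real.log_natCast_nonneg _
  refine le_trans (sum_le_sum fun i hi => ?_)
    (sum_le_sum_of_subset_of_nonneg (subset_univ (supp q χ)) fun i _ _ => by
      have := h0 i; positivity)
  have h3 : 1 ≤ (tr T i).card + (tr U i).card := by
    by_contra h4
    have e1 : tr T i = ∅ := card_eq_zero.1 (by omega)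
    have e2 : tr U i = ∅ := card_eq_zero.1 (by omega)
    refine h2 i (mem_univ i) ?_
    rw [e1, e2, co_empty (by simpa [supp] using hi)]
  have h4 : (1 : ℝ) ≤ (tr T i).card + (tr U i).card := by exact_mod_cast h3
  nlinarith [h0 i]

/-- the weight used to remove the support condition -/
def rho (s : ℝ) (p : ℕ) (A A' : Finset (Fin 3)) : ℝ :=
  Real.exp (-(s * ((A.card : ℝ) + A'.card) * Real.log p))

lemma rho_pos (s : ℝ) (p : ℕ) (A A' : Finset (Fin 3)) : 0 < rho s p A A' := Real.exp_pos _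

lemma rho_le {s : ℝ} (hs : 0 ≤ s) (p : ℕ) (A A' : Finset (Fin 3)) : rho s p A A' ≤ 1 := by
  have := Real.log_natCast_nonneg p
  exact Real.exp_le_one_iff.2 (neg_nonpos.2 (by positivity))

lemma weights {L : ℝ} (hL : 0 < L) (hy : ∀ T, |y T| ≤ 1) (hy' : ∀ T, |y' T| ≤ 1)
    (hs : ∀ T U, y T ≠ 0 → y' U ≠ 0 → lgs q T + lgs q U ≤ L)
    (F : ι → Finset (Fin 3) → Finset (Fin 3) → ℝ) (hF : ∀ i A A', 0 ≤ F i A A') :
    ∑ T : Fin 3 → Finset ι, ∑ U : Fin 3 → Finset ι, |y T * y' U| * ∏ i, F i (tr T i) (tr U i) ≤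
      3 * ∏ i, ∑ A, ∑ A', F i A A' * rho L⁻¹ (q i) A A' := by
  rw [← transpose fun i A A' => F i A A' * rho L⁻¹ (q i) A A', mul_sum]
  refine sum_le_sum fun T _ => ?_
  rw [mul_sum]
  refine sum_le_sum fun U _ => ?_
  rw [prod_mul_distrib, mul_comm (∏ i, F i _ _), ← mul_assoc]
  refine mul_le_mul_of_nonneg_right ?_ (prod_nonneg fun i _ => hF _ _ _)
  have e : ∏ i, rho L⁻¹ (q i) (tr T i) (tr U i) = Real.exp (-(L⁻¹ * (lgs q T + lgs q U))) := by
    simp only [rho]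
    rw [← Real.exp_sum, lgs_eq, lgs_eq, ← sum_add_distrib, mul_sum, ← sum_neg_distrib]
    congr 1
    exact sum_congr rfl fun i _ => by ring
  rw [e]
  by_cases h : y T = 0 ∨ y' U = 0
  · rw [mul_eq_zero.2 h, abs_zero]; positivity
  push Not at h
  have h1 : L⁻¹ * (lgs q T + lgs q U) ≤ 1 := by
    rw [inv_mul_le_iff₀ hL, mul_one]; exact hs T U h.1 h.2
  have h2 : Real.exp (-1) ≤ Real.exp (-(L⁻¹ * (lgs q T + lgs q U))) :=
    Real.exp_le_exp.2 (by linarith)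
  have h3 : |y T * y' U| ≤ 1 := by
    rw [abs_mul]; exact mul_le_one₀ (hy T) (abs_nonneg _) (hy' U)
  have h4 := Real.exp_neg_one_gt_d9
  linarith

lemma sum_pairs_le {F : Finset (Fin 3) → Finset (Fin 3) → ℝ} {c : ℝ} (h : ∀ A A', F A A' ≤ c) :
    ∑ A, ∑ A', F A A' ≤ 64 * c := by
  refine (sum_le_sum fun A _ => sum_le_sum fun A' _ => h A A').trans (le_of_eq ?_)
  simp only [sum_const, card_univ, Fintype.card_finset, Fintype.card_fin, nsmul_eq_mul]
  push_cast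
  ring

lemma Zf_nonneg (s : ℝ) : 0 ≤ Zf q s :=
  prod_nonneg fun i _ => add_nonneg zero_le_one
    (mul_nonneg (Real.exp_pos _).le (inv_pred_nonneg (hq i).out.two_le))

lemma norm_CC_le {L : ℝ} (hL : 0 < L) (hi : Function.Injective q) (h16 : ∀ i, 16 < q i)
    (hg : Function.Injective g) (hg8 : ∀ j, g j ≠ 0 ∧ |g j| ≤ 8)
    (hy : ∀ T, |y T| ≤ 1) (hy' : ∀ T, |y' T| ≤ 1)
    (hs : ∀ T U, y T ≠ 0 → y' U ≠ 0 → lgs q T + lgs q U ≤ L) (χ : Ch q) :
    ‖CC q g y y' χ‖ ≤ 3 * (Zf q (2 * L⁻¹) ^ 3 * Real.exp 8000) *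
      (192 ^ (supp q χ).card / cond q χ) := by
  classical
  have h1 : ‖CC q g y y' χ‖ ≤ ∑ T : Fin 3 → Finset ι, ∑ U : Fin 3 → Finset ι,
      |y T * y' U| * ∏ i, ‖co (q i) g (tr T i) (tr U i) (χ i)‖ := by
    refine (norm_sum_le _ _).trans (sum_le_sum fun T _ => (norm_sum_le _ _).trans
      (sum_le_sum fun U _ => ?_))
    rw [norm_mul, norm_prod, Complex.norm_real, Real.norm_eq_abs]
  refine h1.trans ((weights hL hy hy' hs (fun i A A' => ‖co (q i) g A A' (χ i)‖)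
    fun _ _ _ => norm_nonneg _).trans ?_)
  have hs0 : 0 ≤ L⁻¹ := inv_nonneg.2 hL.le
  have h2 := majorant q (fun i => (hq i).out.two_le) (fun i A A' => ubar (q i) g A A')
    (fun i => 2000 / (q i : ℝ) ^ 2)
    (fun i A A' => ubar_approx (hq i).out (h16 i) (by simp) hg hg8 A A') hs0
  have h3 : (4 : ℝ) ^ Fintype.card (Fin 3) * ∑ i, 2000 / (q i : ℝ) ^ 2 ≤ 8000 := by
    have := sum_inv_sq_le q hi (D := 16) (by norm_num) h16
    have e : ∑ i, 2000 / (q i : ℝ) ^ 2 = 2000 * ∑ i, 1 / (q i : ℝ) ^ 2 := by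
      rw [mul_sum]; exact sum_congr rfl fun i _ => by ring
    rw [e, Fintype.card_fin]
    norm_num at this ⊢
    linarith
  rw [Fintype.card_fin] at h2 h3
  have h4 := h2.trans (mul_le_mul_of_nonneg_left (Real.exp_le_exp.2 h3)
    (pow_nonneg (Zf_nonneg _) 3))
  have h5 : (192 : ℝ) ^ (supp q χ).card / cond q χ =
      ∏ i, if χ i ≠ 1 then 192 / (q i : ℝ) else 1 := by
    have e : supp q χ = univ.filter fun i => χ i ≠ 1 := by ext i; simp [supp]
    rw [← prod_filter, cond, Nat.cast_prod, prod_div_distrib, prod_const, e]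
  rw [mul_assoc]
  refine mul_le_mul_of_nonneg_left (le_trans ?_
    (mul_le_mul_of_nonneg_right h4 (by positivity))) (by norm_num)
  rw [h5, ← prod_mul_distrib]
  refine prod_le_prod (fun i _ => sum_nonneg fun A _ => sum_nonneg fun A' _ =>
    mul_nonneg (norm_nonneg _) (rho_pos _ _ _ _).le) fun i _ => ?_
  by_cases h : χ i = 1
  · simp only [h, co_one, Complex.norm_real, Real.norm_eq_abs, ne_eq, not_true, if_false, mul_one]
    exact le_rfl
  · rw [if_pos h]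
    have h6 : (1 : ℝ) ≤ ∑ A, ∑ A', |ubar (q i) g A A'| * rho L⁻¹ (q i) A A' := by
      have n0 : ∀ A A', 0 ≤ |ubar (q i) g A A'| * rho L⁻¹ (q i) A A' := fun A A' =>
        mul_nonneg (abs_nonneg _) (rho_pos _ _ _ _).le
      refine le_trans ?_ (single_le_sum (fun A _ => sum_nonneg fun A' _ => n0 A A') (mem_univ ∅))
      refine le_trans ?_ (single_le_sum (fun A' _ => n0 ∅ A') (mem_univ ∅))
      simp [ubar_empty, rho]
    refine le_trans ?_ (le_mul_of_one_le_left (by positivity) h6)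
    refine (sum_pairs_le (c := 3 / q i) fun A A' => ?_).trans (le_of_eq (by ring))
    refine (mul_le_of_le_one_right (norm_nonneg _) (rho_le hs0 _ _ _)).trans ?_
    by_cases h7 : A = ∅ ∧ A' = ∅
    · rw [h7.1, h7.2, co_empty h, norm_zero]; positivity
    · exact norm_co_le (by have := h16 i; omega) h7 _

lemma abs_prod_le {a k : ι → ℝ} {lam : ℝ} (h : ∀ i, |a i| ≤ k i) (i0 : ι)
    (h0 : |a i0| ≤ lam⁻¹ * k i0) : |∏ i, a i| ≤ lam⁻¹ * ∏ i, k i := by
  rw [abs_prod, ← mul_prod_erase _ _ (mem_univ i0), ← mul_prod_erase _ k (mem_univ i0),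
    ← mul_assoc]
  exact mul_le_mul h0 (prod_le_prod (fun _ _ => abs_nonneg _) fun i _ => h i)
    (prod_nonneg fun _ _ => abs_nonneg _) ((abs_nonneg _).trans h0)

lemma sum_pow_card (c : ℝ) : ∑ A : Finset (Fin 3), c ^ A.card = (1 + c) ^ 3 := by
  have := prod_one_add (s := (univ : Finset (Fin 3))) (f := fun _ => c)
  simp only [prod_const, card_univ, Fintype.card_fin, powerset_univ] at this
  exact this.symm

lemma err_le {L lam : ℝ} (hL : 0 < L) (h1 : 1 ≤ lam) (h16 : ∀ i, 16 < q i)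
    (hg8 : ∀ j, g j ≠ 0 ∧ |g j| ≤ 8) (hy : ∀ T, |y T| ≤ 1) (hy' : ∀ T, |y' T| ≤ 1)
    (hs : ∀ T U, y T ≠ 0 → y' U ≠ 0 → lgs q T + lgs q U ≤ L) (n : ℕ)
    (hn : ∀ i, q i ∣ n → lam ≤ q i) :
    |SS q g y n * SS q g y' n - Th0 q g y y' n| ≤ 2 * lam⁻¹ * (3 * (Zf q L⁻¹ ^ 6 *
      192 ^ (univ.filter fun i => (q i : ℤ) ∣ n * ∏ j, (n + g j)).card)) := by
  classical
  let k : ι → Finset (Fin 3) → Finset (Fin 3) → ℝ := fun i A A' =>
    if q i ∣ n then (if A = ∅ ∧ A' = ∅ then 1 else lam * (3 / q i)) else |th (q i) g A A' n|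
  have hk : ∀ i A A', 0 ≤ k i A A' := fun i A A' => by
    simp only [k]; split_ifs <;> positivity
  have h2 : ∀ i, 2 ≤ q i := fun i => (hq i).out.two_le
  have hs0 : 0 ≤ L⁻¹ := inv_nonneg.2 hL.le
  have b1 : ∀ i A A', q i ∣ n → ¬ (A = ∅ ∧ A' = ∅) →
      |th (q i) g A A' n| ≤ 3 / q i ∧ |th0 (q i) g A A' n| ≤ 3 / q i := by
    intro i A A' hi hA
    have h3 : 3 ≤ q i := by have := h16 i; omega
    refine ⟨?_, by rw [th0, if_pos hi]; exact abs_ubar_le h3 hA⟩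
    obtain ⟨j, hj⟩ := abs_th_le' (g := g) (h2 i) hA
    refine (hj n).trans ?_
    rw [xi, if_neg, abs_of_nonneg (inv_pred_nonneg (h2 i))]
    · linarith [two_div_le h3, inv_pred_nonneg (h2 i)]
    · rw [dvd_add_right (by exact_mod_cast hi)]
      intro h
      have := h16 i
      exact (hg8 j).1 (Int.eq_zero_of_abs_lt_dvd h (by have := (hg8 j).2; omega))
  have b2 : ∀ i A A', |th (q i) g A A' n| ≤ k i A A' ∧ |th0 (q i) g A A' n| ≤ k i A A' := by
    intro i A A'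
    simp only [k]
    split_ifs with hi hA
    · rw [hA.1, hA.2, th0, if_pos hi, th_empty, ubar_empty]; simp
    · have := le_mul_of_one_le_left (show (0 : ℝ) ≤ 3 / q i by positivity) h1
      exact (b1 i A A' hi hA).imp (·.trans this) (·.trans this)
    · rw [th0, if_neg hi]; simp
  have b3 : ∀ T U : Fin 3 → Finset ι, |∏ i, th (q i) g (tr T i) (tr U i) n -
      ∏ i, th0 (q i) g (tr T i) (tr U i) n| ≤ 2 * lam⁻¹ * ∏ i, k i (tr T i) (tr U i) := by
    intro T U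
    by_cases h : ∃ i, q i ∣ n ∧ ¬ (tr T i = ∅ ∧ tr U i = ∅)
    · obtain ⟨i, hi, hA⟩ := h
      have e : lam⁻¹ * k i (tr T i) (tr U i) = 3 / q i := by
        simp only [k, if_pos hi, if_neg hA]
        rw [inv_mul_cancel_left₀ (by linarith)]
      have c1 := abs_prod_le (fun i => (b2 i (tr T i) (tr U i)).1) i (e ▸ (b1 i _ _ hi hA).1)
      have c2 := abs_prod_le (fun i => (b2 i (tr T i) (tr U i)).2) i (e ▸ (b1 i _ _ hi hA).2)
      refine (abs_sub _ _).trans ?_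
      linarith
    · push Not at h
      rw [prod_congr rfl fun i _ => show th (q i) g (tr T i) (tr U i) n =
        th0 (q i) g (tr T i) (tr U i) n from ?_, sub_self, abs_zero]
      · have := prod_nonneg fun i (_ : i ∈ univ) => hk i (tr T i) (tr U i)
        positivity
      · unfold th0
        split_ifs with hi
        · rw [(h i hi).1, (h i hi).2, th_empty, ubar_empty]
        · rfl
  have b4 : |SS q g y n * SS q g y' n - Th0 q g y y' n| ≤ 2 * lam⁻¹ *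
      ∑ T : Fin 3 → Finset ι, ∑ U : Fin 3 → Finset ι,
        |y T * y' U| * ∏ i, k i (tr T i) (tr U i) := by
    rw [SS_mul, Th0, ← sum_sub_distrib, mul_sum]
    refine (abs_sum_le_sum_abs _ _).trans (sum_le_sum fun T _ => ?_)
    rw [← sum_sub_distrib, mul_sum]
    refine (abs_sum_le_sum_abs _ _).trans (sum_le_sum fun U _ => ?_)
    rw [← mul_sub, abs_mul, mul_left_comm]
    exact mul_le_mul_of_nonneg_left (b3 T U) (abs_nonneg _)
  refine b4.trans (mul_le_mul_of_nonneg_left ((weights hL hy hy' hs k hk).trans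
    (mul_le_mul_of_nonneg_left ?_ (by norm_num))) (by positivity))
  rw [← prod_const, prod_filter, Zf, ← prod_pow, ← prod_mul_distrib]
  refine prod_le_prod (fun i _ => sum_nonneg fun A _ => sum_nonneg fun A' _ =>
    mul_nonneg (hk _ _ _) (rho_pos _ _ _ _).le) fun i _ => ?_
  set c := Real.exp (-(L⁻¹ * Real.log (q i))) * ((q i : ℝ) - 1)⁻¹ with hc
  have hc0 : 0 ≤ c := mul_nonneg (Real.exp_pos _).le (inv_pred_nonneg (h2 i))
  split_ifs with h
  · refine le_trans ?_ (le_mul_of_one_le_left (by norm_num) (one_le_pow₀ (by linarith)))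
    refine (sum_pairs_le (c := 3) fun A A' => ?_).trans (by norm_num)
    refine (mul_le_of_le_one_right (hk _ _ _) (rho_le hs0 _ _ _)).trans ?_
    simp only [k]
    split_ifs with hi hA
    · norm_num
    · have h0 : (0 : ℝ) < q i := by exact_mod_cast (hq i).out.pos
      rw [mul_div_assoc', div_le_iff₀ h0]
      linarith [hn i hi]
    · linarith [abs_th_le (g := g) (A := A) (A' := A') (h2 i) n]
  · have hi : ¬ q i ∣ n := fun hi => h (Dvd.dvd.mul_right (by exact_mod_cast hi) _)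
    have hj : ∀ j, xi (q i) (n + g j) = ((q i : ℝ) - 1)⁻¹ := fun j => by
      rw [xi, if_neg fun hj => h (Dvd.dvd.mul_left (hj.trans (dvd_prod_of_mem _ (mem_univ j))) _)]
    have e : ∀ A A', k i A A' * rho L⁻¹ (q i) A A' = c ^ A.card * c ^ A'.card := fun A A' => by
      simp only [k, if_neg hi, th, loc, hj, prod_const, rho, hc, mul_pow, ← Real.exp_nat_mul]
      rw [abs_of_nonneg (by have := inv_pred_nonneg (h2 i); positivity), mul_mul_mul_comm,
        ← Real.exp_add, mul_comm]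
      congr 2
      ring
    simp only [e, ← mul_sum, ← sum_mul, sum_pow_card]
    exact le_of_eq (by ring)

end Global

end

end Pool.Agent.Lib.MP_fc51f7_nt.BV
end

-- part Pool.Agent.Lib.MP_fc51f7_nt.BVBil
section

/-! Bilinear character sums: small conductors by the prime number theorem, large conductors by
the large sieve. -/

set_option autoImplicit false
set_option linter.unusedSectionVars false

namespace Pool.Agent.Lib.MP_fc51f7_nt.BV

open Finset Filter Topology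

/-- Cancellation in a prime sum of a periodic function with mean zero on the units. -/
lemma pnt_cancel (k : ℕ) (hk : 0 < k) {ε : ℝ} (hε : 0 < ε) : ∃ t0 : ℝ, ∀ (lo hi : ℕ) (G : ℕ → ℂ),
    t0 ≤ lo → (∀ n, ‖G n‖ ≤ 1) → (∀ m n, m ≡ n [MOD k] → G m = G n) →
    (∃ t : ℕ, ∃ c : ℂ, t.Coprime k ∧ c ≠ 1 ∧ ∀ n, G (t * n) = c * G n) →
    ‖∑ p ∈ Ioc lo hi with p.Prime, (Real.log p : ℂ) * G p‖ ≤ ε * hi := by
  classical
  have : NeZero k := ⟨hk.ne'⟩
  let θ : (ZMod k)ˣ → ℕ → ℝ := fun b u =>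
    ∑ p ∈ Icc 1 u with (Nat.Prime p ∧ (Nat.cast p : ZMod k) = b), Real.log (p : ℕ)
  have hk' : (0 : ℝ) < k := by exact_mod_cast hk
  have h1 : ∀ᶠ u : ℝ in atTop, ∀ b : (ZMod k)ˣ,
      |θ b ⌊u⌋₊ - u * (k.totient : ℝ)⁻¹| ≤ ε / (2 * k) * u := by
    refine eventually_all.2 fun b => ?_
    have h := Metric.tendsto_nhds.1 (Pool.Agent.Shared.PNT.pnt_theta_residueClass b.isUnit)
      (ε / (2 * k)) (by positivity)
    filter_upwards [h, eventually_gt_atTop 0] with u hu h0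
    rw [Real.dist_eq] at hu
    have e : θ b ⌊u⌋₊ - u * (k.totient : ℝ)⁻¹ = (θ b ⌊u⌋₊ / u - (k.totient : ℝ)⁻¹) * u := by
      field_simp
    rw [e, abs_mul, abs_of_pos h0]
    exact mul_le_mul_of_nonneg_right hu.le h0.le
  obtain ⟨t1, ht1⟩ := eventually_atTop.1 h1
  refine ⟨max t1 k, fun lo hi G hlo hG hper ⟨t, c, ht, hc, hmul⟩ => ?_⟩
  rcases le_or_gt hi lo with h | h
  · rw [Ioc_eq_empty_of_le h]; simp; positivity
  have hl1 : t1 ≤ lo := (le_max_left _ _).trans hlo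
  have hl2 : k ≤ lo := by exact_mod_cast (le_max_right _ _).trans hlo
  have hh : (lo : ℝ) ≤ hi := by exact_mod_cast h.le
  have z : ∑ b : (ZMod k)ˣ, G (b : ZMod k).val = 0 := by
    have e := Equiv.sum_comp (Equiv.mulLeft (ZMod.unitOfCoprime t ht))
      fun b : (ZMod k)ˣ => G (b : ZMod k).val
    have e2 : ∀ b : (ZMod k)ˣ, G ((Equiv.mulLeft (ZMod.unitOfCoprime t ht) b : (ZMod k)ˣ) :
        ZMod k).val = c * G (b : ZMod k).val := fun b => by
      rw [← hmul]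
      refine hper _ _ ?_
      rw [← ZMod.natCast_eq_natCast_iff]
      simp
    simp only [e2, ← mul_sum] at e
    have : (c - 1) * ∑ b : (ZMod k)ˣ, G (b : ZMod k).val = 0 := by rw [sub_mul, e]; ring
    exact (mul_eq_zero.1 this).resolve_left (sub_ne_zero.2 hc)
  have e : ∑ p ∈ Ioc lo hi with p.Prime, (Real.log p : ℂ) * G p =
      ∑ b : (ZMod k)ˣ, G (b : ZMod k).val * ((θ b hi - θ b lo : ℝ) : ℂ) := by
    have e1 : ∀ b : (ZMod k)ˣ, θ b hi - θ b lo =
        ∑ p ∈ Ioc lo hi with Nat.Prime p,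
          if (Nat.cast p : ZMod k) = b then Real.log (p : ℕ) else 0 := fun b => by
      simp only [θ, sum_filter]
      rw [sub_eq_iff_eq_add', show Icc 1 lo = Ioc 0 lo from rfl, show Icc 1 hi = Ioc 0 hi from rfl,
        ← sum_Ioc_consecutive _ (Nat.zero_le lo) h.le]
      congr 1
      exact sum_congr rfl fun p _ => by by_cases hp : p.Prime <;> simp [hp]
    simp only [e1, Complex.ofReal_sum, mul_sum]
    rw [sum_comm]
    refine sum_congr rfl fun p hp => ?_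
    simp only [mem_filter, mem_Ioc] at hp
    have hcp : p.Coprime k := (Nat.Prime.coprime_iff_not_dvd hp.2).2
      (Nat.not_dvd_of_pos_of_lt hk (by omega))
    rw [sum_eq_single (ZMod.unitOfCoprime p hcp), if_pos (by simp), mul_comm]
    · congr 1
      refine hper _ _ ?_
      rw [← ZMod.natCast_eq_natCast_iff]
      simp
    · intro b _ hb
      rw [if_neg fun e => hb (Units.ext (by simpa using e.symm))]
      simp
    · simp
  have e' : ∑ b : (ZMod k)ˣ, G (b : ZMod k).val * ((θ b hi - θ b lo : ℝ) : ℂ) =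
      ∑ b : (ZMod k)ˣ, G (b : ZMod k).val * (((θ b hi - hi * (k.totient : ℝ)⁻¹) -
        (θ b lo - lo * (k.totient : ℝ)⁻¹) : ℝ) : ℂ) := by
    rw [← sub_eq_zero, ← sum_sub_distrib]
    rw [← zero_mul (((hi - lo) * (k.totient : ℝ)⁻¹ : ℝ) : ℂ), ← z, sum_mul]
    exact sum_congr rfl fun b _ => by push_cast; ring
  rw [e, e']
  refine (norm_sum_le _ _).trans ((sum_le_card_nsmul _ _ (ε / k * hi) fun b _ => ?_).trans ?_)
  · rw [norm_mul, Complex.norm_real, Real.norm_eq_abs]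
    refine (mul_le_of_le_one_left (abs_nonneg _) (hG _)).trans ((abs_sub _ _).trans ?_)
    have a1 := ht1 hi (hl1.trans hh) b
    have a2 := ht1 lo hl1 b
    rw [Nat.floor_natCast] at a1 a2
    have a3 : ε / (2 * k) * lo ≤ ε / (2 * k) * hi := by gcongr
    have a4 : ε / k * hi = ε / (2 * k) * hi + ε / (2 * k) * hi := by field_simp; ring
    linarith
  · rw [card_univ, ZMod.card_units_eq_totient, nsmul_eq_mul]
    have : (k.totient : ℝ) ≤ k := by exact_mod_cast Nat.totient_le k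
    calc (k.totient : ℝ) * (ε / k * hi) ≤ k * (ε / k * hi) := by gcongr
      _ = ε * hi := by field_simp

section

variable {ι : Type} [Fintype ι] [DecidableEq ι] {q : ι → ℕ} [hq : ∀ i, Fact (q i).Prime]

lemma cond_pos (χ : Ch q) : 0 < cond q χ := prod_pos fun i _ => (hq i).out.pos

/-- Small conductors. -/
lemma small_cond (D Q a : ℕ) (hDQ : D ≤ Q) {ε : ℝ} (hε : 0 < ε) : ∃ t0 : ℝ,
    ∀ (ι : Type) [Fintype ι] [DecidableEq ι] (q : ι → ℕ) [∀ i, Fact (q i).Prime],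
    Function.Injective q → (∀ i, D < q i) → ∀ (χ : Ch q) (lo hi r : ℕ), χ ≠ 1 → cond q χ ≤ Q →
    t0 ≤ lo → ‖∑ p ∈ Ioc lo hi with p.Prime ∧ p * r ≡ a [MOD primorial D],
      (Real.log p : ℂ) * ev q χ p‖ ≤ ε * hi := by
  obtain ⟨t0, h⟩ := pnt_cancel (primorial Q) (primorial_pos Q) hε
  refine ⟨t0, fun ι _ _ q hq hinj hD χ lo hi r hχ hc hlo => ?_⟩
  have hW : primorial D ∣ primorial Q := primorial_dvd_primorial hDQ
  have hd : ∀ i ∈ supp q χ, q i ∣ primorial Q := fun i hi =>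
    (hq i).out.dvd_primorial_iff.2
      ((Nat.le_of_dvd (cond_pos χ) (dvd_prod_of_mem q hi)).trans hc)
  have := h lo hi (fun n => if n * r ≡ a [MOD primorial D] then ev q χ n else 0) hlo
    (fun n => by split_ifs; exacts [norm_ev_le q χ n, by simp]) (fun m n hmn => ?_) ?_
  · convert this using 2
    rw [← filter_filter, sum_filter]
    exact sum_congr rfl fun p _ => by split_ifs <;> simp
  · have e1 : ev q χ m = ev q χ n := prod_congr rfl fun i hi => by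
      rw [(ZMod.natCast_eq_natCast_iff _ _ _).2 (hmn.of_dvd (hd i hi))]
    have e2 := (hmn.of_dvd hW).mul_right r
    simp only [e1, show m * r ≡ a [MOD primorial D] ↔ n * r ≡ a [MOD primorial D] from
      ⟨e2.symm.trans, e2.trans⟩]
  · obtain ⟨i, hi⟩ := Function.ne_iff.1 hχ
    have hi' : i ∈ supp q χ := by simpa [supp] using hi
    obtain ⟨u, hu⟩ := MulChar.ne_one_iff.1 hi
    obtain ⟨l, hl⟩ := hd i hi'
    have hco : (q i).Coprime l := Nat.coprime_of_squarefree_mul (hl ▸ squarefree_primorial Q)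
    obtain ⟨t, h1, h2⟩ := Nat.chineseRemainder hco (u : ZMod (q i)).val 1
    have h3 : (t : ZMod (q i)) = u := by
      rw [(ZMod.natCast_eq_natCast_iff _ _ _).2 h1]; simp
    have h4 : t ≡ 1 [MOD primorial D] := h2.of_dvd (Nat.Coprime.dvd_of_dvd_mul_left
      ((Nat.Prime.coprime_iff_not_dvd (hq i).out).2 fun h =>
        ((hq i).out.dvd_primorial_iff.1 h).not_gt (hD i)).symm (hl ▸ hW))
    have h5 : ev q χ t = χ i u := by
      rw [ev, prod_eq_single i, h3]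
      · intro j hj hne
        have : q j ∣ l := Nat.Coprime.dvd_of_dvd_mul_left
          ((Nat.coprime_primes (hq j).out (hq i).out).2 (hinj.ne hne)) (hl ▸ hd j hj)
        rw [(ZMod.natCast_eq_natCast_iff _ _ _).2 (h2.of_dvd this), Nat.cast_one, map_one]
      · exact fun h => absurd hi' h
    refine ⟨t, χ i u, ?_, hu, fun n => ?_⟩
    · rw [hl]
      refine Nat.Coprime.mul_right ((ZMod.isUnit_iff_coprime _ _).1 (h3 ▸ u.isUnit)) ?_
      rw [Nat.Coprime, Nat.gcd_comm, Nat.gcd_comm, h2.gcd_eq]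
      simp
    · have e2 : t * n * r ≡ n * r [MOD primorial D] := by
        simpa [mul_assoc] using h4.mul_right (n * r)
      simp only [ev_mul, h5, show t * n * r ≡ a [MOD primorial D] ↔ n * r ≡ a [MOD primorial D] from
        ⟨e2.symm.trans, e2.trans⟩]
      split_ifs <;> simp

lemma ext_zero {S : Finset ℕ} {N : ℕ} (hS : S ⊆ Icc 1 N) (a f : ℕ → ℂ) :
    ∑ n ∈ S, a n * f n = ∑ n ∈ Icc 1 N, (if n ∈ S then a n else 0) * f n := by
  rw [← sum_subset hS fun n _ h => by rw [if_neg h, zero_mul]]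
  exact sum_congr rfl fun n h => by rw [if_pos h]

lemma ext_zero_sq {S : Finset ℕ} {N : ℕ} (hS : S ⊆ Icc 1 N) {a : ℕ → ℂ} {c : ℝ}
    (h : ∀ n ∈ S, ‖a n‖ ≤ c) :
    ∑ n ∈ Icc 1 N, ‖if n ∈ S then a n else 0‖ ^ 2 ≤ S.card * c ^ 2 := by
  rw [← sum_subset hS fun n _ h => by rw [if_neg h]; simp, ← nsmul_eq_mul]
  refine sum_le_card_nsmul _ _ _ fun n hn => ?_
  rw [if_pos hn]
  exact pow_le_pow_left₀ (norm_nonneg _) (h n hn) 2

lemma sub_Icc {S : Finset ℕ} {N : ℝ} (h : ∀ n ∈ S, 1 ≤ n ∧ (n : ℝ) ≤ N) : S ⊆ Icc 1 ⌊N⌋₊ :=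
  fun n hn => mem_Icc.2 ⟨(h n hn).1, Nat.le_floor (h n hn).2⟩

lemma card_le_real {S : Finset ℕ} {N : ℝ} (hN : 0 ≤ N) (h : ∀ n ∈ S, 1 ≤ n ∧ (n : ℝ) ≤ N) :
    (S.card : ℝ) ≤ N := by
  have := card_le_card (sub_Icc h)
  rw [Nat.card_Icc, Nat.add_sub_cancel] at this
  exact (Nat.cast_le.2 this).trans (Nat.floor_le hN)

lemma sq_le_sieve (hi : Function.Injective q) {S : Finset ℕ} {N c : ℝ} (hN : 0 ≤ N)
    (h : ∀ n ∈ S, 1 ≤ n ∧ (n : ℝ) ≤ N) {a : ℕ → ℂ} (ha : ∀ n ∈ S, ‖a n‖ ≤ c) {F : ℕ}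
    {X : Finset (Ch q)} (hX : ∀ χ ∈ X, cond q χ ≤ F) :
    ∑ χ ∈ X, ‖∑ n ∈ S, a n * ev q χ n‖ ^ 2 ≤ 100 * (N + (F : ℝ) ^ 2) * (N * c ^ 2) := by
  have h1 := large_sieve q hi ⌊N⌋₊ F fun n => if n ∈ S then a n else 0
  simp only [ext_zero (sub_Icc h)]
  refine (sum_le_sum_of_subset_of_nonneg (fun χ hχ => by simpa using hX χ hχ)
    fun _ _ _ => by positivity).trans (h1.trans ?_)
  have h2 := (ext_zero_sq (sub_Icc h) ha).trans
    (mul_le_mul_of_nonneg_right (card_le_real hN h) (sq_nonneg c))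
  have h3 := Nat.floor_le hN
  gcongr

lemma card_le_rough {S : Finset ℕ} {N : ℝ} {R : ℕ} (hR : 2 ≤ R)
    (h : ∀ n ∈ S, 1 ≤ n ∧ (n : ℝ) ≤ N) (hr : ∀ n ∈ S, ∀ p : ℕ, p.Prime → p ∣ n → R < p)
    (hN : 10 * ((R : ℝ) + 1) ^ 5 * (R : ℝ) ^ 6 ≤ N / Real.log R) :
    (S.card : ℝ) ≤ 3 * (N / Real.log R) := by
  have hl : 0 < Real.log R := Real.log_pos (by exact_mod_cast hR)
  have h0 : (R : ℝ) ^ 6 ≤ 10 * ((R : ℝ) + 1) ^ 5 * (R : ℝ) ^ 6 :=
    le_mul_of_one_le_left (by positivity)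
      (by have := one_le_pow₀ (n := 5) (show (1 : ℝ) ≤ R + 1 by simp); linarith)
  have hN0 : 0 ≤ N := by
    have := (le_div_iff₀ hl).1 hN
    exact le_trans (by positivity) this
  have h1 : S ⊆ (Icc 1 ⌊N⌋₊).filter fun n => ∀ p ∈ n.primeFactors, R < p := fun n hn =>
    mem_filter.2 ⟨sub_Icc h hn, fun p hp =>
      hr n hn p (Nat.prime_of_mem_primeFactors hp) (Nat.dvd_of_mem_primeFactors hp)⟩
  have h2 := (Nat.cast_le.2 (card_le_card h1)).trans (card_rough ⌊N⌋₊ R hR)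
  have h3 : 2 * (⌊N⌋₊ : ℝ) / Real.log R ≤ 2 * (N / Real.log R) := by
    rw [mul_div_assoc]; gcongr; exact Nat.floor_le hN0
  linarith

lemma sq_le_rough (hi : Function.Injective q) {S : Finset ℕ} {N c : ℝ} {R : ℕ} (hR : 2 ≤ R)
    (h : ∀ n ∈ S, 1 ≤ n ∧ (n : ℝ) ≤ N) (hr : ∀ n ∈ S, ∀ p : ℕ, p.Prime → p ∣ n → R < p)
    (hN : 10 * ((R : ℝ) + 1) ^ 5 * (R : ℝ) ^ 6 ≤ N / Real.log R)
    {a : ℕ → ℂ} (ha : ∀ n ∈ S, ‖a n‖ ≤ c) {X : Finset (Ch q)} (hX : ∀ χ ∈ X, cond q χ ≤ R) :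
    ∑ χ ∈ X, ‖∑ n ∈ S, a n * ev q χ n‖ ^ 2 ≤ (3 * (N / Real.log R) * c) ^ 2 := by
  have hl : 0 < Real.log R := Real.log_pos (by exact_mod_cast hR)
  have hN0 : 0 ≤ N := le_trans (by positivity) ((le_div_iff₀ hl).1 hN)
  have h1 := large_sieve_rough q hi ⌊N⌋₊ R R hR (fun n => if n ∈ S then a n else 0)
    fun n hn => hr n (by by_contra h; exact hn (if_neg h))
  simp only [ext_zero (sub_Icc h)]
  refine (sum_le_sum_of_subset_of_nonneg (fun χ hχ => by simpa using hX χ hχ)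
    fun _ _ _ => by positivity).trans (h1.trans ?_)
  have h2 := (ext_zero_sq (sub_Icc h) ha).trans
    (mul_le_mul_of_nonneg_right (card_le_rough hR h hr hN) (sq_nonneg c))
  have h3 : 2 * (⌊N⌋₊ : ℝ) / Real.log R ≤ 2 * (N / Real.log R) := by
    rw [mul_div_assoc]; gcongr; exact Nat.floor_le hN0
  calc _ ≤ (3 * (N / Real.log R)) * (3 * (N / Real.log R) * c ^ 2) :=
        mul_le_mul (by linarith) h2 (by positivity) (by positivity)
    _ = _ := by ring

lemma card_cond_le (hi : Function.Injective q) {F : ℕ} {X : Finset (Ch q)}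
    (hX : ∀ χ ∈ X, cond q χ ≤ F) : (X.card : ℝ) ≤ 100 * (1 + (F : ℝ) ^ 2) := by
  have := sq_le_sieve hi (S := {1}) (N := 1) (c := 1) zero_le_one (by simp) (a := fun _ => 1)
    (by simp) hX
  simpa [ev] using this

lemma cauchy {α : Type} {X : Finset α} {f g : α → ℝ} {u v c : ℝ} (hf : ∑ x ∈ X, f x ^ 2 ≤ u)
    (hg : ∑ x ∈ X, g x ^ 2 ≤ v) (hc : 0 ≤ c) (h : u * v ≤ c ^ 2) : ∑ x ∈ X, f x * g x ≤ c := by
  have h0 : 0 ≤ ∑ x ∈ X, f x ^ 2 := sum_nonneg fun _ _ => sq_nonneg _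
  exact le_of_sq_le_sq ((sum_mul_sq_le_sq_mul_sq X f g).trans
    ((mul_le_mul hf hg (sum_nonneg fun _ _ => sq_nonneg _) (h0.trans hf)).trans h)) hc

/-- The bilinear bound in one box. -/
lemma box_bound (hi : Function.Injective q) {R Q F : ℕ} {M N c ε C V : ℝ} {S S' : Finset ℕ}
    {a b : ℕ → ℂ} (hR : 2 ≤ R) (hQ : 0 < Q) (hc : 0 ≤ c) (hε : 0 ≤ ε) (hC : 0 ≤ C) (hV : 0 ≤ V)
    (hS : ∀ n ∈ S, 1 ≤ n ∧ (n : ℝ) ≤ M) (hS' : ∀ n ∈ S', 1 ≤ n ∧ (n : ℝ) ≤ N)
    (hr : ∀ n ∈ S, ∀ p : ℕ, p.Prime → p ∣ n → R < p)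
    (hr' : ∀ n ∈ S', ∀ p : ℕ, p.Prime → p ∣ n → R < p)
    (ha : ∀ n ∈ S, ‖a n‖ ≤ 1) (hb : ∀ n ∈ S', ‖b n‖ ≤ c)
    (hM : 10 * ((R : ℝ) + 1) ^ 5 * (R : ℝ) ^ 6 ≤ M / Real.log R)
    (hN : 10 * ((R : ℝ) + 1) ^ 5 * (R : ℝ) ^ 6 ≤ N / Real.log R)
    (h1 : (M + N) * (R : ℝ) ^ 2 ≤ M * N) (h2 : (F : ℝ) ^ 2 * (R : ℝ) ^ 2 ≤ M * N)
    (w : Ch q → ℝ) (hw1 : ∀ χ, w χ ≤ C / √(cond q χ)) (hw2 : ∀ χ, w χ ≤ V / cond q χ)
    (hw3 : ∀ χ, F < cond q χ → w χ = 0)
    (hP : ∀ χ, χ ≠ 1 → cond q χ ≤ Q → ‖∑ n ∈ S', b n * ev q χ n‖ ≤ ε * N) :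
    ∑ χ ∈ univ.erase (1 : Ch q), w χ * (‖∑ n ∈ S, a n * ev q χ n‖ * ‖∑ n ∈ S', b n * ev q χ n‖) ≤
      M * N * (300 * C * (1 + (Q : ℝ) ^ 2) * ε / Real.log R + 9 * C * c / (√Q * Real.log R ^ 2) +
        (Nat.log 2 F + 1 : ℕ) * (500 * V * c / R)) := by
  classical
  have hl : 0 < Real.log R := Real.log_pos (by exact_mod_cast hR)
  have hR0 : (0 : ℝ) < R := by positivity
  have hM0 : 0 ≤ M := le_trans (by positivity) ((le_div_iff₀ hl).1 hM)
  have hN0 : 0 ≤ N := le_trans (by positivity) ((le_div_iff₀ hl).1 hN)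
  set A : Ch q → ℝ := fun χ => ‖∑ n ∈ S, a n * ev q χ n‖ with hA
  set P : Ch q → ℝ := fun χ => ‖∑ n ∈ S', b n * ev q χ n‖ with hP'
  have hA0 : ∀ χ, 0 ≤ A χ := fun _ => norm_nonneg _
  have hP0 : ∀ χ, 0 ≤ P χ := fun _ => norm_nonneg _
  have hc1 : ∀ χ : Ch q, (1 : ℝ) ≤ cond q χ := fun χ => by exact_mod_cast cond_pos χ
  change ∑ χ ∈ univ.erase (1 : Ch q), w χ * (A χ * P χ) ≤ _
  rw [← sum_filter_add_sum_filter_not _ fun χ => cond q χ ≤ Q,
    ← sum_filter_add_sum_filter_not (filter (fun χ => ¬ cond q χ ≤ Q) _) fun χ => cond q χ ≤ R,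
    mul_add, mul_add, add_assoc]
  refine add_le_add ?_ (add_le_add ?_ ?_)
  · refine (sum_le_card_nsmul _ _ (C * (3 * (M / Real.log R) * (ε * N))) fun χ hχ => ?_).trans ?_
    · simp only [mem_filter, mem_erase] at hχ
      have a1 : w χ ≤ C := (hw1 χ).trans (div_le_self hC (Real.one_le_sqrt.2 (hc1 χ)))
      have a2 : A χ ≤ 3 * (M / Real.log R) := by
        refine le_trans ?_ (card_le_rough hR hS hr hM)
        refine (norm_sum_le _ _).trans ((sum_le_card_nsmul _ _ 1 fun n hn => ?_).trans (by simp))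
        rw [norm_mul]
        exact mul_le_one₀ (ha n hn) (norm_nonneg _) (norm_ev_le q χ n)
      exact mul_le_mul a1 (mul_le_mul a2 (hP χ hχ.1.1 hχ.2) (hP0 χ) (by positivity))
        (mul_nonneg (hA0 χ) (hP0 χ)) hC
    · rw [nsmul_eq_mul]
      refine (mul_le_mul_of_nonneg_right (card_cond_le hi fun χ hχ => (mem_filter.1 hχ).2)
        (by positivity)).trans (le_of_eq (by ring))
  · have hX : ∀ χ ∈ filter (fun χ => cond q χ ≤ R)
        (filter (fun χ => ¬ cond q χ ≤ Q) (univ.erase (1 : Ch q))), cond q χ ≤ R :=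
      fun χ hχ => (mem_filter.1 hχ).2
    have a1 := cauchy (sq_le_rough hi hR hS hr hM ha hX) (sq_le_rough hi hR hS' hr' hN hb hX)
      (c := 3 * (M / Real.log R) * 1 * (3 * (N / Real.log R) * c)) (by positivity)
      (le_of_eq (by ring))
    have hQ' : 0 < √Q := Real.sqrt_pos.2 (by exact_mod_cast hQ)
    refine (sum_le_sum (g := fun χ => C / √Q * (A χ * P χ)) fun χ hχ => ?_).trans ?_
    · refine mul_le_mul_of_nonneg_right ((hw1 χ).trans ?_) (mul_nonneg (hA0 χ) (hP0 χ))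
      have := (not_le.1 (mem_filter.1 (mem_filter.1 hχ).1).2).le
      gcongr
    · rw [← mul_sum]
      refine (mul_le_mul_of_nonneg_left a1 (by positivity)).trans (le_of_eq ?_)
      field_simp
      ring
  · set X := filter (fun χ => ¬ cond q χ ≤ R)
      (filter (fun χ => ¬ cond q χ ≤ Q) (univ.erase (1 : Ch q))) with hX
    rw [← sum_filter_of_ne (p := fun χ => cond q χ ≤ F) fun χ _ h => by
        by_contra h3
        exact h (by rw [hw3 χ (not_le.1 h3), zero_mul]),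
      ← sum_fiberwise_of_maps_to (t := range (Nat.log 2 F + 1)) (g := fun χ => Nat.log 2 (cond q χ))
        fun χ hχ => mem_range.2 (Nat.lt_succ_of_le (Nat.log_mono_right (mem_filter.1 hχ).2))]
    refine (sum_le_card_nsmul _ _ (M * N * (500 * V * c / R)) fun k _ => ?_).trans
      (le_of_eq (by rw [card_range, nsmul_eq_mul]; ring))
    set Y := filter (fun χ => Nat.log 2 (cond q χ) = k) (filter (fun χ => cond q χ ≤ F) X) with hY
    rcases Y.eq_empty_or_nonempty with h | ⟨χ0, h0⟩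
    · rw [h, sum_empty]; positivity
    have b1 : ∀ χ ∈ Y, 2 ^ k ≤ cond q χ ∧ cond q χ < 2 ^ (k + 1) := fun χ hχ => by
      rw [← (mem_filter.1 hχ).2]
      exact ⟨Nat.pow_log_le_self 2 (cond_pos χ).ne', Nat.lt_pow_succ_log_self one_lt_two _⟩
    have b2 : ((2 : ℝ) ^ k) ≤ F := by
      exact_mod_cast (b1 χ0 h0).1.trans (mem_filter.1 (mem_filter.1 h0).1).2
    have b3 : (R : ℝ) ≤ 2 * 2 ^ k := by
      have := (not_le.1 (mem_filter.1 (mem_filter.1 (mem_filter.1 h0).1).1).2).trans (b1 χ0 h0).2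
      rw [pow_succ'] at this
      exact_mod_cast this.le
    have b4 : ∀ χ ∈ Y, cond q χ ≤ 2 ^ (k + 1) := fun χ hχ => (b1 χ hχ).2.le
    set u : ℝ := 2 ^ k with hu
    have hu0 : 0 < u := by positivity
    have b5 := cauchy (sq_le_sieve hi hM0 hS ha b4) (sq_le_sieve hi hN0 hS' hb b4)
      (c := 500 * c * (M * N) * u / R) (by positivity) (by
        have e : ((2 ^ (k + 1) : ℕ) : ℝ) = 2 * u := by push_cast; ring
        rw [e, div_pow, le_div_iff₀ (by positivity)]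
        have c1 : M * N * (R : ℝ) ^ 2 ≤ M * N * (2 * u) ^ 2 := by gcongr
        have c2 : u ^ 2 * (R : ℝ) ^ 2 ≤ M * N := le_trans (by gcongr) h2
        have c3 : (M + (2 * u) ^ 2) * (N + (2 * u) ^ 2) * (R : ℝ) ^ 2 ≤ 25 * (M * N) * u ^ 2 := by
          have d1 := mul_le_mul_of_nonneg_right h1 (sq_nonneg u)
          have d2 := mul_le_mul_of_nonneg_right c2 (sq_nonneg u)
          have d3 : 0 ≤ M * N * u ^ 2 := by positivity
          nlinarith
        have c4 := mul_le_mul_of_nonneg_left c3 (show 0 ≤ 10000 * c ^ 2 * (M * N) by positivity)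
        nlinarith)
    refine (sum_le_sum (g := fun χ => V / u * (A χ * P χ)) fun χ hχ => ?_).trans ?_
    · refine mul_le_mul_of_nonneg_right ((hw2 χ).trans ?_) (mul_nonneg (hA0 χ) (hP0 χ))
      have : u ≤ cond q χ := by rw [hu]; exact_mod_cast (b1 χ hχ).1
      gcongr
    · rw [← mul_sum]
      refine (mul_le_mul_of_nonneg_left b5 (by positivity)).trans (le_of_eq ?_)
      field_simp

end

end Pool.Agent.Lib.MP_fc51f7_nt.BV
end

-- part Pool.Agent.Lib.MP_fc51f7_nt.BV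
section

/-! Bilinear Bombieri-Vinogradov estimate for products of two sieve sums. -/

set_option autoImplicit false
set_option linter.unusedSectionVars false

namespace Pool.Agent.Lib.MP_fc51f7_nt

open Finset Filter Topology

namespace BV

lemma pow_card_le' {ε : ℝ} (hε : 0 < ε) : ∃ C : ℝ, 0 < C ∧ ∀ (ι : Type) (q : ι → ℕ),
    Function.Injective q → (∀ i, (q i).Prime) → ∀ E : Finset ι,
    (192 : ℝ) ^ E.card ≤ C * ((∏ i ∈ E, q i : ℕ) : ℝ) ^ ε := by
  obtain ⟨C, hC, h⟩ := pow_card_le 192 ε (by norm_num) hε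
  refine ⟨C, hC, fun ι q hq hp E => ?_⟩
  have := h (E.image q) fun p hp' => by
    obtain ⟨i, -, rfl⟩ := mem_image.1 hp'
    exact (hp i).two_le
  rwa [card_image_of_injective _ hq, prod_image fun _ _ _ _ e => hq e, ← Nat.cast_prod] at this

lemma prod_le_of_dvd {ι : Type} {q : ι → ℕ} (hq : Function.Injective q) (hp : ∀ i, (q i).Prime)
    {E : Finset ι} {z : ℤ} (hz : z ≠ 0) (h : ∀ i ∈ E, (q i : ℤ) ∣ z) :
    ((∏ i ∈ E, q i : ℕ) : ℝ) ≤ |(z : ℝ)| := by
  have h1 : ∏ i ∈ E, (q i : ℤ) ∣ z := prod_dvd_of_coprime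
    (fun i _ j _ hne => Nat.isCoprime_iff_coprime.2
      ((Nat.coprime_primes (hp i) (hp j)).2 (hq.ne hne))) h
  have h2 := Int.le_of_dvd (abs_pos.2 hz) ((dvd_abs _ _).2 h1)
  exact_mod_cast h2

instance (D x : ℕ) (i : PP D x) : Fact (qq D x i).Prime := ⟨(mem_filter.1 i.2).2⟩

lemma qq_inj (D x : ℕ) : Function.Injective (qq D x) := Subtype.val_injective

lemma lt_qq (D x : ℕ) (i : PP D x) : D < qq D x i := (mem_Ioc.1 (mem_filter.1 i.2).1).1

lemma BB_pos (D : ℕ) {x : ℕ} (hx : 0 < Real.log x) : 0 < BB D x ∧ BB D x ≤ Real.log x := by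
  have h : ∀ p ∈ Nat.primesLE D, 0 < 1 - (p : ℝ)⁻¹ ∧ 1 - (p : ℝ)⁻¹ ≤ 1 := fun p hp => by
    have : (1 : ℝ) < p := by exact_mod_cast (Nat.prime_of_mem_primesLE hp).one_lt
    exact ⟨sub_pos.2 (inv_lt_one_of_one_lt₀ this), sub_le_self _ (by positivity)⟩
  exact ⟨mul_pos hx (prod_pos fun p hp => (h p hp).1), mul_le_of_le_one_right hx.le
    (prod_le_one (fun p hp => (h p hp).1.le) fun p hp => (h p hp).2)⟩

lemma log_ev : ∀ᶠ x : ℕ in atTop, 1 ≤ Real.log x :=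
  (Real.tendsto_log_atTop.comp tendsto_natCast_atTop_atTop).eventually_ge_atTop 1

lemma Zf_ev (D : ℕ) {w : ℝ} (hw : 1 ≤ w) :
    ∀ᶠ x : ℕ in atTop, Zf (qq D x) (w * (Real.log x)⁻¹) ≤ 2 * Real.log x := by
  have h := (Zf_tendsto D (zero_lt_one.trans_le hw)).eventually_le_const (u := 2)
    ((inv_le_one_of_one_le₀ hw).trans_lt one_lt_two)
  filter_upwards [h, log_ev] with x h1 h2
  obtain ⟨h3, h4⟩ := BB_pos D (zero_lt_one.trans_le h2)
  rw [div_le_iff₀ h3, div_eq_mul_inv] at h1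
  linarith

lemma log_pow_ev {s : ℝ} (hs : 0 < s) (C : ℝ) :
    ∀ᶠ x : ℕ in atTop, C * Real.log x ^ 7 ≤ (x : ℝ) ^ s := by
  have h := ((isLittleO_log_rpow_rpow_atTop 7 hs).const_mul_left C).bound zero_lt_one
  filter_upwards [tendsto_natCast_atTop_atTop.eventually h] with x hx
  rw [one_mul, Real.norm_of_nonneg (by positivity : 0 ≤ (x : ℝ) ^ s)] at hx
  have := (le_abs_self _).trans hx
  exact_mod_cast this

/-- Splitting a bilinear sum into the error term and the character sums. -/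
lemma split_le {ι : Type} [Fintype ι] [DecidableEq ι] (q : ι → ℕ) [∀ i, Fact (q i).Prime]
    (g : Fin 3 → ℤ) (y y' : (Fin 3 → Finset ι) → ℝ) (S S' : Finset ℕ) (β γ : ℕ → ℝ) {c E : ℝ}
    (hβ : ∀ m ∈ S, |β m| ≤ 1) (hγ : ∀ p ∈ S', |γ p| ≤ c)
    (hE : ∀ m ∈ S, ∀ p ∈ S',
      |SS q g y (p * m : ℕ) * SS q g y' (p * m : ℕ) - Th0 q g y y' (p * m)| ≤ E) :
    |∑ m ∈ S, β m * ∑ p ∈ S', γ p * (SS q g y (p * m : ℕ) * SS q g y' (p * m : ℕ) -
      Tbar q g y y')| ≤ S.card * (S'.card * (c * E)) + ∑ χ ∈ univ.erase (1 : Ch q),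
        ‖CC q g y y' χ‖ * (‖∑ m ∈ S, (β m : ℂ) * ev q χ m‖ * ‖∑ p ∈ S', (γ p : ℂ) * ev q χ p‖) := by
  have e : ∑ m ∈ S, β m * ∑ p ∈ S', γ p * (SS q g y (p * m : ℕ) * SS q g y' (p * m : ℕ) -
      Tbar q g y y') = ∑ m ∈ S, β m * ∑ p ∈ S', γ p * (SS q g y (p * m : ℕ) *
        SS q g y' (p * m : ℕ) - Th0 q g y y' (p * m)) +
      ∑ m ∈ S, β m * ∑ p ∈ S', γ p * (Th0 q g y y' (p * m) - Tbar q g y y') := by
    simp only [← sum_add_distrib, ← mul_add, sub_add_sub_cancel]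
  rw [e]
  refine (abs_add_le _ _).trans (add_le_add ?_ ?_)
  · rw [← nsmul_eq_mul]
    refine (abs_sum_le_sum_abs _ _).trans (sum_le_card_nsmul _ _ _ fun m hm => ?_)
    rw [abs_mul, ← nsmul_eq_mul]
    refine (mul_le_of_le_one_left (abs_nonneg _) (hβ m hm)).trans
      ((abs_sum_le_sum_abs _ _).trans (sum_le_card_nsmul _ _ _ fun p hp => ?_))
    rw [abs_mul]
    exact mul_le_mul (hγ p hp) (hE m hm p hp) (abs_nonneg _) ((abs_nonneg _).trans (hγ p hp))
  · rw [← Real.norm_eq_abs, ← Complex.norm_real]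
    have e2 : ((∑ m ∈ S, β m * ∑ p ∈ S', γ p * (Th0 q g y y' (p * m) - Tbar q g y y') : ℝ) : ℂ) =
        ∑ χ ∈ univ.erase (1 : Ch q), CC q g y y' χ * ((∑ m ∈ S, (β m : ℂ) * ev q χ m) *
          ∑ p ∈ S', (γ p : ℂ) * ev q χ p) := by
      simp only [Complex.ofReal_sum, Complex.ofReal_mul, Th0_sub, ev_mul, sum_mul_sum]
      simp only [mul_sum]
      rw [sum_comm (s := univ.erase (1 : Ch q))]
      refine sum_congr rfl fun m _ => ?_
      rw [sum_comm (s := univ.erase (1 : Ch q))]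
      exact sum_congr rfl fun p _ => sum_congr rfl fun χ _ => by ring
    rw [e2]
    exact (norm_sum_le _ _).trans (sum_le_sum fun χ _ => by rw [norm_mul, norm_mul])

/-- Numerical facts about the level `R`. -/
lemma level {Y : ℝ} (hY : 4 ≤ Y) : 2 ≤ ⌊Y ^ 2⌋₊ ∧ (⌊Y ^ 2⌋₊ : ℝ) ≤ Y ^ 2 ∧
    Y ^ 2 / 2 ≤ ⌊Y ^ 2⌋₊ ∧ Real.log Y ≤ Real.log ⌊Y ^ 2⌋₊ ∧ 2 * (⌊Y ^ 2⌋₊ : ℝ) ^ 2 ≤ Y ^ 200 ∧
    ∀ M : ℝ, Y ^ 200 ≤ M →
      10 * ((⌊Y ^ 2⌋₊ : ℝ) + 1) ^ 5 * (⌊Y ^ 2⌋₊ : ℝ) ^ 6 ≤ M / Real.log ⌊Y ^ 2⌋₊ := by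
  have h1 : (⌊Y ^ 2⌋₊ : ℝ) ≤ Y ^ 2 := Nat.floor_le (by positivity)
  have h2 := Nat.lt_floor_add_one (Y ^ 2)
  have h3 : 2 ≤ ⌊Y ^ 2⌋₊ := Nat.le_floor (by push_cast; nlinarith)
  set R : ℝ := (⌊Y ^ 2⌋₊ : ℝ) with hR
  have h4 : (2 : ℝ) ≤ R := by rw [hR]; exact_mod_cast h3
  have h5 : 320 * R ^ 12 ≤ Y ^ 200 := by
    calc 320 * R ^ 12 ≤ 4 ^ 176 * (Y ^ 2) ^ 12 := by gcongr; norm_num
      _ ≤ Y ^ 176 * (Y ^ 2) ^ 12 := by gcongr
      _ = Y ^ 200 := by ring
  refine ⟨h3, h1, by nlinarith, Real.log_le_log (by linarith) (by nlinarith), le_trans ?_ h5,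
    fun M hM => ?_⟩
  · have : R ^ 2 ≤ R ^ 12 := pow_le_pow_right₀ (by linarith) (by norm_num)
    nlinarith [sq_nonneg R]
  · rw [le_div_iff₀ (Real.log_pos (by linarith))]
    have h6 : Real.log R ≤ R := (Real.log_le_sub_one_of_pos (by linarith)).trans (by linarith)
    have h7 := Real.log_nonneg (show 1 ≤ R by linarith)
    calc 10 * (R + 1) ^ 5 * R ^ 6 * Real.log R ≤ 10 * (2 * R) ^ 5 * R ^ 6 * R := by
          gcongr; linarith
      _ = 320 * R ^ 12 := by ring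
      _ ≤ M := h5.trans hM

lemma log_two_le {F : ℕ} {x : ℝ} (h : (F : ℝ) ≤ x) (hx : 1 ≤ Real.log x) (h1 : 1 ≤ x) :
    ((Nat.log 2 F + 1 : ℕ) : ℝ) ≤ 3 * Real.log x := by
  have h2 : (2 : ℝ) ^ Nat.log 2 F ≤ x := by
    rcases Nat.eq_zero_or_pos F with rfl | h0
    · simpa using h1
    · exact le_trans (by exact_mod_cast Nat.pow_log_le_self 2 h0.ne') h
  have h3 := Real.log_le_log (by positivity) h2
  rw [Real.log_pow] at h3
  have h4 := Real.log_two_gt_d9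
  have h5 : (0 : ℝ) ≤ Nat.log 2 F := Nat.cast_nonneg _
  push_cast
  nlinarith

lemma box_final (D : ℕ) (hD : 16 ≤ D) {η δ ε : ℝ} (hη : 0 < η) (hδ : 0 < δ) (hε : 0 < ε)
    (g : Fin 3 → ℤ) (hg : Function.Injective g) (hg8 : ∀ j, g j ≠ 0 ∧ |g j| ≤ 8) (a : ℕ) :
    ∀ᶠ x : ℕ in atTop, ∀ (y y' : (Fin 3 → Finset (PP D x)) → ℝ) (β : ℕ → ℝ) (lo hi j r : ℕ)
      (S : Finset ℕ), (∀ T, |y T| ≤ 1) → (∀ T, |y' T| ≤ 1) →
      (∀ T U, y T ≠ 0 → y' U ≠ 0 →
        lgs (qq D x) T + lgs (qq D x) U ≤ (1 / 2 - η) * Real.log x) →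
      (∀ m ∈ S, |β m| ≤ 1 ∧ (x : ℝ) ^ η ≤ m ∧ (∀ p ∈ m.primeFactors, (x : ℝ) ^ η < p) ∧
        box δ m = j) →
      (x : ℝ) ^ η ≤ lo → (hi : ℝ) ≤ 2 * x * Real.exp (-(j * δ)) →
      |∑ m ∈ S, β m * ∑ p ∈ Ioc lo hi with p.Prime ∧ p * r ≡ a [MOD primorial D],
        Real.log p * (SS (qq D x) g y (p * m : ℕ) * SS (qq D x) g y' (p * m : ℕ) -
          Tbar (qq D x) g y y')| ≤ ε * x * Real.log x ^ 2 := by
  classical
  set s := η / 200 with hs
  have hs0 : 0 < s := by positivity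
  obtain ⟨Ca, hCa, ha⟩ := pow_card_le' (ε := 1 / 2) (by norm_num)
  obtain ⟨Cb, hCb, hb⟩ := pow_card_le' hs0
  obtain ⟨Cc, hCc, hc⟩ := pow_card_le' (ε := s / 8) (by positivity)
  set C0 : ℝ := 24 * Real.exp 8000 with hC0
  have hC0' : 0 < C0 := by positivity
  set e' := ε / (6 * Real.exp δ) with he'
  have he0 : 0 < e' := by positivity
  obtain ⟨Q, hQ1, hQ2⟩ : ∃ Q : ℕ, D ≤ Q ∧ 18 * C0 * Ca / (e' * s ^ 2) ≤ √Q := by
    obtain ⟨Q, h1, h2⟩ := ((eventually_ge_atTop D).and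
      ((Real.tendsto_sqrt_atTop.comp tendsto_natCast_atTop_atTop).eventually_ge_atTop
        (18 * C0 * Ca / (e' * s ^ 2)))).exists
    exact ⟨Q, h1, h2⟩
  set e1 := e' * s / (300 * C0 * Ca * (1 + (Q : ℝ) ^ 2)) with he1
  have he10 : 0 < e1 := by positivity
  obtain ⟨t0, ht0⟩ := small_cond D Q a hQ1 he10
  have hpow : ∀ t : ℝ, 0 < t → Tendsto (fun x : ℕ => (x : ℝ) ^ t) atTop atTop := fun t ht =>
    (tendsto_rpow_atTop ht).comp tendsto_natCast_atTop_atTop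
  filter_upwards [log_ev, Zf_ev D le_rfl, Zf_ev D one_le_two,
    log_pow_ev hs0 ((768 * Cc + 6000 * C0 * Cb) / e'), (hpow s hs0).eventually_ge_atTop 4,
    (hpow η hη).eventually_ge_atTop t0,
    tendsto_natCast_atTop_atTop.eventually_ge_atTop (2 * Real.exp δ + 8)]
    with x hL hZ1 hZ2 hsm hY ht hx y y' β lo hi j r S hy hy' hsupp hS hlo hhi
  set L := Real.log x with hLdef
  set Y := (x : ℝ) ^ s with hYdef
  have hed : 1 ≤ Real.exp δ := Real.one_le_exp hδ.le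
  have hx0 : (0 : ℝ) < x := by linarith
  have hL0 : 0 < L := by linarith
  have hY0 : 0 < Y := by linarith
  have hη' : (x : ℝ) ^ η = Y ^ 200 := by
    rw [hYdef, ← Real.rpow_natCast, ← Real.rpow_mul hx0.le]; congr 1; rw [hs]; push_cast; ring
  have hlY : Real.log Y = s * L := Real.log_rpow hx0 s
  rw [hη'] at hS hlo ht
  rcases S.eq_empty_or_nonempty with rfl | ⟨m0, hm0⟩
  · rw [sum_empty, abs_zero]; positivity
  rcases le_or_gt hi lo with hlh | hlh
  · simp only [Ioc_eq_empty_of_le hlh, filter_empty, sum_empty, mul_zero, sum_const_zero, abs_zero]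
    positivity
  obtain ⟨r1, r2, r3, r4, r5, r6⟩ := level hY
  set R := ⌊Y ^ 2⌋₊ with hR
  set S' := (Ioc lo hi).filter fun p => p.Prime ∧ p * r ≡ a [MOD primorial D] with hS'
  set M := Real.exp ((j + 1) * δ) with hM
  set N := 2 * x * Real.exp (-(j * δ)) with hN
  have hMN : M * N = 2 * Real.exp δ * x := by
    rw [hM, hN, show ((j : ℝ) + 1) * δ = δ + j * δ by ring, Real.exp_add, Real.exp_neg]
    field_simp
  have hY1 : (1 : ℝ) ≤ Y := by linarith
  have hY2 : Y ^ 2 ≤ Y ^ 200 := pow_le_pow_right₀ hY1 (by norm_num)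
  have hY3 : (16 : ℝ) ≤ Y ^ 200 := by nlinarith
  have a1 : ∀ m ∈ S, 1 ≤ m ∧ (m : ℝ) ≤ M := fun m hm => by
    have h0 : (1 : ℝ) ≤ m := by linarith [(hS m hm).2.1]
    refine ⟨by exact_mod_cast h0, ?_⟩
    rw [hM, ← Real.log_le_iff_le_exp (by linarith), ← div_le_iff₀ hδ, ← (hS m hm).2.2.2]
    exact (Nat.lt_floor_add_one _).le
  have a2 : ∀ p ∈ S', p.Prime ∧ Y ^ 200 < p ∧ (p : ℝ) ≤ N := fun p hp => by
    simp only [hS', mem_filter, mem_Ioc] at hp
    exact ⟨hp.2.1, hlo.trans_lt (by exact_mod_cast hp.1.1),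
      le_trans (by exact_mod_cast hp.1.2) hhi⟩
  have a3 : ∀ p ∈ S', 1 ≤ p ∧ (p : ℝ) ≤ N := fun p hp => ⟨(a2 p hp).1.pos, (a2 p hp).2.2⟩
  have hM1 : Y ^ 200 ≤ M := (hS m0 hm0).2.1.trans (a1 m0 hm0).2
  have hN1 : Y ^ 200 ≤ N := hlo.trans (le_trans (by exact_mod_cast hlh.le) hhi)
  have a4 : ∀ m ∈ S, ∀ l : ℕ, l.Prime → l ∣ m → Y ^ 200 < l := fun m hm l hl hd =>
    (hS m hm).2.2.1 l (Nat.mem_primeFactors.2 ⟨hl, hd, by have := (a1 m hm).1; omega⟩)
  have a5 : ∀ p ∈ S', ∀ l : ℕ, l.Prime → l ∣ p → Y ^ 200 < l := fun p hp l hl hd =>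
    (Nat.prime_dvd_prime_iff_eq hl (a2 p hp).1).1 hd ▸ (a2 p hp).2.1
  have a6 : ∀ p ∈ S', |Real.log p| ≤ 2 * L := fun p hp => by
    have h1 : N ≤ 2 * x := mul_le_of_le_one_right (by positivity)
      (Real.exp_le_one_iff.2 (neg_nonpos.2 (by positivity)))
    have h2 : (0 : ℝ) < p := by exact_mod_cast (a2 p hp).1.pos
    rw [abs_of_nonneg (Real.log_natCast_nonneg p), hLdef,
      show 2 * Real.log x = Real.log (x ^ 2) by simp]
    exact Real.log_le_log h2 (by nlinarith [(a2 p hp).2.2])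
  have h16 : ∀ i, 16 < qq D x i := fun i => hD.trans_lt (lt_qq D x i)
  have hpr : ∀ i, (qq D x i).Prime := fun i => Fact.out
  have hsL : ∀ T U, y T ≠ 0 → y' U ≠ 0 → lgs (qq D x) T + lgs (qq D x) U ≤ L :=
    fun T U h1 h2 => (hsupp T U h1 h2).trans (by nlinarith)
  have hE : ∀ m ∈ S, ∀ p ∈ S', |SS (qq D x) g y (p * m : ℕ) * SS (qq D x) g y' (p * m : ℕ) -
      Th0 (qq D x) g y y' (p * m)| ≤ 384 * Cc * L ^ 6 / Y := by
    intro m hm p hp
    refine (err_le hL0 (lam := Y ^ 200) (by linarith) h16 hg8 hy hy' hsL (p * m) fun i hi =>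
      ((Nat.Prime.dvd_mul (hpr i)).1 hi).elim (fun h => (a5 p hp _ (hpr i) h).le)
        fun h => (a4 m hm _ (hpr i) h).le).trans ?_
    have b1 : (16 : ℝ) ≤ (p * m : ℕ) := by
      have : (1 : ℝ) ≤ m := by exact_mod_cast (a1 m hm).1
      push_cast
      nlinarith [(a2 p hp).2.1]
    have b2 : ((p * m : ℕ) : ℝ) + 8 ≤ x ^ 2 := by
      have : (p : ℝ) * m ≤ N * M := mul_le_mul (a3 p hp).2 (a1 m hm).2 (by positivity)
        (by positivity)
      push_cast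
      nlinarith
    generalize p * m = n at b1 b2
    have b3 : (16 : ℤ) ≤ n := by exact_mod_cast b1
    have b4 : (n : ℤ) * ∏ j, (n + g j) ≠ 0 := mul_ne_zero (by omega) (prod_ne_zero_iff.2
      fun j _ => by have := abs_le.1 (hg8 j).2; omega)
    have b5 : |(((n : ℤ) * ∏ j, (n + g j) : ℤ) : ℝ)| ≤ x ^ 8 := by
      have c : ∀ j, |(n : ℝ) + g j| ≤ x ^ 2 := fun j => by
        have : |(g j : ℝ)| ≤ 8 := by exact_mod_cast (hg8 j).2
        exact (abs_add_le _ _).trans (by rw [Nat.abs_cast]; linarith)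
      push_cast
      rw [abs_mul, abs_prod, Fin.prod_univ_three, Nat.abs_cast]
      calc _ ≤ (x : ℝ) ^ 2 * (x ^ 2 * x ^ 2 * x ^ 2) := by
            gcongr
            exacts [by linarith, c 0, c 1, c 2]
        _ = _ := by ring
    have b6 := (prod_le_of_dvd (qq_inj D x) hpr b4 fun i hi =>
      (mem_filter.1 (show i ∈ univ.filter _ from hi)).2).trans b5
    have b7 := (hc _ _ (qq_inj D x) hpr _).trans (mul_le_mul_of_nonneg_left
      (Real.rpow_le_rpow (Nat.cast_nonneg _) b6 (by positivity)) hCc.le)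
    rw [← Real.rpow_natCast (x : ℝ), ← Real.rpow_mul hx0.le,
      show ((8 : ℕ) : ℝ) * (s / 8) = s by push_cast; ring, ← hYdef] at b7
    rw [one_mul] at hZ1
    have b8 := Zf_nonneg (q := qq D x) L⁻¹
    calc _ ≤ 2 * (Y ^ 2)⁻¹ * (3 * ((2 * L) ^ 6 * (Cc * Y))) := by gcongr
      _ = _ := by field_simp; ring
  set F := ⌊(x : ℝ) ^ (1 / 2 - η)⌋₊ with hF
  have hF1 : (F : ℝ) ≤ (x : ℝ) ^ (1 / 2 - η) := Nat.floor_le (by positivity)
  have hF2 : (F : ℝ) ≤ x := hF1.trans (by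
    simpa using Real.rpow_le_rpow_of_exponent_le (x := x) (by linarith)
      (show 1 / 2 - η ≤ 1 by linarith))
  have hcp : ∀ χ : Ch (qq D x), (0 : ℝ) < cond (qq D x) χ := fun χ => by
    exact_mod_cast cond_pos χ
  have w0 : ∀ χ, ‖CC (qq D x) g y y' χ‖ ≤
      C0 * L ^ 3 * (192 ^ (supp (qq D x) χ).card / cond (qq D x) χ) := fun χ => by
    refine (norm_CC_le hL0 (qq_inj D x) h16 hg hg8 hy hy' hsL χ).trans ?_
    have := Zf_nonneg (q := qq D x) (2 * L⁻¹)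
    calc _ ≤ 3 * ((2 * L) ^ 3 * Real.exp 8000) *
          (192 ^ (supp (qq D x) χ).card / (cond (qq D x) χ : ℝ)) := by gcongr
      _ = _ := by rw [hC0]; ring
  have w3 : ∀ χ, F < cond (qq D x) χ → ‖CC (qq D x) g y y' χ‖ = 0 := fun χ h => by
    by_contra h0
    have := CC_support hsupp (norm_ne_zero_iff.1 h0)
    rw [hLdef, ← Real.log_rpow hx0, Real.log_le_log_iff (hcp χ) (by positivity)] at this
    exact h.not_ge (Nat.le_floor this)
  have key := box_bound (qq_inj D x) (R := R) (Q := Q) (F := F) (M := M) (N := N) (c := 2 * L)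
    (ε := e1) (C := C0 * L ^ 3 * Ca) (V := C0 * L ^ 3 * (Cb * Y)) (S := S) (S' := S')
    (a := fun m => β m) (b := fun p => Real.log p) r1 (by omega) (by positivity) he10.le
    (by positivity) (by positivity) a1 a3
    (fun m hm l hl hd => by exact_mod_cast (r2.trans hY2).trans_lt (a4 m hm l hl hd))
    (fun m hm l hl hd => by exact_mod_cast (r2.trans hY2).trans_lt (a5 m hm l hl hd))
    (fun m hm => by simpa using (hS m hm).1)
    (fun p hp => by rw [Complex.norm_real]; exact a6 p hp)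
    (r6 M hM1) (r6 N hN1) (by
      have d1 : M * (2 * (R : ℝ) ^ 2) ≤ M * N := by gcongr; linarith
      have d2 : N * (2 * (R : ℝ) ^ 2) ≤ N * M := by gcongr; linarith
      linarith) (by
      have d1 : ((x : ℝ) ^ (1 / 2 - η)) ^ 2 * (Y ^ 200) ^ 2 = x := by
        rw [← hη', ← mul_pow, ← Real.rpow_add hx0, sub_add_cancel, ← Real.sqrt_eq_rpow,
          Real.sq_sqrt hx0.le]
      calc _ ≤ ((x : ℝ) ^ (1 / 2 - η)) ^ 2 * (Y ^ 200) ^ 2 := by gcongr; exact r2.trans hY2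
        _ ≤ _ := by rw [d1, hMN]; nlinarith)
    (fun χ => ‖CC (qq D x) g y y' χ‖) (fun χ => by
      refine (w0 χ).trans ?_
      have d1 := ha _ _ (qq_inj D x) hpr (supp (qq D x) χ)
      rw [← Real.sqrt_eq_rpow] at d1
      have d2 := Real.sqrt_pos.2 (hcp χ)
      rw [mul_div_assoc]
      refine mul_le_mul_of_nonneg_left ?_ (by positivity)
      rw [div_le_div_iff₀ (hcp χ) d2]
      calc _ ≤ Ca * √(cond (qq D x) χ) * √(cond (qq D x) χ) :=
            mul_le_mul_of_nonneg_right d1 d2.le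
        _ = _ := by rw [mul_assoc, Real.mul_self_sqrt (hcp χ).le]) (fun χ => by
      rcases le_or_gt (cond (qq D x) χ) F with h | h
      · refine (w0 χ).trans ?_
        have d1 := (hb _ _ (qq_inj D x) hpr (supp (qq D x) χ)).trans (mul_le_mul_of_nonneg_left
          (Real.rpow_le_rpow (Nat.cast_nonneg _) ((Nat.cast_le.2 h).trans hF2) hs0.le) hCb.le)
        rw [mul_div_assoc]
        gcongr
      · rw [w3 χ h]; positivity) w3 (fun χ h1 h2 =>
      (ht0 _ _ (qq_inj D x) (lt_qq D x) χ lo hi r h1 h2 (ht.trans hlo)).trans (by gcongr))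
  refine (split_le (qq D x) g y y' S S' β (fun p => Real.log p) (fun m hm => (hS m hm).1)
    a6 hE).trans ?_
  have f1 : (S.card : ℝ) * (S'.card * (2 * L * (384 * Cc * L ^ 6 / Y))) ≤
      M * N * (768 * Cc * L ^ 7 / Y) := by
    have d1 := card_le_real (by positivity) a1
    have d2 := card_le_real (by positivity) a3
    calc _ ≤ M * (N * (2 * L * (384 * Cc * L ^ 6 / Y))) := by gcongr
      _ = _ := by ring
  have hsl : 0 < s * L := by positivity
  rw [hlY] at r4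
  have f2 : 300 * (C0 * L ^ 3 * Ca) * (1 + (Q : ℝ) ^ 2) * e1 / Real.log R ≤ e' * L ^ 2 := by
    calc _ ≤ 300 * (C0 * L ^ 3 * Ca) * (1 + (Q : ℝ) ^ 2) * e1 / (s * L) := by gcongr
      _ = _ := by rw [he1]; field_simp
  have f3 : 9 * (C0 * L ^ 3 * Ca) * (2 * L) / (√Q * Real.log R ^ 2) ≤ e' * L ^ 2 := by
    calc _ ≤ 9 * (C0 * L ^ 3 * Ca) * (2 * L) / (18 * C0 * Ca / (e' * s ^ 2) * (s * L) ^ 2) := by
          gcongr
      _ = _ := by field_simp; ring
  have f4 : ((Nat.log 2 F + 1 : ℕ) : ℝ) * (500 * (C0 * L ^ 3 * (Cb * Y)) * (2 * L) / R) ≤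
      6000 * C0 * Cb * L ^ 7 / Y := by
    have d1 := log_two_le hF2 hL (by linarith)
    have d2 : L ^ 5 ≤ L ^ 7 := pow_le_pow_right₀ hL (by norm_num)
    calc _ ≤ 3 * L * (500 * (C0 * L ^ 3 * (Cb * Y)) * (2 * L) / (Y ^ 2 / 2)) := by gcongr
      _ = 6000 * C0 * Cb * L ^ 5 / Y := by field_simp; ring
      _ ≤ _ := by gcongr
  have f5 : 768 * Cc * L ^ 7 / Y + 6000 * C0 * Cb * L ^ 7 / Y ≤ e' * L ^ 2 := by
    rw [div_mul_eq_mul_div, div_le_iff₀ he0] at hsm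
    rw [← add_div, div_le_iff₀ hY0]
    have : Y * e' ≤ e' * L ^ 2 * Y := by
      have := mul_le_mul_of_nonneg_left (one_le_pow₀ (n := 2) hL) (mul_pos hY0 he0).le
      linarith
    linarith
  have f6 : M * N * (3 * (e' * L ^ 2)) = ε * x * L ^ 2 := by
    rw [hMN, he']; field_simp; ring
  have f7 : 0 ≤ M * N := by positivity
  have f8 := mul_le_mul_of_nonneg_left (add_le_add (add_le_add f2 f3) f4) f7
  have f9 := mul_le_mul_of_nonneg_left f5 f7
  linarith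

end BV

theorem bv (D : ℕ) (hD : 16 ≤ D) {η δ ε : ℝ} (hη : 0 < η) (hδ : 0 < δ) (hε : 0 < ε)
    (g : Fin 3 → ℤ) (hg : Function.Injective g) (hg8 : ∀ j, g j ≠ 0 ∧ |g j| ≤ 8) (a : ℕ) :
    ∀ᶠ x : ℕ in atTop, ∀ (y y' : (Fin 3 → Finset (PP D x)) → ℝ) (β : ℕ → ℝ) (lo hi : ℕ → ℕ),
      (∀ T, |y T| ≤ 1) → (∀ T, |y' T| ≤ 1) →
      (∀ T U, y T ≠ 0 → y' U ≠ 0 →
        lgs (qq D x) T + lgs (qq D x) U ≤ (1 / 2 - η) * Real.log x) →
      (∀ m, |β m| ≤ 1) →
      (∀ m, β m ≠ 0 → (x : ℝ) ^ η ≤ m ∧ (m : ℝ) ≤ (x : ℝ) ^ (1 - η) ∧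
        ∀ p ∈ m.primeFactors, (x : ℝ) ^ η < p) →
      (∀ j, (x : ℝ) ^ η ≤ lo j ∧ (hi j : ℝ) ≤ 2 * x * Real.exp (-(j * δ))) →
      |∑ m ∈ Icc 1 x, β m * ∑ p ∈ Ioc (lo (box δ m)) (hi (box δ m)) with
          p.Prime ∧ p * m ≡ a [MOD primorial D],
        Real.log p * (SS (qq D x) g y (p * m : ℕ) * SS (qq D x) g y' (p * m : ℕ) -
          Tbar (qq D x) g y y')| ≤ ε * x * Real.log x ^ 3 := by
  classical
  have hW : 0 < primorial D := primorial_pos D
  have hW' : (0 : ℝ) < primorial D := by exact_mod_cast hW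
  filter_upwards [BV.box_final D hD hη hδ (ε := ε / ((δ⁻¹ + 1) * primorial D)) (by positivity)
    g hg hg8 a, BV.log_ev] with x hx hL y y' β lo hi hy hy' hs hβ hβ' hlh
  rw [← sum_filter_of_ne (p := fun m => β m ≠ 0) fun m _ h => left_ne_zero_of_mul h,
    ← sum_fiberwise_of_maps_to (t := range (box δ x + 1) ×ˢ range (primorial D))
      (g := fun m => (box δ m, m % primorial D)) fun m hm => ?_]
  · refine (abs_sum_le_sum_abs _ _).trans ((sum_le_card_nsmul _ _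
      (ε / ((δ⁻¹ + 1) * primorial D) * x * Real.log x ^ 2) fun k _ => ?_).trans ?_)
    · refine le_trans (le_of_eq ?_) (hx y y' β (lo k.1) (hi k.1) k.1 k.2
        (((Icc 1 x).filter fun m => β m ≠ 0).filter fun m => (box δ m, m % primorial D) = k)
        hy hy' hs (fun m hm => ?_) (hlh _).1 (hlh _).2)
      · congr 1
        refine sum_congr rfl fun m hm => ?_
        rw [← (mem_filter.1 hm).2]
        have e : ∀ p : ℕ, p * (m % primorial D) ≡ p * m [MOD primorial D] := fun p =>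
          (Nat.mod_modEq m _).mul_left p
        congr 2
        exact filter_congr fun p _ => and_congr_right fun _ => ⟨(e p).trans, (e p).symm.trans⟩
      · have h1 := hβ' m (mem_filter.1 (mem_filter.1 hm).1).2
        exact ⟨hβ m, h1.1, h1.2.2, congrArg Prod.fst (mem_filter.1 hm).2⟩
    · rw [card_product, card_range, card_range, nsmul_eq_mul]
      have h1 : (box δ x : ℝ) ≤ Real.log x / δ := Nat.floor_le (by positivity)
      have h2 : ((box δ x + 1 : ℕ) : ℝ) ≤ (δ⁻¹ + 1) * Real.log x := by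
        rw [div_eq_inv_mul] at h1
        push_cast
        linarith
      rw [Nat.cast_mul]
      calc _ ≤ (δ⁻¹ + 1) * Real.log x * primorial D *
            (ε / ((δ⁻¹ + 1) * primorial D) * x * Real.log x ^ 2) := by gcongr
        _ = _ := by field_simp
  · have h1 := mem_Icc.1 (mem_filter.1 hm).1
    refine mem_product.2 ⟨mem_range.2 (Nat.lt_succ_of_le (Nat.floor_le_floor ?_)),
      mem_range.2 (Nat.mod_lt _ hW)⟩
    have : (0 : ℝ) < m := by exact_mod_cast h1.1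
    gcongr
    exact h1.2

end Pool.Agent.Lib.MP_fc51f7_nt
end
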