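import Pool.Agent.Lib.MP_fc51f7_nt.LS

-- part Pool.Agent.Lib.MP_fc51f7_nt.Kar
section

/-! Karamata's theorem and consequences of vague convergence. -/

set_option autoImplicit false

namespace Pool.Agent.Lib.MP_fc51f7_nt

open Finset Filter Topology MeasureTheory

lemma tendsto_of_sandwich {a : ℕ → ℝ} {L : ℝ} (h : ∀ ε > 0, ∃ (lo hi : ℕ → ℝ) (l m : ℝ),
    (∀ᶠ x in atTop, lo x ≤ a x ∧ a x ≤ hi x) ∧ Tendsto lo atTop (𝓝 l) ∧ Tendsto hi atTop (𝓝 m) ∧
      L - ε ≤ l ∧ m ≤ L + ε) : Tendsto a atTop (𝓝 L) := by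
  refine tendsto_order.2 ⟨fun b hb => ?_, fun b hb => ?_⟩
  · obtain ⟨lo, hi, l, m, h1, h2, -, h4, -⟩ := h ((L - b) / 2) (by linarith)
    filter_upwards [h1, h2.eventually (lt_mem_nhds (show b < l by linarith))] with x k1 k2
    exact k2.trans_le k1.1
  · obtain ⟨lo, hi, l, m, h1, -, h3, -, h5⟩ := h ((b - L) / 2) (by linarith)
    filter_upwards [h1, h3.eventually (gt_mem_nhds (show m < b by linarith))] with x k1 k2
    exact k1.2.trans_lt k2

lemma tendsto_of_approx {a : ℕ → ℝ} {L : ℝ} (h : ∀ ε > 0, ∃ (b e : ℕ → ℝ) (l m : ℝ),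
    (∀ x, |a x - b x| ≤ e x) ∧ Tendsto b atTop (𝓝 l) ∧ Tendsto e atTop (𝓝 m) ∧
      |l - L| + m ≤ ε) : Tendsto a atTop (𝓝 L) := by
  refine tendsto_of_sandwich fun ε hε => ?_
  obtain ⟨b, e, l, m, h1, h2, h3, h4⟩ := h ε hε
  refine ⟨_, _, _, _, Eventually.of_forall fun x => ?_, h2.sub h3, h2.add h3, ?_, ?_⟩
  · have := abs_le.1 (h1 x)
    constructor <;> linarith
  · linarith [neg_abs_le (l - L)]
  · linarith [le_abs_self (l - L)]

section
variable {α : ℕ → Type} {s : ∀ x, Finset (α x)} {c t : ∀ x, α x → ℝ} {c0 : ℝ} {ρ : ℝ → ℝ}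

lemma abs_sum_sub_le (hpos : ∀ x, ∀ i ∈ s x, 0 ≤ c x i ∧ 0 ≤ t x i) {f g e : ℝ → ℝ}
    (h : ∀ u, 0 ≤ u → |f u - g u| ≤ e u) (x : ℕ) :
    |∑ i ∈ s x, c x i * f (t x i) - ∑ i ∈ s x, c x i * g (t x i)| ≤ ∑ i ∈ s x, c x i * e (t x i) := by
  rw [← sum_sub_distrib]
  refine (abs_sum_le_sum_abs _ _).trans (sum_le_sum fun i hi => ?_)
  rw [← mul_sub, abs_mul, abs_of_nonneg (hpos x i hi).1]
  exact mul_le_mul_of_nonneg_left (h _ (hpos x i hi).2) (hpos x i hi).1

theorem karamata (hpos : ∀ x, ∀ i ∈ s x, 0 ≤ c x i ∧ 0 ≤ t x i) (hρ : Continuous ρ)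
    (hρ0 : ∀ u, 0 ≤ u → 0 ≤ ρ u) (hc0 : 0 ≤ c0)
    (hint : IntegrableOn (fun u => Real.exp (-u) * ρ u) (Set.Ioi 0))
    (h : ∀ j : ℕ, Tendsto (fun x => ∑ i ∈ s x, c x i * Real.exp (-(((j : ℝ) + 1) * t x i))) atTop
      (𝓝 (c0 + ∫ u in Set.Ioi (0 : ℝ), Real.exp (-(((j : ℝ) + 1) * u)) * ρ u))) :
    Conv s c t c0 ρ := by
  refine ⟨hpos, hρ, hρ0, hc0, fun g hg T hT hg0 => ?_⟩
  have dom : ∀ (f : ℝ → ℝ) (M : ℝ), Continuous f → (∀ u, 0 ≤ u → |f u| ≤ M * Real.exp (-u)) →
      IntegrableOn (fun u => f u * ρ u) (Set.Ioi 0) := fun f M hf hM => by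
    refine (hint.const_mul M).mono' (hf.mul hρ).aestronglyMeasurable ?_
    filter_upwards [ae_restrict_mem measurableSet_Ioi] with u hu
    rw [Real.norm_eq_abs, abs_mul, abs_of_nonneg (hρ0 u (le_of_lt hu)), ← mul_assoc]
    exact mul_le_mul_of_nonneg_right (hM u (le_of_lt hu)) (hρ0 u (le_of_lt hu))
  have poly : ∀ P : Polynomial ℝ,
      IntegrableOn (fun u => Real.exp (-u) * P.eval (Real.exp (-u)) * ρ u) (Set.Ioi 0) ∧
      Tendsto (fun x => ∑ i ∈ s x, c x i * (Real.exp (-t x i) * P.eval (Real.exp (-t x i)))) atTop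
        (𝓝 (c0 * P.eval 1 +
          ∫ u in Set.Ioi (0 : ℝ), Real.exp (-u) * P.eval (Real.exp (-u)) * ρ u)) := by
    intro P
    induction P using Polynomial.induction_on' with
    | add p q hp hq =>
      simp only [Polynomial.eval_add, mul_add, add_mul, sum_add_distrib]
      refine ⟨hp.1.add hq.1, ?_⟩
      rw [integral_add hp.1 hq.1, add_add_add_comm]
      exact hp.2.add hq.2
    | monomial j a =>
      have e : ∀ u : ℝ, Real.exp (-u) * (Polynomial.monomial j a).eval (Real.exp (-u)) =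
          a * Real.exp (-(((j : ℝ) + 1) * u)) := fun u => by
        rw [Polynomial.eval_monomial, ← Real.exp_nat_mul, mul_left_comm, ← Real.exp_add]
        congr 2
        ring
      simp only [e]
      refine ⟨dom _ |a| (by fun_prop) fun u hu => ?_, ?_⟩
      · rw [abs_mul, Real.abs_exp]
        gcongr
        nlinarith [mul_nonneg (Nat.cast_nonneg (α := ℝ) j) hu]
      · simp only [mul_left_comm _ a, mul_assoc, ← mul_sum, integral_const_mul,
          Polynomial.eval_monomial, one_pow, mul_one, mul_comm c0 a, ← mul_add]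
        exact (h j).const_mul a
  let G : ℝ → ℝ := fun y => g (-Real.log (max y (Real.exp (-T)))) / max y (Real.exp (-T))
  have hm : ∀ y, max y (Real.exp (-T)) ≠ 0 := fun y =>
    ((Real.exp_pos _).trans_le (le_max_right _ _)).ne'
  have hG : Continuous G := (hg.comp (Continuous.log (by fun_prop) hm).neg).div (by fun_prop) hm
  have hgG : ∀ u, g u = Real.exp (-u) * G (Real.exp (-u)) := fun u => by
    rcases le_total u T with h1 | h1
    · simp only [G, max_eq_left (Real.exp_le_exp.2 (neg_le_neg h1)), Real.log_exp, neg_neg]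
      field_simp
    · simp only [G, max_eq_right (Real.exp_le_exp.2 (neg_le_neg h1)), Real.log_exp, neg_neg,
        hg0 T le_rfl, hg0 u h1, zero_div, mul_zero]
  have h0 := h 0
  simp only [Nat.cast_zero, zero_add, one_mul] at h0
  set m := c0 + ∫ u in Set.Ioi (0 : ℝ), Real.exp (-u) * ρ u with hmdef
  have hm0 : 0 ≤ m := ge_of_tendsto' h0 fun x =>
    sum_nonneg fun i hi => mul_nonneg (hpos x i hi).1 (Real.exp_pos _).le
  have hT' : ∫ u in (0 : ℝ)..T, g u * ρ u = ∫ u in Set.Ioi (0 : ℝ), g u * ρ u := by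
    rw [intervalIntegral.integral_of_le hT]
    refine (setIntegral_eq_of_subset_of_forall_sdiff_eq_zero measurableSet_Ioi
      Set.Ioc_subset_Ioi_self fun u hu => ?_).symm
    rw [hg0 u (not_lt.1 fun h => hu.2 ⟨hu.1, h.le⟩), zero_mul]
  rw [hT']
  refine tendsto_of_approx fun ε hε => ?_
  set η := ε / (2 * m + 1) with hη
  have hη0 : 0 < η := by positivity
  obtain ⟨P, hP⟩ := exists_polynomial_near_of_continuousOn 0 1 G hG.continuousOn η hη0
  have key : ∀ u, 0 ≤ u →
      |g u - Real.exp (-u) * P.eval (Real.exp (-u))| ≤ η * Real.exp (-u) := fun u hu => by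
    rw [hgG u, ← mul_sub, abs_mul, Real.abs_exp, abs_sub_comm, mul_comm]
    exact mul_le_mul_of_nonneg_right (hP _ ⟨(Real.exp_pos _).le,
      Real.exp_le_one_iff.2 (neg_nonpos.2 hu)⟩).le (Real.exp_pos _).le
  have i1 := dom (fun u => g u - Real.exp (-u) * P.eval (Real.exp (-u))) η (by fun_prop) key
  have i2 : IntegrableOn (fun u => g u * ρ u) (Set.Ioi 0) :=
    (i1.add (poly P).1).congr (Eventually.of_forall fun u => by simp only [Pi.add_apply]; ring)
  refine ⟨_, _, _, η * m, abs_sum_sub_le hpos key, (poly P).2, ?_, ?_⟩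
  · simpa only [mul_sum, mul_left_comm η] using h0.const_mul η
  · have k0 := key 0 le_rfl
    simp only [neg_zero, Real.exp_zero, one_mul, mul_one] at k0
    have k1 : |(∫ u in Set.Ioi (0 : ℝ), g u * ρ u) -
        ∫ u in Set.Ioi (0 : ℝ), Real.exp (-u) * P.eval (Real.exp (-u)) * ρ u| ≤
        η * ∫ u in Set.Ioi (0 : ℝ), Real.exp (-u) * ρ u := by
      rw [← integral_sub i2 (poly P).1, ← integral_const_mul, ← Real.norm_eq_abs]
      refine norm_integral_le_of_norm_le (hint.const_mul η) ?_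
      filter_upwards [ae_restrict_mem measurableSet_Ioi] with u hu
      rw [← sub_mul, Real.norm_eq_abs, abs_mul, abs_of_nonneg (hρ0 u (le_of_lt hu)), ← mul_assoc]
      exact mul_le_mul_of_nonneg_right (key u (le_of_lt hu)) (hρ0 u (le_of_lt hu))
    have k2 : η * (2 * m + 1) = ε := by rw [hη]; field_simp
    have k3 := abs_le.1 k1
    have k4 := abs_le.1 k0
    have k5 := mul_le_mul_of_nonneg_left k4.1 hc0
    have k6 := mul_le_mul_of_nonneg_left k4.2 hc0
    rw [← le_sub_iff_add_le, abs_le]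
    constructor <;> nlinarith

lemma Conv.cut (h : Conv s c t c0 ρ) {b : ℝ} (hb : 0 ≤ b) (hb' : 0 < b ∨ c0 = 0) {G : ℝ → ℝ}
    (hG : Continuous G) (p : ℝ → Prop) [DecidablePred p] (h1 : ∀ u, u < b → p u)
    (h2 : ∀ u, b < u → ¬ p u) :
    Tendsto (fun x => ∑ i ∈ s x with p (t x i), c x i * G (t x i)) atTop
      (𝓝 (c0 * G 0 + ∫ u in (0 : ℝ)..b, G u * ρ u)) := by
  obtain ⟨hpos, hρ, hρ0, hc0, h⟩ := h
  let e : ℝ → ℝ → ℝ := fun δ u => |G u| * max 0 (1 - |u - b| / δ)
  have he : ∀ δ, Continuous (e δ) := fun δ => by fun_prop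
  have he0 : ∀ δ u, 0 ≤ e δ u := fun δ u => mul_nonneg (abs_nonneg _) (le_max_left _ _)
  have hz : ∀ δ u, 0 < δ → δ ≤ |u - b| → e δ u = 0 := fun δ u hδ hu => by
    simp only [e, max_eq_left (sub_nonpos.2 ((one_le_div hδ).2 hu)), mul_zero]
  have hlim : Tendsto (fun δ => ∫ u in (0 : ℝ)..(b + 1), e δ u * ρ u) (𝓝[>] 0)
      (𝓝 (∫ _ in (0 : ℝ)..(b + 1), 0)) := by
    refine intervalIntegral.tendsto_integral_filter_of_dominated_convergence
      (fun u => |G u| * |ρ u|) (Eventually.of_forall fun δ => ((he δ).mul hρ).aestronglyMeasurable)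
      ?_ (Continuous.intervalIntegrable (by fun_prop) _ _) ?_
    · filter_upwards [self_mem_nhdsWithin] with δ hδ
      refine Eventually.of_forall fun u _ => ?_
      rw [Real.norm_eq_abs, abs_mul, abs_of_nonneg (he0 δ u)]
      refine mul_le_mul_of_nonneg_right (mul_le_of_le_one_right (abs_nonneg _) (max_le zero_le_one
        (sub_le_self _ (div_nonneg (abs_nonneg _) (le_of_lt hδ))))) (abs_nonneg _)
    · filter_upwards [show ∀ᵐ u : ℝ, u ≠ b by simp [ae_iff]] with u hu _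
      refine tendsto_const_nhds.congr' ?_
      filter_upwards [Ioo_mem_nhdsGT (abs_pos.2 (sub_ne_zero.2 hu))] with δ hδ
      rw [hz δ u hδ.1 hδ.2.le, zero_mul]
  rw [intervalIntegral.integral_zero] at hlim
  refine tendsto_of_approx fun ε hε => ?_
  have hc : ∀ᶠ δ in 𝓝[>] (0 : ℝ), c0 * e δ 0 = 0 := by
    rcases hb' with hb' | hb'
    · filter_upwards [Ioo_mem_nhdsGT hb'] with δ hδ
      rw [hz δ 0 hδ.1 (by rw [zero_sub, abs_neg, abs_of_nonneg hb]; exact hδ.2.le), mul_zero]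
    · exact Eventually.of_forall fun δ => by rw [hb', zero_mul]
  obtain ⟨δ, ⟨k1, k2⟩, hδ, hδ1⟩ := (((hlim.eventually (gt_mem_nhds (half_pos hε))).and hc).and
    (Ioo_mem_nhdsGT one_pos)).exists
  let g : ℝ → ℝ := fun u => G u * min 1 (max 0 (1 - (u - b) / δ))
  have hg : Continuous g := by fun_prop
  have g1 : ∀ u, u ≤ b → g u = G u := fun u hu => by
    have : (u - b) / δ ≤ 0 := div_nonpos_of_nonpos_of_nonneg (sub_nonpos.2 hu) hδ.le
    simp only [g, min_eq_left (le_max_of_le_right (show (1 : ℝ) ≤ 1 - (u - b) / δ by linarith)),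
      mul_one]
  have g2 : ∀ u, b ≤ u → |g u| ≤ e δ u := fun u hu => by
    simp only [g, e, abs_mul, abs_of_nonneg (sub_nonneg.2 hu)]
    rw [abs_of_nonneg (le_min zero_le_one (le_max_left (0 : ℝ) (1 - (u - b) / δ)))]
    exact mul_le_mul_of_nonneg_left (min_le_right _ _) (abs_nonneg _)
  have e1 : ∀ u, b + 1 ≤ u → e δ u = 0 := fun u hu =>
    hz δ u hδ (le_abs.2 (Or.inl (by linarith)))
  have hb1 : (0 : ℝ) ≤ b + 1 := by linarith
  refine ⟨_, _, _, _, fun x => ?_, h g hg (b + 1) hb1 fun u hu =>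
    abs_nonpos_iff.1 ((g2 u (by linarith)).trans (e1 u hu).le), h _ (he δ) (b + 1) hb1 e1, ?_⟩
  · have := abs_sum_sub_le hpos (f := fun u => if p u then G u else 0) (g := g) (e := e δ)
      (fun u _ => ?_) x
    · simpa only [sum_filter, mul_ite, mul_zero] using this
    rcases lt_trichotomy u b with hu | rfl | hu
    · simpa only [if_pos (h1 u hu), g1 u hu.le, sub_self, abs_zero] using he0 δ u
    · rw [g1 u le_rfl]
      split_ifs <;> simp [e]
    · simpa only [if_neg (h2 u hu), zero_sub, abs_neg] using g2 u hu.le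
  · have i1 : ∀ (f : ℝ → ℝ) (a a' : ℝ), Continuous f →
        IntervalIntegrable (fun u => f u * ρ u) volume a a' := fun f a a' hf =>
      (hf.mul hρ).intervalIntegrable _ _
    have k3 : ∫ u in (0 : ℝ)..b, g u * ρ u = ∫ u in (0 : ℝ)..b, G u * ρ u :=
      intervalIntegral.integral_congr fun u hu => by
        rw [Set.uIcc_of_le hb] at hu
        simp only [g1 u hu.2]
    have k4 : |∫ u in b..(b + 1), g u * ρ u| ≤ ∫ u in b..(b + 1), e δ u * ρ u := by
      rw [← Real.norm_eq_abs]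
      refine intervalIntegral.norm_integral_le_of_norm_le (by linarith)
        (Eventually.of_forall fun u hu => ?_) (i1 _ _ _ (he δ))
      rw [Real.norm_eq_abs, abs_mul, abs_of_nonneg (hρ0 u (hb.trans hu.1.le))]
      exact mul_le_mul_of_nonneg_right (g2 u hu.1.le) (hρ0 u (hb.trans hu.1.le))
    have k5 : 0 ≤ ∫ u in (0 : ℝ)..b, e δ u * ρ u :=
      intervalIntegral.integral_nonneg hb fun u hu => mul_nonneg (he0 δ u) (hρ0 u hu.1)
    have k6 := intervalIntegral.integral_add_adjacent_intervals (i1 _ 0 b (he δ))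
      (i1 _ b (b + 1) (he δ))
    rw [← intervalIntegral.integral_add_adjacent_intervals (i1 g 0 b hg) (i1 g b (b + 1) hg), k3,
      g1 0 hb, k2, ← add_assoc (c0 * G 0), add_sub_cancel_left]
    linarith

lemma exists_ext {a b : ℝ} (hab : a ≤ b) {g : ℝ → ℝ} (hg : ContinuousOn g (Set.Icc a b)) :
    ∃ G : ℝ → ℝ, Continuous G ∧ ∀ u ∈ Set.Icc a b, G u = g u :=
  ⟨Set.IccExtend hab (fun u => g u), hg.domRestrict.Icc_extend', fun _ hu =>
    Set.IccExtend_of_mem _ _ hu⟩

theorem Conv.le (h : Conv s c t c0 ρ) {b : ℝ} (hb : 0 < b) {g : ℝ → ℝ}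
    (hg : ContinuousOn g (Set.Icc 0 b)) :
    Tendsto (fun x => ∑ i ∈ s x with t x i ≤ b, c x i * g (t x i)) atTop
      (𝓝 (c0 * g 0 + ∫ u in (0 : ℝ)..b, g u * ρ u)) := by
  obtain ⟨G, hG, e⟩ := exists_ext hb.le hg
  have := h.cut hb.le (Or.inl hb) hG (· ≤ b) (fun _ h => h.le) fun _ h => not_le.2 h
  rw [e 0 ⟨le_rfl, hb.le⟩, intervalIntegral.integral_congr (g := fun u => g u * ρ u)
    fun u hu => by simp only [e u (Set.uIcc_of_le hb.le ▸ hu)]] at this
  refine this.congr fun x => sum_congr rfl fun i hi => ?_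
  rw [e _ ⟨(h.1 x i (mem_filter.1 hi).1).2, (mem_filter.1 hi).2⟩]

lemma sum_filter_sub {β : Type*} (s : Finset β) (f : β → ℝ) (p q r : β → Prop) [DecidablePred p]
    [DecidablePred q] [DecidablePred r] (h1 : ∀ i, r i ↔ ¬ q i ∧ p i) (h2 : ∀ i, q i → p i) :
    ∑ i ∈ s with p i, f i - ∑ i ∈ s with q i, f i = ∑ i ∈ s with r i, f i := by
  simp only [sum_filter, ← sum_sub_distrib, h1]
  refine sum_congr rfl fun i _ => ?_
  by_cases hq : q i
  · simp [hq, h2 i hq]
  · simp [hq]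

theorem Conv.Ioc (h : Conv s c t c0 ρ) {a b : ℝ} (ha : 0 < a) (hab : a ≤ b) {g : ℝ → ℝ}
    (hg : ContinuousOn g (Set.Icc a b)) :
    Tendsto (fun x => ∑ i ∈ s x with a < t x i ∧ t x i ≤ b, c x i * g (t x i)) atTop
      (𝓝 (∫ u in a..b, g u * ρ u)) := by
  obtain ⟨G, hG, e⟩ := exists_ext hab hg
  have := (h.cut (ha.le.trans hab) (Or.inl (ha.trans_le hab)) hG (· ≤ b) (fun _ h => h.le)
    fun _ h => not_le.2 h).sub
    (h.cut ha.le (Or.inl ha) hG (· ≤ a) (fun _ h => h.le) fun _ h => not_le.2 h)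
  rw [add_sub_add_left_eq_sub, intervalIntegral.integral_interval_sub_left
    ((hG.fun_mul h.2.1).intervalIntegrable _ _) ((hG.fun_mul h.2.1).intervalIntegrable _ _),
    intervalIntegral.integral_congr (g := fun u => g u * ρ u)
    fun u hu => by simp only [e u (Set.uIcc_of_le hab ▸ hu)]] at this
  refine this.congr fun x => ?_
  rw [sum_filter_sub _ _ _ _ (fun i => a < t x i ∧ t x i ≤ b) (fun i => by rw [not_le])
    fun i hi => hi.trans hab]
  refine sum_congr rfl fun i hi => ?_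
  rw [e _ ⟨(mem_filter.1 hi).2.1.le, (mem_filter.1 hi).2.2⟩]

theorem Conv.Ico (h : Conv s c t 0 ρ) {a b : ℝ} (ha : 0 ≤ a) (hab : a ≤ b) :
    Tendsto (fun x => ∑ i ∈ s x with a ≤ t x i ∧ t x i < b, c x i) atTop
      (𝓝 (∫ u in a..b, ρ u)) := by
  have := (h.cut (ha.trans hab) (Or.inr rfl) (G := fun _ => 1) continuous_const (· < b)
    (fun _ h => h) fun _ h => not_lt.2 h.le).sub
    (h.cut ha (Or.inr rfl) (G := fun _ => 1) continuous_const (· < a) (fun _ h => h)
      fun _ h => not_lt.2 h.le)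
  simp only [mul_one, one_mul, zero_add] at this
  rw [intervalIntegral.integral_interval_sub_left (h.2.1.intervalIntegrable _ _)
    (h.2.1.intervalIntegrable _ _)] at this
  exact this.congr fun x => sum_filter_sub _ _ _ _ _ (fun i => by rw [not_lt])
    fun i hi => hi.trans_le hab

theorem Conv.unif (h : Conv s c t c0 ρ) (Φ : ℝ → ℝ → ℝ) {T K : ℝ} (a0 a1 : ℝ) (hT : 0 ≤ T)
    (hc : ∀ a, Continuous (Φ a)) (h0 : ∀ a u, T ≤ u → Φ a u = 0)
    (hL : ∀ a a' u, |Φ a u - Φ a' u| ≤ K * |a - a'|) {ε : ℝ} (hε : 0 < ε) :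
    ∀ᶠ x in atTop, ∀ a ∈ Set.Icc a0 a1, |∑ i ∈ s x, c x i * Φ a (t x i) -
      (c0 * Φ a 0 + ∫ u in (0 : ℝ)..T, Φ a u * ρ u)| ≤ ε := by
  have hK : 0 ≤ K := by simpa using (abs_nonneg _).trans (hL 1 0 0)
  let χ : ℝ → ℝ := fun u => max 0 (T + 1 - u)
  have hm := h.2.2.2.2 χ (by fun_prop) (T + 1) (by linarith)
    fun u hu => max_eq_left (sub_nonpos.2 hu)
  set m := c0 * χ 0 + ∫ u in (0 : ℝ)..(T + 1), χ u * ρ u
  have hm0 : 0 ≤ m := ge_of_tendsto' hm fun x =>
    sum_nonneg fun i hi => mul_nonneg (h.1 x i hi).1 (le_max_left _ _)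
  have hΦ := fun a => h.2.2.2.2 (Φ a) (hc a) T hT (h0 a)
  have k1 : ∀ a a' x, |∑ i ∈ s x, c x i * Φ a (t x i) - ∑ i ∈ s x, c x i * Φ a' (t x i)| ≤
      K * |a - a'| * ∑ i ∈ s x, c x i * χ (t x i) := fun a a' x => by
    have := abs_sum_sub_le h.1 (f := Φ a) (g := Φ a') (e := fun u => K * |a - a'| * χ u)
      (fun u _ => ?_) x
    · simpa only [mul_sum, mul_left_comm (K * |a - a'|)] using this
    rcases le_total u T with hu | hu
    · exact (hL a a' u).trans (le_mul_of_one_le_right (by positivity)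
        (le_max_of_le_right (by linarith)))
    · rw [h0 a u hu, h0 a' u hu, sub_self, abs_zero]
      exact mul_nonneg (by positivity) (le_max_left _ _)
  have k2 := fun a a' => le_of_tendsto_of_tendsto' ((hΦ a).sub (hΦ a')).abs
    (hm.const_mul (K * |a - a'|)) (k1 a a')
  refine isCompact_Icc.induction_on (p := fun S => ∀ᶠ x in atTop, ∀ a ∈ S,
    |∑ i ∈ s x, c x i * Φ a (t x i) - (c0 * Φ a 0 + ∫ u in (0 : ℝ)..T, Φ a u * ρ u)| ≤ ε)
    (by simp) (fun S S' hS h => h.mono fun x hx a ha => hx a (hS ha))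
    (fun S S' h h' => (h.and h').mono fun x hx a ha => ha.elim (hx.1 a) (hx.2 a)) fun a' _ => ?_
  set δ := ε / (3 * (K * (m + 1) + 1)) with hδ
  have hδ0 : 0 < δ := by positivity
  refine ⟨Metric.ball a' δ, nhdsWithin_le_nhds (Metric.ball_mem_nhds _ hδ0), ?_⟩
  filter_upwards [Metric.tendsto_nhds.1 (hΦ a') (ε / 3) (by positivity),
    hm.eventually (gt_mem_nhds (lt_add_one m))] with x h1 h2 a ha
  have h3 : |a - a'| ≤ δ := (Metric.mem_ball.1 ha).le
  have h4 : K * δ * (m + 1) ≤ ε / 3 := by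
    have : δ * (3 * (K * (m + 1) + 1)) = ε := by rw [hδ]; field_simp
    nlinarith
  have h5 := (k1 a a' x).trans (show _ ≤ K * δ * (m + 1) from
    mul_le_mul (by gcongr) h2.le (sum_nonneg fun i hi => mul_nonneg (h.1 x i hi).1
      (le_max_left _ _)) (by positivity))
  have h6 := (k2 a a').trans (show _ ≤ K * δ * (m + 1) by gcongr; linarith)
  rw [Real.dist_eq] at h1
  have h7 := abs_le.1 h5
  have h8 := abs_le.1 h6
  have h9 := abs_lt.1 h1
  rw [abs_le]
  constructor <;> linarith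

end

end Pool.Agent.Lib.MP_fc51f7_nt
end

-- part Pool.Agent.Lib.MP_fc51f7_nt.Meas
section

/-! Limits of the basic measures attached to the sieving primes. -/

set_option autoImplicit false

namespace Pool.Agent.Lib.MP_fc51f7_nt

open Finset Filter Topology MeasureTheory

namespace Meas

lemma tendsto_L : Tendsto (fun x : ℕ => Real.log x) atTop atTop :=
  Real.tendsto_log_atTop.comp tendsto_natCast_atTop_atTop

lemma L_pos : ∀ᶠ x : ℕ in atTop, 0 < Real.log x := tendsto_L.eventually_gt_atTop 0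

lemma tendsto_e (w : ℝ) : Tendsto (fun x : ℕ => w / Real.log x) atTop (𝓝 0) :=
  tendsto_const_nhds.div_atTop tendsto_L

/-- the zeta series at `1 + e` -/
noncomputable def zs (e : ℝ) : ℝ := ∑' n : ℕ, (n : ℝ) ^ (-(1 + e))

lemma zs_tendsto {w : ℝ} (hw : 0 < w) :
    Tendsto (fun x : ℕ => zs (w / Real.log x) / Real.log x) atTop (𝓝 w⁻¹) := by
  have h1 : Tendsto (fun x : ℕ => 1 + w / Real.log x) atTop (𝓝[>] 1) :=
    tendsto_nhdsWithin_iff.2 ⟨by simpa using (tendsto_e w).const_add 1,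
      L_pos.mono fun x hx => lt_add_of_pos_right _ (div_pos hw hx)⟩
  have h2 := (tendsto_sub_mul_tsum_nat_rpow.comp h1).const_mul w⁻¹
  rw [mul_one] at h2
  refine h2.congr fun x => ?_
  simp only [Function.comp, zs, Real.rpow_neg (Nat.cast_nonneg _), one_div, add_sub_cancel_left]
  field_simp

lemma V_pos (D : ℕ) : 0 < ∏ p ∈ Nat.primesLE D, (1 - (p : ℝ)⁻¹) :=
  prod_pos fun p hp => sub_pos.2 (inv_lt_one_of_one_lt₀ (by
    exact_mod_cast Nat.one_lt_of_mem_primesLE hp))

lemma V_tendsto (D : ℕ) (w : ℝ) :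
    Tendsto (fun x : ℕ => (∏ p ∈ Nat.primesLE D, (1 - (p : ℝ) ^ (-(1 + w / Real.log x)))) /
      ∏ p ∈ Nat.primesLE D, (1 - (p : ℝ)⁻¹)) atTop (𝓝 1) := by
  suffices h : Tendsto (fun x : ℕ => ∏ p ∈ Nat.primesLE D,
      (1 - (p : ℝ) ^ (-(1 + w / Real.log x)))) atTop
      (𝓝 (∏ p ∈ Nat.primesLE D, (1 - (p : ℝ)⁻¹))) by
    have h1 := h.div_const (∏ p ∈ Nat.primesLE D, (1 - (p : ℝ)⁻¹))
    rwa [div_self (V_pos D).ne'] at h1
  refine tendsto_finsetProd _ fun p hp => Tendsto.const_sub _ ?_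
  have hp0 : (p : ℝ) ≠ 0 := by exact_mod_cast (Nat.prime_of_mem_primesLE hp).ne_zero
  have := (Real.continuousAt_const_rpow hp0).tendsto.comp ((tendsto_e w).const_add 1).neg
  simpa [Real.rpow_neg_one, Function.comp_def] using this

lemma euler (Y : ℕ) {e : ℝ} (he : 0 < e) :
    zs e - ((Y + 1 : ℕ) : ℝ) ^ (-(e / 2)) * zs (e / 2) ≤
      ∏ p ∈ Nat.primesLE Y, (1 - (p : ℝ) ^ (-(1 + e)))⁻¹ ∧
    ∏ p ∈ Nat.primesLE Y, (1 - (p : ℝ) ^ (-(1 + e)))⁻¹ ≤ zs e := by
  have hs : ∀ {e : ℝ}, 0 < e → Summable fun n : ℕ => (n : ℝ) ^ (-(1 + e)) := fun he =>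
    Real.summable_nat_rpow.2 (by linarith)
  let f : ℕ →* ℝ :=
    { toFun := fun n => (n : ℝ) ^ (-(1 + e))
      map_one' := by simp
      map_mul' := fun a b => by
        rw [Nat.cast_mul, Real.mul_rpow (Nat.cast_nonneg _) (Nat.cast_nonneg _)] }
  have h1 : ∏ p ∈ Nat.primesLE Y, (1 - (p : ℝ) ^ (-(1 + e)))⁻¹ =
      ∑' m : (Y + 1).smoothNumbers, ((m : ℕ) : ℝ) ^ (-(1 + e)) :=
    EulerProduct.prod_primesBelow_geometric_eq_tsum_smoothNumbers (f := f) (hs he) (Y + 1)
  have h2 := (hs he).tsum_subtype_add_tsum_subtype_compl (Y + 1).smoothNumbers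
  have h3 : 0 ≤ ∑' m : ↑((Y + 1).smoothNumbers)ᶜ, ((m : ℕ) : ℝ) ^ (-(1 + e)) :=
    tsum_nonneg fun m => by positivity
  have h4 : ∑' m : ↑((Y + 1).smoothNumbers)ᶜ, ((m : ℕ) : ℝ) ^ (-(1 + e)) ≤
      ((Y + 1 : ℕ) : ℝ) ^ (-(e / 2)) * zs (e / 2) := by
    rw [zs, ← tsum_mul_left]
    refine Summable.tsum_le_tsum_of_inj Subtype.val Subtype.val_injective
      (fun n _ => by positivity) (fun m => ?_) ((hs he).subtype _) ((hs (half_pos he)).mul_left _)
    rcases eq_or_ne (m : ℕ) 0 with h0 | h0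
    · rw [h0, Nat.cast_zero, Real.zero_rpow (by linarith)]
      positivity
    · have h5 : Y + 1 ≤ m := Nat.smoothNumbers_compl _ ⟨m.2, h0⟩
      rw [show -(1 + e) = -(e / 2) + -(1 + e / 2) by ring,
        Real.rpow_add (by exact_mod_cast Nat.pos_of_ne_zero h0)]
      exact mul_le_mul_of_nonneg_right (Real.rpow_le_rpow_of_nonpos (by positivity)
        (by exact_mod_cast h5) (by linarith)) (by positivity)
  rw [h1, zs]
  constructor <;> linarith

lemma Z_tendsto {w : ℝ} (hw : 0 < w) :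
    Tendsto (fun x : ℕ => (∏ p ∈ Nat.primesLE ⌊Real.exp (Real.log x ^ 2)⌋₊,
      (1 - (p : ℝ) ^ (-(1 + w / Real.log x)))⁻¹) / Real.log x) atTop (𝓝 w⁻¹) := by
  have h1 : Tendsto (fun x : ℕ => Real.exp (-(w / 2 * Real.log x))) atTop (𝓝 0) :=
    Real.tendsto_exp_neg_atTop_nhds_zero.comp (tendsto_L.const_mul_atTop (half_pos hw))
  have h2 := (zs_tendsto hw).sub (h1.mul (zs_tendsto (half_pos hw)))
  rw [zero_mul, sub_zero] at h2
  refine tendsto_of_tendsto_of_tendsto_of_le_of_le' h2 (zs_tendsto hw) ?_ ?_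
  · filter_upwards [L_pos] with x hx
    have he := div_pos hw hx
    rw [← mul_div_assoc, ← sub_div, div_right_comm w]
    refine div_le_div_of_nonneg_right (le_trans (sub_le_sub_left ?_ _) (euler _ he).1) hx.le
    refine mul_le_mul_of_nonneg_right ?_ (tsum_nonneg fun n => by positivity)
    refine (Real.rpow_le_rpow_of_nonpos (Real.exp_pos (Real.log x ^ 2))
      (by exact_mod_cast (Nat.lt_floor_add_one _).le) (by linarith)).trans (le_of_eq ?_)
    rw [← Real.exp_mul]
    congr 1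
    field_simp
  · filter_upwards [L_pos] with x hx
    exact div_le_div_of_nonneg_right (euler _ (div_pos hw hx)).2 hx.le

lemma two_le (D x : ℕ) (i : PP D x) : (2 : ℝ) ≤ qq D x i := by
  exact_mod_cast (mem_filter.1 i.2).2.two_le

lemma prod_split (D : ℕ) : ∀ᶠ x : ℕ in atTop, ∀ f : ℕ → ℝ,
    ∏ p ∈ Nat.primesLE ⌊Real.exp (Real.log x ^ 2)⌋₊, f p =
      (∏ p ∈ Nat.primesLE D, f p) * ∏ i : PP D x, f (qq D x i) := by
  have h1 : Tendsto (fun x : ℕ => ⌊Real.exp (Real.log x ^ 2)⌋₊) atTop atTop :=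
    tendsto_nat_floor_atTop.comp (Real.tendsto_exp_atTop.comp
      ((tendsto_pow_atTop two_ne_zero).comp tendsto_L))
  filter_upwards [h1.eventually_ge_atTop D] with x hx f
  rw [show ∏ i : PP D x, f (qq D x i) = ∏ p ∈ PP D x, f p from prod_coe_sort _ f, ← prod_union]
  · congr 1
    ext p
    simp only [PP, mem_union, Nat.mem_primesLE, mem_filter, mem_Ioc]
    by_cases hp : p.Prime <;> simp [hp]
    omega
  · refine disjoint_left.2 fun p h1 h2 => ?_
    exact absurd (Nat.le_of_mem_primesLE h1) (not_le.2 (mem_Ioc.1 (mem_filter.1 h2).1).1)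

lemma sum_tendsto (D : ℕ) (r : ∀ x, PP D x → ℝ) {K : ℝ} (hK : 0 ≤ K)
    (h : ∀ᶠ x : ℕ in atTop, ∀ i, |r x i| ≤
      K / Real.log x * Real.log (qq D x i) / ((qq D x i : ℝ) - 1) ^ 2) :
    Tendsto (fun x => ∑ i, r x i) atTop (𝓝 0) := by
  have hs : Summable fun n : ℕ => (n : ℝ) ^ (-(3 / 2) : ℝ) := Real.summable_nat_rpow.2 (by norm_num)
  have h1 := (tendsto_e K).mul_const (8 * ∑' n : ℕ, (n : ℝ) ^ (-(3 / 2) : ℝ))
  rw [zero_mul] at h1
  refine squeeze_zero_norm' ?_ h1
  filter_upwards [h, L_pos] with x hx hL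
  refine (abs_sum_le_sum_abs _ _).trans ((sum_le_sum fun i _ => hx i).trans ?_)
  simp only [mul_div_assoc (K / Real.log x), ← mul_sum]
  refine mul_le_mul_of_nonneg_left ?_ (div_nonneg hK hL.le)
  calc _ ≤ ∑ i : PP D x, 8 * ((qq D x i : ℕ) : ℝ) ^ (-(3 / 2) : ℝ) := sum_le_sum fun i _ => ?_
    _ = 8 * ∑ p ∈ PP D x, (p : ℝ) ^ (-(3 / 2) : ℝ) := by
      rw [← mul_sum]
      exact congrArg _ (sum_coe_sort (PP D x) fun p : ℕ => (p : ℝ) ^ (-(3 / 2) : ℝ))
    _ ≤ _ := mul_le_mul_of_nonneg_left (hs.sum_le_tsum _ fun n _ => by positivity) (by norm_num)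
  have h2 := two_le D x i
  generalize ((qq D x i : ℕ) : ℝ) = p at h2
  have h0 : 0 < p := by linarith
  have h3 := Real.log_le_rpow_div h0.le (show (0 : ℝ) < 1 / 2 by norm_num)
  have h4 : p ^ (1 / 2 : ℝ) = p ^ (-(3 / 2) : ℝ) * p ^ 2 := by
    rw [← Real.rpow_natCast, ← Real.rpow_add h0]
    norm_num
  have h5 : 0 < p ^ (-(3 / 2) : ℝ) := by positivity
  rw [div_le_iff₀ (pow_pos (by linarith) 2)]
  have h6 : p ^ 2 ≤ 4 * (p - 1) ^ 2 := by nlinarith
  nlinarith

lemma prod_tendsto (D : ℕ) (r : ∀ x, PP D x → ℝ) {K : ℝ} (hK : 0 ≤ K)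
    (h : ∀ᶠ x : ℕ in atTop, ∀ i, 0 ≤ r x i ∧ r x i ≤
      K / Real.log x * Real.log (qq D x i) / ((qq D x i : ℝ) - 1) ^ 2) :
    Tendsto (fun x => ∏ i, (1 + r x i)) atTop (𝓝 1) := by
  have h1 := (Real.continuous_exp.tendsto 0).comp (sum_tendsto D r hK
    (h.mono fun x hx i => by rw [abs_of_nonneg (hx i).1]; exact (hx i).2))
  rw [Real.exp_zero] at h1
  refine tendsto_of_tendsto_of_tendsto_of_le_of_le' tendsto_const_nhds h1 ?_ ?_
  · exact h.mono fun x hx => one_le_prod fun i _ => le_add_of_nonneg_right (hx i).1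
  · exact h.mono fun x hx => Real.prod_one_add_le_exp_sum _ fun i => (hx i).1

lemma exp_bd {a : ℝ} (ha : 0 ≤ a) :
    0 < Real.exp (-a) ∧ Real.exp (-a) ≤ 1 ∧ 1 - Real.exp (-a) ≤ a :=
  ⟨Real.exp_pos _, Real.exp_le_one_iff.2 (neg_nonpos.2 ha), by
    linarith [Real.add_one_le_exp (-a)]⟩

lemma log_nonneg (D x : ℕ) (i : PP D x) : 0 ≤ Real.log (qq D x i) := Real.log_natCast_nonneg _

lemma BB_nonneg (D x : ℕ) : 0 ≤ BB D x := mul_nonneg (Real.log_natCast_nonneg _) (V_pos D).le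

lemma BB_pos (D : ℕ) : ∀ᶠ x : ℕ in atTop, 0 < BB D x := L_pos.mono fun _ hx => mul_pos hx (V_pos D)

lemma wt_nonneg (D x : ℕ) (T : Finset (PP D x)) : 0 ≤ wt (qq D x) T :=
  prod_nonneg fun i _ => inv_nonneg.2 (by linarith [two_le D x i])

lemma lg_nonneg (D x : ℕ) (T : Finset (PP D x)) : 0 ≤ lg (qq D x) T :=
  sum_nonneg fun i _ => log_nonneg D x i

lemma sum_prod_exp {ι : Type} [Fintype ι] (q : ι → ℕ) (a : ι → ℝ) (e : ℝ) :
    ∑ T : Finset ι, (∏ i ∈ T, a i) * Real.exp (-(e * lg q T)) =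
      ∏ i, (1 + Real.exp (-(e * Real.log (q i))) * a i) := by
  rw [prod_one_add, powerset_univ]
  refine sum_congr rfl fun T _ => ?_
  rw [prod_mul_distrib, ← Real.exp_sum, lg, mul_sum, sum_neg_distrib, mul_comm]

lemma integral_pow (k : ℕ) {v : ℝ} (hv : 0 < v) :
    ∫ u in Set.Ioi (0 : ℝ), Real.exp (-(v * u)) * (u ^ k / (k.factorial : ℝ)) = v⁻¹ ^ (k + 1) := by
  have h := Real.integral_rpow_mul_exp_neg_mul_Ioi (a := k + 1) (by positivity) hv
  rw [add_sub_cancel_right, Real.Gamma_nat_eq_factorial, ← Nat.cast_succ, Real.rpow_natCast] at h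
  simp only [Real.rpow_natCast, one_div] at h
  simp only [← mul_div_assoc]
  simp only [integral_div, mul_comm (Real.exp _), h]
  rw [mul_div_cancel_right₀ _ (by positivity)]

lemma integral_one {v : ℝ} (hv : 0 < v) (w : ℝ) :
    ∫ u in Set.Ioi (0 : ℝ), Real.exp (-(v * u)) * w = v⁻¹ * w := by
  have := integral_pow 0 hv
  simp only [pow_zero, Nat.factorial_zero, Nat.cast_one, div_one, mul_one, zero_add,
    pow_one] at this
  rw [integral_mul_const, this]

lemma integrable_one (w : ℝ) : IntegrableOn (fun u : ℝ => Real.exp (-u) * w) (Set.Ioi 0) :=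
  (integrableOn_exp_neg_Ioi 0).mul_const w

end Meas

open Meas

theorem zeta_tendsto (D : ℕ) {w : ℝ} (hw : 0 < w) :
    Tendsto (fun x : ℕ => (∑' n : ℕ, (n : ℝ) ^ (-(1 + w / Real.log x))) *
      (∏ p ∈ Nat.primesLE D, (1 - (p : ℝ) ^ (-(1 + w / Real.log x)))) / BB D x) atTop (𝓝 w⁻¹) := by
  have h := (zs_tendsto hw).mul (V_tendsto D w)
  rw [mul_one] at h
  exact h.congr fun x => div_mul_div_comm _ _ _ _

theorem Zf_tendsto (D : ℕ) {w : ℝ} (hw : 0 < w) :
    Tendsto (fun x : ℕ => Zf (qq D x) (w / Real.log x) / BB D x) atTop (𝓝 w⁻¹) := by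
  let y : ∀ x, PP D x → ℝ := fun x i => Real.exp (-(w / Real.log x * Real.log (qq D x i)))
  have h := ((Z_tendsto hw).mul (V_tendsto D w)).mul (prod_tendsto D
    (fun x i => y x i * (1 - y x i) / (qq D x i * ((qq D x i : ℝ) - 1))) hw.le ?_)
  · rw [mul_one, mul_one] at h
    refine h.congr' ?_
    filter_upwards [prod_split D, L_pos] with x hx hL
    have he := div_pos hw hL
    have h1 : ∀ p : ℝ, 2 ≤ p → 1 - p ^ (-(1 + w / Real.log x)) ≠ 0 := fun p hp =>
      (sub_pos.2 (Real.rpow_lt_one_of_one_lt_of_neg (by linarith) (by linarith))).ne'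
    have h2 : ∏ p ∈ Nat.primesLE D, (1 - (p : ℝ) ^ (-(1 + w / Real.log x))) ≠ 0 :=
      prod_ne_zero_iff.2 fun p hp => h1 _ (by exact_mod_cast Nat.two_le_of_mem_primesLE hp)
    rw [hx, div_mul_div_comm, prod_inv_distrib, mul_right_comm, inv_mul_cancel₀ h2, one_mul,
      div_mul_eq_mul_div, ← prod_mul_distrib]
    refine congrArg (· / _) (prod_congr rfl fun i _ => ?_)
    have h3 := two_le D x i
    rw [inv_mul_eq_iff_eq_mul₀ (h1 _ h3), neg_add, Real.rpow_add (by linarith), Real.rpow_neg_one,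
      Real.rpow_def_of_pos (by linarith), mul_neg, mul_comm (Real.log _)]
    have h4 : (qq D x i : ℝ) - 1 ≠ 0 := by linarith
    have h5 : (qq D x i : ℝ) ≠ 0 := by linarith
    simp only [y]
    field_simp
    ring
  · filter_upwards [L_pos] with x hL i
    obtain ⟨k1, k2, k3⟩ := exp_bd (mul_nonneg (div_pos hw hL).le (log_nonneg D x i))
    have h3 := two_le D x i
    have h4 : 0 < (qq D x i : ℝ) - 1 := by linarith
    refine ⟨div_nonneg (mul_nonneg k1.le (sub_nonneg.2 k2)) (by positivity),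
      div_le_div₀ (k3.trans' (sub_nonneg.2 k2)) ?_ (by positivity) (by nlinarith)⟩
    exact (mul_le_of_le_one_left (sub_nonneg.2 k2) k2).trans k3

theorem conv_nu (D : ℕ) :
    Conv (α := fun x => Finset (PP D x)) (fun _ => univ) (fun x T => wt (qq D x) T / BB D x)
      (fun x T => lg (qq D x) T / Real.log x) 0 (fun _ => 1) := by
  refine karamata (fun x T _ => ⟨div_nonneg (wt_nonneg D x T) (BB_nonneg D x),
    div_nonneg (lg_nonneg D x T) (Real.log_natCast_nonneg _)⟩) continuous_const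
    (fun _ _ => zero_le_one) le_rfl (integrable_one 1) fun j => ?_
  have hv : (0 : ℝ) < j + 1 := by positivity
  rw [integral_one hv, zero_add, mul_one]
  refine (Zf_tendsto D hv).congr fun x => ?_
  rw [Zf, ← sum_prod_exp, sum_div]
  refine sum_congr rfl fun T _ => ?_
  rw [div_mul_eq_mul_div ((j : ℝ) + 1), mul_div_assoc ((j : ℝ) + 1), div_mul_eq_mul_div, wt]

theorem conv_nu_pow (D : ℕ) (κ : Type) [Fintype κ] [DecidableEq κ] (k : ℕ)
    (hk : Fintype.card κ = k + 1) :
    Conv (α := fun x => κ → Finset (PP D x)) (fun _ => univ)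
      (fun x T => wts (qq D x) T / BB D x ^ (k + 1))
      (fun x T => lgs (qq D x) T / Real.log x) 0 (fun u => u ^ k / (k.factorial : ℝ)) := by
  refine karamata (fun x T _ => ⟨div_nonneg (prod_nonneg fun j _ => wt_nonneg D x _)
    (pow_nonneg (BB_nonneg D x) _), div_nonneg (sum_nonneg fun j _ => lg_nonneg D x _)
    (Real.log_natCast_nonneg _)⟩) (by fun_prop) (fun _ _ => by positivity) le_rfl ?_ fun j => ?_
  · have := (Real.GammaIntegral_convergent (s := k + 1) (by positivity)).div_const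
      (k.factorial : ℝ)
    simpa only [add_sub_cancel_right, Real.rpow_natCast, mul_div_assoc, IntegrableOn] using this
  have hv : (0 : ℝ) < j + 1 := by positivity
  rw [integral_pow k hv, zero_add]
  refine ((Zf_tendsto D hv).pow (k + 1)).congr fun x => ?_
  rw [div_pow, Zf, ← sum_prod_exp, ← hk, ← card_univ, ← prod_const, prod_univ_sum,
    Fintype.piFinset_univ, sum_div]
  refine sum_congr rfl fun T _ => ?_
  rw [prod_mul_distrib, ← Real.exp_sum, sum_neg_distrib, ← mul_sum,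
    div_mul_eq_mul_div ((j : ℝ) + 1), mul_div_assoc ((j : ℝ) + 1), div_mul_eq_mul_div]
  rfl

theorem conv_alpha (D : ℕ) {w : ℝ} (hw : 0 < w) :
    Conv (α := fun x => Finset (PP D x)) (fun _ => univ)
      (fun x U => ∏ i ∈ U, (1 - Real.exp (-(w / Real.log x * Real.log (qq D x i)))) *
        ((qq D x i : ℝ) - 1)⁻¹)
      (fun x U => lg (qq D x) U / Real.log x) 1 (fun _ => w) := by
  have hy := fun x i => exp_bd (mul_nonneg (div_nonneg hw.le (Real.log_natCast_nonneg x))
    (log_nonneg D x i))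
  refine karamata (fun x T _ => ⟨prod_nonneg fun i _ => mul_nonneg (sub_nonneg.2 (hy x i).2.1)
    (inv_nonneg.2 (by linarith [two_le D x i])),
    div_nonneg (lg_nonneg D x T) (Real.log_natCast_nonneg _)⟩) continuous_const
    (fun _ _ => hw.le) zero_le_one (integrable_one w) fun j => ?_
  have hv : (0 : ℝ) < j + 1 := by positivity
  rw [integral_one hv]
  generalize (j : ℝ) + 1 = v at hv
  let y : ℝ → ∀ x, PP D x → ℝ := fun w x i => Real.exp (-(w / Real.log x * Real.log (qq D x i)))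
  have h := ((Zf_tendsto D hv).div (Zf_tendsto D (add_pos hv hw)) (by positivity)).mul
    (prod_tendsto D (fun x i => (1 - y w x i) * (y v x i * (y v x i * y w x i)) /
      (((qq D x i : ℝ) - 1) * ((qq D x i : ℝ) - 1 + y v x i))) hw.le ?_)
  · rw [show v⁻¹ / (v + w)⁻¹ * 1 = 1 + v⁻¹ * w by field_simp] at h
    refine h.congr' ?_
    filter_upwards [BB_pos D] with x hB
    simp only [Pi.div_apply, ← mul_div_assoc v, ← div_mul_eq_mul_div v, sum_prod_exp]
    rw [div_div_div_cancel_right₀ hB.ne', Zf, Zf, ← prod_div_distrib, ← prod_mul_distrib]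
    refine prod_congr rfl fun i _ => ?_
    have h4 : 0 < (qq D x i : ℝ) - 1 := by linarith [two_le D x i]
    have h5 : Real.exp (-((v + w) / Real.log x * Real.log (qq D x i))) = y v x i * y w x i := by
      rw [← Real.exp_add]
      congr 1
      ring
    have h6 : 0 < y v x i := Real.exp_pos _
    have h7 : 0 < y w x i := Real.exp_pos _
    rw [h5]
    change (1 + y v x i * _) / _ * _ = 1 + y v x i * ((1 - y w x i) * _)
    field_simp
    ring
  · refine Eventually.of_forall fun x i => ?_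
    obtain ⟨k1, k2, k3⟩ := hy x i
    obtain ⟨l1, l2, -⟩ := exp_bd (mul_nonneg (div_nonneg hv.le (Real.log_natCast_nonneg x))
      (log_nonneg D x i))
    have h4 : 0 < (qq D x i : ℝ) - 1 := by linarith [two_le D x i]
    have h6 : 0 < y v x i := l1
    refine ⟨div_nonneg (mul_nonneg (sub_nonneg.2 k2) (by positivity)) (by positivity),
      div_le_div₀ (k3.trans' (sub_nonneg.2 k2)) ?_ (by positivity) (by nlinarith)⟩
    exact (mul_le_of_le_one_right (sub_nonneg.2 k2)
      (mul_le_one₀ l2 (by positivity) (mul_le_one₀ l2 k1.le k2))).trans k3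

lemma Meas.diff_tendsto (D : ℕ) {v v' : ℝ} (hv : 0 < v) (h : v ≤ v') :
    Tendsto (fun x : ℕ => ∑ i : PP D x,
      (Real.exp (-(v / Real.log x * Real.log (qq D x i))) -
        Real.exp (-(v' / Real.log x * Real.log (qq D x i)))) / qq D x i) atTop
      (𝓝 (Real.log (v' / v))) := by
  have hv' := hv.trans_le h
  let y : ℝ → ∀ x, PP D x → ℝ := fun w x i => Real.exp (-(w / Real.log x * Real.log (qq D x i)))
  let r : ∀ x, PP D x → ℝ := fun x i => (y v x i - y v' x i) / ((qq D x i : ℝ) - 1 + y v' x i)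
  have h1 := ((Zf_tendsto D hv).div (Zf_tendsto D hv') (by positivity)).log (by positivity)
  rw [show v⁻¹ / v'⁻¹ = v' / v by field_simp] at h1
  have h2 := sum_tendsto D (fun x i => Real.log (1 + r x i) - (y v x i - y v' x i) / qq D x i)
    (sub_nonneg.2 h) (Eventually.of_forall fun x i => ?_)
  · have h3 := h1.sub h2
    rw [sub_zero] at h3
    refine h3.congr' ?_
    filter_upwards [BB_pos D] with x hB
    have h4 : ∀ i, 0 < (qq D x i : ℝ) - 1 := fun i => by linarith [two_le D x i]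
    have h5 : ∀ i, (1 + y v x i * ((qq D x i : ℝ) - 1)⁻¹) / (1 + y v' x i * ((qq D x i : ℝ) - 1)⁻¹)
        = 1 + r x i := fun i => by
      have := h4 i
      have h6 : 0 < y v' x i := Real.exp_pos _
      simp only [r]
      field_simp
      ring
    rw [Pi.div_apply, div_div_div_cancel_right₀ hB.ne', Zf, Zf, ← prod_div_distrib,
      Real.log_prod fun i _ => by have := h4 i; positivity, sum_sub_distrib,
      sum_congr rfl fun i _ => congrArg Real.log (h5 i), sub_sub_cancel]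
  · have hL := Real.log_natCast_nonneg x
    obtain ⟨k1, k2, k3⟩ := exp_bd (mul_nonneg (div_nonneg (sub_nonneg.2 h) hL) (log_nonneg D x i))
    obtain ⟨l1, l2, -⟩ := exp_bd (mul_nonneg (div_nonneg hv.le hL) (log_nonneg D x i))
    obtain ⟨m1, m2, -⟩ := exp_bd (mul_nonneg (div_nonneg hv'.le hL) (log_nonneg D x i))
    have h5 : y v' x i = y v x i * y (v' - v) x i := by
      simp only [y]
      rw [← Real.exp_add]
      congr 1
      ring
    have d0 : 0 ≤ y v x i - y v' x i := by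
      rw [h5]; exact sub_nonneg.2 (mul_le_of_le_one_right l1.le k2)
    have d1 : y v x i - y v' x i ≤ 1 - y (v' - v) x i := by
      rw [h5, ← mul_one_sub]; exact mul_le_of_le_one_left (sub_nonneg.2 k2) l2
    have hp := two_le D x i
    refine le_trans ?_ (div_le_div_of_nonneg_right (d1.trans k3) (sq_nonneg _))
    have d2 : y v x i - y v' x i ≤ 1 := d1.trans (sub_le_self _ k1.le)
    change 0 < y v' x i at m1
    change y v' x i ≤ 1 at m2
    simp only [r]
    generalize y v x i - y v' x i = d at d0 d2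
    generalize y v' x i = b at m1 m2
    generalize (qq D x i : ℝ) = p at hp
    have p1 : 0 < p - 1 := by linarith
    have p2 : 0 < p - 1 + b := by linarith
    have p3 : 0 ≤ d / (p - 1 + b) := by positivity
    have u1 := Real.log_le_sub_one_of_pos (show 0 < 1 + d / (p - 1 + b) by positivity)
    have u2 := Real.one_sub_inv_le_log_of_pos (show 0 < 1 + d / (p - 1 + b) by positivity)
    have u3 : d / (p - 1 + b) ≤ d / (p - 1) := by gcongr; linarith
    have u4 : d / (p - 1) = d / p + d / (p * (p - 1)) := by field_simp; ring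
    have u5 : d / (p * (p - 1)) ≤ d / (p - 1) ^ 2 := by gcongr; nlinarith
    have u6 : 1 - (1 + d / (p - 1 + b))⁻¹ = d / (p - 1 + b + d) := by field_simp; ring
    have u7 : d / (p + 1) ≤ d / (p - 1 + b + d) := by gcongr; linarith
    have u8 : d / p = d / (p + 1) + d / (p * (p + 1)) := by field_simp
    have u9 : d / (p * (p + 1)) ≤ d / (p - 1) ^ 2 := by gcongr; nlinarith
    rw [abs_le]
    constructor <;> linarith

theorem conv_pi (D : ℕ) :
    Conv (α := fun x => PP D x) (fun _ => univ)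
      (fun x i => Real.log (qq D x i) / (qq D x i * Real.log x))
      (fun x i => Real.log (qq D x i) / Real.log x) 0 (fun _ => 1) := by
  refine karamata (fun x i _ => ⟨div_nonneg (log_nonneg D x i)
    (mul_nonneg (Nat.cast_nonneg _) (Real.log_natCast_nonneg _)),
    div_nonneg (log_nonneg D x i) (Real.log_natCast_nonneg _)⟩) continuous_const
    (fun _ _ => zero_le_one) le_rfl (integrable_one 1) fun j => ?_
  have hv : (1 : ℝ) ≤ j + 1 := le_add_of_nonneg_left (Nat.cast_nonneg j)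
  rw [integral_one (by linarith), zero_add, mul_one]
  generalize (j : ℝ) + 1 = v at hv
  have hv0 : 0 < v := by linarith
  refine tendsto_of_sandwich fun ε hε => ?_
  obtain ⟨h, h0, h1, h2⟩ : ∃ h : ℝ, 0 < h ∧ h ≤ 1 / 2 ∧ 2 * h ≤ ε :=
    ⟨min (1 / 2) (ε / 2), by positivity, min_le_left _ _, by linarith [min_le_right (1 / 2) (ε / 2)]⟩
  have hvh : 0 < v - h := by linarith
  refine ⟨_, _, _, _, Eventually.of_forall fun x => ?_,
    (diff_tendsto D hv0 (le_add_of_nonneg_right h0.le)).div_const h,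
    (diff_tendsto D hvh (sub_le_self _ h0.le)).div_const h, ?_, ?_⟩
  · simp only [sum_div, div_mul_eq_mul_div _ (Real.log x), mul_div_assoc _ _ (Real.log x),
      mul_comm _ (Real.log x), ← div_div (Real.log _) (Real.log x)]
    constructor <;> refine sum_le_sum fun i _ => ?_ <;>
      have hp : (0 : ℝ) < qq D x i := by linarith [two_le D x i]
    all_goals
      generalize Real.log (qq D x i) / Real.log x = u
      rw [div_right_comm, div_mul_eq_mul_div]
      refine div_le_div_of_nonneg_right ?_ hp.le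
    · rw [div_le_iff₀ h0, add_mul, neg_add, Real.exp_add]
      nlinarith [Real.add_one_le_exp (-(h * u)), Real.exp_pos (-(v * u))]
    · rw [le_div_iff₀ h0, sub_mul, neg_sub', sub_neg_eq_add, Real.exp_add]
      nlinarith [Real.add_one_le_exp (h * u), Real.exp_pos (-(v * u))]
  · have u1 := Real.one_sub_inv_le_log_of_pos (show 0 < (v + h) / v by positivity)
    have u2 : 1 - ((v + h) / v)⁻¹ = (v⁻¹ - h / (v * (v + h))) * h := by field_simp; ring
    have u3 : h / (v * (v + h)) ≤ h := div_le_self h0.le (by nlinarith)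
    rw [le_div_iff₀ h0]
    nlinarith
  · have u1 := Real.log_le_sub_one_of_pos (show 0 < v / (v - h) by positivity)
    have u2 : v / (v - h) - 1 = (v⁻¹ + h / (v * (v - h))) * h := by field_simp; ring
    have u3 : h / (v * (v - h)) ≤ 2 * h := by
      rw [div_le_iff₀ (by positivity)]
      nlinarith [mul_le_mul hv (show 1 / 2 ≤ v - h by linarith) (by norm_num) hv0.le]
    rw [div_le_iff₀ h0]
    nlinarith

end Pool.Agent.Lib.MP_fc51f7_nt
end

-- part Pool.Agent.Lib.MP_fc51f7_nt.Local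
section

/-! Local computations: transposition, local averages, log-free majorant, perturbation. -/

set_option autoImplicit false
set_option linter.unusedSectionVars false

namespace Pool.Agent.Lib.MP_fc51f7_nt

open Finset

section
variable {ι κ : Type} [Fintype ι] [DecidableEq ι] [Fintype κ] [DecidableEq κ]

@[simp] theorem mem_tr (T : κ → Finset ι) (i : ι) (j : κ) : j ∈ tr T i ↔ i ∈ T j := by
  simp [tr]

/-- Transposition as an equivalence. -/
def trE : (κ → Finset ι) ≃ (ι → Finset κ) where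
  toFun := tr
  invFun := tr
  left_inv T := by funext j; ext i; simp
  right_inv T := by funext j; ext i; simp

theorem transpose1 (F : ι → Finset κ → ℝ) :
    ∑ T : κ → Finset ι, ∏ i, F i (tr T i) = ∏ i, ∑ A : Finset κ, F i A := by
  rw [Fintype.prod_sum]
  exact Fintype.sum_equiv trE _ _ fun T => rfl

theorem transpose (F : ι → Finset κ → Finset κ → ℝ) :
    ∑ T : κ → Finset ι, ∑ U : κ → Finset ι, ∏ i, F i (tr T i) (tr U i) =
      ∏ i, ∑ A : Finset κ, ∑ A' : Finset κ, F i A A' := by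
  rw [← transpose1 (fun i A => ∑ A' : Finset κ, F i A A')]
  exact sum_congr rfl fun T _ => transpose1 (fun i A' => F i (tr T i) A')

theorem prod_tr (T : κ → Finset ι) (F : ι → κ → ℝ) :
    ∏ j, ∏ i ∈ T j, F i j = ∏ i, ∏ j ∈ tr T i, F i j :=
  prod_comm' (by simp)

theorem sum_tr (T : κ → Finset ι) (F : ι → κ → ℝ) :
    ∑ j, ∑ i ∈ T j, F i j = ∑ i, ∑ j ∈ tr T i, F i j :=
  sum_comm' (by simp)

theorem SS_eq (q : ι → ℕ) (g : κ → ℤ) (y : (κ → Finset ι) → ℝ) (m : ℤ) :
    SS q g y m = ∑ T : κ → Finset ι, y T * ∏ i, loc (q i) g (tr T i) m := by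
  unfold SS Xi loc
  exact sum_congr rfl fun T _ => by rw [prod_tr T (fun i j => xi (q i) (m + g j))]

theorem SS_mul (q : ι → ℕ) (g : κ → ℤ) (y y' : (κ → Finset ι) → ℝ) (m : ℤ) :
    SS q g y m * SS q g y' m = ∑ T : κ → Finset ι, ∑ U : κ → Finset ι,
      y T * y' U * ∏ i, (loc (q i) g (tr T i) m * loc (q i) g (tr U i) m) := by
  rw [SS_eq, SS_eq, sum_mul_sum]
  refine sum_congr rfl fun T _ => sum_congr rfl fun U _ => ?_
  rw [prod_mul_distrib]; ring

theorem lgs_eq (q : ι → ℕ) (T : κ → Finset ι) :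
    lgs q T = ∑ i, ((tr T i).card : ℝ) * Real.log (q i) := by
  unfold lgs lg
  rw [sum_tr T (fun i _ => Real.log (q i))]
  simp

theorem wts_eq (q : ι → ℕ) (T : κ → Finset ι) :
    wts q T = ∏ i, ((q i : ℝ) - 1)⁻¹ ^ (tr T i).card := by
  unfold wts wt
  rw [prod_tr T (fun i _ => ((q i : ℝ) - 1)⁻¹)]
  simp

theorem prod_ind (q : ι → ℕ) (T U : κ → Finset ι) :
    ∏ i, ind (q i) (tr T i) (tr U i) = if T = U then wts q T else 0 := by
  split_ifs with h
  · subst h; simp [ind, wts_eq]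
  · have : tr T ≠ tr U := fun h' => h (trE.injective h')
    obtain ⟨i, hi⟩ := Function.ne_iff.1 this
    exact prod_eq_zero (mem_univ i) (by simp [ind, hi])

omit [Fintype ι] [DecidableEq ι] [Fintype κ] in
theorem second_order (s : Finset κ) (α δ : κ → ℝ) {d : ℝ} (hd : 0 ≤ d) (hα : ∀ j, |α j| ≤ 1)
    (hδ : ∀ j, |δ j| ≤ d) :
    |∏ j ∈ s, (α j + δ j) - ∏ j ∈ s, α j - ∑ j ∈ s, δ j * ∏ l ∈ s.erase j, α l| ≤
      (s.card * d) ^ 2 * (1 + d) ^ s.card := by
  induction s using Finset.induction_on with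
  | empty => simp
  | insert a s ha ih =>
    have h1 : ∑ j ∈ s, δ j * ∏ l ∈ (insert a s).erase j, α l =
        α a * ∑ j ∈ s, δ j * ∏ l ∈ s.erase j, α l := by
      rw [mul_sum]
      refine sum_congr rfl fun j hj => ?_
      have hne : a ≠ j := fun h => ha (h ▸ hj)
      rw [erase_insert_of_ne hne, prod_insert (fun h => ha (mem_of_mem_erase h))]; ring
    have h2 : |∑ j ∈ s, δ j * ∏ l ∈ s.erase j, α l| ≤ s.card * d := by
      refine (abs_sum_le_sum_abs _ _).trans ?_
      rw [← nsmul_eq_mul]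
      refine sum_le_card_nsmul _ _ _ fun j _ => ?_
      rw [abs_mul, abs_prod]
      exact (mul_le_of_le_one_right (abs_nonneg _)
        (prod_le_one (fun _ _ => abs_nonneg _) fun l _ => hα l)).trans (hδ j)
    rw [prod_insert ha, prod_insert ha, sum_insert ha, h1, erase_insert ha, card_insert_of_notMem ha]
    set R := ∏ j ∈ s, (α j + δ j) - ∏ j ∈ s, α j - ∑ j ∈ s, δ j * ∏ l ∈ s.erase j, α l
    set V := ∑ j ∈ s, δ j * ∏ l ∈ s.erase j, α l
    have e : (α a + δ a) * ∏ j ∈ s, (α j + δ j) - α a * ∏ j ∈ s, α j -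
        (δ a * ∏ l ∈ s, α l + α a * V) = (α a + δ a) * R + δ a * V := by
      simp only [R]; ring
    rw [e]
    have h3 : |α a + δ a| ≤ 1 + d := (abs_add_le _ _).trans (add_le_add (hα a) (hδ a))
    have h4 : (1 : ℝ) ≤ (1 + d) ^ (s.card + 1) := one_le_pow₀ (by linarith)
    have hn : (0 : ℝ) ≤ s.card := Nat.cast_nonneg _
    calc |(α a + δ a) * R + δ a * V| ≤ (1 + d) * ((s.card * d) ^ 2 * (1 + d) ^ s.card) +
          d * (s.card * d) := by
          refine (abs_add_le _ _).trans (add_le_add ?_ ?_) <;> rw [abs_mul]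
          · exact mul_le_mul h3 ih (abs_nonneg _) (by linarith)
          · exact mul_le_mul (hδ a) h2 (abs_nonneg _) hd
      _ ≤ (s.card * d) ^ 2 * (1 + d) ^ (s.card + 1) +
          (2 * s.card + 1) * d ^ 2 * (1 + d) ^ (s.card + 1) := by
          have : d * (s.card * d) ≤ (2 * s.card + 1) * d ^ 2 * (1 + d) ^ (s.card + 1) :=
            le_trans (by nlinarith [sq_nonneg d]) (le_mul_of_one_le_right (by positivity) h4)
          rw [pow_succ (1 + d)] at *; nlinarith
      _ = _ := by push_cast; ring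

/-- Value off the special residue. -/
noncomputable def al (p : ℕ) (A A' : Finset κ) (j : κ) : ℝ :=
  (if j ∈ A then ((p : ℝ) - 1)⁻¹ else 1) * (if j ∈ A' then ((p : ℝ) - 1)⁻¹ else 1)

/-- Value on the special residue. -/
noncomputable def be (A A' : Finset κ) (j : κ) : ℝ :=
  (if j ∈ A then -1 else 1) * (if j ∈ A' then -1 else 1)

omit [Fintype κ] in
theorem abs_al_le {p : ℕ} (hp : 2 ≤ p) (A A' : Finset κ) (j : κ) : |al p A A' j| ≤ 1 := by
  have h2 : (2 : ℝ) ≤ p := by exact_mod_cast hp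
  have h0 : 0 ≤ ((p : ℝ) - 1)⁻¹ := inv_nonneg.2 (by linarith)
  have h1 : ((p : ℝ) - 1)⁻¹ ≤ 1 := inv_le_one_of_one_le₀ (by linarith)
  unfold al
  split_ifs <;> rw [abs_of_nonneg (by positivity)] <;> nlinarith

omit [Fintype κ] in
theorem abs_be (A A' : Finset κ) (j : κ) : |be A A' j| = 1 := by
  unfold be; split_ifs <;> simp

theorem loc_mul (p : ℕ) (g : κ → ℤ) (A A' : Finset κ) (m : ℤ) :
    loc p g A m * loc p g A' m = ∏ j, if (p : ℤ) ∣ m + g j then be A A' j else al p A A' j := by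
  unfold loc
  rw [← Fintype.prod_ite_mem A, ← Fintype.prod_ite_mem A', ← prod_mul_distrib]
  refine prod_congr rfl fun j _ => ?_
  unfold xi be al
  split_ifs <;> simp

theorem ind_eq {p : ℕ} (hp : 2 ≤ p) (A A' : Finset κ) :
    ind p A A' = ∏ j, (al p A A' j + (be A A' j - al p A A' j) / p) := by
  have h2 : (2 : ℝ) ≤ p := by exact_mod_cast hp
  have h1 : (p : ℝ) - 1 ≠ 0 := by linarith
  have h0 : (p : ℝ) ≠ 0 := by linarith
  unfold ind
  split_ifs with h
  · subst h
    rw [← prod_const, ← Fintype.prod_ite_mem A]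
    refine prod_congr rfl fun j _ => ?_
    unfold al be
    split_ifs
    · field_simp; ring
    · simp
  · obtain ⟨j, hj⟩ : ∃ j, ¬ (j ∈ A ↔ j ∈ A') := by
      by_contra h'; push Not at h'; exact h (Finset.ext h')
    refine (prod_eq_zero (mem_univ j) ?_).symm
    unfold al be
    by_cases h3 : j ∈ A <;> by_cases h4 : j ∈ A' <;> simp only [h3, h4, if_true, if_false] <;>
      simp_all <;> field_simp <;> ring

theorem loc_mul_affine {p : ℕ} (h16 : 16 < p) {g : κ → ℤ} (hg : Function.Injective g)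
    (hg8 : ∀ j, |g j| ≤ 8) (A A' : Finset κ) (m : ℤ) :
    loc p g A m * loc p g A' m = ∏ j, al p A A' j + ∑ j, (if (p : ℤ) ∣ m + g j then 1 else 0) *
      ((be A A' j - al p A A' j) * ∏ l ∈ univ.erase j, al p A A' l) := by
  rw [loc_mul]
  by_cases h : ∃ j, (p : ℤ) ∣ m + g j
  · obtain ⟨j, hj⟩ := h
    have hu : ∀ l, l ≠ j → ¬ (p : ℤ) ∣ m + g l := by
      intro l hl h'
      have h1 : (p : ℤ) ∣ g l - g j := by simpa using dvd_sub h' hj
      have h2 := Int.le_of_dvd (abs_pos.2 (sub_ne_zero.2 (hg.ne hl))) ((dvd_abs _ _).2 h1)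
      have h3 := abs_sub (g l) (g j)
      have := hg8 l; have := hg8 j
      omega
    rw [sum_eq_single j (fun l _ hl => by simp [hu l hl]) (by simp),
      ← mul_prod_erase _ _ (mem_univ j), ← mul_prod_erase _ (al p A A') (mem_univ j),
      prod_congr rfl fun l hl => if_neg (hu l (ne_of_mem_erase hl))]
    simp only [hj, if_true]; ring
  · push Not at h
    simp [h]

omit [Fintype κ] [DecidableEq κ] in
theorem sum_dvd_one {p : ℕ} (hp : 0 < p) (c : ℤ) :
    ∑ r ∈ range p, (if (p : ℤ) ∣ (r : ℤ) + c then (1 : ℝ) else 0) = 1 := by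
  have hp' : (0 : ℤ) < p := by exact_mod_cast hp
  have h0 := Int.emod_nonneg (-c) hp'.ne'
  have h1 := Int.emod_lt_of_pos (-c) hp'
  rw [sum_eq_single ((-c) % p).toNat]
  · rw [if_pos]
    rw [Int.toNat_of_nonneg h0]
    exact ⟨-(-c / p), by have := Int.emod_add_mul_ediv (-c) p; linarith⟩
  · intro r hr hne
    rw [if_neg]
    rintro ⟨k, hk⟩
    apply hne
    have : (-c) % p = r := by
      rw [show -c = r + p * (-k) by linarith, Int.add_mul_emod_self_left]
      exact Int.emod_eq_of_lt (by positivity) (by exact_mod_cast mem_range.1 hr)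
    rw [this]; simp
  · intro h; exfalso; apply h; rw [mem_range]; omega

theorem sum_loc_mul {p : ℕ} (h16 : 16 < p) {g : κ → ℤ} (hg : Function.Injective g)
    (hg8 : ∀ j, |g j| ≤ 8) (A A' : Finset κ) :
    ∑ r ∈ range p, loc p g A r * loc p g A' r = p * ∏ j, al p A A' j +
      ∑ j, (be A A' j - al p A A' j) * ∏ l ∈ univ.erase j, al p A A' l := by
  simp only [loc_mul_affine h16 hg hg8, sum_add_distrib, sum_const, card_range, nsmul_eq_mul]
  rw [sum_comm]
  simp only [← sum_mul, sum_dvd_one (show 0 < p by omega), one_mul]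

theorem approx_core {p : ℕ} (h16 : 16 < p) (hκ : Fintype.card κ ≤ 4) (A A' : Finset κ) :
    |∏ j, al p A A' j + (p : ℝ)⁻¹ * ∑ j, (be A A' j - al p A A' j) *
      ∏ l ∈ univ.erase j, al p A A' l - ind p A A'| ≤ 1024 / (p : ℝ) ^ 2 ∧
    |∑ j, (be A A' j - al p A A' j) * ∏ l ∈ univ.erase j, al p A A' l| ≤ 8 := by
  have h2 : 2 ≤ p := by omega
  have hp : (16 : ℝ) < p := by exact_mod_cast h16
  have hb : ∀ j, |be A A' j - al p A A' j| ≤ 2 := fun j =>
    (abs_sub _ _).trans (by have := abs_al_le h2 A A' j; rw [abs_be]; linarith)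
  have hc : (Fintype.card κ : ℝ) ≤ 4 := by exact_mod_cast hκ
  constructor
  · have := second_order univ (al p A A') (fun j => (be A A' j - al p A A' j) / p) (d := 2 / p)
      (by positivity) (abs_al_le h2 A A') fun j => by
        rw [abs_div, Nat.abs_cast]; gcongr; exact hb j
    rw [ind_eq h2, abs_sub_comm]
    have e : (p : ℝ)⁻¹ * ∑ j, (be A A' j - al p A A' j) * ∏ l ∈ univ.erase j, al p A A' l =
        ∑ j, (be A A' j - al p A A' j) / p * ∏ l ∈ univ.erase j, al p A A' l := by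
      rw [mul_sum]; exact sum_congr rfl fun j _ => by ring
    rw [e, ← sub_sub]
    refine this.trans ?_
    rw [card_univ]
    have h3 : (1 + 2 / (p : ℝ)) ^ Fintype.card κ ≤ 2 ^ 4 := by
      refine (pow_le_pow_left₀ (by positivity) (show 1 + 2 / (p : ℝ) ≤ 2 by
        rw [← le_sub_iff_add_le', div_le_iff₀ (by linarith)]; linarith) _).trans ?_
      exact pow_le_pow_right₀ (by norm_num) hκ
    calc _ ≤ (4 * (2 / (p : ℝ))) ^ 2 * 2 ^ 4 := by gcongr
      _ = _ := by field_simp; norm_num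
  · refine (abs_sum_le_sum_abs _ _).trans ?_
    refine (sum_le_card_nsmul _ _ 2 fun j _ => ?_).trans (by rw [card_univ, nsmul_eq_mul]; linarith)
    rw [abs_mul, abs_prod]
    exact (mul_le_of_le_one_right (abs_nonneg _)
      (prod_le_one (fun _ _ => abs_nonneg _) fun l _ => abs_al_le h2 A A' l)).trans (hb j)

theorem avg_approx {p : ℕ} (h16 : 16 < p) (hκ : Fintype.card κ ≤ 4) {g : κ → ℤ}
    (hg : Function.Injective g) (hg8 : ∀ j, |g j| ≤ 8) (A A' : Finset κ) :
    |(p : ℝ)⁻¹ * ∑ r ∈ range p, loc p g A r * loc p g A' r - ind p A A'| ≤ 2000 / (p : ℝ) ^ 2 := by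
  have hp : (16 : ℝ) < p := by exact_mod_cast h16
  rw [sum_loc_mul h16 hg hg8, mul_add, ← mul_assoc, inv_mul_cancel₀ (by linarith), one_mul]
  exact (approx_core h16 hκ A A').1.trans (by gcongr; norm_num)

theorem ubar_approx {p : ℕ} (_hp : p.Prime) (h16 : 16 < p) (hκ : Fintype.card κ ≤ 4) {g : κ → ℤ}
    (hg : Function.Injective g) (hg8 : ∀ j, g j ≠ 0 ∧ |g j| ≤ 8) (A A' : Finset κ) :
    |ubar p g A A' - ind p A A'| ≤ 2000 / (p : ℝ) ^ 2 := by
  have hp : (16 : ℝ) < p := by exact_mod_cast h16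
  have h0 : loc p g A (0 : ℕ) * loc p g A' (0 : ℕ) = ∏ j, al p A A' j := by
    rw [loc_mul]
    refine prod_congr rfl fun j _ => if_neg fun h => ?_
    have := Int.le_of_dvd (abs_pos.2 (hg8 j).1) ((dvd_abs _ _).2 (by simpa using h))
    have := (hg8 j).2
    omega
  have h1 := sum_loc_mul h16 hg (fun j => (hg8 j).2) A A'
  rw [range_eq_Ico, sum_eq_sum_Ico_succ_bot (by omega), h0] at h1
  obtain ⟨h2, h3⟩ := approx_core h16 hκ A A'
  unfold ubar
  set V := ∑ j, (be A A' j - al p A A' j) * ∏ l ∈ univ.erase j, al p A A' l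
  set P := ∏ j, al p A A' j
  have h4 : ∑ r ∈ Ico 1 p, loc p g A r * loc p g A' r = (p - 1) * P + V := by
    simp only [zero_add] at h1; linarith
  have h5 : (p : ℝ) - 1 ≠ 0 := by linarith
  have e : ((p : ℝ) - 1)⁻¹ * ((p - 1) * P + V) - ind p A A' =
      (P + (p : ℝ)⁻¹ * V - ind p A A') + V / (p * (p - 1)) := by field_simp; ring
  rw [h4, e]
  refine (abs_add_le _ _).trans ?_
  have h6 : |V / (p * (p - 1))| ≤ 16 / (p : ℝ) ^ 2 := by
    rw [abs_div, abs_of_pos (show (0 : ℝ) < p * (p - 1) by nlinarith),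
      div_le_div_iff₀ (by nlinarith) (by positivity)]
    nlinarith [abs_nonneg V]
  refine (add_le_add h2 h6).trans ?_
  rw [← add_div]; gcongr; norm_num

omit [Fintype ι] [DecidableEq ι] in
theorem sum_ind {p : ℕ} (hp : 2 ≤ p) (s : ℝ) :
    ∑ A : Finset κ, ∑ A' : Finset κ,
        |ind p A A'| * Real.exp (-(s * ((A.card : ℝ) + A'.card) * Real.log p)) =
      (1 + Real.exp (-(2 * s * Real.log p)) * ((p : ℝ) - 1)⁻¹) ^ Fintype.card κ := by
  have h2 : (2 : ℝ) ≤ p := by exact_mod_cast hp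
  have h0 : 0 ≤ ((p : ℝ) - 1)⁻¹ := inv_nonneg.2 (by linarith)
  rw [← card_univ, ← prod_const, prod_one_add, powerset_univ]
  refine sum_congr rfl fun A _ => ?_
  rw [sum_eq_single A (fun A' _ h => by simp [ind, h.symm]) (by simp), prod_const, mul_pow,
    ← Real.exp_nat_mul, ind, if_pos rfl, abs_of_nonneg (by positivity), mul_comm]
  congr 2; ring

omit [DecidableEq ι] in
theorem one_le_Zf (q : ι → ℕ) (hq : ∀ i, 2 ≤ q i) (s : ℝ) : 1 ≤ Zf q s := by
  refine Finset.one_le_prod fun i _ => ?_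
  have h2 : (2 : ℝ) ≤ q i := by exact_mod_cast hq i
  have h0 : 0 ≤ ((q i : ℝ) - 1)⁻¹ := inv_nonneg.2 (by linarith)
  exact le_add_of_nonneg_right (by positivity)

omit [DecidableEq ι] in
theorem majorant_aux (q : ι → ℕ) (hq : ∀ i, 2 ≤ q i) (G : ι → Finset κ → Finset κ → ℝ)
    (e : ι → ℝ) (hG0 : ∀ i A A', 0 ≤ G i A A') (hG : ∀ i A A', G i A A' ≤ |ind (q i) A A'| + e i)
    (he : ∀ i, 0 ≤ e i) {s : ℝ} (hs : 0 ≤ s) :
    ∏ i, ∑ A : Finset κ, ∑ A' : Finset κ,
        G i A A' * Real.exp (-(s * ((A.card : ℝ) + A'.card) * Real.log (q i))) ≤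
      Zf q (2 * s) ^ Fintype.card κ * Real.exp (4 ^ Fintype.card κ * ∑ i, e i) := by
  rw [Zf, ← prod_pow, mul_sum, Real.exp_sum, ← prod_mul_distrib]
  refine prod_le_prod (fun i _ => sum_nonneg fun A _ => sum_nonneg fun A' _ =>
    mul_nonneg (hG0 i A A') (Real.exp_pos _).le) fun i _ => ?_
  have h2 : (2 : ℝ) ≤ q i := by exact_mod_cast hq i
  have hl : 0 ≤ Real.log (q i) := Real.log_nonneg (by linarith)
  have h0 : 0 ≤ ((q i : ℝ) - 1)⁻¹ := inv_nonneg.2 (by linarith)
  set M := (1 + Real.exp (-(2 * s * Real.log (q i))) * ((q i : ℝ) - 1)⁻¹) ^ Fintype.card κ with hM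
  have hM1 : 1 ≤ M := one_le_pow₀ (le_add_of_nonneg_right (by positivity))
  calc _ ≤ ∑ A : Finset κ, ∑ A' : Finset κ, (|ind (q i) A A'| *
          Real.exp (-(s * ((A.card : ℝ) + A'.card) * Real.log (q i))) + e i) := by
        refine sum_le_sum fun A _ => sum_le_sum fun A' _ => ?_
        have h1 : Real.exp (-(s * ((A.card : ℝ) + A'.card) * Real.log (q i))) ≤ 1 :=
          Real.exp_le_one_iff.2 (neg_nonpos.2 (by positivity))
        have h3 := hG i A A'
        have h4 := Real.exp_pos (-(s * ((A.card : ℝ) + A'.card) * Real.log (q i)))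
        nlinarith [he i]
    _ = M + 4 ^ Fintype.card κ * e i := by
        simp only [sum_add_distrib, sum_ind (hq i), sum_const, card_univ, Fintype.card_finset,
          nsmul_eq_mul, hM]
        push_cast
        rw [← mul_assoc, ← mul_pow]; norm_num
    _ ≤ M * (4 ^ Fintype.card κ * e i + 1) := by
        have : 0 ≤ 4 ^ Fintype.card κ * e i := by have := he i; positivity
        nlinarith
    _ ≤ _ := by gcongr; exact Real.add_one_le_exp _

omit [DecidableEq ι] in
/-- Log-free majorant. -/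
theorem majorant (q : ι → ℕ) (hq : ∀ i, 2 ≤ q i) (E : ι → Finset κ → Finset κ → ℝ) (e : ι → ℝ)
    (hE : ∀ i A A', |E i A A' - ind (q i) A A'| ≤ e i) {s : ℝ} (hs : 0 ≤ s) :
    ∏ i, ∑ A : Finset κ, ∑ A' : Finset κ,
        |E i A A'| * Real.exp (-(s * ((A.card : ℝ) + A'.card) * Real.log (q i))) ≤
      Zf q (2 * s) ^ Fintype.card κ * Real.exp (4 ^ Fintype.card κ * ∑ i, e i) :=
  majorant_aux q hq (fun i A A' => |E i A A'|) e (fun _ _ _ => abs_nonneg _)
    (fun i A A' => by have := abs_sub_abs_le_abs_sub (E i A A') (ind (q i) A A')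
                      linarith [hE i A A'])
    (fun i => (abs_nonneg _).trans (hE i ∅ ∅)) hs

omit [DecidableEq ι] in
theorem abs_prod_sub_prod (s : Finset ι) (a b : ι → ℝ) :
    |∏ i ∈ s, a i - ∏ i ∈ s, b i| ≤ ∏ i ∈ s, (|b i| + |a i - b i|) - ∏ i ∈ s, |b i| := by
  classical
  induction s using Finset.induction_on with
  | empty => simp
  | insert j s hj ih =>
    rw [prod_insert hj, prod_insert hj, prod_insert hj, prod_insert hj]
    have h1 : |∏ i ∈ s, a i| ≤ ∏ i ∈ s, (|b i| + |a i - b i|) := by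
      rw [abs_prod]
      exact prod_le_prod (fun _ _ => abs_nonneg _) fun i _ => by
        have := abs_sub_abs_le_abs_sub (a i) (b i); linarith
    rw [show a j * ∏ i ∈ s, a i - b j * ∏ i ∈ s, b i =
      (a j - b j) * ∏ i ∈ s, a i + b j * (∏ i ∈ s, a i - ∏ i ∈ s, b i) by ring]
    refine (abs_add_le _ _).trans ?_
    rw [abs_mul, abs_mul]
    nlinarith [mul_le_mul_of_nonneg_left h1 (abs_nonneg (a j - b j)),
      mul_le_mul_of_nonneg_left ih (abs_nonneg (b j))]

theorem rankin (q : ι → ℕ) {s Λ : ℝ} (hs : 0 ≤ s) (T U : κ → Finset ι)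
    (h : lgs q T + lgs q U ≤ Λ) :
    1 ≤ Real.exp (s * Λ) *
      ∏ i, Real.exp (-(s * (((tr T i).card : ℝ) + (tr U i).card) * Real.log (q i))) := by
  rw [← Real.exp_sum, ← Real.exp_add, Real.one_le_exp_iff]
  rw [lgs_eq, lgs_eq, ← sum_add_distrib] at h
  have := mul_le_mul_of_nonneg_left h hs
  rw [mul_sum] at this
  rw [sum_neg_distrib, ← sub_eq_add_neg, sub_nonneg]
  exact le_trans (le_of_eq (sum_congr rfl fun i _ => by ring)) this

/-- Reduction to the independent model. -/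
theorem perturb (q : ι → ℕ) (hq : ∀ i, 2 ≤ q i) (E : ι → Finset κ → Finset κ → ℝ) (e : ι → ℝ)
    (hE : ∀ i A A', |E i A A' - ind (q i) A A'| ≤ e i) {s Λ : ℝ} (hs : 0 ≤ s)
    (y y' : (κ → Finset ι) → ℝ) (hy : ∀ T, |y T| ≤ 1) (hy' : ∀ T, |y' T| ≤ 1)
    (hsupp : ∀ T U, y T ≠ 0 → y' U ≠ 0 → lgs q T + lgs q U ≤ Λ) :
    |∑ T : κ → Finset ι, ∑ U : κ → Finset ι, y T * y' U * ∏ i, E i (tr T i) (tr U i) -
        ∑ T : κ → Finset ι, y T * y' T * wts q T| ≤
      Real.exp (s * Λ) * (Zf q (2 * s) ^ Fintype.card κ *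
        (Real.exp (4 ^ Fintype.card κ * ∑ i, e i) - 1)) := by
  set w : ι → Finset κ → Finset κ → ℝ := fun i A A' =>
    Real.exp (-(s * ((A.card : ℝ) + A'.card) * Real.log (q i))) with hw
  have e1 : ∑ T : κ → Finset ι, y T * y' T * wts q T = ∑ T : κ → Finset ι, ∑ U : κ → Finset ι,
      y T * y' U * ∏ i, ind (q i) (tr T i) (tr U i) := by
    simp [prod_ind]
  have hm := majorant_aux q hq (fun i A A' => |ind (q i) A A'| + |E i A A' - ind (q i) A A'|) e
    (fun _ _ _ => by positivity) (fun i A A' => by linarith [hE i A A'])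
    (fun i => (abs_nonneg _).trans (hE i ∅ ∅)) hs
  have hz : ∏ i, ∑ A : Finset κ, ∑ A' : Finset κ, |ind (q i) A A'| * w i A A' =
      Zf q (2 * s) ^ Fintype.card κ := by
    rw [Zf, ← prod_pow]
    exact prod_congr rfl fun i _ => sum_ind (hq i) s
  rw [e1, ← sum_sub_distrib]
  calc _ ≤ ∑ T : κ → Finset ι, ∑ U : κ → Finset ι, Real.exp (s * Λ) *
        (∏ i, ((|ind (q i) (tr T i) (tr U i)| + |E i (tr T i) (tr U i) - ind (q i) (tr T i) (tr U i)|)
          * w i (tr T i) (tr U i)) - ∏ i, (|ind (q i) (tr T i) (tr U i)| * w i (tr T i) (tr U i))) := by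
        refine (abs_sum_le_sum_abs _ _).trans (sum_le_sum fun T _ => ?_)
        rw [← sum_sub_distrib]
        refine (abs_sum_le_sum_abs _ _).trans (sum_le_sum fun U _ => ?_)
        have h1 := abs_prod_sub_prod univ (fun i => E i (tr T i) (tr U i))
          (fun i => ind (q i) (tr T i) (tr U i))
        rw [prod_mul_distrib, prod_mul_distrib, ← sub_mul, ← mul_sub, abs_mul, mul_left_comm]
        by_cases h0 : y T ≠ 0 ∧ y' U ≠ 0
        · have h2 := rankin q hs T U (hsupp T U h0.1 h0.2)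
          have h3 : |y T * y' U| ≤ 1 := by
            rw [abs_mul]; exact mul_le_one₀ (hy T) (abs_nonneg _) (hy' U)
          exact (mul_le_of_le_one_left (abs_nonneg _) h3).trans (h1.trans
            (le_mul_of_one_le_right ((abs_nonneg _).trans h1) h2))
        · have : y T * y' U = 0 := by
            by_contra h; exact h0 (mul_ne_zero_iff.1 h)
          rw [this, abs_zero, zero_mul]
          exact mul_nonneg ((abs_nonneg _).trans h1) (by positivity)
    _ ≤ _ := by
        simp only [← mul_sum, sum_sub_distrib]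
        rw [transpose (fun i A A' => (|ind (q i) A A'| + |E i A A' - ind (q i) A A'|) * w i A A'),
          transpose (fun i A A' => |ind (q i) A A'| * w i A A'), hz, mul_sub (Zf q (2 * s) ^ _),
          mul_one]
        gcongr

omit [DecidableEq ι] in
theorem sum_inv_sq_le (q : ι → ℕ) (hq : Function.Injective q) {D : ℕ} (hD : 0 < D)
    (h : ∀ i, D < q i) : ∑ i, 1 / (q i : ℝ) ^ 2 ≤ 1 / (D : ℝ) := by
  classical
  rw [← sum_image (s := univ) (g := q) (f := fun n : ℕ => 1 / (n : ℝ) ^ 2) hq.injOn]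
  obtain ⟨N, hN⟩ := (univ.image q).bddAbove
  have h1 := sum_Ioc_inv_sq_le_sub (α := ℝ) hD.ne' (le_max_right N D)
  refine (sum_le_sum_of_subset_of_nonneg (t := Ioc D (max N D)) ?_ fun _ _ _ => by positivity).trans ?_
  · intro n hn
    obtain ⟨i, -, rfl⟩ := mem_image.1 hn
    exact mem_Ioc.2 ⟨h i, (hN (mem_coe.2 hn)).trans (le_max_left _ _)⟩
  · simp only [one_div]
    exact h1.trans (sub_le_self _ (by positivity))

end

/-- `K ^ ω(n) ≤ C n ^ ε`. -/
theorem pow_card_le (K ε : ℝ) (hK : 1 ≤ K) (hε : 0 < ε) : ∃ C : ℝ, 0 < C ∧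
    ∀ E : Finset ℕ, (∀ p ∈ E, 2 ≤ p) → K ^ E.card ≤ C * (∏ p ∈ E, (p : ℝ)) ^ ε := by
  obtain ⟨N, hN⟩ := exists_nat_ge (K ^ ε⁻¹)
  refine ⟨K ^ N, by positivity, fun E hE => ?_⟩
  rw [← Real.finsetProd_rpow _ _ (fun _ _ => Nat.cast_nonneg _), ← prod_const,
    ← prod_filter_mul_prod_filter_not E (· < N), ← prod_filter_mul_prod_filter_not E (· < N)
      (fun p : ℕ => (p : ℝ) ^ ε), ← mul_assoc]
  refine mul_le_mul ?_ (prod_le_prod (fun _ _ => by linarith) fun p hp => ?_) (by positivity)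
    (by positivity)
  · rw [prod_const]
    refine (pow_le_pow_right₀ hK (show _ ≤ N from ?_)).trans (le_mul_of_one_le_right (by positivity)
      (Finset.one_le_prod fun p hp => Real.one_le_rpow ?_ hε.le))
    · refine (card_le_card (t := range N) fun p hp => ?_).trans (card_range N).le
      exact mem_range.2 (mem_filter.1 hp).2
    · exact_mod_cast (hE p (mem_filter.1 hp).1).trans' one_le_two
  · have h1 : (N : ℝ) ≤ p := by exact_mod_cast not_lt.1 (mem_filter.1 hp).2
    calc K = (K ^ ε⁻¹) ^ ε := by rw [Real.rpow_inv_rpow (by linarith) hε.ne']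
      _ ≤ _ := Real.rpow_le_rpow (by positivity) (hN.trans h1) hε.le

end Pool.Agent.Lib.MP_fc51f7_nt
end
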