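import Pool.Agent.Lib.MP_fc51f7_nt.Num

/-! A small reflective kit: dense polynomials with rational coefficients in up to three
variables, and their iterated integrals. -/

set_option autoImplicit false

namespace Pool.Agent.Lib.MP_fc51f7_nt.Nm5

open MeasureTheory intervalIntegral Nm4

class Ops (R : Type) where
  add : R → R → R
  mul : R → R → R
  cst : ℚ → R

instance : Ops ℚ := ⟨fun a b => a + b, fun a b => a * b, fun a => a⟩

section

variable {R : Type} [Ops R]

def ladd : List R → List R → List R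
  | [], m => m
  | c :: l, [] => c :: l
  | c :: l, d :: m => Ops.add c d :: ladd l m

def lmul : List R → List R → List R
  | [], _ => []
  | c :: l, m => ladd (m.map (Ops.mul c)) (Ops.cst 0 :: lmul l m)

instance : Ops (List R) := ⟨ladd, lmul, fun q => [Ops.cst q]⟩

def lanti : ℕ → List R → List R
  | _, [] => []
  | k, c :: l => Ops.mul (Ops.cst (1 / ((k : ℚ) + 1))) c :: lanti (k + 1) l

def lsub (v : R) : List R → R
  | [] => Ops.cst 0
  | c :: l => Ops.add c (Ops.mul v (lsub v l))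

def lint (p : List R) (u v : R) : R :=
  Ops.add (Ops.mul v (lsub v (lanti 0 p)))
    (Ops.mul (Ops.cst (-1)) (Ops.mul u (lsub u (lanti 0 p))))

structure Hom (e : R → ℝ) : Prop where
  add : ∀ a b, e (Ops.add a b) = e a + e b
  mul : ∀ a b, e (Ops.mul a b) = e a * e b
  cst : ∀ q, e (Ops.cst q) = q

omit [Ops R] in
def lev (e : R → ℝ) (x : ℝ) (p : List R) : ℝ := pv (p.map e) x

omit [Ops R] in
@[simp] theorem lev_nil (e : R → ℝ) (x : ℝ) : lev e x [] = 0 := rfl

omit [Ops R] in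
@[simp] theorem lev_cons (e : R → ℝ) (x : ℝ) (c : R) (l : List R) :
    lev e x (c :: l) = e c + x * lev e x l := rfl

variable {e : R → ℝ}

theorem Hom.ladd (h : Hom e) (x : ℝ) (l m : List R) :
    lev e x (ladd l m) = lev e x l + lev e x m := by
  induction l generalizing m with
  | nil => simp [Nm5.ladd]
  | cons c l ih =>
    cases m with
    | nil => simp [Nm5.ladd]
    | cons d m => simp only [Nm5.ladd, lev_cons, h.add, ih]; ring

theorem Hom.lmap (h : Hom e) (x : ℝ) (c : R) (m : List R) :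
    lev e x (m.map (Ops.mul c)) = e c * lev e x m := by
  induction m with
  | nil => simp
  | cons d m ih => simp only [List.map_cons, lev_cons, h.mul, ih]; ring

theorem Hom.lev (h : Hom e) (x : ℝ) : Hom (lev e x) := by
  refine ⟨h.ladd x, fun l m => ?_, fun q => ?_⟩
  · change Nm5.lev e x (lmul l m) = _
    induction l with
    | nil => simp [lmul]
    | cons c l ih =>
      simp only [lmul, h.ladd, h.lmap, lev_cons, h.cst, ih]; push_cast; ring
  · change Nm5.lev e x [Ops.cst q] = _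
    simp [h.cst]

theorem Hom.lsub (h : Hom e) (v : R) (p : List R) : e (lsub v p) = Nm5.lev e (e v) p := by
  induction p with
  | nil => simp [Nm5.lsub, h.cst]
  | cons c l ih => simp only [Nm5.lsub, h.add, h.mul, ih, lev_cons]

theorem Hom.lanti (h : Hom e) (k : ℕ) (p : List R) :
    (lanti k p).map e = anti k (p.map e) := by
  induction p generalizing k with
  | nil => rfl
  | cons c l ih =>
    simp only [Nm5.lanti, List.map_cons, anti, h.mul, h.cst, ih]
    push_cast
    congr 1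
    ring

theorem Hom.lint (h : Hom e) (p : List R) (u v : R) :
    e (lint p u v) = ∫ x in e u..e v, Nm5.lev e x p := by
  rw [int_pv (p.map e) (f := fun x => Nm5.lev e x p) fun _ _ => rfl]
  simp only [Nm5.lint, h.add, h.mul, h.cst, h.lsub, Nm5.lev, h.lanti]
  push_cast
  ring

omit [Ops R] in
theorem cont_lev {X : Type} [TopologicalSpace X] {e : X → R → ℝ} {x : X → ℝ}
    (he : ∀ c, Continuous fun z => e z c) (hx : Continuous x) (p : List R) :
    Continuous fun z => lev (e z) (x z) p := by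
  induction p with
  | nil => exact continuous_const
  | cons c l ih => exact (he c).add (hx.mul ih)

end

theorem hom0 : Hom (fun q : ℚ => (q : ℝ)) :=
  ⟨fun a b => Rat.cast_add a b, fun a b => Rat.cast_mul a b, fun _ => rfl⟩

inductive Ex where
  | x : Ex
  | y : Ex
  | z : Ex
  | c : ℚ → Ex
  | add : Ex → Ex → Ex
  | mul : Ex → Ex → Ex

instance : Add Ex := ⟨Ex.add⟩
instance : Mul Ex := ⟨Ex.mul⟩
instance : Sub Ex := ⟨fun a b => Ex.add a (Ex.mul (Ex.c (-1)) b)⟩

def Ex.to {R : Type} [Ops R] (u v w : R) : Ex → R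
  | .x => u
  | .y => v
  | .z => w
  | .c q => Ops.cst q
  | .add a b => Ops.add (a.to u v w) (b.to u v w)
  | .mul a b => Ops.mul (a.to u v w) (b.to u v w)

noncomputable def Ex.ev (u v w : ℝ) : Ex → ℝ
  | .x => u
  | .y => v
  | .z => w
  | .c q => q
  | .add a b => a.ev u v w + b.ev u v w
  | .mul a b => a.ev u v w * b.ev u v w

section

variable (u v w : ℝ) (a b : Ex)

theorem ev_x : Ex.x.ev u v w = u := rfl
theorem ev_y : Ex.y.ev u v w = v := rfl
theorem ev_z : Ex.z.ev u v w = w := rfl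
theorem ev_c (q : ℚ) : (Ex.c q).ev u v w = q := rfl
theorem ev_add : (a + b).ev u v w = a.ev u v w + b.ev u v w := rfl
theorem ev_mul : (a * b).ev u v w = a.ev u v w * b.ev u v w := rfl
theorem ev_sub : (a - b).ev u v w = a.ev u v w - b.ev u v w := by
  change a.ev u v w + ((-1 : ℚ) : ℝ) * b.ev u v w = _
  push_cast; ring

end

theorem Hom.to {R : Type} [Ops R] {e : R → ℝ} (h : Hom e) (u v w : R) (t : Ex) :
    e (t.to u v w) = t.ev (e u) (e v) (e w) := by
  induction t with
  | x => rfl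
  | y => rfl
  | z => rfl
  | c q => exact h.cst q
  | add a b ha hb => simp only [Ex.to, Ex.ev, h.add, ha, hb]
  | mul a b ha hb => simp only [Ex.to, Ex.ev, h.mul, ha, hb]

theorem cont_ev {X : Type} [TopologicalSpace X] {u v w : X → ℝ} (hu : Continuous u)
    (hv : Continuous v) (hw : Continuous w) (t : Ex) :
    Continuous fun s => t.ev (u s) (v s) (w s) := by
  induction t with
  | x => exact hu
  | y => exact hv
  | z => exact hw
  | c q => exact continuous_const
  | add a b ha hb => exact ha.add hb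
  | mul a b ha hb => exact ha.mul hb

noncomputable def ev1 (L : ℝ) : List ℚ → ℝ := lev (fun q : ℚ => (q : ℝ)) L
noncomputable def ev2 (L a : ℝ) : List (List ℚ) → ℝ := lev (ev1 L) a

theorem hom1 (L : ℝ) : Hom (ev1 L) := hom0.lev L
theorem hom2 (L a : ℝ) : Hom (ev2 L a) := (hom1 L).lev a

theorem cont_ev1 {X : Type} [TopologicalSpace X] {u : X → ℝ} (hu : Continuous u) (p : List ℚ) :
    Continuous fun s => ev1 (u s) p :=
  cont_lev (e := fun _ q => ((q : ℚ) : ℝ)) (fun _ => continuous_const) hu p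

theorem cont_ev2 {X : Type} [TopologicalSpace X] {u v : X → ℝ} (hu : Continuous u)
    (hv : Continuous v) (p : List (List ℚ)) : Continuous fun s => ev2 (u s) (v s) p :=
  cont_lev (e := fun s => ev1 (u s)) (cont_ev1 hu) hv p

def p1 (t : Ex) : List ℚ := t.to [0, 1] [] []
def p2 (t : Ex) : List (List ℚ) := t.to [[0, 1]] [[], [1]] []
def p3 (t : Ex) : List (List (List ℚ)) := t.to [[[0, 1]]] [[[], [1]]] [[], [[1]]]

theorem ev_p1 (L : ℝ) (t : Ex) : ev1 L (p1 t) = t.ev L 0 0 := by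
  rw [p1, (hom1 L).to]; simp [ev1]

theorem ev_p2 (L a : ℝ) (t : Ex) : ev2 L a (p2 t) = t.ev L a 0 := by
  rw [p2, (hom2 L a).to]; simp [ev2, ev1]

theorem ev_p3 (L a b : ℝ) (t : Ex) : lev (ev2 L a) b (p3 t) = t.ev L a b := by
  rw [p3, ((hom2 L a).lev b).to]; simp [ev2, ev1]

def I3 (t u v : Ex) : List (List ℚ) := lint (p3 t) (p2 u) (p2 v)
def I2 (p : List (List ℚ)) (u v : Ex) : List ℚ := lint p (p1 u) (p1 v)

theorem ev_I3 (L a : ℝ) (t u v : Ex) :
    ev2 L a (I3 t u v) = ∫ b in u.ev L a 0..v.ev L a 0, t.ev L a b := by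
  rw [I3, (hom2 L a).lint, ev_p2, ev_p2]; simp only [ev_p3]

theorem ev_I2 (L : ℝ) (p : List (List ℚ)) (u v : Ex) :
    ev1 L (I2 p u v) = ∫ a in u.ev L 0 0..v.ev L 0 0, ev2 L a p := by
  rw [I2, (hom1 L).lint, ev_p1, ev_p1]; rfl

def comp (p v : List ℚ) : List ℚ := lsub v (p.map fun q => [q])

theorem ev_comp (s : ℝ) (p v : List ℚ) : ev1 s (comp p v) = ev1 (ev1 s v) p := by
  rw [comp, (hom1 s).lsub]
  induction p with
  | nil => rfl
  | cons c l ih => simp only [List.map_cons, lev_cons, ih]; simp [ev1]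

/-! The concrete minorants. -/

open Ex

def eG (t : Ex) : Ex := t * t * (c (1 / 2) + c 2 * t)
def eD : Ex := x - c (1 / 2) * y + c 2 * (c 3 * x * (x - y) + y * y)
def eQ : Ex := c 1 + c 6 * (c 2 * x - y - z)
def eR (t : Ex) : Ex := c 3 * (c 2 - c 3 * t) * (c 1 + (c 1 - c 3 * t) * (c 1 - c 3 * t) *
  (c 1 + (c 1 - c 3 * t) * (c 1 - c 3 * t)))
def eS (t : Ex) : Ex := c (3 / 4) * (c 1 + c 3 * t) *
  (c 1 + (c (3 / 2) * t - c (1 / 2)) * (c (3 / 2) * t - c (1 / 2)))
def mA : Ex := y * z * (eQ * eQ) * eS (y + z)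
def mB : Ex := eQ * (y * z * eQ - c 2 * eG (x - y - z)) * eS (y + z)
def mC : Ex := y * (eD * eD) * (eR z * eS (y + z))
def mD : Ex := eG x * eG x * eR y * (eR z * eS (y + z))
def m1 : Ex := y * (eD * eD) * eS y
def m2 : Ex := eG x * eG x * (eR y * eS y)
def eH : Ex := c (1 / 2) * (c 1 - y)
def iC : List (List ℚ) := I3 mC x eH
def i1 : List (List ℚ) := Ops.add (Ops.add (I3 mA y (x - y)) (I3 mB (x - y) x)) iC
def i2 : List (List ℚ) := Ops.add (I3 mB y x) iC
def i3 : List (List ℚ) := I3 mD y eH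
def eN : Ex := x * x * x * (c (1 / 3) + c 3 * x + c (36 / 5) * (x * x))
def eA : Ex := c (1001 / 1000) * eN - eG x * eG x
def M2 : List ℚ := Ops.add (I2 (p2 m1) (c 0) x) (I2 (p2 m2) x (c (1 / 2)))
def M3 : List ℚ := Ops.add (Ops.add (I2 i1 (c 0) (c (1 / 2) * x)) (I2 i2 (c (1 / 2) * x) x))
  (I2 i3 x (c (322 / 1000)))
def qP : List ℚ := Ops.add (p1 eA) (Ops.mul (Ops.cst (-1)) (Ops.add M2 M3))
def lay (q : List ℚ) (s t a b : ℚ) : ℚ :=
  lint (Ops.mul (Ops.add (Ops.mul (Ops.cst a) (comp (p1 eN) [31 / 100, -1]))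
    (Ops.mul (Ops.cst b) q)) [0, 0, 1 / 2]) s t
def tot (q : List ℚ) : ℚ := 4 * (lay q 0 (189 / 1000) 0 1 +
  lay q (189 / 1000) (210 / 1000) (11 / 625) (3168 / 3125) +
  lay q (210 / 1000) (231 / 1000) (11 / 100) (176 / 175) +
  lay q (231 / 1000) (249 / 1000) (5 / 9) (5 / 9) +
  lay q (249 / 1000) (268 / 1000) (5 / 4) 0 +
  lay q (268 / 1000) (289 / 1000) (11 / 4) 0 +
  lay q (289 / 1000) (310 / 1000) 11 0)
def rhs : ℚ := lint (p1 ((c (31 / 100) - x) * (c (31 / 100) - x) *
  ((c 1 + c 6 * (c (31 / 100) - x)) * (c 1 + c 6 * (c (31 / 100) - x))) *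
  (c (1 / 6) * (x * x * x)))) 0 (31 / 100)

theorem key : tot (comp qP [31 / 100, -1]) < rhs := by decide +kernel

end Pool.Agent.Lib.MP_fc51f7_nt.Nm5
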