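import Pool.Agent.Lib.MP_fc51f7_nt.Num
import Pool.Agent.Lib.MP_fc51f7_nt.Local
import Pool.Agent.Lib.MP_fc51f7_nt.Tens
import Pool.Agent.Shared.PNT.Main
import Pool.Agent.Lib.MP_fc51f7_nt.BV

-- part Pool.Agent.Lib.MP_fc51f7_nt.Graham
section

/-! The Barban-Vehov-Graham asymptotic for the one-form sieve sum. -/

set_option autoImplicit false

namespace Pool.Agent.Lib.MP_fc51f7_nt

open Finset Filter Topology MeasureTheory

theorem gr_prime (D x : ℕ) (i : PP D x) : (qq D x i).Prime := (mem_filter.1 i.2).2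

theorem gr_gt (D x : ℕ) (i : PP D x) : D < qq D x i := (mem_Ioc.1 (mem_filter.1 i.2).1).1

theorem gr_lg_nonneg {ι : Type} (q : ι → ℕ) (T : Finset ι) : 0 ≤ lg q T :=
  sum_nonneg fun _ _ => Real.log_natCast_nonneg _

theorem gr_logx : Tendsto (fun x : ℕ => Real.log x) atTop atTop :=
  Real.tendsto_log_atTop.comp tendsto_natCast_atTop_atTop

theorem sum_aa_small (D : ℕ) {w δ : ℝ} (hw : 0 < w) (hδ : 0 < δ) :
    ∀ᶠ x : ℕ in atTop, ∀ R : Finset (PP D x), lg (qq D x) R / Real.log x ≤ 1 →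
      ∑ i ∈ R, aa (qq D x) (w / Real.log x) i ≤ δ := by
  obtain ⟨K, hK⟩ := exists_nat_gt (2 * w / δ)
  have hK0 : (0 : ℝ) < K := lt_trans (by positivity) hK
  filter_upwards [gr_logx.eventually_gt_atTop 0,
    gr_logx.eventually_ge_atTop (2 * ((K + 1) * w) / δ)] with x h1 h2 R hR
  refine (sum_aa_le _ (gr_prime D x) Subtype.val_injective (by positivity)
    (by exact_mod_cast hK0) R).trans ?_
  rw [div_le_iff₀ hδ] at h2
  rw [div_lt_iff₀ hδ] at hK
  have e1 : (K + 1) * (w / Real.log x) ≤ δ / 2 := by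
    rw [← mul_div_assoc, div_le_iff₀ h1]
    linarith
  have e2 : w / Real.log x * lg (qq D x) R / K ≤ δ / 2 := by
    rw [div_le_iff₀ hK0, div_mul_eq_mul_div, mul_div_assoc]
    nlinarith
  linarith

theorem JJ_close (D : ℕ) (f : ℝ → ℝ) {K : ℝ} (hf : ∀ a b, |f a - f b| ≤ K * |a - b|)
    (h0 : ∀ u, 1 ≤ u → f u = 0) {w : ℝ} (hw : 0 < w) : ∃ c : ℝ, 0 ≤ c ∧ ∀ δ, 0 < δ →
    ∀ᶠ x : ℕ in atTop, ∀ R : Finset (PP D x), lg (qq D x) R / Real.log x ≤ 1 →
      |JJ (qq D x) (Real.log x) (w / Real.log x) f R - (f (lg (qq D x) R / Real.log x) +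
        w * ∫ u in (lg (qq D x) R / Real.log x)..1, f u)| ≤ c * δ := by
  have hK := grLip_nonneg hf
  have hc := grLip_cont hf
  obtain ⟨A, hA0, hA⟩ := (conv_alpha D hw).grBdd
  refine ⟨K * A + 1, by positivity, fun δ hδ => ?_⟩
  have hu := (conv_alpha D hw).unif (fun a u => f (|a| + u)) (K := K) 0 1 zero_le_one
    (fun a => by fun_prop) (fun a u hu => h0 _ (by linarith [abs_nonneg a]))
    (fun a a' u => (hf _ _).trans (mul_le_mul_of_nonneg_left
      (by simpa using abs_abs_sub_abs_le_abs_sub a a') hK)) hδ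
  filter_upwards [hA, hu, sum_aa_small D hw hδ, gr_logx.eventually_gt_atTop 0]
    with x h1 h2 h3 hL R hR
  have ht : ∀ T, 0 ≤ lg (qq D x) T / Real.log x := fun T => div_nonneg (gr_lg_nonneg _ _) hL.le
  set t := lg (qq D x) R / Real.log x with htdef
  have ht0 : 0 ≤ t := ht R
  have ha := aa_nonneg (qq D x) (gr_prime D x) (e := w / Real.log x) (by positivity)
  have h4 := h2 t ⟨ht0, hR⟩
  simp only [abs_of_nonneg ht0, add_zero, one_mul] at h4
  have h5 : ∫ u in (0 : ℝ)..1, f (t + u) * w = w * ∫ u in t..1, f u := by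
    rw [intervalIntegral.integral_mul_const, mul_comm, intervalIntegral.integral_comp_add_left,
      add_zero, ← intervalIntegral.integral_add_adjacent_intervals (hc.intervalIntegrable t 1)
        (hc.intervalIntegrable 1 (t + 1)), intervalIntegral.integral_congr (a := 1) (b := t + 1)
        (g := fun _ => 0) (fun u hu => h0 u
          (by rw [Set.uIcc_of_le (by linarith)] at hu; exact hu.1))]
    simp
  rw [h5] at h4
  have h6 := drop_disjoint _ ha (fun U => f (t + lg (qq D x) U / Real.log x))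
    (fun U => K * grBump (lg (qq D x) U / Real.log x)) (fun U => mul_nonneg hK (grBump_nonneg _))
    (fun U i _ => by
      rcases le_total (lg (qq D x) U / Real.log x) 1 with h | h
      · have e : lg (qq D x) (U.erase i) ≤ lg (qq D x) U := sum_le_sum_of_subset_of_nonneg
          (erase_subset _ _) fun _ _ _ => Real.log_natCast_nonneg _
        rw [grBump_one (le_trans (div_le_div_of_nonneg_right e hL.le) h), mul_one]
        exact grLip_bdd hf h0 (add_nonneg ht0 (ht U))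
      · rw [h0 _ (by linarith), abs_zero]
        exact mul_nonneg hK (grBump_nonneg _)) R
  have h7 : ∑ U : Finset (PP D x), (∏ i ∈ U, aa (qq D x) (w / Real.log x) i) *
      (K * grBump (lg (qq D x) U / Real.log x)) ≤ K * A := by
    refine le_trans (le_of_eq ?_) (mul_le_mul_of_nonneg_left h1 hK)
    rw [mul_sum]
    exact sum_congr rfl fun U _ => mul_left_comm _ _ _
  have h8 := h6.trans (mul_le_mul (h3 R hR) h7 (sum_nonneg fun U _ => mul_nonneg
    (prod_nonneg fun i _ => ha i) (mul_nonneg hK (grBump_nonneg _))) hδ.le)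
  refine (abs_sub_le _ _ _).trans ((add_le_add h8 h4).trans (le_of_eq (by ring)))

theorem sq_close {P J ψ M c δ : ℝ} (hδ : 0 ≤ δ) (hδ1 : δ ≤ 1) (hc : 0 ≤ c) (hP : |P - 1| ≤ 2 * δ)
    (hJ : |J - ψ| ≤ c * δ) (hψ : |ψ| ≤ M) :
    |P * J ^ 2 - ψ ^ 2| ≤ (2 * (M + c) ^ 2 + c * (2 * M + c)) * δ := by
  have h1 : |J| ≤ M + c := by
    have := abs_add_le (J - ψ) ψ
    rw [sub_add_cancel] at this
    nlinarith
  have h2 : |J + ψ| ≤ 2 * M + c := by linarith [abs_add_le J ψ]
  have h3 : J ^ 2 ≤ (M + c) ^ 2 := by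
    rw [← sq_abs J]
    exact pow_le_pow_left₀ (abs_nonneg _) h1 2
  calc _ = |(P - 1) * J ^ 2 + (J - ψ) * (J + ψ)| := by congr 1; ring
    _ ≤ |P - 1| * J ^ 2 + |J - ψ| * |J + ψ| := by
        refine (abs_add_le _ _).trans (le_of_eq ?_)
        rw [abs_mul, abs_mul, abs_of_nonneg (sq_nonneg J)]
    _ ≤ 2 * δ * (M + c) ^ 2 + c * δ * (2 * M + c) :=
        add_le_add (mul_le_mul hP h3 (sq_nonneg _) (by positivity))
          (mul_le_mul hJ h2 (abs_nonneg _) (by positivity))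
    _ = _ := by ring

theorem diag_tendsto (D : ℕ) (f : ℝ → ℝ) {K : ℝ} (hf : ∀ a b, |f a - f b| ≤ K * |a - b|)
    (h0 : ∀ u, 1 ≤ u → f u = 0) {w : ℝ} (hw : 0 < w) :
    Tendsto (fun x : ℕ => (∑ R : Finset (PP D x), (∏ i ∈ R, vv (qq D x) (w / Real.log x) i) *
      JJ (qq D x) (Real.log x) (w / Real.log x) f R ^ 2) / BB D x) atTop
      (𝓝 (∫ t in (0 : ℝ)..1, Real.exp (-(w * t)) * (f t + w * ∫ u in t..1, f u) ^ 2)) := by
  have hc := grLip_cont hf
  have hG : Continuous fun a => ∫ u in a..1, f u :=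
    continuous_iff_continuousAt.2 fun t => (hasDerivAt_tail hc t).continuousAt
  have hz : ∀ t, 1 ≤ t → f t + w * ∫ u in t..1, f u = 0 := fun t ht => by
    rw [h0 t ht, intervalIntegral.integral_congr (a := t) (b := 1) (g := fun _ => 0)
      (fun u hu => h0 u (by rw [Set.uIcc_of_ge ht] at hu; exact hu.1))]
    simp
  obtain ⟨M, hM⟩ := (isCompact_Icc (a := (0 : ℝ)) (b := 1)).exists_bound_of_continuousOn
    (f := fun t => f t + w * ∫ u in t..1, f u) (Continuous.continuousOn (by fun_prop))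
  have hM0 : 0 ≤ M := (norm_nonneg _).trans (hM 0 ⟨le_rfl, zero_le_one⟩)
  obtain ⟨c, hc0, hJ⟩ := JJ_close D f hf h0 hw
  obtain ⟨A, hA0, hA⟩ := (conv_nu D).grBdd
  have hv := (conv_nu D).2.2.2.2 (fun t => Real.exp (-(w * t)) * (f t + w * ∫ u in t..1, f u) ^ 2)
    (by fun_prop) 1 zero_le_one fun t ht => by simp only [hz t ht]; simp
  simp only [zero_mul, zero_add, mul_one] at hv
  refine gr_tendsto_of_close (C := (2 * (M + c) ^ 2 + c * (2 * M + c)) * A) hv fun δ hδ hδ1 => ?_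
  filter_upwards [hA, hJ δ hδ, sum_aa_small D hw hδ, gr_logx.eventually_gt_atTop 0]
    with x h1 h2 h3 hL
  have ha := aa_nonneg (qq D x) (gr_prime D x) (e := w / Real.log x) (by positivity)
  have ht : ∀ T, 0 ≤ lg (qq D x) T / Real.log x := fun T => div_nonneg (gr_lg_nonneg _ _) hL.le
  have hC : 0 ≤ (2 * (M + c) ^ 2 + c * (2 * M + c)) * δ := by positivity
  rw [sum_div, ← sum_sub_distrib]
  refine (abs_sum_le_sum_abs _ _).trans (le_trans (sum_le_sum (g := fun R =>
    (2 * (M + c) ^ 2 + c * (2 * M + c)) * δ * (wt (qq D x) R / BB D x *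
      grBump (lg (qq D x) R / Real.log x))) fun R _ => ?_) ?_)
  · have hw0 : 0 ≤ wt (qq D x) R / BB D x := ((conv_nu D).1 x R (mem_univ _)).1
    have hvv : ∏ i ∈ R, vv (qq D x) (w / Real.log x) i =
        Real.exp (-(w * (lg (qq D x) R / Real.log x))) * wt (qq D x) R *
          ∏ i ∈ R, (1 + aa (qq D x) (w / Real.log x) i) := by
      simp only [vv, prod_mul_distrib, wt, lg]
      rw [← Real.exp_sum, sum_neg_distrib, ← mul_sum]
      congr 4
      ring
    rcases le_total (lg (qq D x) R / Real.log x) 1 with h | h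
    · have hP : |∏ i ∈ R, (1 + aa (qq D x) (w / Real.log x) i) - 1| ≤ 2 * δ := by
        have e1 : 1 ≤ ∏ i ∈ R, (1 + aa (qq D x) (w / Real.log x) i) :=
          one_le_prod (fun i _ => by linarith [ha i])
        have e2 : ∏ i ∈ R, (1 + aa (qq D x) (w / Real.log x) i) ≤ Real.exp δ :=
          (Real.prod_one_add_le_exp_sum R ha).trans (Real.exp_le_exp.2 (h3 R h))
        have e3 := Real.abs_exp_sub_one_le (x := δ) (by rwa [abs_of_pos hδ])
        rw [abs_of_pos hδ] at e3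
        rw [abs_of_nonneg (by linarith)]
        linarith [le_abs_self (Real.exp δ - 1)]
      have h4 := sq_close hδ.le hδ1 hc0 hP (h2 R h) (hM _ ⟨ht R, h⟩)
      have h5 : Real.exp (-(w * (lg (qq D x) R / Real.log x))) ≤ 1 :=
        Real.exp_le_one_iff.2 (neg_nonpos.2 (mul_nonneg hw.le (ht R)))
      rw [grBump_one h, mul_one, hvv]
      refine le_trans (le_of_eq ?_) ((mul_le_mul_of_nonneg_right (mul_le_mul h5 h4 (abs_nonneg _)
        zero_le_one) hw0).trans (le_of_eq (by ring)))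
      rw [← abs_of_nonneg hw0, ← abs_of_pos (Real.exp_pos (-(w * (lg (qq D x) R / Real.log x)))),
        ← abs_mul, ← abs_mul, abs_of_nonneg hw0, abs_of_pos (Real.exp_pos _)]
      congr 1
      ring
    · have : JJ (qq D x) (Real.log x) (w / Real.log x) f R = 0 :=
        sum_eq_zero fun U _ => by rw [h0 _ (by linarith [ht U]), mul_zero]
      rw [this, hz _ h]
      simpa using mul_nonneg hC (mul_nonneg hw0 (grBump_nonneg _))
  · rw [← mul_sum]
    exact (mul_le_mul_of_nonneg_left h1 hC).trans (le_of_eq (by ring))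

/-- The term of the Dirichlet series. -/
noncomputable def gterm (D x : ℕ) (f : ℝ → ℝ) (w : ℝ) (m : ℕ) : ℝ :=
  (m : ℝ) ^ (-(1 + w / Real.log x)) * ((if Nat.Coprime m (primorial D) then 1 else 0) *
    S1 (qq D x) (Real.log x) f m ^ 2) / BB D x ^ 2

theorem gterm_nonneg (D x : ℕ) (f : ℝ → ℝ) (w : ℝ) (m : ℕ) : 0 ≤ gterm D x f w m := by
  unfold gterm
  split_ifs <;> positivity

theorem full_tendsto (D : ℕ) (f : ℝ → ℝ) {K : ℝ} (hf : ∀ a b, |f a - f b| ≤ K * |a - b|)
    (h0 : ∀ u, 1 ≤ u → f u = 0) {w : ℝ} (hw : 0 < w) : ∃ Z : ℕ → ℝ,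
    (∀ᶠ x : ℕ in atTop, HasSum (gterm D x f w) (Z x)) ∧ Tendsto Z atTop
      (𝓝 ((∫ u in (0 : ℝ)..1, f u) ^ 2 +
        ∫ v in Set.Ioi (0 : ℝ), Real.exp (-(w * v)) * ∫ u in (0 : ℝ)..v, f u ^ 2)) := by
  have h := (zeta_tendsto D hw).mul (diag_tendsto D f hf h0 hw)
  refine ⟨_, ?_, h.trans (le_of_eq (congrArg _ ?_))⟩
  · filter_upwards [gr_logx.eventually_gt_atTop 0] with x hL
    have h1 := hasSum_S1 (qq D x) (gr_prime D x) Subtype.val_injective
      (hasSum_coprime D (s := 1 + w / Real.log x) (lt_add_of_pos_right _ (by positivity)))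
      (fun i m => by
        have : Nat.Coprime (qq D x i) (primorial D) := by
          rw [(gr_prime D x i).coprime_iff_not_dvd, (gr_prime D x i).dvd_primorial_iff]
          exact not_le.2 (gr_gt D x i)
        exact if_congr (Nat.coprime_mul_iff_left.trans (and_iff_right this)) rfl rfl) (Real.log x) f
    exact gr_hs_congr (h1.div_const (BB D x ^ 2)) (fun _ => rfl) (by ring)
  · rw [(laplace_cum (grLip_cont hf) h0 hw).2, ftc_square (grLip_cont hf)]
    field_simp
    ring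

theorem conv_graham (D : ℕ) (f : ℝ → ℝ) {K : ℝ} (hf : ∀ a b, |f a - f b| ≤ K * |a - b|)
    (h0 : ∀ u, 1 ≤ u → f u = 0) :
    Conv (α := fun _ => ℕ)
      (fun x => (Icc 1 ⌊Real.exp (Real.log x ^ 2)⌋₊).filter fun m => Nat.Coprime m (primorial D))
      (fun x m => S1 (qq D x) (Real.log x) f m ^ 2 / (m * BB D x ^ 2))
      (fun x m => Real.log m / Real.log x) ((∫ u in (0 : ℝ)..1, f u) ^ 2)
      (fun v => ∫ u in (0 : ℝ)..v, f u ^ 2) := by
  have hc := grLip_cont hf
  have c1 : Continuous fun u => f u ^ 2 := by fun_prop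
  refine karamata (fun x m _ => ⟨by positivity,
      div_nonneg (Real.log_natCast_nonneg _) (Real.log_natCast_nonneg _)⟩)
    (continuous_iff_continuousAt.2 fun t =>
      (c1.integral_hasStrictDerivAt 0 t).hasDerivAt.continuousAt)
    (fun v hv => intervalIntegral.integral_nonneg hv fun _ _ => sq_nonneg _) (sq_nonneg _)
    (by simpa using (laplace_cum hc h0 one_pos).1) fun j => ?_
  have hw : (0 : ℝ) < (j : ℝ) + 1 := by positivity
  generalize (j : ℝ) + 1 = w at hw
  obtain ⟨Z, hZ, hZ'⟩ := full_tendsto D f hf h0 hw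
  obtain ⟨Y, hY, hY'⟩ := full_tendsto D f hf h0 (half_pos hw)
  have he : Tendsto (fun x : ℕ => Real.exp (-(w / 2 * Real.log x)) * Y x) atTop (𝓝 0) := by
    simpa using (Real.tendsto_exp_neg_atTop_nhds_zero.comp
      (gr_logx.const_mul_atTop (half_pos hw))).mul hY'
  have hd : Tendsto (fun x : ℕ => ∑ m ∈ Icc 1 ⌊Real.exp (Real.log x ^ 2)⌋₊, gterm D x f w m - Z x)
      atTop (𝓝 0) := by
    refine squeeze_zero_norm' ?_ he
    filter_upwards [hZ, hY, gr_logx.eventually_gt_atTop 0] with x h1 h2 hL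
    refine gr_tail_le h1 h2 (gterm_nonneg D x f w) (gterm_nonneg D x f _) (Real.exp_pos _).le _
      fun m hm => ?_
    rcases Nat.eq_zero_or_pos m with rfl | hm0
    · have : gterm D x f w 0 = 0 := by
        have : -(1 + w / Real.log x) ≠ 0 := neg_ne_zero.2 (by positivity)
        rw [gterm, Nat.cast_zero, Real.zero_rpow this, zero_mul, zero_div]
      rw [this]
      exact mul_nonneg (Real.exp_pos _).le (gterm_nonneg _ _ _ _ _)
    · have hm1 : (0 : ℝ) < m := by exact_mod_cast hm0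
      have h3 : Real.log x ^ 2 ≤ Real.log m := by
        rw [Real.le_log_iff_exp_le hm1]
        refine (Nat.lt_of_floor_lt ?_).le
        by_contra h
        exact hm (mem_Icc.2 ⟨hm0, not_lt.1 h⟩)
      have h4 : (m : ℝ) ^ (-(1 + w / Real.log x)) ≤
          Real.exp (-(w / 2 * Real.log x)) * (m : ℝ) ^ (-(1 + w / 2 / Real.log x)) := by
        rw [Real.rpow_def_of_pos hm1, Real.rpow_def_of_pos hm1, ← Real.exp_add, Real.exp_le_exp]
        have : w / 2 * Real.log x ≤ Real.log m * (w / 2 / Real.log x) := by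
          rw [← mul_div_assoc, le_div_iff₀ hL]
          nlinarith
        have e : w / Real.log x = 2 * (w / 2 / Real.log x) := by ring
        rw [e]
        linarith
      unfold gterm
      rw [← mul_div_assoc, ← mul_assoc (Real.exp _)]
      refine div_le_div_of_nonneg_right (mul_le_mul_of_nonneg_right h4 ?_) (sq_nonneg _)
      split_ifs <;> positivity
  have := hd.add hZ'
  rw [zero_add] at this
  refine this.congr fun x => ?_
  rw [sub_add_cancel, sum_filter]
  refine sum_congr rfl fun m hm => ?_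
  have hm1 : (0 : ℝ) < m := by exact_mod_cast (mem_Icc.1 hm).1
  unfold gterm
  split_ifs
  · rw [neg_add, Real.rpow_add hm1, Real.rpow_neg_one, Real.rpow_def_of_pos hm1,
      show Real.log m * -(w / Real.log x) = -(w * (Real.log m / Real.log x)) by ring]
    field_simp
  · simp

end Pool.Agent.Lib.MP_fc51f7_nt
end

-- part Pool.Agent.Lib.MP_fc51f7_nt.Asym
section

/-! Asymptotic forms of the Type I estimate and of the one-dimensional main terms. -/

set_option autoImplicit false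
set_option linter.unusedSectionVars false

namespace Pool.Agent.Lib.MP_fc51f7_nt

open Finset Filter Topology

noncomputable def eD (D : ℕ) : ℝ := 3 * (Real.exp (256 * (2002 / D)) - 1)

theorem eD_nonneg (D : ℕ) : 0 ≤ eD D :=
  mul_nonneg (by norm_num) (sub_nonneg.2 (Real.one_le_exp (by positivity)))

theorem eD_tendsto : Tendsto eD atTop (𝓝 0) := by
  have h : Tendsto (fun D : ℕ => (256 : ℝ) * (2002 / D)) atTop (𝓝 (256 * 0)) :=
    (tendsto_const_div_atTop_nhds_zero_nat 2002).const_mul _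
  have := (((Real.continuous_exp.tendsto _).comp h).sub_const 1).const_mul 3
  unfold eD
  simpa using this

theorem qq_inj (D x : ℕ) : Function.Injective (qq D x) := Subtype.val_injective

theorem qq_two (D x : ℕ) (i : PP D x) : 2 ≤ qq D x i := (gr_prime D x i).two_le

theorem qq_cop (D x : ℕ) (i : PP D x) : Nat.Coprime (primorial D) (qq D x i) :=
  ((Nat.Prime.coprime_iff_not_dvd (gr_prime D x i)).2 fun h =>
    absurd ((gr_prime D x i).dvd_primorial_iff.1 h) (not_le.2 (gr_gt D x i))).symm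

theorem BB_le (D x : ℕ) : BB D x ≤ Real.log x :=
  mul_le_of_le_one_right (Real.log_natCast_nonneg _) (prod_le_one (fun p hp => by
    have : (1 : ℝ) ≤ p := by exact_mod_cast (Nat.prime_of_mem_primesLE hp).one_le
    exact sub_nonneg.2 (inv_le_one_of_one_le₀ this)) fun p _ => sub_le_self _ (by positivity))

theorem BB_tendsto (D : ℕ) : Tendsto (BB D) atTop atTop :=
  gr_logx.atTop_mul_const (Meas.V_pos D)

theorem Zf_le (D : ℕ) : ∀ᶠ x : ℕ in atTop, Zf (qq D x) (2 * (Real.log x)⁻¹) ≤ BB D x := by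
  filter_upwards [(Zf_tendsto D two_pos).eventually_le_const (show (2 : ℝ)⁻¹ < 1 by norm_num),
    Meas.BB_pos D] with x h1 h2
  rwa [div_le_one h2, div_eq_mul_inv] at h1

theorem exp_le_three {a : ℝ} (h : a ≤ 1) : Real.exp a ≤ 3 :=
  (Real.exp_le_exp.2 h).trans (Real.exp_one_lt_d9.le.trans (by norm_num))

theorem const_le_rpow (C : ℝ) {a : ℝ} (ha : 0 < a) : ∀ᶠ x : ℕ in atTop, C ≤ (x : ℝ) ^ a :=
  ((tendsto_rpow_atTop ha).comp tendsto_natCast_atTop_atTop).eventually_ge_atTop C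

theorem rpow_eq_exp {x : ℕ} (hx : 0 < x) (a : ℝ) : (x : ℝ) ^ a = Real.exp (a * Real.log x) := by
  rw [Real.rpow_def_of_pos (by positivity), mul_comm]

section
variable {κ : Type} [Fintype κ] [DecidableEq κ]

theorem TI {D : ℕ} (hD : 16 ≤ D) (hκ : Fintype.card κ ≤ 4) {g : κ → ℤ}
    (hg : Function.Injective g) (hg8 : ∀ j, |g j| ≤ 8) {j0 : κ} (hj0 : g j0 = 0) (a : ℕ) :
    ∀ᶠ x : ℕ in atTop, ∀ (E0 : Finset (PP D x)) (N1 N2 : ℕ)
      (y y' : (κ → Finset (PP D x)) → ℝ), E0.card ≤ 1 → N1 ≤ N2 →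
      (∀ T, |y T| ≤ 1) → (∀ T, |y' T| ≤ 1) →
      (∀ T, y T ≠ 0 → (∀ i ∈ E0, i ∉ T j0) ∧ lgs (qq D x) T ≤ 33 / 100 * Real.log x) →
      (∀ T, y' T ≠ 0 → (∀ i ∈ E0, i ∉ T j0) ∧ lgs (qq D x) T ≤ 33 / 100 * Real.log x) →
      |∑ m ∈ Ioc N1 N2 with m ≡ a [MOD primorial D] ∧ ∀ i ∈ E0, qq D x i ∣ m,
          SS (qq D x) g y m * SS (qq D x) g y' m -
        ((N2 : ℝ) - N1) / (primorial D * ∏ i ∈ E0, (qq D x i : ℝ)) *
          ∑ T, y T * y' T * wts (qq D x) T| ≤
        ((N2 : ℝ) - N1) / (primorial D * ∏ i ∈ E0, (qq D x i : ℝ)) *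
          (eD D * BB D x ^ Fintype.card κ) + (x : ℝ) ^ (6605 / 10000 : ℝ) := by
  filter_upwards [Zf_le D, Meas.L_pos, eventually_gt_atTop 0, const_le_rpow
    (4 * Real.exp (768 * ∑' n : ℕ, (n : ℝ) ^ (-(2001 / 2000 : ℝ))))
    (show (0 : ℝ) < 1 / 10000 by norm_num)] with x hZ hL hx hC E0 N1 N2 y y' hE hN hy hy' hs hs'
  refine (typeI (qq D x) (gr_prime D x) (qq_inj D x) hD (gr_gt D x) (primorial_ne_zero D)
    (qq_cop D x) hκ hg hg8 hj0 E0 a hN y y' hy hy' (fun T h => (hs T h).1) (fun T h => (hs' T h).1)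
    (s := (Real.log x)⁻¹) (σ := 2001 / 2000) (Λ := 66 / 100 * Real.log x) (by positivity)
    (by norm_num) fun T U h h' => by linarith [(hs T h).2, (hs' U h').2]).trans (add_le_add ?_ ?_)
  · refine mul_le_mul_of_nonneg_left ?_
      (div_nonneg (sub_nonneg.2 (by exact_mod_cast hN)) (by positivity))
    have h1 : Real.exp ((Real.log x)⁻¹ * (66 / 100 * Real.log x)) ≤ 3 :=
      exp_le_three (by field_simp; norm_num)
    have h2 := one_le_Zf (qq D x) (qq_two D x) (2 * (Real.log x)⁻¹)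
    have h3 : (E0.card : ℝ) ≤ 1 := by exact_mod_cast hE
    have h4 : Real.exp (256 * ((2000 + 2 * (E0.card : ℝ)) / D)) ≤ Real.exp (256 * (2002 / D)) := by
      gcongr; linarith
    have h5 : 1 ≤ Real.exp (256 * ((2000 + 2 * (E0.card : ℝ)) / D)) :=
      Real.one_le_exp (by positivity)
    calc _ ≤ 3 * (BB D x ^ Fintype.card κ * (Real.exp (256 * (2002 / D)) - 1)) := by
          have := Meas.BB_nonneg D x
          gcongr
      _ = _ := by unfold eD; ring
  · rw [mul_right_comm]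
    refine (mul_le_mul_of_nonneg_right hC (Real.exp_pos _).le).trans ?_
    rw [rpow_eq_exp hx, rpow_eq_exp hx, ← Real.exp_add, Real.exp_le_exp]
    nlinarith

/-- Upper bound for the second moment of a small weight. -/
theorem TU {D : ℕ} (hD : 16 ≤ D) (hκ : Fintype.card κ ≤ 4) {g : κ → ℤ}
    (hg : Function.Injective g) (hg8 : ∀ j, |g j| ≤ 8) {j0 : κ} (hj0 : g j0 = 0) (a : ℕ) :
    ∀ᶠ x : ℕ in atTop, ∀ (E0 : Finset (PP D x)) (N1 N2 : ℕ)
      (y : (κ → Finset (PP D x)) → ℝ) (c : ℝ), E0.card ≤ 1 → N1 ≤ N2 → 0 < c →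
      (∀ T, |y T| ≤ c) →
      (∀ T, y T ≠ 0 → (∀ i ∈ E0, i ∉ T j0) ∧ lgs (qq D x) T ≤ 33 / 100 * Real.log x) →
      ∑ m ∈ Ioc N1 N2 with m ≡ a [MOD primorial D] ∧ ∀ i ∈ E0, qq D x i ∣ m,
          SS (qq D x) g y m ^ 2 ≤
        c ^ 2 * (((N2 : ℝ) - N1) / (primorial D * ∏ i ∈ E0, (qq D x i : ℝ)) *
          ((3 + eD D) * BB D x ^ Fintype.card κ) + (x : ℝ) ^ (6605 / 10000 : ℝ)) := by
  filter_upwards [TI hD hκ hg hg8 hj0 a, Zf_le D, Meas.L_pos] with x h hZ hL E0 N1 N2 y c hE hN hc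
    hy hs
  have hb : ∀ T, |c⁻¹ * y T| ≤ 1 := fun T => by
    rw [abs_mul, abs_of_pos (inv_pos.2 hc), inv_mul_le_iff₀ hc, mul_one]; exact hy T
  have hs' : ∀ T, c⁻¹ * y T ≠ 0 → (∀ i ∈ E0, i ∉ T j0) ∧ lgs (qq D x) T ≤ 33 / 100 * Real.log x :=
    fun T h => hs T (right_ne_zero_of_mul h)
  have h1 := (abs_le.1 (h E0 N1 N2 _ _ hE hN hb hb hs' hs')).2
  have h2 := sum_wts_le (qq D x) (qq_two D x) _ hb (s := 2 * (Real.log x)⁻¹) (by positivity)
    fun T h => (hs' T h).2
  have h3 : Real.exp (2 * (Real.log x)⁻¹ * (33 / 100 * Real.log x)) ≤ 3 :=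
    exp_le_three (by field_simp; norm_num)
  have h4 := one_le_Zf (qq D x) (qq_two D x) (2 * (Real.log x)⁻¹)
  have h5 : ∑ T, c⁻¹ * y T * (c⁻¹ * y T) * wts (qq D x) T ≤ 3 * BB D x ^ Fintype.card κ :=
    h2.trans (by gcongr)
  have h6 : 0 ≤ ((N2 : ℝ) - N1) / (primorial D * ∏ i ∈ E0, (qq D x i : ℝ)) :=
    div_nonneg (sub_nonneg.2 (by exact_mod_cast hN)) (by positivity)
  have h7 := mul_le_mul_of_nonneg_left h5 h6
  rw [← inv_mul_le_iff₀ (by positivity), mul_sum]
  simp only [SS_smul] at h1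
  refine le_trans (le_of_eq (sum_congr rfl fun m _ => by rw [← inv_pow]; ring))
    ((sub_le_iff_le_add.1 h1).trans (by linarith))

end

theorem fL_cont (L : ℝ) : Continuous (fL L) := Pz_cont.comp (by fun_prop)

theorem fL_lip (L a b : ℝ) : |fL L a - fL L b| ≤ 5 * |a - b| := by
  have := Pz_lip (L - a) (L - b)
  rwa [show L - a - (L - b) = -(a - b) by ring, abs_neg] at this

theorem fL_zero {L t : ℝ} (h : L ≤ t) : fL L t = 0 := Pz_eq_zero (by linarith)

theorem abs_fL (L t : ℝ) : |fL L t| ≤ 1 := by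
  rw [fL, abs_of_nonneg (Pz_nonneg _)]; exact Pz_le_one _

theorem abs_fL_sub (L t t' : ℝ) : |fL L t - fL L t'| ≤ 1 := abs_Pz_sub _ _

theorem F1 (D : ℕ) {L : ℝ} (hL : L ≤ 1) :
    Tendsto (fun x : ℕ => (∑ T, fL L (lg (qq D x) T / Real.log x) *
      fL L (lg (qq D x) T / Real.log x) * wt (qq D x) T) / BB D x) atTop (𝓝 (nn L)) := by
  have := (conv_nu D).2.2.2.2 (fun t => fL L t ^ 2) ((fL_cont L).pow 2) 1 zero_le_one
    fun u hu => by rw [fL_zero (hL.trans hu)]; simp
  simp only [zero_mul, zero_add, mul_one] at this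
  refine this.congr fun x => ?_
  rw [sum_div]
  exact sum_congr rfl fun T _ => by ring

theorem DD_cont (L : ℝ) : Continuous (DD L) :=
  intervalIntegral.continuous_parametric_intervalIntegral_of_continuous' (by
    have := fL_cont L
    unfold Function.uncurry
    fun_prop) _ _

theorem pi_bdd (D : ℕ) : ∀ᶠ x : ℕ in atTop,
    ∑ i : PP D x with Real.log (qq D x i) / Real.log x ≤ 1,
      Real.log (qq D x i) / (qq D x i * Real.log x) ≤ 2 := by
  have := (conv_pi D).le one_pos (g := fun _ => 1) continuousOn_const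
  simp only [mul_one, zero_add, intervalIntegral.integral_const, sub_zero, smul_eq_mul] at this
  exact this.eventually_le_const one_lt_two

theorem F2 (D : ℕ) {L η ε c : ℝ} (hL : L ≤ 1 / 2) (hη : 0 < η) (hη' : η ≤ 1 / 10) (hε : 0 < ε)
    (hc : 0 ≤ c) (hc' : c ≤ 5) :
    ∀ᶠ x : ℕ in atTop,
      ∑ i : PP D x with η < Real.log (qq D x i) / Real.log x ∧
          Real.log (qq D x i) / Real.log x ≤ 339 / 1000,
        (1 - c * (Real.log (qq D x i) / Real.log x)) / qq D x i *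
          ∑ T, dif (fun T => fL L (lg (qq D x) T / Real.log x)) i T *
            dif (fun T => fL L (lg (qq D x) T / Real.log x)) i T * wt (qq D x) T ≤
      ((∫ u in η..(339 / 1000), (1 - c * u) * DD L u / u) + ε) * BB D x := by
  have h1 := (conv_pi D).Ioc hη (show η ≤ 339 / 1000 by linarith)
    (g := fun u => (1 - c * u) * DD L u / u) (ContinuousOn.div
      (Continuous.continuousOn (by have := DD_cont L; fun_prop)) continuousOn_id
      fun u hu => (hη.trans_le hu.1).ne')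
  simp only [mul_one] at h1
  have h2 := (conv_nu D).unif (fun u t => (fL L t - fL L (t + max u 0)) ^ 2) (T := 1) (K := 10)
    η (339 / 1000) zero_le_one (fun u => by have := fL_cont L; fun_prop)
    (fun u t ht => by
      rw [fL_zero (by linarith), fL_zero (by linarith [le_max_right u 0])]; simp)
    (fun u u' t => by
      rw [sq_sub_sq, abs_mul]
      have h3 := fL_lip L (t + max u' 0) (t + max u 0)
      have h4 : |t + max u' 0 - (t + max u 0)| ≤ |u - u'| := by
        rw [add_sub_add_left_eq_sub, abs_sub_comm]; exact abs_max_sub_max_le_abs _ _ _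
      have h5 : |fL L t - fL L (t + max u 0) + (fL L t - fL L (t + max u' 0))| ≤ 2 :=
        (abs_add_le _ _).trans ((add_le_add (abs_fL_sub _ _ _) (abs_fL_sub _ _ _)).trans_eq
          one_add_one_eq_two)
      rw [sub_sub_sub_cancel_left]
      nlinarith [abs_nonneg (fL L (t + max u' 0) - fL L (t + max u 0))])
    (show 0 < ε * η / 8 by positivity)
  filter_upwards [h1.eventually_le_const (lt_add_of_pos_right _ (half_pos hε)), h2, pi_bdd D,
    Zf_le D, Meas.L_pos, Meas.BB_pos D, eventually_gt_atTop 0,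
    const_le_rpow (1 + 24 / (ε * η)) hη] with x h1 h2 h3 hZ hl hB hx hC
  set u : PP D x → ℝ := fun i => Real.log (qq D x i) / Real.log x with hu
  have key : ∀ i : PP D x, η < u i → u i ≤ 339 / 1000 →
      |∑ T, dif (fun T => fL L (lg (qq D x) T / Real.log x)) i T *
        dif (fun T => fL L (lg (qq D x) T / Real.log x)) i T * wt (qq D x) T - DD L (u i) * BB D x| ≤
      ε * η / 4 * BB D x := by
    intro i a1 a2
    have a3 := h2 (u i) ⟨a1.le, a2⟩
    simp only [zero_mul, zero_add, mul_one, max_eq_left (hη.trans a1).le] at a3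
    set F : Finset (PP D x) → ℝ := fun T => (fL L (lg (qq D x) T / Real.log x) -
      fL L (lg (qq D x) T / Real.log x + u i)) ^ 2 with hF
    have a4 := sum_wt_mem (qq D x) (qq_two D x) i F (fun T => by
        rw [hF, abs_pow]; exact pow_le_one₀ (abs_nonneg _) (abs_Pz_sub _ _))
      (s := 2 * (Real.log x)⁻¹) (Λ := 1 / 2 * Real.log x) (by positivity) fun T hT => by
        by_contra h
        have : L ≤ lg (qq D x) T / Real.log x := by
          rw [le_div_iff₀ hl]; nlinarith [not_le.1 h]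
        exact hT (by simp only [hF]; rw [fL_zero this, fL_zero (by linarith)]; simp)
    have a5 : Real.exp (2 * (Real.log x)⁻¹ * (1 / 2 * Real.log x)) ≤ 3 :=
      exp_le_three (by field_simp; norm_num)
    have a6 : 1 + 24 / (ε * η) ≤ qq D x i := by
      refine hC.trans ?_
      rw [rpow_eq_exp hx, ← Real.le_log_iff_exp_le (by have := Meas.two_le D x i; linarith)]
      exact ((lt_div_iff₀ hl).1 a1).le
    have a7 : ((qq D x i : ℝ) - 1)⁻¹ ≤ ε * η / 24 := by
      rw [inv_le_comm₀ (by have := Meas.two_le D x i; linarith) (by positivity), inv_div]; linarith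
    have a8 := one_le_Zf (qq D x) (qq_two D x) (2 * (Real.log x)⁻¹)
    have a9 : |∑ T with i ∈ T, F T * wt (qq D x) T| ≤ ε * η / 24 * (3 * BB D x) :=
      a4.trans (by gcongr)
    have e1 : ∑ T, dif (fun T => fL L (lg (qq D x) T / Real.log x)) i T *
        dif (fun T => fL L (lg (qq D x) T / Real.log x)) i T * wt (qq D x) T =
        ∑ T, F T * wt (qq D x) T - ∑ T with i ∈ T, F T * wt (qq D x) T := by
      rw [sum_filter, ← sum_sub_distrib]
      refine sum_congr rfl fun T _ => ?_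
      unfold dif
      split_ifs with h
      · simp
      · simp only [hF, lg, sum_insert h, hu, add_div, add_comm]; ring
    have e2 : ∑ T, F T * wt (qq D x) T - DD L (u i) * BB D x =
        (∑ T, wt (qq D x) T / BB D x * F T - DD L (u i)) * BB D x := by
      rw [sub_mul, sum_mul]; congr 1
      exact sum_congr rfl fun T _ => by field_simp
    rw [e1, sub_right_comm, e2]
    refine (abs_sub _ _).trans ?_
    rw [abs_mul, abs_of_pos hB]
    have := mul_le_mul_of_nonneg_right a3 hB.le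
    unfold DD
    linarith
  calc _ ≤ ∑ i : PP D x with η < u i ∧ u i ≤ 339 / 1000,
        (Real.log (qq D x i) / (qq D x i * Real.log x) * ((1 - c * u i) * DD L (u i) / u i) +
          ε / 4 * (Real.log (qq D x i) / (qq D x i * Real.log x))) * BB D x := by
        refine sum_le_sum fun i hi => ?_
        obtain ⟨a1, a2⟩ := (mem_filter.1 hi).2
        have a3 := key i a1 a2
        have a4 : 0 < u i := hη.trans a1
        have a5 : (0 : ℝ) < qq D x i := by have := Meas.two_le D x i; linarith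
        have a6 : Real.log (qq D x i) / (qq D x i * Real.log x) = u i / qq D x i := by
          simp only [hu]; field_simp
        have a7 : |1 - c * u i| ≤ 1 := abs_le.2 ⟨by nlinarith, by nlinarith⟩
        set d := ∑ T, dif (fun T => fL L (lg (qq D x) T / Real.log x)) i T *
          dif (fun T => fL L (lg (qq D x) T / Real.log x)) i T * wt (qq D x) T
        have a8 : (1 - c * u i) * (d - DD L (u i) * BB D x) ≤ 1 * (ε * η / 4 * BB D x) :=
          (le_abs_self _).trans (by rw [abs_mul]; gcongr)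
        have a9 : ε * η / 4 * BB D x ≤ ε * u i / 4 * BB D x := by gcongr
        rw [a6, show (u i / qq D x i * ((1 - c * u i) * DD L (u i) / u i) + ε / 4 *
          (u i / qq D x i)) * BB D x = ((1 - c * u i) * (DD L (u i) * BB D x) +
          ε * u i / 4 * BB D x) / qq D x i by field_simp, div_mul_eq_mul_div]
        gcongr
        linarith
    _ ≤ _ := by
        rw [← sum_mul, sum_add_distrib, ← mul_sum]
        refine mul_le_mul_of_nonneg_right ?_ hB.le
        have : ∑ i : PP D x with η < u i ∧ u i ≤ 339 / 1000,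
            Real.log (qq D x i) / (qq D x i * Real.log x) ≤ 2 :=
          le_trans (sum_le_sum_of_subset_of_nonneg (fun i hi => mem_filter.2
            ⟨mem_univ _, (mem_filter.1 hi).2.2.trans (by norm_num)⟩) fun i _ _ =>
            ((conv_pi D).1 x i (mem_univ _)).1) h3
        have h4 := mul_le_mul_of_nonneg_left this (show 0 ≤ ε / 4 by positivity)
        exact (add_le_add h1 h4).trans (le_of_eq (by ring))

end Pool.Agent.Lib.MP_fc51f7_nt
end

-- part Pool.Agent.Lib.MP_fc51f7_nt.Large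
section

/-! The large primes: boxes, reindexing and the main term. -/

set_option autoImplicit false

namespace Pool.Agent.Lib.MP_fc51f7_nt

open Finset Filter Topology

noncomputable def lo (η : ℝ) (x j : ℕ) : ℕ :=
  ⌊max ((x : ℝ) ^ (339 / 1000 : ℝ)) (x * Real.exp (-(j * η)))⌋₊

noncomputable def hi (η : ℝ) (x j : ℕ) : ℕ := ⌊2 * x * Real.exp (-((j + 1) * η))⌋₊

def rough (η : ℝ) (x m : ℕ) : Prop :=
  (x : ℝ) ^ η ≤ m ∧ ∀ p ∈ m.primeFactors, (x : ℝ) ^ η < p

open Classical in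
noncomputable def aw (η : ℝ) (x : ℕ) (ω : ℝ → ℝ) (m : ℕ) : ℝ :=
  ∑ p ∈ m.primeFactors with rough η x (m / p) ∧
      p ∈ Ioc (lo η x (box η (m / p))) (hi η x (box η (m / p))),
    Real.log p / Real.log x * ω (Real.log (m / p : ℕ) / Real.log x)

theorem box_spec {η : ℝ} (hη : 0 < η) {m : ℕ} (hm : 0 < m) :
    (m : ℝ)⁻¹ ≤ Real.exp (-(box η m * η)) ∧ Real.exp (-((box η m + 1) * η)) < (m : ℝ)⁻¹ := by
  have h0 : 0 ≤ Real.log m / η := div_nonneg (Real.log_natCast_nonneg _) hη.le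
  have h1 := (le_div_iff₀ hη).1 (Nat.floor_le h0)
  have h2 := (div_lt_iff₀ hη).1 (Nat.lt_floor_add_one (Real.log m / η))
  have e : (m : ℝ)⁻¹ = Real.exp (-Real.log m) := by
    rw [Real.exp_neg, Real.exp_log (by positivity)]
  rw [e, Real.exp_le_exp, Real.exp_lt_exp]
  exact ⟨neg_le_neg h1, neg_lt_neg h2⟩

theorem box_mem {η : ℝ} (hη : 0 < η) {x m p : ℕ} (hm : 0 < m)
    (h : p ∈ Ioc (lo η x (box η m)) (hi η x (box η m))) :
    (x : ℝ) ^ (339 / 1000 : ℝ) < p ∧ x < p * m ∧ p * m ≤ 2 * x := by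
  obtain ⟨h1, h2⟩ := mem_Ioc.1 h
  obtain ⟨h3, h4⟩ := box_spec hη hm
  have h5 := (Nat.floor_lt (by positivity)).1 h1
  have h6 := (Nat.le_floor_iff (by positivity)).1 h2
  have hm' : (0 : ℝ) < m := by positivity
  refine ⟨(le_max_left _ _).trans_lt h5, ?_, ?_⟩
  · have : (x : ℝ) * (m : ℝ)⁻¹ < p :=
      (mul_le_mul_of_nonneg_left h3 (by positivity)).trans_lt ((le_max_right _ _).trans_lt h5)
    rw [mul_inv_lt_iff₀ hm'] at this
    exact_mod_cast this
  · have : (p : ℝ) ≤ 2 * x * (m : ℝ)⁻¹ := h6.trans (by gcongr)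
    rw [le_mul_inv_iff₀ hm'] at this
    exact_mod_cast this

open Classical in
theorem aw_reindex {η : ℝ} (hη : 0 < η) (x W a : ℕ) (ω : ℝ → ℝ) (Φ : ℕ → ℝ) :
    ∑ m ∈ Ioc x (2 * x) with m ≡ a [MOD W], aw η x ω m * Φ m =
      ∑ m ∈ Icc 1 x with rough η x m, ∑ p ∈ Ioc (lo η x (box η m)) (hi η x (box η m)) with
        p.Prime ∧ p * m ≡ a [MOD W],
        Real.log p / Real.log x * ω (Real.log m / Real.log x) * Φ (p * m) := by
  simp only [aw, sum_mul]
  rw [sum_sigma', sum_sigma']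
  refine sum_nbij' (fun z => ⟨z.1 / z.2, z.2⟩) (fun z => ⟨z.2 * z.1, z.2⟩) ?_ ?_ ?_ ?_ ?_
  · rintro ⟨m, p⟩ h
    simp only [mem_sigma, mem_filter, Nat.mem_primeFactors, mem_Icc] at h ⊢
    obtain ⟨⟨h1, h2⟩, ⟨hp, hd, h0⟩, h3, h4⟩ := h
    have h5 := (mem_Ioc.1 h1).2
    refine ⟨⟨⟨Nat.div_pos (Nat.le_of_dvd (Nat.pos_of_ne_zero h0) hd) hp.pos, ?_⟩, h3⟩, h4, hp, ?_⟩
    · exact Nat.div_le_of_le_mul (h5.trans (Nat.mul_le_mul_right _ hp.two_le))
    · rwa [Nat.mul_div_cancel' hd]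
  · rintro ⟨m, p⟩ h
    simp only [mem_sigma, mem_filter, Nat.mem_primeFactors, mem_Icc] at h ⊢
    obtain ⟨⟨⟨h1, -⟩, h2⟩, h3, hp, h4⟩ := h
    obtain ⟨-, h5, h6⟩ := box_mem hη h1 h3
    rw [Nat.mul_div_cancel_left _ hp.pos]
    exact ⟨⟨mem_Ioc.2 ⟨h5, h6⟩, h4⟩, ⟨hp, dvd_mul_right _ _, by omega⟩, h2, h3⟩
  · rintro ⟨m, p⟩ h
    simp only [mem_sigma, mem_filter, Nat.mem_primeFactors] at h
    simp only [Nat.mul_div_cancel' h.2.1.2.1]
  · rintro ⟨m, p⟩ h
    simp only [mem_sigma, mem_filter] at h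
    simp only [Nat.mul_div_cancel_left _ h.2.2.1.pos]
  · rintro ⟨m, p⟩ h
    simp only [mem_sigma, mem_filter, Nat.mem_primeFactors] at h
    simp only [Nat.mul_div_cancel' h.2.1.2.1]

theorem theta_class (W : ℕ) [NeZero W] {ε : ℝ} (hε : 0 < ε) : ∃ C : ℝ, 0 ≤ C ∧
    ∀ c : ZMod W, IsUnit c → ∀ Y : ℕ,
      |∑ p ∈ Icc 1 Y with Nat.Prime p ∧ (Nat.cast p : ZMod W) = c, Real.log (p : ℕ) - Y / W.totient| ≤ ε * Y + C := by
  have h : ∀ᶠ Y : ℕ in atTop, ∀ c : ZMod W, IsUnit c →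
      |∑ p ∈ Icc 1 Y with Nat.Prime p ∧ (Nat.cast p : ZMod W) = c, Real.log (p : ℕ) - Y / W.totient| ≤ ε * Y := by
    refine eventually_all.2 fun c => ?_
    by_cases hc : IsUnit c
    · have := (Pool.Agent.Shared.PNT.pnt_theta_residueClass hc).comp tendsto_natCast_atTop_atTop
      filter_upwards [Metric.tendsto_nhds.1 this ε hε, eventually_gt_atTop 0] with Y h hY _
      simp only [Function.comp, Nat.floor_natCast, Real.dist_eq] at h
      have hY' : (0 : ℝ) < Y := by positivity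
      rw [show ∀ s : ℝ, s - Y / W.totient = (s / Y - (W.totient : ℝ)⁻¹) * Y from
        fun s => by field_simp, abs_mul, abs_of_pos hY']
      exact mul_le_mul_of_nonneg_right h.le hY'.le
    · exact Eventually.of_forall fun _ h => absurd h hc
  obtain ⟨Y0, h⟩ := eventually_atTop.1 h
  refine ⟨Y0 * Y0 + Y0, by positivity, fun c hc Y => ?_⟩
  by_cases hY : Y0 ≤ Y
  · exact (h Y hY c hc).trans (le_add_of_nonneg_right (by positivity))
  · have h1 : (Y : ℝ) ≤ Y0 := by exact_mod_cast (not_le.1 hY).le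
    have h2 : (1 : ℝ) ≤ W.totient := by exact_mod_cast Nat.totient_pos.2 (NeZero.pos W)
    have h3 : ∑ p ∈ Icc 1 Y with Nat.Prime p ∧ (Nat.cast p : ZMod W) = c, Real.log (p : ℕ) ≤ Y0 * Y0 := by
      refine (sum_le_card_nsmul _ _ (Y0 : ℝ) fun p hp => ?_).trans ?_
      · have : (p : ℝ) ≤ Y := by exact_mod_cast (mem_Icc.1 (mem_filter.1 hp).1).2
        exact (Real.log_le_self (by positivity)).trans (this.trans h1)
      · rw [nsmul_eq_mul]
        gcongr
        exact (card_filter_le _ _).trans (by simp; omega)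
    have h4 : 0 ≤ ∑ p ∈ Icc 1 Y with Nat.Prime p ∧ (Nat.cast p : ZMod W) = c, Real.log (p : ℕ) :=
      sum_nonneg fun _ _ => Real.log_natCast_nonneg _
    have h5 : (Y : ℝ) / W.totient ≤ Y0 := (div_le_self (by positivity) h2).trans h1
    have h6 : 0 ≤ (Y : ℝ) / W.totient := by positivity
    refine le_add_of_nonneg_of_le (by positivity) (abs_le.2 ⟨?_, ?_⟩) <;>
      nlinarith [mul_self_nonneg (Y0 : ℝ)]

theorem small_cof {η : ℝ} (hη : 0 < η) : ∀ᶠ x : ℕ in atTop, ∀ m p : ℕ, 0 < m →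
    p ∈ Ioc (lo η x (box η m)) (hi η x (box η m)) → (m : ℝ) ≤ (x : ℝ) ^ (662 / 1000 : ℝ) := by
  filter_upwards [const_le_rpow 2 (show (0 : ℝ) < 1 / 1000 by norm_num), eventually_gt_atTop 0]
    with x h2 hx m p hm h
  obtain ⟨h1, -, h3⟩ := box_mem hη hm h
  have h3' : (p : ℝ) * m ≤ 2 * x := by exact_mod_cast h3
  have hx' : (0 : ℝ) < x := by positivity
  have h4 : (x : ℝ) ^ (339 / 1000 : ℝ) * (x : ℝ) ^ (662 / 1000 : ℝ) =
      (x : ℝ) ^ (1 / 1000 : ℝ) * x := by
    rw [← Real.rpow_add hx', ← Real.rpow_add_one hx'.ne']; norm_num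
  refine le_of_mul_le_mul_left ?_ (Real.rpow_pos_of_pos hx' (339 / 1000))
  rw [h4]
  exact (mul_le_mul_of_nonneg_right h1.le (by positivity)).trans (h3'.trans (by gcongr))

theorem theta_box (W a : ℕ) (hW : W ≠ 0) (ha : Nat.Coprime a W) {η ε : ℝ} (hη : 0 < η)
    (hε : 0 < ε) : ∀ᶠ x : ℕ in atTop, ∀ m : ℕ, 0 < m → Nat.Coprime m W →
      ∑ p ∈ Ioc (lo η x (box η m)) (hi η x (box η m)) with p.Prime ∧ p * m ≡ a [MOD W],
        Real.log p ≤ (1 + ε) * (x / (m * W.totient)) := by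
  have : NeZero W := ⟨hW⟩
  have hφ : (1 : ℝ) ≤ W.totient := by exact_mod_cast Nat.totient_pos.2 (NeZero.pos W)
  obtain ⟨C, hC, h⟩ := theta_class W (show 0 < ε / (8 * W.totient) by positivity)
  filter_upwards [small_cof hη, eventually_gt_atTop 0, const_le_rpow
    (2 * (1 + 2 * C) * W.totient / ε) (show (0 : ℝ) < 338 / 1000 by norm_num)] with x h1 hx h2 m
    hm hmW
  have hm' : (0 : ℝ) < m := by positivity
  have hx' : (0 : ℝ) < x := by positivity
  rcases (Ioc (lo η x (box η m)) (hi η x (box η m))).eq_empty_or_nonempty with he | ⟨p, hp⟩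
  · rw [he]; simp only [filter_empty, sum_empty]; positivity
  have h3 := h1 m p hm hp
  have hle : lo η x (box η m) ≤ hi η x (box η m) := (mem_Ioc.1 hp).1.le.trans (mem_Ioc.1 hp).2
  obtain ⟨b1, b2⟩ := box_spec hη hm
  set c : ZMod W := a * ((ZMod.unitOfCoprime m hmW)⁻¹ : (ZMod W)ˣ)
  have hc : IsUnit c := ((ZMod.isUnit_iff_coprime a W).2 ha).mul (Units.isUnit _)
  have h4 := (abs_le.1 (h c hc (lo η x (box η m)))).1
  have h5 := (abs_le.1 (h c hc (hi η x (box η m)))).2
  have h6 : (hi η x (box η m) : ℝ) ≤ 2 * (x / m) :=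
    (Nat.floor_le (by positivity)).trans (by rw [div_eq_mul_inv, mul_assoc]; gcongr)
  have h7 : (x : ℝ) / m ≤ lo η x (box η m) + 1 := by
    refine le_trans ?_ ((le_max_right _ _).trans (Nat.lt_floor_add_one _).le)
    rw [div_eq_mul_inv]; gcongr
  have h8 : (lo η x (box η m) : ℝ) ≤ hi η x (box η m) := by exact_mod_cast hle
  have h9 : 2 * (1 + 2 * C) * W.totient / ε ≤ x / m := by
    refine h2.trans ?_
    rw [le_div_iff₀ hm']
    refine (mul_le_mul_of_nonneg_left h3 (by positivity)).trans (le_of_eq ?_)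
    rw [← Real.rpow_add hx']; norm_num
  have h10 : ∑ p ∈ Ioc (lo η x (box η m)) (hi η x (box η m)) with p.Prime ∧ p * m ≡ a [MOD W],
      Real.log p + ∑ p ∈ Icc 1 (lo η x (box η m)) with Nat.Prime p ∧ (Nat.cast p : ZMod W) = c, Real.log (p : ℕ) ≤
      ∑ p ∈ Icc 1 (hi η x (box η m)) with Nat.Prime p ∧ (Nat.cast p : ZMod W) = c, Real.log (p : ℕ) := by
    rw [← sum_union (disjoint_left.2 fun p h h' => by
      have := (mem_Ioc.1 (mem_filter.1 h).1).1
      have := (mem_Icc.1 (mem_filter.1 h').1).2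
      omega)]
    refine sum_le_sum_of_subset_of_nonneg (union_subset (fun p h => ?_) fun p h => ?_)
      fun _ _ _ => Real.log_natCast_nonneg _
    · obtain ⟨h, h', h''⟩ := mem_filter.1 h
      refine mem_filter.2 ⟨mem_Icc.2 ⟨h'.pos, (mem_Ioc.1 h).2⟩, h', ?_⟩
      rw [Units.eq_mul_inv_iff_mul_eq, ZMod.coe_unitOfCoprime, ← Nat.cast_mul]
      exact (ZMod.natCast_eq_natCast_iff _ _ _).2 h''
    · obtain ⟨h, h'⟩ := mem_filter.1 h
      exact mem_filter.2 ⟨mem_Icc.2 ⟨(mem_Icc.1 h).1, (mem_Icc.1 h).2.trans hle⟩, h'⟩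
  rw [div_le_iff₀ hε] at h9
  have e1 : (hi η x (box η m) : ℝ) / W.totient - lo η x (box η m) / W.totient ≤
      x / m / W.totient + 1 := by
    rw [← sub_div]
    have : (hi η x (box η m) : ℝ) - lo η x (box η m) ≤ x / m + 1 := by linarith
    refine (div_le_div_of_nonneg_right this (by positivity)).trans ?_
    rw [add_div]; gcongr; exact div_le_self zero_le_one hφ
  have e2 : ε / (8 * W.totient) * hi η x (box η m) ≤ ε / 4 * (x / m / W.totient) :=
    (mul_le_mul_of_nonneg_left h6 (by positivity)).trans (le_of_eq (by field_simp; ring))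
  have e3 : ε / (8 * W.totient) * lo η x (box η m) ≤ ε / 4 * (x / m / W.totient) :=
    le_trans (by gcongr) e2
  have e4 : 1 + 2 * C ≤ ε / 2 * (x / m / W.totient) := by
    rw [← mul_div_assoc, le_div_iff₀ (by positivity)]; linarith
  rw [← div_div]
  linarith

theorem totient_primorial (D : ℕ) :
    ((primorial D).totient : ℝ) = primorial D * ∏ p ∈ Nat.primesLE D, (1 - (p : ℝ)⁻¹) := by
  have := Nat.totient_eq_mul_prod_factors (primorial D)
  rw [primeFactors_primorial] at this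
  have h := congrArg (fun r : ℚ => (r : ℝ)) this
  push_cast at h
  exact h

theorem rough_cop (D : ℕ) {η : ℝ} (hη : 0 < η) : ∀ᶠ x : ℕ in atTop, ∀ m, rough η x m →
    0 < m → Nat.Coprime m (primorial D) := by
  filter_upwards [const_le_rpow D hη] with x h m hr hm
  refine Nat.coprime_of_dvd fun p hp h1 h2 => ?_
  have h3 := hr.2 p (Nat.mem_primeFactors.2 ⟨hp, h1, hm.ne'⟩)
  have h4 : (p : ℝ) ≤ D := by exact_mod_cast hp.dvd_primorial_iff.1 h2
  linarith

open Classical in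
/-- The main term of the large primes. -/
theorem F3 (D a : ℕ) (ha : Nat.Coprime a (primorial D)) {ω : ℝ → ℝ} (hω : Good ω) {L η ε : ℝ}
    (hL : L ≤ 1) (hη : 0 < η) (hε : 0 < ε) : ∀ᶠ x : ℕ in atTop,
    ∑ m ∈ Icc 1 x with rough η x m, ∑ p ∈ Ioc (lo η x (box η m)) (hi η x (box η m)) with
        p.Prime ∧ p * m ≡ a [MOD primorial D], Real.log p / Real.log x *
          ω (Real.log m / Real.log x) * S1 (qq D x) (Real.log x) (fL L) m ^ 2 ≤
      x / primorial D * BB D x * ((∫ v in (0 : ℝ)..(662 / 1000), ω v * HH L v) + ε) := by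
  have h := (conv_graham D (fL L) (fL_lip L) fun u hu => fL_zero (hL.trans hu)).le
    (show (0 : ℝ) < 662 / 1000 by norm_num) hω.cont
  simp only [hω.zero, mul_zero, zero_add] at h
  set I := ∫ v in (0 : ℝ)..(662 / 1000), ω v * HH L v with hI
  have h' := h.const_mul 1
  have hlim : Tendsto (fun δ : ℝ => (1 + δ) * (I + δ)) (𝓝[>] 0) (𝓝 ((1 + 0) * (I + 0))) :=
    tendsto_nhdsWithin_of_tendsto_nhds (Continuous.tendsto (by fun_prop) _)
  obtain ⟨δ, hδ1, hδ⟩ := ((hlim.eventually_le_const (show _ < I + ε by linarith)).and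
    self_mem_nhdsWithin).exists
  have hδ : 0 < δ := hδ
  filter_upwards [h.eventually_le_const (lt_add_of_pos_right _ hδ), small_cof hη,
    theta_box (primorial D) a (primorial_ne_zero D) ha hη hδ, rough_cop D hη, Meas.BB_pos D,
    gr_logx.eventually_ge_atTop 1, eventually_gt_atTop 0] with x h1 h2 h3 h4 hB hl hx
  have hl0 : 0 < Real.log x := by linarith
  have hW : (0 : ℝ) < primorial D := by exact_mod_cast primorial_pos D
  have hV := Meas.V_pos D
  calc _ ≤ ∑ m ∈ Icc 1 x with rough η x m, if Real.log m / Real.log x ≤ 662 / 1000 then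
        x / primorial D * BB D x * (1 + δ) * (S1 (qq D x) (Real.log x) (fL L) m ^ 2 /
          (m * BB D x ^ 2) * ω (Real.log m / Real.log x)) else 0 := by
        refine sum_le_sum fun m hm => ?_
        have hm0 : 0 < m := (mem_Icc.1 (mem_filter.1 hm).1).1
        have hm' : (0 : ℝ) < m := by positivity
        split_ifs with hv
        · have a1 := hω.nonneg _ (div_nonneg (Real.log_natCast_nonneg m) hl0.le) hv
          have a2 := h3 m hm0 (h4 m (mem_filter.1 hm).2 hm0)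
          rw [← sum_mul, ← sum_mul, ← sum_div]
          refine (mul_le_mul_of_nonneg_right (mul_le_mul_of_nonneg_right
            (div_le_div_of_nonneg_right a2 hl0.le) a1) (sq_nonneg _)).trans (le_of_eq ?_)
          rw [totient_primorial]
          unfold BB
          field_simp
        · refine le_of_eq (sum_eq_zero fun p hp => absurd ?_ hv)
          rw [div_le_iff₀ hl0, ← Real.log_rpow (by positivity)]
          exact Real.log_le_log hm' (h2 m p hm0 (mem_filter.1 hp).1)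
    _ ≤ x / primorial D * BB D x * (1 + δ) * (I + δ) := by
        rw [← sum_filter, ← mul_sum]
        refine mul_le_mul_of_nonneg_left (le_trans (sum_le_sum_of_subset_of_nonneg (fun m hm => ?_)
          fun m hm _ => ?_) h1) (by positivity)
        · simp only [mem_filter, mem_Icc] at hm ⊢
          refine ⟨⟨⟨hm.1.1.1, hm.1.1.2.trans (Nat.le_floor ?_)⟩, h4 m hm.1.2 hm.1.1.1⟩, hm.2⟩
          rw [← Real.log_le_iff_le_exp (by positivity)]; nlinarith
        · exact mul_nonneg (by positivity) (hω.nonneg _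
            (div_nonneg (Real.log_natCast_nonneg m) hl0.le) (mem_filter.1 hm).2)
    _ ≤ _ := by rw [mul_assoc _ (1 + δ)]; gcongr

end Pool.Agent.Lib.MP_fc51f7_nt
end

-- part Pool.Agent.Lib.MP_fc51f7_nt.Pair
section

/-! The contribution of one pair of cells. -/

set_option autoImplicit false

namespace Pool.Agent.Lib.MP_fc51f7_nt

open Finset Filter Topology

noncomputable def cell (D x : ℕ) (δ : ℝ) (k : ℕ) (T : Fin 3 → Finset (PP D x)) : ℝ :=
  if k * δ ≤ lgs (qq D x) T / Real.log x ∧ lgs (qq D x) T / Real.log x < (k + 1) * δ then 1 else 0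

noncomputable def Lk (δ : ℝ) (k : ℕ) : ℝ := 33 / 100 - (k + 1) * δ

noncomputable def yk (D x : ℕ) (δ : ℝ) (k : ℕ) (T : Finset (PP D x)) : ℝ :=
  fL (Lk δ k) (lg (qq D x) T / Real.log x)

noncomputable def ZZ (D x : ℕ) (g : Fin 3 → ℤ) (δ : ℝ) (k : ℕ) (m : ℕ) : ℝ :=
  S0 (qq D x) (yk D x δ k) m * SS (qq D x) g (cell D x δ k) m

noncomputable def nuu (D x : ℕ) (δ : ℝ) (k k' : ℕ) : ℝ :=
  ∑ T, cell D x δ k T * cell D x δ k' T * wts (qq D x) T

theorem abs_cell (D x : ℕ) (δ : ℝ) (k : ℕ) (T : Fin 3 → Finset (PP D x)) :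
    |cell D x δ k T| ≤ 1 := by unfold cell; split_ifs <;> simp

theorem cell_lt {D x : ℕ} {δ : ℝ} {k : ℕ} {T : Fin 3 → Finset (PP D x)} (hl : 0 < Real.log x)
    (h : cell D x δ k T ≠ 0) : lgs (qq D x) T < (k + 1) * δ * Real.log x := by
  unfold cell at h
  split_ifs at h with h1
  · exact (div_lt_iff₀ hl).1 h1.2
  · exact absurd rfl h

theorem nuu_nonneg (D x : ℕ) (δ : ℝ) (k : ℕ) : 0 ≤ nuu D x δ k k :=
  sum_nonneg fun T _ => mul_nonneg (mul_self_nonneg _) (wts_nonneg _ (qq_two D x) T)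

theorem nuu_ne (D x : ℕ) {δ : ℝ} (hδ : 0 < δ) {k k' : ℕ} (h : k ≠ k') : nuu D x δ k k' = 0 := by
  refine sum_eq_zero fun T _ => ?_
  unfold cell
  split_ifs with h1 h2
  · exfalso
    have a1 : (k : ℝ) < k' + 1 := lt_of_mul_lt_mul_right (h1.1.trans_lt h2.2) hδ.le
    have a2 : (k' : ℝ) < k + 1 := lt_of_mul_lt_mul_right (h2.1.trans_lt h1.2) hδ.le
    have a3 : k < k' + 1 := by exact_mod_cast a1
    have a4 : k' < k + 1 := by exact_mod_cast a2
    omega
  all_goals simp

theorem yk_lt {D x : ℕ} {δ : ℝ} {k : ℕ} {T : Finset (PP D x)} (hl : 0 < Real.log x)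
    (h : yk D x δ k T ≠ 0) : lg (qq D x) T < Lk δ k * Real.log x :=
  (div_lt_iff₀ hl).1 (not_le.1 fun h' => h (fL_zero h'))

theorem dif_lt {D x : ℕ} {δ : ℝ} {k : ℕ} {i : PP D x} {T : Finset (PP D x)} (hl : 0 < Real.log x)
    (h : dif (yk D x δ k) i T ≠ 0) : i ∉ T ∧ lg (qq D x) T < Lk δ k * Real.log x := by
  unfold dif at h
  split_ifs at h with h1
  · exact absurd rfl h
  refine ⟨h1, ?_⟩
  by_cases h2 : yk D x δ k T = 0
  · have := yk_lt hl (show yk D x δ k (insert i T) ≠ 0 by simpa [h2] using h)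
    rw [lg, sum_insert h1] at this
    exact lt_of_le_of_lt (le_add_of_nonneg_left (Real.log_natCast_nonneg _)) this
  · exact yk_lt hl h2

theorem tens_supp {D x : ℕ} {δ : ℝ} {k : ℕ} (hl : 0 < Real.log x) {y0 : Finset (PP D x) → ℝ}
    (h0 : ∀ T, y0 T ≠ 0 → lg (qq D x) T < Lk δ k * Real.log x)
    {T : Option (Fin 3) → Finset (PP D x)} (h : tens y0 (cell D x δ k) T ≠ 0) :
    lgs (qq D x) T ≤ 33 / 100 * Real.log x := by
  have h1 := h0 _ (left_ne_zero_of_mul h)
  have h2 := cell_lt hl (right_ne_zero_of_mul h)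
  rw [lgs_option]; unfold Lk at h1; linarith

theorem abs_tens {D x : ℕ} {δ c : ℝ} {k : ℕ} {y0 : Finset (PP D x) → ℝ} (h0 : ∀ T, |y0 T| ≤ c)
    (T : Option (Fin 3) → Finset (PP D x)) : |tens y0 (cell D x δ k) T| ≤ c := by
  rw [tens, abs_mul]
  exact (mul_le_of_le_one_right (abs_nonneg _) (abs_cell _ _ _ _ _)).trans (h0 _)

theorem abs_dif (D x : ℕ) (δ : ℝ) (k : ℕ) (i : PP D x) (T : Finset (PP D x)) :
    |dif (yk D x δ k) i T| ≤ 1 := by
  unfold dif; split_ifs
  · simp
  · exact abs_fL_sub _ _ _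

theorem og_inj {g : Fin 3 → ℤ} (hg : Function.Injective g) (hg8 : ∀ j, g j ≠ 0 ∧ |g j| ≤ 8) :
    Function.Injective (og g) ∧ ∀ j, |og g j| ≤ 8 := by
  refine ⟨?_, ?_⟩
  · rintro (_ | i) (_ | j) h
    · rfl
    · exact absurd h.symm (hg8 j).1
    · exact absurd h (hg8 i).1
    · exact congrArg some (hg h)
  · rintro (_ | j)
    · simp [og]
    · exact (hg8 j).2

theorem small_pow (D : ℕ) {θ ε : ℝ} (hθ : θ < 1) (hε : 0 < ε) : ∀ᶠ x : ℕ in atTop,
    (x : ℝ) ^ θ ≤ x / primorial D * BB D x ^ 4 * ε := by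
  have hW : (0 : ℝ) < primorial D := by exact_mod_cast primorial_pos D
  filter_upwards [(BB_tendsto D).eventually_ge_atTop 1, eventually_gt_atTop 0,
    const_le_rpow (primorial D / ε) (sub_pos.2 hθ)] with x hB hx h
  have hx' : (0 : ℝ) < x := by positivity
  rw [Real.rpow_sub hx', Real.rpow_one, div_le_div_iff₀ hε (by positivity)] at h
  have h1 : 1 ≤ BB D x ^ 4 := one_le_pow₀ hB
  calc _ ≤ x / primorial D * 1 * ε := by
        rw [mul_one, div_mul_eq_mul_div, le_div_iff₀ hW]; linarith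
    _ ≤ _ := by gcongr

section
variable {D : ℕ} (hD : 16 ≤ D) {g : Fin 3 → ℤ} (hg : Function.Injective g)
  (hg8 : ∀ j, g j ≠ 0 ∧ |g j| ≤ 8) (a : ℕ) (δ : ℝ) (k k' : ℕ)
include hD hg hg8

theorem pairA {ε : ℝ} (hε : 0 < ε) : ∀ᶠ x : ℕ in atTop,
    |∑ m ∈ Ioc x (2 * x) with m ≡ a [MOD primorial D], ZZ D x g δ k m * ZZ D x g δ k' m -
      x / primorial D * ((∑ T, yk D x δ k T * yk D x δ k' T * wt (qq D x) T) * nuu D x δ k k')| ≤
      x / primorial D * BB D x ^ 4 * (eD D + ε) := by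
  filter_upwards [TI hD (κ := Option (Fin 3)) (by simp) (og_inj hg hg8).1 (og_inj hg hg8).2
    (j0 := none) rfl a, Meas.L_pos, small_pow D (show (6605 / 10000 : ℝ) < 1 by norm_num) hε]
    with x h hl h2
  have := h ∅ x (2 * x) (tens (yk D x δ k) (cell D x δ k)) (tens (yk D x δ k') (cell D x δ k'))
    (by simp) (by omega) (abs_tens fun T => abs_fL _ _) (abs_tens fun T => abs_fL _ _)
    (fun T hT => ⟨by simp, tens_supp hl (fun _ => yk_lt hl) hT⟩)
    (fun T hT => ⟨by simp, tens_supp hl (fun _ => yk_lt hl) hT⟩)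
  simp only [SS_tens, sum_tens, notMem_empty, IsEmpty.forall_iff, implies_true, and_true,
    prod_empty, mul_one, Nat.cast_mul, Nat.cast_ofNat, Fintype.card_option, Fintype.card_fin,
    show (2 : ℝ) * x - x = x by ring] at this
  exact this.trans (by linarith)

theorem pair_prime : ∀ᶠ x : ℕ in atTop, ∀ i : PP D x,
    |∑ m ∈ Ioc x (2 * x) with m ≡ a [MOD primorial D] ∧ qq D x i ∣ m,
        ZZ D x g δ k m * ZZ D x g δ k' m - x / primorial D / qq D x i *
        ((∑ T, dif (yk D x δ k) i T * dif (yk D x δ k') i T * wt (qq D x) T) * nuu D x δ k k')| ≤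
      x / primorial D / qq D x i * (eD D * BB D x ^ 4) + (x : ℝ) ^ (6605 / 10000 : ℝ) := by
  filter_upwards [TI hD (κ := Option (Fin 3)) (by simp) (og_inj hg hg8).1 (og_inj hg hg8).2
    (j0 := none) rfl a, Meas.L_pos] with x h hl i
  have := h {i} x (2 * x) (tens (dif (yk D x δ k) i) (cell D x δ k))
    (tens (dif (yk D x δ k') i) (cell D x δ k'))
    (by simp) (by omega) (abs_tens (abs_dif _ _ _ _ _)) (abs_tens (abs_dif _ _ _ _ _))
    (fun T hT => ⟨by simpa using (dif_lt hl (left_ne_zero_of_mul hT)).1,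
      tens_supp hl (fun _ h => (dif_lt hl h).2) hT⟩)
    (fun T hT => ⟨by simpa using (dif_lt hl (left_ne_zero_of_mul hT)).1,
      tens_supp hl (fun _ h => (dif_lt hl h).2) hT⟩)
  simp only [SS_tens, sum_tens, mem_singleton, forall_eq, prod_singleton, Nat.cast_mul,
    Nat.cast_ofNat, Fintype.card_option, Fintype.card_fin, ← div_div,
    show (2 : ℝ) * x - x = x by ring] at this
  unfold nuu
  convert this using 3
  refine sum_congr rfl fun m hm => ?_
  have hd : (qq D x i : ℤ) ∣ m := by exact_mod_cast (mem_filter.1 hm).2.2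
  rw [ZZ, ZZ, S0_dif _ _ i hd, S0_dif _ (yk D x δ k') i hd]

omit hD hg hg8 in
theorem sum_primeFactors (D : ℕ) : ∀ᶠ x : ℕ in atTop, ∀ (m : ℕ) (P : ℕ → Prop) [DecidablePred P]
    (c : ℕ → ℝ), m ≠ 0 → (∀ p ∈ m.primeFactors, P p → D < p ∧ p ≤ x) →
    ∑ p ∈ m.primeFactors with P p, c p =
      ∑ i : PP D x with P (qq D x i), if qq D x i ∣ m then c (qq D x i) else 0 := by
  filter_upwards [gr_logx.eventually_ge_atTop 1, eventually_gt_atTop 0] with x hl hx m P _ c hm h
  rw [← sum_filter, filter_filter]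
  refine (sum_nbij (qq D x) (fun i hi => ?_) (qq_inj D x).injOn (fun p hp => ?_)
    fun _ _ => rfl).symm
  · obtain ⟨h1, h2⟩ := (mem_filter.1 hi).2
    exact mem_filter.2 ⟨Nat.mem_primeFactors.2 ⟨gr_prime D x i, h2, hm⟩, h1⟩
  · obtain ⟨h1, h2⟩ := mem_filter.1 (mem_coe.1 hp)
    obtain ⟨h3, h4⟩ := h p h1 h2
    refine ⟨⟨p, mem_filter.2 ⟨mem_Ioc.2 ⟨h3, h4.trans (Nat.le_floor ?_)⟩,
      Nat.prime_of_mem_primeFactors h1⟩⟩,
      mem_coe.2 (mem_filter.2 ⟨mem_univ _, h2, Nat.dvd_of_mem_primeFactors h1⟩), rfl⟩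
    rw [← Real.log_le_iff_le_exp (by positivity)]; nlinarith

omit hD hg hg8 in
theorem card_small (D x : ℕ) (hl : 0 < Real.log x) {b : ℝ} (P : PP D x → Prop) [DecidablePred P]
    (h : ∀ i, P i → Real.log (qq D x i) / Real.log x ≤ b) :
    ((univ.filter P).card : ℝ) ≤ (x : ℝ) ^ b := by
  have hx : 0 < x := Nat.pos_of_ne_zero fun h => by simp [h] at hl
  refine le_trans ?_ (Nat.floor_le (a := (x : ℝ) ^ b) (by positivity))
  have : (univ.filter P).card ≤ (Icc 1 ⌊(x : ℝ) ^ b⌋₊).card :=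
    card_le_card_of_injOn (qq D x) (fun i hi => mem_coe.2 (mem_Icc.2 ⟨(gr_prime D x i).pos,
      Nat.le_floor (by
        rw [rpow_eq_exp hx, ← Real.log_le_iff_le_exp (by have := Meas.two_le D x i; linarith)]
        exact (div_le_iff₀ hl).1 (h i (mem_filter.1 (mem_coe.1 hi)).2))⟩)) (qq_inj D x).injOn
  simpa using this

theorem pairB {ε η c : ℝ} (hε : 0 < ε) (hη : 0 < η) (hc : 0 ≤ c) (hc' : c ≤ 5) :
    ∀ᶠ x : ℕ in atTop,
    ∑ m ∈ Ioc x (2 * x) with m ≡ a [MOD primorial D],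
      (∑ p ∈ m.primeFactors with η < Real.log (p : ℕ) / Real.log x ∧
          Real.log (p : ℕ) / Real.log x ≤ 339 / 1000,
        (1 - c * (Real.log (p : ℕ) / Real.log x))) * (ZZ D x g δ k m * ZZ D x g δ k' m) ≤
      x / primorial D * ((∑ i : PP D x with η < Real.log (qq D x i) / Real.log x ∧
          Real.log (qq D x i) / Real.log x ≤ 339 / 1000,
        (1 - c * (Real.log (qq D x i) / Real.log x)) / qq D x i *
          ∑ T, dif (yk D x δ k) i T * dif (yk D x δ k') i T * wt (qq D x) T) * nuu D x δ k k') +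
      x / primorial D * BB D x ^ 4 * (2 / η * eD D + ε) := by
  filter_upwards [pair_prime hD hg hg8 a δ k k', sum_primeFactors D, Meas.L_pos, pi_bdd D,
    small_pow D (show (9995 / 10000 : ℝ) < 1 by norm_num) hε, const_le_rpow D hη,
    eventually_gt_atTop 0] with x h1 h2 hl h3 h4 h5 hx
  have hx' : (0 : ℝ) < x := by positivity
  set u : ℕ → ℝ := fun p => Real.log p / Real.log x with hu
  set s : Finset (PP D x) := univ.filter fun i => η < u (qq D x i) ∧ u (qq D x i) ≤ 339 / 1000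
  have e1 : ∑ m ∈ Ioc x (2 * x) with m ≡ a [MOD primorial D],
      (∑ p ∈ m.primeFactors with η < u p ∧ u p ≤ 339 / 1000, (1 - c * u p)) *
        (ZZ D x g δ k m * ZZ D x g δ k' m) = ∑ i ∈ s, (1 - c * u (qq D x i)) *
      ∑ m ∈ Ioc x (2 * x) with m ≡ a [MOD primorial D] ∧ qq D x i ∣ m,
        ZZ D x g δ k m * ZZ D x g δ k' m := by
    simp only [← filter_filter, sum_filter (fun m => qq D x _ ∣ m), mul_sum]
    rw [sum_comm]
    refine sum_congr rfl fun m hm => ?_
    have hm0 : x < m := (mem_Ioc.1 (mem_filter.1 hm).1).1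
    rw [filter_filter, h2 m (fun p => η < u p ∧ u p ≤ 339 / 1000) _ (by omega) fun p hp h => ?_,
      sum_mul]
    · exact sum_congr rfl fun i _ => by split_ifs <;> simp
    · have hp0 : (0 : ℝ) < p := by exact_mod_cast (Nat.prime_of_mem_primeFactors hp).pos
      have b1 : (x : ℝ) ^ η < p := by
        rw [rpow_eq_exp hx, ← Real.lt_log_iff_exp_lt hp0]; exact (lt_div_iff₀ hl).1 h.1
      have b2 : (p : ℝ) ≤ x := by
        rw [← Real.log_le_log_iff hp0 hx']
        have := (div_le_iff₀ hl).1 h.2; linarith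
      exact ⟨by exact_mod_cast h5.trans_lt b1, by exact_mod_cast b2⟩
  have h6 : ∑ i ∈ s, (1 : ℝ) / qq D x i ≤ 2 / η := by
    rw [le_div_iff₀ hη, sum_mul]
    refine le_trans (sum_le_sum fun i hi => ?_) (le_trans (sum_le_sum_of_subset_of_nonneg
      (fun i hi => mem_filter.2 ⟨mem_univ _, (mem_filter.1 hi).2.2.trans (by norm_num)⟩)
      fun i _ _ => ((conv_pi D).1 x i (mem_univ _)).1) h3)
    beta_reduce
    rw [mul_comm (qq D x i : ℝ), ← div_div, one_div, mul_comm, ← div_eq_mul_inv]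
    gcongr
    exact (mem_filter.1 hi).2.1.le
  have h7 := card_small D x hl (b := 339 / 1000)
    (fun i => η < u (qq D x i) ∧ u (qq D x i) ≤ 339 / 1000) fun i h => h.2
  have h8 : (x : ℝ) ^ (339 / 1000 : ℝ) * (x : ℝ) ^ (6605 / 10000 : ℝ) =
      (x : ℝ) ^ (9995 / 10000 : ℝ) := by rw [← Real.rpow_add hx']; norm_num
  have h9 := eD_nonneg D
  have h10 := Meas.BB_nonneg D x
  rw [e1]
  calc _ ≤ ∑ i ∈ s, (x / primorial D * ((1 - c * u (qq D x i)) / qq D x i *
          (∑ T, dif (yk D x δ k) i T * dif (yk D x δ k') i T * wt (qq D x) T) * nuu D x δ k k') +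
          (x / primorial D * (eD D * BB D x ^ 4) * (1 / qq D x i) +
            (x : ℝ) ^ (6605 / 10000 : ℝ))) := by
        refine sum_le_sum fun i hi => ?_
        obtain ⟨a1, a2⟩ := (mem_filter.1 hi).2
        have a7 : |1 - c * u (qq D x i)| ≤ 1 := abs_le.2 ⟨by nlinarith, by nlinarith⟩
        have a8 := (le_abs_self _).trans ((abs_mul _ _).le.trans
          (mul_le_mul a7 (h1 i) (abs_nonneg _) zero_le_one))
        rw [mul_sub, sub_le_iff_le_add'] at a8
        exact a8.trans (le_of_eq (by ring))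
    _ ≤ _ := by
        rw [sum_add_distrib, sum_add_distrib, ← mul_sum, ← sum_mul, ← mul_sum, sum_const,
          nsmul_eq_mul]
        refine add_le_add le_rfl ?_
        have b1 := mul_le_mul_of_nonneg_left h6
          (show 0 ≤ x / primorial D * (eD D * BB D x ^ 4) by positivity)
        have b2 := mul_le_mul_of_nonneg_right h7
          (show 0 ≤ (x : ℝ) ^ (6605 / 10000 : ℝ) by positivity)
        rw [h8] at b2
        exact (add_le_add b1 (b2.trans h4)).trans (le_of_eq (by ring))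

theorem Tbar_approx : ∀ᶠ x : ℕ in atTop, ∀ y y' : (Fin 3 → Finset (PP D x)) → ℝ,
    (∀ T, |y T| ≤ 1) → (∀ T, |y' T| ≤ 1) →
    (∀ T U, y T ≠ 0 → y' U ≠ 0 → lgs (qq D x) T + lgs (qq D x) U ≤ Real.log x) →
    |Tbar (qq D x) g y y' - ∑ T, y T * y' T * wts (qq D x) T| ≤ eD D * BB D x ^ 3 := by
  filter_upwards [Zf_le D, Meas.L_pos] with x hZ hl y y' hy hy' hs
  refine (perturb (qq D x) (qq_two D x) (fun i => ubar (qq D x i) g)
    (fun i => 2000 / (qq D x i : ℝ) ^ 2) (fun i => ubar_approx (gr_prime D x i)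
      (hD.trans_lt (gr_gt D x i)) (by simp) hg hg8) (s := (Real.log x)⁻¹) (by positivity)
    y y' hy hy' hs).trans ?_
  have h1 : Real.exp ((Real.log x)⁻¹ * Real.log x) ≤ 3 := exp_le_three (by field_simp; rfl)
  have h2 := one_le_Zf (qq D x) (qq_two D x) (2 * (Real.log x)⁻¹)
  have h3 := sum_inv_sq_le (qq D x) (qq_inj D x) (show 0 < D by omega) (gr_gt D x)
  have h4 : ∑ i, (2000 : ℝ) / (qq D x i : ℝ) ^ 2 ≤ 2002 / D := by
    simp only [div_eq_mul_one_div (2000 : ℝ), div_eq_mul_one_div (2002 : ℝ), ← mul_sum]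
    gcongr; norm_num
  have h5 : 0 ≤ ∑ i, (2000 : ℝ) / (qq D x i : ℝ) ^ 2 := by positivity
  have h6 : 1 ≤ Real.exp (4 ^ Fintype.card (Fin 3) * ∑ i, 2000 / (qq D x i : ℝ) ^ 2) :=
    Real.one_le_exp (by positivity)
  calc _ ≤ 3 * (BB D x ^ Fintype.card (Fin 3) * (Real.exp (256 * (2002 / D)) - 1)) := by
        have := Meas.BB_nonneg D x
        gcongr
        norm_num
    _ = _ := by unfold eD; simp; ring

omit hD hg hg8 in
theorem int_le {ω : ℝ → ℝ} (hω : Good ω) (L : ℝ) :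
    ∫ v in (0 : ℝ)..(662 / 1000), ω v * HH L v ≤ 20 := by
  refine (Real.le_norm_self _).trans ((intervalIntegral.norm_integral_le_of_norm_le_const (C := 20)
    (a := 0) (b := 662 / 1000) fun v hv => ?_).trans (show _ ≤ (20 : ℝ) by
      rw [sub_zero, abs_of_pos (by norm_num)]; norm_num))
  rw [Set.uIoc_of_le (by norm_num)] at hv
  have h1 := hω.abs_le (a := v) (by linarith [hv.1]) hv.2
  have h2 : ‖HH L v‖ ≤ 1 * |v - 0| := intervalIntegral.norm_integral_le_of_norm_le_const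
    fun t _ => by rw [norm_pow]; exact pow_le_one₀ (norm_nonneg _) (abs_fL _ _)
  rw [sub_zero, abs_of_pos hv.1] at h2
  rw [abs_of_pos hv.1] at h1
  rw [norm_mul]
  exact (mul_le_mul h1 h2 (norm_nonneg _) (by linarith [hv.1])).trans (by nlinarith [hv.1, hv.2])

omit hD hg hg8 in
theorem card_rough_le {η : ℝ} (hη : 0 < η) {x m : ℕ} (hx : 1 < x) (hm : m ∈ Icc 1 x)
    (h : rough η x m) : m.primeFactors.card ≤ ⌈1 / η⌉₊ := by
  have hx' : (1 : ℝ) < x := by exact_mod_cast hx
  have h2 : ((x : ℝ) ^ η) ^ m.primeFactors.card ≤ x := by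
    rw [← prod_const]
    refine (prod_le_prod (fun _ _ => by positivity) fun p hp => (h.2 p hp).le).trans ?_
    rw [← Nat.cast_prod, Nat.cast_le]
    exact (Nat.le_of_dvd (mem_Icc.1 hm).1 (Nat.prod_primeFactors_dvd m)).trans (mem_Icc.1 hm).2
  rw [← Real.rpow_mul_natCast (by positivity)] at h2
  have h3 := (Real.rpow_le_rpow_left_iff hx').1 (h2.trans_eq (Real.rpow_one _).symm)
  have : (m.primeFactors.card : ℝ) ≤ ⌈1 / η⌉₊ :=
    le_trans (by rw [le_div_iff₀ hη]; linarith) (Nat.le_ceil _)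
  exact_mod_cast this

theorem pairC (ha : Nat.Coprime a (primorial D)) {ω : ℝ → ℝ} (hω : Good ω) {ε η : ℝ}
    (hε : 0 < ε) (hη : 0 < η) (hη' : η ≤ 1 / 1000) (hδ : 0 < δ)
    (hlev : (k + 1) * δ + (k' + 1) * δ ≤ 499 / 1000) : ∀ᶠ x : ℕ in atTop,
    ∑ m ∈ Ioc x (2 * x) with m ≡ a [MOD primorial D],
      aw η x ω m * (ZZ D x g δ k m * ZZ D x g δ k' m) ≤
      x / primorial D * BB D x * ((∫ v in (0 : ℝ)..(662 / 1000), ω v * HH (Lk δ k) v) + ε) *
        nuu D x δ k k' + x / primorial D * BB D x ^ 4 * (21 * eD D + ε) := by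
  classical
  have hW : (0 : ℝ) < primorial D := by exact_mod_cast primorial_pos D
  have hV := Meas.V_pos D
  set V := ∏ p ∈ Nat.primesLE D, (1 - (p : ℝ)⁻¹) with hVd
  set K1 : ℝ := 20 * (3 * 2 ^ ⌈1 / η⌉₊) ^ 2 with hK1
  have hK0 : 0 < K1 := by positivity
  have hLk : ∀ k : ℕ, Lk δ k ≤ 33 / 100 := fun k => sub_le_self _ (by positivity)
  have hL1 : ∀ k : ℕ, Lk δ k ≤ 1 := fun k => (hLk k).trans (by norm_num)
  filter_upwards [bv D hD hη hη (show 0 < ε * V ^ 2 / (primorial D * K1) by positivity) g hg hg8 a,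
    Tbar_approx hD hg hg8, F3 D a ha hω (hL1 k) hη hε, F3 D a ha hω (hL1 k) hη one_pos,
    F3 D a ha hω (hL1 k') hη one_pos, small_cof hη, Meas.L_pos, Meas.BB_pos D, Zf_le D,
    eventually_gt_atTop 1, const_le_rpow 2 (show (0 : ℝ) < 338 / 1000 by norm_num)]
    with x h1 h2 h3 h4 h5 h6 hl hB hZ hx h7
  have hx' : (1 : ℝ) < x := by exact_mod_cast hx
  have hx0 : (0 : ℝ) < x := by linarith
  set S : ℕ → ℕ → ℝ := fun k m => S1 (qq D x) (Real.log x) (fL (Lk δ k)) m with hS
  set P : ℕ → Finset ℕ := fun m => (Ioc (lo η x (box η m)) (hi η x (box η m))).filter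
    fun p => p.Prime ∧ p * m ≡ a [MOD primorial D] with hP
  set v : ℕ → ℝ := fun m => Real.log m / Real.log x with hv
  have hv0 : ∀ m, 0 ≤ v m := fun m => div_nonneg (Real.log_natCast_nonneg m) hl.le
  have hv1 : ∀ m : ℕ, 0 < m → (m : ℝ) ≤ (x : ℝ) ^ (662 / 1000 : ℝ) → v m ≤ 662 / 1000 :=
    fun m hm h => by
      rw [div_le_iff₀ hl, ← Real.log_rpow hx0]
      exact Real.log_le_log (by positivity) h
  have hlev' : ∀ T U, cell D x δ k T ≠ 0 → cell D x δ k' U ≠ 0 →
      lgs (qq D x) T + lgs (qq D x) U ≤ (1 / 2 - η) * Real.log x := fun T U a1 a2 => by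
    nlinarith [cell_lt hl a1, cell_lt hl a2]
  have hSb : ∀ k, ∀ m ∈ Icc 1 x, rough η x m → |S k m| ≤ 3 * 2 ^ ⌈1 / η⌉₊ * BB D x := by
    intro k m hm hr
    refine (abs_S0_le (qq D x) (qq_two D x) (yk D x δ k) (fun T => abs_fL _ _)
      (s := 2 * (Real.log x)⁻¹) (Λ := 1 / 2 * Real.log x) (by positivity)
      (fun T hT => by nlinarith [yk_lt hl hT, hLk k]) m).trans ?_
    have a5 : Real.exp (2 * (Real.log x)⁻¹ * (1 / 2 * Real.log x)) ≤ 3 :=
      exp_le_three (by field_simp; norm_num)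
    have a6 := (card_dvd_le (qq D x) (gr_prime D x) (qq_inj D x)
      (show m ≠ 0 by have := (mem_Icc.1 hm).1; omega)).trans (card_rough_le hη hx hm hr)
    have a8 := one_le_Zf (qq D x) (qq_two D x) (2 * (Real.log x)⁻¹)
    rw [mul_assoc 3]
    gcongr
    norm_num
  have b1 := h1 (cell D x δ k) (cell D x δ k') (fun m => if m ∈ Icc 1 x ∧ rough η x m ∧
      (m : ℝ) ≤ (x : ℝ) ^ (662 / 1000 : ℝ) then ω (v m) * (S k m * S k' m) / (K1 * BB D x ^ 2)
      else 0) (lo η x) (hi η x) (abs_cell _ _ _ _) (abs_cell _ _ _ _) hlev'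
    (fun m => by
      split_ifs with h
      · rw [abs_div, abs_of_pos (show 0 < K1 * BB D x ^ 2 by positivity),
          div_le_one (by positivity), abs_mul, abs_mul]
        have a0 := hv1 m (mem_Icc.1 h.1).1 h.2.2
        have a1 := hω.abs_le (by linarith [hv0 m]) a0
        rw [abs_of_nonneg (hv0 m)] at a1
        have a2 : |ω (v m)| ≤ 20 := by linarith
        refine (mul_le_mul a2 (mul_le_mul (hSb k m h.1 h.2.1) (hSb k' m h.1 h.2.1) (abs_nonneg _)
          (by positivity)) (by positivity) (by norm_num)).trans (le_of_eq ?_)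
        rw [hK1]; ring
      · simp)
    (fun m hm => by
      have h := not_not.1 fun h => hm (if_neg h)
      exact ⟨h.2.1.1, h.2.2.trans (Real.rpow_le_rpow_of_exponent_le hx'.le (by linarith)),
        h.2.1.2⟩)
    (fun j => by
      refine ⟨?_, (Nat.floor_le (by positivity)).trans (by gcongr; linarith)⟩
      have a1 := (le_max_left _ _).trans_lt (Nat.lt_floor_add_one
        (max ((x : ℝ) ^ (339 / 1000 : ℝ)) (x * Real.exp (-(j * η)))))
      have a2 : (x : ℝ) ^ η ≤ (x : ℝ) ^ (1 / 1000 : ℝ) :=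
        Real.rpow_le_rpow_of_exponent_le hx'.le hη'
      have a3 : (x : ℝ) ^ (339 / 1000 : ℝ) = (x : ℝ) ^ (338 / 1000 : ℝ) * (x : ℝ) ^ (1 / 1000 : ℝ) := by
        rw [← Real.rpow_add hx0]; norm_num
      have a4 : 1 ≤ (x : ℝ) ^ (1 / 1000 : ℝ) := Real.one_le_rpow hx'.le (by norm_num)
      unfold lo
      nlinarith)
  have b2 := h2 _ _ (abs_cell D x δ k) (abs_cell D x δ k') fun T U a1 a2 =>
    (hlev' T U a1 a2).trans (by nlinarith)
  set G : ℕ → ℕ → ℝ := fun k k' => ∑ m ∈ Icc 1 x with rough η x m, ∑ p ∈ P m,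
    Real.log p / Real.log x * ω (v m) * (S k m * S k' m) with hG
  have b3 : |G k k'| ≤ x / primorial D * BB D x * 21 := by
    have a1 := int_le hω (Lk δ k)
    have a2 := int_le hω (Lk δ k')
    have a3 : 0 ≤ x / primorial D * BB D x := by positivity
    refine le_trans ?_ (show (_ + _) / 2 ≤ _ by
      have := add_le_add (h4.trans (mul_le_mul_of_nonneg_left (add_le_add a1 le_rfl) a3))
        (h5.trans (mul_le_mul_of_nonneg_left (add_le_add a2 le_rfl) a3))
      exact (div_le_div_of_nonneg_right this zero_le_two).trans (le_of_eq (by ring)))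
    rw [← sum_add_distrib, sum_div]
    refine (abs_sum_le_sum_abs _ _).trans (sum_le_sum fun m hm => ?_)
    rw [← sum_add_distrib, sum_div]
    refine (abs_sum_le_sum_abs _ _).trans (sum_le_sum fun p hp => ?_)
    have hm0 := (mem_Icc.1 (mem_filter.1 hm).1).1
    have a4 := mul_nonneg (hv0 p) (hω.nonneg _ (hv0 m) (hv1 m hm0 (h6 m p hm0 (mem_filter.1 hp).1)))
    rw [abs_mul, abs_of_nonneg a4, ← mul_add, mul_div_assoc]
    refine mul_le_mul_of_nonneg_left (abs_le.2 ⟨?_, ?_⟩) a4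
    · nlinarith [sq_nonneg (S k m + S k' m)]
    · nlinarith [sq_nonneg (S k m - S k' m)]
  have b4 : G k k' * nuu D x δ k k' ≤ x / primorial D * BB D x *
      ((∫ v in (0 : ℝ)..(662 / 1000), ω v * HH (Lk δ k) v) + ε) * nuu D x δ k k' := by
    by_cases h : k = k'
    · subst h
      simp only [sq] at h3
      exact mul_le_mul_of_nonneg_right h3 (nuu_nonneg _ _ _ _)
    · simp [nuu_ne D x hδ h]
  set R := ∑ m ∈ Icc 1 x, (if m ∈ Icc 1 x ∧ rough η x m ∧ (m : ℝ) ≤ (x : ℝ) ^ (662 / 1000 : ℝ) then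
    ω (v m) * (S k m * S k' m) / (K1 * BB D x ^ 2) else 0) * ∑ p ∈ P m, Real.log p *
      (SS (qq D x) g (cell D x δ k) (p * m : ℕ) * SS (qq D x) g (cell D x δ k') (p * m : ℕ) -
        Tbar (qq D x) g (cell D x δ k) (cell D x δ k')) with hR
  have e1 : ∑ m ∈ Ioc x (2 * x) with m ≡ a [MOD primorial D],
      aw η x ω m * (ZZ D x g δ k m * ZZ D x g δ k' m) = K1 * BB D x ^ 2 / Real.log x * R +
      G k k' * Tbar (qq D x) g (cell D x δ k) (cell D x δ k') := by
    rw [aw_reindex hη, hR, hG, mul_sum, sum_mul, sum_filter, sum_filter, ← sum_add_distrib]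
    refine sum_congr rfl fun m hm => ?_
    by_cases hr : rough η x m
    swap
    · simp [hr]
    rw [if_pos hr, if_pos hr, mul_sum, mul_sum, sum_mul, ← sum_add_distrib]
    refine sum_congr rfl fun p hp => ?_
    have hm0 := (mem_Icc.1 hm).1
    obtain ⟨a1, a2, -⟩ := mem_filter.1 hp
    have a3 : 339 / 1000 * Real.log x < Real.log p := by
      rw [← Real.log_rpow hx0]
      exact Real.log_lt_log (by positivity) (box_mem hη hm0 a1).1
    have a4 : ∀ k, S0 (qq D x) (yk D x δ k) (p * m : ℕ) = S k m := fun k =>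
      S0_mul_prime _ (gr_prime D x) _ a2 (fun T hT => by nlinarith [yk_lt hl hT, hLk k]) m
    rw [if_pos ⟨hm, hr, h6 m p hm0 a1⟩, ZZ, ZZ, a4, a4, show Real.log m / Real.log x = v m from rfl]
    field_simp
    ring
  have b5 : K1 * BB D x ^ 2 / Real.log x * R ≤ x / primorial D * BB D x ^ 4 * ε := by
    refine (mul_le_mul_of_nonneg_left ((le_abs_self _).trans b1) (by positivity)).trans
      (le_of_eq ?_)
    unfold BB
    rw [← hVd]
    field_simp
  have b6 := (le_abs_self _).trans ((abs_mul _ _).le.trans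
    (mul_le_mul b3 b2 (abs_nonneg _) (by positivity)))
  rw [e1]
  unfold nuu at b4 ⊢
  nlinarith

omit hD hg hg8 in
/-- The majorant of `Ω` for one pair of layers. -/
noncomputable def TT (η : ℝ) (x : ℕ) (Λ : ℝ) (ω : ℝ → ℝ) (m : ℕ) : ℝ :=
  (1 + Λ) + ∑ p ∈ m.primeFactors with η < Real.log (p : ℕ) / Real.log x ∧
    Real.log (p : ℕ) / Real.log x ≤ 339 / 1000,
      (1 - (1 + Λ) * (Real.log (p : ℕ) / Real.log x)) + aw η x ω m

theorem pair (ha : Nat.Coprime a (primorial D)) {ω : ℝ → ℝ} (hω : Good ω) {ε η Λ : ℝ}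
    (hε : 0 < ε) (hη : 0 < η) (hη' : η ≤ 1 / 1000) (hδ : 0 < δ) (hΛ : 0 ≤ Λ) (hΛ' : Λ ≤ 4)
    (hlev : ω = (fun _ => 0) ∨ (k + 1) * δ + (k' + 1) * δ ≤ 499 / 1000) : ∀ᶠ x : ℕ in atTop,
    ∑ m ∈ Ioc x (2 * x) with m ≡ a [MOD primorial D],
      TT η x Λ ω m * (ZZ D x g δ k m * ZZ D x g δ k' m) ≤
      x / primorial D * BB D x * (cost η Λ ω (Lk δ k) + 7 * ε) * nuu D x δ k k' +
        x / primorial D * BB D x ^ 4 * ((26 + 2 / η) * eD D + 7 * ε) := by
  have hLk : Lk δ k ≤ 33 / 100 := sub_le_self _ (by positivity)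
  have he := eD_nonneg D
  have hC : ∀ᶠ x : ℕ in atTop, ∑ m ∈ Ioc x (2 * x) with m ≡ a [MOD primorial D],
      aw η x ω m * (ZZ D x g δ k m * ZZ D x g δ k' m) ≤
      x / primorial D * BB D x * ((∫ v in (0 : ℝ)..(662 / 1000), ω v * HH (Lk δ k) v) + ε) *
        nuu D x δ k k' + x / primorial D * BB D x ^ 4 * (21 * eD D + ε) := by
    rcases hlev with rfl | h
    · refine Eventually.of_forall fun x => ?_
      have h1 : 0 ≤ nuu D x δ k k' := by
        by_cases h : k = k'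
        · exact h ▸ nuu_nonneg _ _ _ _
        · exact (nuu_ne D x hδ h).ge
      have := Meas.BB_nonneg D x
      simp only [aw, mul_zero, sum_const_zero, zero_mul, intervalIntegral.integral_zero]
      positivity
    · exact pairC hD hg hg8 a δ k k' ha hω hε hη hη' hδ h
  filter_upwards [hC, pairA hD hg hg8 a δ k k' hε,
    pairB hD hg hg8 a δ k k' hε hη (show 0 ≤ 1 + Λ by linarith) (by linarith),
    (F1 D (hLk.trans (by norm_num))).eventually_le_const (lt_add_of_pos_right _ hε),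
    F2 D (hLk.trans (by norm_num)) hη (by linarith) hε (show 0 ≤ 1 + Λ by linarith) (by linarith),
    Meas.BB_pos D] with x h1 h2 h3 h4 h5 hB
  simp only [TT, add_mul _ _ (ZZ D x g δ k _ * _), sum_add_distrib]
  rw [← sum_add_distrib]
  simp only [← add_mul _ _ (ZZ D x g δ k _ * _)]
  rw [← mul_sum]
  have h6 := mul_le_mul_of_nonneg_left (sub_le_iff_le_add.1 (abs_le.1 h2).2)
    (show 0 ≤ 1 + Λ by linarith)
  have hX : 0 ≤ (x : ℝ) / primorial D := by positivity
  have h7 : (1 + Λ) * (x / primorial D * BB D x ^ 4 * (eD D + ε)) ≤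
      5 * (x / primorial D * BB D x ^ 4 * (eD D + ε)) := by gcongr; linarith
  by_cases h : k = k'
  · subst h
    have h8 := mul_nonneg hX (nuu_nonneg D x δ k)
    rw [div_le_iff₀ hB] at h4
    have h9 := mul_le_mul_of_nonneg_left h5 h8
    have h10 := mul_le_mul_of_nonneg_left h4 (mul_nonneg h8 (show 0 ≤ 1 + Λ by linarith))
    have h11 : x / primorial D * nuu D x δ k k * BB D x * ε * Λ ≤
        x / primorial D * nuu D x δ k k * BB D x * ε * 4 := by gcongr
    unfold cost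
    unfold yk at h3 h6
    nlinarith
  · simp only [nuu_ne D x hδ h, mul_zero, zero_add, add_zero] at h1 h3 h6 ⊢
    nlinarith

end

end Pool.Agent.Lib.MP_fc51f7_nt
end
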