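import Pool.Agent.Lib.MP_fc51f7_nt.Bad

-- part Pool.Agent.Lib.MP_fc51f7_nt.PrA
section

/-! Tools for sieve sums over primes: Type I sums of larger level, transport of the bilinear
estimate, reindexing, uniform limits. -/

set_option autoImplicit false
set_option linter.unusedSectionVars false

namespace Pool.Agent.Lib.MP_fc51f7_nt.Pr

open Finset Filter Topology

section
variable {ι κ κ' : Type} [Fintype ι] [DecidableEq ι] [Fintype κ] [DecidableEq κ] [Fintype κ']
  [DecidableEq κ']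

theorem SS_re (e : κ ≃ κ') (q : ι → ℕ) (g : κ → ℤ) (y : (κ → Finset ι) → ℝ) (m : ℤ) :
    SS q (fun j => g (e.symm j)) (fun T => y fun j => T (e j)) m = SS q g y m := by
  refine (Fintype.sum_equiv (e.arrowCongr (Equiv.refl _)) _ _ fun T => ?_).symm
  congr 1
  · simp
  · exact Fintype.prod_equiv e _ _ fun j => by simp

theorem lgs_re (e : κ ≃ κ') (q : ι → ℕ) (T : κ' → Finset ι) :
    lgs q (fun j => T (e j)) = lgs q T := Fintype.sum_equiv e _ _ fun _ => rfl

theorem wts_re (e : κ ≃ κ') (q : ι → ℕ) (y y' : (κ → Finset ι) → ℝ) :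
    ∑ T : κ' → Finset ι, (y fun j => T (e j)) * (y' fun j => T (e j)) * wts q T =
      ∑ T, y T * y' T * wts q T := by
  refine (Fintype.sum_equiv (e.arrowCongr (Equiv.refl _)) _ _ fun T => ?_).symm
  congr 1
  · simp
  · exact Fintype.prod_equiv e _ _ fun j => by simp

theorem SS_tens' (q : ι → ℕ) (g : Option κ → ℤ) (y0 : Finset ι → ℝ) (a : (κ → Finset ι) → ℝ)
    (m : ℤ) : SS q g (tens y0 a) m = S0 q y0 (m + g none) * SS q (fun j => g (some j)) a m := by
  rw [SS, sum_option, S0, SS, sum_mul_sum]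
  refine sum_congr rfl fun T0 _ => sum_congr rfl fun T' _ => ?_
  simp [tens, Fintype.prod_option]; ring

theorem SS_shift (q : ι → ℕ) (g : κ → ℤ) (y : (κ → Finset ι) → ℝ) (m h : ℤ) :
    SS q (fun j => g j - h) y (m + h) = SS q g y m := by
  simp only [SS, show ∀ j, m + h + (g j - h) = m + g j from fun j => by ring]

theorem SS_sub (q : ι → ℕ) (g : κ → ℤ) (y y' : (κ → Finset ι) → ℝ) (m : ℤ) :
    SS q g (fun T => y T - y' T) m = SS q g y m - SS q g y' m := by
  simp [SS, sub_mul]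

theorem SS_sum {α : Type} (s : Finset α) (q : ι → ℕ) (g : κ → ℤ) (y : α → (κ → Finset ι) → ℝ)
    (m : ℤ) : SS q g (fun T => ∑ k ∈ s, y k T) m = ∑ k ∈ s, SS q g (y k) m := by
  simp only [SS, sum_mul]; rw [sum_comm]

theorem og_ok {g : κ → ℤ} (hg : Function.Injective g) (hg8 : ∀ j, g j ≠ 0 ∧ |g j| ≤ 8) :
    Function.Injective (og g) ∧ ∀ j, |og g j| ≤ 8 := by
  refine ⟨?_, ?_⟩
  · rintro (_ | i) (_ | j) h
    · rfl
    · exact absurd h.symm (hg8 j).1
    · exact absurd h (hg8 i).1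
    · exact congrArg some (hg h)
  · rintro (_ | j)
    · simp [og]
    · exact (hg8 j).2

theorem abs_wts_le (q : ι → ℕ) (hq : ∀ i, 2 ≤ q i) (y y' : (κ → Finset ι) → ℝ) {c : ℝ}
    (h : ∑ T, y T * y T * wts q T ≤ c) (h' : ∑ T, y' T * y' T * wts q T ≤ c) :
    |∑ T, y T * y' T * wts q T| ≤ c := by
  refine (abs_sum_le_sum_abs _ _).trans (le_trans (sum_le_sum (g := fun T =>
    (y T * y T * wts q T + y' T * y' T * wts q T) / 2) fun T _ => ?_) ?_)
  · have h0 := wts_nonneg q hq T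
    rw [abs_mul, abs_of_nonneg h0, ← add_mul, mul_div_right_comm]
    refine mul_le_mul_of_nonneg_right (abs_le.2 ⟨?_, ?_⟩) h0
    · nlinarith [sq_nonneg (y T + y' T)]
    · nlinarith [sq_nonneg (y T - y' T)]
  · rw [← sum_div, sum_add_distrib]; linarith

end

section
variable {κ : Type} [Fintype κ] [DecidableEq κ]

theorem wts_le (D : ℕ) : ∀ᶠ x : ℕ in atTop, ∀ (y : (κ → Finset (PP D x)) → ℝ) (c : ℝ),
    (∀ T, |y T| ≤ c) → (∀ T, y T ≠ 0 → lgs (qq D x) T ≤ 1 / 2 * Real.log x) →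
    ∑ T, y T * y T * wts (qq D x) T ≤ c ^ 2 * (3 * BB D x ^ Fintype.card κ) := by
  filter_upwards [Zf_le D, Meas.L_pos] with x hZ hL y c hy hs
  have hc0 : 0 ≤ c := (abs_nonneg _).trans (hy fun _ => ∅)
  have hB := Meas.BB_nonneg D x
  rcases hc0.eq_or_lt with rfl | hc
  · have : ∀ T, y T = 0 := fun T => abs_nonpos_iff.1 (hy T)
    simp [this]
  have hb : ∀ T, |c⁻¹ * y T| ≤ 1 := fun T => by
    rw [abs_mul, abs_of_pos (inv_pos.2 hc), inv_mul_le_iff₀ hc, mul_one]; exact hy T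
  have h2 := sum_wts_le (qq D x) (qq_two D x) _ hb (s := 2 * (Real.log x)⁻¹) (by positivity)
    fun T h => hs T (right_ne_zero_of_mul h)
  have h3 : Real.exp (2 * (Real.log x)⁻¹ * (1 / 2 * Real.log x)) ≤ 3 :=
    exp_le_three (by field_simp; norm_num)
  have h4 := one_le_Zf (qq D x) (qq_two D x) (2 * (Real.log x)⁻¹)
  have h5 : ∑ T, c⁻¹ * y T * (c⁻¹ * y T) * wts (qq D x) T ≤ 3 * BB D x ^ Fintype.card κ :=
    h2.trans (by gcongr)
  rw [← inv_mul_le_iff₀ (by positivity), mul_sum]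
  exact le_trans (le_of_eq (sum_congr rfl fun T _ => by rw [← inv_pow]; ring)) h5

/-- Type I estimate with one short factor. -/
theorem TT {D : ℕ} (hD : 16 ≤ D) (hκ : Fintype.card κ ≤ 3) {g : κ → ℤ}
    (hg : Function.Injective g) (hg8 : ∀ j, g j ≠ 0 ∧ |g j| ≤ 8) (a : ℕ) :
    ∀ᶠ x : ℕ in atTop, ∀ (E0 : Finset (PP D x)) (N1 N2 : ℕ) (r : Finset (PP D x) → ℝ) (c : ℝ)
      (y y' : (κ → Finset (PP D x)) → ℝ), E0.card ≤ 1 → N1 ≤ N2 → 0 < c → (∀ T, |r T| ≤ c) →
      (∀ T, r T ≠ 0 → (∀ i ∈ E0, i ∉ T) ∧ lg (qq D x) T ≤ 1 / 20 * Real.log x) →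
      (∀ T, |y T| ≤ 1) → (∀ T, |y' T| ≤ 1) →
      (∀ T, y T ≠ 0 → lgs (qq D x) T ≤ 2 / 5 * Real.log x) →
      (∀ T, y' T ≠ 0 → lgs (qq D x) T ≤ 2 / 5 * Real.log x) →
      |∑ m ∈ Ioc N1 N2 with m ≡ a [MOD primorial D] ∧ ∀ i ∈ E0, qq D x i ∣ m,
          S0 (qq D x) r m ^ 2 * (SS (qq D x) g y m * SS (qq D x) g y' m) -
        ((N2 : ℝ) - N1) / (primorial D * ∏ i ∈ E0, (qq D x i : ℝ)) *
          ((∑ T, r T * r T * wt (qq D x) T) * ∑ T, y T * y' T * wts (qq D x) T)| ≤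
        c ^ 2 * (((N2 : ℝ) - N1) / (primorial D * ∏ i ∈ E0, (qq D x i : ℝ)) *
          (eD D * BB D x ^ (Fintype.card κ + 1)) + (x : ℝ) ^ (901 / 1000 : ℝ)) := by
  filter_upwards [Zf_le D, Meas.L_pos, eventually_gt_atTop 0, const_le_rpow
    (4 * Real.exp (768 * ∑' n : ℕ, (n : ℝ) ^ (-(2001 / 2000 : ℝ))))
    (show (0 : ℝ) < 1 / 10000 by norm_num)] with x hZ hL hx hC E0 N1 N2 r c y y' hE hN hc hr hrs
    hy hy' hs hs'
  have hb : ∀ T, |c⁻¹ * r T| ≤ 1 := fun T => by
    rw [abs_mul, abs_of_pos (inv_pos.2 hc), inv_mul_le_iff₀ hc, mul_one]; exact hr T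
  have ht : ∀ y : (κ → Finset (PP D x)) → ℝ, (∀ T, |y T| ≤ 1) →
      ∀ T, |tens (fun T => c⁻¹ * r T) y T| ≤ 1 := fun y hy T => by
    rw [tens, abs_mul]; exact mul_le_one₀ (hb _) (abs_nonneg _) (hy _)
  have hl : ∀ y : (κ → Finset (PP D x)) → ℝ,
      (∀ T, y T ≠ 0 → lgs (qq D x) T ≤ 2 / 5 * Real.log x) →
      ∀ T, tens (fun T => c⁻¹ * r T) y T ≠ 0 → (∀ i ∈ E0, i ∉ T none) ∧
        lgs (qq D x) T ≤ 45 / 100 * Real.log x := fun y hy T h => by
    have h1 := hrs _ (right_ne_zero_of_mul (left_ne_zero_of_mul h))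
    have h2 := hy _ (right_ne_zero_of_mul h)
    exact ⟨h1.1, by rw [lgs_option]; linarith [h1.2]⟩
  have key := typeI (qq D x) (gr_prime D x) (qq_inj D x) hD (gr_gt D x) (primorial_ne_zero D)
    (qq_cop D x) (κ := Option κ) (by rw [Fintype.card_option]; omega) (og_ok hg hg8).1 (og_ok hg hg8).2
    (j0 := none) rfl E0 a hN _ _ (ht y hy) (ht y' hy') (fun T h => (hl y hs T h).1)
    (fun T h => (hl y' hs' T h).1)
    (s := (Real.log x)⁻¹) (σ := 2001 / 2000) (Λ := 90 / 100 * Real.log x) (by positivity)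
    (by norm_num) fun T U h h' => by linarith [(hl y hs T h).2, (hl y' hs' U h').2]
  simp only [SS_tens, sum_tens, Fintype.card_option] at key
  rw [← inv_mul_le_iff₀ (by positivity), ← abs_of_pos (show 0 < (c ^ 2)⁻¹ by positivity),
    ← abs_mul]
  refine le_trans (le_of_eq ?_) (key.trans (add_le_add ?_ ?_))
  · congr 1
    rw [mul_sub, mul_sum]
    congr 1
    · refine sum_congr rfl fun m _ => ?_
      simp only [S0, mul_assoc c⁻¹, ← mul_sum, ← inv_pow]; ring
    · rw [show ∑ T, c⁻¹ * r T * (c⁻¹ * r T) * wt (qq D x) T =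
        (c ^ 2)⁻¹ * ∑ T, r T * r T * wt (qq D x) T by
          rw [mul_sum]; exact sum_congr rfl fun T _ => by rw [← inv_pow]; ring]
      ring
  · refine mul_le_mul_of_nonneg_left ?_
      (div_nonneg (sub_nonneg.2 (by exact_mod_cast hN)) (by positivity))
    have h1 : Real.exp ((Real.log x)⁻¹ * (90 / 100 * Real.log x)) ≤ 3 :=
      exp_le_three (by field_simp; norm_num)
    have h2 := one_le_Zf (qq D x) (qq_two D x) (2 * (Real.log x)⁻¹)
    have h3 : (E0.card : ℝ) ≤ 1 := by exact_mod_cast hE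
    have h4 : Real.exp (256 * ((2000 + 2 * (E0.card : ℝ)) / D)) ≤ Real.exp (256 * (2002 / D)) := by
      gcongr; linarith
    have h5 : 1 ≤ Real.exp (256 * ((2000 + 2 * (E0.card : ℝ)) / D)) :=
      Real.one_le_exp (by positivity)
    calc _ ≤ 3 * (BB D x ^ (Fintype.card κ + 1) * (Real.exp (256 * (2002 / D)) - 1)) := by
          have := Meas.BB_nonneg D x
          gcongr
      _ = _ := by unfold eD; ring
  · rw [mul_right_comm]
    refine (mul_le_mul_of_nonneg_right hC (Real.exp_pos _).le).trans ?_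
    rw [rpow_eq_exp hx, rpow_eq_exp hx, ← Real.exp_add, Real.exp_le_exp]
    nlinarith

theorem crude' (D : ℕ) (hκ : Fintype.card κ ≤ 4) {g : κ → ℤ} (hg8 : ∀ j, |g j| ≤ 8) {b : ℝ}
    (hb : 0 < b) :
    ∀ᶠ x : ℕ in atTop, ∀ m ∈ Ioc x (2 * x), ∀ y : (κ → Finset (PP D x)) → ℝ,
      (∀ T, |y T| ≤ 1) → (∀ T, y T ≠ 0 → lgs (qq D x) T ≤ 1 / 2 * Real.log x) →
      |SS (qq D x) g y m| ≤ (x : ℝ) ^ (16 * b) := by
  obtain ⟨C, hC, h⟩ := pow_card_le 2 b one_le_two hb
  filter_upwards [Zf_le D, Meas.L_pos, eventually_gt_atTop 8, const_le_rpow (C * 3 ^ b / b) hb,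
    const_le_rpow 3 (show 0 < 4 * b by positivity)] with x hZ hl hx h1 h2 m hm y hy hs
  have hx' : (0 : ℝ) < x := by positivity
  have hx1 : (1 : ℝ) ≤ x := by exact_mod_cast (by omega : 1 ≤ x)
  refine (abs_SS_le (qq D x) (qq_two D x) g y hy (s := 2 * (Real.log x)⁻¹) (by positivity)
    hs m).trans ?_
  have h3 : Real.exp (2 * (Real.log x)⁻¹ * (1 / 2 * Real.log x)) ≤ 3 :=
    exp_le_three (by field_simp; norm_num)
  have h4 := one_le_Zf (qq D x) (qq_two D x) (2 * (Real.log x)⁻¹)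
  have h5 : Zf (qq D x) (2 * (Real.log x)⁻¹) ≤ (x : ℝ) ^ b / b :=
    hZ.trans ((BB_le D x).trans (Real.log_le_rpow_div hx'.le hb))
  refine (mul_le_mul (h3.trans h2) (prod_le_prod (g := fun _ => (x : ℝ) ^ (3 * b))
    (fun _ _ => by positivity) fun j _ => ?_) (by positivity) (by positivity)).trans ?_
  · obtain ⟨a1, a2⟩ := mem_Ioc.1 hm
    obtain ⟨a3, a4⟩ := abs_le.1 (hg8 j)
    obtain ⟨n, hn⟩ := Int.eq_ofNat_of_zero_le (show 0 ≤ (m : ℤ) + g j by omega)
    have hn0 : n ≠ 0 := by omega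
    have a5 : ((∏ p ∈ n.primeFactors, p : ℕ) : ℝ) ≤ 3 * x := by
      have := Nat.le_of_dvd (Nat.pos_of_ne_zero hn0) (Nat.prod_primeFactors_dvd n)
      exact_mod_cast (by omega : ∏ p ∈ n.primeFactors, p ≤ 3 * x)
    have a6 := h n.primeFactors fun p hp => (Nat.prime_of_mem_primeFactors hp).two_le
    rw [← Nat.cast_prod] at a6
    have a7 := card_dvd_le (qq D x) (gr_prime D x) (qq_inj D x) hn0
    rw [hn]
    calc _ ≤ C * (3 * x : ℝ) ^ b * ((x : ℝ) ^ b / b) := by
          gcongr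
          exact (pow_le_pow_right₀ one_le_two a7).trans (a6.trans (by gcongr))
      _ = C * 3 ^ b / b * ((x : ℝ) ^ b * (x : ℝ) ^ b) := by
          rw [Real.mul_rpow (by norm_num) hx'.le]; ring
      _ ≤ (x : ℝ) ^ b * ((x : ℝ) ^ b * (x : ℝ) ^ b) := by gcongr
      _ = _ := by rw [← Real.rpow_add hx', ← Real.rpow_add hx']; ring_nf
  · rw [prod_const, ← Real.rpow_mul_natCast hx'.le, ← Real.rpow_add hx', card_univ]
    have : (Fintype.card κ : ℝ) ≤ 4 := by exact_mod_cast hκ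
    exact Real.rpow_le_rpow_of_exponent_le hx1 (by nlinarith)

open Classical in
/-- The bilinear estimate with its main term evaluated, for any index set of three forms. -/
theorem bv3 {D : ℕ} (hD : 16 ≤ D) (hκ : Fintype.card κ = 3) {η δ ε : ℝ} (hη : 0 < η)
    (hδ : 0 < δ) (hε : 0 < ε) {g : κ → ℤ} (hg : Function.Injective g)
    (hg8 : ∀ j, g j ≠ 0 ∧ |g j| ≤ 8) (a : ℕ) :
    ∀ᶠ x : ℕ in atTop, ∀ (y y' : (κ → Finset (PP D x)) → ℝ) (w : ℕ → ℝ) (lo hi : ℕ → ℕ),
      (∀ T, |y T| ≤ 1) → (∀ T, |y' T| ≤ 1) →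
      (∀ T U, y T ≠ 0 → y' U ≠ 0 →
        lgs (qq D x) T + lgs (qq D x) U ≤ (1 / 2 - η) * Real.log x) →
      (∀ m ∈ Icc 1 x, rough η x m → |w m| ≤ 1) →
      (∀ j, (x : ℝ) ^ η ≤ lo j + 1 ∧ (hi j : ℝ) ≤ 2 * x * Real.exp (-(j * δ))) →
      |∑ m ∈ Icc 1 x with rough η x m, ∑ p ∈ Ioc (lo (box δ m)) (hi (box δ m)) with
          p.Prime ∧ p * m ≡ a [MOD primorial D], Real.log p * w m *
            (SS (qq D x) g y (p * m : ℕ) * SS (qq D x) g y' (p * m : ℕ)) -
        (∑ T, y T * y' T * wts (qq D x) T) *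
        ∑ m ∈ Icc 1 x with rough η x m, ∑ p ∈ Ioc (lo (box δ m)) (hi (box δ m)) with
          p.Prime ∧ p * m ≡ a [MOD primorial D], Real.log p * w m| ≤
      ε * x * Real.log x ^ 3 + eD D * BB D x ^ 3 *
        |∑ m ∈ Icc 1 x with rough η x m, ∑ p ∈ Ioc (lo (box δ m)) (hi (box δ m)) with
          p.Prime ∧ p * m ≡ a [MOD primorial D], Real.log p * w m| := by
  obtain e := Fintype.equivFinOfCardEq hκ
  have hg' : Function.Injective fun j => g (e.symm j) := hg.comp e.symm.injective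
  have hg8' : ∀ j, g (e.symm j) ≠ 0 ∧ |g (e.symm j)| ≤ 8 := fun j => hg8 _
  filter_upwards [bv D hD (half_pos hη) hδ hε _ hg' hg8' a, Tbar_approx hD hg' hg8', Meas.L_pos,
    eventually_gt_atTop 1, const_le_rpow 2 (half_pos hη),
    const_le_rpow (2 * Real.exp δ) (half_pos hη)] with x h1 h2 hl hx h3 h4 y y' w lo hi hy hy' hs
    hw hb
  have hx' : (1 : ℝ) < x := by exact_mod_cast hx
  have hx0 : (0 : ℝ) < x := by linarith
  have e2 : (x : ℝ) ^ η = (x : ℝ) ^ (η / 2) * (x : ℝ) ^ (η / 2) := by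
    rw [← Real.rpow_add hx0]; ring_nf
  have e3 : (x : ℝ) ^ (η / 2) ≤ (x : ℝ) ^ η := Real.rpow_le_rpow_of_exponent_le hx'.le (by linarith)
  set P : ℕ → Finset ℕ := fun m => (Ioc (lo (box δ m)) (hi (box δ m))).filter
    fun p => p.Prime ∧ p * m ≡ a [MOD primorial D] with hP
  have b1 := h1 (fun T => y fun j => T (e j)) (fun T => y' fun j => T (e j))
    (fun m => if m ∈ Icc 1 x ∧ rough η x m ∧ (m : ℝ) ≤ (x : ℝ) ^ (1 - η / 2) then w m else 0) lo hi
    (fun _ => hy _) (fun _ => hy' _) (fun T U a1 a2 => by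
      have := hs _ _ a1 a2
      rw [lgs_re, lgs_re] at this
      nlinarith)
    (fun m => by
      split_ifs with h
      · exact hw m h.1 h.2.1
      · simp)
    (fun m hm => by
      have h := not_not.1 fun h => hm (if_neg h)
      exact ⟨e3.trans h.2.1.1, h.2.2, fun p hp => e3.trans_lt (h.2.1.2 p hp)⟩)
    fun j => ⟨by nlinarith [(hb j).1], (hb j).2⟩
  have b2 := h2 (fun T => y fun j => T (e j)) (fun T => y' fun j => T (e j))
    (fun _ => hy _) (fun _ => hy' _) fun T U a1 a2 => by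
      have := hs _ _ a1 a2
      rw [lgs_re, lgs_re] at this
      nlinarith
  rw [wts_re] at b2
  simp only [SS_re] at b1
  set Tb := Tbar (qq D x) (fun j => g (e.symm j)) (fun T => y fun j => T (e j))
    fun T => y' fun j => T (e j)
  set A := ∑ m ∈ Icc 1 x with rough η x m, ∑ p ∈ P m, Real.log p * w m with hA
  have e1 : ∑ m ∈ Icc 1 x, (if m ∈ Icc 1 x ∧ rough η x m ∧ (m : ℝ) ≤ (x : ℝ) ^ (1 - η / 2)
      then w m else 0) * ∑ p ∈ P m, Real.log p *
        (SS (qq D x) g y (p * m : ℕ) * SS (qq D x) g y' (p * m : ℕ) - Tb) =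
      ∑ m ∈ Icc 1 x with rough η x m, ∑ p ∈ P m, Real.log p * w m *
        (SS (qq D x) g y (p * m : ℕ) * SS (qq D x) g y' (p * m : ℕ)) - Tb * A := by
    rw [hA, mul_sum, ← sum_sub_distrib, sum_filter]
    refine sum_congr rfl fun m hm => ?_
    by_cases hr : rough η x m
    · rw [if_pos hr, mul_sum, mul_sum, ← sum_sub_distrib]
      refine sum_congr rfl fun p hp => ?_
      have hm0 : 0 < m := (mem_Icc.1 hm).1
      have hm' : (0 : ℝ) < m := by positivity
      obtain ⟨a1, a2⟩ := mem_Ioc.1 (mem_filter.1 hp).1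
      have a3 : (x : ℝ) ^ η ≤ p := (hb _).1.trans (by exact_mod_cast a1)
      have a4 : (p : ℝ) ≤ 2 * x * Real.exp (-(box δ m * δ)) := le_trans (by exact_mod_cast a2) (hb _).2
      have a5 := (box_spec hδ hm0).2
      have a6 : Real.exp (-(box δ m * δ)) = Real.exp δ * Real.exp (-((box δ m + 1) * δ)) := by
        rw [← Real.exp_add]; ring_nf
      have a7 : (x : ℝ) ^ η * m ≤ (x : ℝ) ^ (η / 2) * x := by
        have : (p : ℝ) ≤ 2 * x * (Real.exp δ * (m : ℝ)⁻¹) := by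
          rw [a6] at a4; exact a4.trans (by gcongr)
        have a8 : (p : ℝ) * m ≤ 2 * Real.exp δ * x := by
          rw [← mul_assoc, le_mul_inv_iff₀ hm'] at this; linarith
        exact (mul_le_mul_of_nonneg_right a3 hm'.le).trans (a8.trans (by gcongr))
      have a9 : (m : ℝ) ≤ (x : ℝ) ^ (1 - η / 2) := by
        rw [Real.rpow_sub hx0, Real.rpow_one, le_div_iff₀ (by positivity)]
        rw [e2, mul_assoc] at a7
        have := le_of_mul_le_mul_left a7 (by positivity)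
        linarith
      rw [if_pos ⟨hm, hr, a9⟩]; ring
    · rw [if_neg hr, if_neg fun h => hr h.2.1, zero_mul]
  rw [e1] at b1
  have b3 := mul_le_mul_of_nonneg_right b2 (abs_nonneg A)
  rw [← abs_mul] at b3
  refine le_trans ?_ (add_le_add b1 b3)
  refine le_trans (le_of_eq ?_) (abs_add_le _ _)
  congr 1; ring

end

open Classical in
theorem reindex (η δ : ℝ) (x W a : ℕ) (lo hi : ℕ → ℕ) (F : ℕ → ℕ → ℝ) :
    ∑ n ∈ Ioc x (2 * x) with n ≡ a [MOD W], ∑ p ∈ n.primeFactors with rough η x (n / p) ∧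
        p ∈ Ioc (lo (box δ (n / p))) (hi (box δ (n / p))), F p (n / p) =
      ∑ m ∈ Icc 1 x with rough η x m, ∑ p ∈ Ioc (lo (box δ m)) (hi (box δ m)) with
        (p.Prime ∧ p * m ≡ a [MOD W]) ∧ p * m ∈ Ioc x (2 * x), F p m := by
  rw [sum_sigma', sum_sigma']
  refine sum_nbij' (fun z => ⟨z.1 / z.2, z.2⟩) (fun z => ⟨z.2 * z.1, z.2⟩) ?_ ?_ ?_ ?_ ?_
  · rintro ⟨m, p⟩ h
    simp only [mem_sigma, mem_filter, Nat.mem_primeFactors, mem_Icc] at h ⊢
    obtain ⟨⟨h1, h2⟩, ⟨hp, hd, h0⟩, h3, h4⟩ := h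
    have h5 := (mem_Ioc.1 h1).2
    rw [Nat.mul_div_cancel' hd]
    refine ⟨⟨⟨Nat.div_pos (Nat.le_of_dvd (Nat.pos_of_ne_zero h0) hd) hp.pos, ?_⟩, h3⟩, h4,
      ⟨hp, h2⟩, h1⟩
    exact Nat.div_le_of_le_mul (h5.trans (Nat.mul_le_mul_right _ hp.two_le))
  · rintro ⟨m, p⟩ h
    simp only [mem_sigma, mem_filter, Nat.mem_primeFactors, mem_Icc] at h ⊢
    obtain ⟨⟨⟨h1, -⟩, h2⟩, h3, ⟨hp, h4⟩, h5⟩ := h
    rw [Nat.mul_div_cancel_left _ hp.pos]
    exact ⟨⟨h5, h4⟩, ⟨hp, dvd_mul_right _ _, by have := (mem_Ioc.1 h5).1; omega⟩, h2, h3⟩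
  · rintro ⟨m, p⟩ h
    simp only [mem_sigma, mem_filter, Nat.mem_primeFactors] at h
    simp only [Nat.mul_div_cancel' h.2.1.2.1]
  · rintro ⟨m, p⟩ h
    simp only [mem_sigma, mem_filter] at h
    simp only [Nat.mul_div_cancel_left _ h.2.2.1.1.pos]
  · rintro ⟨m, p⟩ h
    rfl

theorem small' (D : ℕ) {θ ε : ℝ} (hθ : θ < 1) (hε : 0 < ε) : ∀ᶠ x : ℕ in atTop,
    (x : ℝ) ^ θ ≤ ε * (x / primorial D) := by
  have hW : (0 : ℝ) < primorial D := by exact_mod_cast primorial_pos D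
  filter_upwards [eventually_gt_atTop 0,
    const_le_rpow (primorial D / ε) (sub_pos.2 hθ)] with x hx h
  have hx' : (0 : ℝ) < x := by positivity
  rw [Real.rpow_sub hx', Real.rpow_one, div_le_div_iff₀ hε (by positivity)] at h
  rw [← mul_div_assoc, le_div_iff₀ hW]; linarith

/-- Pointwise upper limits are uniform for equicontinuous families. -/
theorem unif_le {F : ℕ → ℝ → ℝ} {l : ℝ → ℝ} {a b : ℝ} (hl : Continuous l)
    (h : ∀ s ∈ Set.Icc a b, Tendsto (fun x => F x s) atTop (𝓝 (l s)))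
    (he : ∀ ε > 0, ∃ δ > 0, ∀ᶠ x in atTop, ∀ s ∈ Set.Icc a b, ∀ t ∈ Set.Icc a b,
      |s - t| ≤ δ → F x s ≤ F x t + ε) {ε : ℝ} (hε : 0 < ε) :
    ∀ᶠ x in atTop, ∀ s ∈ Set.Icc a b, F x s ≤ l s + ε := by
  obtain ⟨δ, hδ, h1⟩ := he (ε / 3) (by positivity)
  suffices H : ∀ᶠ x in atTop, ∀ s ∈ Set.Icc a b, s ∈ Set.Icc a b → F x s ≤ l s + ε from
    H.mono fun x hx s hs => hx s hs hs
  refine isCompact_Icc.induction_on
    (p := fun S => ∀ᶠ x in atTop, ∀ s ∈ S, s ∈ Set.Icc a b → F x s ≤ l s + ε)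
    (by simp) (fun S S' hS h => h.mono fun x hx a ha => hx a (hS ha))
    (fun S S' h h' => (h.and h').mono fun x hx a ha => ha.elim (hx.1 a) (hx.2 a)) fun t ht => ?_
  obtain ⟨δ', hδ', h2⟩ := Metric.continuous_iff.1 hl t (ε / 3) (by positivity)
  refine ⟨Metric.ball t (min δ δ'), nhdsWithin_le_nhds (Metric.ball_mem_nhds _ (lt_min hδ hδ')), ?_⟩
  filter_upwards [h1, (h t ht).eventually_le_const (lt_add_of_pos_right _
    (show 0 < ε / 3 by positivity))] with x h3 h4 s hs hs'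
  have h5 := Metric.mem_ball.1 hs
  have h6 := h2 s (h5.trans_le (min_le_right _ _))
  rw [Real.dist_eq] at h5 h6
  have h7 := h3 s hs' t ht (h5.le.trans (min_le_left _ _))
  linarith [(abs_lt.1 h6).1]

/-- Convolution with the logarithmic density of the large primes. -/
noncomputable def Psi (α : ℝ) (ψ : ℝ → ℝ) (s : ℝ) : ℝ := ∫ t in α..1, ψ (s + t) / max t α

theorem Psi_cont {α : ℝ} (hα : 0 < α) {ψ : ℝ → ℝ} (hψ : Continuous ψ) : Continuous (Psi α ψ) :=
  intervalIntegral.continuous_parametric_intervalIntegral_of_continuous' (by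
    unfold Function.uncurry
    exact (hψ.comp (by fun_prop)).div (by fun_prop)
      fun z => (hα.trans_le (le_max_right _ _)).ne') _ _

theorem Psi_nonneg {α : ℝ} (hα : 0 < α) (hα1 : α ≤ 1) {ψ : ℝ → ℝ} (hψ : ∀ s, 0 ≤ ψ s) (s : ℝ) :
    0 ≤ Psi α ψ s :=
  intervalIntegral.integral_nonneg hα1 fun _ _ =>
    div_nonneg (hψ _) (hα.le.trans (le_max_right _ _))

theorem inv_sum_le (D : ℕ) {α : ℝ} (hα : 0 < α) : ∀ᶠ x : ℕ in atTop,
    ∑ i : PP D x with α < Real.log (qq D x i) / Real.log x ∧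
      Real.log (qq D x i) / Real.log x ≤ 1, (qq D x i : ℝ)⁻¹ ≤ 2 / α := by
  filter_upwards [pi_bdd D, Meas.L_pos] with x h3 hl
  rw [le_div_iff₀ hα, sum_mul]
  refine le_trans (sum_le_sum fun i hi => ?_) (le_trans (sum_le_sum_of_subset_of_nonneg
    (fun i hi => mem_filter.2 ⟨mem_univ _, (mem_filter.1 hi).2.2⟩)
    fun i _ _ => ((conv_pi D).1 x i (mem_univ _)).1) h3)
  beta_reduce
  rw [mul_comm (qq D x i : ℝ), ← div_div, mul_comm, ← div_eq_mul_inv]
  gcongr
  exact (mem_filter.1 hi).2.1.le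

theorem primeConv (D : ℕ) {α : ℝ} (hα : 0 < α) (hα1 : α ≤ 1) {ψ : ℝ → ℝ} (hψ : Continuous ψ)
    {ε : ℝ} (hε : 0 < ε) : ∀ᶠ x : ℕ in atTop, ∀ s ∈ Set.Icc (0 : ℝ) 2,
      ∑ i : PP D x with α < Real.log (qq D x i) / Real.log x ∧
        Real.log (qq D x i) / Real.log x ≤ 1,
        (qq D x i : ℝ)⁻¹ * ψ (s + Real.log (qq D x i) / Real.log x) ≤ Psi α ψ s + ε := by
  refine unif_le (Psi_cont hα hψ) (fun s _ => ?_) (fun ε hε => ?_) hε
  · have := (conv_pi D).Ioc hα hα1 (g := fun t => ψ (s + t) / max t α) (Continuous.continuousOn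
      ((hψ.comp (by fun_prop)).div (by fun_prop) fun z => (hα.trans_le (le_max_right _ _)).ne'))
    simp only [mul_one] at this
    refine this.congr' (Meas.L_pos.mono fun x hl => sum_congr rfl fun i hi => ?_)
    have h1 := (mem_filter.1 hi).2.1
    have h2 : 0 < Real.log (qq D x i) := Real.log_pos (by linarith [Meas.two_le D x i])
    have h3 : (0 : ℝ) < qq D x i := by linarith [Meas.two_le D x i]
    rw [max_eq_left h1.le]; field_simp
  · obtain ⟨δ, hδ, h⟩ := Metric.uniformContinuousOn_iff_le.1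
      ((isCompact_Icc (a := (0 : ℝ)) (b := 3)).uniformContinuousOn_of_continuous hψ.continuousOn)
      (ε * α / 2) (by positivity)
    refine ⟨δ, hδ, (inv_sum_le D hα).mono fun x hx s hs t ht hst => ?_⟩
    have h1 := mul_le_mul_of_nonneg_right hx (show 0 ≤ ε * α / 2 by positivity)
    rw [show 2 / α * (ε * α / 2) = ε by field_simp, sum_mul] at h1
    refine le_trans ?_ (add_le_add le_rfl h1)
    rw [← sum_add_distrib]
    refine sum_le_sum fun i hi => ?_
    obtain ⟨a1, a2⟩ := (mem_filter.1 hi).2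
    have := h _ ⟨by linarith [hs.1], by linarith [hs.2]⟩ _ ⟨by linarith [ht.1], by linarith [ht.2]⟩
      (show dist (s + Real.log (qq D x i) / Real.log x) (t + Real.log (qq D x i) / Real.log x) ≤ δ by
        rwa [dist_add_right, Real.dist_eq])
    rw [Real.dist_eq] at this
    rw [← mul_add]
    exact mul_le_mul_of_nonneg_left (by linarith [(abs_le.1 this).2]) (by positivity)

end Pool.Agent.Lib.MP_fc51f7_nt.Pr
end

-- part Pool.Agent.Lib.MP_fc51f7_nt.PrB
section

/-! Sieve sums over primes: a Bombieri-Vinogradov type asymptotic formula. -/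

set_option autoImplicit false
set_option linter.unusedSectionVars false

namespace Pool.Agent.Lib.MP_fc51f7_nt.Pr

open Finset Filter Topology

noncomputable def uu (D x : ℕ) (i : PP D x) : ℝ := Real.log (qq D x i) / Real.log x

noncomputable def sm (D x : ℕ) (η : ℝ) : Finset (PP D x) := univ.filter fun i => uu D x i ≤ η

noncomputable def rr (D x : ℕ) (η : ℝ) (T : Finset (PP D x)) : ℝ :=
  if T ⊆ sm D x η then max 0 (1 - 40 * (lg (qq D x) T / Real.log x)) else 0

noncomputable def Sc (D x : ℕ) (η : ℝ) : ℝ := ∑ T, rr D x η T * wt (qq D x) T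

noncomputable def Si (D x : ℕ) (η : ℝ) : ℝ := ∑ T ∈ (sm D x η).powerset, wt (qq D x) T

/-- A weight equal to one on rough integers. -/
noncomputable def nu (D x : ℕ) (η : ℝ) (n : ℕ) : ℝ :=
  (S0 (qq D x) (rr D x η) n / Sc D x η) ^ 2

theorem sum_wt_lg {ι : Type} [DecidableEq ι] (q : ι → ℕ) (hq : ∀ i, 2 ≤ q i) (s : Finset ι) :
    ∑ T ∈ s.powerset, wt q T * lg q T ≤
      (∑ i ∈ s, Real.log (q i) * ((q i : ℝ) - 1)⁻¹) * ∑ T ∈ s.powerset, wt q T := by
  have h0 : ∀ i, 0 ≤ ((q i : ℝ) - 1)⁻¹ := fun i => inv_nonneg.2 (by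
    have : (2 : ℝ) ≤ q i := by exact_mod_cast hq i
    linarith)
  induction s using Finset.induction_on with
  | empty => simp [lg]
  | insert a s ha ih =>
    have e1 : ∀ T ∈ s.powerset, wt q (insert a T) = ((q a : ℝ) - 1)⁻¹ * wt q T := fun T hT =>
      prod_insert fun h => ha (mem_powerset.1 hT h)
    have e2 : ∀ T ∈ s.powerset, lg q (insert a T) = Real.log (q a) + lg q T := fun T hT =>
      sum_insert fun h => ha (mem_powerset.1 hT h)
    rw [sum_powerset_insert ha, sum_powerset_insert ha, sum_insert ha, sum_congr rfl e1,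
      sum_congr rfl (f := fun T => wt q (insert a T) * lg q (insert a T))
        (g := fun T => ((q a : ℝ) - 1)⁻¹ * Real.log (q a) * wt q T +
        ((q a : ℝ) - 1)⁻¹ * (wt q T * lg q T)) fun T hT => by rw [e1 T hT, e2 T hT]; ring,
      sum_add_distrib, ← mul_sum, ← mul_sum, ← mul_sum]
    have h1 : 0 ≤ ∑ T ∈ s.powerset, wt q T := sum_nonneg fun T _ => prod_nonneg fun i _ => h0 i
    have h2 := mul_le_mul_of_nonneg_left ih (h0 a)
    have h3 := mul_nonneg (mul_nonneg (mul_nonneg (h0 a) (h0 a))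
      (Real.log_natCast_nonneg (q a))) h1
    nlinarith

theorem rr_mem (D x : ℕ) (η : ℝ) (T : Finset (PP D x)) : 0 ≤ rr D x η T ∧ rr D x η T ≤ 1 := by
  have := div_nonneg (lg_nonneg (qq D x) T) (Real.log_natCast_nonneg x)
  unfold rr; split_ifs
  · exact ⟨le_max_left _ _, max_le zero_le_one (by linarith)⟩
  · simp

theorem rr_supp {D x : ℕ} {η : ℝ} {T : Finset (PP D x)} (hl : 0 < Real.log x)
    (h : rr D x η T ≠ 0) : T ⊆ sm D x η ∧ lg (qq D x) T ≤ 1 / 20 * Real.log x := by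
  unfold rr at h
  split_ifs at h with h1
  · refine ⟨h1, not_lt.1 fun h2 => h (max_eq_left ?_)⟩
    have := (lt_div_iff₀ hl).2 h2
    linarith
  · exact absurd rfl h

theorem uu_pos {D x : ℕ} (hl : 0 < Real.log x) (i : PP D x) : 0 < uu D x i :=
  div_pos (Real.log_pos (by linarith [Meas.two_le D x i])) hl

theorem lg_insert {D x : ℕ} {i : PP D x} {T : Finset (PP D x)} (h : i ∉ T) :
    lg (qq D x) (insert i T) / Real.log x = lg (qq D x) T / Real.log x + uu D x i := by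
  rw [lg, sum_insert h, add_div, add_comm]; rfl

theorem dif_rr {D x : ℕ} {η : ℝ} (hl : 0 < Real.log x) {i : PP D x} (hi : i ∈ sm D x η)
    (T : Finset (PP D x)) : |dif (rr D x η) i T| ≤ 40 * uu D x i ∧ (dif (rr D x η) i T ≠ 0 →
      i ∉ T ∧ T ⊆ sm D x η ∧ lg (qq D x) T ≤ 1 / 20 * Real.log x) := by
  have hu := uu_pos hl i
  unfold dif
  split_ifs with h
  · exact ⟨by simp only [abs_zero]; positivity, fun h => absurd rfl h⟩
  refine ⟨?_, fun h1 => ⟨h, ?_⟩⟩
  · unfold rr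
    by_cases h2 : T ⊆ sm D x η
    · rw [if_pos h2, if_pos (insert_subset hi h2), lg_insert h, max_comm, max_comm 0]
      refine (abs_max_sub_max_le_abs _ _ _).trans (le_of_eq ?_)
      rw [show ∀ a b : ℝ, 1 - 40 * a - (1 - 40 * (a + b)) = 40 * b from fun a b => by ring,
        abs_of_pos (by positivity)]
    · rw [if_neg h2, if_neg fun h3 => h2 ((subset_insert _ _).trans h3)]
      simp only [sub_zero, abs_zero]; positivity
  · by_cases h2 : rr D x η T = 0
    · have := rr_supp hl (show rr D x η (insert i T) ≠ 0 by simpa [h2] using h1)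
      refine ⟨(subset_insert _ _).trans this.1, le_trans ?_ this.2⟩
      rw [lg, lg, sum_insert h]
      exact le_add_of_nonneg_left (Real.log_natCast_nonneg _)
    · exact rr_supp hl h2

theorem sm_sum (D : ℕ) {η : ℝ} (hη : 0 < η) : ∀ᶠ x : ℕ in atTop,
    ∑ i ∈ sm D x η, uu D x i / qq D x i ≤ 2 * η := by
  have := (conv_pi D).le hη (g := fun _ => 1) continuousOn_const
  simp only [mul_one, zero_add, intervalIntegral.integral_const, sub_zero, smul_eq_mul] at this
  filter_upwards [this.eventually_le_const (show η < 2 * η by linarith)] with x h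
  refine le_trans (le_of_eq (sum_congr rfl fun i _ => ?_)) h
  rw [uu, div_div, mul_comm]

theorem Sc_ge (D : ℕ) {η : ℝ} (hη : 0 < η) (hη' : η ≤ 1 / 1000) : ∀ᶠ x : ℕ in atTop,
    Si D x η ≤ 2 * Sc D x η ∧ η * BB D x ≤ 4 * Sc D x η ∧ 1 ≤ Sc D x η := by
  have := (conv_nu D).le hη (g := fun _ => 1) continuousOn_const
  simp only [mul_one, zero_add, intervalIntegral.integral_const, sub_zero, smul_eq_mul] at this
  filter_upwards [this.eventually_const_le (show η / 2 < η by linarith), sm_sum D hη, Meas.L_pos,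
    Meas.BB_pos D, (BB_tendsto D).eventually_ge_atTop (4 / η)] with x h1 h2 hl hB h3
  have h0 := wt_nonneg (qq D x) (qq_two D x)
  have hS : 0 ≤ Si D x η := sum_nonneg fun T _ => h0 T
  have a1 : Si D x η ≤ 2 * Sc D x η := by
    have b1 := sum_wt_lg (qq D x) (qq_two D x) (sm D x η)
    have b2 : ∑ i ∈ sm D x η, Real.log (qq D x i) * ((qq D x i : ℝ) - 1)⁻¹ ≤
        2 * Real.log x * (2 * η) := by
      refine le_trans ?_ (mul_le_mul_of_nonneg_left h2 (by positivity))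
      rw [mul_sum]
      refine sum_le_sum fun i _ => ?_
      have := Meas.two_le D x i
      have c1 : ((qq D x i : ℝ) - 1)⁻¹ ≤ 2 / qq D x i := by
        rw [inv_eq_one_div, div_le_div_iff₀ (by linarith) (by linarith)]; linarith
      refine (mul_le_mul_of_nonneg_left c1 (Real.log_natCast_nonneg _)).trans (le_of_eq ?_)
      unfold uu; field_simp
    have b3 : Si D x η - 40 / Real.log x * ∑ T ∈ (sm D x η).powerset,
        wt (qq D x) T * lg (qq D x) T ≤ Sc D x η := by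
      rw [Si, mul_sum, ← sum_sub_distrib]
      refine le_trans (sum_le_sum fun T hT => ?_) (sum_le_sum_of_subset_of_nonneg (subset_univ _)
        fun T _ _ => mul_nonneg (rr_mem D x η T).1 (h0 T))
      rw [rr, if_pos (mem_powerset.1 hT)]
      refine le_trans (le_of_eq ?_) (mul_le_mul_of_nonneg_right (le_max_right _ _) (h0 T))
      ring
    have b4 := mul_le_mul_of_nonneg_left (b1.trans (mul_le_mul_of_nonneg_right b2 hS))
      (show 0 ≤ 40 / Real.log x by positivity)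
    have b5 := b4.trans (le_of_eq (show 40 / Real.log x * (2 * Real.log x * (2 * η) *
      Si D x η) = 160 * η * Si D x η by field_simp; ring))
    nlinarith
  have a2 : η * BB D x ≤ 2 * Si D x η := by
    rw [← sum_div, le_div_iff₀ hB] at h1
    refine le_trans (by linarith) (mul_le_mul_of_nonneg_left (h1.trans
      (sum_le_sum_of_subset_of_nonneg (fun T hT => mem_powerset.2 fun i hi => ?_)
        fun T _ _ => h0 T)) zero_le_two)
    refine mem_filter.2 ⟨mem_univ _, le_trans ?_ (mem_filter.1 hT).2⟩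
    exact div_le_div_of_nonneg_right (single_le_sum (f := fun i => Real.log (qq D x i))
      (fun _ _ => Real.log_natCast_nonneg _) hi) hl.le
  rw [div_le_iff₀ hη] at h3
  exact ⟨a1, by linarith, by linarith⟩

theorem rr_sq (D x : ℕ) (η : ℝ) : ∑ T, rr D x η T * rr D x η T * wt (qq D x) T ≤ Sc D x η :=
  sum_le_sum fun T _ => mul_le_mul_of_nonneg_right
    (mul_le_of_le_one_right (rr_mem D x η T).1 (rr_mem D x η T).2)
    (wt_nonneg (qq D x) (qq_two D x) T)

theorem nu_eq {D x : ℕ} {η : ℝ} (hl : 0 < Real.log x) (hS : Sc D x η ≠ 0) {n : ℕ}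
    (h : ∀ i ∈ sm D x η, ¬ qq D x i ∣ n) : nu D x η n = 1 := by
  rw [nu, show S0 (qq D x) (rr D x η) n = Sc D x η from sum_congr rfl fun T _ => ?_, div_self hS,
    one_pow]
  by_cases h1 : rr D x η T = 0
  · simp [h1]
  congr 1
  refine prod_congr rfl fun i hi => if_neg fun h2 => h i ((rr_supp hl h1).1 hi) ?_
  exact_mod_cast h2

theorem smallU (D c : ℕ) {θ ε : ℝ} (hθ : θ < 1) (hε : 0 < ε) : ∀ᶠ x : ℕ in atTop,
    (x : ℝ) ^ θ ≤ ε * (x / primorial D * (BB D x ^ c / BB D x)) := by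
  have hb : 0 < (1 - θ) / 2 := by linarith
  filter_upwards [small' D (show θ + (1 - θ) / 2 < 1 by linarith) (mul_pos hε hb),
    (BB_tendsto D).eventually_ge_atTop 1, eventually_gt_atTop 0] with x h hB hx
  have hx' : (0 : ℝ) < x := by positivity
  have h1 := (BB_le D x).trans (Real.log_le_rpow_div hx'.le hb)
  have h2 : 1 ≤ BB D x ^ c := one_le_pow₀ hB
  rw [le_div_iff₀ hb] at h1
  rw [Real.rpow_add hx'] at h
  have h3 := (mul_le_mul_of_nonneg_left h1 (show 0 ≤ (x : ℝ) ^ θ by positivity)).trans h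
  rw [← mul_div_assoc, ← mul_div_assoc, le_div_iff₀ (by linarith)]
  have h4 : (x : ℝ) ^ θ * BB D x ≤ ε * (x / primorial D) :=
    le_of_mul_le_mul_right (by linarith) hb
  exact h4.trans (by rw [← mul_assoc]; exact le_mul_of_one_le_right (by positivity) h2)

theorem nu_nonneg (D x : ℕ) (η : ℝ) (n : ℕ) : 0 ≤ nu D x η n := sq_nonneg _

theorem bd1 {δ : ℝ} (h0 : 0 < δ) (h1 : δ ≤ 1 / 1000) (x : ℕ) :
    x ≤ ⌊x * Real.exp δ⌋₊ ∧ (⌊x * Real.exp δ⌋₊ : ℝ) - x ≤ 2 * δ * x := by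
  have a1 := Real.add_one_le_exp δ
  have a2 : Real.exp δ ≤ 1 + 2 * δ := by
    have := Real.add_one_le_exp (-δ)
    rw [Real.exp_neg, le_inv_comm₀ (by linarith) (Real.exp_pos _)] at this
    refine this.trans ?_
    rw [inv_le_iff_one_le_mul₀ (by linarith)]; nlinarith
  have hx : (0 : ℝ) ≤ x := by positivity
  have := Nat.floor_le (show 0 ≤ x * Real.exp δ by positivity)
  exact ⟨Nat.le_floor (by nlinarith), by nlinarith⟩

theorem bd2 {δ : ℝ} (h0 : 0 < δ) {x : ℕ} (h1 : 1 / δ ≤ x) :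
    ⌊2 * x * Real.exp (-δ)⌋₊ ≤ 2 * x ∧
      ((2 * x : ℕ) : ℝ) - ⌊2 * x * Real.exp (-δ)⌋₊ ≤ 3 * δ * x := by
  have a1 := Real.add_one_le_exp (-δ)
  have a2 : Real.exp (-δ) ≤ 1 := Real.exp_le_one_iff.2 (by linarith)
  rw [div_le_iff₀ h0] at h1
  have hx : (0 : ℝ) ≤ x := by positivity
  have := Nat.lt_floor_add_one (2 * x * Real.exp (-δ))
  exact ⟨Nat.floor_le_of_le (by push_cast; nlinarith), by push_cast; nlinarith⟩

theorem num1 {η : ℝ} (hη : 0 < η) (hη' : η ≤ 1 / 1000) : 16 * η ≤ 1 / η ∧ η ^ 2 ≤ 1 / 1000 ∧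
    (∀ u, 0 < u → u ≤ η → (40 * u) ^ 2 ≤ 1) ∧ ∀ L, 26 / η ^ 2 ≤ L → 25 / η + η ≤ L * η := by
  refine ⟨by rw [le_div_iff₀ hη]; nlinarith, by nlinarith, fun u h1 h2 => by nlinarith,
    fun L h => ?_⟩
  rw [div_le_iff₀ (by positivity)] at h
  rw [div_add' _ _ _ hη.ne', div_le_iff₀ hη]; nlinarith

open Classical in
noncomputable def ee (D x : ℕ) (η : ℝ) (n : ℕ) : ℝ :=
  (∑ i ∈ sm D x η, if qq D x i ∣ n then 1 else 0) +
    (if ∃ p : ℕ, p.Prime ∧ η < Real.log p / Real.log x ∧ p ^ 2 ∣ n then 1 else 0) +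
    (if n ≤ ⌊x * Real.exp (η ^ 2)⌋₊ then 1 else 0) +
    (if ⌊2 * x * Real.exp (-η ^ 2)⌋₊ < n then 1 else 0)

section
variable {κ : Type} [Fintype κ] [DecidableEq κ] {D : ℕ} (hD : 16 ≤ D) (hκ : Fintype.card κ ≤ 3)
  {g : κ → ℤ} (hg : Function.Injective g) (hg8 : ∀ j, g j ≠ 0 ∧ |g j| ≤ 8) (a : ℕ) {η : ℝ}
  (hη : 0 < η) (hη' : η ≤ 1 / 1000) (he : eD D ≤ η ^ 3)
include hD hκ hg hg8 hη hη' he

theorem nuMain : ∀ᶠ x : ℕ in atTop, ∀ y y' : (κ → Finset (PP D x)) → ℝ,
    (∀ T, |y T| ≤ 1) → (∀ T, |y' T| ≤ 1) →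
    (∀ T, y T ≠ 0 → lgs (qq D x) T ≤ 2 / 5 * Real.log x) →
    (∀ T, y' T ≠ 0 → lgs (qq D x) T ≤ 2 / 5 * Real.log x) →
    |∑ m ∈ Ioc x (2 * x) with m ≡ a [MOD primorial D],
        nu D x η m * (SS (qq D x) g y m * SS (qq D x) g y' m) - x / primorial D *
        ((∑ T, rr D x η T * rr D x η T * wt (qq D x) T) / Sc D x η ^ 2) *
          ∑ T, y T * y' T * wts (qq D x) T| ≤
      17 * η * (x / primorial D * (BB D x ^ Fintype.card κ / BB D x)) := by
  filter_upwards [TT hD hκ hg hg8 a, Sc_ge D hη hη', Meas.L_pos, Meas.BB_pos D,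
    smallU D (Fintype.card κ) (show (901 / 1000 : ℝ) < 1 by norm_num) hη]
    with x h ⟨_, h2, h3⟩ hl hB h4 y y' hy hy' hs hs'
  have := h ∅ x (2 * x) (rr D x η) 1 y y' (by simp) (by omega) one_pos
    (fun T => abs_le.2 ⟨by linarith [(rr_mem D x η T).1], (rr_mem D x η T).2⟩)
    (fun T hT => ⟨by simp, (rr_supp hl hT).2⟩) hy hy' hs hs'
  simp only [notMem_empty, IsEmpty.forall_iff, implies_true, and_true, prod_empty, mul_one,
    Nat.cast_mul, Nat.cast_ofNat, show (2 : ℝ) * x - x = x by ring, one_pow, one_mul] at this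
  have hS : 0 < Sc D x η ^ 2 := by positivity
  have h5 := div_le_div_of_nonneg_right this hS.le
  rw [← abs_of_pos hS, ← abs_div, abs_of_pos hS, sub_div, sum_div] at h5
  refine le_trans (le_of_eq ?_) (h5.trans ?_)
  · congr 2
    · exact sum_congr rfl fun m _ => by rw [nu, div_pow]; ring
    · ring
  · rw [add_div]
    have h6 : (x : ℝ) ^ (901 / 1000 : ℝ) / Sc D x η ^ 2 ≤ (x : ℝ) ^ (901 / 1000 : ℝ) :=
      div_le_self (by positivity) (one_le_pow₀ h3)
    have h7 : x / primorial D * (eD D * BB D x ^ (Fintype.card κ + 1)) / Sc D x η ^ 2 ≤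
        x / primorial D * (η ^ 3 * BB D x ^ (Fintype.card κ + 1)) / (η * BB D x / 4) ^ 2 := by
      gcongr; linarith
    rw [show x / primorial D * (η ^ 3 * BB D x ^ (Fintype.card κ + 1)) / (η * BB D x / 4) ^ 2 =
      16 * η * (x / primorial D * (BB D x ^ Fintype.card κ / BB D x)) by
        field_simp; ring] at h7
    linarith

theorem errb : ∀ᶠ x : ℕ in atTop, ∀ y : (κ → Finset (PP D x)) → ℝ,
    (∀ T, |y T| ≤ 1) → (∀ T, y T ≠ 0 → lgs (qq D x) T ≤ 2 / 5 * Real.log x) →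
    ∑ m ∈ Ioc x (2 * x) with m ≡ a [MOD primorial D],
        nu D x η m * (Real.log x * ee D x η m + 1) * SS (qq D x) g y m ^ 2 ≤
      90000 * η * (Real.log x * (x / primorial D * (BB D x ^ Fintype.card κ / BB D x))) := by
  classical
  filter_upwards [TT hD hκ hg hg8 a, Sc_ge D hη hη', Meas.L_pos, Meas.BB_pos D,
    smallU D (Fintype.card κ) (show (901 / 1000 : ℝ) < 1 by norm_num) hη,
    smallU D (Fintype.card κ) (show (902 / 1000 : ℝ) < 1 by norm_num) hη,
    smallU D (Fintype.card κ) (show 1 - η / 2 < 1 by linarith) hη, wts_le (κ := κ) D,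
    sm_sum D hη, count_sq hη, crude' D (κ := Option κ) (by rw [Fintype.card_option]; omega)
      (og_ok hg hg8).2 (show 0 < η / 64 by positivity), eventually_gt_atTop 0,
    tendsto_natCast_atTop_atTop.eventually_ge_atTop (1 / η ^ 2),
    gr_logx.eventually_ge_atTop (26 / η ^ 2)]
    with x h ⟨h1, h2, h3⟩ hl hB s1 s2 s3 h4 h5 h6 h7 hx h8 h9 y hy hs
  have hx' : (0 : ℝ) < x := by positivity
  have hW : (0 : ℝ) < primorial D := by exact_mod_cast primorial_pos D
  set Q := BB D x ^ Fintype.card κ / BB D x with hQ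
  set U := x / primorial D * Q with hU
  have hQ0 : 0 ≤ Q := by positivity
  have hU0 : 0 ≤ U := by positivity
  have hM := h4 y 1 hy fun T hT => (hs T hT).trans (by linarith)
  rw [one_pow, one_mul] at hM
  have hT : ∀ (E0 : Finset (PP D x)) (N1 N2 : ℕ) (r : Finset (PP D x) → ℝ) (c : ℝ),
      E0.card ≤ 1 → N1 ≤ N2 → 0 < c → (∀ T, |r T| ≤ c) →
      (∀ T, r T ≠ 0 → (∀ i ∈ E0, i ∉ T) ∧ lg (qq D x) T ≤ 1 / 20 * Real.log x) →
      ∑ T, r T * r T * wt (qq D x) T ≤ c ^ 2 * (2 * Sc D x η) →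
      ∑ m ∈ Ioc N1 N2 with m ≡ a [MOD primorial D] ∧ ∀ i ∈ E0, qq D x i ∣ m,
        (S0 (qq D x) r m / Sc D x η) ^ 2 * SS (qq D x) g y m ^ 2 ≤
      c ^ 2 * (((N2 : ℝ) - N1) / (primorial D * ∏ i ∈ E0, (qq D x i : ℝ)) * (25 / η * Q) +
        (x : ℝ) ^ (901 / 1000 : ℝ)) := by
    intro E0 N1 N2 r c hE hN hc hr hrs hw
    have b1 := (abs_le.1 (h E0 N1 N2 r c y y hE hN hc hr hrs hy hy hs hs)).2
    have b2 : 0 ≤ ((N2 : ℝ) - N1) / (primorial D * ∏ i ∈ E0, (qq D x i : ℝ)) :=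
      div_nonneg (sub_nonneg.2 (by exact_mod_cast hN)) (by positivity)
    set N := ((N2 : ℝ) - N1) / (primorial D * ∏ i ∈ E0, (qq D x i : ℝ))
    have b3 := mul_le_mul_of_nonneg_left (mul_le_mul hw hM (sum_nonneg fun T _ =>
      mul_nonneg (mul_self_nonneg _) (wts_nonneg _ (qq_two D x) T)) (by positivity)) b2
    have hS : 0 < Sc D x η ^ 2 := by positivity
    have b4 : 2 * Sc D x η * (3 * BB D x ^ Fintype.card κ) +
        eD D * BB D x ^ (Fintype.card κ + 1) ≤ 25 / η * Q * Sc D x η ^ 2 := by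
      have c1 : 2 * Sc D x η * (3 * BB D x ^ Fintype.card κ) ≤ 24 / η * Q * Sc D x η ^ 2 :=
        le_trans (le_of_eq (by rw [hQ]; field_simp; ring)) (show 24 / η * Q *
          (Sc D x η * (η * BB D x / 4)) ≤ _ by rw [sq]; gcongr; linarith)
      have c2 : η ^ 3 * BB D x ^ (Fintype.card κ + 1) ≤ 16 * η * Q * Sc D x η ^ 2 :=
        le_trans (le_of_eq (by rw [hQ]; field_simp; ring)) (show 16 * η * Q *
          (η * BB D x / 4) ^ 2 ≤ _ by gcongr; linarith)
      have c3 := (num1 hη hη').1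
      have c4 : 16 * η * Q * Sc D x η ^ 2 ≤ 1 / η * Q * Sc D x η ^ 2 := by gcongr
      have c5 : eD D * BB D x ^ (Fintype.card κ + 1) ≤ η ^ 3 * BB D x ^ (Fintype.card κ + 1) := by
        gcongr
      rw [show 25 / η * Q * Sc D x η ^ 2 = 24 / η * Q * Sc D x η ^ 2 + 1 / η * Q * Sc D x η ^ 2 by
        ring]
      linarith
    have b5 := mul_le_mul_of_nonneg_left b4 (show 0 ≤ c ^ 2 * N by positivity)
    have b6 : c ^ 2 * (x : ℝ) ^ (901 / 1000 : ℝ) ≤
        c ^ 2 * (x : ℝ) ^ (901 / 1000 : ℝ) * Sc D x η ^ 2 :=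
      le_mul_of_one_le_right (by positivity) (one_le_pow₀ h3)
    simp only [div_pow, div_mul_eq_mul_div (S0 _ _ _ ^ 2), ← sum_div]
    rw [div_le_iff₀ hS]
    simp only [← sq] at b1
    simp only [← sq] at b3
    linarith
  have hI : ∀ N1 N2 : ℕ, N1 ≤ N2 → ∀ c : ℝ, (N2 : ℝ) - N1 ≤ c * x →
      ∑ m ∈ Ioc N1 N2 with m ≡ a [MOD primorial D], nu D x η m * SS (qq D x) g y m ^ 2 ≤
        c * (25 / η) * U + η * U := by
    intro N1 N2 hN c hc
    have := hT ∅ N1 N2 (rr D x η) 1 (by simp) hN one_pos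
      (fun T => abs_le.2 ⟨by linarith [(rr_mem D x η T).1], (rr_mem D x η T).2⟩)
      (fun T hT => ⟨by simp, (rr_supp hl hT).2⟩) ((rr_sq D x η).trans (by linarith))
    simp only [notMem_empty, IsEmpty.forall_iff, implies_true, and_true, prod_empty, mul_one,
      one_pow, one_mul] at this
    refine this.trans (add_le_add ?_ s1)
    refine (mul_le_mul_of_nonneg_right (div_le_div_of_nonneg_right hc hW.le)
      (by positivity)).trans (le_of_eq ?_)
    rw [hU]; ring
  have b1 : ∑ m ∈ Ioc x (2 * x) with m ≡ a [MOD primorial D], (∑ i ∈ sm D x η,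
      if qq D x i ∣ m then (1 : ℝ) else 0) * (nu D x η m * SS (qq D x) g y m ^ 2) ≤
      80001 * η * U := by
    simp only [sum_mul]
    rw [sum_comm]
    refine (sum_le_sum (g := fun i => 40000 * U * (uu D x i / qq D x i) +
      (x : ℝ) ^ (901 / 1000 : ℝ)) fun i hi => ?_).trans ?_
    · have a1 : uu D x i ≤ η := (mem_filter.1 hi).2
      have a3 := uu_pos hl i
      have a4 := Meas.two_le D x i
      have := hT {i} x (2 * x) (dif (rr D x η) i) (40 * uu D x i) (by simp) (by omega)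
        (by positivity) (fun T => (dif_rr hl hi T).1)
        (fun T hT => ⟨by simpa using ((dif_rr hl hi T).2 hT).1, ((dif_rr hl hi T).2 hT).2.2⟩) (by
          refine le_trans ?_ (mul_le_mul_of_nonneg_left h1 (by positivity))
          rw [Si, mul_sum, ← sum_subset (subset_univ (sm D x η).powerset) fun T _ hT => by
            rw [not_not.1 fun h => hT (mem_powerset.2 ((dif_rr hl hi T).2 h).2.1)]; simp]
          refine sum_le_sum fun T _ => mul_le_mul_of_nonneg_right ?_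
            (wt_nonneg (qq D x) (qq_two D x) T)
          rw [← sq]; exact sq_le_sq' (abs_le.1 (dif_rr hl hi T).1).1 (abs_le.1 (dif_rr hl hi T).1).2)
      simp only [mem_singleton, forall_eq, prod_singleton, Nat.cast_mul, Nat.cast_ofNat,
        show (2 : ℝ) * x - x = x by ring] at this
      simp only [ite_mul, one_mul, zero_mul]
      rw [← sum_filter, filter_filter]
      refine (le_of_eq (sum_congr rfl fun m hm => ?_)).trans (this.trans ?_)
      · rw [nu, S0_dif _ _ i (by exact_mod_cast (mem_filter.1 hm).2.2)]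
      · rw [mul_add]
        refine add_le_add (le_trans (le_of_eq (show _ = 40000 * U * (uu D x i / qq D x i) *
          (uu D x i / η) by rw [hU]; field_simp; ring)) (mul_le_of_le_one_right (by positivity)
            ((div_le_one hη).2 a1))) (mul_le_of_le_one_left (by positivity) ((num1 hη hη').2.2.1 _ a3 a1))
    · rw [sum_add_distrib, ← mul_sum, sum_const, nsmul_eq_mul]
      have a1 := card_small D x hl (b := 1 / 1000) (fun i => uu D x i ≤ η) fun i h => h.trans hη'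
      have a2 := mul_le_mul_of_nonneg_left h5 (show 0 ≤ 40000 * U by positivity)
      have a3 := mul_le_mul_of_nonneg_right a1
        (show 0 ≤ (x : ℝ) ^ (901 / 1000 : ℝ) by positivity)
      rw [← Real.rpow_add hx', show (1 / 1000 + 901 / 1000 : ℝ) = 902 / 1000 by norm_num] at a3
      change ((sm D x η).card : ℝ) * _ ≤ _ at a3
      linarith
  have b2 : ∑ m ∈ Ioc x (2 * x) with m ≡ a [MOD primorial D],
      (if ∃ p : ℕ, p.Prime ∧ η < Real.log p / Real.log x ∧ p ^ 2 ∣ m then (1 : ℝ) else 0) *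
        (nu D x η m * SS (qq D x) g y m ^ 2) ≤ 4 * η * U := by
    refine (sum_le_sum_of_subset_of_nonneg (filter_subset _ _) fun _ _ _ => mul_nonneg
      (by split_ifs <;> norm_num) (mul_nonneg (nu_nonneg _ _ _ _) (sq_nonneg _))).trans ((sum_le_sum (g := fun m => (if ∃ p : ℕ, p.Prime ∧
        η < Real.log p / Real.log x ∧ p ^ 2 ∣ m then (1 : ℝ) else 0) *
        (x : ℝ) ^ (η / 2)) fun m hm => ?_).trans ?_)
    · have := h7 m hm (tens (rr D x η) y) (fun T => by
        rw [tens, abs_mul]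
        exact mul_le_one₀ (abs_le.2 ⟨by linarith [(rr_mem D x η (T none)).1],
          (rr_mem D x η _).2⟩) (abs_nonneg _) (hy _)) fun T hT => by
        have c1 := (rr_supp hl (left_ne_zero_of_mul hT)).2
        have c2 := hs _ (right_ne_zero_of_mul hT)
        rw [lgs_option]; linarith
      rw [SS_tens] at this
      refine mul_le_mul_of_nonneg_left ?_ (by split_ifs <;> norm_num)
      rw [nu, div_pow, div_mul_eq_mul_div, ← mul_pow]
      refine (div_le_self (sq_nonneg _) (one_le_pow₀ h3)).trans ?_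
      rw [← sq_abs]
      refine (pow_le_pow_left₀ (abs_nonneg _) this 2).trans (le_of_eq ?_)
      rw [← Real.rpow_mul_natCast hx'.le]; push_cast; ring_nf
    · rw [← sum_mul]
      refine (mul_le_mul_of_nonneg_right h6 (by positivity)).trans ?_
      rw [mul_assoc, ← Real.rpow_add hx', show 1 - η + η / 2 = 1 - η / 2 by ring]
      linarith
  have hη2 : 0 < η ^ 2 := by positivity
  have b3 : ∑ m ∈ Ioc x (2 * x) with m ≡ a [MOD primorial D],
      (if m ≤ ⌊x * Real.exp (η ^ 2)⌋₊ then (1 : ℝ) else 0) *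
        (nu D x η m * SS (qq D x) g y m ^ 2) ≤ 2 * η ^ 2 * (25 / η) * U + η * U := by
    refine le_trans ?_ (hI x _ (bd1 hη2 (num1 hη hη').2.1 x).1 _ (bd1 hη2 (num1 hη hη').2.1 x).2)
    simp only [ite_mul, one_mul, zero_mul]
    rw [← sum_filter]
    refine sum_le_sum_of_subset_of_nonneg (fun m hm => ?_) fun _ _ _ =>
      mul_nonneg (nu_nonneg _ _ _ _) (sq_nonneg _)
    simp only [mem_filter, mem_Ioc] at hm ⊢
    exact ⟨⟨hm.1.1.1, hm.2⟩, hm.1.2⟩
  have b4 : ∑ m ∈ Ioc x (2 * x) with m ≡ a [MOD primorial D],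
      (if ⌊2 * x * Real.exp (-η ^ 2)⌋₊ < m then (1 : ℝ) else 0) *
        (nu D x η m * SS (qq D x) g y m ^ 2) ≤ 3 * η ^ 2 * (25 / η) * U + η * U := by
    refine le_trans ?_ (hI _ _ (bd2 hη2 h8).1 _ (bd2 hη2 h8).2)
    simp only [ite_mul, one_mul, zero_mul]
    rw [← sum_filter]
    refine sum_le_sum_of_subset_of_nonneg (fun m hm => ?_) fun _ _ _ =>
      mul_nonneg (nu_nonneg _ _ _ _) (sq_nonneg _)
    simp only [mem_filter, mem_Ioc] at hm ⊢
    exact ⟨⟨hm.2, hm.1.1.2⟩, hm.1.2⟩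
  have b5 := hI x (2 * x) (by omega) 1 (by push_cast; linarith)
  have b6 : 1 * (25 / η) * U + η * U ≤ Real.log x * (η * U) := by
    rw [one_mul, ← add_mul, ← mul_assoc (Real.log x)]
    exact mul_le_mul_of_nonneg_right ((num1 hη hη').2.2.2 _ h9) hU0
  have b7 := mul_le_mul_of_nonneg_left (add_le_add (add_le_add (add_le_add b1 b2) b3) b4) hl.le
  rw [← sum_add_distrib, ← sum_add_distrib, ← sum_add_distrib, mul_sum,
    show 2 * η ^ 2 * (25 / η) = 50 * η by field_simp; ring,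
    show 3 * η ^ 2 * (25 / η) = 75 * η by field_simp; ring] at b7
  have b8 := add_le_add b7 (b5.trans b6)
  rw [← sum_add_distrib] at b8
  refine le_trans (le_of_eq (sum_congr rfl fun m _ => by rw [ee]; ring)) (b8.trans ?_)
  have : 0 ≤ η * (Real.log x * U) := by positivity
  linarith

end

end Pool.Agent.Lib.MP_fc51f7_nt.Pr
end

-- part Pool.Agent.Lib.MP_fc51f7_nt.PrC
section

/-! The asymptotic formula for sieve sums over primes. -/

set_option autoImplicit false
set_option linter.unusedSectionVars false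

namespace Pool.Agent.Lib.MP_fc51f7_nt.Pr

open Finset Filter Topology

noncomputable def lo1 (η : ℝ) (x j : ℕ) : ℕ :=
  ⌊max ((x : ℝ) ^ η) (x * Real.exp (-(j * η ^ 2)))⌋₊

open Classical in
noncomputable def aa (η : ℝ) (x n : ℕ) : ℝ :=
  ∑ p ∈ n.primeFactors with rough η x (n / p) ∧
    p ∈ Ioc (lo1 η x (box (η ^ 2) (n / p))) (hi (η ^ 2) x (box (η ^ 2) (n / p))), Real.log p

theorem mem_PP (D : ℕ) : ∀ᶠ x : ℕ in atTop, ∀ p : ℕ, p.Prime → D < p → p ≤ x →
    ∃ i : PP D x, qq D x i = p := by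
  filter_upwards [gr_logx.eventually_ge_atTop 1, eventually_gt_atTop 0] with x hl hx p hp h1 h2
  refine ⟨⟨p, mem_filter.2 ⟨mem_Ioc.2 ⟨h1, h2.trans (Nat.le_floor ?_)⟩, hp⟩⟩, rfl⟩
  rw [← Real.log_le_iff_le_exp (by positivity)]; nlinarith

theorem gt_of_cop {D a n p : ℕ} (ha : Nat.Coprime a (primorial D)) (hn : n ≡ a [MOD primorial D])
    (hp : p.Prime) (h : p ∣ n) : D < p := by
  refine not_le.1 fun h' => ?_
  have b3 := hp.dvd_primorial_iff.2 h'
  exact hp.one_lt.ne' (Nat.eq_one_of_dvd_coprimes ha (((hn.of_dvd b3).dvd_iff dvd_rfl).1 h) b3)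

theorem lt_iff_u {x p : ℕ} (hx : 1 < x) (hp : 0 < p) (η : ℝ) :
    (x : ℝ) ^ η < p ↔ η < Real.log p / Real.log x := by
  rw [rpow_eq_exp (by omega), ← Real.lt_log_iff_exp_lt (by exact_mod_cast hp),
    lt_div_iff₀ (Real.log_pos (by exact_mod_cast hx))]

theorem sum_log_le {n : ℕ} (hn : 0 < n) : ∑ p ∈ n.primeFactors, Real.log (p : ℕ) ≤ Real.log n := by
  rw [← Real.log_prod fun p hp => by
    exact_mod_cast (Nat.prime_of_mem_primeFactors hp).ne_zero, ← Nat.cast_prod]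
  gcongr
  · exact_mod_cast prod_pos fun p hp => (Nat.prime_of_mem_primeFactors hp).pos
  · exact Nat.le_of_dvd hn (Nat.prod_primeFactors_dvd n)

theorem log_bd {x n : ℕ} (hx : 0 < x) (hn : n ∈ Ioc x (2 * x)) :
    Real.log x ≤ Real.log n ∧ Real.log n ≤ Real.log x + 1 := by
  obtain ⟨a1, a2⟩ := mem_Ioc.1 hn
  have hx0 : (0 : ℝ) < x := by positivity
  refine ⟨Real.log_le_log hx0 (by exact_mod_cast a1.le), ?_⟩
  have : Real.log n ≤ Real.log (2 * x) :=
    Real.log_le_log (by have : 0 < n := by omega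
                        positivity) (by exact_mod_cast a2)
  rw [Real.log_mul two_ne_zero hx0.ne'] at this
  linarith [Real.log_two_lt_d9]

theorem aa_nonneg (η : ℝ) (x n : ℕ) : 0 ≤ aa η x n :=
  sum_nonneg fun _ _ => Real.log_natCast_nonneg _

theorem ptw {D a : ℕ} (ha : Nat.Coprime a (primorial D)) {η : ℝ} (hη : 0 < η)
    (hη' : η ≤ 1 / 1000) : ∀ᶠ x : ℕ in atTop, ∀ n ∈ Ioc x (2 * x), n ≡ a [MOD primorial D] →
      |(if n.Prime then Real.log n else 0) - Real.log x * nu D x η n + aa η x n| ≤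
        nu D x η n * (Real.log x * ee D x η n + 1) := by
  classical
  filter_upwards [mem_PP D, Sc_ge D hη hη', Meas.L_pos, eventually_gt_atTop 1]
    with x hP ⟨_, _, hS⟩ hl hx n hn hna
  obtain ⟨n1, n2⟩ := mem_Ioc.1 hn
  have hn0 : 0 < n := by omega
  have hx' : (1 : ℝ) < x := by exact_mod_cast hx
  have hxη : (x : ℝ) ^ η ≤ x := by
    simpa using Real.rpow_le_rpow_of_exponent_le hx'.le (show η ≤ 1 by linarith)
  have hν := nu_nonneg D x η n
  have i0 : ∀ (P : Prop) [Decidable P], (0 : ℝ) ≤ if P then 1 else 0 := fun P _ => by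
    split_ifs <;> norm_num
  have i1 : 0 ≤ ∑ i ∈ sm D x η, if qq D x i ∣ n then (1 : ℝ) else 0 := sum_nonneg fun _ _ => i0 _
  obtain ⟨l1, l2⟩ := log_bd (by omega) hn
  by_cases hA : ∀ p ∈ n.primeFactors, (x : ℝ) ^ η < p
  · have e1 : nu D x η n = 1 := nu_eq hl (by linarith) fun i hi h => by
      have := (lt_iff_u hx (gr_prime D x i).pos η).1
        (hA _ (Nat.mem_primeFactors.2 ⟨gr_prime D x i, h, hn0.ne'⟩))
      exact absurd (mem_filter.1 hi).2 (not_le.2 this)
    rw [e1, mul_one, one_mul]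
    set t := (if n.Prime then Real.log n else 0) + aa η x n with ht
    have t0 : 0 ≤ t := add_nonneg (by split_ifs <;> [positivity; rfl]) (aa_nonneg _ _ _)
    have t1 : n.Prime → t = Real.log n := fun hp => by
      rw [ht, if_pos hp, aa, sum_eq_zero fun p hp' => ?_, add_zero]
      obtain ⟨h1, h2, -⟩ := mem_filter.1 hp'
      rw [hp.primeFactors, mem_singleton] at h1
      have := h2.1
      rw [h1, Nat.div_self hn0, Nat.cast_one] at this
      exact absurd this (not_le.2 (Real.one_lt_rpow hx' hη))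
    have t2 : t ≤ Real.log n := by
      by_cases hp : n.Prime
      · exact (t1 hp).le
      · rw [ht, if_neg hp, zero_add]
        exact (sum_le_sum_of_subset_of_nonneg (filter_subset _ _)
          fun _ _ _ => Real.log_natCast_nonneg _).trans (sum_log_le hn0)
    rw [show (if n.Prime then Real.log n else 0) - Real.log x + aa η x n = t - Real.log x by
      rw [ht]; ring]
    by_cases hE : 1 ≤ ee D x η n
    · have := mul_le_mul_of_nonneg_left hE hl.le
      exact abs_le.2 ⟨by linarith, by linarith⟩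
    have hE0 : 0 ≤ Real.log x * ee D x η n :=
      mul_nonneg hl.le (add_nonneg (add_nonneg (add_nonneg i1 (i0 _)) (i0 _)) (i0 _))
    suffices t = Real.log n from abs_le.2 ⟨by linarith, by linarith⟩
    by_cases hp : n.Prime
    · exact t1 hp
    have c1 : ¬ ∃ p : ℕ, p.Prime ∧ η < Real.log p / Real.log x ∧ p ^ 2 ∣ n := fun h => hE (by
      rw [ee, if_pos h]; linarith [i0 (n ≤ ⌊x * Real.exp (η ^ 2)⌋₊),
        i0 (⌊2 * x * Real.exp (-η ^ 2)⌋₊ < n)])
    have c2 : ¬ n ≤ ⌊x * Real.exp (η ^ 2)⌋₊ := fun h => hE (by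
      rw [ee, if_pos h, if_neg c1]; linarith [i0 (⌊2 * x * Real.exp (-η ^ 2)⌋₊ < n)])
    have c3 : ¬ ⌊2 * x * Real.exp (-η ^ 2)⌋₊ < n := fun h => hE (by
      rw [ee, if_pos h, if_neg c1, if_neg c2]; linarith)
    have c4 : Squarefree n := by
      rw [Nat.squarefree_iff_prime_squarefree]
      exact fun p hp h => c1 ⟨p, hp, (lt_iff_u hx hp.pos η).1 (hA p (Nat.mem_primeFactors.2
        ⟨hp, (dvd_mul_right _ _).trans h, hn0.ne'⟩)), by rwa [sq]⟩
    rw [ht, if_neg hp, zero_add, aa, filter_true_of_mem fun p hp' => ?_, ← Real.log_prod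
      fun p hp => by exact_mod_cast (Nat.prime_of_mem_primeFactors hp).ne_zero, ← Nat.cast_prod,
      Nat.prod_primeFactors_of_squarefree c4]
    obtain ⟨m, hm⟩ := Nat.dvd_of_mem_primeFactors hp'
    have hpp := Nat.prime_of_mem_primeFactors hp'
    have e2 : n / p = m := by rw [hm, Nat.mul_div_cancel_left _ hpp.pos]
    have hm0 : 0 < m := Nat.pos_of_ne_zero fun h => by rw [h] at hm; omega
    have hm1 : m ≠ 1 := fun h => hp (by rw [hm, h, mul_one]; exact hpp)
    have hm' : (0 : ℝ) < m := by positivity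
    have c5 : ∀ r ∈ m.primeFactors, (x : ℝ) ^ η < r := fun r hr =>
      hA r (Nat.primeFactors_mono (Dvd.intro_left _ hm.symm) hn0.ne' hr)
    obtain ⟨b1, b2⟩ := box_spec (show 0 < η ^ 2 by positivity) hm0
    have hnr : (n : ℝ) = p * m := by exact_mod_cast hm
    rw [e2]
    refine ⟨⟨?_, c5⟩, mem_Ioc.2 ⟨(Nat.floor_lt (by positivity)).2 (max_lt (hA p hp') ?_),
      Nat.le_floor ?_⟩⟩
    · exact (c5 _ (Nat.mem_primeFactors.2 ⟨Nat.minFac_prime hm1, Nat.minFac_dvd m, hm0.ne'⟩)).le.trans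
        (by exact_mod_cast Nat.minFac_le hm0)
    · have d1 := (Nat.floor_lt (by positivity)).1 (not_le.1 c2)
      rw [hnr, ← mul_inv_lt_iff₀ hm'] at d1
      refine lt_of_le_of_lt ?_ d1
      rw [mul_assoc]
      refine mul_le_mul_of_nonneg_left (le_trans (le_of_eq ?_) (mul_le_mul_of_nonneg_left b2.le
        (Real.exp_pos _).le)) (by positivity)
      rw [← Real.exp_add]; ring_nf
    · have d1 := (Nat.le_floor_iff (by positivity)).1 (not_lt.1 c3)
      rw [hnr, ← le_mul_inv_iff₀ hm'] at d1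
      refine d1.trans ?_
      rw [mul_assoc (2 * x : ℝ)]
      refine mul_le_mul_of_nonneg_left ((mul_le_mul_of_nonneg_left b1
        (Real.exp_pos _).le).trans (le_of_eq ?_)) (by positivity)
      rw [← Real.exp_add]; ring_nf
  · push Not at hA
    obtain ⟨p, hp, h1⟩ := hA
    have hpp := Nat.prime_of_mem_primeFactors hp
    have hpd := Nat.dvd_of_mem_primeFactors hp
    have hpx : p ≤ x := by exact_mod_cast h1.trans hxη
    have c1 : ¬ n.Prime := fun h => by
      have := (Nat.prime_dvd_prime_iff_eq hpp h).1 hpd; omega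
    have c2 : aa η x n = 0 := sum_eq_zero fun r hr => by
      obtain ⟨h2, h3, h4⟩ := mem_filter.1 hr
      have h5 := (le_max_left _ _).trans_lt ((Nat.floor_lt (by positivity)).1 (mem_Ioc.1 h4).1)
      obtain ⟨m, hm⟩ := Nat.dvd_of_mem_primeFactors h2
      have hr' := Nat.prime_of_mem_primeFactors h2
      have e2 : n / r = m := by rw [hm, Nat.mul_div_cancel_left _ hr'.pos]
      have h6 : p ≠ r := fun h => by rw [h] at h1; linarith
      have h7 : p ∣ m := ((Nat.coprime_primes hpp hr').2 h6).dvd_of_dvd_mul_left (hm ▸ hpd)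
      have := h3.2 p (Nat.mem_primeFactors.2 ⟨hpp, e2 ▸ h7, fun h => by
        rw [e2] at h; rw [h] at hm; omega⟩)
      linarith
    obtain ⟨i, rfl⟩ := hP p hpp (gt_of_cop ha hna hpp hpd) hpx
    have c3 : 1 ≤ ee D x η n := by
      have := single_le_sum (f := fun i => if qq D x i ∣ n then (1 : ℝ) else 0) (s := sm D x η)
        (fun _ _ => i0 _) (mem_filter.2 ⟨mem_univ i, not_lt.1 fun h =>
          absurd ((lt_iff_u hx hpp.pos η).2 h) (not_lt.2 h1)⟩)
      simp only [if_pos hpd] at this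
      exact le_add_of_le_of_nonneg (le_add_of_le_of_nonneg (le_add_of_le_of_nonneg this (i0 _))
        (i0 _)) (i0 _)
    rw [if_neg c1, c2, zero_sub, add_zero, abs_neg, abs_of_nonneg (by positivity), mul_comm]
    exact mul_le_mul_of_nonneg_left (by nlinarith) hν

open Classical in
theorem aa_reindex {η : ℝ} (hη : 0 < η) (x W a : ℕ) (Φ : ℕ → ℝ) :
    ∑ n ∈ Ioc x (2 * x) with n ≡ a [MOD W], aa η x n * Φ n =
      ∑ m ∈ Icc 1 x with rough η x m, ∑ p ∈ Ioc (lo1 η x (box (η ^ 2) m))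
        (hi (η ^ 2) x (box (η ^ 2) m)) with p.Prime ∧ p * m ≡ a [MOD W],
          Real.log p * 1 * Φ (p * m) := by
  refine Eq.trans ?_ ((reindex η (η ^ 2) x W a (lo1 η x) (hi (η ^ 2) x)
    fun p m => Real.log p * 1 * Φ (p * m)).trans ?_)
  · refine sum_congr rfl fun n _ => ?_
    rw [aa, sum_mul]
    refine sum_congr rfl fun p hp => ?_
    rw [mul_one, Nat.mul_div_cancel' (Nat.dvd_of_mem_primeFactors (mem_filter.1 hp).1)]
  · refine sum_congr rfl fun m hm => sum_congr (filter_congr fun p h => and_iff_left ?_)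
      fun _ _ => rfl
    have hm : 0 < m := (mem_Icc.1 (mem_filter.1 hm).1).1
    obtain ⟨h1, h2⟩ := mem_Ioc.1 h
    obtain ⟨h3, h4⟩ := box_spec (show 0 < η ^ 2 by positivity) hm
    have h5 := (Nat.floor_lt (by positivity)).1 h1
    have h6 := (Nat.le_floor_iff (by positivity)).1 h2
    have hm' : (0 : ℝ) < m := by positivity
    refine mem_Ioc.2 ⟨?_, ?_⟩
    · have : (x : ℝ) * (m : ℝ)⁻¹ < p :=
        (mul_le_mul_of_nonneg_left h3 (by positivity)).trans_lt ((le_max_right _ _).trans_lt h5)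
      rw [mul_inv_lt_iff₀ hm'] at this
      exact_mod_cast this
    · have : (p : ℝ) ≤ 2 * x * (m : ℝ)⁻¹ := h6.trans (by gcongr)
      rw [le_mul_inv_iff₀ hm'] at this
      exact_mod_cast this

theorem theta_Ioc (W : ℕ) (hW : W ≠ 0) {ε : ℝ} (hε : 0 < ε) : ∃ C : ℝ, 0 ≤ C ∧
    ∀ a m : ℕ, Nat.Coprime a W → Nat.Coprime m W → ∀ N1 N2 : ℕ, N1 ≤ N2 →
      |∑ p ∈ Ioc N1 N2 with p.Prime ∧ p * m ≡ a [MOD W], Real.log (p : ℕ) -
        ((N2 : ℝ) - N1) / W.totient| ≤ 2 * ε * N2 + C := by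
  have : NeZero W := ⟨hW⟩
  obtain ⟨C, hC, h⟩ := theta_class W hε
  refine ⟨2 * C, by positivity, fun a m ha hm N1 N2 hN => ?_⟩
  set c : ZMod W := a * ((ZMod.unitOfCoprime m hm)⁻¹ : (ZMod W)ˣ)
  have hc : IsUnit c := ((ZMod.isUnit_iff_coprime a W).2 ha).mul (Units.isUnit _)
  have h4 := abs_le.1 (h c hc N1)
  have h5 := abs_le.1 (h c hc N2)
  have h10 : ∑ p ∈ Ioc N1 N2 with p.Prime ∧ p * m ≡ a [MOD W], Real.log (p : ℕ) +
      ∑ p ∈ Icc 1 N1 with Nat.Prime p ∧ (Nat.cast p : ZMod W) = c, Real.log (p : ℕ) =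
      ∑ p ∈ Icc 1 N2 with Nat.Prime p ∧ (Nat.cast p : ZMod W) = c, Real.log (p : ℕ) := by
    rw [← sum_union (disjoint_left.2 fun p h h' => by
      have := (mem_Ioc.1 (mem_filter.1 h).1).1
      have := (mem_Icc.1 (mem_filter.1 h').1).2
      omega)]
    refine sum_congr (Finset.ext fun p => ?_) fun _ _ => rfl
    have e : p * m ≡ a [MOD W] ↔ (Nat.cast p : ZMod W) = c := by
      rw [Units.eq_mul_inv_iff_mul_eq, ZMod.coe_unitOfCoprime, ← Nat.cast_mul]
      exact (ZMod.natCast_eq_natCast_iff _ _ _).symm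
    simp only [mem_union, mem_filter, mem_Ioc, mem_Icc, e]
    constructor
    · rintro (⟨h1, h2⟩ | ⟨h1, h2⟩) <;> exact ⟨by omega, h2⟩
    · rintro ⟨h1, h2⟩
      by_cases h3 : p ≤ N1
      · exact Or.inr ⟨by omega, h2⟩
      · exact Or.inl ⟨by omega, h2⟩
  have h6 : ε * N1 ≤ ε * N2 := by gcongr
  rw [sub_div]
  exact abs_le.2 ⟨by linarith, by linarith⟩

theorem tot_eq (D x : ℕ) (hl : 0 < Real.log x) :
    (x : ℝ) / (primorial D).totient = Real.log x * (x / primorial D * (BB D x ^ 0 / BB D x)) := by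
  have hV := Meas.V_pos D
  have hW : (0 : ℝ) < primorial D := by exact_mod_cast primorial_pos D
  rw [totient_primorial]; unfold BB; field_simp

theorem alg1 {Θ Θ1 E E1 N N1 A A1 M L R U0 U3 B3 η : ℝ} (hη : 0 < η) (hη' : η ≤ 1 / 1000)
    (hL : 0 ≤ L) (hB : 0 ≤ B3) (hU0 : 0 ≤ U0) (hU : U3 = B3 * U0) (hM : |M| ≤ 3 * B3)
    (e1 : E = Θ - L * N + A) (e2 : E1 = Θ1 - L * N1 + A1) (h1 : |E| ≤ 90000 * η * (L * U3))
    (h2 : |E1| ≤ 90000 * η * (L * U0)) (h3 : |N - R * M| ≤ 17 * η * U3)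
    (h4 : |N1 - R| ≤ 17 * η * U0) (h5 : R ≤ 4 / η * U0) (h6 : |Θ1 - L * U0| ≤ η * (L * U0))
    (h7 : |A - M * A1| ≤ η * (L * U3) + η ^ 3 * B3 * A1) :
    |Θ - L * U0 * M| ≤ 400000 * η * (L * U3) := by
  have hX : 0 ≤ L * U0 := mul_nonneg hL hU0
  have k1 : |M * E1| ≤ 270000 * η * (L * U3) := by
    rw [abs_mul]
    exact (mul_le_mul hM h2 (abs_nonneg _) (by positivity)).trans (le_of_eq (by rw [hU]; ring))
  have k2 : |L * (N - R * M)| ≤ 17 * η * (L * U3) := by
    rw [abs_mul, abs_of_nonneg hL]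
    exact (mul_le_mul_of_nonneg_left h3 hL).trans (le_of_eq (by ring))
  have k3 : |M * (L * (N1 - R))| ≤ 51 * η * (L * U3) := by
    rw [abs_mul, abs_mul, abs_of_nonneg hL]
    exact (mul_le_mul hM (mul_le_mul_of_nonneg_left h4 hL) (by positivity) (by positivity)).trans
      (le_of_eq (by rw [hU]; ring))
  have k4 : |M * (Θ1 - L * U0)| ≤ 3 * η * (L * U3) := by
    rw [abs_mul]
    exact (mul_le_mul hM h6 (abs_nonneg _) (by positivity)).trans (le_of_eq (by rw [hU]; ring))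
  have k5 : A1 ≤ (90018 * η + 4 / η) * (L * U0) := by
    have a1 := mul_le_mul_of_nonneg_left (abs_le.1 h4).2 hL
    have a2 := mul_le_mul_of_nonneg_left h5 hL
    have a3 := abs_le.1 h2
    have a4 := abs_le.1 h6
    nlinarith
  have k6 : η ^ 3 * B3 * A1 ≤ η * (L * U3) := by
    refine (mul_le_mul_of_nonneg_left k5 (by positivity)).trans ?_
    rw [show η ^ 3 * B3 * ((90018 * η + 4 / η) * (L * U0)) =
      (90018 * η ^ 3 + 4 * η) * (η * (L * U3)) by rw [hU]; field_simp]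
    refine mul_le_of_le_one_left (by rw [hU]; positivity) ?_
    have : η ^ 3 ≤ (1 / 1000) ^ 3 := by gcongr
    linarith
  have k7 : 0 ≤ η * (L * U3) := by rw [hU]; positivity
  have e : Θ - L * U0 * M = E - M * E1 + L * (N - R * M) - M * (L * (N1 - R)) - (A - M * A1) +
      M * (Θ1 - L * U0) := by rw [e1, e2]; ring
  rw [e]
  have := abs_le.1 k1; have := abs_le.1 k2; have := abs_le.1 k3; have := abs_le.1 k4
  have := abs_le.1 h1; have := abs_le.1 h7
  exact abs_le.2 ⟨by linarith, by linarith⟩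

section
variable {κ : Type} [Fintype κ] [DecidableEq κ]

theorem primeSum0 {D : ℕ} (hD : 16 ≤ D) (hκ : Fintype.card κ = 3) {g : κ → ℤ}
    (hg : Function.Injective g) (hg8 : ∀ j, g j ≠ 0 ∧ |g j| ≤ 8) {a : ℕ}
    (ha : Nat.Coprime a (primorial D)) {η : ℝ} (hη : 0 < η) (hη' : η ≤ 1 / 1000)
    (he : eD D ≤ η ^ 3) : ∀ᶠ x : ℕ in atTop, ∀ y y' : (κ → Finset (PP D x)) → ℝ,
    (∀ T, |y T| ≤ 1) → (∀ T, |y' T| ≤ 1) →
    (∀ T, y T ≠ 0 → lgs (qq D x) T ≤ 2 / 5 * Real.log x) →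
    (∀ T, y' T ≠ 0 → lgs (qq D x) T ≤ 2 / 5 * Real.log x) →
    (∀ T U, y T ≠ 0 → y' U ≠ 0 →
      lgs (qq D x) T + lgs (qq D x) U ≤ (1 / 2 - η) * Real.log x) →
    |∑ p ∈ Ioc x (2 * x) with p ≡ a [MOD primorial D] ∧ p.Prime,
        Real.log (p : ℕ) * (SS (qq D x) g y p * SS (qq D x) g y' p) -
      x / primorial D * Real.log x / BB D x * ∑ T, y T * y' T * wts (qq D x) T| ≤
      400000 * η * (x / primorial D * Real.log x * BB D x ^ 2) := by
  classical
  have hW : (0 : ℝ) < primorial D := by exact_mod_cast primorial_pos D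
  have hV := Meas.V_pos D
  have hφ : (0 : ℝ) < (primorial D).totient := by
    exact_mod_cast Nat.totient_pos.2 (primorial_pos D)
  obtain ⟨C, hC, hθ⟩ := theta_Ioc (primorial D) (primorial_ne_zero D)
    (show 0 < η / (8 * (primorial D).totient) by positivity)
  have g0 : Function.Injective (Fin.elim0 : Fin 0 → ℤ) := fun j => j.elim0
  filter_upwards [errb hD hκ.le hg hg8 a hη hη' he, nuMain hD hκ.le hg hg8 a hη hη' he,
    errb hD (κ := Fin 0) (by simp) g0 (fun j => j.elim0) a hη hη' he,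
    nuMain hD (κ := Fin 0) (by simp) g0 (fun j => j.elim0) a hη hη' he,
    bv3 hD hκ hη (show 0 < η ^ 2 by positivity) (show 0 < η *
      (∏ p ∈ Nat.primesLE D, (1 - (p : ℝ)⁻¹)) ^ 2 / primorial D by positivity) hg hg8 a,
    ptw ha hη hη', Sc_ge D hη hη', wts_le (κ := κ) D, Meas.L_pos, Meas.BB_pos D,
    tendsto_natCast_atTop_atTop.eventually_ge_atTop (2 * C * (primorial D).totient / η)]
    with x h1 h2 h3 h4 h5 h6 ⟨_, h7, h7'⟩ h8 hl hB h9 y y' hy hy' hs hs' hss
  have S1 : ∀ m : ℕ, SS (qq D x) (Fin.elim0 : Fin 0 → ℤ) (fun _ => 1) m = 1 := fun m => by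
    simp [SS]
  have b3 := h3 (fun _ => 1) (by simp) fun T _ => by simp [lgs]; positivity
  have b4 := h4 (fun _ => 1) (fun _ => 1) (by simp) (by simp)
    (fun T _ => by simp [lgs]; positivity) fun T _ => by simp [lgs]; positivity
  simp only [S1, one_pow, mul_one, Fintype.card_fin, wts, univ_unique, prod_empty,
    univ_eq_empty, sum_singleton] at b3 b4
  have b5 := h5 y y' (fun _ => 1) (lo1 η x) (hi (η ^ 2) x) hy hy' hss (by simp) fun j =>
    ⟨(le_max_left _ _).trans (Nat.lt_floor_add_one _).le, (Nat.floor_le (by positivity)).trans (by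
      have : 0 < η ^ 2 := by positivity
      gcongr; linarith)⟩
  have r1 := aa_reindex hη x (primorial D) a fun n => SS (qq D x) g y n * SS (qq D x) g y' n
  have r2 := aa_reindex hη x (primorial D) a fun _ => 1
  simp only [mul_one] at r2 r1 b5
  rw [← r1, ← r2, abs_of_nonneg (sum_nonneg fun n _ => aa_nonneg η x n)] at b5
  set s := (Ioc x (2 * x)).filter fun n => n ≡ a [MOD primorial D] with hsd
  set Φ : ℕ → ℝ := fun n => SS (qq D x) g y n * SS (qq D x) g y' n with hΦ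
  set E : ℕ → ℝ := fun n => (if n.Prime then Real.log n else 0) - Real.log x * nu D x η n +
    aa η x n with hE
  have b6 : ∀ n ∈ s, |E n| ≤ nu D x η n * (Real.log x * ee D x η n + 1) := fun n hn =>
    h6 n (mem_filter.1 hn).1 (mem_filter.1 hn).2
  have b7 := hθ a 1 ha (by simp) x (2 * x) (by omega)
  simp only [mul_one, Nat.cast_mul, Nat.cast_ofNat, show (2 : ℝ) * x - x = x by ring] at b7
  have key := alg1 (Θ := ∑ n ∈ s, (if n.Prime then Real.log n else 0) * Φ n)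
    (Θ1 := ∑ n ∈ s, if n.Prime then Real.log n else 0) (E := ∑ n ∈ s, E n * Φ n)
    (E1 := ∑ n ∈ s, E n) (N := ∑ n ∈ s, nu D x η n * Φ n) (N1 := ∑ n ∈ s, nu D x η n)
    (A := ∑ n ∈ s, aa η x n * Φ n) (A1 := ∑ n ∈ s, aa η x n)
    (M := ∑ T, y T * y' T * wts (qq D x) T) (L := Real.log x) (R := x / primorial D *
      ((∑ T, rr D x η T * rr D x η T * wt (qq D x) T) / Sc D x η ^ 2))
    (U0 := x / primorial D * (BB D x ^ 0 / BB D x))
    (U3 := x / primorial D * (BB D x ^ Fintype.card κ / BB D x)) (B3 := BB D x ^ 3) hη hη' hl.le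
    (by positivity) (by positivity) (by rw [hκ]; ring)
    (abs_wts_le _ (qq_two D x) _ _
      ((h8 y 1 hy fun T h => (hs T h).trans (by linarith)).trans (by rw [hκ]; linarith))
      ((h8 y' 1 hy' fun T h => (hs' T h).trans (by linarith)).trans (by rw [hκ]; linarith)))
    (by rw [mul_sum, ← sum_sub_distrib, ← sum_add_distrib]
        exact sum_congr rfl fun n _ => by simp only [hE]; ring)
    (by rw [mul_sum, ← sum_sub_distrib, ← sum_add_distrib])
    ((abs_sum_le_sum_abs _ _).trans (le_trans (sum_le_sum (g := fun n =>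
      (nu D x η n * (Real.log x * ee D x η n + 1) * SS (qq D x) g y n ^ 2 +
      nu D x η n * (Real.log x * ee D x η n + 1) * SS (qq D x) g y' n ^ 2) / 2) fun n hn => by
        rw [abs_mul, ← mul_add, mul_div_assoc]
        refine mul_le_mul (b6 n hn) (abs_le.2 ⟨?_, ?_⟩) (abs_nonneg _)
          ((abs_nonneg _).trans (b6 n hn))
        · linarith [sq_nonneg (SS (qq D x) g y n + SS (qq D x) g y' n)]
        · linarith [sq_nonneg (SS (qq D x) g y n - SS (qq D x) g y' n)])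
      (by rw [← sum_div, sum_add_distrib]; linarith [h1 y hy hs, h1 y' hy' hs'])))
    ((abs_sum_le_sum_abs _ _).trans ((sum_le_sum b6).trans b3)) (h2 y y' hy hy' hs hs') b4
    (by
      rw [mul_left_comm]
      refine mul_le_mul_of_nonneg_left ((div_le_div_of_nonneg_right (rr_sq D x η)
        (sq_nonneg _)).trans ?_) (by positivity)
      rw [sq, div_mul_eq_div_div, div_self (by linarith), pow_zero, div_mul_div_comm,
        div_le_div_iff₀ (by linarith) (by positivity)]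
      linarith)
    (by
      rw [← tot_eq D x hl, ← sum_filter, hsd, filter_filter, filter_congr fun _ _ => and_comm]
      refine b7.trans ?_
      rw [div_le_iff₀ hη] at h9
      rw [← mul_div_assoc η, le_div_iff₀ hφ, add_mul,
        show 2 * (η / (8 * (primorial D).totient)) * (2 * x) * (primorial D).totient =
          η * x / 2 by field_simp; ring]
      linarith)
    (b5.trans (add_le_add (le_of_eq (by rw [hκ]; unfold BB; field_simp)) (mul_le_mul_of_nonneg_right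
      (mul_le_mul_of_nonneg_right he (by positivity)) (sum_nonneg fun n _ => aa_nonneg η x n))))
  simp only [ite_mul, zero_mul] at key
  rw [← sum_filter, hsd, filter_filter, hκ] at key
  convert key using 2
  · congr 1; ring
  · field_simp

/-- Sieve sums over primes in a residue class, level `1/2 - η`. -/
theorem primeSum (hκ : Fintype.card κ = 3) {η ε : ℝ} (hη : 0 < η) (hε : 0 < ε) :
    ∀ᶠ D : ℕ in atTop, ∀ g : κ → ℤ, Function.Injective g → (∀ j, g j ≠ 0 ∧ |g j| ≤ 8) →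
    ∀ a : ℕ, Nat.Coprime a (primorial D) →
    ∀ᶠ x : ℕ in atTop, ∀ (y y' : (κ → Finset (PP D x)) → ℝ) (c : ℝ), 0 < c →
    (∀ T, |y T| ≤ 1) → (∀ T, |y' T| ≤ c) →
    (∀ T, y T ≠ 0 → lgs (qq D x) T ≤ 2 / 5 * Real.log x) →
    (∀ T, y' T ≠ 0 → lgs (qq D x) T ≤ 2 / 5 * Real.log x) →
    (∀ T U, y T ≠ 0 → y' U ≠ 0 →
      lgs (qq D x) T + lgs (qq D x) U ≤ (1 / 2 - η) * Real.log x) →
    |∑ p ∈ Ioc x (2 * x) with p ≡ a [MOD primorial D] ∧ p.Prime,
        Real.log (p : ℕ) * (SS (qq D x) g y p * SS (qq D x) g y' p) -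
      x / primorial D * Real.log x / BB D x * ∑ T, y T * y' T * wts (qq D x) T| ≤
      c * ε * (x / primorial D * Real.log x * BB D x ^ 2) := by
  set θ := min (min η (1 / 1000)) (ε / 400000) with hθ
  have h0 : 0 < θ := lt_min (lt_min hη (by norm_num)) (by positivity)
  have h1 : θ ≤ η := (min_le_left _ _).trans (min_le_left _ _)
  have h2 : θ ≤ 1 / 1000 := (min_le_left _ _).trans (min_le_right _ _)
  have h3 : 400000 * θ ≤ ε := by linarith [min_le_right (min η (1 / 1000)) (ε / 400000)]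
  filter_upwards [eD_tendsto.eventually_le_const (show 0 < θ ^ 3 by positivity),
    eventually_ge_atTop 16] with D he hD g hg hg8 a ha
  filter_upwards [primeSum0 hD hκ hg hg8 ha h0 h2 he, Meas.L_pos] with x h hl y y' c hc hy hy' hs
    hs' hss
  have := h y (fun T => c⁻¹ * y' T) hy (fun T => by
    rw [abs_mul, abs_of_pos (inv_pos.2 hc), inv_mul_le_iff₀ hc, mul_one]; exact hy' T) hs
    (fun T h => hs' T (right_ne_zero_of_mul h)) fun T U a1 a2 =>
      (hss T U a1 (right_ne_zero_of_mul a2)).trans (by gcongr)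
  rw [mul_assoc c, ← inv_mul_le_iff₀ hc, ← abs_of_pos (inv_pos.2 hc), ← abs_mul]
  refine le_trans (le_of_eq ?_) (this.trans (by gcongr))
  congr 1
  simp only [SS_smul, mul_sub, mul_sum]
  congr 1 <;> exact sum_congr rfl fun _ _ => by ring

end

end Pool.Agent.Lib.MP_fc51f7_nt.Pr
end
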