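import Pool.Agent.Lib.MP_fc51f7_nt.PrC

-- part Pool.Agent.Lib.MP_fc51f7_nt.PrD
section

/-! The small prime factors of a shifted prime. -/

set_option autoImplicit false
set_option linter.unusedSectionVars false

namespace Pool.Agent.Lib.MP_fc51f7_nt.Pr

open Finset Filter Topology

section
variable {ι κ : Type} [Fintype ι] [DecidableEq ι] [Fintype κ] [DecidableEq κ]

noncomputable def zz (q : ι → ℕ) (y0 : Finset ι → ℝ) (i : ι) (T : Finset ι) : ℝ :=
  if i ∈ T then -(((q i : ℝ) - 1) / q i * dif y0 i (T.erase i)) else dif y0 i T / q i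

theorem sum_split (i : ι) (F : Finset ι → ℝ) :
    ∑ T, F T = ∑ T ∈ (univ.erase i).powerset, (F T + F (insert i T)) := by
  have e : (univ : Finset (Finset ι)) = (insert i (univ.erase i)).powerset := by
    rw [insert_erase (mem_univ i), powerset_univ]
  rw [e, sum_powerset_insert (notMem_erase i _), ← sum_add_distrib]

theorem S0_zz (q : ι → ℕ) (hq : ∀ i, 2 ≤ q i) (y0 : Finset ι → ℝ) (i : ι) (m : ℤ) :
    S0 q (zz q y0 i) m = if (q i : ℤ) ∣ m then S0 q y0 m else 0 := by
  have h2 : (2 : ℝ) ≤ q i := by exact_mod_cast hq i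
  have h3 : (q i : ℝ) - 1 ≠ 0 := by linarith
  have h4 : (q i : ℝ) ≠ 0 := by linarith
  split_ifs with h
  · rw [S0, S0, sum_split i, sum_split i]
    refine sum_congr rfl fun T hT => ?_
    have hi : i ∉ T := fun h' => notMem_erase i _ (mem_powerset.1 hT h')
    simp only [zz, dif, if_neg hi, mem_insert_self, if_true, Xi, prod_insert hi, xi, if_pos h,
      erase_insert hi]
    field_simp; ring
  · rw [S0, sum_split i]
    refine sum_eq_zero fun T hT => ?_
    have hi : i ∉ T := fun h' => notMem_erase i _ (mem_powerset.1 hT h')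
    simp only [zz, dif, if_neg hi, mem_insert_self, if_true, Xi, prod_insert hi, erase_insert hi]
    rw [show xi (q i) m = ((q i : ℝ) - 1)⁻¹ from if_neg h]
    field_simp; ring

theorem sum_zz (q : ι → ℕ) (hq : ∀ i, 2 ≤ q i) (y0 : Finset ι → ℝ) (i : ι) :
    ∑ T, y0 T * zz q y0 i T * wt q T = (q i : ℝ)⁻¹ * ∑ T, dif y0 i T * dif y0 i T * wt q T := by
  have h2 : (2 : ℝ) ≤ q i := by exact_mod_cast hq i
  have h3 : (q i : ℝ) - 1 ≠ 0 := by linarith
  have h4 : (q i : ℝ) ≠ 0 := by linarith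
  rw [sum_split i, sum_split i, mul_sum]
  refine sum_congr rfl fun T hT => ?_
  have hi : i ∉ T := fun h' => notMem_erase i _ (mem_powerset.1 hT h')
  simp only [zz, dif, if_neg hi, mem_insert_self, if_true, wt, prod_insert hi, erase_insert hi]
  field_simp; ring

def sl (y : (Option κ → Finset ι) → ℝ) (T' : κ → Finset ι) (T0 : Finset ι) : ℝ :=
  y fun o => o.elim T0 T'

noncomputable def ZO (q : ι → ℕ) (y : (Option κ → Finset ι) → ℝ) (i : ι)
    (T : Option κ → Finset ι) : ℝ := zz q (sl y fun j => T (some j)) i (T none)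

theorem SS_option (q : ι → ℕ) (g : Option κ → ℤ) (y : (Option κ → Finset ι) → ℝ) (m : ℤ) :
    SS q g y m = ∑ T' : κ → Finset ι,
      S0 q (sl y T') (m + g none) * ∏ j, Xi q (T' j) (m + g (some j)) := by
  rw [SS, sum_option, sum_comm]
  refine sum_congr rfl fun T' _ => ?_
  rw [S0, sum_mul]
  refine sum_congr rfl fun T0 _ => ?_
  simp [sl, Fintype.prod_option, mul_assoc]

theorem wts_option (q : ι → ℕ) (y y' : (Option κ → Finset ι) → ℝ) :
    ∑ T, y T * y' T * wts q T = ∑ T' : κ → Finset ι,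
      (∑ T0, sl y T' T0 * sl y' T' T0 * wt q T0) * wts q T' := by
  rw [sum_option, sum_comm]
  refine sum_congr rfl fun T' _ => ?_
  rw [sum_mul]
  refine sum_congr rfl fun T0 _ => ?_
  simp [sl, wts, Fintype.prod_option, mul_assoc]

theorem SS_ZO (q : ι → ℕ) (hq : ∀ i, 2 ≤ q i) (g : Option κ → ℤ) (y : (Option κ → Finset ι) → ℝ)
    (i : ι) (m : ℤ) :
    SS q g (ZO q y i) m = if (q i : ℤ) ∣ m + g none then SS q g y m else 0 := by
  rw [SS_option, SS_option]
  have : ∀ T', sl (ZO q y i) T' = zz q (sl y T') i := fun _ => rfl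
  simp only [this, S0_zz q hq]
  split_ifs <;> simp

end

/-- Admissible radial profiles. -/
structure Prof (f : ℝ → ℝ) (K : ℝ) : Prop where
  lip : ∀ a b, |f a - f b| ≤ K * |a - b|
  le : ∀ a, |f a| ≤ 1
  zero : ∀ a, 7 / 50 ≤ a → f a = 0

theorem Prof.pos {f : ℝ → ℝ} {K : ℝ} (h : Prof f K) : 0 ≤ K := by
  simpa using (abs_nonneg _).trans (h.lip 1 0)

theorem Prof.cont {f : ℝ → ℝ} {K : ℝ} (h : Prof f K) : Continuous f := grLip_cont h.lip

theorem Prof.lt {f : ℝ → ℝ} {K a : ℝ} (h : Prof f K) (ha : f a ≠ 0) : a < 7 / 50 :=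
  not_le.1 fun h' => ha (h.zero a h')

noncomputable def YY (f : ℝ → ℝ) (D x : ℕ) (κ : Type) [Fintype κ] (T : κ → Finset (PP D x)) : ℝ :=
  f (lgs (qq D x) T / Real.log x)

noncomputable def Dn (f : ℝ → ℝ) (u : ℝ) : ℝ :=
  ∫ s in (0 : ℝ)..1, (f s - f (s + u)) ^ 2 * (s ^ 2 / 2)

open Classical in
noncomputable def cnt (η : ℝ) (x m : ℕ) : ℝ :=
  ∑ r ∈ m.primeFactors with Real.log (r : ℕ) / Real.log x ≤ 2198 / 10000,
    if Real.log (r : ℕ) / Real.log x ≤ η then 8 else 1

section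
variable {f : ℝ → ℝ} {K : ℝ} (hf : Prof f K)
include hf

theorem YY_supp {D x : ℕ} {κ : Type} [Fintype κ] (hl : 0 < Real.log x)
    {T : κ → Finset (PP D x)} (h : YY f D x κ T ≠ 0) :
    lgs (qq D x) T ≤ 7 / 50 * Real.log x := ((div_lt_iff₀ hl).1 (hf.lt h)).le

theorem Dn_cont : Continuous (Dn f) :=
  intervalIntegral.continuous_parametric_intervalIntegral_of_continuous' (by
    have := hf.cont
    unfold Function.uncurry
    fun_prop) _ _

theorem dif_YY {D x : ℕ} (hl : 0 < Real.log x) (T' : Fin 2 → Finset (PP D x)) (i : PP D x)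
    (T : Finset (PP D x)) : |dif (sl (YY f D x (Option (Fin 2))) T') i T| ≤ K * uu D x i ∧
      (dif (sl (YY f D x (Option (Fin 2))) T') i T ≠ 0 →
        lg (qq D x) T + lgs (qq D x) T' ≤ 7 / 50 * Real.log x) ∧
      dif (sl (YY f D x (Option (Fin 2))) T') i T * dif (sl (YY f D x (Option (Fin 2))) T') i T ≤
        (f ((lg (qq D x) T + lgs (qq D x) T') / Real.log x) -
          f ((lg (qq D x) T + lgs (qq D x) T') / Real.log x + uu D x i)) ^ 2 := by
  have hu := uu_pos hl i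
  have hK := hf.pos
  unfold dif
  split_ifs with h
  · exact ⟨by simp only [abs_zero]; positivity, fun h => absurd rfl h, by
      simp only [mul_zero]; positivity⟩
  have e1 : sl (YY f D x (Option (Fin 2))) T' T =
      f ((lg (qq D x) T + lgs (qq D x) T') / Real.log x) := by
    rw [sl, YY, lgs_option]; rfl
  have e2 : sl (YY f D x (Option (Fin 2))) T' (insert i T) =
      f ((lg (qq D x) T + lgs (qq D x) T') / Real.log x + uu D x i) := by
    rw [sl, YY, lgs_option, add_div, add_div, add_right_comm, ← lg_insert h]; rfl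
  rw [e1, e2]
  refine ⟨(hf.lip _ _).trans (le_of_eq ?_), fun h1 => ?_, (sq _).ge⟩
  · rw [sub_add_cancel_left, abs_neg, abs_of_pos hu]
  · refine ((div_lt_iff₀ hl).1 (not_le.1 fun h2 => h1 ?_)).le
    rw [hf.zero _ h2, hf.zero _ (by linarith), sub_zero]

theorem ZO_bd {D x : ℕ} (hl : 0 < Real.log x) (i : PP D x)
    (T : Option (Fin 2) → Finset (PP D x)) :
    |ZO (qq D x) (YY f D x _) i T| ≤
      K * ((if i ∈ T none then uu D x i else 0) + uu D x i / qq D x i) ∧
    (ZO (qq D x) (YY f D x _) i T ≠ 0 →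
      lgs (qq D x) T ≤ (7 / 50 + uu D x i) * Real.log x) := by
  have hu := uu_pos hl i
  have hK := hf.pos
  have h2 := Meas.two_le D x i
  rw [lgs_option]
  unfold ZO zz
  split_ifs with h
  · obtain ⟨a1, a2, -⟩ := dif_YY hf hl (fun j => T (some j)) i ((T none).erase i)
    refine ⟨?_, fun h1 => ?_⟩
    · rw [abs_neg, abs_mul, abs_of_nonneg (div_nonneg (by linarith) (by linarith))]
      refine (mul_le_of_le_one_left (abs_nonneg _) ((div_le_one (by linarith)).2
        (by linarith))).trans (a1.trans ?_)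
      gcongr; exact le_add_of_nonneg_right (by positivity)
    · have a3 := a2 (right_ne_zero_of_mul (neg_ne_zero.1 h1))
      have a4 := lg_insert (notMem_erase i (T none))
      rw [insert_erase h, div_add' _ _ _ hl.ne', div_left_inj' hl.ne'] at a4
      linarith
  · obtain ⟨a1, a2, -⟩ := dif_YY hf hl (fun j => T (some j)) i (T none)
    refine ⟨?_, fun h1 => ?_⟩
    · rw [abs_div, zero_add, ← mul_div_assoc, abs_of_nonneg (show (0 : ℝ) ≤ qq D x i by linarith)]
      gcongr
    · have a3 := a2 fun h => h1 (by rw [h, zero_div])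
      nlinarith [mul_pos hu hl]

theorem Dn_unif (D : ℕ) {ε : ℝ} (hε : 0 < ε) : ∀ᶠ x : ℕ in atTop, ∀ u ∈ Set.Icc (0 : ℝ) 1,
    ∑ T : Option (Fin 2) → Finset (PP D x), (f (lgs (qq D x) T / Real.log x) -
      f (lgs (qq D x) T / Real.log x + u)) ^ 2 * wts (qq D x) T ≤ (Dn f u + ε) * BB D x ^ 3 := by
  have h2 := (conv_nu_pow D (Option (Fin 2)) 2 (by simp)).unif
    (fun u t => (f t - f (t + max u 0)) ^ 2) (T := 1) (K := 4 * K)
    0 1 zero_le_one (fun u => by have := hf.cont; fun_prop)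
    (fun u t ht => by
      rw [hf.zero _ (by linarith), hf.zero _ (by linarith [le_max_right u 0])]; simp)
    (fun u u' t => by
      rw [sq_sub_sq, abs_mul]
      have h3 := hf.lip (t + max u' 0) (t + max u 0)
      have h4 : |t + max u' 0 - (t + max u 0)| ≤ |u - u'| := by
        rw [add_sub_add_left_eq_sub, abs_sub_comm]; exact abs_max_sub_max_le_abs _ _ _
      have h5 : |f t - f (t + max u 0) + (f t - f (t + max u' 0))| ≤ 4 := by
        have := abs_le.1 (hf.le t); have := abs_le.1 (hf.le (t + max u 0))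
        have := abs_le.1 (hf.le (t + max u' 0))
        exact abs_le.2 ⟨by linarith, by linarith⟩
      rw [sub_sub_sub_cancel_left, mul_assoc]
      exact mul_le_mul h5 (h3.trans (mul_le_mul_of_nonneg_left h4 hf.pos)) (abs_nonneg _)
        (by norm_num)) hε
  filter_upwards [h2, Meas.BB_pos D] with x h hB u hu
  have := (abs_le.1 (h u hu)).2
  simp only [zero_mul, zero_add, max_eq_left hu.1, Nat.factorial_two, Nat.cast_ofNat] at this
  rw [← div_le_iff₀ (by positivity), sum_div]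
  refine le_trans (le_of_eq (sum_congr rfl fun T _ => by ring)) (sub_le_iff_le_add'.1 this)

theorem small {η ε : ℝ} (hη : 0 < η) (hη' : η ≤ 1 / 1000) (hε : 0 < ε) :
    ∀ᶠ D : ℕ in atTop, ∀ g : Option (Fin 2) → ℤ, Function.Injective g →
    (∀ j, g j ≠ 0 ∧ |g j| ≤ 8) → ∀ h a : ℕ, g none = h → Nat.Coprime a (primorial D) →
    Nat.Coprime (a + h) (primorial D) → ∀ᶠ x : ℕ in atTop,
    ∑ p ∈ Ioc x (2 * x) with p ≡ a [MOD primorial D] ∧ p.Prime,
      Real.log (p : ℕ) * (cnt η x (p + h) * SS (qq D x) g (YY f D x _) p ^ 2) ≤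
      x / primorial D * Real.log x * BB D x ^ 2 *
        ((∫ u in η..(2198 / 10000), Dn f u / u) + 48 * K ^ 2 * η + 3 * ε) := by
  classical
  have hK := hf.pos
  filter_upwards [primeSum (κ := Option (Fin 2)) (by simp)
    (show (0 : ℝ) < 2 / 10000 by norm_num) (show 0 < ε / (24 * K + 1) by positivity)]
    with D hD g hg hg8 h a hh ha ha'
  have h1 := (conv_pi D).Ioc hη (show η ≤ 2198 / 10000 by linarith)
    (g := fun u => Dn f u / u) (ContinuousOn.div (Dn_cont hf).continuousOn continuousOn_id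
      fun u hu => (hη.trans_le hu.1).ne')
  simp only [mul_one] at h1
  filter_upwards [hD g hg hg8 a ha, h1.eventually_le_const (lt_add_of_pos_right _ hε),
    Dn_unif hf D (show 0 < ε * η / 2 by positivity), inv_sum_le D hη, pi_bdd D,
    wts_le (κ := Option (Fin 2)) D, sum_primeFactors D, Meas.L_pos, Meas.BB_pos D,
    eventually_gt_atTop 1] with x h2 h3 h4 h5 h6 h7 h8 hl hB hx
  set s : Finset (PP D x) := univ.filter fun i => uu D x i ≤ 2198 / 10000 with hs
  set c : PP D x → ℝ := fun i => if uu D x i ≤ η then 8 else 1 with hc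
  have c0 : ∀ i, 0 ≤ c i ∧ c i ≤ 8 := fun i => by simp only [hc]; split_ifs <;> norm_num
  have e0 : ∀ i, Real.log (qq D x i) / (qq D x i * Real.log x) = uu D x i / qq D x i := fun i => by
    rw [uu, div_div, mul_comm]
  simp only [e0] at h3 h6
  change ∑ i : PP D x with η < uu D x i ∧ uu D x i ≤ 2198 / 10000,
    uu D x i / qq D x i * (Dn f (uu D x i) / uu D x i) ≤ _ at h3
  have h9 : ∀ t : Finset (PP D x), (∀ i ∈ t, uu D x i ≤ 1) → ∑ i ∈ t, uu D x i / qq D x i ≤ 2 :=
    fun t ht => (sum_le_sum_of_subset_of_nonneg (fun i hi => mem_filter.2 ⟨mem_univ _, ht i hi⟩)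
      fun i _ _ => div_nonneg (uu_pos hl i).le (Nat.cast_nonneg _)).trans h6
  set z : (Option (Fin 2) → Finset (PP D x)) → ℝ :=
    fun T => ∑ i ∈ s, c i * ZO (qq D x) (YY f D x _) i T with hz
  have z1 : ∀ T, z T ≠ 0 → lgs (qq D x) T ≤ (7 / 50 + 2198 / 10000) * Real.log x := fun T hT => by
    obtain ⟨i, hi, h⟩ := exists_ne_zero_of_sum_ne_zero hT
    exact ((ZO_bd hf hl i T).2 (right_ne_zero_of_mul h)).trans (by
      have := (mem_filter.1 hi).2; gcongr)
  have z2 : ∀ T, |z T| ≤ 24 * K + 1 := fun T => by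
    by_cases hT : z T = 0
    · rw [hT, abs_zero]; positivity
    refine (abs_sum_le_sum_abs _ _).trans (le_trans (sum_le_sum (g := fun i => 8 * (K *
      ((if i ∈ T none then uu D x i else 0) + uu D x i / qq D x i))) fun i _ => ?_) ?_)
    · rw [abs_mul, abs_of_nonneg (c0 i).1]
      exact mul_le_mul (c0 i).2 (ZO_bd hf hl i T).1 (abs_nonneg _) (by norm_num)
    · rw [← mul_sum, ← mul_sum, sum_add_distrib, ← sum_filter]
      have a1 := h9 s fun i hi => (mem_filter.1 hi).2.trans (by norm_num)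
      have a2 : ∑ i ∈ s with i ∈ T none, uu D x i ≤ 1 := by
        refine (sum_le_sum_of_subset_of_nonneg (t := T none) (fun i hi => (mem_filter.1 hi).2)
          fun i _ _ => (uu_pos hl i).le).trans ?_
        have a3 := z1 T hT
        rw [lgs_option] at a3
        have a4 := lgs_nonneg (qq D x) fun j => T (some j)
        unfold uu
        rw [← sum_div, div_le_one hl]
        exact le_trans (show lg (qq D x) (T none) ≤ _ by linarith) (le_refl _)
      have := mul_le_mul_of_nonneg_left (add_le_add a2 a1) hK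
      linarith
  have b1 := (abs_le.1 (h2 (YY f D x _) z _ (by positivity) (fun T => hf.le _) z2
    (fun T hT => (YY_supp hf hl hT).trans (by linarith)) (fun T hT => (z1 T hT).trans (by linarith))
    fun T U a1 a2 => by linarith [YY_supp hf hl a1, z1 U a2])).2
  rw [mul_div_cancel₀ _ (by positivity)] at b1
  have b2 : ∑ T, YY f D x _ T * z T * wts (qq D x) T ≤
      BB D x ^ 3 * ((∫ u in η..(2198 / 10000), Dn f u / u) + 48 * K ^ 2 * η + 2 * ε) := by
    set d : PP D x → ℝ := fun i => ∑ T : Option (Fin 2) → Finset (PP D x),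
      (f (lgs (qq D x) T / Real.log x) - f (lgs (qq D x) T / Real.log x + uu D x i)) ^ 2 *
        wts (qq D x) T with hd
    have a1 : ∑ T, YY f D x _ T * z T * wts (qq D x) T ≤ ∑ i ∈ s, c i * ((qq D x i : ℝ)⁻¹ * d i) := by
      simp only [hz, mul_sum, sum_mul]
      rw [sum_comm]
      refine sum_le_sum fun i _ => ?_
      rw [show ∑ T, YY f D x _ T * (c i * ZO (qq D x) (YY f D x _) i T) * wts (qq D x) T =
        c i * ∑ T, YY f D x _ T * ZO (qq D x) (YY f D x _) i T * wts (qq D x) T by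
          rw [mul_sum]; exact sum_congr rfl fun T _ => by ring]
      refine mul_le_mul_of_nonneg_left ?_ (c0 i).1
      have : ∀ T', sl (ZO (qq D x) (YY f D x (Option (Fin 2))) i) T' =
        zz (qq D x) (sl (YY f D x _) T') i := fun _ => rfl
      simp only [wts_option, this, sum_zz _ (qq_two D x), mul_assoc (qq D x i : ℝ)⁻¹, ← mul_sum]
      refine mul_le_mul_of_nonneg_left ?_ (by positivity)
      simp only [hd]
      rw [sum_option, sum_comm]
      refine sum_le_sum fun T' _ => ?_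
      rw [sum_mul]
      refine sum_le_sum fun T0 _ => ?_
      rw [lgs_option, mul_assoc, show (wts (qq D x) fun o => Option.elim o T0 T') =
        wt (qq D x) T0 * wts (qq D x) T' by simp [wts, Fintype.prod_option]]
      exact mul_le_mul_of_nonneg_right (dif_YY hf hl T' i T0).2.2
        (mul_nonneg (wt_nonneg _ (qq_two D x) _) (wts_nonneg _ (qq_two D x) _))
    refine a1.trans ?_
    rw [← sum_filter_add_sum_filter_not s fun i => uu D x i ≤ η]
    have a2 : ∑ i ∈ s with uu D x i ≤ η, c i * ((qq D x i : ℝ)⁻¹ * d i) ≤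
        BB D x ^ 3 * (48 * K ^ 2 * η) := by
      have a3 := mul_le_mul_of_nonneg_left (h9 (s.filter fun i => uu D x i ≤ η) fun i hi =>
        (mem_filter.1 hi).2.trans (by linarith))
        (show 0 ≤ BB D x ^ 3 * (24 * K ^ 2 * η) by positivity)
      refine le_trans ?_ (a3.trans (le_of_eq (by ring)))
      rw [mul_sum]
      refine sum_le_sum fun i hi => ?_
      have a4 := (mem_filter.1 hi).2
      have a5 := uu_pos hl i
      have a6 := h7 (fun T => f (lgs (qq D x) T / Real.log x) -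
        f (lgs (qq D x) T / Real.log x + uu D x i)) (K * uu D x i) (fun T => (hf.lip _ _).trans
          (by rw [sub_add_cancel_left, abs_neg, abs_of_pos a5])) fun T hT => by
        refine le_trans ((div_lt_iff₀ hl).1 (not_le.1 fun h2 : 7 / 50 ≤ _ => hT ?_)).le (by linarith)
        rw [hf.zero _ h2, hf.zero _ (by linarith), sub_zero]
      simp only [← sq, Fintype.card_option, Fintype.card_fin] at a6
      simp only [hc, if_pos a4]
      refine (mul_le_mul_of_nonneg_left (mul_le_mul_of_nonneg_left a6 (by positivity))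
        (by norm_num)).trans (le_trans (le_of_eq (show _ = BB D x ^ 3 * (24 * K ^ 2 * uu D x i) *
          (uu D x i / qq D x i) by ring)) (by gcongr))
    have a7 : ∑ i ∈ s with ¬ uu D x i ≤ η, c i * ((qq D x i : ℝ)⁻¹ * d i) ≤
        BB D x ^ 3 * ((∫ u in η..(2198 / 10000), Dn f u / u) + 2 * ε) := by
      rw [hs, filter_filter, filter_congr (q := fun i => η < uu D x i ∧ uu D x i ≤ 2198 / 10000)
        fun i _ => by rw [not_le, and_comm]]
      have a8 : ∑ i : PP D x with η < uu D x i ∧ uu D x i ≤ 2198 / 10000, (qq D x i : ℝ)⁻¹ ≤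
          2 / η := (sum_le_sum_of_subset_of_nonneg (fun i hi => mem_filter.2 ⟨mem_univ _,
            (mem_filter.1 hi).2.1, (mem_filter.1 hi).2.2.trans (by norm_num)⟩)
            fun i _ _ => by positivity).trans h5
      have a9 := mul_le_mul_of_nonneg_left (add_le_add h3 (mul_le_mul_of_nonneg_left a8
        (show 0 ≤ ε * η / 2 by positivity))) (show 0 ≤ BB D x ^ 3 by positivity)
      refine le_trans ?_ (a9.trans (le_of_eq (by field_simp; ring)))
      rw [mul_sum, ← sum_add_distrib, mul_sum]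
      refine sum_le_sum fun i hi => ?_
      obtain ⟨a4, a5⟩ := (mem_filter.1 hi).2
      have a6 := uu_pos hl i
      simp only [hc, if_neg (not_le.2 a4), one_mul]
      refine (mul_le_mul_of_nonneg_left (h4 _ ⟨a6.le, by linarith⟩) (by positivity)).trans
        (le_of_eq ?_)
      field_simp
    exact (add_le_add a2 a7).trans (le_of_eq (by ring))
  have b3 := mul_le_mul_of_nonneg_left b2
    (show 0 ≤ x / primorial D * Real.log x / BB D x by positivity)
  refine le_trans (le_of_eq (sum_congr rfl fun p hp => ?_))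
    (((sub_le_iff_le_add'.1 b1).trans (add_le_add b3 le_rfl)).trans (le_of_eq (by field_simp; ring)))
  obtain ⟨p1, p2, -⟩ := mem_filter.1 hp
  congr 1
  rw [cnt, h8 (p + h) (fun r => Real.log r / Real.log x ≤ 2198 / 10000) _
    (by have := (mem_Ioc.1 p1).1; omega) fun r hr h => ?_, SS_sum, sq, ← mul_assoc, mul_comm,
    sum_mul]
  · congr 1
    refine sum_congr rfl fun i _ => ?_
    rw [SS_smul, SS_ZO _ (qq_two D x), hh, ← Nat.cast_add]
    simp only [Int.natCast_dvd_natCast, hc, uu]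
    split_ifs <;> simp
  · have hr' := Nat.prime_of_mem_primeFactors hr
    refine ⟨gt_of_cop ha' (p2.add_right _) hr' (Nat.dvd_of_mem_primeFactors hr), ?_⟩
    have := not_lt.1 fun h' => absurd ((lt_iff_u hx hr'.pos 1).1 h') (by linarith)
    rw [Real.rpow_one] at this
    exact_mod_cast this

end

end Pool.Agent.Lib.MP_fc51f7_nt.Pr
end

-- part Pool.Agent.Lib.MP_fc51f7_nt.PrE
section

/-! Shifted primes with three large prime factors: the switching sums. -/

set_option autoImplicit false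
set_option linter.unusedSectionVars false

namespace Pool.Agent.Lib.MP_fc51f7_nt.Pr

open Finset Filter Topology

theorem sum_inj {ι κ : Type} [DecidableEq κ] {s : Finset ι} {t : Finset κ}
    {f : ι → ℝ} {g : κ → ℝ} (e : ι → κ) (he : Set.InjOn e s) (ht : ∀ i ∈ s, e i ∈ t)
    (h : ∀ i ∈ s, f i ≤ g (e i)) (hg : ∀ k ∈ t, 0 ≤ g k) : ∑ i ∈ s, f i ≤ ∑ k ∈ t, g k :=
  calc ∑ i ∈ s, f i ≤ ∑ i ∈ s, g (e i) := sum_le_sum h
    _ = ∑ k ∈ s.image e, g k := (sum_image he).symm
    _ ≤ _ := sum_le_sum_of_subset_of_nonneg (image_subset_iff.2 ht) fun k hk _ => hg k hk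

open Classical in
theorem bv4 {κ : Type} [Fintype κ] [DecidableEq κ] {D : ℕ} (hD : 16 ≤ D)
    (hκ : Fintype.card κ = 3) {η δ ε : ℝ} (hη : 0 < η)
    (hδ : 0 < δ) (hε : 0 < ε) {g : κ → ℤ} (hg : Function.Injective g)
    (hg8 : ∀ j, g j ≠ 0 ∧ |g j| ≤ 8) (a : ℕ) :
    ∀ᶠ x : ℕ in atTop, ∀ (y y' : (κ → Finset (PP D x)) → ℝ) (w : ℕ → ℝ) (lo hi : ℕ → ℕ) (c : ℝ),
      0 < c → (∀ T, |y T| ≤ 1) → (∀ T, |y' T| ≤ 1) →
      (∀ T U, y T ≠ 0 → y' U ≠ 0 →
        lgs (qq D x) T + lgs (qq D x) U ≤ (1 / 2 - η) * Real.log x) →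
      (∀ m ∈ Icc 1 x, rough η x m → |w m| ≤ c) →
      (∀ j, (x : ℝ) ^ η ≤ lo j + 1 ∧ (hi j : ℝ) ≤ 2 * x * Real.exp (-(j * δ))) →
      ∑ m ∈ Icc 1 x with rough η x m, ∑ p ∈ Ioc (lo (box δ m)) (hi (box δ m)) with
          p.Prime ∧ p * m ≡ a [MOD primorial D], Real.log p * w m *
            (SS (qq D x) g y (p * m : ℕ) * SS (qq D x) g y' (p * m : ℕ)) ≤
        (∑ T, y T * y' T * wts (qq D x) T) *
        ∑ m ∈ Icc 1 x with rough η x m, ∑ p ∈ Ioc (lo (box δ m)) (hi (box δ m)) with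
          p.Prime ∧ p * m ≡ a [MOD primorial D], Real.log p * w m +
      (c * (ε * x * Real.log x ^ 3) + eD D * BB D x ^ 3 *
        |∑ m ∈ Icc 1 x with rough η x m, ∑ p ∈ Ioc (lo (box δ m)) (hi (box δ m)) with
          p.Prime ∧ p * m ≡ a [MOD primorial D], Real.log p * w m|) := by
  filter_upwards [bv3 hD hκ hη hδ hε hg hg8 a] with x h y y' w lo hi c hc hy hy' hs hw hb
  have := mul_le_mul_of_nonneg_left (abs_le.1 (h y y' (fun m => c⁻¹ * w m) lo hi hy hy' hs
    (fun m hm hr => by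
      rw [abs_mul, abs_of_pos (inv_pos.2 hc), inv_mul_le_iff₀ hc, mul_one]; exact hw m hm hr) hb)).2
    hc.le
  simp only [mul_left_comm _ c⁻¹, mul_assoc c⁻¹, ← mul_sum, ← mul_sub, abs_mul,
    abs_of_pos (inv_pos.2 hc)] at this
  rw [inv_mul_cancel_left₀ hc.ne', mul_add, mul_inv_cancel_left₀ hc.ne'] at this
  linarith

open Classical in
/-- The large prime factors. -/
noncomputable def lar (x m : ℕ) : Finset ℕ :=
  m.primeFactors.filter fun r => 2198 / 10000 < Real.log r / Real.log x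

noncomputable def N2 (x m : ℕ) : ℝ := ∑ q ∈ lar x m, ((lar x (m / q)).card : ℝ)

open Classical in
noncomputable def tri (η : ℝ) (x m : ℕ) : ℝ :=
  ∑ p ∈ lar x m with rough η x (m / p), N2 x (m / p) / 6

noncomputable def ps (v : ℝ) : ℝ :=
  max 0 (min 1 ((7804 / 10000 - v) * 10000)) / max (1 - v) (2196 / 10000)

noncomputable def P2 : ℝ → ℝ := Psi (2198 / 10000) (Psi (2198 / 10000) ps)

noncomputable def RR (f : ℝ → ℝ) (σ : ℝ) : ℝ :=
  ((∫ u in (0 : ℝ)..1, f (u + σ)) ^ 2 * P2 0 +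
    ∫ v in (0 : ℝ)..1, P2 v * ∫ u in (0 : ℝ)..v, f (u + σ) ^ 2) / 6

noncomputable def ww (x m : ℕ) : ℝ := N2 x m * ps (Real.log m / Real.log x) / 6

noncomputable def lo2 (b : ℝ) (x j : ℕ) : ℕ :=
  ⌊max ((x : ℝ) ^ (1 / 5 : ℝ)) (x * Real.exp (-((j + 1) * b)))⌋₊

noncomputable def hi2 (b : ℝ) (x j : ℕ) : ℕ := ⌊2 * x * Real.exp (-(j * b))⌋₊

theorem ps_den (v : ℝ) : 0 < max (1 - v) (2196 / 10000) := lt_max_of_lt_right (by norm_num)

theorem ps_cont : Continuous ps :=
  Continuous.div (by fun_prop) (by fun_prop) fun v => (ps_den v).ne'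

theorem ps_mem (v : ℝ) : 0 ≤ ps v ∧ ps v ≤ 5 := by
  refine ⟨div_nonneg (le_max_left _ _) (ps_den v).le, (div_le_iff₀ (ps_den v)).2 ?_⟩
  have := le_max_right (1 - v) (2196 / 10000)
  exact (max_le zero_le_one (min_le_left _ _)).trans (by linarith)

theorem ps_zero {v : ℝ} (h : 7804 / 10000 ≤ v) : ps v = 0 := by
  rw [ps, max_eq_left ((min_le_right _ _).trans (by linarith)), zero_div]

theorem P2_cont : Continuous P2 := Psi_cont (by norm_num) (Psi_cont (by norm_num) ps_cont)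

theorem P2_nonneg (v : ℝ) : 0 ≤ P2 v := Psi_nonneg (by norm_num) (by norm_num)
  (Psi_nonneg (by norm_num) (by norm_num) fun s => (ps_mem s).1) v

theorem RR_nonneg (f : ℝ → ℝ) (σ : ℝ) : 0 ≤ RR f σ :=
  div_nonneg (add_nonneg (mul_nonneg (sq_nonneg _) (P2_nonneg _))
    (intervalIntegral.integral_nonneg zero_le_one fun _ hv => mul_nonneg (P2_nonneg _)
      (intervalIntegral.integral_nonneg hv.1 fun _ _ => sq_nonneg _))) (by norm_num)

theorem N2_nonneg (x m : ℕ) : 0 ≤ N2 x m := sum_nonneg fun _ _ => Nat.cast_nonneg _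

theorem ww_nonneg (x m : ℕ) : 0 ≤ ww x m :=
  div_nonneg (mul_nonneg (N2_nonneg _ _) (ps_mem _).1) (by norm_num)

theorem tri_nonneg (η : ℝ) (x m : ℕ) : 0 ≤ tri η x m :=
  sum_nonneg fun _ _ => div_nonneg (N2_nonneg _ _) (by norm_num)

theorem lar_card : ∀ᶠ x : ℕ in atTop, ∀ m ≤ 2 * x, ((lar x m).card : ℝ) ≤ 5 ∧ N2 x m ≤ 25 ∧
    ww x m ≤ 21 ∧ ∀ η, tri η x m ≤ 21 := by
  classical
  filter_upwards [gr_logx.eventually_ge_atTop 11, eventually_gt_atTop 0] with x hl hx
  have h1 : ∀ m ≤ 2 * x, ((lar x m).card : ℝ) ≤ 5 := fun m hm => by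
    rcases m.eq_zero_or_pos with rfl | hm0
    · simp [lar]
    have a1 : ∑ r ∈ lar x m, 2198 / 10000 * Real.log x ≤ ∑ r ∈ lar x m, Real.log r :=
      sum_le_sum fun r hr => ((lt_div_iff₀ (by linarith)).1 (mem_filter.1 hr).2).le
    have a2 := (sum_le_sum_of_subset_of_nonneg (filter_subset _ _ : lar x m ⊆ _)
      fun _ _ _ => Real.log_natCast_nonneg _).trans (sum_log_le hm0)
    have a3 : Real.log m ≤ Real.log (2 * x : ℕ) := Real.log_le_log (by positivity) (by gcongr)
    have a4 := (log_bd hx (mem_Ioc.2 ⟨by omega, le_refl (2 * x)⟩)).2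
    rw [sum_const, nsmul_eq_mul] at a1
    have a5 := a1.trans (a2.trans (a3.trans a4))
    nlinarith
  have h2 : ∀ m ≤ 2 * x, N2 x m ≤ 25 := fun m hm => by
    refine (sum_le_card_nsmul _ _ 5 fun q _ => h1 _ ((Nat.div_le_self _ _).trans hm)).trans ?_
    rw [nsmul_eq_mul]; linarith [h1 m hm]
  refine fun m hm => ⟨h1 m hm, h2 m hm, ?_, fun η => ?_⟩
  · have := mul_le_mul (h2 m hm) (ps_mem (Real.log m / Real.log x)).2 (ps_mem _).1 (by norm_num)
    unfold ww; linarith
  · refine (sum_le_card_nsmul _ _ (25 / 6) fun q _ => div_le_div_of_nonneg_right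
      (h2 _ ((Nat.div_le_self _ _).trans hm)) (by norm_num)).trans ?_
    have : (((lar x m).filter fun p => rough η x (m / p)).card : ℝ) ≤ (lar x m).card := by
      exact_mod_cast card_filter_le _ _
    rw [nsmul_eq_mul]; linarith [h1 m hm]

theorem step (D : ℕ) {ψ : ℝ → ℝ} (hψ : Continuous ψ) (hψ0 : ∀ s, 0 ≤ ψ s) {ε : ℝ} (hε : 0 < ε) :
    ∀ᶠ x : ℕ in atTop, ∀ Nf S : ℕ → ℝ, (∀ n, 0 ≤ Nf n) →
      (∀ q n : ℕ, q.Prime → 2198 / 10000 < Real.log q / Real.log x → S (q * n) = S n) →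
      ∑ m ∈ Icc 1 x with Nat.Coprime m (primorial D), (∑ q ∈ lar x m, Nf (m / q)) *
        ψ (Real.log m / Real.log x) * (S m ^ 2 / m) ≤
      ∑ n ∈ Icc 1 x with Nat.Coprime n (primorial D), Nf n *
        (Psi (2198 / 10000) ψ (Real.log n / Real.log x) + ε) * (S n ^ 2 / n) := by
  filter_upwards [primeConv D (show (0 : ℝ) < 2198 / 10000 by norm_num) (by norm_num) hψ hε,
    mem_PP D, Meas.L_pos] with x h1 h2 hl Nf S hN hS
  have hv : ∀ n ∈ Icc 1 x, Real.log n / Real.log x ∈ Set.Icc (0 : ℝ) 1 := fun n hn =>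
    ⟨div_nonneg (Real.log_natCast_nonneg _) hl.le, (div_le_one hl).2 (Real.log_le_log
      (by exact_mod_cast (mem_Icc.1 hn).1) (by exact_mod_cast (mem_Icc.1 hn).2))⟩
  set A := (univ.filter fun i : PP D x => 2198 / 10000 < Real.log (qq D x i) / Real.log x ∧
    Real.log (qq D x i) / Real.log x ≤ 1).image (qq D x) with hA
  refine le_trans ?_ (sum_le_sum (f := fun n => ∑ q ∈ A, Nf n * ((q : ℝ)⁻¹ *
    ψ (Real.log n / Real.log x + Real.log q / Real.log x)) * (S n ^ 2 / n)) fun n hn => ?_)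
  · simp only [sum_mul]
    rw [sum_sigma', sum_sigma']
    refine sum_inj (fun z => ⟨z.1 / z.2, z.2⟩) ?_ ?_ ?_ fun z _ => by
      have := hN z.1; have := hψ0 (Real.log z.1 / Real.log x + Real.log z.2 / Real.log x)
      positivity
    · rintro ⟨m, q⟩ h ⟨m', q'⟩ h' e
      simp only [Sigma.mk.injEq, heq_eq_eq] at e
      obtain ⟨e, rfl⟩ := e
      have a1 := Nat.dvd_of_mem_primeFactors (mem_filter.1 (mem_sigma.1 (mem_coe.1 h)).2).1
      have a2 := Nat.dvd_of_mem_primeFactors (mem_filter.1 (mem_sigma.1 (mem_coe.1 h')).2).1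
      dsimp only at a1 a2
      rw [← Nat.mul_div_cancel' a1, e, Nat.mul_div_cancel' a2]
    · rintro ⟨m, q⟩ h
      obtain ⟨a1, a2⟩ := mem_sigma.1 h
      obtain ⟨a1, a3⟩ := mem_filter.1 a1
      obtain ⟨a2, a4⟩ := mem_filter.1 a2
      obtain ⟨a5, a6, a7⟩ := Nat.mem_primeFactors.1 a2
      have a8 := (Nat.le_of_dvd (mem_Icc.1 a1).1 a6)
      refine mem_sigma.2 ⟨mem_filter.2 ⟨mem_Icc.2 ⟨Nat.div_pos a8 a5.pos,
        (Nat.div_le_self _ _).trans (mem_Icc.1 a1).2⟩, a3.coprime_dvd_left (Nat.div_dvd_of_dvd a6)⟩, ?_⟩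
      obtain ⟨i, rfl⟩ := h2 q a5 (gt_of_cop a3 (Nat.ModEq.refl _) a5 a6) (a8.trans (mem_Icc.1 a1).2)
      exact mem_image_of_mem _ (mem_filter.2 ⟨mem_univ _, a4,
        (hv _ (mem_Icc.2 ⟨a5.pos, a8.trans (mem_Icc.1 a1).2⟩)).2⟩)
    · rintro ⟨m, q⟩ h
      obtain ⟨a2, a4⟩ := mem_filter.1 (mem_sigma.1 h).2
      dsimp only at a2 a4 ⊢
      obtain ⟨a5, ⟨n, rfl⟩, a7⟩ := Nat.mem_primeFactors.1 a2
      have a8 : (q : ℝ) ≠ 0 := by exact_mod_cast a5.ne_zero
      have a9 : (n : ℝ) ≠ 0 := by exact_mod_cast right_ne_zero_of_mul a7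
      simp only [Nat.mul_div_cancel_left _ a5.pos, hS q n a5 a4, Nat.cast_mul,
        Real.log_mul a8 a9, add_div, add_comm]
      exact le_of_eq (by field_simp)
  · rw [← sum_mul, ← mul_sum, hA, sum_image (qq_inj D x).injOn]
    have := hv n (mem_filter.1 hn).1
    exact mul_le_mul_of_nonneg_right (mul_le_mul_of_nonneg_left
      (h1 _ ⟨this.1, this.2.trans one_le_two⟩) (hN n)) (by positivity)

theorem Psi_add {α : ℝ} (hα : 0 < α) {ψ : ℝ → ℝ} (hψ : Continuous ψ) (θ v : ℝ) :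
    Psi α (fun s => ψ s + θ) v = Psi α ψ v + θ * Psi α (fun _ => 1) 0 := by
  have h0 : ∀ z, max z α ≠ 0 := fun z => (hα.trans_le (le_max_right _ _)).ne'
  unfold Psi
  rw [← intervalIntegral.integral_const_mul, ← intervalIntegral.integral_add
    (Continuous.intervalIntegrable (by fun_prop (disch := exact h0)) _ _)
    (Continuous.intervalIntegrable (by fun_prop (disch := exact h0)) _ _)]
  exact intervalIntegral.integral_congr fun t _ => by ring

theorem theta2 (W : ℕ) (hW : W ≠ 0) {θ b : ℝ} (hθ : 0 < θ) (hb : 0 < b) (h1 : Real.exp b ≤ 2)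
    (h2 : 2 * Real.exp b - Real.exp (-b) ≤ 1 + θ / 4) {a : ℕ} (ha : Nat.Coprime a W) :
    ∀ᶠ x : ℕ in atTop, ∀ m : ℕ, 0 < m → Nat.Coprime m W →
      Real.log m / Real.log x ≤ 7804 / 10000 →
      ∑ p ∈ Ioc (lo2 b x (box b m)) (hi2 b x (box b m)) with p.Prime ∧ p * m ≡ a [MOD W],
        Real.log p ≤ (1 + θ) * (x / m / W.totient) := by
  have hφ : (1 : ℝ) ≤ W.totient := by exact_mod_cast Nat.totient_pos.2 (Nat.pos_of_ne_zero hW)
  obtain ⟨C, hC, h⟩ := theta_Ioc W hW (show 0 < θ / (32 * W.totient) by positivity)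
  filter_upwards [eventually_gt_atTop 1, const_le_rpow
    (2 * (1 + C) * W.totient / θ) (show (0 : ℝ) < 2196 / 10000 by norm_num)] with x hx h3 m
    hm hmW hv
  have hm' : (0 : ℝ) < m := by positivity
  have hx' : (0 : ℝ) < x := by positivity
  rcases le_or_gt (hi2 b x (box b m)) (lo2 b x (box b m)) with he | he
  · rw [Ioc_eq_empty_of_le he]; simp only [filter_empty, sum_empty]; positivity
  have h4 := (abs_le.1 (h a m ha hmW _ _ he.le)).2
  obtain ⟨b1, b2⟩ := box_spec hb hm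
  have h6 : (hi2 b x (box b m) : ℝ) ≤ 2 * Real.exp b * (x / m) := by
    refine (Nat.floor_le (by positivity)).trans ?_
    rw [show -(box b m * b) = b + -((box b m + 1) * b) by ring, Real.exp_add, div_eq_mul_inv,
      show 2 * Real.exp b * (x * (m : ℝ)⁻¹) = 2 * x * (Real.exp b * (m : ℝ)⁻¹) by ring]
    gcongr
  have h7 : Real.exp (-b) * (x / m) ≤ lo2 b x (box b m) + 1 := by
    refine le_trans ?_ ((le_max_right _ _).trans (Nat.lt_floor_add_one _).le)
    rw [show -((box b m + 1) * b) = -b + -(box b m * b) by ring, Real.exp_add, div_eq_mul_inv,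
      mul_left_comm]
    gcongr
  have h9 : 2 * (1 + C) * W.totient / θ ≤ x / m := by
    refine h3.trans ?_
    have := not_lt.1 fun h' => absurd ((lt_iff_u hx hm _).1 h') (not_lt.2 hv)
    rw [le_div_iff₀ hm']
    refine (mul_le_mul_of_nonneg_left this (by positivity)).trans (le_of_eq ?_)
    rw [← Real.rpow_add hx']; norm_num
  rw [div_le_iff₀ hθ] at h9
  have hX : 0 ≤ (x : ℝ) / m := by positivity
  generalize (x : ℝ) / m = X at *
  have e1 : ((hi2 b x (box b m) : ℝ) - lo2 b x (box b m)) / W.totient ≤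
      (1 + θ / 4) * (X / W.totient) + 1 := by
    have : (hi2 b x (box b m) : ℝ) - lo2 b x (box b m) ≤ (1 + θ / 4) * X + 1 := by
      linarith [mul_le_mul_of_nonneg_right h2 hX]
    refine (div_le_div_of_nonneg_right this (by positivity)).trans ?_
    rw [add_div ((1 + θ / 4) * X), mul_div_assoc]; gcongr; exact div_le_self zero_le_one hφ
  have e2 : 2 * (θ / (32 * W.totient)) * hi2 b x (box b m) ≤ θ / 4 * (X / W.totient) :=
    (mul_le_mul_of_nonneg_left (h6.trans (show _ ≤ 2 * 2 * X by gcongr)) (by positivity)).trans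
      (le_of_eq (by field_simp; ring))
  have e4 : 1 + C ≤ θ / 2 * (X / W.totient) := by
    rw [← mul_div_assoc, le_div_iff₀ (by positivity)]; linarith
  linarith

section
variable {f : ℝ → ℝ} {K : ℝ} (hf : Prof f K)
include hf

theorem S1_mul {D x : ℕ} (hl : 0 < Real.log x) {σ : ℝ} (hσ : 0 ≤ σ) {q : ℕ} (hq : q.Prime)
    (h : 1 / 5 < Real.log q / Real.log x) (n : ℕ) :
    S1 (qq D x) (Real.log x) (fun t => f (t + σ)) (q * n : ℕ) =
      S1 (qq D x) (Real.log x) (fun t => f (t + σ)) n :=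
  S0_mul_prime (qq D x) (gr_prime D x) _ hq (fun T hT => by
    have := hf.lt hT
    exact (div_lt_div_iff_of_pos_right hl).1 (by linarith)) n

open Classical in
theorem F5 {σ ε : ℝ} (hσ : 0 ≤ σ) (hε : 0 < ε) : ∀ᶠ b : ℝ in 𝓝[>] 0, ∀ D a : ℕ,
    Nat.Coprime a (primorial D) → ∀ η > 0, ∀ᶠ x : ℕ in atTop,
    ∑ m ∈ Icc 1 x with rough η x m, ∑ p ∈ Ioc (lo2 b x (box b m)) (hi2 b x (box b m)) with
      p.Prime ∧ p * m ≡ a [MOD primorial D], Real.log p *
        (ww x m * S1 (qq D x) (Real.log x) (fun t => f (t + σ)) m ^ 2) ≤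
      x / (primorial D).totient * BB D x ^ 2 * (RR f σ + ε) := by
  set c1 := Psi (2198 / 10000) (fun _ => 1) 0 + 1 with hc1
  set H : ℝ → ℝ := fun v => ∫ u in (0 : ℝ)..v, f (u + σ) ^ 2 with hH
  set c2 := c1 * ((∫ u in (0 : ℝ)..1, f (u + σ)) ^ 2 + ∫ v in (0 : ℝ)..1, H v) + 1 with hc2
  have hlim : Tendsto (fun θ : ℝ => (1 + θ) * (RR f σ + θ * c2 / 6)) (𝓝[>] 0)
      (𝓝 ((1 + 0) * (RR f σ + 0 * c2 / 6))) :=
    tendsto_nhdsWithin_of_tendsto_nhds (Continuous.tendsto (by fun_prop) _)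
  obtain ⟨θ, h1, hθ⟩ := ((hlim.eventually_le_const (show _ < RR f σ + ε by linarith)).and
    self_mem_nhdsWithin).exists
  have hθ : 0 < θ := hθ
  have l1 : Tendsto Real.exp (𝓝[>] 0) (𝓝 (Real.exp 0)) :=
    tendsto_nhdsWithin_of_tendsto_nhds (Real.continuous_exp.tendsto _)
  have l2 : Tendsto (fun b => 2 * Real.exp b - Real.exp (-b)) (𝓝[>] 0)
      (𝓝 (2 * Real.exp 0 - Real.exp (-0))) :=
    tendsto_nhdsWithin_of_tendsto_nhds (Continuous.tendsto (by fun_prop) _)
  filter_upwards [l1.eventually_le_const (show Real.exp 0 < 2 by simp), l2.eventually_le_const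
    (show _ < 1 + θ / 4 by simp only [neg_zero, Real.exp_zero]; linarith), self_mem_nhdsWithin]
    with b h2 h3 hb D a ha η hη
  have hu : (0 : ℝ) < 2198 / 10000 := by norm_num
  have hc := conv_graham D (fun t => f (t + σ)) (K := K)
    (fun a b => by simpa using hf.lip (a + σ) (b + σ)) fun u hu => hf.zero _ (by linarith)
  have hHc : Continuous H := hc.2.1
  have h := hc.le one_pos (g := fun v => P2 v + θ * c1) (P2_cont.add continuous_const).continuousOn
  have e : (∫ u in (0 : ℝ)..1, f (u + σ)) ^ 2 * (P2 0 + θ * c1) +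
      ∫ v in (0 : ℝ)..1, (P2 v + θ * c1) * H v = 6 * RR f σ + θ * c2 - θ := by
    simp only [add_mul]
    rw [intervalIntegral.integral_add ((P2_cont.fun_mul hHc).intervalIntegrable _ _)
      ((continuous_const.fun_mul hHc).intervalIntegrable _ _), intervalIntegral.integral_const_mul,
      RR, hc2]
    ring
  rw [e] at h
  filter_upwards [h.eventually_le_const (sub_lt_self _ hθ),
    theta2 (primorial D) (primorial_ne_zero D) hθ hb h2 h3 ha, rough_cop D hη,
    step D ps_cont (fun s => (ps_mem s).1) hθ,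
    step D ((Psi_cont hu ps_cont).add continuous_const) (fun s => add_nonneg
      (Psi_nonneg hu (by norm_num) (fun s => (ps_mem s).1) s) hθ.le) hθ,
    Meas.BB_pos D, gr_logx.eventually_ge_atTop 1, eventually_gt_atTop 0]
    with x h4 h5 h6 h7 h8 hB hl hx
  have hl0 : 0 < Real.log x := by linarith
  set S : ℕ → ℝ := fun m => S1 (qq D x) (Real.log x) (fun t => f (t + σ)) m with hS
  have hS' : ∀ q n : ℕ, q.Prime → 2198 / 10000 < Real.log q / Real.log x → S (q * n) = S n :=
    fun q n hq h => S1_mul hf hl0 hσ hq (by linarith) n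
  have b1 := h7 (fun n => (lar x n).card) S (fun _ => Nat.cast_nonneg _) hS'
  have b2 := h8 (fun _ => 1) S (fun _ => zero_le_one) hS'
  simp only [sum_const, nsmul_eq_mul, mul_one, one_mul, Pi.add_apply] at b2
  have b3 : ∑ n ∈ Icc 1 x with Nat.Coprime n (primorial D), (Psi (2198 / 10000)
      (Psi (2198 / 10000) ps + fun _ => θ) (Real.log n / Real.log x) + θ) * (S n ^ 2 / n) ≤
      BB D x ^ 2 * (6 * RR f σ + θ * c2) := by
    refine le_trans ?_ (mul_le_mul_of_nonneg_left h4 (by positivity))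
    rw [mul_sum]
    refine le_trans (sum_le_sum fun n _ => le_of_eq ?_) (sum_le_sum_of_subset_of_nonneg
      (fun m hm => ?_) fun m _ _ => ?_)
    · rw [show (Psi (2198 / 10000) ps + fun _ => θ) = fun s => Psi (2198 / 10000) ps s + θ from rfl,
        Psi_add hu (Psi_cont hu ps_cont), hc1, P2]
      field_simp; ring
    · simp only [mem_filter, mem_Icc] at hm ⊢
      refine ⟨⟨⟨hm.1.1, hm.1.2.trans (Nat.le_floor ?_)⟩, hm.2⟩, (div_le_one hl0).2
        (Real.log_le_log (by exact_mod_cast hm.1.1) (by exact_mod_cast hm.1.2))⟩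
      rw [← Real.log_le_iff_le_exp (by positivity), sq]
      exact le_mul_of_one_le_left hl0.le hl
    · have := P2_nonneg (Real.log m / Real.log x)
      have h0 : 0 ≤ c1 :=
        add_nonneg (Psi_nonneg hu (by norm_num) (fun _ => zero_le_one) _) zero_le_one
      exact mul_nonneg (sq_nonneg _) (mul_nonneg (div_nonneg (sq_nonneg _) (by positivity))
        (add_nonneg this (mul_nonneg hθ.le h0)))
  have b4 := mul_le_mul_of_nonneg_left ((b1.trans b2).trans b3)
    (show 0 ≤ (1 + θ) * (x / (primorial D).totient) / 6 by positivity)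
  refine le_trans ?_ (b4.trans (le_trans (le_of_eq (by ring)) (mul_le_mul_of_nonneg_left h1
    (show 0 ≤ x / (primorial D).totient * BB D x ^ 2 by positivity))))
  rw [mul_sum]
  refine le_trans (sum_le_sum fun m hm => ?_) (sum_le_sum_of_subset_of_nonneg (fun m hm =>
    mem_filter.2 ⟨(mem_filter.1 hm).1, h6 m (mem_filter.1 hm).2 (mem_Icc.1 (mem_filter.1 hm).1).1⟩)
      fun m _ _ => ?_)
  · have hm0 : 0 < m := (mem_Icc.1 (mem_filter.1 hm).1).1
    rw [← sum_mul]
    rcases le_total (Real.log m / Real.log x) (7804 / 10000) with hv | hv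
    · refine (mul_le_mul_of_nonneg_right (h5 m hm0 (h6 m (mem_filter.1 hm).2 hm0) hv)
        (mul_nonneg (ww_nonneg _ _) (sq_nonneg _))).trans (le_of_eq ?_)
      rw [ww, N2]; ring
    · rw [ww, ps_zero hv]; simp only [mul_zero, zero_div, zero_mul, le_refl]
  · exact mul_nonneg (by positivity) (mul_nonneg (mul_nonneg (N2_nonneg x m) (ps_mem _).1)
      (div_nonneg (sq_nonneg _) (Nat.cast_nonneg _)))

end

open Classical in
theorem tri_le {θ : ℝ} (hθ : 0 < θ) : ∀ᶠ x : ℕ in atTop, ∀ (η b : ℝ) (W a h : ℕ) (Φ : ℕ → ℝ),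
    0 < b → (∀ m, 0 ≤ Φ m) →
    ∑ p ∈ Ioc x (2 * x) with (p ≡ a [MOD W] ∧ p.Prime) ∧ p + h ≤ 2 * x,
      Real.log (p : ℕ) * (tri η x (p + h) * Φ (p + h)) ≤ (1 + θ) *
    ∑ m ∈ Icc 1 x with rough η x m, ∑ p ∈ Ioc (lo2 b x (box b m)) (hi2 b x (box b m)) with
      p.Prime ∧ p * m ≡ a + h [MOD W], Real.log p * ww x m * Φ (p * m) := by
  filter_upwards [gr_logx.eventually_ge_atTop (10000 + 1 / θ), eventually_gt_atTop 1]
    with x hl hx η b W a h Φ hb hΦ
  have hθ' : 0 < 1 / θ := by positivity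
  have hl0 : 0 < Real.log x := by linarith
  have hx' : (1 : ℝ) < x := by exact_mod_cast hx
  have a1 : Real.log x + 1 ≤ (1 + θ) * Real.log x := by
    have : 1 / θ ≤ Real.log x := by linarith
    rw [div_le_iff₀ hθ] at this; linarith
  calc _ ≤ ∑ n ∈ Ioc x (2 * x) with n ≡ a + h [MOD W],
        (1 + θ) * (Real.log x * tri η x n * Φ n) := by
        refine sum_inj (· + h) (add_left_injective h).injOn (fun p hp => ?_) (fun p hp => ?_)
          fun n _ => by have := tri_nonneg η x n; have := hΦ n; positivity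
        · obtain ⟨b1, ⟨b2, -⟩, b3⟩ := mem_filter.1 hp
          exact mem_filter.2 ⟨mem_Ioc.2 ⟨by have := (mem_Ioc.1 b1).1; omega, b3⟩, b2.add_right _⟩
        · rw [mul_assoc (Real.log x), ← mul_assoc (1 + θ)]
          exact mul_le_mul_of_nonneg_right ((log_bd (by omega) (mem_filter.1 hp).1).2.trans a1)
            (mul_nonneg (tri_nonneg _ _ _) (hΦ _))
    _ ≤ _ := by
        rw [← mul_sum]
        refine mul_le_mul_of_nonneg_left (le_trans (sum_le_sum fun n hn => ?_)
          ((reindex η b x W (a + h) (lo2 b x) (hi2 b x)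
            fun p m => Real.log p * ww x m * Φ (p * m)).le.trans (sum_le_sum fun m _ =>
          sum_le_sum_of_subset_of_nonneg (monotone_filter_right _ fun p _ h => h.1) fun p _ _ =>
            mul_nonneg (mul_nonneg (Real.log_natCast_nonneg _) (ww_nonneg _ _)) (hΦ _))))
          (by positivity)
        rw [tri, mul_sum, sum_mul]
        obtain ⟨n1, n2⟩ := mem_Ioc.1 (mem_filter.1 hn).1
        obtain ⟨l1, l2⟩ := log_bd (by omega) (mem_filter.1 hn).1
        refine le_trans (sum_le_sum fun p hp => ?_) (sum_le_sum_of_subset_of_nonneg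
          (fun p hp => ?_) fun p _ _ =>
            mul_nonneg (mul_nonneg (Real.log_natCast_nonneg _) (ww_nonneg _ _)) (hΦ _))
        · obtain ⟨b1, b2⟩ := mem_filter.1 (mem_filter.1 hp).1
          obtain ⟨b3, ⟨m, rfl⟩, b4⟩ := Nat.mem_primeFactors.1 b1
          have a8 : (p : ℝ) ≠ 0 := by exact_mod_cast b3.ne_zero
          have a9 : (m : ℝ) ≠ 0 := by exact_mod_cast right_ne_zero_of_mul b4
          rw [Nat.mul_div_cancel_left _ b3.pos]
          rw [Nat.cast_mul, Real.log_mul a8 a9] at l1 l2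
          refine mul_le_mul_of_nonneg_right ?_ (hΦ _)
          have c1 : 1 - Real.log m / Real.log x ≤ Real.log p / Real.log x := by
            rw [sub_le_iff_le_add, ← add_div, one_le_div hl0]; exact l1
          have c2 : Real.log m / Real.log x ≤ 7803 / 10000 := by
            rw [lt_div_iff₀ hl0] at b2
            rw [div_le_iff₀ hl0]; linarith
          have c3 : Real.log x ≤ Real.log p * ps (Real.log m / Real.log x) := by
            rw [ps, min_eq_left (by linarith), max_eq_right zero_le_one, mul_one_div,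
              le_div_iff₀ (ps_den _), ← le_div_iff₀' hl0]
            exact max_le c1 (by linarith)
          exact (mul_le_mul_of_nonneg_right c3 (div_nonneg (N2_nonneg _ _) (by norm_num))).trans
            (le_of_eq (by rw [ww]; ring))
        · obtain ⟨b0, b5⟩ := mem_filter.1 hp
          obtain ⟨b1, b2⟩ := mem_filter.1 b0
          obtain ⟨b3, ⟨m, rfl⟩, b4⟩ := Nat.mem_primeFactors.1 b1
          have hm0 : 0 < m := Nat.pos_of_ne_zero (right_ne_zero_of_mul b4)
          have hm' : (0 : ℝ) < m := by positivity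
          obtain ⟨c1, c2⟩ := box_spec hb hm0
          refine mem_filter.2 ⟨b1, b5, ?_⟩
          rw [Nat.mul_div_cancel_left _ b3.pos]
          refine mem_Ioc.2 ⟨(Nat.floor_lt (by positivity)).2 (max_lt
            ((lt_iff_u hx b3.pos _).2 (by linarith)) ?_), Nat.le_floor ?_⟩
          · refine (mul_lt_mul_of_pos_left c2 (by linarith)).trans ?_
            rw [mul_inv_lt_iff₀ hm']; exact_mod_cast n1
          · refine le_trans ?_ (mul_le_mul_of_nonneg_left c1 (by positivity))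
            rw [le_mul_inv_iff₀ hm']; exact_mod_cast n2

end Pool.Agent.Lib.MP_fc51f7_nt.Pr
end

-- part Pool.Agent.Lib.MP_fc51f7_nt.PrF
section

/-! The cost of three large prime factors, and the estimate for one shifted prime. -/

set_option autoImplicit false
set_option linter.unusedSectionVars false

namespace Pool.Agent.Lib.MP_fc51f7_nt.Pr

open Finset Filter Topology

noncomputable def cel (D x : ℕ) (δ : ℝ) (k : ℕ) (T : Fin 2 → Finset (PP D x)) : ℝ :=
  if ⌊lgs (qq D x) T / Real.log x / δ⌋₊ = k then 1 else 0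

noncomputable def gam (D x : ℕ) (l : ℝ) (T : Finset (PP D x)) : ℝ :=
  if lg (qq D x) T / Real.log x ≤ l then 1 else 0

noncomputable def Zk (D x : ℕ) (l : ℝ) : ℝ := ∑ T, gam D x l T * wt (qq D x) T

noncomputable def yk (D x : ℕ) (δ : ℝ) (k : ℕ) : (Option (Fin 2) → Finset (PP D x)) → ℝ :=
  tens (gam D x (2499 / 10000 - k * δ)) (cel D x δ k)

noncomputable def Sk (f : ℝ → ℝ) (D x : ℕ) (δ : ℝ) (k m : ℕ) : ℝ :=
  S1 (qq D x) (Real.log x) (fun t => f (t + k * δ)) m

noncomputable def YZ (f : ℝ → ℝ) (D x : ℕ) (δ : ℝ) (N : ℕ) (g : Option (Fin 2) → ℤ) (m : ℕ) : ℝ :=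
  ∑ k ∈ range N, Sk f D x δ k m * SS (qq D x) g (yk D x δ k) m / Zk D x (2499 / 10000 - k * δ)

noncomputable def yd (f : ℝ → ℝ) (D x : ℕ) (δ : ℝ) (N : ℕ)
    (T : Option (Fin 2) → Finset (PP D x)) : ℝ :=
  ∑ k ∈ range N, tens (fun T => f (lg (qq D x) T / Real.log x + k * δ)) (cel D x δ k) T

theorem abs_yk (D x : ℕ) (δ : ℝ) (k : ℕ) (T : Option (Fin 2) → Finset (PP D x)) :
    |yk D x δ k T| ≤ 1 := by
  unfold yk tens gam cel; split_ifs <;> simp

theorem yk_supp {D x : ℕ} {δ : ℝ} (hδ : 0 < δ) (hl : 0 < Real.log x) {k : ℕ}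
    {T : Option (Fin 2) → Finset (PP D x)} (h : yk D x δ k T ≠ 0) :
    lgs (qq D x) T ≤ (2499 / 10000 + δ) * Real.log x := by
  have h1 := not_not.1 fun h' => left_ne_zero_of_mul h (if_neg h')
  have h2 := not_not.1 fun h' => right_ne_zero_of_mul h (if_neg h')
  have h3 := Nat.lt_floor_add_one (lgs (qq D x) (fun j => T (some j)) / Real.log x / δ)
  rw [h2, div_lt_iff₀ hδ] at h3
  rw [lgs_option, ← div_le_iff₀ hl, add_div]; linarith

theorem Zk_ge (D : ℕ) {l e : ℝ} (hl : 0 < l) (he : 0 < e) :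
    ∀ᶠ x : ℕ in atTop, (l - e) * BB D x ≤ Zk D x l := by
  have := (conv_nu D).le hl (g := fun _ => 1) continuousOn_const
  simp only [mul_one, zero_add, intervalIntegral.integral_const, sub_zero, smul_eq_mul] at this
  filter_upwards [this.eventually_const_le (sub_lt_self _ he), Meas.BB_pos D] with x h hB
  rw [← sum_div, le_div_iff₀ hB, sum_filter] at h
  exact h.trans (le_of_eq (sum_congr rfl fun T _ => by unfold gam; split_ifs <;> simp))

theorem yk_wts (D x : ℕ) (δ : ℝ) (k k' : ℕ) :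
    ∑ T, yk D x δ k T * yk D x δ k' T * wts (qq D x) T = if k = k' then
      Zk D x (2499 / 10000 - k * δ) * ∑ T, cel D x δ k T * wts (qq D x) T else 0 := by
  rw [yk, yk, sum_tens]
  split_ifs with h
  · subst h
    congr 1 <;> refine sum_congr rfl fun T _ => ?_
    · unfold gam; split_ifs <;> simp
    · unfold cel; split_ifs <;> simp
  · refine mul_eq_zero_of_right _ (sum_eq_zero fun T _ => ?_)
    unfold cel; split_ifs with h1 h2
    · exact absurd (h1.symm.trans h2) h
    all_goals simp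

section
variable {f : ℝ → ℝ} {K : ℝ} (hf : Prof f K)
include hf

theorem yd_close {D x N : ℕ} {δ : ℝ} (hδ : 0 < δ) (hN : N * δ = 7 / 50) (hl : 0 < Real.log x)
    (T : Option (Fin 2) → Finset (PP D x)) : |YY f D x _ T - yd f D x δ N T| ≤ K * δ ∧
      (YY f D x _ T - yd f D x δ N T ≠ 0 → lgs (qq D x) T ≤ (7 / 50 + δ) * Real.log x) := by
  set σ := lgs (qq D x) (fun j => T (some j)) / Real.log x with hσ
  set s := lg (qq D x) (T none) / Real.log x with hs
  have h0 : 0 ≤ σ := div_nonneg (lgs_nonneg _ _) hl.le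
  have h1 : 0 ≤ s := div_nonneg (lg_nonneg _ _) hl.le
  have h2 := (le_div_iff₀ hδ).1 (Nat.floor_le (div_nonneg h0 hδ.le))
  have h3 := (div_lt_iff₀ hδ).1 (Nat.lt_floor_add_one (σ / δ))
  have e1 : yd f D x δ N T = f (s + ⌊σ / δ⌋₊ * δ) := by
    simp only [yd, tens, cel, mul_ite, mul_one, mul_zero, sum_ite_eq, mem_range]
    split_ifs with h
    · rfl
    · have : (N : ℝ) ≤ ⌊σ / δ⌋₊ := by exact_mod_cast not_lt.1 h
      exact (hf.zero _ (by linarith [mul_le_mul_of_nonneg_right this hδ.le])).symm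
  have e2 : lgs (qq D x) T / Real.log x = s + σ := by rw [lgs_option, add_div]
  rw [e1, YY, ← div_le_iff₀ hl, e2]
  refine ⟨(hf.lip _ _).trans (mul_le_mul_of_nonneg_left (abs_le.2 ⟨by linarith, by linarith⟩)
    hf.pos), fun h => not_lt.1 fun h' => h ?_⟩
  rw [hf.zero _ (by linarith), hf.zero _ (by linarith), sub_zero]

omit hf in
theorem SS_yd {D x N : ℕ} {δ : ℝ} (hδ : 0 < δ) (hx : 1 < x) (g : Option (Fin 2) → ℤ) {h p : ℕ}
    (hh : g none = h) (hp : p.Prime) (hxp : x < p)
    (hZ : ∀ k ∈ range N, Zk D x (2499 / 10000 - k * δ) ≠ 0) :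
    SS (qq D x) g (yd f D x δ N) p =
      YZ f D x δ N (fun o => o.elim (-h) fun j => g (some j) - h) (p + h) := by
  have hl : 0 < Real.log x := Real.log_pos (by exact_mod_cast hx)
  refine (SS_sum _ _ _ _ _).trans (sum_congr rfl fun k hk => ?_)
  have e1 : S0 (qq D x) (gam D x (2499 / 10000 - k * δ)) p = Zk D x (2499 / 10000 - k * δ) := by
    have := S0_mul_prime (qq D x) (gr_prime D x) (gam D x (2499 / 10000 - k * δ)) hp (fun T hT => by
      have h1 := (div_le_iff₀ hl).1 (not_not.1 fun h' => hT (if_neg h'))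
      have h2 : Real.log x ≤ Real.log p := Real.log_le_log (by positivity) (by exact_mod_cast hxp.le)
      have h3 : 0 ≤ k * δ * Real.log x := by positivity
      linarith) 1
    rw [mul_one] at this
    refine this.trans (sum_congr rfl fun T _ => congrArg _ (prod_congr rfl fun i _ => if_neg ?_))
    rw [Int.natCast_dvd_natCast, Nat.dvd_one]
    exact (gr_prime D x i).one_lt.ne'
  rw [SS_tens', yk, SS_tens', hh, Nat.cast_add]
  simp only [Option.elim, SS_shift, add_neg_cancel_right, e1]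
  rw [mul_comm (Zk _ _ _), mul_div_assoc, mul_div_cancel_right₀ _ (hZ k hk), Sk, Nat.cast_add]
  rfl

open Classical in
theorem core {N : ℕ} {δ θ e b η Rm : ℝ} (hδ : 0 < δ) (hδ' : δ ≤ 1 / 20000) (hN : N * δ = 7 / 50)
    (hθ : 0 < θ) (he : 0 < e) (he' : e ≤ 1 / 1000) (hb : 0 < b) (hη : 0 < η) (hη' : η ≤ 1 / 10000)
    {D : ℕ} (hD : 16 ≤ D) (hDe : 100 * Rm * eD D ≤ θ) {g : Option (Fin 2) → ℤ}
    (hg : Function.Injective g) (hg8 : ∀ j, g j ≠ 0 ∧ |g j| ≤ 8) (a : ℕ) (Q : ℕ → ℝ)
    (hQ : ∀ k ∈ range N, 0 ≤ Q k ∧ Q k ≤ Rm)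
    (hA : ∀ k ∈ range N, ∀ᶠ x : ℕ in atTop,
      ∑ m ∈ Icc 1 x with rough η x m, ∑ p ∈ Ioc (lo2 b x (box b m)) (hi2 b x (box b m)) with
        p.Prime ∧ p * m ≡ a [MOD primorial D], Real.log p * (ww x m * Sk f D x δ k m ^ 2) ≤
      x / (primorial D).totient * BB D x ^ 2 * (Q k * (2499 / 10000 - k * δ - e))) :
    ∀ᶠ x : ℕ in atTop,
    ∑ m ∈ Icc 1 x with rough η x m, ∑ p ∈ Ioc (lo2 b x (box b m)) (hi2 b x (box b m)) with
      p.Prime ∧ p * m ≡ a [MOD primorial D], Real.log p * ww x m * YZ f D x δ N g (p * m) ^ 2 ≤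
      x / primorial D * Real.log x * BB D x ^ 2 * (∑ k ∈ range N,
        Q k * (∑ T, cel D x δ k T * wts (qq D x) T) / BB D x ^ 2 + N ^ 2 * (2 * θ)) := by
  have hW : (0 : ℝ) < primorial D := by exact_mod_cast primorial_pos D
  have hV := Meas.V_pos D
  set V := ∏ p ∈ Nat.primesLE D, (1 - (p : ℝ)⁻¹) with hVd
  set K1 : ℝ := 21 * (3 * 2 ^ ⌈1 / η⌉₊) ^ 2 with hK1
  have hK0 : 0 < K1 := by positivity
  have hk : ∀ k ∈ range N, 0 ≤ k * δ ∧ k * δ ≤ 7 / 50 := fun k hk => ⟨by positivity, by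
    have : (k : ℝ) ≤ N := by exact_mod_cast (mem_range.1 hk).le
    exact hN ▸ mul_le_mul_of_nonneg_right this hδ.le⟩
  filter_upwards [bv4 hD (κ := Option (Fin 2)) (by simp) hη hb
    (show 0 < θ * V ^ 2 / (100 * primorial D * K1) by positivity) hg hg8 a,
    (eventually_all_finset _).2 hA, (eventually_all_finset (range N)).2 fun k h =>
      Zk_ge D (show 0 < 2499 / 10000 - k * δ by linarith [(hk k h).2]) he,
    lar_card, Meas.L_pos, Meas.BB_pos D, Zf_le D, eventually_gt_atTop 1]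
    with x h1 h2 h3 h4 hl hB hZ hx
  have hx' : (1 : ℝ) < x := by exact_mod_cast hx
  set P : ℕ → Finset ℕ := fun m => (Ioc (lo2 b x (box b m)) (hi2 b x (box b m))).filter
    fun p => p.Prime ∧ p * m ≡ a [MOD primorial D] with hP
  set s := (Icc 1 x).filter (rough η x) with hs
  set X := x / primorial D * Real.log x * BB D x ^ 2 with hX
  have hX0 : 0 < X := by positivity
  have eΦ : x / (primorial D).totient * BB D x ^ 2 = X / BB D x := by
    rw [tot_eq D x hl, hX]; field_simp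
  rw [eΦ] at h2
  set Z : ℕ → ℝ := fun k => Zk D x (2499 / 10000 - k * δ) with hZd
  have hZ1 : ∀ k ∈ range N, BB D x / 10 ≤ Z k := fun k h =>
    le_trans (by nlinarith [(hk k h).2]) (h3 k h)
  have hSb : ∀ k ∈ range N, ∀ m ∈ Icc 1 x, rough η x m →
      |Sk f D x δ k m| ≤ 3 * 2 ^ ⌈1 / η⌉₊ * BB D x := by
    intro k hk' m hm hr
    refine (abs_S0_le (qq D x) (qq_two D x) _ (fun T => hf.le _)
      (s := 2 * (Real.log x)⁻¹) (Λ := 1 / 2 * Real.log x) (by positivity)
      (fun T hT => (div_le_iff₀ hl).1 (by linarith [hf.lt hT, (hk k hk').1])) m).trans ?_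
    have a5 : Real.exp (2 * (Real.log x)⁻¹ * (1 / 2 * Real.log x)) ≤ 3 :=
      exp_le_three (by field_simp; norm_num)
    have a6 := (card_dvd_le (qq D x) (gr_prime D x) (qq_inj D x)
      (show m ≠ 0 by have := (mem_Icc.1 hm).1; omega)).trans (card_rough_le hη hx hm hr)
    have a8 := one_le_Zf (qq D x) (qq_two D x) (2 * (Real.log x)⁻¹)
    rw [mul_assoc 3]
    gcongr
    norm_num
  set A : ℕ → ℕ → ℝ := fun k k' => ∑ m ∈ s, ∑ p ∈ P m,
    Real.log p * (ww x m * (Sk f D x δ k m * Sk f D x δ k' m)) with hA'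
  have hA1 : ∀ k ∈ range N, A k k ≤ X / BB D x * (Q k * (2499 / 10000 - k * δ - e)) := fun k h => by
    simpa only [sq] using h2 k h
  have hA2 : ∀ k ∈ range N, A k k ≤ X / BB D x * Rm := fun k h => (hA1 k h).trans
    (mul_le_mul_of_nonneg_left ((mul_le_of_le_one_right (hQ k h).1
      (by linarith [(hk k h).1])).trans (hQ k h).2) (by positivity))
  have hA3 : ∀ k ∈ range N, ∀ k' ∈ range N, |A k k'| ≤ X / BB D x * Rm := fun k h k' h' => by
    refine le_trans ?_ (show (A k k + A k' k') / 2 ≤ _ by linarith [hA2 k h, hA2 k' h'])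
    simp only [hA']
    rw [← sum_add_distrib, sum_div]
    refine (abs_sum_le_sum_abs _ _).trans (sum_le_sum fun m _ => ?_)
    rw [← sum_add_distrib, sum_div]
    refine (abs_sum_le_sum_abs _ _).trans (sum_le_sum fun p _ => ?_)
    rw [abs_mul, abs_mul, abs_of_nonneg (Real.log_natCast_nonneg _),
      abs_of_nonneg (ww_nonneg _ _), ← mul_add, ← mul_add, mul_div_assoc, mul_div_assoc]
    refine mul_le_mul_of_nonneg_left (mul_le_mul_of_nonneg_left (abs_le.2 ⟨?_, ?_⟩)
      (ww_nonneg _ _)) (Real.log_natCast_nonneg _)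
    · linarith [mul_self_nonneg (Sk f D x δ k m + Sk f D x δ k' m)]
    · linarith [mul_self_nonneg (Sk f D x δ k m - Sk f D x δ k' m)]
  have hT : ∀ k ∈ range N, ∀ k' ∈ range N, (∑ m ∈ s, ∑ p ∈ P m, Real.log p *
      (ww x m * (Sk f D x δ k m * Sk f D x δ k' m)) * (SS (qq D x) g (yk D x δ k) (p * m : ℕ) *
        SS (qq D x) g (yk D x δ k') (p * m : ℕ))) / (Z k * Z k') ≤
      (if k = k' then X * (Q k * (∑ T, cel D x δ k T * wts (qq D x) T) / BB D x ^ 2) else 0) +
        X * (2 * θ) := by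
    intro k h k' h'
    have z1 := hZ1 k h
    have z2 := hZ1 k' h'
    have z3 : 0 < Z k := lt_of_lt_of_le (by positivity) z1
    have z4 : 0 < Z k' := lt_of_lt_of_le (by positivity) z2
    have b1 := h1 (yk D x δ k) (yk D x δ k')
      (fun m => ww x m * (Sk f D x δ k m * Sk f D x δ k' m)) (lo2 b x) (hi2 b x)
      (K1 * BB D x ^ 2) (by positivity) (abs_yk _ _ _ _) (abs_yk _ _ _ _)
      (fun T U a1 a2 => (add_le_add (yk_supp hδ hl a1) (yk_supp hδ hl a2)).trans (by
        rw [← add_mul]; exact mul_le_mul_of_nonneg_right (by linarith) hl.le))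
      (fun m hm hr => by
        rw [abs_mul, abs_mul, abs_of_nonneg (ww_nonneg _ _)]
        refine (mul_le_mul (h4 m (by have := (mem_Icc.1 hm).2; omega)).2.2.1 (mul_le_mul
          (hSb k h m hm hr) (hSb k' h' m hm hr) (abs_nonneg _) (by positivity)) (by positivity)
          (by norm_num)).trans (le_of_eq ?_)
        rw [hK1]; ring)
      fun j => ⟨((Real.rpow_le_rpow_of_exponent_le hx'.le (by linarith)).trans
        (le_max_left _ _)).trans (Nat.lt_floor_add_one _).le, Nat.floor_le (by positivity)⟩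
    refine (div_le_div_of_nonneg_right b1 (by positivity)).trans ?_
    rw [add_div, yk_wts]
    refine add_le_add ?_ ?_
    · split_ifs with hkk
      · subst hkk
        have c1 : 0 ≤ ∑ T, cel D x δ k T * wts (qq D x) T := sum_nonneg fun T _ =>
          mul_nonneg (by unfold cel; split_ifs <;> norm_num) (wts_nonneg _ (qq_two D x) T)
        have c2 : A k k ≤ X / BB D x ^ 2 * Q k * Z k := (hA1 k h).trans (le_trans (le_of_eq (by
          field_simp)) (mul_le_mul_of_nonneg_left (h3 k h)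
            (mul_nonneg (show 0 ≤ X / BB D x ^ 2 by positivity) (hQ k h).1)))
        rw [div_le_iff₀ (by positivity)]
        exact (mul_le_mul_of_nonneg_left c2 (mul_nonneg z3.le c1)).trans (le_of_eq (by ring))
      · rw [zero_mul, zero_div]
    · have c1 := mul_le_mul_of_nonneg_left (hA3 k h k' h')
        (show 0 ≤ eD D * BB D x ^ 3 by have := eD_nonneg D; positivity)
      have c2 : eD D * BB D x ^ 3 * (X / BB D x * Rm) ≤ θ / 100 * X * BB D x ^ 2 :=
        le_trans (le_of_eq (by field_simp)) (show 100 * Rm * eD D / 100 * X * BB D x ^ 2 ≤ _ by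
          gcongr)
      have c3 : K1 * BB D x ^ 2 * (θ * V ^ 2 / (100 * primorial D * K1) * x * Real.log x ^ 3) =
          θ / 100 * X * BB D x ^ 2 := by
        rw [hX]; unfold BB; rw [← hVd]; field_simp
      have c4 : BB D x / 10 * (BB D x / 10) ≤ Z k * Z k' := by gcongr
      rw [div_le_iff₀ (by positivity), c3]
      exact (add_le_add le_rfl (c1.trans c2)).trans (le_trans (le_of_eq (by ring))
        (mul_le_mul_of_nonneg_left c4 (by positivity)))
  have b2 := sum_le_sum fun k h => sum_le_sum fun k' h' => hT k h k' h'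
  simp only [sum_add_distrib, sum_ite_eq, sum_const, card_range, nsmul_eq_mul] at b2
  rw [sum_congr rfl fun k h => if_pos h, ← mul_sum] at b2
  refine le_trans (le_of_eq ?_) (b2.trans (le_of_eq (by ring)))
  simp only [sum_div]
  refine Eq.symm ((sum_congr rfl fun k _ => sum_comm).trans (sum_comm.trans
    (sum_congr rfl fun m _ => (sum_congr rfl fun k _ => sum_comm).trans (sum_comm.trans
      (sum_congr rfl fun p hp => ?_)))))
  obtain ⟨p1, p2, -⟩ := mem_filter.1 hp
  have p3 := (lt_iff_u hx p2.pos _).1 ((le_max_left _ _).trans_lt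
    ((Nat.floor_lt (by positivity)).1 (mem_Ioc.1 p1).1))
  rw [YZ, sq, sum_mul_sum, mul_sum]
  refine sum_congr rfl fun k h => ?_
  rw [mul_sum]
  refine sum_congr rfl fun k' h' => ?_
  rw [Sk, Sk, Sk, Sk, S1_mul hf hl (hk k h).1 p2 p3, S1_mul hf hl (hk k' h').1 p2 p3]
  simp only [hZd]
  ring

omit hf in
theorem layers (D : ℕ) {Qm : ℝ → ℝ} (hQ : Continuous Qm) {N : ℕ} {δ θ : ℝ} (hδ : 0 < δ)
    (hN : N * δ = 7 / 50) (hθ : 0 < θ) (h0 : ∀ σ ∈ Set.Icc (0 : ℝ) (7 / 50), 0 ≤ Qm σ)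
    (hU : ∀ s ∈ Set.Icc (0 : ℝ) (7 / 50), ∀ t ∈ Set.Icc (0 : ℝ) (7 / 50), |s - t| ≤ δ →
      Qm s ≤ Qm t + θ) : ∀ᶠ x : ℕ in atTop, ∑ k ∈ range N, (Qm (k * δ) + θ) *
      (∑ T, cel D x δ k T * wts (qq D x) T) / BB D x ^ 2 ≤
      (∫ σ in (0 : ℝ)..(7 / 50), Qm σ * σ) + 2 * θ := by
  have h := (conv_nu_pow D (Fin 2) 1 (by simp)).le (show (0 : ℝ) < 7 / 50 by norm_num)
    (g := fun σ => Qm σ + 2 * θ) (hQ.add continuous_const).continuousOn
  simp only [zero_mul, zero_add, pow_one, Nat.factorial_one, Nat.cast_one, div_one, add_mul] at h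
  rw [intervalIntegral.integral_add ((hQ.fun_mul continuous_id').intervalIntegrable _ _)
    ((continuous_const.fun_mul continuous_id').intervalIntegrable _ _),
    intervalIntegral.integral_const_mul, integral_id] at h
  filter_upwards [h.eventually_le_const (show _ < (∫ σ in (0 : ℝ)..(7 / 50), Qm σ * σ) + 2 * θ by
    linarith), Meas.L_pos, Meas.BB_pos D] with x h hl hB
  refine le_trans ?_ h
  simp only [mul_sum, sum_div]
  rw [sum_comm, sum_filter]
  refine sum_le_sum fun T _ => ?_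
  set σ := lgs (qq D x) T / Real.log x with hσ
  have h1 : 0 ≤ σ := div_nonneg (lgs_nonneg _ _) hl.le
  have h2 := (le_div_iff₀ hδ).1 (Nat.floor_le (div_nonneg h1 hδ.le))
  have h3 := (div_lt_iff₀ hδ).1 (Nat.lt_floor_add_one (σ / δ))
  have h4 : 0 ≤ wts (qq D x) T / BB D x ^ (1 + 1) :=
    div_nonneg (wts_nonneg _ (qq_two D x) T) (by positivity)
  simp only [cel, ← hσ, ite_mul, one_mul, zero_mul, mul_ite, mul_zero, ite_div, zero_div,
    sum_ite_eq, mem_range]
  split_ifs with a1 a2 a2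
  · have := hU _ ⟨by positivity, h2.trans a2⟩ σ ⟨h1, a2⟩ (abs_le.2 ⟨by linarith, by linarith⟩)
    rw [mul_div_assoc, mul_comm]
    exact mul_le_mul_of_nonneg_left (by linarith) h4
  · have : (⌊σ / δ⌋₊ : ℝ) + 1 ≤ N := by exact_mod_cast a1
    exact absurd (by linarith [mul_le_mul_of_nonneg_right this hδ.le]) a2
  · exact mul_nonneg h4 (by linarith [h0 σ ⟨h1, a2⟩])
  · rfl

theorem pen {Qm : ℝ → ℝ} (hQ : Continuous Qm)
    (hR : ∀ σ ∈ Set.Icc (0 : ℝ) (7 / 50), RR f σ ≤ Qm σ * (2499 / 10000 - σ)) {η ε : ℝ}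
    (hη : 0 < η) (hη' : η ≤ 1 / 10000) (hε : 0 < ε) :
    ∀ᶠ D : ℕ in atTop, ∀ g : Option (Fin 2) → ℤ, Function.Injective g →
    (∀ j, 0 < g j ∧ g j ≤ 8) → ∀ h a : ℕ, g none = h → Nat.Coprime a (primorial D) →
    Nat.Coprime (a + h) (primorial D) → ∀ᶠ x : ℕ in atTop,
    ∑ p ∈ Ioc x (2 * x) with (p ≡ a [MOD primorial D] ∧ p.Prime) ∧ p + h ≤ 2 * x,
      Real.log (p : ℕ) * (tri η x (p + h) * SS (qq D x) g (YY f D x _) p ^ 2) ≤
      x / primorial D * Real.log x * BB D x ^ 2 * ((∫ σ in (0 : ℝ)..(7 / 50), Qm σ * σ) + ε) := by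
  classical
  set J := ∫ σ in (0 : ℝ)..(7 / 50), Qm σ * σ with hJ
  have hK := hf.pos
  have h0 : ∀ σ ∈ Set.Icc (0 : ℝ) (7 / 50), 0 ≤ Qm σ := fun σ hσ =>
    nonneg_of_mul_nonneg_left ((RR_nonneg f σ).trans (hR σ hσ)) (by linarith [hσ.2])
  obtain ⟨C, hC⟩ := (isCompact_Icc (a := (0 : ℝ)) (b := 7 / 50)).bddAbove_image hQ.continuousOn
  have hC' : ∀ σ ∈ Set.Icc (0 : ℝ) (7 / 50), Qm σ ≤ C := fun σ hσ => hC ⟨σ, hσ, rfl⟩
  have hC0 : 0 ≤ C := (h0 0 ⟨le_rfl, by norm_num⟩).trans (hC' 0 ⟨le_rfl, by norm_num⟩)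
  have hlim : Tendsto (fun θ : ℝ => (1 + θ) * ((1 + θ) * (J + 4 * θ)) + θ) (𝓝[>] 0)
      (𝓝 ((1 + 0) * ((1 + 0) * (J + 4 * 0)) + 0)) :=
    tendsto_nhdsWithin_of_tendsto_nhds (Continuous.tendsto (by fun_prop) _)
  obtain ⟨θ, h1, hθ, hθ'⟩ := ((hlim.eventually_le_const (show _ < J + ε by linarith)).and
    (Ioo_mem_nhdsGT (show (0 : ℝ) < 1 / 100 by norm_num))).exists
  obtain ⟨δ0, hδ0, hU⟩ := Metric.uniformContinuousOn_iff_le.1
    ((isCompact_Icc (a := (0 : ℝ)) (b := 7 / 50)).uniformContinuousOn_of_continuous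
      hQ.continuousOn) θ hθ
  have hl2 : Tendsto (fun N : ℕ => (7 / 50 : ℝ) / N) atTop (𝓝 0) :=
    tendsto_const_div_atTop_nhds_zero_nat _
  have hl3 : Tendsto (fun N : ℕ => (1 + 1 / θ) * 84 * ((K + 1) * (7 / 50 / N)) ^ 2) atTop
      (𝓝 ((1 + 1 / θ) * 84 * ((K + 1) * 0) ^ 2)) := ((hl2.const_mul _).pow 2).const_mul _
  obtain ⟨N, ⟨⟨h2, h3⟩, h4⟩, hN0⟩ := ((((hl2.eventually_le_const hδ0).and (hl2.eventually_le_const
    (show (0 : ℝ) < 1 / 20000 by norm_num))).and (hl3.eventually_le_const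
      (show _ < θ by simpa using hθ))).and (eventually_gt_atTop 0)).exists
  have hN' : (0 : ℝ) < N := by positivity
  set δ : ℝ := 7 / 50 / N with hδd
  have hδ : 0 < δ := by positivity
  have hN : N * δ = 7 / 50 := by rw [hδd]; field_simp
  clear_value δ
  have hk : ∀ k ∈ range N, k * δ ∈ Set.Icc (0 : ℝ) (7 / 50) := fun k hk => ⟨by positivity, by
    have : (k : ℝ) ≤ N := by exact_mod_cast (mem_range.1 hk).le
    exact hN ▸ mul_le_mul_of_nonneg_right this hδ.le⟩
  set e := θ / (10 * (2 + C)) with hed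
  have he : 0 < e := by positivity
  have he1 : e * (2 + C) = θ / 10 := by rw [hed]; field_simp
  clear_value e
  obtain ⟨b, h5, hb⟩ := (((eventually_all_finset (range N)).2 fun k h =>
    F5 hf (hk k h).1 he).and self_mem_nhdsWithin).exists
  have hb : 0 < b := hb
  filter_upwards [primeSum (κ := Option (Fin 2)) (by simp)
    (show (0 : ℝ) < 1 / 10 by norm_num) one_pos, eventually_ge_atTop 16,
    (eD_tendsto.const_mul (100 * (C + 1))).eventually_le_const
      (show _ < θ / N ^ 2 by simp only [mul_zero]; positivity)] with D h6 hD h7 g hg hg8 h a hh ha ha'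
  have hh8 := hg8 none
  rw [hh] at hh8
  filter_upwards [core hf hδ h3 hN (show 0 < θ / N ^ 2 by positivity) he (by nlinarith) hb hη hη'
    hD h7 (g := fun o => o.elim (-h) fun j => g (some j) - h) (by
      rintro (_ | i) (_ | j) e
      · rfl
      · have := (hg8 (some j)).1; simp only [Option.elim] at e; omega
      · have := (hg8 (some i)).1; simp only [Option.elim] at e; omega
      · exact hg (sub_left_injective e)) (by
      rintro (_ | j)
      · exact ⟨by simp only [Option.elim]; omega, abs_le.2 ⟨by simp only [Option.elim]; omega,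
          by simp only [Option.elim]; omega⟩⟩
      · have := hg8 (some j)
        exact ⟨sub_ne_zero.2 fun e => by simpa using hg (e.trans hh.symm),
          abs_le.2 ⟨by simp only [Option.elim]; omega, by simp only [Option.elim]; omega⟩⟩)
    (a + h) (fun k => Qm (k * δ) + θ)
    (fun k h => ⟨by linarith [h0 _ (hk k h)], by linarith [hC' _ (hk k h)]⟩) fun k h =>
      (h5 k h D _ ha' η hη).mono fun x hx => hx.trans (mul_le_mul_of_nonneg_left (by
        nlinarith [hR _ (hk k h), hC' _ (hk k h), (hk k h).2]) (by positivity)),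
    layers D hQ hδ hN hθ h0 fun s hs t ht h => by
      have := hU s hs t ht (h.trans h2)
      rw [Real.dist_eq] at this; linarith [(abs_le.1 this).2],
    h6 g hg (fun j => ⟨(hg8 j).1.ne', abs_le.2 ⟨by linarith [(hg8 j).1], (hg8 j).2⟩⟩) a ha,
    tri_le hθ, lar_card, wts_le (κ := Option (Fin 2)) D, (eventually_all_finset (range N)).2
      fun k h => Zk_ge D (show 0 < 2499 / 10000 - k * δ by linarith [(hk k h).2])
      (show (0 : ℝ) < 1 / 10 by norm_num), Meas.L_pos, Meas.BB_pos D, eventually_gt_atTop 1]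
    with x b1 b2 b3 b4 b5 b6 b7 hl hB hx
  set X := x / primorial D * Real.log x * BB D x ^ 2 with hX
  have hX0 : 0 ≤ X := by positivity
  have c1 := (b4 η b (primorial D) a h (fun m => YZ f D x δ N
    (fun o => o.elim (-h) fun j => g (some j) - h) m ^ 2) hb fun _ => sq_nonneg _).trans
    (mul_le_mul_of_nonneg_left (b1.trans (mul_le_mul_of_nonneg_left (add_le_add b2 le_rfl) hX0))
      (by positivity))
  have hc : 0 < (K + 1) * δ := by positivity
  set w : (Option (Fin 2) → Finset (PP D x)) → ℝ :=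
    fun T => ((K + 1) * δ)⁻¹ * (YY f D x _ T - yd f D x δ N T) with hw
  have w1 : ∀ T, |w T| ≤ 1 := fun T => by
    rw [abs_mul, abs_of_pos (inv_pos.2 hc), inv_mul_le_iff₀ hc]
    linarith [(yd_close hf hδ hN hl T).1]
  have w2 : ∀ T, w T ≠ 0 → lgs (qq D x) T ≤ 1 / 5 * Real.log x := fun T hT =>
    ((yd_close hf hδ hN hl T).2 (right_ne_zero_of_mul hT)).trans
      (mul_le_mul_of_nonneg_right (by linarith) hl.le)
  have c2 := (abs_le.1 (b3 w w 1 one_pos w1 w1 (fun T h => by linarith [w2 T h])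
    (fun T h => by linarith [w2 T h]) fun T U a1 a2 => by linarith [w2 T a1, w2 U a2])).2
  have c3 := mul_le_mul_of_nonneg_left (b6 w 1 w1 fun T h => by linarith [w2 T h])
    (show 0 ≤ x / primorial D * Real.log x / BB D x by positivity)
  rw [show x / primorial D * Real.log x / BB D x *
    (1 ^ 2 * (3 * BB D x ^ Fintype.card (Option (Fin 2)))) = 3 * X by
      rw [hX, Fintype.card_option, Fintype.card_fin]; field_simp] at c3
  have c4 := mul_le_mul_of_nonneg_left ((sum_le_sum_of_subset_of_nonneg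
    (s := (Ioc x (2 * x)).filter fun p => (p ≡ a [MOD primorial D] ∧ p.Prime) ∧ p + h ≤ 2 * x)
    (monotone_filter_right _ fun p _ h => h.1) fun p _ _ => mul_nonneg
      (Real.log_natCast_nonneg _) (mul_self_nonneg _)).trans (show _ ≤ 4 * X by linarith))
    (show 0 ≤ (1 + 1 / θ) * 21 * ((K + 1) * δ) ^ 2 by positivity)
  have c5 := add_le_add (mul_le_mul_of_nonneg_left c1 (show 0 ≤ 1 + θ by positivity)) c4
  rw [mul_sum, mul_sum, ← sum_add_distrib] at c5
  refine le_trans (sum_le_sum fun p hp => ?_) (c5.trans ?_)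
  · obtain ⟨p1, ⟨-, p2⟩, p3⟩ := mem_filter.1 hp
    rw [← SS_yd hδ hx g hh p2 (mem_Ioc.1 p1).1 fun k h => (lt_of_lt_of_le (mul_pos
      (by linarith [(hk k h).2]) hB) (b7 k h)).ne', hw, SS_smul, SS_sub]
    generalize SS (qq D x) g (YY f D x _) p = u
    generalize SS (qq D x) g (yd f D x δ N) p = v
    have d1 := tri_nonneg η x (p + h)
    have d2 := (b5 _ p3).2.2.2 η
    have d3 : u ^ 2 ≤ (1 + θ) * v ^ 2 + (1 + 1 / θ) * (u - v) ^ 2 := by
      have := div_nonneg (sq_nonneg (θ * v - (u - v))) hθ.le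
      exact sub_nonneg.1 (this.trans (le_of_eq (by field_simp; ring)))
    have d4 := mul_le_mul_of_nonneg_left d3 d1
    have d5 := mul_le_mul_of_nonneg_right d2
      (show 0 ≤ (1 + 1 / θ) * (u - v) ^ 2 by positivity)
    refine le_trans (mul_le_mul_of_nonneg_left (show _ ≤ (1 + θ) * (tri η x (p + h) * v ^ 2) +
      21 * ((1 + 1 / θ) * (u - v) ^ 2) by linarith) (Real.log_natCast_nonneg _)) (le_of_eq ?_)
    field_simp
  · refine le_trans (le_of_eq ?_) (mul_le_mul_of_nonneg_left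
      ((add_le_add le_rfl h4).trans h1) hX0)
    field_simp; ring

end

end Pool.Agent.Lib.MP_fc51f7_nt.Pr
end
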