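import Pool.Agent.Lib.MP_fc51f7_nt.PrF

/-! Assembly: three shifted primes. -/

set_option autoImplicit false
set_option linter.unusedSectionVars false

namespace Pool.Agent.Lib.MP_fc51f7_nt.Pr

open Finset Filter Topology ArithmeticFunction

theorem lar_div (x : ℕ) {n q : ℕ} (hq : q.Prime) (h : q ∣ n) :
    ((lar x n).card : ℝ) - 1 ≤ (lar x (n / q)).card := by
  obtain ⟨m, rfl⟩ := h
  rw [Nat.mul_div_cancel_left _ hq.pos]
  have : lar x (q * m) ⊆ insert q (lar x m) := fun r hr => by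
    obtain ⟨h1, h2⟩ := mem_filter.1 hr
    obtain ⟨h3, h4, h5⟩ := Nat.mem_primeFactors.1 h1
    rcases (Nat.Prime.dvd_mul h3).1 h4 with h | h
    · exact mem_insert.2 (Or.inl ((Nat.prime_dvd_prime_iff_eq h3 hq).1 h))
    · exact mem_insert_of_mem (mem_filter.2 ⟨Nat.mem_primeFactors.2
        ⟨h3, h, right_ne_zero_of_mul h5⟩, h2⟩)
  have := (card_le_card this).trans (card_insert_le _ _)
  rw [sub_le_iff_le_add]; exact_mod_cast this

theorem cnt_nonneg (η : ℝ) (x m : ℕ) : 0 ≤ cnt η x m :=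
  sum_nonneg fun _ _ => by split_ifs <;> norm_num

open Classical in
theorem point {η : ℝ} (hη' : η ≤ 1 / 10000) {x m : ℕ} (hx : 1 < x) (hm : 0 < m) :
    ((min (max (cardFactors m) 2) 8 : ℕ) : ℝ) - 2 ≤ cnt η x m + tri η x m +
      8 * if ∃ p : ℕ, p.Prime ∧ η < Real.log p / Real.log x ∧ p ^ 2 ∣ m then 1 else 0 := by
  have h0 : ((min (max (cardFactors m) 2) 8 : ℕ) : ℝ) ≤ 8 := by exact_mod_cast min_le_right _ _
  have h1 := cnt_nonneg η x m
  have h2 := tri_nonneg η x m
  split_ifs with c1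
  · linarith
  by_cases c2 : ∀ r ∈ m.primeFactors, η < Real.log r / Real.log x
  swap
  · push Not at c2
    obtain ⟨r, hr, h⟩ := c2
    have : (if Real.log r / Real.log x ≤ η then (8 : ℝ) else 1) ≤ cnt η x m :=
      single_le_sum (f := fun r : ℕ => if Real.log r / Real.log x ≤ η then (8 : ℝ) else 1)
        (fun _ _ => by split_ifs <;> norm_num) (mem_filter.2 ⟨hr, by linarith⟩)
    rw [if_pos h] at this
    linarith
  have c4 : Squarefree m := by
    rw [Nat.squarefree_iff_prime_squarefree]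
    exact fun p hp h => c1 ⟨p, hp, c2 p (Nat.mem_primeFactors.2
      ⟨hp, (dvd_mul_right _ _).trans h, hm.ne'⟩), by rwa [sq]⟩
  have e1 : cardFactors m = m.primeFactors.card := by
    rw [← (cardDistinctFactors_eq_cardFactors_iff_squarefree hm.ne').2 c4,
      cardDistinctFactors_apply, ← List.card_toFinset, Nat.toFinset_factors]
  have e2 : cnt η x m + (lar x m).card = cardFactors m := by
    rw [e1, cnt, sum_congr rfl fun r hr => if_neg (not_le.2 (c2 r (mem_filter.1 hr).1)), sum_const,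
      nsmul_eq_mul, mul_one, ← card_filter_add_card_filter_not (s := m.primeFactors)
        fun r : ℕ => Real.log r / Real.log x ≤ 2198 / 10000, Nat.cast_add, lar]
    simp only [not_le]
  have e3 : ((lar x m).card : ℝ) - 2 ≤ tri η x m := by
    by_cases h3 : (lar x m).card ≤ 2
    · have : ((lar x m).card : ℝ) ≤ 2 := by exact_mod_cast h3
      linarith
    have h4 : (3 : ℝ) ≤ (lar x m).card := by exact_mod_cast not_le.1 h3
    rw [tri, filter_true_of_mem fun p hp => ?_]
    · refine le_trans ?_ (card_nsmul_le_sum _ _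
        ((((lar x m).card : ℝ) - 1) * ((lar x m).card - 2) / 6) fun p hp => ?_)
      · rw [nsmul_eq_mul]
        nlinarith [mul_nonneg (sub_nonneg.2 h4) (sub_nonneg.2 h4),
          mul_nonneg (mul_nonneg (sub_nonneg.2 h4) (sub_nonneg.2 h4)) (sub_nonneg.2 h4)]
      · obtain ⟨a1, a2, -⟩ := Nat.mem_primeFactors.1 (mem_filter.1 hp).1
        have a3 := lar_div x a1 a2
        refine div_le_div_of_nonneg_right (le_trans ?_ (card_nsmul_le_sum _ _
          (((lar x m).card : ℝ) - 2) fun q hq => ?_)) (by norm_num)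
        · rw [nsmul_eq_mul]; exact mul_le_mul_of_nonneg_right a3 (by linarith)
        · obtain ⟨a4, a5, -⟩ := Nat.mem_primeFactors.1 (mem_filter.1 hq).1
          linarith [lar_div x a4 a5]
    · obtain ⟨a1, a2, -⟩ := Nat.mem_primeFactors.1 (mem_filter.1 hp).1
      have a3 := lar_div x a1 a2
      have a4 : ∀ r ∈ (m / p).primeFactors, (x : ℝ) ^ η < r := fun r hr =>
        (lt_iff_u hx (Nat.prime_of_mem_primeFactors hr).pos η).2
          (c2 r (Nat.primeFactors_mono (Nat.div_dvd_of_dvd a2) hm.ne' hr))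
      obtain ⟨r, hr⟩ : (lar x (m / p)).Nonempty := card_pos.1 (by
        have : (0 : ℝ) < (lar x (m / p)).card := by linarith
        exact_mod_cast this)
      have a5 := (mem_filter.1 hr).1
      exact ⟨(a4 r a5).le.trans (by exact_mod_cast Nat.le_of_mem_primeFactors a5), a4⟩
  have h5 : ((min (max (cardFactors m) 2) 8 : ℕ) : ℝ) ≤ max (cardFactors m : ℝ) 2 := by
    exact_mod_cast min_le_left _ _
  refine (sub_le_sub_right h5 2).trans ?_
  rw [sub_le_iff_le_add]
  exact max_le (by linarith) (by linarith)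

section
variable {f : ℝ → ℝ} {K : ℝ} (hf : Prof f K)
include hf

open Classical in
theorem badsum (D : ℕ) {g : Option (Fin 2) → ℤ} (hg8 : ∀ j, |g j| ≤ 8) {h : ℕ} (hh : h ≤ 8)
    {η ε : ℝ} (hη : 0 < η) (hη' : η ≤ 1) (hε : 0 < ε) : ∀ᶠ x : ℕ in atTop,
    ∑ p ∈ Ioc x (2 * x), Real.log (p : ℕ) * ((if p + h ≤ 2 * x then
      if ∃ r : ℕ, r.Prime ∧ η < Real.log r / Real.log x ∧ r ^ 2 ∣ p + h then 1 else 0 else 1) *
      SS (qq D x) g (YY f D x _) p ^ 2) ≤ x / primorial D * Real.log x * BB D x ^ 2 * ε := by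
  filter_upwards [count_sq hη, crude' D (κ := Option (Fin 2)) (by simp) hg8
    (show 0 < η / 64 by positivity), small' D (show 1 - η / 2 < 1 by linarith)
    (show 0 < ε / 24 by positivity), gr_logx.eventually_ge_atTop 1, eventually_gt_atTop 0,
    (BB_tendsto D).eventually_ge_atTop 1] with x h1 h2 h3 hl hx hB
  have hx' : (0 : ℝ) < x := by positivity
  have i0 : ∀ (P : Prop) [Decidable P], (0 : ℝ) ≤ if P then 1 else 0 := fun P _ => by
    split_ifs <;> norm_num
  set bad : ℕ → ℝ := fun p => if p + h ≤ 2 * x then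
    if ∃ r : ℕ, r.Prime ∧ η < Real.log r / Real.log x ∧ r ^ 2 ∣ p + h then 1 else 0 else 1
    with hbad
  have b0 : ∀ p, 0 ≤ bad p := fun p => by simp only [hbad]; split_ifs <;> norm_num
  have b1 : ∑ p ∈ Ioc x (2 * x), bad p ≤ 12 * (x : ℝ) ^ (1 - η) := by
    rw [hbad, sum_ite, sum_const, nsmul_eq_mul, mul_one]
    have a1 : (1 : ℝ) ≤ (x : ℝ) ^ (1 - η) :=
      Real.one_le_rpow (by exact_mod_cast hx) (by linarith)
    have a2 : ((Ioc x (2 * x)).filter fun p => ¬ p + h ≤ 2 * x).card ≤ 8 :=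
      (card_le_card (t := Ioc (2 * x - 8) (2 * x)) fun p hp => by
        simp only [mem_filter, mem_Ioc] at hp ⊢; omega).trans (by simp; omega)
    have a3 : (((Ioc x (2 * x)).filter fun p => ¬ p + h ≤ 2 * x).card : ℝ) ≤ 8 := by
      exact_mod_cast a2
    refine (add_le_add ((sum_inj (· + h) (add_left_injective h).injOn (fun p hp => ?_)
      (fun p _ => le_rfl) fun _ _ => i0 _).trans h1) a3).trans (by linarith)
    simp only [mem_filter, mem_Ioc] at hp ⊢; omega
  refine (sum_le_sum (g := fun p => 2 * Real.log x * (x : ℝ) ^ (η / 2) * bad p)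
    fun p hp => ?_).trans ?_
  · have a1 := h2 p hp _ (fun T => hf.le _) fun T hT =>
      (YY_supp hf (by linarith) hT).trans (by linarith)
    have a2 : SS (qq D x) g (YY f D x _) p ^ 2 ≤ (x : ℝ) ^ (η / 2) := by
      rw [← sq_abs]
      refine (pow_le_pow_left₀ (abs_nonneg _) a1 2).trans (le_of_eq ?_)
      rw [← Real.rpow_mul_natCast hx'.le]; push_cast; ring_nf
    rw [mul_assoc, mul_comm _ (bad p)]
    exact mul_le_mul (by linarith [(log_bd hx hp).2]) (mul_le_mul_of_nonneg_left a2 (b0 p))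
      (mul_nonneg (b0 p) (sq_nonneg _)) (by linarith)
  · rw [← mul_sum]
    refine (mul_le_mul_of_nonneg_left b1 (by positivity)).trans ?_
    rw [show 2 * Real.log x * (x : ℝ) ^ (η / 2) * (12 * (x : ℝ) ^ (1 - η)) =
      24 * Real.log x * ((x : ℝ) ^ (η / 2) * (x : ℝ) ^ (1 - η)) by ring, ← Real.rpow_add hx',
      show η / 2 + (1 - η) = 1 - η / 2 by ring]
    refine (mul_le_mul_of_nonneg_left h3 (by positivity)).trans (le_trans (le_of_eq
      (show _ = x / primorial D * Real.log x * 1 * ε by ring)) ?_)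
    gcongr
    exact one_le_pow₀ hB

theorem coord {Qm : ℝ → ℝ} (hQ : Continuous Qm)
    (hR : ∀ σ ∈ Set.Icc (0 : ℝ) (7 / 50), RR f σ ≤ Qm σ * (2499 / 10000 - σ)) {S ε : ℝ}
    (hS : ∀ η, 0 < η → η ≤ 1 / 10000 → ∫ u in η..(2198 / 10000), Dn f u / u ≤ S) (hε : 0 < ε) :
    ∀ᶠ D : ℕ in atTop, ∀ g : Option (Fin 2) → ℤ, Function.Injective g →
    (∀ j, 0 < g j ∧ g j ≤ 8) → ∀ h a : ℕ, g none = h → Nat.Coprime a (primorial D) →
    Nat.Coprime (a + h) (primorial D) → ∀ᶠ x : ℕ in atTop,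
    ∑ p ∈ Ioc x (2 * x) with p ≡ a [MOD primorial D] ∧ p.Prime, Real.log (p : ℕ) *
      ((((min (max (cardFactors (p + h)) 2) 8 : ℕ) : ℝ) - 2) * SS (qq D x) g (YY f D x _) p ^ 2) ≤
      x / primorial D * Real.log x * BB D x ^ 2 *
        (S + (∫ σ in (0 : ℝ)..(7 / 50), Qm σ * σ) + 13 * ε) := by
  classical
  set η := min (1 / 10000) (ε / (48 * K ^ 2 + 1)) with hηd
  have hη : 0 < η := lt_min (by norm_num) (by positivity)
  have hη' : η ≤ 1 / 10000 := min_le_left _ _
  have h1 : 48 * K ^ 2 * η ≤ ε := by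
    have := (le_div_iff₀ (by positivity)).1 (min_le_right (1 / 10000) (ε / (48 * K ^ 2 + 1)))
    linarith
  clear_value η
  filter_upwards [small hf hη (by linarith) hε, pen hf hQ hR hη hη' hε]
    with D h2 h3 g hg hg8 h a hh ha ha'
  have hg8' : ∀ j, g j ≠ 0 ∧ |g j| ≤ 8 := fun j =>
    ⟨(hg8 j).1.ne', abs_le.2 ⟨by linarith [(hg8 j).1], (hg8 j).2⟩⟩
  filter_upwards [h2 g hg hg8' h a hh ha ha', h3 g hg hg8 h a hh ha ha',
    badsum hf D (fun j => (hg8' j).2) (show h ≤ 8 by have := (hg8 none).2; omega) hη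
      (by linarith) hε, eventually_gt_atTop 1] with x h4 h5 h6 hx
  have h7 := mul_le_mul_of_nonneg_left ((sum_le_sum_of_subset_of_nonneg (filter_subset
    (fun p => p ≡ a [MOD primorial D] ∧ p.Prime) _) fun p _ _ => mul_nonneg
      (Real.log_natCast_nonneg _) (mul_nonneg (by split_ifs <;> norm_num) (sq_nonneg _))).trans h6)
    (show (0 : ℝ) ≤ 8 by norm_num)
  rw [← filter_filter, sum_filter] at h5
  have h8 := add_le_add (add_le_add h4 h5) h7
  rw [mul_sum, ← sum_add_distrib, ← sum_add_distrib] at h8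
  refine le_trans (sum_le_sum fun p hp => ?_) (h8.trans ?_)
  · have a1 := point hη' hx (show 0 < p + h by have := (mem_Ioc.1 (mem_filter.1 hp).1).1; omega)
    have a2 : 0 ≤ Real.log (p : ℕ) * SS (qq D x) g (YY f D x _) p ^ 2 :=
      mul_nonneg (Real.log_natCast_nonneg _) (sq_nonneg _)
    by_cases a3 : p + h ≤ 2 * x
    · rw [if_pos a3, if_pos a3]
      linarith [mul_le_mul_of_nonneg_left a1 a2]
    · rw [if_neg a3, if_neg a3]
      have a4 : ((min (max (cardFactors (p + h)) 2) 8 : ℕ) : ℝ) ≤ 8 := by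
        exact_mod_cast min_le_right _ _
      linarith [mul_le_mul_of_nonneg_left a4 a2, mul_nonneg a2 (cnt_nonneg η x (p + h))]
  · have := mul_le_mul_of_nonneg_left (add_le_add (hS η hη hη') h1)
      (show 0 ≤ x / primorial D * Real.log x * BB D x ^ 2 by
        have := Real.log_natCast_nonneg x; positivity)
    linarith

omit hf in
def hh : Fin 3 → ℕ := ![2, 6, 8]

omit hf in
theorem exists_class (D : ℕ) :
    ∃ b : ℕ, Nat.Coprime b (primorial D) ∧ ∀ i, Nat.Coprime (b + hh i) (primorial D) := by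
  obtain ⟨b, hb⟩ := Nat.chineseRemainderOfFinset (fun p => if p < 11 then 11 else 1) id
    (Nat.primesLE D) (fun p hp => (Nat.prime_of_mem_primesLE hp).ne_zero) fun p hp r hr h =>
      (Nat.coprime_primes (Nat.prime_of_mem_primesLE hp) (Nat.prime_of_mem_primesLE hr)).2 h
  have key : ∀ t ∈ ({0, 2, 6, 8} : Finset ℕ), Nat.Coprime (b + t) (primorial D) := fun t ht =>
    Nat.coprime_of_dvd fun p hp h1 h2 => by
      have h3 := (((hb p (Nat.mem_primesLE.2 ⟨hp.dvd_primorial_iff.1 h2, hp⟩)).add_right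
        t).dvd_iff dvd_rfl).1 h1
      have h4 := hp.two_le
      clear h1
      split_ifs at h3 with h
      · revert t; interval_cases p <;> decide
      · have : p ≤ _ := Nat.le_of_dvd (by omega) h3
        simp only [mem_insert, mem_singleton] at ht
        omega
  exact ⟨b, key 0 (by decide), fun i => key _ (by revert i; decide)⟩

theorem main_of {Qm : ℝ → ℝ} (hQ : Continuous Qm)
    (hR : ∀ σ ∈ Set.Icc (0 : ℝ) (7 / 50), RR f σ ≤ Qm σ * (2499 / 10000 - σ)) {S : ℝ}
    (hS : ∀ η, 0 < η → η ≤ 1 / 10000 → ∫ u in η..(2198 / 10000), Dn f u / u ≤ S)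
    (hnum : S + (∫ σ in (0 : ℝ)..(7 / 50), Qm σ * σ) <
      2 * ∫ s in (0 : ℝ)..1, f s ^ 2 * (s ^ 2 / 2)) :
    ∀ᶠ x : ℕ in atTop, ∃ p > x, p.Prime ∧ ∑ i, max (cardFactors (p + hh i)) 2 ≤ 11 := by
  set I := ∫ s in (0 : ℝ)..1, f s ^ 2 * (s ^ 2 / 2) with hI
  set J := ∫ σ in (0 : ℝ)..(7 / 50), Qm σ * σ with hJ
  have hε : 0 < (2 * I - (S + J)) / 20 := by linarith
  obtain ⟨D, h3, h4⟩ := ((primeSum (κ := Fin 3) (by simp) (show (0 : ℝ) < 1 / 10 by norm_num)
    hε).and (coord hf hQ hR hS hε)).exists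
  obtain ⟨b, hb0, hb⟩ := exists_class D
  have h2 := (conv_nu_pow D (Fin 3) 2 (by simp)).2.2.2.2 (fun t => f t ^ 2)
    (hf.cont.pow 2) 1 zero_le_one fun u hu => by rw [hf.zero _ (by linarith)]; simp
  simp only [zero_mul, zero_add, Nat.factorial_two, Nat.cast_ofNat] at h2
  filter_upwards [h3 (fun j => hh j) (by decide) (by decide) b hb0, eventually_all.2 fun i =>
    h4 (fun o => hh ((finSuccEquiv' i).symm o)) (by revert i; decide) (by revert i; decide) (hh i) b
      (by simp) hb0 (hb i), h2.eventually_const_le (sub_lt_self _ hε), Meas.L_pos, Meas.BB_pos D,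
      eventually_gt_atTop 0] with x h5 h6 h7 hl hB hx
  by_contra hcon
  have hW : (0 : ℝ) < primorial D := by exact_mod_cast primorial_pos D
  have hX : 0 < x / primorial D * Real.log x * BB D x ^ 2 := by positivity
  have hs := fun T hT => YY_supp hf (D := D) (κ := Fin 3) (T := T) hl hT
  have a1 := (abs_le.1 (h5 (YY f D x _) (YY f D x _) 1 one_pos (fun T => hf.le _) (fun T => hf.le _)
    (fun T h => by linarith [hs T h]) (fun T h => by linarith [hs T h])
    fun T U a1 a2 => by linarith [hs T a1, hs U a2])).1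
  have a2 := mul_le_mul_of_nonneg_left h7 hX.le
  rw [show x / primorial D * Real.log x * BB D x ^ 2 * ∑ T : Fin 3 → Finset (PP D x),
      wts (qq D x) T / BB D x ^ (2 + 1) * f (lgs (qq D x) T / Real.log x) ^ 2 =
      x / primorial D * Real.log x / BB D x *
        ∑ T, YY f D x (Fin 3) T * YY f D x (Fin 3) T * wts (qq D x) T by
    rw [mul_sum, mul_sum]
    exact sum_congr rfl fun T _ => by unfold YY; field_simp; ring] at a2
  have e : ∀ (i : Fin 3) (m : ℤ), SS (qq D x) (fun o => (hh ((finSuccEquiv' i).symm o) : ℤ))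
      (YY f D x _) m = SS (qq D x) (fun j => (hh j : ℤ)) (YY f D x _) m := fun i m => by
    rw [← SS_re (finSuccEquiv' i) (qq D x) (fun j => (hh j : ℤ))]
    congr 1
    funext T
    rw [YY, YY, lgs_re]
  simp only [e] at h6
  have a3 := sum_le_sum fun i (_ : i ∈ univ) => h6 i
  rw [sum_comm, sum_const, card_univ, Fintype.card_fin, nsmul_eq_mul] at a3
  have a4 : 6 * ∑ p ∈ Ioc x (2 * x) with p ≡ b [MOD primorial D] ∧ p.Prime, Real.log (p : ℕ) *
      (SS (qq D x) (fun j => (hh j : ℤ)) (YY f D x _) p *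
        SS (qq D x) (fun j => (hh j : ℤ)) (YY f D x _) p) ≤ _ := le_trans (by
    rw [mul_sum]
    refine sum_le_sum fun p hp => ?_
    rw [← mul_sum, ← sum_mul, mul_left_comm, ← sq]
    refine mul_le_mul_of_nonneg_left (mul_le_mul_of_nonneg_right ?_ (sq_nonneg _))
      (Real.log_natCast_nonneg _)
    have b2 := not_le.1 fun h => hcon ⟨p, (mem_Ioc.1 (mem_filter.1 hp).1).1,
      (mem_filter.1 hp).2.2, h⟩
    have b3 : 12 ≤ ∑ i, min (max (cardFactors (p + hh i)) 2) 8 := by
      rw [Fin.sum_univ_three] at b2 ⊢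
      omega
    have b4 : (12 : ℝ) ≤ ∑ i, ((min (max (cardFactors (p + hh i)) 2) 8 : ℕ) : ℝ) := by
      exact_mod_cast b3
    rw [Fin.sum_univ_three] at b4 ⊢
    linarith) a3
  push_cast at a4
  have a5 : x / primorial D * Real.log x * BB D x ^ 2 * (6 * (I - 2 * ((2 * I - (S + J)) / 20))) ≤
      x / primorial D * Real.log x * BB D x ^ 2 * (3 * (S + J + 13 * ((2 * I - (S + J)) / 20))) := by
    linarith
  have := le_of_mul_le_mul_left a5 hX
  linarith

end

end Pool.Agent.Lib.MP_fc51f7_nt.Pr
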