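import Pool.Agent.Lib.MP_fc51f7_nt.PrG
import Pool.Agent.Lib.MP_fc51f7_nt.Num2A

/-! The numerical inequality for three shifted primes. -/

set_option autoImplicit false

namespace Pool.Agent.Lib.MP_fc51f7_nt.Pr

open Filter MeasureTheory intervalIntegral Nm4 Nm5 Nm5.Ex

def sb {R : Type} [Ops R] (p : List ℚ) (v : R) : R := lsub v (p.map Ops.cst)

theorem ev_sb {R : Type} [Ops R] {e : R → ℝ} (h : Hom e) (p : List ℚ) (v : R) :
    e (sb p v) = ev1 (e v) p := by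
  rw [sb, h.lsub]
  induction p with
  | nil => rfl
  | cons c l ih => simp only [List.map_cons, lev_cons, ih, h.cst]; rfl

def FF : List ℚ := [0, 1 / 7, -5, 722 / 7, -6220 / 7, 19575 / 7]
def F2 : List ℚ := Ops.mul FF FF
def G1 : List ℚ := [5 / 2, 5 / 2, 5 / 2, 5 / 2, 10000 / 2196]
def G2 : List ℚ := [5, 5, 5, 5, 10000 / 1099]
def P1 : List ℚ := I2 (Ops.mul (sb G1 (p2 (c 1 - c (5 / 2) * y)))
  (sb G1 (p2 (c 1 - c (5 / 2) * (c 1 - (x + y)))))) (c (2198 / 10000)) (c (7804 / 10000) - x)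
def MM : List ℚ := I2 (Ops.mul (sb G1 (p2 (c 1 - c (5 / 2) * y))) (sb P1 (p2 (x + y))))
  (c (2198 / 10000)) (c (5606 / 10000) - x)
def Gp : List ℚ := I2 (sb FF (p2 (c (7 / 50) - (y + x)))) (c 0) (c (7 / 50) - x)
def Np : List ℚ := I2 (sb F2 (p2 (c (7 / 50) - (y + x)))) (c 0) (c (7 / 50) - x)
def H1 : List (List ℚ) := lint (sb F2 (p3 (c (7 / 50) - (z + x)))) (p2 (c 0)) (p2 y)
def Rp (M : List ℚ) : List ℚ := Ops.mul (Ops.cst (1 / 6)) (Ops.add
  (Ops.mul (Ops.mul Gp Gp) (sb M (p1 (c 0))))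
  (Ops.add (I2 (Ops.mul (sb M (p2 y)) H1) (c 0) (c (7 / 50) - x))
    (I2 (Ops.mul (sb M (p2 y)) (sb Np (p2 x))) (c (7 / 50) - x) (c (3408 / 10000)))))
def Qp : List ℚ := Ops.mul (Rp MM) (sb G2 (p1 (c 1 - c 5 * (c (2499 / 10000) - x))))
def Jq : ℚ := lint (Ops.mul Qp (p1 x)) 0 (7 / 50)
def Iq : ℚ := lint (Ops.mul (sb F2 (p1 (c (7 / 50) - x))) (p1 (c (1 / 2) * (x * x)))) 0 (7 / 50)
def dd : List (List ℚ) := Ops.add (sb FF (p2 (c (7 / 50) - y)))
  (Ops.mul (Ops.cst (-1)) (sb FF (p2 (c (7 / 50) - (y + x)))))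
def D1 : List ℚ := Ops.add
  (I2 (Ops.mul (Ops.mul dd dd) (p2 (c (1 / 2) * (y * y)))) (c 0) (c (7 / 50) - x))
  (I2 (Ops.mul (sb F2 (p2 (c (7 / 50) - y))) (p2 (c (1 / 2) * (y * y)))) (c (7 / 50) - x)
    (c (7 / 50)))
def Sq : ℚ := lint D1.tail 0 (7 / 50)

theorem key1 : D1 = 0 :: D1.tail := by decide +kernel

theorem key2 : Sq + 4511 / 10000 * Iq + Jq < 2 * Iq := by decide +kernel

noncomputable def ff (s : ℝ) : ℝ := ev1 (max 0 (min (7 / 50 - s) (7 / 50))) FF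

theorem ff_eq {s : ℝ} (h0 : 0 ≤ s) (h1 : s ≤ 7 / 50) : ff s = ev1 (7 / 50 - s) FF := by
  rw [ff, min_eq_left (by linarith), max_eq_right (by linarith)]

theorem ev_F2 (s : ℝ) : ev1 s F2 = ev1 s FF ^ 2 := by rw [F2, (hom1 s).mul, sq]

theorem ev1_lip (p : List ℚ) : ∃ A B : ℝ, ∀ a ∈ Set.Icc (0 : ℝ) 1, ∀ b ∈ Set.Icc (0 : ℝ) 1,
    |ev1 a p| ≤ A ∧ |ev1 a p - ev1 b p| ≤ B * |a - b| := by
  induction p with
  | nil => exact ⟨0, 0, fun a _ b _ => by simp [ev1]⟩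
  | cons q l ih =>
    obtain ⟨A, B, h⟩ := ih
    refine ⟨|(q : ℝ)| + A, B + A, fun a ha b hb => ?_⟩
    have e : ∀ t, ev1 t (q :: l) = q + t * ev1 t l := fun _ => rfl
    have h1 : ∀ t, |a * t| ≤ |t| := fun t => by
      rw [abs_mul, abs_of_nonneg ha.1]; exact mul_le_of_le_one_left (abs_nonneg _) ha.2
    rw [e, e, show q + a * ev1 a l - (q + b * ev1 b l) =
      a * (ev1 a l - ev1 b l) + ev1 b l * (a - b) by ring, add_mul]
    refine ⟨(abs_add_le _ _).trans (add_le_add le_rfl ((h1 _).trans (h a ha b hb).1)),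
      (abs_add_le _ _).trans (add_le_add ((h1 _).trans (h a ha b hb).2) ?_)⟩
    rw [abs_mul]
    exact mul_le_mul_of_nonneg_right (h b hb a ha).1 (abs_nonneg _)

theorem ff_prof : ∃ K, Prof ff K := by
  obtain ⟨A, B, h⟩ := ev1_lip FF
  have h0 : ∀ s : ℝ, 0 ≤ max 0 (min (7 / 50 - s) (7 / 50)) ∧
      max 0 (min (7 / 50 - s) (7 / 50)) ≤ 7 / 50 :=
    fun s => ⟨le_max_left _ _, max_le (by norm_num) (min_le_right _ _)⟩
  have h1 : ∀ s : ℝ, max 0 (min (7 / 50 - s) (7 / 50)) ∈ Set.Icc (0 : ℝ) 1 :=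
    fun s => ⟨(h0 s).1, (h0 s).2.trans (by norm_num)⟩
  refine ⟨|B|, fun a b => (h _ (h1 a) _ (h1 b)).2.trans (mul_le_mul (le_abs_self _) ?_
    (abs_nonneg _) (abs_nonneg _)), fun a => ?_, fun a ha => ?_⟩
  · rw [max_comm, max_comm 0]
    refine (abs_max_sub_max_le_abs _ _ _).trans ((abs_min_sub_min_le_max _ _ _ _).trans ?_)
    rw [sub_self, abs_zero, sub_sub_sub_cancel_left, abs_sub_comm, max_eq_left (abs_nonneg _)]
  · obtain ⟨a0, a1⟩ := h0 a
    unfold ff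
    generalize max 0 (min (7 / 50 - a) (7 / 50)) = t at *
    have a2 := fun n => pow_le_pow_left₀ a0 a1 n
    have a3 := fun n => pow_nonneg a0 n
    simp only [FF, ev1, lev_cons, lev_nil]
    push_cast
    exact abs_le.2 ⟨by linarith [a2 2, a2 4, a3 3, a3 5], by linarith [a2 3, a2 5, a3 2, a3 4]⟩
  · rw [ff, max_eq_left ((min_le_left _ _).trans (by linarith))]
    simp [FF, ev1]

theorem inv_G1 {a : ℝ} (h : 2196 / 10000 ≤ a) : a⁻¹ ≤ ev1 (1 - 5 / 2 * a) G1 := by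
  have h0 : 0 < a := by linarith
  have h1 : a⁻¹ ≤ 10000 / 2196 := by rw [inv_le_comm₀ h0 (by norm_num), inv_div]; exact h
  have := mul_nonneg (show 0 ≤ (1 - 5 / 2 * a) ^ 4 by positivity) (sub_nonneg.2 h1)
  simp only [G1, ev1, lev_cons, lev_nil]
  push_cast
  exact sub_nonneg.1 (this.trans (le_of_eq (by field_simp; ring)))

theorem inv_G2 {a : ℝ} (h : 1099 / 10000 ≤ a) : a⁻¹ ≤ ev1 (1 - 5 * a) G2 := by
  have h0 : 0 < a := by linarith
  have h1 : a⁻¹ ≤ 10000 / 1099 := by rw [inv_le_comm₀ h0 (by norm_num), inv_div]; exact h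
  have := mul_nonneg (show 0 ≤ (1 - 5 * a) ^ 4 by positivity) (sub_nonneg.2 h1)
  simp only [G2, ev1, lev_cons, lev_nil]
  push_cast
  exact sub_nonneg.1 (this.trans (le_of_eq (by field_simp; ring)))

theorem int_zero {φ : ℝ → ℝ} {a b : ℝ} (h : a ≤ b) (h0 : ∀ t ∈ Set.Icc a b, φ t = 0) :
    ∫ t in a..b, φ t = 0 := by
  rw [integral_congr (g := fun _ => 0) fun t ht => h0 t (Set.uIcc_of_le h ▸ ht)]; simp

theorem int_cut {φ : ℝ → ℝ} (hφ : Continuous φ) (a : ℝ) {b d : ℝ} (h : d ≤ b)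
    (h0 : ∀ t ∈ Set.Icc d b, φ t = 0) : ∫ t in a..b, φ t = ∫ t in a..d, φ t := by
  rw [← integral_add_adjacent_intervals (hφ.intervalIntegrable a d) (hφ.intervalIntegrable d b),
    int_zero h h0, add_zero]

theorem Psi_zero {ψ : ℝ → ℝ} {α w s : ℝ} (hα : α ≤ 1) (h : ∀ t, w ≤ t → ψ t = 0) (hs : w - α ≤ s) :
    Psi α ψ s = 0 := int_zero hα fun t ht => by rw [h _ (by linarith [ht.1]), zero_div]

theorem Psi_le {ψ φ : ℝ → ℝ} (hψ : Continuous ψ) (hφ : Continuous φ) {w s : ℝ} (h0 : ∀ t, 0 ≤ ψ t)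
    (h : ∀ t, w ≤ t → ψ t = 0) (hs : s ≤ w - 2198 / 10000) (hs' : w - s ≤ 1)
    (h1 : ∀ t ∈ Set.Icc (2198 / 10000) (w - s), ψ (s + t) ≤ φ t) :
    Psi (2198 / 10000) ψ s ≤ ∫ t in (2198 / 10000)..(w - s), ev1 (1 - 5 / 2 * t) G1 * φ t := by
  have hc : Continuous fun t => ψ (s + t) / max t (2198 / 10000) :=
    (hψ.comp (by fun_prop)).div (by fun_prop) fun z => (lt_max_of_lt_right (by norm_num)).ne'
  rw [Psi, int_cut hc _ hs' fun t ht => by rw [h _ (by linarith [ht.1]), zero_div]]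
  refine integral_mono_on (by linarith) (hc.intervalIntegrable _ _)
    (((cont_ev1 (by fun_prop) _).fun_mul hφ).intervalIntegrable _ _) fun t ht => ?_
  have := inv_G1 (show 2196 / 10000 ≤ t by linarith [ht.1])
  rw [max_eq_left ht.1, div_eq_inv_mul]
  exact mul_le_mul this (h1 t ht) (h0 _) (le_trans (inv_nonneg.2 (by linarith [ht.1])) this)

theorem P1_le {s : ℝ} (h0 : 0 ≤ s) (h1 : s ≤ 5606 / 10000) :
    Psi (2198 / 10000) ps s ≤ ev1 s P1 := by
  refine (Psi_le (φ := fun t => ev1 (1 - 5 / 2 * (1 - (s + t))) G1) ps_cont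
    (cont_ev1 (by fun_prop) _) (fun t => (ps_mem t).1) (fun _ => ps_zero) (by linarith)
    (by linarith) fun t ht => ?_).trans (le_of_eq ?_)
  · have h2 : 2196 / 10000 ≤ 1 - (s + t) := by linarith [ht.2]
    refine le_trans ?_ (inv_G1 h2)
    rw [ps, max_eq_left h2, inv_eq_one_div]
    exact div_le_div_of_nonneg_right (max_le zero_le_one (min_le_left _ _)) (by linarith)
  · rw [P1, ev_I2]
    simp only [(hom2 _ _).mul, ev_sb (hom2 _ _), ev_p2, ev_sub, ev_mul, ev_add, ev_c, ev_x, ev_y]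
    push_cast; rfl

theorem MM_le {v : ℝ} (h0 : 0 ≤ v) (h1 : v ≤ 3408 / 10000) : P2 v ≤ ev1 v MM := by
  have hu : (0 : ℝ) < 2198 / 10000 := by norm_num
  refine (Psi_le (φ := fun t => ev1 (v + t) P1) (w := 5606 / 10000) (Psi_cont hu ps_cont)
    (cont_ev1 (by fun_prop) _) (Psi_nonneg hu (by norm_num) fun t => (ps_mem t).1)
    (fun t ht => Psi_zero (by norm_num) (fun _ => ps_zero) (by linarith)) (by linarith)
    (by linarith) fun t ht => P1_le (by linarith [ht.1]) (by linarith [ht.2])).trans (le_of_eq ?_)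
  rw [MM, ev_I2]
  simp only [(hom2 _ _).mul, ev_sb (hom2 _ _), ev_p2, ev_sub, ev_mul, ev_add, ev_c, ev_x, ev_y]
  push_cast; rfl

theorem P2_zero {v : ℝ} (h : 3408 / 10000 ≤ v) : P2 v = 0 :=
  Psi_zero (w := 5606 / 10000) (by norm_num)
    (fun t ht => Psi_zero (by norm_num) (fun _ => ps_zero) (by linarith)) (by linarith)

theorem RR_le {σ : ℝ} (h0 : 0 ≤ σ) (h1 : σ ≤ 7 / 50) : RR ff σ ≤ ev1 σ (Rp MM) := by
  obtain ⟨K, hf⟩ := ff_prof
  have hc := hf.cont
  have e1 : ∫ u in (0 : ℝ)..1, ff (u + σ) = ev1 σ Gp := by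
    rw [int_cut (by fun_prop) 0 (show 7 / 50 - σ ≤ 1 by linarith) fun t ht =>
      hf.zero _ (by linarith [ht.1]), Gp, ev_I2]
    simp only [ev_sb (hom2 _ _), ev_p2, ev_sub, ev_add, ev_c, ev_x, ev_y]
    push_cast
    refine integral_congr fun t ht => ?_
    rw [Set.uIcc_of_le (by linarith)] at ht
    exact ff_eq (by linarith [ht.1]) (by linarith [ht.2])
  have e2 : ∀ v, 0 ≤ v → v ≤ 7 / 50 - σ → ∫ u in (0 : ℝ)..v, ff (u + σ) ^ 2 =
      ∫ u in (0 : ℝ)..v, ev1 (7 / 50 - (u + σ)) F2 := fun v a1 a2 => integral_congr fun t ht => by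
    rw [Set.uIcc_of_le a1] at ht
    simp only [ev_F2]
    rw [ff_eq (by linarith [ht.1]) (by linarith [ht.2])]
  have e3 : ∀ v, ev2 σ v H1 = ∫ u in (0 : ℝ)..v, ev1 (7 / 50 - (u + σ)) F2 := fun v => by
    rw [H1, (hom2 _ _).lint]
    simp only [ev_sb ((hom2 _ _).lev _), ev_p2, ev_p3, ev_sub, ev_add, ev_c, ev_x, ev_y, ev_z]
    push_cast; rfl
  have e4 : ∀ v, 7 / 50 - σ ≤ v → ∫ u in (0 : ℝ)..v, ff (u + σ) ^ 2 = ev1 σ Np := fun v a1 => by
    rw [int_cut (by fun_prop) 0 a1 fun t ht => by rw [hf.zero _ (by linarith [ht.1])]; simp,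
      e2 _ (by linarith) le_rfl, Np, ev_I2]
    simp only [ev_sb (hom2 _ _), ev_p2, ev_sub, ev_add, ev_c, ev_x, ev_y]
    push_cast; rfl
  have hH : Continuous fun v => P2 v * ∫ u in (0 : ℝ)..v, ff (u + σ) ^ 2 :=
    P2_cont.fun_mul (continuous_primitive
      (fun _ _ => Continuous.intervalIntegrable (by fun_prop) _ _) 0)
  have hn : ∀ v, 0 ≤ v → 0 ≤ ∫ u in (0 : ℝ)..v, ff (u + σ) ^ 2 := fun v hv =>
    integral_nonneg hv fun _ _ => sq_nonneg _
  rw [RR, e1, int_cut hH 0 (show (3408 / 10000 : ℝ) ≤ 1 by norm_num) fun t ht => by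
    rw [P2_zero ht.1, zero_mul], ← integral_add_adjacent_intervals
    (hH.intervalIntegrable 0 (7 / 50 - σ)) (hH.intervalIntegrable _ _), Rp]
  simp only [(hom1 _).mul, (hom1 _).add, (hom1 _).cst, ev_sb (hom1 _), ev_I2, (hom2 _ _).mul,
    ev_sb (hom2 _ _), ev_p1, ev_p2, ev_sub, ev_c, ev_x, ev_y]
  push_cast
  rw [one_div, inv_mul_eq_div, ← sq]
  refine div_le_div_of_nonneg_right (add_le_add (mul_le_mul_of_nonneg_left
    (MM_le le_rfl (by norm_num)) (sq_nonneg _)) (add_le_add ?_ ?_)) (by norm_num)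
  · refine integral_mono_on (by linarith) (hH.intervalIntegrable _ _) (((cont_ev1 continuous_id'
      _).fun_mul (cont_ev2 continuous_const continuous_id' _)).intervalIntegrable _ _) fun t ht => ?_
    rw [e3, ← e2 t ht.1 ht.2]
    exact mul_le_mul_of_nonneg_right (MM_le ht.1 (by linarith [ht.2])) (hn t ht.1)
  · refine integral_mono_on (by linarith) (hH.intervalIntegrable _ _) (((cont_ev1 continuous_id'
      _).fun_mul continuous_const).intervalIntegrable _ _) fun t ht => ?_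
    rw [← e4 t ht.1]
    exact mul_le_mul_of_nonneg_right (MM_le (by linarith [ht.1]) ht.2) (hn t (by linarith [ht.1]))

theorem I_eq : ∫ s in (0 : ℝ)..1, ff s ^ 2 * (s ^ 2 / 2) = (Iq : ℝ) := by
  obtain ⟨K, hf⟩ := ff_prof
  have hc := hf.cont
  rw [int_cut (by fun_prop) 0 (show (7 / 50 : ℝ) ≤ 1 by norm_num) fun t ht => by
    rw [hf.zero _ ht.1]; simp, Iq, hom0.lint]
  push_cast
  refine integral_congr fun t ht => ?_
  rw [Set.uIcc_of_le (by norm_num)] at ht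
  change _ = ev1 t _
  simp only [(hom1 _).mul, ev_sb (hom1 _), ev_p1, ev_sub, ev_mul, ev_c, ev_x, ev_F2]
  push_cast
  rw [ff_eq ht.1 ht.2]; ring

theorem Dn_low {u : ℝ} (h0 : 0 ≤ u) (h1 : u ≤ 7 / 50) : Dn ff u = u * ev1 u D1.tail := by
  obtain ⟨K, hf⟩ := ff_prof
  have hc := hf.cont
  have hd : Continuous fun s => (ff s - ff (s + u)) ^ 2 * (s ^ 2 / 2) := by fun_prop
  have e : ev1 u D1 = u * ev1 u D1.tail := by
    rw [congrArg (ev1 u) key1]; simp [ev1]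
  rw [← e, Dn, int_cut hd 0 (show (7 / 50 : ℝ) ≤ 1 by norm_num) fun t ht => by
    rw [hf.zero _ ht.1, hf.zero _ (by linarith [ht.1])]; simp, ← integral_add_adjacent_intervals
    (hd.intervalIntegrable 0 (7 / 50 - u)) (hd.intervalIntegrable _ _), D1, dd]
  simp only [(hom1 _).add, ev_I2, (hom2 _ _).mul, (hom2 _ _).add, (hom2 _ _).cst,
    ev_sb (hom2 _ _), ev_p2, ev_sub, ev_add, ev_mul, ev_c, ev_x, ev_y, ev_F2]
  push_cast
  congr 1 <;> refine integral_congr fun t ht => ?_ <;> rw [Set.uIcc_of_le (by linarith)] at ht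
  · rw [ff_eq ht.1 (by linarith [ht.2]), ff_eq (by linarith [ht.1]) (by linarith [ht.2])]; ring
  · rw [ff_eq (by linarith [ht.1]) ht.2, hf.zero _ (by linarith [ht.1])]; ring

theorem small_le {η : ℝ} (h0 : 0 < η) (h1 : η ≤ 1 / 10000) :
    ∫ u in η..(2198 / 10000), Dn ff u / u ≤ Sq + 4511 / 10000 * Iq := by
  obtain ⟨K, hf⟩ := ff_prof
  have hi : ∀ a b : ℝ, 0 < a → a ≤ b → IntervalIntegrable (fun u => Dn ff u / u) volume a b :=
    fun a b ha hab => ContinuousOn.intervalIntegrable_of_Icc hab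
      ((Dn_cont hf).continuousOn.div continuousOn_id fun u hu => (ha.trans_le hu.1).ne')
  have e1 : ∀ u, 0 < u → u ≤ 7 / 50 → Dn ff u / u = ev1 u D1.tail := fun u a1 a2 => by
    rw [Dn_low a1.le a2, mul_div_cancel_left₀ _ a1.ne']
  rw [← integral_add_adjacent_intervals (hi η (7 / 50) h0 (by linarith))
    (hi _ _ (by norm_num) (by norm_num))]
  refine add_le_add ?_ ?_
  · have hc : Continuous fun u => ev1 u D1.tail := cont_ev1 continuous_id' _
    rw [integral_congr (g := fun u => ev1 u D1.tail) fun u hu => by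
      rw [Set.uIcc_of_le (by linarith)] at hu; exact e1 u (h0.trans_le hu.1) hu.2, Sq, hom0.lint]
    push_cast
    refine le_trans (le_add_of_nonneg_left ?_) (integral_add_adjacent_intervals
      (hc.intervalIntegrable 0 η) (hc.intervalIntegrable _ _)).le
    rw [integral_of_le h0.le]
    refine setIntegral_nonneg measurableSet_Ioc fun u hu => ?_
    rw [← e1 u hu.1 (by linarith [hu.2])]
    exact div_nonneg (integral_nonneg zero_le_one fun _ _ => by positivity) hu.1.le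
  · rw [integral_congr (g := fun u => (Iq : ℝ) * u⁻¹) fun u hu => by
      rw [Set.uIcc_of_le (by norm_num)] at hu
      simp only [← I_eq, Dn, div_eq_mul_inv _ u]
      congr 1
      refine integral_congr fun t ht => ?_
      rw [Set.uIcc_of_le zero_le_one] at ht
      simp only [hf.zero (t + u) (by linarith [ht.1, hu.1]), sub_zero],
      intervalIntegral.integral_const_mul, integral_inv_of_pos (by norm_num) (by norm_num), mul_comm]
    refine mul_le_mul_of_nonneg_right ?_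
      (by rw [← I_eq]; exact integral_nonneg zero_le_one fun _ _ => by positivity)
    rw [Real.log_le_iff_le_exp (by norm_num)]
    refine le_trans ?_ (Real.sum_le_exp_of_nonneg (by norm_num) 7)
    norm_num [Finset.sum_range_succ, Nat.factorial]

/-- Infinitely many primes `p` with few prime factors in `p + 2`, `p + 6`, `p + 8`. -/
theorem main : ∀ᶠ x : ℕ in atTop, ∃ p > x, p.Prime ∧
    ∑ i, max (ArithmeticFunction.cardFactors (p + hh i)) 2 ≤ 11 := by
  obtain ⟨K, hf⟩ := ff_prof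
  refine main_of hf (Qm := fun σ => ev1 σ Qp) (cont_ev1 continuous_id' _) (fun σ hσ => ?_)
    (fun η => small_le) ?_
  · have h1 := RR_le hσ.1 hσ.2
    have h2 := inv_G2 (show 1099 / 10000 ≤ 2499 / 10000 - σ by linarith [hσ.2])
    rw [inv_le_iff_one_le_mul₀ (by linarith [hσ.2])] at h2
    rw [Qp]
    simp only [(hom1 _).mul, ev_sb (hom1 _), ev_p1, ev_sub, ev_mul, ev_c, ev_x]
    push_cast
    rw [mul_assoc]
    exact h1.trans (le_mul_of_one_le_right ((RR_nonneg _ _).trans h1) h2)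
  · have e : ∫ σ in (0 : ℝ)..(7 / 50), ev1 σ Qp * σ = (Jq : ℝ) := by
      rw [Jq, hom0.lint]
      push_cast
      refine integral_congr fun t _ => ?_
      change _ = ev1 t _
      rw [(hom1 _).mul, ev_p1, ev_x]
    rw [e, I_eq]
    have := (Rat.cast_lt (K := ℝ)).2 key2
    push_cast at this
    exact this

end Pool.Agent.Lib.MP_fc51f7_nt.Pr
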