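import Pool.Agent.Lib.MP_fc51f7_nt.Pair
import Pool.Agent.Lib.MP_fc51f7_nt.Defs2

-- part Pool.Agent.Lib.MP_fc51f7_nt.Few
section

/-! Lower bound for the contribution of cofactors with one or two prime factors. -/

set_option autoImplicit false

namespace Pool.Agent.Lib.MP_fc51f7_nt

open Finset Filter Topology

namespace Few

theorem cont_int {H : ℝ → ℝ → ℝ} (hH : Continuous H.uncurry) {α β : ℝ → ℝ} (hα : Continuous α)
    (hβ : Continuous β) : Continuous fun z => ∫ b in α z..β z, H z b := by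
  have h1 := intervalIntegral.continuous_parametric_intervalIntegral_of_continuous
    (μ := MeasureTheory.volume) (a₀ := 0) hH hα
  have h2 := intervalIntegral.continuous_parametric_intervalIntegral_of_continuous
    (μ := MeasureTheory.volume) (a₀ := 0) hH hβ
  refine (h2.sub h1).congr fun z => ?_
  have h3 : Continuous (H z) := hH.uncurry_left z
  exact intervalIntegral.integral_interval_sub_left (h3.intervalIntegrable _ _)
    (h3.intervalIntegrable _ _)

section
variable {α : ℕ → Type} {s : ∀ x, Finset (α x)} {c t : ∀ x, α x → ℝ}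

theorem low (h : Conv s c t 0 fun _ => 1) {a b κ ε : ℝ} (ha : 0 < a) (hab : a ≤ b)
    (hb : b - a ≤ 1) (hκ : 0 ≤ κ) (hε : 0 < ε) {g : ℝ → ℝ} (hg : Continuous g) :
    ∀ᶠ x in atTop, (∫ u in a..b, g u) - κ - ε ≤
      ∑ i ∈ s x with a < t x i ∧ t x i ≤ b, c x i * (g (t x i) - κ) := by
  have h1 := h.Ioc ha hab (g := fun u => g u - κ) (hg.sub continuous_const).continuousOn
  simp only [mul_one] at h1
  rw [intervalIntegral.integral_sub (hg.intervalIntegrable _ _) intervalIntegrable_const,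
    intervalIntegral.integral_const, smul_eq_mul] at h1
  refine h1.eventually_const_le ?_
  nlinarith

theorem inner (h : Conv s c t 0 fun _ => 1) {H : ℝ → ℝ → ℝ} (hH : Continuous H.uncurry)
    {η a1 ε : ℝ} (hη : 0 < η) (ha : a1 < 1 / 3) (hε : 0 < ε) :
    ∀ᶠ x in atTop, ∀ a ∈ Set.Icc η a1, (∫ b in a..(1 - a) / 2, H a b) - 5 * ε ≤
      ∑ j ∈ s x with a < t x j ∧ t x j ≤ (1 - a) / 2, c x j * max (H a (t x j) - ε) 0 := by
  refine isCompact_Icc.induction_on (p := fun S => ∀ᶠ x in atTop, ∀ a ∈ S,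
    (∫ b in a..(1 - a) / 2, H a b) - 5 * ε ≤
      ∑ j ∈ s x with a < t x j ∧ t x j ≤ (1 - a) / 2, c x j * max (H a (t x j) - ε) 0)
    (by simp) (fun S S' hS h => h.mono fun x hx a ha => hx a (hS ha))
    (fun S S' h h' => (h.and h').mono fun x hx a ha => ha.elim (hx.1 a) (hx.2 a)) fun a' ha' => ?_
  have hJ := cont_int hH continuous_id (show Continuous fun a : ℝ => (1 - a) / 2 by fun_prop)
  have hK := cont_int (H := fun _ b => H a' b) (hH.uncurry_left a' |>.comp continuous_snd)
    (show Continuous fun d : ℝ => a' + d by fun_prop)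
    (show Continuous fun d : ℝ => (1 - a') / 2 - d by fun_prop)
  have k1 : ∀ᶠ d in 𝓝[>] (0 : ℝ), (∫ b in a'..(1 - a') / 2, H a' b) - ε ≤
      ∫ b in (a' + d)..((1 - a') / 2 - d), H a' b := by
    refine nhdsWithin_le_nhds ((hK.tendsto 0).eventually_const_le ?_)
    simp only [add_zero, sub_zero]
    linarith
  have k2 : ∀ᶠ d in 𝓝[>] (0 : ℝ), d < (1 / 3 - a1) / 2 :=
    nhdsWithin_le_nhds (gt_mem_nhds (by linarith))
  obtain ⟨d, ⟨k1, k2⟩, hd⟩ := ((k1.and k2).and self_mem_nhdsWithin).exists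
  have hd : 0 < d := hd
  have k3 : ∀ᶠ a in 𝓝 a', ∀ u ∈ Set.Icc (0 : ℝ) 1, H a' u - ε ≤ H a u := by
    refine isCompact_Icc.eventually_forall_of_forall_eventually fun u _ => ?_
    have : Continuous fun z : ℝ × ℝ => H z.1 z.2 - H a' z.2 :=
      hH.sub ((hH.uncurry_left a').comp continuous_snd)
    filter_upwards [(this.tendsto (a', u)).eventually_const_le (show -ε < _ by simpa using hε)]
      with z hz
    linarith
  have k4 : ∀ᶠ a in 𝓝 a', (∫ b in a..(1 - a) / 2, H a b) ≤ (∫ b in a'..(1 - a') / 2, H a' b) + ε :=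
    (hJ.tendsto a').eventually_le_const (lt_add_of_pos_right _ hε)
  have k5 : ∀ᶠ a in 𝓝 a', a ∈ Set.Ioo (a' - d) (a' + d) := Ioo_mem_nhds (by linarith) (by linarith)
  refine ⟨_, nhdsWithin_le_nhds ((k3.and k4).and k5), ?_⟩
  obtain ⟨b1, b2⟩ := ha'
  filter_upwards [low h (a := a' + d) (b := (1 - a') / 2 - d) (κ := 2 * ε) (by linarith)
    (by linarith) (by linarith) (by linarith) hε (hH.uncurry_left a')] with x hx a ⟨⟨c1, c2⟩, c3, c4⟩
  refine le_trans (by linarith) (hx.trans (le_trans (sum_le_sum fun j hj => ?_)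
    (sum_le_sum_of_subset_of_nonneg (fun j hj => ?_) fun j hj _ =>
      mul_nonneg (h.1 x j (mem_filter.1 hj).1).1 (le_max_right _ _))))
  · obtain ⟨d1, d2, d3⟩ := mem_filter.1 hj
    have := c1 (t x j) ⟨by linarith, by linarith⟩
    exact mul_le_mul_of_nonneg_left (le_max_of_le_left (by linarith)) (h.1 x j d1).1
  · obtain ⟨d1, d2, d3⟩ := mem_filter.1 hj
    exact mem_filter.2 ⟨d1, by linarith, by linarith⟩

theorem tri (h : Conv s c t 0 fun _ => 1) {H : ℝ → ℝ → ℝ} (hH : Continuous H.uncurry)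
    {η a1 ε : ℝ} (hη : 0 < η) (hη' : η ≤ a1) (ha : a1 < 1 / 3) (hε : 0 < ε) :
    ∀ᶠ x in atTop, (∫ a in η..a1, ∫ b in a..(1 - a) / 2, H a b) - 6 * ε ≤
      ∑ i ∈ s x with η < t x i ∧ t x i ≤ a1,
        ∑ j ∈ s x with t x i < t x j ∧ t x j ≤ (1 - t x i) / 2,
          c x i * (c x j * max (H (t x i) (t x j) - ε) 0) := by
  filter_upwards [inner h hH hη ha hε, low h (κ := 5 * ε) hη hη' (by linarith) (by linarith) hε
    (cont_int hH continuous_id (show Continuous fun a : ℝ => (1 - a) / 2 by fun_prop))]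
    with x h1 h2
  refine le_trans (by simp only [id] at *; linarith) (h2.trans (sum_le_sum fun i hi => ?_))
  obtain ⟨d1, d2, d3⟩ := mem_filter.1 hi
  rw [← mul_sum]
  exact mul_le_mul_of_nonneg_left (h1 _ ⟨d2.le, d3⟩) (h.1 x i d1).1

end

theorem theta_low (W a : ℕ) (hW : W ≠ 0) (ha : Nat.Coprime a W) {η : ℝ} (hη : 0 < η)
    (hη' : η ≤ 1 / 1000) : ∀ᶠ x : ℕ in atTop, ∀ m : ℕ, 0 < m → Nat.Coprime m W →
      (m : ℝ) ≤ (x : ℝ) ^ (661 / 1000 : ℝ) → (1 - 5 * η) * (x / (m * W.totient)) ≤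
      ∑ p ∈ Ioc (lo η x (box η m)) (hi η x (box η m)) with p.Prime ∧ p * m ≡ a [MOD W],
        Real.log p := by
  have : NeZero W := ⟨hW⟩
  have hφ : (1 : ℝ) ≤ W.totient := by exact_mod_cast Nat.totient_pos.2 (NeZero.pos W)
  obtain ⟨C, hC, h⟩ := theta_class W (show 0 < η / (8 * W.totient) by positivity)
  filter_upwards [eventually_gt_atTop 0, const_le_rpow
    (2 * (1 + 2 * C) * W.totient / η) (show (0 : ℝ) < 339 / 1000 by norm_num)] with x hx h2 m
    hm hmW h3
  have hm' : (0 : ℝ) < m := by positivity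
  have hx' : (0 : ℝ) < x := by positivity
  obtain ⟨b1, b2⟩ := box_spec hη hm
  set c : ZMod W := a * ((ZMod.unitOfCoprime m hmW)⁻¹ : (ZMod W)ˣ)
  have hc : IsUnit c := ((ZMod.isUnit_iff_coprime a W).2 ha).mul (Units.isUnit _)
  have h4 := (abs_le.1 (h c hc (lo η x (box η m)))).2
  have h5 := (abs_le.1 (h c hc (hi η x (box η m)))).1
  have h9 : (x : ℝ) ^ (339 / 1000 : ℝ) ≤ x / m := by
    rw [le_div_iff₀ hm']
    refine (mul_le_mul_of_nonneg_left h3 (by positivity)).trans (le_of_eq ?_)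
    rw [← Real.rpow_add hx']; norm_num
  have hy : (0 : ℝ) < x / m := by positivity
  have x1 : Real.exp η ≤ 1 + 2 * η := by
    have := Real.abs_exp_sub_one_le (x := η) (by rw [abs_of_pos hη]; linarith)
    rw [abs_of_pos hη] at this
    linarith [le_abs_self (Real.exp η - 1)]
  have x2 : 1 - η ≤ Real.exp (-η) := by linarith [Real.add_one_le_exp (-η)]
  have h6 : (hi η x (box η m) : ℝ) ≤ 2 * (x / m) :=
    (Nat.floor_le (by positivity)).trans (by rw [div_eq_mul_inv, mul_assoc]; gcongr)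
  have h7 : (lo η x (box η m) : ℝ) ≤ (1 + 2 * η) * (x / m) := by
    refine (Nat.floor_le (by positivity)).trans (max_le (h9.trans (by nlinarith)) ?_)
    rw [show -(box η m * η) = η + -((box η m + 1) * η) by ring, Real.exp_add, mul_left_comm,
      div_eq_mul_inv]
    gcongr
  have h8 : 2 * (1 - η) * (x / m) ≤ hi η x (box η m) + 1 := by
    refine le_trans ?_ (Nat.lt_floor_add_one _).le
    rw [show -((box η m + 1) * η) = -η + -(box η m * η) by ring, Real.exp_add,
      show 2 * (1 - η) * (x / m : ℝ) = 2 * x * ((1 - η) * (m : ℝ)⁻¹) by ring]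
    gcongr
  have h10 : ∑ p ∈ Icc 1 (hi η x (box η m)) with Nat.Prime p ∧ (Nat.cast p : ZMod W) = c,
      Real.log (p : ℕ) ≤
      ∑ p ∈ Ioc (lo η x (box η m)) (hi η x (box η m)) with p.Prime ∧ p * m ≡ a [MOD W],
      Real.log p + ∑ p ∈ Icc 1 (lo η x (box η m)) with Nat.Prime p ∧ (Nat.cast p : ZMod W) = c,
        Real.log (p : ℕ) := by
    rw [← sum_union (disjoint_left.2 fun p h h' => by
      have := (mem_Ioc.1 (mem_filter.1 h).1).1
      have := (mem_Icc.1 (mem_filter.1 h').1).2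
      omega)]
    refine sum_le_sum_of_subset_of_nonneg (fun p h => ?_) fun _ _ _ => Real.log_natCast_nonneg _
    obtain ⟨h, h', h''⟩ := mem_filter.1 h
    by_cases hp : p ≤ lo η x (box η m)
    · exact mem_union_right _ (mem_filter.2 ⟨mem_Icc.2 ⟨h'.pos, hp⟩, h', h''⟩)
    · refine mem_union_left _ (mem_filter.2 ⟨mem_Ioc.2 ⟨not_le.1 hp, (mem_Icc.1 h).2⟩, h', ?_⟩)
      rw [Units.eq_mul_inv_iff_mul_eq, ZMod.coe_unitOfCoprime, ← Nat.cast_mul] at h''
      exact (ZMod.natCast_eq_natCast_iff _ _ _).1 h''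
  have h11 := h2.trans h9
  rw [div_le_iff₀ hη] at h11
  have e1 : (1 - 4 * η) * (x / m / W.totient) - 1 ≤
      (hi η x (box η m) : ℝ) / W.totient - lo η x (box η m) / W.totient := by
    rw [← sub_div]
    have : (1 - 4 * η) * (x / m) - 1 ≤ (hi η x (box η m) : ℝ) - lo η x (box η m) := by linarith
    refine le_trans ?_ (div_le_div_of_nonneg_right this (by positivity))
    rw [sub_div, mul_div_assoc]; gcongr; exact div_le_self zero_le_one hφ
  have e2 : η / (8 * W.totient) * hi η x (box η m) ≤ η / 4 * (x / m / W.totient) :=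
    (mul_le_mul_of_nonneg_left h6 (by positivity)).trans (le_of_eq (by field_simp; ring))
  have e3 : η / (8 * W.totient) * lo η x (box η m) ≤ η / 4 * (x / m / W.totient) :=
    (mul_le_mul_of_nonneg_left (h7.trans (show _ ≤ 2 * (x / m : ℝ) by nlinarith))
      (by positivity)).trans (le_of_eq (by field_simp; ring))
  have e4 : 1 + 2 * C ≤ η / 2 * (x / m / W.totient) := by
    rw [← mul_div_assoc, le_div_iff₀ (by positivity)]; linarith
  rw [← div_div]
  linarith

theorem GG_cont : Continuous GG :=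
  intervalIntegral.continuous_parametric_intervalIntegral_of_continuous' (by
    have := Pz_cont
    unfold Function.uncurry fL
    fun_prop) _ _

theorem GG_bd (z : ℝ) : 0 ≤ GG z ∧ GG z ≤ 1 := by
  refine ⟨intervalIntegral.integral_nonneg zero_le_one fun _ _ => Pz_nonneg _, ?_⟩
  have := intervalIntegral.integral_mono_on (μ := MeasureTheory.volume) zero_le_one
    ((fL_cont z).intervalIntegrable _ _) (intervalIntegrable_const (c := (1 : ℝ)))
    fun u _ => Pz_le_one (z - u)
  simpa [GG] using this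

/-- The first moment of the shifted profile over the sets avoiding two large primes. -/
theorem avoid (D : ℕ) {L η δ : ℝ} (hL : L ≤ 1 / 3) (hη : 0 < η) (hδ : 0 < δ) :
    ∀ᶠ x : ℕ in atTop, ∀ i j : PP D x, η < Real.log (qq D x i) / Real.log x →
      η < Real.log (qq D x j) / Real.log x → ∀ a ∈ Set.Icc (0 : ℝ) 1,
      |∑ T with i ∉ T ∧ j ∉ T, fL L (lg (qq D x) T / Real.log x + a) * wt (qq D x) T -
        GG (L - a) * BB D x| ≤ δ * BB D x := by
  have h2 := (conv_nu D).unif (fun u t => fL L (t + max u 0)) (T := 1) (K := 5)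
    0 1 zero_le_one (fun u => by have := fL_cont L; fun_prop)
    (fun u t ht => fL_zero (by linarith [le_max_right u 0]))
    (fun u u' t => (fL_lip _ _ _).trans (by
      rw [add_sub_add_left_eq_sub]
      exact mul_le_mul_of_nonneg_left (abs_max_sub_max_le_abs _ _ _) (by norm_num)))
    (show 0 < δ / 3 by positivity)
  filter_upwards [h2, Zf_le D, Meas.L_pos, Meas.BB_pos D, eventually_gt_atTop 0,
    const_le_rpow (1 + 9 / δ) hη] with x h2 hZ hl hB hx hC i j hi hj a ha
  have a3 := h2 a ha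
  simp only [zero_mul, zero_add, mul_one, max_eq_left ha.1] at a3
  set F : Finset (PP D x) → ℝ := fun T => fL L (lg (qq D x) T / Real.log x + a) with hF
  have key : ∀ k : PP D x, η < Real.log (qq D x k) / Real.log x → ∀ F' : Finset (PP D x) → ℝ,
      (∀ T, F' T = F T ∨ F' T = 0) →
      |∑ T with k ∈ T, F' T * wt (qq D x) T| ≤ δ / 9 * (3 * BB D x) := by
    intro k a1 F' hF'
    have a4 := sum_wt_mem (qq D x) (qq_two D x) k F' (fun T => by
        rcases hF' T with h | h <;> rw [h]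
        · exact abs_fL _ _
        · simp)
      (s := 2 * (Real.log x)⁻¹) (Λ := 1 / 2 * Real.log x) (by positivity) fun T hT => by
        by_contra h
        have : L ≤ lg (qq D x) T / Real.log x := by
          rw [le_div_iff₀ hl]; nlinarith [not_le.1 h]
        rcases hF' T with h | h
        · exact hT (h.trans (fL_zero (by linarith [ha.1])))
        · exact hT h
    have a5 : Real.exp (2 * (Real.log x)⁻¹ * (1 / 2 * Real.log x)) ≤ 3 :=
      exp_le_three (by field_simp; norm_num)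
    have a6 : 1 + 9 / δ ≤ qq D x k := by
      refine hC.trans ?_
      rw [rpow_eq_exp hx, ← Real.le_log_iff_exp_le (by have := Meas.two_le D x k; linarith)]
      exact ((lt_div_iff₀ hl).1 a1).le
    have a7 : ((qq D x k : ℝ) - 1)⁻¹ ≤ δ / 9 := by
      rw [inv_le_comm₀ (by have := Meas.two_le D x k; linarith) (by positivity), inv_div]; linarith
    have a8 := one_le_Zf (qq D x) (qq_two D x) (2 * (Real.log x)⁻¹)
    exact a4.trans (by gcongr)
  have k1 := abs_le.1 (key i hi F fun _ => Or.inl rfl)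
  have k2 := abs_le.1 (key j hj (fun T => if i ∈ T then 0 else F T) fun T => by
    split_ifs <;> simp)
  have e1 : ∑ T with i ∉ T ∧ j ∉ T, F T * wt (qq D x) T = ∑ T, F T * wt (qq D x) T -
      ∑ T with i ∈ T, F T * wt (qq D x) T -
      ∑ T with j ∈ T, (if i ∈ T then 0 else F T) * wt (qq D x) T := by
    simp only [sum_filter, ← sum_sub_distrib]
    refine sum_congr rfl fun T _ => ?_
    by_cases h : i ∈ T <;> by_cases h' : j ∈ T <;> simp [h, h']
  have e2 : ∑ T, F T * wt (qq D x) T = (∑ T, wt (qq D x) T / BB D x * F T) * BB D x := by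
    rw [sum_mul]
    exact sum_congr rfl fun T _ => by field_simp
  have e3 : GG (L - a) = ∫ u in (0 : ℝ)..1, fL L (u + a) :=
    intervalIntegral.integral_congr fun u _ => by simp only [fL]; congr 1; ring
  rw [← e3] at a3
  have k3 := abs_le.1 a3
  have k4 := mul_le_mul_of_nonneg_right k3.1 hB.le
  have k5 := mul_le_mul_of_nonneg_right k3.2 hB.le
  rw [e1, e2, abs_le]
  constructor <;> nlinarith

section
variable {ι : Type} [Fintype ι] [DecidableEq ι] (q : ι → ℕ)

omit [Fintype ι] [DecidableEq ι] in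
theorem Xi_eq {m : ℤ} {i j : ι} (h : ∀ k, (q k : ℤ) ∣ m → k = i ∨ k = j) {T : Finset ι}
    (hT : i ∉ T ∧ j ∉ T) : Xi q T m = wt q T :=
  prod_congr rfl fun k hk => if_neg fun h' => by
    rcases h k h' with rfl | rfl
    exacts [hT.1 hk, hT.2 hk]

theorem S1_one (l : ℝ) (f : ℝ → ℝ) {m : ℤ} {i : ι} (h : ∀ k, (q k : ℤ) ∣ m ↔ k = i) :
    S1 q l f m = ∑ T with i ∉ T ∧ i ∉ T, f (lg q T / l + 0) * wt q T -
      ∑ T with i ∉ T ∧ i ∉ T, f (lg q T / l + Real.log (q i) / l) * wt q T := by
  refine (S0_dif q (fun T => f (lg q T / l)) i ((h i).2 rfl)).trans ?_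
  rw [← sum_sub_distrib, sum_filter]
  refine sum_congr rfl fun T _ => ?_
  by_cases hi : i ∈ T
  · simp [dif, hi]
  · rw [if_pos ⟨hi, hi⟩, Xi_eq q (fun k hk => Or.inl ((h k).1 hk)) ⟨hi, hi⟩]
    simp only [dif, if_neg hi, lg, sum_insert hi, add_div, zero_add, add_comm, sub_mul]

theorem S1_two (l : ℝ) (f : ℝ → ℝ) {m : ℤ} {i j : ι} (hij : i ≠ j)
    (h : ∀ k, (q k : ℤ) ∣ m ↔ k = i ∨ k = j) :
    S1 q l f m = ∑ T with i ∉ T ∧ j ∉ T, f (lg q T / l + 0) * wt q T -
      ∑ T with i ∉ T ∧ j ∉ T, f (lg q T / l + Real.log (q i) / l) * wt q T -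
      ∑ T with i ∉ T ∧ j ∉ T, f (lg q T / l + Real.log (q j) / l) * wt q T +
      ∑ T with i ∉ T ∧ j ∉ T,
        f (lg q T / l + (Real.log (q i) / l + Real.log (q j) / l)) * wt q T := by
  refine (S0_dif q (fun T => f (lg q T / l)) i ((h i).2 (Or.inl rfl))).trans
    ((S0_dif q _ j ((h j).2 (Or.inr rfl))).trans ?_)
  rw [← sum_sub_distrib, ← sum_sub_distrib, ← sum_add_distrib, sum_filter]
  refine sum_congr rfl fun T _ => ?_
  by_cases hj : j ∈ T
  · simp [dif, hj]
  by_cases hi : i ∈ T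
  · simp [dif, hi]
  have hi' : i ∉ insert j T := by simp [hi, hij]
  rw [if_pos ⟨hi, hj⟩, Xi_eq q (fun k hk => (h k).1 hk) ⟨hi, hj⟩]
  simp only [dif, if_neg hi, if_neg hj, if_neg hi', lg, sum_insert hi, sum_insert hj,
    sum_insert hi', add_div, add_zero]
  rw [add_comm (Real.log (q i) / l) (_ / l), add_comm (Real.log (q j) / l) (_ / l),
    show ∀ a b c : ℝ, a + (c + b) = c + (a + b) from fun a b c => by ring]
  ring

end

theorem sq_low {S G B δ d κ e : ℝ} (hB : 0 < B) (h : |S - G * B| ≤ δ * B) (hG : |G| ≤ 2)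
    (hκ : 0 < κ) (hd : κ ≤ d) (he : 4 * δ ≤ e * κ) (he0 : 0 ≤ e) :
    max (G ^ 2 / max d κ - e) 0 ≤ S ^ 2 / B ^ 2 / d := by
  have hd0 : 0 < d := hκ.trans_le hd
  refine max_le ?_ (by positivity)
  rw [max_eq_left hd, le_div_iff₀ hd0, sub_mul, div_mul_cancel₀ _ hd0.ne', le_div_iff₀ (by positivity)]
  have h1 : |G * B * (S - G * B)| ≤ 2 * B * (δ * B) := by
    rw [abs_mul, abs_mul, abs_of_pos hB]; gcongr
  have h2 := (abs_le.1 h1).1
  have h3 : 4 * δ ≤ e * d := he.trans (by gcongr)
  nlinarith [sq_nonneg (S - G * B), mul_le_mul_of_nonneg_right h3 (sq_nonneg B)]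

theorem psi_nonneg {x m : ℕ} (hm : 0 < m) (h : m ≤ x) : 0 ≤ psi x m := by
  unfold psi
  split_ifs
  · exact inv_nonneg.2 (sub_nonneg.2 (div_le_one_of_le₀ (Real.log_le_log (by positivity)
      (by exact_mod_cast h)) (Real.log_natCast_nonneg _)))
  · exact le_rfl

open Classical in
noncomputable def tm (D a : ℕ) (L η : ℝ) (x m : ℕ) : ℝ :=
  ∑ p ∈ Ioc (lo η x (box η m)) (hi η x (box η m)) with
    p.Prime ∧ p * m ≡ a [MOD primorial D], Real.log p / Real.log x * psi x m *
      S1 (qq D x) (Real.log x) (fL L) m ^ 2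

theorem tm_nonneg (D a : ℕ) (L η : ℝ) {x m : ℕ} (hm : 0 < m) (h : m ≤ x) : 0 ≤ tm D a L η x m :=
  sum_nonneg fun _ _ => mul_nonneg (mul_nonneg (div_nonneg (Real.log_natCast_nonneg _)
    (Real.log_natCast_nonneg _)) (psi_nonneg hm h)) (sq_nonneg _)

theorem term (D a : ℕ) (ha : Nat.Coprime a (primorial D)) (L : ℝ) {η : ℝ} (hη : 0 < η)
    (hη' : η ≤ 1 / 1000) : ∀ᶠ x : ℕ in atTop, ∀ m : ℕ, 0 < m →
      η ≤ Real.log m / Real.log x → Real.log m / Real.log x ≤ 661 / 1000 →
      ArithmeticFunction.cardFactors m ≤ 2 →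
      (∀ r ∈ m.primeFactors, η < Real.log r / Real.log x ∧
        Real.log r / Real.log x + Real.log m / Real.log x ≤ 1) →
      (m ∈ Icc 1 x ∧ rough η x m) ∧ x / primorial D * BB D x * (1 - 5 * η) * ((m : ℝ)⁻¹ *
        (S1 (qq D x) (Real.log x) (fL L) m ^ 2 / BB D x ^ 2 / (1 - Real.log m / Real.log x))) ≤
        tm D a L η x m := by
  filter_upwards [theta_low (primorial D) a (primorial_ne_zero D) ha hη hη', rough_cop D hη,
    Meas.L_pos, eventually_gt_atTop 0] with x h1 h2 hl hx m hm a1 a2 a3 a4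
  have hm' : (0 : ℝ) < m := by positivity
  have hx' : (0 : ℝ) < x := by positivity
  have hr : rough η x m := ⟨(Real.rpow_le_iff_le_log hx' hm').2 ((le_div_iff₀ hl).1 a1),
    fun p hp => (Real.rpow_lt_iff_lt_log hx' (by
      exact_mod_cast Nat.pos_of_mem_primeFactors hp)).2 ((lt_div_iff₀ hl).1 (a4 p hp).1)⟩
  have hle : ∀ n : ℕ, 0 < n → Real.log n / Real.log x ≤ 1 → n ≤ x := fun n hn h => by
    rw [div_le_one hl, Real.log_le_log_iff (by positivity) hx'] at h
    exact_mod_cast h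
  refine ⟨⟨mem_Icc.2 ⟨hm, hle m hm (by linarith)⟩, hr⟩, ?_⟩
  have b1 := h1 m hm (h2 m hr hm)
    ((Real.le_rpow_iff_log_le hm' hx').2 ((div_le_iff₀ hl).1 a2))
  have b2 : psi x m = (1 - Real.log m / Real.log x)⁻¹ := if_pos ⟨a3, fun r hr => by
    have := Nat.pos_of_mem_primeFactors hr
    refine hle _ (by positivity) ?_
    rw [Nat.cast_mul, Real.log_mul (by positivity) hm'.ne', add_div]
    exact (a4 r hr).2⟩
  have b3 : 0 < 1 - Real.log m / Real.log x := by linarith
  have hW : (0 : ℝ) < primorial D := by exact_mod_cast primorial_pos D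
  have hV := Meas.V_pos D
  rw [tm, ← sum_mul, ← sum_mul, ← sum_div, b2]
  generalize 1 - Real.log m / Real.log x = w at b3
  refine le_trans (le_of_eq ?_) (mul_le_mul_of_nonneg_right (mul_le_mul_of_nonneg_right
    (div_le_div_of_nonneg_right b1 hl.le) (by positivity)) (sq_nonneg _))
  rw [totient_primorial]
  unfold BB
  field_simp

theorem dvd_iff (D x : ℕ) (i k : PP D x) : qq D x k ∣ qq D x i ↔ k = i :=
  (Nat.prime_dvd_prime_iff_eq (gr_prime D x k) (gr_prime D x i)).trans (qq_inj D x).eq_iff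

end Few

open Few

open Classical in
theorem F4 (D a : ℕ) (ha : Nat.Coprime a (primorial D)) {L η ε : ℝ} (hL : L ≤ 1 / 3)
    (hη : 0 < η) (hη' : η ≤ 1 / 1000) (hε : 0 < ε) : ∀ᶠ x : ℕ in atTop,
    x / primorial D * BB D x * ((1 - 5 * η) * (E2 η L + E3 η L) - ε) ≤
    ∑ m ∈ Icc 1 x with rough η x m, ∑ p ∈ Ioc (lo η x (box η m)) (hi η x (box η m)) with
        p.Prime ∧ p * m ≡ a [MOD primorial D], Real.log p / Real.log x * psi x m *
          S1 (qq D x) (Real.log x) (fL L) m ^ 2 := by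
  set κ := η ^ 2 / 3 with hκ
  have hκ0 : 0 < κ := by positivity
  have hG := GG_cont
  set H2 : ℝ → ℝ := fun a => (GG L - GG (L - a)) ^ 2 / max (a * (1 - a)) κ with hH2
  set H3 : ℝ → ℝ → ℝ := fun a b => (GG L - GG (L - a) - GG (L - b) + GG (L - a - b)) ^ 2 /
    max (a * b * (1 - a - b)) κ with hH3
  have c2 : Continuous H2 := Continuous.div (by fun_prop) (by fun_prop)
    fun _ => (lt_max_of_lt_right hκ0).ne'
  have c3 : Continuous H3.uncurry := Continuous.div (by fun_prop) (by fun_prop)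
    fun _ => (lt_max_of_lt_right hκ0).ne'
  have d2 : ∀ a, η ≤ a → a ≤ 1 / 2 → κ ≤ a * (1 - a) := fun a h h' => by nlinarith
  have d3 : ∀ a b, η ≤ a → a ≤ 322 / 1000 → a ≤ b → b ≤ (1 - a) / 2 →
      κ ≤ a * b * (1 - a - b) := fun a b h h' k k' => by
    have : η ^ 2 ≤ a * b := by nlinarith
    rw [hκ, div_eq_mul_inv]
    exact mul_le_mul this (by linarith) (by norm_num) (by nlinarith)
  have e2 : E2 η L = ∫ a in η..(1 / 2), H2 a := intervalIntegral.integral_congr fun a h => by
    rw [Set.uIcc_of_le (by linarith)] at h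
    simp only [hH2, max_eq_left (d2 a h.1 h.2)]
  have e3 : E3 η L = ∫ a in η..(322 / 1000), ∫ b in a..(1 - a) / 2, H3 a b :=
    intervalIntegral.integral_congr fun a h => by
      rw [Set.uIcc_of_le (by linarith)] at h
      refine intervalIntegral.integral_congr fun b h' => ?_
      rw [Set.uIcc_of_le (by linarith [h.2])] at h'
      simp only [hH3, max_eq_left (d3 a b h.1 h.2 h'.1 h'.2)]
  have hε' : 0 < ε / 8 := by positivity
  filter_upwards [low (conv_pi D) (b := 1 / 2) hη (by linarith) (by linarith) hε'.le hε' c2,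
    tri (conv_pi D) (a1 := 322 / 1000) c3 hη (by linarith) (by norm_num) hε',
    avoid D hL hη (show 0 < ε * κ / 128 by positivity), term D a ha L hη hη', Meas.L_pos,
    Meas.BB_pos D] with x h2 h3 h4 h5 hl hB
  rw [← e2] at h2
  rw [← e3] at h3
  set u : PP D x → ℝ := fun i => Real.log (qq D x i) / Real.log x with hu
  set K := x / primorial D * BB D x * (1 - 5 * η) with hK
  have hK0 : 0 ≤ K := mul_nonneg (by positivity) (by linarith)
  have hq : ∀ i, (0 : ℝ) < qq D x i := fun i => by have := Meas.two_le D x i; linarith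
  have hc : ∀ i, Real.log (qq D x i) / (qq D x i * Real.log x) = (qq D x i : ℝ)⁻¹ * u i :=
    fun i => by have := hq i; simp only [hu]; field_simp
  have g0 := GG_bd L
  have k1 : ∀ i, η < u i ∧ u i ≤ 1 / 2 → (qq D x i ∈ Icc 1 x ∧ rough η x (qq D x i)) ∧
      K * (Real.log (qq D x i) / (qq D x i * Real.log x) * (H2 (u i) - ε / 8)) ≤
        tm D a L η x (qq D x i) := by
    intro i ⟨a1, a2⟩
    obtain ⟨b1, b2⟩ := h5 (qq D x i) (gr_prime D x i).pos a1.le (a2.trans (by norm_num))
      (by rw [ArithmeticFunction.cardFactors_apply_prime (gr_prime D x i)]; norm_num) fun r hr => by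
        rw [(gr_prime D x i).primeFactors, mem_singleton] at hr
        subst hr
        exact ⟨a1, by linarith⟩
    refine ⟨b1, le_trans (mul_le_mul_of_nonneg_left ?_ hK0) b2⟩
    have a0 := hη.trans a1
    have b3 := abs_le.1 (h4 i i a1 a1 0 ⟨le_rfl, zero_le_one⟩)
    have b4 := abs_le.1 (h4 i i a1 a1 (u i) ⟨a0.le, by linarith⟩)
    have g1 := GG_bd (L - u i)
    have b5 := sq_low (S := S1 (qq D x) (Real.log x) (fL L) (qq D x i)) (δ := ε * κ / 32)
      (G := GG L - GG (L - u i)) (e := ε / 8) hB (by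
        rw [S1_one (qq D x) _ _ (i := i) fun k => Int.natCast_dvd_natCast.trans (dvd_iff D x i k),
          abs_le]
        rw [sub_zero] at b3
        have := mul_pos (mul_pos hε hκ0) hB
        constructor <;> nlinarith) (abs_le.2 ⟨by linarith, by linarith⟩) hκ0 (d2 _ a1.le a2)
      (by linarith) hε'.le
    rw [hc, mul_assoc]
    refine mul_le_mul_of_nonneg_left ((mul_le_mul_of_nonneg_left ((le_max_left _ _).trans b5)
      a0.le).trans (le_of_eq ?_)) (inv_pos.2 (hq i)).le
    rw [← div_div, div_right_comm, mul_div_cancel₀ _ a0.ne']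
  have k2 : ∀ i j, η < u i ∧ u i ≤ 322 / 1000 → u i < u j ∧ u j ≤ (1 - u i) / 2 →
      (qq D x i * qq D x j ∈ Icc 1 x ∧ rough η x (qq D x i * qq D x j)) ∧
      K * (Real.log (qq D x i) / (qq D x i * Real.log x) * (Real.log (qq D x j) /
        (qq D x j * Real.log x) * max (H3 (u i) (u j) - ε / 8) 0)) ≤
        tm D a L η x (qq D x i * qq D x j) := by
    intro i j ⟨a1, a2⟩ ⟨a3, a4⟩
    have a0 := hη.trans a1
    have a5 : Real.log (qq D x i * qq D x j : ℕ) / Real.log x = u i + u j := by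
      rw [Nat.cast_mul, Real.log_mul (hq i).ne' (hq j).ne', add_div]
    have pi := gr_prime D x i
    have pj := gr_prime D x j
    obtain ⟨b1, b2⟩ := h5 (qq D x i * qq D x j) (mul_pos pi.pos pj.pos) (by rw [a5]; linarith)
      (by rw [a5]; linarith) (by
        rw [ArithmeticFunction.cardFactors_mul pi.ne_zero pj.ne_zero,
          ArithmeticFunction.cardFactors_apply_prime pi,
          ArithmeticFunction.cardFactors_apply_prime pj]) fun r hr => by
        rw [Nat.primeFactors_mul pi.ne_zero pj.ne_zero, pi.primeFactors, pj.primeFactors,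
          mem_union, mem_singleton, mem_singleton] at hr
        rw [a5]
        rcases hr with rfl | rfl
        · exact ⟨a1, by change u i + _ ≤ _; linarith⟩
        · exact ⟨a1.trans a3, by change u j + _ ≤ _; linarith⟩
    refine ⟨b1, le_trans (mul_le_mul_of_nonneg_left ?_ hK0) b2⟩
    have a6 := a1.trans a3
    have b3 := abs_le.1 (h4 i j a1 a6 0 ⟨le_rfl, zero_le_one⟩)
    have b4 := abs_le.1 (h4 i j a1 a6 (u i) ⟨a0.le, by linarith⟩)
    have b5 := abs_le.1 (h4 i j a1 a6 (u j) ⟨by linarith, by linarith⟩)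
    have b6 := abs_le.1 (h4 i j a1 a6 (u i + u j) ⟨by linarith, by linarith⟩)
    have g1 := GG_bd (L - u i)
    have g2 := GG_bd (L - u j)
    have g3 := GG_bd (L - u i - u j)
    have b7 := sq_low (S := S1 (qq D x) (Real.log x) (fL L) (qq D x i * qq D x j : ℕ))
      (δ := ε * κ / 32) (G := GG L - GG (L - u i) - GG (L - u j) + GG (L - u i - u j))
      (e := ε / 8) hB (by
        rw [S1_two (qq D x) _ _ (i := i) (j := j) (fun h => a3.ne (congrArg u h)) fun k =>
          Int.natCast_dvd_natCast.trans (((gr_prime D x k).dvd_mul).trans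
            (or_congr (dvd_iff D x i k) (dvd_iff D x j k))), abs_le]
        rw [sub_zero] at b3
        rw [← sub_sub] at b6
        constructor <;> nlinarith) (abs_le.2 ⟨by linarith, by linarith⟩) hκ0
      (d3 _ _ a1.le a2 a3.le a4) (by linarith) hε'.le
    have a7 : 0 < u j := a0.trans a3
    have a8 : 0 < 1 - u i - u j := by linarith
    have := hq i
    have := hq j
    rw [hc, hc, a5, ← sub_sub, Nat.cast_mul]
    refine (mul_le_mul_of_nonneg_left (mul_le_mul_of_nonneg_left b7 (by positivity))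
      (by positivity)).trans (le_of_eq ?_)
    field_simp
  set A := univ.filter fun i => η < u i ∧ u i ≤ 1 / 2
  set P := (univ.filter fun i => η < u i ∧ u i ≤ 322 / 1000).sigma fun i =>
    univ.filter fun j => u i < u j ∧ u j ≤ (1 - u i) / 2
  have hP : ∀ z ∈ P, qq D x z.1 < qq D x z.2 := fun z hz => by
    have := (mem_filter.1 (mem_sigma.1 hz).2).2.1
    rw [div_lt_div_iff_of_pos_right hl, Real.log_lt_log_iff (hq _) (hq _)] at this
    exact_mod_cast this
  calc _ ≤ K * (E2 η L - ε / 8 - ε / 8) + K * (E3 η L - 6 * (ε / 8)) := by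
        have : 0 ≤ x / primorial D * BB D x * (η * ε) := by positivity
        rw [hK]; nlinarith
    _ ≤ ∑ i ∈ A, tm D a L η x (qq D x i) + ∑ z ∈ P, tm D a L η x (qq D x z.1 * qq D x z.2) := by
        refine add_le_add ((mul_le_mul_of_nonneg_left h2 hK0).trans ?_)
          ((mul_le_mul_of_nonneg_left h3 hK0).trans ?_)
        · rw [mul_sum]
          exact sum_le_sum fun i hi => (k1 i (mem_filter.1 hi).2).2
        · rw [sum_sigma', mul_sum]
          exact sum_le_sum fun z hz => (k2 z.1 z.2 (mem_filter.1 (mem_sigma.1 hz).1).2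
            (mem_filter.1 (mem_sigma.1 hz).2).2).2
    _ = ∑ m ∈ A.image (qq D x) ∪ P.image fun z => qq D x z.1 * qq D x z.2, tm D a L η x m := by
        rw [sum_union, sum_image (qq_inj D x).injOn, sum_image]
        · rintro ⟨i, j⟩ hz ⟨k, l⟩ hw h
          have z1 := hP _ hz
          have z2 := hP _ hw
          dsimp only at h z1 z2
          rcases ((gr_prime D x i).dvd_mul).1 (h ▸ dvd_mul_right _ _) with h' | h'
          · obtain rfl := (dvd_iff D x k i).1 h'
            obtain rfl := qq_inj D x (mul_left_cancel₀ (gr_prime D x i).ne_zero h)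
            rfl
          · obtain rfl := (dvd_iff D x l i).1 h'
            rw [mul_comm] at h
            have := mul_right_cancel₀ (gr_prime D x i).ne_zero h
            omega
        · refine disjoint_left.2 fun m h h' => ?_
          obtain ⟨i, -, rfl⟩ := mem_image.1 h
          obtain ⟨z, -, hz⟩ := mem_image.1 h'
          exact Nat.not_prime_mul (gr_prime D x z.1).ne_one (gr_prime D x z.2).ne_one
            (hz ▸ gr_prime D x i)
    _ ≤ _ := by
        refine sum_le_sum_of_subset_of_nonneg (union_subset (fun m h => ?_) fun m h => ?_)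
          fun m hm _ => tm_nonneg D a L η (mem_Icc.1 (mem_filter.1 hm).1).1
            (mem_Icc.1 (mem_filter.1 hm).1).2
        · obtain ⟨i, hi, rfl⟩ := mem_image.1 h
          exact mem_filter.2 (k1 i (mem_filter.1 hi).2).1
        · obtain ⟨z, hz, rfl⟩ := mem_image.1 h
          exact mem_filter.2 (k2 z.1 z.2 (mem_filter.1 (mem_sigma.1 hz).1).2
            (mem_filter.1 (mem_sigma.1 hz).2).2).1

end Pool.Agent.Lib.MP_fc51f7_nt
end

-- part Pool.Agent.Lib.MP_fc51f7_nt.Q1
section

/-! Pairs of cells for the detection of numbers with at least four prime factors. -/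

set_option autoImplicit false

namespace Pool.Agent.Lib.MP_fc51f7_nt.P3

open Finset Filter Topology

noncomputable def Lk (δ : ℝ) (k : ℕ) : ℝ := 31 / 100 - (k + 1) * δ

noncomputable def yk (D x : ℕ) (δ : ℝ) (k : ℕ) (T : Finset (PP D x)) : ℝ :=
  fL (Lk δ k) (lg (qq D x) T / Real.log x)

noncomputable def ZZ (D x : ℕ) (g : Fin 3 → ℤ) (δ : ℝ) (k : ℕ) (m : ℕ) : ℝ :=
  S0 (qq D x) (yk D x δ k) m * SS (qq D x) g (cell D x δ k) m

theorem yk_lt {D x : ℕ} {δ : ℝ} {k : ℕ} {T : Finset (PP D x)} (hl : 0 < Real.log x)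
    (h : yk D x δ k T ≠ 0) : lg (qq D x) T < Lk δ k * Real.log x :=
  (div_lt_iff₀ hl).1 (not_le.1 fun h' => h (fL_zero h'))

theorem dif_lt {D x : ℕ} {δ : ℝ} {k : ℕ} {i : PP D x} {T : Finset (PP D x)} (hl : 0 < Real.log x)
    (h : dif (yk D x δ k) i T ≠ 0) : i ∉ T ∧ lg (qq D x) T < Lk δ k * Real.log x := by
  unfold dif at h
  split_ifs at h with h1
  · exact absurd rfl h
  refine ⟨h1, ?_⟩
  by_cases h2 : yk D x δ k T = 0
  · have := yk_lt hl (show yk D x δ k (insert i T) ≠ 0 by simpa [h2] using h)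
    rw [lg, sum_insert h1] at this
    exact lt_of_le_of_lt (le_add_of_nonneg_left (Real.log_natCast_nonneg _)) this
  · exact yk_lt hl h2

theorem tens_supp {D x : ℕ} {δ : ℝ} {k : ℕ} (hl : 0 < Real.log x) {y0 : Finset (PP D x) → ℝ}
    (h0 : ∀ T, y0 T ≠ 0 → lg (qq D x) T < Lk δ k * Real.log x)
    {T : Option (Fin 3) → Finset (PP D x)} (h : tens y0 (cell D x δ k) T ≠ 0) :
    lgs (qq D x) T ≤ 33 / 100 * Real.log x := by
  have h1 := h0 _ (left_ne_zero_of_mul h)
  have h2 := cell_lt hl (right_ne_zero_of_mul h)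
  rw [lgs_option]; unfold Lk at h1; nlinarith

theorem abs_dif (D x : ℕ) (δ : ℝ) (k : ℕ) (i : PP D x) (T : Finset (PP D x)) :
    |dif (yk D x δ k) i T| ≤ 1 := by
  unfold dif; split_ifs
  · simp
  · exact abs_fL_sub _ _ _

open Classical in
noncomputable def aw (η : ℝ) (x : ℕ) (w : ℕ → ℝ) (m : ℕ) : ℝ :=
  ∑ p ∈ m.primeFactors with rough η x (m / p) ∧
      p ∈ Ioc (lo η x (box η (m / p))) (hi η x (box η (m / p))),
    Real.log p / Real.log x * w (m / p)

open Classical in
theorem aw_reindex {η : ℝ} (hη : 0 < η) (x W a : ℕ) (ω : ℕ → ℝ) (Φ : ℕ → ℝ) :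
    ∑ m ∈ Ioc x (2 * x) with m ≡ a [MOD W], aw η x ω m * Φ m =
      ∑ m ∈ Icc 1 x with rough η x m, ∑ p ∈ Ioc (lo η x (box η m)) (hi η x (box η m)) with
        p.Prime ∧ p * m ≡ a [MOD W],
        Real.log p / Real.log x * ω m * Φ (p * m) := by
  simp only [aw, sum_mul]
  rw [sum_sigma', sum_sigma']
  refine sum_nbij' (fun z => ⟨z.1 / z.2, z.2⟩) (fun z => ⟨z.2 * z.1, z.2⟩) ?_ ?_ ?_ ?_ ?_
  · rintro ⟨m, p⟩ h
    simp only [mem_sigma, mem_filter, Nat.mem_primeFactors, mem_Icc] at h ⊢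
    obtain ⟨⟨h1, h2⟩, ⟨hp, hd, h0⟩, h3, h4⟩ := h
    have h5 := (mem_Ioc.1 h1).2
    refine ⟨⟨⟨Nat.div_pos (Nat.le_of_dvd (Nat.pos_of_ne_zero h0) hd) hp.pos, ?_⟩, h3⟩, h4, hp, ?_⟩
    · exact Nat.div_le_of_le_mul (h5.trans (Nat.mul_le_mul_right _ hp.two_le))
    · rwa [Nat.mul_div_cancel' hd]
  · rintro ⟨m, p⟩ h
    simp only [mem_sigma, mem_filter, Nat.mem_primeFactors, mem_Icc] at h ⊢
    obtain ⟨⟨⟨h1, -⟩, h2⟩, h3, hp, h4⟩ := h
    obtain ⟨-, h5, h6⟩ := box_mem hη h1 h3
    rw [Nat.mul_div_cancel_left _ hp.pos]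
    exact ⟨⟨mem_Ioc.2 ⟨h5, h6⟩, h4⟩, ⟨hp, dvd_mul_right _ _, by omega⟩, h2, h3⟩
  · rintro ⟨m, p⟩ h
    simp only [mem_sigma, mem_filter, Nat.mem_primeFactors] at h
    simp only [Nat.mul_div_cancel' h.2.1.2.1]
  · rintro ⟨m, p⟩ h
    simp only [mem_sigma, mem_filter] at h
    simp only [Nat.mul_div_cancel_left _ h.2.2.1.pos]
  · rintro ⟨m, p⟩ h
    simp only [mem_sigma, mem_filter, Nat.mem_primeFactors] at h
    simp only [Nat.mul_div_cancel' h.2.1.2.1]

theorem F2 (D : ℕ) {L η ε : ℝ} (hL : L ≤ 1 / 2) (hη : 0 < η) (hη' : η ≤ 1 / 10) (hε : 0 < ε) :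
    ∀ᶠ x : ℕ in atTop,
      ∑ i : PP D x with η < Real.log (qq D x i) / Real.log x ∧
          Real.log (qq D x i) / Real.log x ≤ 339 / 1000,
        Real.log (qq D x i) / Real.log x / qq D x i *
          ∑ T, dif (fun T => fL L (lg (qq D x) T / Real.log x)) i T *
            dif (fun T => fL L (lg (qq D x) T / Real.log x)) i T * wt (qq D x) T ≤
      ((∫ u in η..(339 / 1000), DD L u) + ε) * BB D x := by
  have h1 := (conv_pi D).Ioc hη (show η ≤ 339 / 1000 by linarith)
    (g := DD L) (DD_cont L).continuousOn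
  simp only [mul_one] at h1
  have h2 := (conv_nu D).unif (fun u t => (fL L t - fL L (t + max u 0)) ^ 2) (T := 1) (K := 10)
    η (339 / 1000) zero_le_one (fun u => by have := fL_cont L; fun_prop)
    (fun u t ht => by
      rw [fL_zero (by linarith), fL_zero (by linarith [le_max_right u 0])]; simp)
    (fun u u' t => by
      rw [sq_sub_sq, abs_mul]
      have h3 := fL_lip L (t + max u' 0) (t + max u 0)
      have h4 : |t + max u' 0 - (t + max u 0)| ≤ |u - u'| := by
        rw [add_sub_add_left_eq_sub, abs_sub_comm]; exact abs_max_sub_max_le_abs _ _ _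
      have h5 : |fL L t - fL L (t + max u 0) + (fL L t - fL L (t + max u' 0))| ≤ 2 :=
        (abs_add_le _ _).trans ((add_le_add (abs_fL_sub _ _ _) (abs_fL_sub _ _ _)).trans_eq
          one_add_one_eq_two)
      rw [sub_sub_sub_cancel_left]
      nlinarith [abs_nonneg (fL L (t + max u' 0) - fL L (t + max u 0))])
    (show 0 < ε * η / 8 by positivity)
  filter_upwards [h1.eventually_le_const (lt_add_of_pos_right _ (half_pos hε)), h2, pi_bdd D,
    Zf_le D, Meas.L_pos, Meas.BB_pos D, eventually_gt_atTop 0,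
    const_le_rpow (1 + 24 / (ε * η)) hη] with x h1 h2 h3 hZ hl hB hx hC
  set u : PP D x → ℝ := fun i => Real.log (qq D x i) / Real.log x with hu
  have key : ∀ i : PP D x, η < u i → u i ≤ 339 / 1000 →
      |∑ T, dif (fun T => fL L (lg (qq D x) T / Real.log x)) i T *
        dif (fun T => fL L (lg (qq D x) T / Real.log x)) i T * wt (qq D x) T - DD L (u i) * BB D x| ≤
      ε * η / 4 * BB D x := by
    intro i a1 a2
    have a3 := h2 (u i) ⟨a1.le, a2⟩
    simp only [zero_mul, zero_add, mul_one, max_eq_left (hη.trans a1).le] at a3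
    set F : Finset (PP D x) → ℝ := fun T => (fL L (lg (qq D x) T / Real.log x) -
      fL L (lg (qq D x) T / Real.log x + u i)) ^ 2 with hF
    have a4 := sum_wt_mem (qq D x) (qq_two D x) i F (fun T => by
        rw [hF, abs_pow]; exact pow_le_one₀ (abs_nonneg _) (abs_Pz_sub _ _))
      (s := 2 * (Real.log x)⁻¹) (Λ := 1 / 2 * Real.log x) (by positivity) fun T hT => by
        by_contra h
        have : L ≤ lg (qq D x) T / Real.log x := by
          rw [le_div_iff₀ hl]; nlinarith [not_le.1 h]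
        exact hT (by simp only [hF]; rw [fL_zero this, fL_zero (by linarith)]; simp)
    have a5 : Real.exp (2 * (Real.log x)⁻¹ * (1 / 2 * Real.log x)) ≤ 3 :=
      exp_le_three (by field_simp; norm_num)
    have a6 : 1 + 24 / (ε * η) ≤ qq D x i := by
      refine hC.trans ?_
      rw [rpow_eq_exp hx, ← Real.le_log_iff_exp_le (by have := Meas.two_le D x i; linarith)]
      exact ((lt_div_iff₀ hl).1 a1).le
    have a7 : ((qq D x i : ℝ) - 1)⁻¹ ≤ ε * η / 24 := by
      rw [inv_le_comm₀ (by have := Meas.two_le D x i; linarith) (by positivity), inv_div]; linarith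
    have a8 := one_le_Zf (qq D x) (qq_two D x) (2 * (Real.log x)⁻¹)
    have a9 : |∑ T with i ∈ T, F T * wt (qq D x) T| ≤ ε * η / 24 * (3 * BB D x) :=
      a4.trans (by gcongr)
    have e1 : ∑ T, dif (fun T => fL L (lg (qq D x) T / Real.log x)) i T *
        dif (fun T => fL L (lg (qq D x) T / Real.log x)) i T * wt (qq D x) T =
        ∑ T, F T * wt (qq D x) T - ∑ T with i ∈ T, F T * wt (qq D x) T := by
      rw [sum_filter, ← sum_sub_distrib]
      refine sum_congr rfl fun T _ => ?_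
      unfold dif
      split_ifs with h
      · simp
      · simp only [hF, lg, sum_insert h, hu, add_div, add_comm]; ring
    have e2 : ∑ T, F T * wt (qq D x) T - DD L (u i) * BB D x =
        (∑ T, wt (qq D x) T / BB D x * F T - DD L (u i)) * BB D x := by
      rw [sub_mul, sum_mul]; congr 1
      exact sum_congr rfl fun T _ => by field_simp
    rw [e1, sub_right_comm, e2]
    refine (abs_sub _ _).trans ?_
    rw [abs_mul, abs_of_pos hB]
    have := mul_le_mul_of_nonneg_right a3 hB.le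
    unfold DD
    linarith
  calc _ ≤ ∑ i : PP D x with η < u i ∧ u i ≤ 339 / 1000,
        (Real.log (qq D x i) / (qq D x i * Real.log x) * DD L (u i) +
          ε / 4 * (Real.log (qq D x i) / (qq D x i * Real.log x))) * BB D x := by
        refine sum_le_sum fun i hi => ?_
        obtain ⟨a1, a2⟩ := (mem_filter.1 hi).2
        have a3 := key i a1 a2
        have a4 : 0 < u i := hη.trans a1
        have a5 : (0 : ℝ) < qq D x i := by have := Meas.two_le D x i; linarith
        have a6 : Real.log (qq D x i) / (qq D x i * Real.log x) = u i / qq D x i := by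
          simp only [hu]; field_simp
        have a7 : |u i| ≤ 1 := abs_le.2 ⟨by linarith, by linarith⟩
        set d := ∑ T, dif (fun T => fL L (lg (qq D x) T / Real.log x)) i T *
          dif (fun T => fL L (lg (qq D x) T / Real.log x)) i T * wt (qq D x) T
        have a8 : u i * (d - DD L (u i) * BB D x) ≤ 1 * (ε * η / 4 * BB D x) :=
          (le_abs_self _).trans (by rw [abs_mul]; gcongr)
        have a9 : ε * η / 4 * BB D x ≤ ε * u i / 4 * BB D x := by gcongr
        rw [a6, show (u i / qq D x i * DD L (u i) + ε / 4 *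
          (u i / qq D x i)) * BB D x = (u i * (DD L (u i) * BB D x) +
          ε * u i / 4 * BB D x) / qq D x i by field_simp, div_mul_eq_mul_div]
        gcongr
        linarith
    _ ≤ _ := by
        rw [← sum_mul, sum_add_distrib, ← mul_sum]
        refine mul_le_mul_of_nonneg_right ?_ hB.le
        have : ∑ i : PP D x with η < u i ∧ u i ≤ 339 / 1000,
            Real.log (qq D x i) / (qq D x i * Real.log x) ≤ 2 :=
          le_trans (sum_le_sum_of_subset_of_nonneg (fun i hi => mem_filter.2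
            ⟨mem_univ _, (mem_filter.1 hi).2.2.trans (by norm_num)⟩) fun i _ _ =>
            ((conv_pi D).1 x i (mem_univ _)).1) h3
        have h4 := mul_le_mul_of_nonneg_left this (show 0 ≤ ε / 4 by positivity)
        exact (add_le_add h1 h4).trans (le_of_eq (by ring))

open Classical in
/-- The main term of the large primes. -/
theorem F3 (D a : ℕ) (ha : Nat.Coprime a (primorial D)) {L η ε : ℝ}
    (hL : L ≤ 1) (hη : 0 < η) (hη' : η ≤ 1) (hε : 0 < ε) : ∀ᶠ x : ℕ in atTop,
    ∑ m ∈ Icc 1 x with rough η x m, ∑ p ∈ Ioc (lo η x (box η m)) (hi η x (box η m)) with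
        p.Prime ∧ p * m ≡ a [MOD primorial D], Real.log p / Real.log x *
          S1 (qq D x) (Real.log x) (fL L) m ^ 2 ≤
      x / primorial D * BB D x * ((∫ v in (0 : ℝ)..(662 / 1000), HH L v) + ε) := by
  have h := (conv_graham D (fL L) (fL_lip L) fun u hu => fL_zero (hL.trans hu)).Ioc
    (half_pos hη) (show _ ≤ (662 / 1000 : ℝ) by linarith) (g := fun _ => 1) continuousOn_const
  simp only [mul_one, one_mul] at h
  set I := ∫ v in (0 : ℝ)..(662 / 1000), HH L v with hI
  have hH : Continuous (HH L) := intervalIntegral.continuous_primitive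
    (fun _ _ => ((fL_cont L).pow 2).intervalIntegrable _ _) 0
  have hI' : ∫ v in (η / 2)..(662 / 1000), HH L v ≤ I :=
    intervalIntegral.integral_mono_interval (half_pos hη).le (by linarith) le_rfl
      (MeasureTheory.ae_restrict_of_forall_mem measurableSet_Ioc fun v hv =>
        intervalIntegral.integral_nonneg hv.1.le fun _ _ => sq_nonneg _)
      (hH.intervalIntegrable _ _)
  have hlim : Tendsto (fun δ : ℝ => (1 + δ) * (I + δ)) (𝓝[>] 0) (𝓝 ((1 + 0) * (I + 0))) :=
    tendsto_nhdsWithin_of_tendsto_nhds (Continuous.tendsto (by fun_prop) _)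
  obtain ⟨δ, hδ1, hδ⟩ := ((hlim.eventually_le_const (show _ < I + ε by linarith)).and
    self_mem_nhdsWithin).exists
  have hδ : 0 < δ := hδ
  filter_upwards [h.eventually_le_const (hI'.trans_lt (lt_add_of_pos_right _ hδ)), small_cof hη,
    theta_box (primorial D) a (primorial_ne_zero D) ha hη hδ, rough_cop D hη, Meas.BB_pos D,
    gr_logx.eventually_ge_atTop 1, eventually_gt_atTop 0] with x h1 h2 h3 h4 hB hl hx
  have hl0 : 0 < Real.log x := by linarith
  have hW : (0 : ℝ) < primorial D := by exact_mod_cast primorial_pos D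
  have hV := Meas.V_pos D
  calc _ ≤ ∑ m ∈ Icc 1 x with rough η x m, if Real.log m / Real.log x ≤ 662 / 1000 then
        x / primorial D * BB D x * (1 + δ) * (S1 (qq D x) (Real.log x) (fL L) m ^ 2 /
          (m * BB D x ^ 2)) else 0 := by
        refine sum_le_sum fun m hm => ?_
        have hm0 : 0 < m := (mem_Icc.1 (mem_filter.1 hm).1).1
        have hm' : (0 : ℝ) < m := by positivity
        split_ifs with hv
        · have a2 := h3 m hm0 (h4 m (mem_filter.1 hm).2 hm0)
          rw [← sum_mul, ← sum_div]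
          refine (mul_le_mul_of_nonneg_right
            (div_le_div_of_nonneg_right a2 hl0.le) (sq_nonneg _)).trans (le_of_eq ?_)
          rw [totient_primorial]
          unfold BB
          field_simp
        · refine le_of_eq (sum_eq_zero fun p hp => absurd ?_ hv)
          rw [div_le_iff₀ hl0, ← Real.log_rpow (by positivity)]
          exact Real.log_le_log hm' (h2 m p hm0 (mem_filter.1 hp).1)
    _ ≤ x / primorial D * BB D x * (1 + δ) * (I + δ) := by
        rw [← sum_filter, ← mul_sum]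
        refine mul_le_mul_of_nonneg_left (le_trans (sum_le_sum_of_subset_of_nonneg (fun m hm => ?_)
          fun m hm _ => ?_) h1) (by positivity)
        · simp only [mem_filter, mem_Icc] at hm ⊢
          refine ⟨⟨⟨hm.1.1.1, hm.1.1.2.trans (Nat.le_floor ?_)⟩, h4 m hm.1.2 hm.1.1.1⟩, ?_, hm.2⟩
          · rw [← Real.log_le_iff_le_exp (by positivity)]; nlinarith
          · have := hm.1.2.1
            rw [rpow_eq_exp hx, ← Real.le_log_iff_exp_le (by exact_mod_cast hm.1.1.1)] at this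
            rw [lt_div_iff₀ hl0]; nlinarith
        · positivity
    _ ≤ _ := by rw [mul_assoc _ (1 + δ)]; gcongr

open Classical in
noncomputable def GS (D a x : ℕ) (η δ : ℝ) (k k' : ℕ) (w : ℕ → ℝ) : ℝ :=
  ∑ m ∈ Icc 1 x with rough η x m, ∑ p ∈ Ioc (lo η x (box η m)) (hi η x (box η m)) with
    p.Prime ∧ p * m ≡ a [MOD primorial D], Real.log p / Real.log x * w m *
      (S1 (qq D x) (Real.log x) (fL (Lk δ k)) m * S1 (qq D x) (Real.log x) (fL (Lk δ k')) m)

theorem int_HH (L : ℝ) : ∫ v in (0 : ℝ)..(662 / 1000), HH L v ≤ 1 := by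
  refine (Real.le_norm_self _).trans ((intervalIntegral.norm_integral_le_of_norm_le_const (C := 1)
    (a := 0) (b := 662 / 1000) fun v hv => ?_).trans (show _ ≤ (1 : ℝ) by
      rw [sub_zero, abs_of_pos (by norm_num)]; norm_num))
  rw [Set.uIoc_of_le (by norm_num)] at hv
  have h2 : ‖HH L v‖ ≤ 1 * |v - 0| := intervalIntegral.norm_integral_le_of_norm_le_const
    fun t _ => by rw [norm_pow]; exact pow_le_one₀ (norm_nonneg _) (abs_fL _ _)
  rw [sub_zero, abs_of_pos hv.1] at h2
  linarith [hv.2]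

section
variable {D : ℕ} (hD : 16 ≤ D) {g : Fin 3 → ℤ} (hg : Function.Injective g)
  (hg8 : ∀ j, g j ≠ 0 ∧ |g j| ≤ 8) (a : ℕ) (δ : ℝ) (k k' : ℕ)
include hD hg hg8

theorem pairA {ε : ℝ} (hε : 0 < ε) : ∀ᶠ x : ℕ in atTop,
    |∑ m ∈ Ioc x (2 * x) with m ≡ a [MOD primorial D], ZZ D x g δ k m * ZZ D x g δ k' m -
      x / primorial D * ((∑ T, yk D x δ k T * yk D x δ k' T * wt (qq D x) T) * nuu D x δ k k')| ≤
      x / primorial D * BB D x ^ 4 * (eD D + ε) := by
  filter_upwards [TI hD (κ := Option (Fin 3)) (by simp) (og_inj hg hg8).1 (og_inj hg hg8).2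
    (j0 := none) rfl a, Meas.L_pos, small_pow D (show (6605 / 10000 : ℝ) < 1 by norm_num) hε]
    with x h hl h2
  have := h ∅ x (2 * x) (tens (yk D x δ k) (cell D x δ k)) (tens (yk D x δ k') (cell D x δ k'))
    (by simp) (by omega) (abs_tens fun T => abs_fL _ _) (abs_tens fun T => abs_fL _ _)
    (fun T hT => ⟨by simp, tens_supp hl (fun _ => yk_lt hl) hT⟩)
    (fun T hT => ⟨by simp, tens_supp hl (fun _ => yk_lt hl) hT⟩)
  simp only [SS_tens, sum_tens, notMem_empty, IsEmpty.forall_iff, implies_true, and_true,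
    prod_empty, mul_one, Nat.cast_mul, Nat.cast_ofNat, Fintype.card_option, Fintype.card_fin,
    show (2 : ℝ) * x - x = x by ring] at this
  exact this.trans (by linarith)

theorem pair_prime : ∀ᶠ x : ℕ in atTop, ∀ i : PP D x,
    |∑ m ∈ Ioc x (2 * x) with m ≡ a [MOD primorial D] ∧ qq D x i ∣ m,
        ZZ D x g δ k m * ZZ D x g δ k' m - x / primorial D / qq D x i *
        ((∑ T, dif (yk D x δ k) i T * dif (yk D x δ k') i T * wt (qq D x) T) * nuu D x δ k k')| ≤
      x / primorial D / qq D x i * (eD D * BB D x ^ 4) + (x : ℝ) ^ (6605 / 10000 : ℝ) := by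
  filter_upwards [TI hD (κ := Option (Fin 3)) (by simp) (og_inj hg hg8).1 (og_inj hg hg8).2
    (j0 := none) rfl a, Meas.L_pos] with x h hl i
  have := h {i} x (2 * x) (tens (dif (yk D x δ k) i) (cell D x δ k))
    (tens (dif (yk D x δ k') i) (cell D x δ k'))
    (by simp) (by omega) (abs_tens (abs_dif _ _ _ _ _)) (abs_tens (abs_dif _ _ _ _ _))
    (fun T hT => ⟨by simpa using (dif_lt hl (left_ne_zero_of_mul hT)).1,
      tens_supp hl (fun _ h => (dif_lt hl h).2) hT⟩)
    (fun T hT => ⟨by simpa using (dif_lt hl (left_ne_zero_of_mul hT)).1,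
      tens_supp hl (fun _ h => (dif_lt hl h).2) hT⟩)
  simp only [SS_tens, sum_tens, mem_singleton, forall_eq, prod_singleton, Nat.cast_mul,
    Nat.cast_ofNat, Fintype.card_option, Fintype.card_fin, ← div_div,
    show (2 : ℝ) * x - x = x by ring] at this
  unfold nuu
  convert this using 3
  refine sum_congr rfl fun m hm => ?_
  have hd : (qq D x i : ℤ) ∣ m := by exact_mod_cast (mem_filter.1 hm).2.2
  rw [ZZ, ZZ, S0_dif _ _ i hd, S0_dif _ (yk D x δ k') i hd]

theorem pairB {ε η c : ℝ} (hε : 0 < ε) (hη : 0 < η) (hc : |c| ≤ 1) :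
    ∀ᶠ x : ℕ in atTop,
    ∑ m ∈ Ioc x (2 * x) with m ≡ a [MOD primorial D],
      (∑ p ∈ m.primeFactors with η < Real.log (p : ℕ) / Real.log x ∧
          Real.log (p : ℕ) / Real.log x ≤ 339 / 1000,
        c * (Real.log (p : ℕ) / Real.log x)) * (ZZ D x g δ k m * ZZ D x g δ k' m) ≤
      x / primorial D * ((∑ i : PP D x with η < Real.log (qq D x i) / Real.log x ∧
          Real.log (qq D x i) / Real.log x ≤ 339 / 1000,
        c * (Real.log (qq D x i) / Real.log x) / qq D x i *
          ∑ T, dif (yk D x δ k) i T * dif (yk D x δ k') i T * wt (qq D x) T) * nuu D x δ k k') +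
      x / primorial D * BB D x ^ 4 * (2 / η * eD D + ε) := by
  filter_upwards [pair_prime hD hg hg8 a δ k k', sum_primeFactors D, Meas.L_pos, pi_bdd D,
    small_pow D (show (9995 / 10000 : ℝ) < 1 by norm_num) hε, const_le_rpow D hη,
    eventually_gt_atTop 0] with x h1 h2 hl h3 h4 h5 hx
  have hx' : (0 : ℝ) < x := by positivity
  set u : ℕ → ℝ := fun p => Real.log p / Real.log x with hu
  set s : Finset (PP D x) := univ.filter fun i => η < u (qq D x i) ∧ u (qq D x i) ≤ 339 / 1000
  have e1 : ∑ m ∈ Ioc x (2 * x) with m ≡ a [MOD primorial D],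
      (∑ p ∈ m.primeFactors with η < u p ∧ u p ≤ 339 / 1000, c * u p) *
        (ZZ D x g δ k m * ZZ D x g δ k' m) = ∑ i ∈ s, c * u (qq D x i) *
      ∑ m ∈ Ioc x (2 * x) with m ≡ a [MOD primorial D] ∧ qq D x i ∣ m,
        ZZ D x g δ k m * ZZ D x g δ k' m := by
    simp only [← filter_filter, sum_filter (fun m => qq D x _ ∣ m), mul_sum]
    rw [sum_comm]
    refine sum_congr rfl fun m hm => ?_
    have hm0 : x < m := (mem_Ioc.1 (mem_filter.1 hm).1).1
    rw [filter_filter, h2 m (fun p => η < u p ∧ u p ≤ 339 / 1000) _ (by omega) fun p hp h => ?_,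
      sum_mul]
    · exact sum_congr rfl fun i _ => by split_ifs <;> simp
    · have hp0 : (0 : ℝ) < p := by exact_mod_cast (Nat.prime_of_mem_primeFactors hp).pos
      have b1 : (x : ℝ) ^ η < p := by
        rw [rpow_eq_exp hx, ← Real.lt_log_iff_exp_lt hp0]; exact (lt_div_iff₀ hl).1 h.1
      have b2 : (p : ℝ) ≤ x := by
        rw [← Real.log_le_log_iff hp0 hx']
        have := (div_le_iff₀ hl).1 h.2; linarith
      exact ⟨by exact_mod_cast h5.trans_lt b1, by exact_mod_cast b2⟩
  have h6 : ∑ i ∈ s, (1 : ℝ) / qq D x i ≤ 2 / η := by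
    rw [le_div_iff₀ hη, sum_mul]
    refine le_trans (sum_le_sum fun i hi => ?_) (le_trans (sum_le_sum_of_subset_of_nonneg
      (fun i hi => mem_filter.2 ⟨mem_univ _, (mem_filter.1 hi).2.2.trans (by norm_num)⟩)
      fun i _ _ => ((conv_pi D).1 x i (mem_univ _)).1) h3)
    beta_reduce
    rw [mul_comm (qq D x i : ℝ), ← div_div, one_div, mul_comm, ← div_eq_mul_inv]
    gcongr
    exact (mem_filter.1 hi).2.1.le
  have h7 := card_small D x hl (b := 339 / 1000)
    (fun i => η < u (qq D x i) ∧ u (qq D x i) ≤ 339 / 1000) fun i h => h.2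
  have h8 : (x : ℝ) ^ (339 / 1000 : ℝ) * (x : ℝ) ^ (6605 / 10000 : ℝ) =
      (x : ℝ) ^ (9995 / 10000 : ℝ) := by rw [← Real.rpow_add hx']; norm_num
  have h9 := eD_nonneg D
  have h10 := Meas.BB_nonneg D x
  rw [e1]
  calc _ ≤ ∑ i ∈ s, (x / primorial D * (c * u (qq D x i) / qq D x i *
          (∑ T, dif (yk D x δ k) i T * dif (yk D x δ k') i T * wt (qq D x) T) * nuu D x δ k k') +
          (x / primorial D * (eD D * BB D x ^ 4) * (1 / qq D x i) +
            (x : ℝ) ^ (6605 / 10000 : ℝ))) := by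
        refine sum_le_sum fun i hi => ?_
        obtain ⟨a1, a2⟩ := (mem_filter.1 hi).2
        have a7 : |c * u (qq D x i)| ≤ 1 := by
          rw [abs_mul, abs_of_pos (hη.trans a1)]; nlinarith
        have a8 := (le_abs_self _).trans ((abs_mul _ _).le.trans
          (mul_le_mul a7 (h1 i) (abs_nonneg _) zero_le_one))
        rw [mul_sub, sub_le_iff_le_add'] at a8
        exact a8.trans (le_of_eq (by ring))
    _ ≤ _ := by
        rw [sum_add_distrib, sum_add_distrib, ← mul_sum, ← sum_mul, ← mul_sum, sum_const,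
          nsmul_eq_mul]
        refine add_le_add le_rfl ?_
        have b1 := mul_le_mul_of_nonneg_left h6
          (show 0 ≤ x / primorial D * (eD D * BB D x ^ 4) by positivity)
        have b2 := mul_le_mul_of_nonneg_right h7
          (show 0 ≤ (x : ℝ) ^ (6605 / 10000 : ℝ) by positivity)
        rw [h8] at b2
        exact (add_le_add b1 (b2.trans h4)).trans (le_of_eq (by ring))

theorem pairC (ha : Nat.Coprime a (primorial D)) {ε η : ℝ}
    (hε : 0 < ε) (hη : 0 < η) (hη' : η ≤ 1 / 1000) (hδ : 0 < δ)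
    (hlev : (k + 1) * δ + (k' + 1) * δ ≤ 499 / 1000) : ∀ᶠ x : ℕ in atTop, ∀ w : ℕ → ℝ,
    (∀ m : ℕ, 0 < m → (m : ℝ) ≤ (x : ℝ) ^ (662 / 1000 : ℝ) → |w m| ≤ 1) →
    ∑ m ∈ Ioc x (2 * x) with m ≡ a [MOD primorial D],
      aw η x w m * (ZZ D x g δ k m * ZZ D x g δ k' m) ≤
      GS D a x η δ k k' w * nuu D x δ k k' + x / primorial D * BB D x ^ 4 * (2 * eD D + ε) := by
  classical
  have hW : (0 : ℝ) < primorial D := by exact_mod_cast primorial_pos D
  have hV := Meas.V_pos D
  set V := ∏ p ∈ Nat.primesLE D, (1 - (p : ℝ)⁻¹) with hVd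
  set K1 : ℝ := (3 * 2 ^ ⌈1 / η⌉₊) ^ 2 with hK1
  have hK0 : 0 < K1 := by positivity
  have hLk : ∀ k : ℕ, Lk δ k ≤ 31 / 100 := fun k => sub_le_self _ (by positivity)
  have hL1 : ∀ k : ℕ, Lk δ k ≤ 1 := fun k => (hLk k).trans (by norm_num)
  filter_upwards [bv D hD hη hη (show 0 < ε * V ^ 2 / (primorial D * K1) by positivity) g hg hg8 a,
    Tbar_approx hD hg hg8, F3 D a ha (hL1 k) hη (by linarith) one_pos,
    F3 D a ha (hL1 k') hη (by linarith) one_pos, small_cof hη, Meas.L_pos, Meas.BB_pos D, Zf_le D,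
    eventually_gt_atTop 1, const_le_rpow 2 (show (0 : ℝ) < 338 / 1000 by norm_num)]
    with x h1 h2 h4 h5 h6 hl hB hZ hx h7 w hw
  have hx' : (1 : ℝ) < x := by exact_mod_cast hx
  have hx0 : (0 : ℝ) < x := by linarith
  set S : ℕ → ℕ → ℝ := fun k m => S1 (qq D x) (Real.log x) (fL (Lk δ k)) m with hS
  set P : ℕ → Finset ℕ := fun m => (Ioc (lo η x (box η m)) (hi η x (box η m))).filter
    fun p => p.Prime ∧ p * m ≡ a [MOD primorial D] with hP
  set v : ℕ → ℝ := fun m => Real.log m / Real.log x with hv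
  have hv0 : ∀ m, 0 ≤ v m := fun m => div_nonneg (Real.log_natCast_nonneg m) hl.le
  have hlev' : ∀ T U, cell D x δ k T ≠ 0 → cell D x δ k' U ≠ 0 →
      lgs (qq D x) T + lgs (qq D x) U ≤ (1 / 2 - η) * Real.log x := fun T U a1 a2 => by
    nlinarith [cell_lt hl a1, cell_lt hl a2]
  have hSb : ∀ k, ∀ m ∈ Icc 1 x, rough η x m → |S k m| ≤ 3 * 2 ^ ⌈1 / η⌉₊ * BB D x := by
    intro k m hm hr
    refine (abs_S0_le (qq D x) (qq_two D x) (yk D x δ k) (fun T => abs_fL _ _)
      (s := 2 * (Real.log x)⁻¹) (Λ := 1 / 2 * Real.log x) (by positivity)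
      (fun T hT => by nlinarith [yk_lt hl hT, hLk k]) m).trans ?_
    have a5 : Real.exp (2 * (Real.log x)⁻¹ * (1 / 2 * Real.log x)) ≤ 3 :=
      exp_le_three (by field_simp; norm_num)
    have a6 := (card_dvd_le (qq D x) (gr_prime D x) (qq_inj D x)
      (show m ≠ 0 by have := (mem_Icc.1 hm).1; omega)).trans (card_rough_le hη hx hm hr)
    have a8 := one_le_Zf (qq D x) (qq_two D x) (2 * (Real.log x)⁻¹)
    rw [mul_assoc 3]
    gcongr
    norm_num
  have b1 := h1 (cell D x δ k) (cell D x δ k') (fun m => if m ∈ Icc 1 x ∧ rough η x m ∧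
      (m : ℝ) ≤ (x : ℝ) ^ (662 / 1000 : ℝ) then w m * (S k m * S k' m) / (K1 * BB D x ^ 2)
      else 0) (lo η x) (hi η x) (abs_cell _ _ _ _) (abs_cell _ _ _ _) hlev'
    (fun m => by
      split_ifs with h
      · rw [abs_div, abs_of_pos (show 0 < K1 * BB D x ^ 2 by positivity),
          div_le_one (by positivity), abs_mul, abs_mul]
        have a2 := hw m (mem_Icc.1 h.1).1 h.2.2
        refine (mul_le_mul a2 (mul_le_mul (hSb k m h.1 h.2.1) (hSb k' m h.1 h.2.1) (abs_nonneg _)
          (by positivity)) (by positivity) (by norm_num)).trans (le_of_eq ?_)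
        rw [hK1]; ring
      · simp)
    (fun m hm => by
      have h := not_not.1 fun h => hm (if_neg h)
      exact ⟨h.2.1.1, h.2.2.trans (Real.rpow_le_rpow_of_exponent_le hx'.le (by linarith)),
        h.2.1.2⟩)
    (fun j => by
      refine ⟨?_, (Nat.floor_le (by positivity)).trans (by gcongr; linarith)⟩
      have a1 := (le_max_left _ _).trans_lt (Nat.lt_floor_add_one
        (max ((x : ℝ) ^ (339 / 1000 : ℝ)) (x * Real.exp (-(j * η)))))
      have a2 : (x : ℝ) ^ η ≤ (x : ℝ) ^ (1 / 1000 : ℝ) :=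
        Real.rpow_le_rpow_of_exponent_le hx'.le hη'
      have a3 : (x : ℝ) ^ (339 / 1000 : ℝ) = (x : ℝ) ^ (338 / 1000 : ℝ) * (x : ℝ) ^ (1 / 1000 : ℝ) := by
        rw [← Real.rpow_add hx0]; norm_num
      have a4 : 1 ≤ (x : ℝ) ^ (1 / 1000 : ℝ) := Real.one_le_rpow hx'.le (by norm_num)
      unfold lo
      nlinarith)
  have b2 := h2 _ _ (abs_cell D x δ k) (abs_cell D x δ k') fun T U a1 a2 =>
    (hlev' T U a1 a2).trans (by nlinarith)
  have hG : GS D a x η δ k k' w = ∑ m ∈ Icc 1 x with rough η x m, ∑ p ∈ P m,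
    Real.log p / Real.log x * w m * (S k m * S k' m) := rfl
  have b3 : |GS D a x η δ k k' w| ≤ x / primorial D * BB D x * 2 := by
    have a1 := int_HH (Lk δ k)
    have a2 := int_HH (Lk δ k')
    have a3 : 0 ≤ x / primorial D * BB D x := by positivity
    refine le_trans ?_ (show (_ + _) / 2 ≤ _ by
      have := add_le_add (h4.trans (mul_le_mul_of_nonneg_left (add_le_add a1 le_rfl) a3))
        (h5.trans (mul_le_mul_of_nonneg_left (add_le_add a2 le_rfl) a3))
      exact (div_le_div_of_nonneg_right this zero_le_two).trans (le_of_eq (by ring)))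
    rw [← sum_add_distrib, sum_div, hG]
    refine (abs_sum_le_sum_abs _ _).trans (sum_le_sum fun m hm => ?_)
    rw [← sum_add_distrib, sum_div]
    refine (abs_sum_le_sum_abs _ _).trans (sum_le_sum fun p hp => ?_)
    have hm0 := (mem_Icc.1 (mem_filter.1 hm).1).1
    have a4 := hw m hm0 (h6 m p hm0 (mem_filter.1 hp).1)
    rw [mul_assoc, abs_mul, abs_of_nonneg (hv0 p), ← mul_add, mul_div_assoc, abs_mul]
    refine mul_le_mul_of_nonneg_left ((mul_le_of_le_one_left (abs_nonneg _) a4).trans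
      (abs_le.2 ⟨?_, ?_⟩)) (hv0 p)
    · nlinarith [sq_nonneg (S k m + S k' m)]
    · nlinarith [sq_nonneg (S k m - S k' m)]
  set R := ∑ m ∈ Icc 1 x, (if m ∈ Icc 1 x ∧ rough η x m ∧ (m : ℝ) ≤ (x : ℝ) ^ (662 / 1000 : ℝ) then
    w m * (S k m * S k' m) / (K1 * BB D x ^ 2) else 0) * ∑ p ∈ P m, Real.log p *
      (SS (qq D x) g (cell D x δ k) (p * m : ℕ) * SS (qq D x) g (cell D x δ k') (p * m : ℕ) -
        Tbar (qq D x) g (cell D x δ k) (cell D x δ k')) with hR
  have e1 : ∑ m ∈ Ioc x (2 * x) with m ≡ a [MOD primorial D],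
      aw η x w m * (ZZ D x g δ k m * ZZ D x g δ k' m) = K1 * BB D x ^ 2 / Real.log x * R +
      GS D a x η δ k k' w * Tbar (qq D x) g (cell D x δ k) (cell D x δ k') := by
    rw [aw_reindex hη, hR, hG, mul_sum, sum_mul, sum_filter, sum_filter, ← sum_add_distrib]
    refine sum_congr rfl fun m hm => ?_
    by_cases hr : rough η x m
    swap
    · simp [hr]
    rw [if_pos hr, if_pos hr, mul_sum, mul_sum, sum_mul, ← sum_add_distrib]
    refine sum_congr rfl fun p hp => ?_
    have hm0 := (mem_Icc.1 hm).1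
    obtain ⟨a1, a2, -⟩ := mem_filter.1 hp
    have a3 : 339 / 1000 * Real.log x < Real.log p := by
      rw [← Real.log_rpow hx0]
      exact Real.log_lt_log (by positivity) (box_mem hη hm0 a1).1
    have a4 : ∀ k, S0 (qq D x) (yk D x δ k) (p * m : ℕ) = S k m := fun k =>
      S0_mul_prime _ (gr_prime D x) _ a2 (fun T hT => by nlinarith [yk_lt hl hT, hLk k]) m
    rw [if_pos ⟨hm, hr, h6 m p hm0 a1⟩, ZZ, ZZ, a4, a4]
    field_simp
    ring
  have b5 : K1 * BB D x ^ 2 / Real.log x * R ≤ x / primorial D * BB D x ^ 4 * ε := by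
    refine (mul_le_mul_of_nonneg_left ((le_abs_self _).trans b1) (by positivity)).trans
      (le_of_eq ?_)
    unfold BB
    rw [← hVd]
    field_simp
  have b6 := (le_abs_self _).trans ((abs_mul _ _).le.trans
    (mul_le_mul b3 b2 (abs_nonneg _) (by positivity)))
  rw [e1]
  unfold nuu
  nlinarith

omit hD hg hg8 in
/-- The detector of integers with at least four prime factors. -/
noncomputable def phi (η : ℝ) (x m : ℕ) : ℝ :=
  ∑ p ∈ m.primeFactors with η < Real.log (p : ℕ) / Real.log x ∧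
    Real.log (p : ℕ) / Real.log x ≤ 339 / 1000, Real.log (p : ℕ) / Real.log x +
    aw η x (fun m => 1 - psi x m) m

omit hD hg hg8 in
theorem psi_mem {x m : ℕ} (hx : 1 < x) (hm : 0 < m) (h : (m : ℝ) ≤ (x : ℝ) ^ (662 / 1000 : ℝ)) :
    0 ≤ psi x m ∧ psi x m ≤ 3 := by
  have hl : 0 < Real.log x := Real.log_pos (by exact_mod_cast hx)
  have h1 : Real.log m / Real.log x ≤ 662 / 1000 := by
    rw [div_le_iff₀ hl, ← Real.log_rpow (by positivity)]
    exact Real.log_le_log (by positivity) h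
  unfold psi
  split_ifs
  · exact ⟨inv_nonneg.2 (by linarith), by rw [inv_le_comm₀ (by linarith) (by norm_num)]; linarith⟩
  · norm_num

theorem pair (ha : Nat.Coprime a (primorial D)) {ε η c e C : ℝ} (hε : 0 < ε) (hη : 0 < η)
    (hη' : η ≤ 1 / 1000) (hδ : 0 < δ) (hC : 0 < C) (hc : |c| ≤ C) (he : |e| ≤ C)
    (hk : k = k' → 0 ≤ c ∧ 0 ≤ e) (hlev : e = 0 ∨ (k + 1) * δ + (k' + 1) * δ ≤ 499 / 1000) :
    ∀ᶠ x : ℕ in atTop, ∑ m ∈ Ioc x (2 * x) with m ≡ a [MOD primorial D],
      (c + e * phi η x m) * (ZZ D x g δ k m * ZZ D x g δ k' m) ≤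
      x / primorial D * BB D x * (c * nn (Lk δ k) + e * cost2 η (Lk δ k) + 4 * C * ε) *
        nuu D x δ k k' + x / primorial D * BB D x ^ 4 * (C * ((5 + 2 / η) * eD D + 4 * ε)) := by
  classical
  have hLk : Lk δ k ≤ 31 / 100 := sub_le_self _ (by positivity)
  have hD0 := eD_nonneg D
  obtain ⟨e, rfl⟩ : ∃ e', e = C * e' := ⟨e / C, by field_simp⟩
  have he1 : |e| ≤ 1 := by
    rw [abs_mul, abs_of_pos hC] at he; exact (mul_le_iff_le_one_right hC).1 he
  have hC' : ∀ᶠ x : ℕ in atTop, ∑ m ∈ Ioc x (2 * x) with m ≡ a [MOD primorial D],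
      e * aw η x (fun m => 1 - psi x m) m * (ZZ D x g δ k m * ZZ D x g δ k' m) ≤
      e * GS D a x η δ k k' (fun m => 1 - psi x m) * nuu D x δ k k' +
        2 * (x / primorial D * BB D x ^ 4 * (2 * eD D + ε)) := by
    rcases hlev with h | h
    · refine Eventually.of_forall fun x => ?_
      have := Meas.BB_nonneg D x
      simp only [(mul_eq_zero.1 h).resolve_left hC.ne', zero_mul, sum_const_zero, zero_add]
      positivity
    filter_upwards [pairC hD hg hg8 a δ k k' ha hε hη hη' hδ h, eventually_gt_atTop 1] with x h1 hx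
    have h2 := mul_le_mul_of_nonneg_left (h1 (fun m => e / 2 * (1 - psi x m)) fun m a1 a2 => by
      have a3 := psi_mem hx a1 a2
      have a4 : |1 - psi x m| ≤ 2 := abs_le.2 ⟨by linarith, by linarith⟩
      rw [abs_mul, abs_div, abs_two]
      nlinarith [abs_nonneg e]) zero_le_two
    have e1 : ∀ m, 2 * aw η x (fun m => e / 2 * (1 - psi x m)) m =
        e * aw η x (fun m => 1 - psi x m) m := fun m => by
      simp only [aw, mul_sum]
      exact sum_congr rfl fun _ _ => by ring
    have e2 : 2 * GS D a x η δ k k' (fun m => e / 2 * (1 - psi x m)) =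
        e * GS D a x η δ k k' (fun m => 1 - psi x m) := by
      simp only [GS, mul_sum]
      exact sum_congr rfl fun _ _ => sum_congr rfl fun _ _ => by ring
    rw [mul_add, mul_sum, ← mul_assoc, e2] at h2
    exact (sum_congr rfl fun m _ => by rw [← e1, mul_assoc]).trans_le h2
  filter_upwards [hC', pairA hD hg hg8 a δ k k' hε, pairB hD hg hg8 a δ k k' hε hη he1,
    (F1 D (hLk.trans (by norm_num))).eventually_le_const (lt_add_of_pos_right _ hε),
    F2 D (hLk.trans (by norm_num)) hη (by linarith) hε,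
    F3 D a ha (hLk.trans (by norm_num)) hη (by linarith) hε,
    F4 D a ha (hLk.trans (by norm_num)) hη hη' hε, Meas.BB_pos D] with x h1 h2 h3 h4 h5 h6 h7 hB
  have hX : 0 ≤ (x : ℝ) / primorial D := by positivity
  have h8 := (le_abs_self _).trans ((abs_mul _ _).le.trans
    (mul_le_mul hc h2 (abs_nonneg _) hC.le))
  have h9 := mul_le_mul_of_nonneg_left (add_le_add h3 h1) hC.le
  have e1 : ∑ m ∈ Ioc x (2 * x) with m ≡ a [MOD primorial D],
      (c + C * e * phi η x m) * (ZZ D x g δ k m * ZZ D x g δ k' m) =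
      c * ∑ m ∈ Ioc x (2 * x) with m ≡ a [MOD primorial D], ZZ D x g δ k m * ZZ D x g δ k' m +
      C * (∑ m ∈ Ioc x (2 * x) with m ≡ a [MOD primorial D],
        (∑ p ∈ m.primeFactors with η < Real.log (p : ℕ) / Real.log x ∧
          Real.log (p : ℕ) / Real.log x ≤ 339 / 1000, e * (Real.log (p : ℕ) / Real.log x)) *
          (ZZ D x g δ k m * ZZ D x g δ k' m) + ∑ m ∈ Ioc x (2 * x) with m ≡ a [MOD primorial D],
        e * aw η x (fun m => 1 - psi x m) m * (ZZ D x g δ k m * ZZ D x g δ k' m)) := by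
    rw [← sum_add_distrib, mul_sum, mul_sum, ← sum_add_distrib]
    refine sum_congr rfl fun m _ => ?_
    rw [← mul_sum, phi]; ring
  rw [e1]
  refine (add_le_add (sub_le_iff_le_add.1 ((mul_sub _ _ _).ge.trans h8)) h9).trans ?_
  by_cases h : k = k'
  · subst h
    obtain ⟨c0, e0⟩ := hk rfl
    have a1 := nuu_nonneg D x δ k
    have a2 : GS D a x η δ k k (fun m => 1 - psi x m) ≤ _ := le_trans (le_of_eq (by
      simp only [GS, ← sum_sub_distrib]
      exact sum_congr rfl fun _ _ => sum_congr rfl fun _ _ => by ring)) (sub_le_sub h6 h7)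
    rw [div_le_iff₀ hB] at h4
    have a3 := mul_le_mul_of_nonneg_left a2 (mul_nonneg e0 a1)
    have a4 := mul_le_mul_of_nonneg_left h4 (mul_nonneg (mul_nonneg hX a1) c0)
    have a5 := mul_le_mul_of_nonneg_left h5 (mul_nonneg (mul_nonneg hX a1) e0)
    have a6 : 0 ≤ x / primorial D * nuu D x δ k k * BB D x * ε := by positivity
    have a7 := mul_le_mul_of_nonneg_left (le_of_abs_le hc) a6
    have a8 := mul_le_mul_of_nonneg_left (le_of_abs_le he) a6
    simp only [mul_div_assoc e, mul_assoc e, ← mul_sum]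
    unfold cost2 yk
    linarith
  · simp only [nuu_ne D x hδ h, mul_zero, zero_add, add_zero]
    exact le_of_eq (by ring)

end

end Pool.Agent.Lib.MP_fc51f7_nt.P3
end
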